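import Pool.Agent.Work.MP_58cfe3_nt.MeanA

/-!
# Module CubeB (size M): degenerate cubes

PROOFS. `dds_eq`: `dds l f = cube f e` for `e i = l.get i` (`l = List.ofFn e`): iterated `dd` gives the product
over all subsets with alternating conjugates. Induction on `r` with `Fin.cons`: subsets of `Fin (r+1)` are
`A.map succ` and `insert 0 (A.map succ)`; `dd s f (n) = f(n) conj f(n+s)` and
`cube (dd s f) e n = ∏_A C^{|A|}(f(n + v_A) conj f(n + s + v_A))`.
`BB_le`: unfolding the recursion, `BB M D l g = ∑_{d ∈ D^r} ‖M (dds (l_i d_i) g)‖` (by induction; e.g. as a sum over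
`Fin r → D` with `Fintype.piFinset`, `Fin.consPiProd`, or state the bound directly by induction on the length
with a set of bad tuples). Each term is at most `1`, and it is `0` if the `2^r` numbers
`∑_{i∈A} l_i d_i` are distinct (hypothesis `h0`). If two of them coincide, there is a vector
`w ∈ {-1,0,1}^r`, `w ≠ 0` with `∑ w_i l_i d_i = 0`; for fixed `w` with `w_i ≠ 0` the number `d_i` is determined by
the other ones (`l_i ≠ 0`), so there are at most `3^r |D|^(r-1)` bad tuples. For `r ≥ 1`.
-/

set_option autoImplicit false

namespace Pool.Agent.Work.MP_58cfe3_nt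

open Filter Topology

private theorem prod_finset_succ {r : ℕ} (F : Finset (Fin (r + 1)) → ℂ) :
    ∏ B, F B = ∏ A : Finset (Fin r),
      (F (A.map (Fin.succEmb r)) * F (insert 0 (A.map (Fin.succEmb r)))) := by
  classical
  rw [← Finset.prod_filter_mul_prod_filter_not Finset.univ
    (fun B : Finset (Fin (r + 1)) => (0 : Fin (r + 1)) ∉ B), Finset.prod_mul_distrib]
  congr 1
  · symm
    refine Finset.prod_bij (fun A _ => A.map (Fin.succEmb r)) ?_ ?_ ?_ (fun _ _ => rfl)
    · intro A _
      simp [Fin.succ_ne_zero]
    · intro A _ B _ h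
      exact Finset.map_injective _ h
    · intro B hB
      have h0 : (0 : Fin (r + 1)) ∉ B := (Finset.mem_filter.1 hB).2
      refine ⟨Finset.univ.filter (fun i => i.succ ∈ B), Finset.mem_univ _, ?_⟩
      ext j
      refine Fin.cases ?_ (fun i => ?_) j
      · simp [Fin.succ_ne_zero, h0]
      · simp
  · symm
    refine Finset.prod_bij (fun A _ => insert 0 (A.map (Fin.succEmb r))) ?_ ?_ ?_ (fun _ _ => rfl)
    · intro A _
      simp
    · intro A _ B _ h
      have : (insert 0 (A.map (Fin.succEmb r))).erase 0 =
          (insert 0 (B.map (Fin.succEmb r))).erase 0 := by rw [h]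
      rw [Finset.erase_insert (by simp [Fin.succ_ne_zero]),
        Finset.erase_insert (by simp [Fin.succ_ne_zero])] at this
      exact Finset.map_injective _ this
    · intro B hB
      have h0 : (0 : Fin (r + 1)) ∈ B := by
        have := (Finset.mem_filter.1 hB).2
        simpa using this
      refine ⟨Finset.univ.filter (fun i => i.succ ∈ B), Finset.mem_univ _, ?_⟩
      ext j
      refine Fin.cases ?_ (fun i => ?_) j
      · simp [h0]
      · simp [Fin.succ_ne_zero]

private theorem vert_map {r : ℕ} (e : Fin (r + 1) → ℤ) (A : Finset (Fin r)) :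
    vert e (A.map (Fin.succEmb r)) = vert (fun i => e i.succ) A := by
  unfold vert
  rw [Finset.sum_map]
  rfl

private theorem vert_insert {r : ℕ} (e : Fin (r + 1) → ℤ) (A : Finset (Fin r)) :
    vert e (insert 0 (A.map (Fin.succEmb r))) = e 0 + vert (fun i => e i.succ) A := by
  rw [← vert_map]
  unfold vert
  rw [Finset.sum_insert (by simp [Fin.succ_ne_zero])]

private theorem cube_succ (g : ℤ → ℂ) {r : ℕ} (e : Fin (r + 1) → ℤ) :
    cube (dd (e 0) g) (fun i => e i.succ) = cube g e := by
  funext n
  unfold cube
  rw [prod_finset_succ]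
  refine Finset.prod_congr rfl fun A _ => ?_
  rw [vert_map, vert_insert, Finset.card_insert_of_notMem (by simp [Fin.succ_ne_zero]),
    Finset.card_map]
  unfold dd
  have e1 : n + vert (fun i => e i.succ) A + e 0 = n + (e 0 + vert (fun i => e i.succ) A) := by
    ring
  rw [e1]
  by_cases h : Even A.card
  · have h2 : ¬ Even (A.card + 1) := by rw [Nat.even_add_one]; simpa using h
    rw [if_pos h, if_pos h, if_neg h2]
  · have h2 : Even (A.card + 1) := by rw [Nat.even_add_one]; exact h
    rw [if_neg h, if_neg h, if_pos h2, star_mul', star_star]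

theorem dds_eq (g : ℤ → ℂ) {r : ℕ} (e : Fin r → ℤ) : dds (List.ofFn e) g = cube g e := by
  induction r generalizing g with
  | zero =>
    funext n
    simp only [dds, cube, vert, List.ofFn_zero, Finset.univ_unique, Finset.prod_singleton]
    rw [show (default : Finset (Fin 0)) = ∅ from Subsingleton.elim _ _]
    simp
  | succ r ih =>
    rw [List.ofFn_succ, dds, ih, cube_succ]

private theorem BB_sum (M : (ℤ → ℂ) → ℂ) (D : Finset ℤ) {r : ℕ} (g : ℤ → ℂ) (l : Fin r → ℤ) :
    BB M D (List.ofFn l) g = ∑ d ∈ Fintype.piFinset (fun _ : Fin r => D),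
      ‖M (cube g fun i => l i * d i)‖ := by
  induction r generalizing g with
  | zero =>
    have h1 : Fintype.piFinset (fun _ : Fin 0 => D) = {fun i => i.elim0} := by
      ext f
      simp only [Fintype.mem_piFinset, Finset.mem_singleton]
      constructor
      · intro _
        funext i
        exact i.elim0
      · intro _ i
        exact i.elim0
    rw [h1, Finset.sum_singleton, ← dds_eq]
    simp [BB, dds]
  | succ r ih =>
    rw [List.ofFn_succ, BB]
    simp_rw [ih]
    rw [← Finset.sum_product']
    refine Finset.sum_bij' (fun x _ => Fin.cons x.1 x.2) (fun f _ => (f 0, fun i => f i.succ))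
      ?_ ?_ ?_ ?_ ?_
    · intro x hx
      rw [Finset.mem_product, Fintype.mem_piFinset] at hx
      rw [Fintype.mem_piFinset]
      intro i
      refine Fin.cases ?_ (fun j => ?_) i
      · simpa using hx.1
      · simpa using hx.2 j
    · intro f hf
      rw [Fintype.mem_piFinset] at hf
      rw [Finset.mem_product, Fintype.mem_piFinset]
      exact ⟨hf 0, fun i => hf i.succ⟩
    · intro x _
      rfl
    · intro f _
      funext i
      refine Fin.cases ?_ (fun j => ?_) i
      · rfl
      · rfl
    · intro x _
      congr 2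
      rw [← cube_succ]
      simp

private theorem card_sol (D : Finset ℤ) {r : ℕ} (l w : Fin r → ℤ) (hl : ∀ i, l i ≠ 0) (hw : w ≠ 0) :
    ((Fintype.piFinset (fun _ : Fin r => D)).filter
      (fun d => ∑ i, w i * (l i * d i) = 0)).card * D.card ≤ D.card ^ r := by
  classical
  obtain ⟨j, hj⟩ := Function.ne_iff.1 hw
  have hcard : D.card ^ r = (Fintype.piFinset (fun _ : Fin r => D)).card := by
    rw [Fintype.card_piFinset_const]
    try simp
  rw [hcard, ← Finset.card_product]
  refine Finset.card_le_card_of_injOn (fun x => Function.update x.1 j x.2) ?_ ?_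
  · intro x hx
    rw [Finset.mem_coe, Finset.mem_product, Finset.mem_filter, Fintype.mem_piFinset] at hx
    rw [Finset.mem_coe, Fintype.mem_piFinset]
    intro i
    by_cases hi : i = j
    · subst hi
      simpa using hx.2
    · simpa [Function.update_of_ne hi] using hx.1.1 i
  · intro x hx y hy hxy
    rw [Finset.mem_coe, Finset.mem_product, Finset.mem_filter] at hx hy
    have h2 : x.2 = y.2 := by
      have := congrFun hxy j
      simpa using this
    have hne : ∀ i, i ≠ j → x.1 i = y.1 i := by
      intro i hi
      have := congrFun hxy i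
      simpa [Function.update_of_ne hi] using this
    have hjj : x.1 j = y.1 j := by
      have e1 := hx.1.2
      have e2 := hy.1.2
      have h3 : ∑ i, w i * (l i * x.1 i) - ∑ i, w i * (l i * y.1 i) = 0 := by rw [e1, e2, sub_zero]
      rw [← Finset.sum_sub_distrib, Finset.sum_eq_single j] at h3
      · have h4 : w j * l j * (x.1 j - y.1 j) = 0 := by linear_combination h3
        rcases mul_eq_zero.1 h4 with h5 | h5
        · rcases mul_eq_zero.1 h5 with h6 | h6
          · exact absurd h6 hj
          · exact absurd h6 (hl j)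
        · linarith
      · intro i _ hi
        rw [hne i hi, sub_self]
      · intro h
        exact absurd (Finset.mem_univ _) h
    refine Prod.ext ?_ h2
    funext i
    by_cases hi : i = j
    · rw [hi]; exact hjj
    · exact hne i hi

theorem BB_le {M : (ℤ → ℂ) → ℂ} (hM : IsMean M) {g : ℤ → ℂ} (hg : ∀ n, ‖g n‖ ≤ 1) {r : ℕ}
    (h0 : ∀ e : Fin r → ℤ, Function.Injective (vert e) → M (cube g e) = 0)
    (D : Finset ℤ) (hD : D.Nonempty) (l : Fin r → ℤ) (hl : ∀ i, l i ≠ 0) :
    BB M D (List.ofFn l) g * D.card ≤ 3 ^ r * (D.card : ℝ) ^ r := by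
  classical
  have _ := hD
  obtain ⟨W, hW⟩ : ∃ W : Finset (Fin r → ℤ), W =
      (Fintype.piFinset (fun _ : Fin r => ({-1, 0, 1} : Finset ℤ))).filter (fun w => w ≠ 0) :=
    ⟨_, rfl⟩
  have hWc : W.card ≤ 3 ^ r := by
    rw [hW]
    refine (Finset.card_filter_le _ _).trans ?_
    rw [Fintype.card_piFinset_const]
    simp
  let S : (Fin r → ℤ) → Finset (Fin r → ℤ) := fun w =>
    (Fintype.piFinset (fun _ : Fin r => D)).filter (fun d => ∑ i, w i * (l i * d i) = 0)
  have h1 : BB M D (List.ofFn l) g ≤ ((W.biUnion S).card : ℝ) := by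
    rw [BB_sum]
    have h2 : ∀ d ∈ Fintype.piFinset (fun _ : Fin r => D), ‖M (cube g fun i => l i * d i)‖ ≤
        if d ∈ W.biUnion S then (1 : ℝ) else 0 := by
      intro d hd
      split_ifs with h
      · exact hM.le _ 1 (norm_cube_le hg _)
      · have : Function.Injective (vert fun i => l i * d i) := by
          by_contra hcon
          apply h
          rw [Function.not_injective_iff] at hcon
          obtain ⟨A, B, hAB, hne⟩ := hcon
          rw [Finset.mem_biUnion]
          refine ⟨fun i => (if i ∈ A then 1 else 0) - (if i ∈ B then 1 else 0), ?_, ?_⟩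
          · rw [hW, Finset.mem_filter, Fintype.mem_piFinset]
            constructor
            · intro i
              by_cases hA : i ∈ A <;> by_cases hB : i ∈ B <;> simp [hA, hB]
            · intro h0
              apply hne
              ext i
              have := congrFun h0 i
              by_cases hA : i ∈ A <;> by_cases hB : i ∈ B <;> simp [hA, hB] at this ⊢
          · rw [Finset.mem_filter]
            refine ⟨hd, ?_⟩
            unfold vert at hAB
            have e1 : ∀ A : Finset (Fin r), ∑ i ∈ A, l i * d i =
                ∑ i, (if i ∈ A then (1 : ℤ) else 0) * (l i * d i) := by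
              intro A
              simp only [ite_mul, one_mul, zero_mul, Finset.sum_ite_mem, Finset.univ_inter]
            rw [e1 A, e1 B] at hAB
            simp only [sub_mul, Finset.sum_sub_distrib]
            linarith
        rw [h0 _ this, norm_zero]
    refine (Finset.sum_le_sum h2).trans ?_
    rw [Finset.sum_ite, Finset.sum_const_zero, add_zero, Finset.sum_const, nsmul_eq_mul, mul_one]
    exact_mod_cast Finset.card_le_card (fun d hd => (Finset.mem_filter.1 hd).2)
  have h3 : (W.biUnion S).card * D.card ≤ 3 ^ r * D.card ^ r := by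
    calc (W.biUnion S).card * D.card ≤ (∑ w ∈ W, (S w).card) * D.card :=
          Nat.mul_le_mul_right _ Finset.card_biUnion_le
      _ = ∑ w ∈ W, (S w).card * D.card := by rw [Finset.sum_mul]
      _ ≤ ∑ w ∈ W, D.card ^ r := by
          refine Finset.sum_le_sum fun w hw => card_sol D l w hl ?_
          rw [hW] at hw
          exact (Finset.mem_filter.1 hw).2
      _ = W.card * D.card ^ r := by rw [Finset.sum_const, smul_eq_mul]
      _ ≤ 3 ^ r * D.card ^ r := Nat.mul_le_mul_right _ hWc
  calc BB M D (List.ofFn l) g * D.card ≤ ((W.biUnion S).card : ℝ) * D.card :=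
        mul_le_mul_of_nonneg_right h1 (Nat.cast_nonneg _)
    _ ≤ 3 ^ r * (D.card : ℝ) ^ r := by exact_mod_cast h3

end Pool.Agent.Work.MP_58cfe3_nt
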