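import Pool.Agent.Work.MP_58cfe3_nt.MDefs

/-!
# Module PrimeB (size S-M): the primes in `(H, 4H]`

PROOF. Mathlib `Mathlib/NumberTheory/Chebyshev.lean`: `Chebyshev.theta_ge (n)`:
`n log 2 - log (n+1) - 2 √n log n ≤ θ n`, `Chebyshev.theta_le_log4_mul_x`: `θ x ≤ log 4 * x`. So
`∑_{p ∈ PB H} log p = θ(4H) - θ(H) ≥ 4 H log 2 - 2 H log 2 - o(H) ≥ H` for large `H`, and each `log p ≤ log (4H)
≤ 2 log H`; hence `|PB H| ≥ H / (2 log H)`. `∏_{p ∈ PB H} p` divides `primorial (4H) ≤ 4^(4H)`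
(`primorial_le_four_pow`), or sum of logs `≤ θ(4H)`.
-/

set_option autoImplicit false

namespace Pool.Agent.Work.MP_58cfe3_nt

open Filter Topology

private theorem sum_PB_add (H : ℕ) :
    ∑ p ∈ PB H, Real.log p + Chebyshev.theta (H : ℝ) = Chebyshev.theta ((4 * H : ℕ) : ℝ) := by
  unfold Chebyshev.theta PB
  rw [Nat.floor_natCast, Nat.floor_natCast, add_comm, ← Finset.sum_union]
  · refine Finset.sum_congr ?_ fun _ _ => rfl
    rw [← Finset.filter_union]
    congr 1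
    rw [Finset.Ioc_union_Ioc_eq_Ioc (Nat.zero_le _) (by omega)]
  · refine Finset.disjoint_filter_filter ?_
    rw [Finset.disjoint_left]
    intro a ha hb
    have h1 := (Finset.mem_Ioc.1 ha).2
    have h2 := (Finset.mem_Ioc.1 hb).1
    omega

private theorem ev_small : ∀ᶠ H : ℕ in atTop,
    Real.log (4 * H + 1) + 4 * Real.sqrt H * Real.log (4 * H) ≤ (38 / 100) * H := by
  have h1 := (isLittleO_log_rpow_atTop (show (0 : ℝ) < 1 / 2 by norm_num)).bound
    (show (0 : ℝ) < 1 / 200 by norm_num)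
  have h2 : Tendsto (fun H : ℕ => (4 * (H : ℝ) + 1)) atTop atTop :=
    tendsto_atTop_add_const_right _ _
      (tendsto_natCast_atTop_atTop.const_mul_atTop (by norm_num : (0 : ℝ) < 4))
  filter_upwards [h2.eventually h1, eventually_ge_atTop 1] with H hH h1H
  have hH1 : (1 : ℝ) ≤ H := by exact_mod_cast h1H
  set y : ℝ := 4 * (H : ℝ) + 1 with hy
  have hy1 : 1 ≤ y := by linarith
  have hlog0 : 0 ≤ Real.log y := Real.log_nonneg hy1
  rw [← Real.sqrt_eq_rpow, Real.norm_of_nonneg hlog0, Real.norm_of_nonneg (Real.sqrt_nonneg _)] at hH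
  have hs : Real.sqrt y * Real.sqrt y = y := Real.mul_self_sqrt (by linarith)
  have hs1 : 1 ≤ Real.sqrt y := Real.one_le_sqrt.2 hy1
  have h3 : Real.log (4 * H) ≤ Real.log y := Real.log_le_log (by linarith) (by linarith)
  have h4 : Real.sqrt H ≤ Real.sqrt y := Real.sqrt_le_sqrt (by linarith)
  have h5 : 0 ≤ Real.log (4 * H) := Real.log_nonneg (by linarith)
  have h6 : Real.sqrt H * Real.log (4 * H) ≤ Real.sqrt y * (1 / 200 * Real.sqrt y) :=
    mul_le_mul h4 (h3.trans hH) h5 (Real.sqrt_nonneg _)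
  have h7 : Real.sqrt y * (1 / 200 * Real.sqrt y) = y / 200 := by
    calc Real.sqrt y * (1 / 200 * Real.sqrt y) = (Real.sqrt y * Real.sqrt y) / 200 := by ring
      _ = y / 200 := by rw [hs]
  have h8 : Real.sqrt y ≤ y := by nlinarith
  nlinarith

theorem card_PB : ∃ H₀ : ℕ, ∀ H : ℕ, H₀ ≤ H → (H : ℝ) / (2 * Real.log H) ≤ (PB H).card := by
  obtain ⟨H₁, hH₁⟩ := eventually_atTop.1 ev_small
  refine ⟨max H₁ 4, fun H hH => ?_⟩
  have hH4 : 4 ≤ H := (le_max_right _ _).trans hH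
  have h0 := hH₁ H ((le_max_left _ _).trans hH)
  have hH' : (4 : ℝ) ≤ H := by exact_mod_cast hH4
  have hlog : 0 < Real.log H := Real.log_pos (by linarith)
  have h1 := sum_PB_add H
  have h2 := Chebyshev.theta_ge (4 * H)
  have h3 := Chebyshev.theta_le_log4_mul_x (x := (H : ℝ)) (by linarith)
  have hl4 : Real.log 4 = 2 * Real.log 2 := by
    rw [show (4 : ℝ) = 2 ^ 2 by norm_num, Real.log_pow]
    norm_num
  have hs4 : Real.sqrt ((4 * H : ℕ) : ℝ) = 2 * Real.sqrt H := by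
    push_cast
    rw [Real.sqrt_mul (by norm_num), show (4 : ℝ) = 2 ^ 2 by norm_num,
      Real.sqrt_sq (by norm_num)]
  rw [hs4] at h2
  rw [hl4] at h3
  push_cast at h1 h2
  have hl2 : (0.6931471803 : ℝ) < Real.log 2 := Real.log_two_gt_d9
  have h4 : (H : ℝ) ≤ ∑ p ∈ PB H, Real.log p := by nlinarith
  have h5 : ∑ p ∈ PB H, Real.log p ≤ ∑ _p ∈ PB H, 2 * Real.log H := by
    refine Finset.sum_le_sum fun p hp => ?_
    have hp1 := Finset.mem_Ioc.1 (Finset.mem_filter.1 hp).1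
    have hp2 : (p : ℝ) ≤ (H : ℝ) ^ 2 := by
      have : p ≤ H ^ 2 := hp1.2.trans (by nlinarith)
      exact_mod_cast this
    have hp3 : (0 : ℝ) < p := by
      have : 0 < p := by omega
      exact_mod_cast this
    calc Real.log p ≤ Real.log ((H : ℝ) ^ 2) := Real.log_le_log hp3 hp2
      _ = 2 * Real.log H := by rw [Real.log_pow]; norm_num
  rw [Finset.sum_const, nsmul_eq_mul] at h5
  rw [div_le_iff₀ (by positivity)]
  linarith

theorem log_prod_PB (H : ℕ) : Real.log ((∏ p ∈ PB H, p : ℕ) : ℝ) ≤ 4 * Real.log 4 * H := by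
  have h1 := sum_PB_add H
  have h2 := Chebyshev.theta_le_log4_mul_x (x := ((4 * H : ℕ) : ℝ)) (Nat.cast_nonneg _)
  have h3 := Chebyshev.theta_nonneg (H : ℝ)
  rw [Nat.cast_prod, Real.log_prod]
  · push_cast at h1 h2
    linarith
  · intro p hp
    have := (Finset.mem_filter.1 hp).2.pos
    positivity

theorem card_PB_le (H : ℕ) : (PB H).card ≤ 3 * H := by
  refine (Finset.card_filter_le _ _).trans ?_
  rw [Nat.card_Ioc]
  omega

end Pool.Agent.Work.MP_58cfe3_nt
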