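import Pool.Agent.Work.MP_58cfe3_nt.CSb
import Pool.Agent.Work.MP_58cfe3_nt.CubeB
import Pool.Agent.Work.MP_58cfe3_nt.PrimeB

/-!
# Module CSfin (size M): the companions are harmless at large scales

PROOF. In `cs_iter` take `P = PB H` (as integers), `D = Icc (-3H) (3H)`, `N = 7 H`. `BB_le` (list reversed:
`(List.ofFn l).reverse = List.ofFn (l ∘ Fin.rev)`) gives `BB ≤ 3^r |D|^(r-1)`, so
`‖T‖^(2^r) * |D| ≤ N^(2^r - r) 3^r |D|^r`, `‖T‖^(2^r) ≤ 3^r N^(2^r - r) N^(r-1)`-like, i.e.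
`‖T‖^(2^r) ≤ 3^r N^(2^r) / (6 H)` (use `6H ≤ |D| ≤ N`). With `|PB H| ≥ H/(2 log H)` (`card_PB`):
`(‖T‖ / |PB H|)^(2^r) ≤ 3^r (14 log H)^(2^r) / (6 H) → 0`, hence `≤ ε^(2^r)` for large `H`.
-/

set_option autoImplicit false

namespace Pool.Agent.Work.MP_58cfe3_nt

open Filter Topology

private theorem reverse_ofFn' {r : ℕ} (l : Fin r → ℤ) :
    (List.ofFn l).reverse = List.ofFn (l ∘ Fin.rev) := by
  apply List.ext_getElem
  · simp
  · intro i h1 h2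
    simp only [List.length_reverse, List.length_ofFn] at h1 h2
    rw [List.getElem_reverse]
    simp only [List.getElem_ofFn, Function.comp, List.length_ofFn]
    congr 1
    ext
    simp [Fin.rev]
    omega

private theorem eventually_log {r : ℕ} {ε : ℝ} (hε : 0 < ε) :
    ∀ᶠ H : ℕ in atTop, 3 ^ r * (14 * Real.log H) ^ (2 ^ r) ≤ ε ^ (2 ^ r) * (6 * (H : ℝ)) := by
  have h1 : (fun x : ℝ => Real.log x ^ (2 ^ r)) =o[atTop] id := Real.isLittleO_pow_log_id_atTop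
  set C : ℝ := ε ^ (2 ^ r) * 6 / (3 ^ r * 14 ^ (2 ^ r)) with hC
  have hCpos : 0 < C := by positivity
  have h2 := (h1.bound hCpos)
  have h3 : ∀ᶠ H : ℕ in atTop, ‖Real.log (H : ℝ) ^ (2 ^ r)‖ ≤ C * ‖(id (H : ℝ) : ℝ)‖ :=
    tendsto_natCast_atTop_atTop.eventually h2
  filter_upwards [h3, eventually_ge_atTop 1] with H hH h1H
  have hlog : 0 ≤ Real.log (H : ℝ) := Real.log_nonneg (by exact_mod_cast h1H)
  rw [Real.norm_of_nonneg (pow_nonneg hlog _), id, Real.norm_of_nonneg (Nat.cast_nonneg _)] at hH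
  rw [mul_pow]
  have hpos : (0 : ℝ) < 3 ^ r * 14 ^ (2 ^ r) := by positivity
  calc (3 : ℝ) ^ r * (14 ^ (2 ^ r) * Real.log H ^ (2 ^ r))
      = (3 ^ r * 14 ^ (2 ^ r)) * Real.log H ^ (2 ^ r) := by ring
    _ ≤ (3 ^ r * 14 ^ (2 ^ r)) * (C * H) := mul_le_mul_of_nonneg_left hH hpos.le
    _ = ε ^ (2 ^ r) * (6 * (H : ℝ)) := by
        rw [hC]; field_simp

theorem cs_fin {r : ℕ} {ε : ℝ} (hε : 0 < ε) : ∃ H₁ : ℕ, ∀ H : ℕ, H₁ ≤ H →
    ∀ (M : (ℤ → ℂ) → ℂ), IsMean M → ∀ (g : ℤ → ℂ), (∀ n, ‖g n‖ ≤ 1) →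
    (∀ e : Fin r → ℤ, Function.Injective (vert e) → M (cube g e) = 0) →
    ∀ (f : Fin r → ℤ → ℂ), (∀ i n, ‖f i n‖ ≤ 1) → ∀ (h₀ : ℤ) (h : Fin r → ℤ), (∀ i, h i ≠ h₀) →
    ∀ c : ℕ → ℂ, (∀ p, ‖c p‖ ≤ 1) →
    ‖∑ p ∈ PB H, c p * M (fun n => g (n + p * h₀) * ∏ i, f i (n + p * h i))‖ ≤
      ε * (PB H).card := by
  obtain ⟨H₀, hH₀⟩ := card_PB
  obtain ⟨H₂, hH₂⟩ := eventually_atTop.1 (eventually_log (r := r) hε)
  refine ⟨max (max H₀ H₂) 3, fun H hH M hM g hg h0 f hf h₀ h hh c hc => ?_⟩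
  have hH0 : H₀ ≤ H := (le_max_left _ _).trans ((le_max_left _ _).trans hH)
  have hH2 : H₂ ≤ H := (le_max_right _ _).trans ((le_max_left _ _).trans hH)
  have hH3 : 3 ≤ H := (le_max_right _ _).trans hH
  have hHr : (3 : ℝ) ≤ (H : ℝ) := by exact_mod_cast hH3
  have hcard := hH₀ H hH0
  have hev := hH₂ H hH2
  have hlog : 0 < Real.log (H : ℝ) := Real.log_pos (by linarith)
  -- the integer versions
  set P : Finset ℤ := (PB H).map Nat.castEmbedding with hP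
  set D : Finset ℤ := Finset.Icc (-(3 * H : ℤ)) (3 * H) with hD
  have hmemP : ∀ p ∈ P, (H : ℤ) < p ∧ p ≤ 4 * H := by
    intro p hp
    rw [hP, Finset.mem_map] at hp
    obtain ⟨q, hq, rfl⟩ := hp
    rw [PB, Finset.mem_filter, Finset.mem_Ioc] at hq
    simp only [Nat.castEmbedding_apply]
    constructor
    · exact_mod_cast hq.1.1
    · exact_mod_cast hq.1.2
  have hPD : ∀ p ∈ P, ∀ p' ∈ P, p' - p ∈ D := by
    intro p hp p' hp'
    have h1 := hmemP p hp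
    have h2 := hmemP p' hp'
    rw [hD, Finset.mem_Icc]
    constructor <;> omega
  have hDcard : D.card = 6 * H + 1 := by
    rw [hD, Int.card_Icc]
    omega
  have hDcardR : (D.card : ℝ) = 6 * H + 1 := by rw [hDcard]; push_cast; ring
  have hDN : (D.card : ℝ) ≤ 7 * H := by rw [hDcardR]; linarith
  have hN : (1 : ℝ) ≤ 7 * H := by linarith
  have hPcard : (P.card : ℝ) ≤ 7 * H := by
    rw [hP, Finset.card_map]
    have := card_PB_le H
    have h' : ((PB H).card : ℝ) ≤ 3 * H := by exact_mod_cast this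
    linarith
  have hDne : D.Nonempty := by
    rw [← Finset.card_pos, hDcard]; omega
  -- iterate
  have key := cs_iter hM D hN hDN r P hPcard hPD (fun p => c p.toNat) (fun p => hc _) g hg f hf
    h₀ h
  rw [reverse_ofFn'] at key
  have hBB := BB_le hM hg h0 D hDne ((fun i => h₀ - h i) ∘ Fin.rev)
    (fun i => sub_ne_zero.2 (hh (Fin.rev i)).symm)
  set B := BB M D (List.ofFn ((fun i => h₀ - h i) ∘ Fin.rev)) g with hB
  have hsum : ∑ p ∈ P, (fun p : ℤ => c p.toNat) p *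
      M (fun n => g (n + h₀ * p) * ∏ i, f i (n + h i * p)) =
      ∑ p ∈ PB H, c p * M (fun n => g (n + p * h₀) * ∏ i, f i (n + p * h i)) := by
    rw [hP, Finset.sum_map]
    refine Finset.sum_congr rfl fun p _ => ?_
    simp only [Nat.castEmbedding_apply, Int.toNat_natCast]
    congr 2
    funext n
    rw [mul_comm h₀ (p : ℤ)]
    congr 1
    refine Finset.prod_congr rfl fun i _ => ?_
    rw [mul_comm (h i) (p : ℤ)]
  rw [hsum] at key
  set T := ‖∑ p ∈ PB H, c p * M (fun n => g (n + p * h₀) * ∏ i, f i (n + p * h i))‖ with hT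
  have hTn : 0 ≤ T := norm_nonneg _
  have hr2 : r ≤ 2 ^ r := Nat.lt_two_pow_self.le
  have hDpos : (0 : ℝ) < D.card := by rw [hDcardR]; linarith
  have step1 : T ^ (2 ^ r) * D.card ≤ 3 ^ r * (7 * (H : ℝ)) ^ (2 ^ r) := by
    calc T ^ (2 ^ r) * D.card ≤ ((7 * (H : ℝ)) ^ (2 ^ r - r) * B) * D.card :=
          mul_le_mul_of_nonneg_right key hDpos.le
      _ = (7 * (H : ℝ)) ^ (2 ^ r - r) * (B * D.card) := by ring
      _ ≤ (7 * (H : ℝ)) ^ (2 ^ r - r) * (3 ^ r * (D.card : ℝ) ^ r) :=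
          mul_le_mul_of_nonneg_left hBB (by positivity)
      _ ≤ (7 * (H : ℝ)) ^ (2 ^ r - r) * (3 ^ r * (7 * (H : ℝ)) ^ r) := by
          gcongr
      _ = 3 ^ r * ((7 * (H : ℝ)) ^ (2 ^ r - r) * (7 * (H : ℝ)) ^ r) := by ring
      _ = 3 ^ r * (7 * (H : ℝ)) ^ (2 ^ r) := by rw [← pow_add, Nat.sub_add_cancel hr2]
  have step2 : T ^ (2 ^ r) * (6 * (H : ℝ)) ≤ 3 ^ r * (7 * (H : ℝ)) ^ (2 ^ r) := by
    refine le_trans (mul_le_mul_of_nonneg_left ?_ (pow_nonneg hTn _)) step1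
    rw [hDcardR]; linarith
  -- compare with the cardinality
  have h6 : (0 : ℝ) < 6 * (H : ℝ) := by linarith
  have step3 : T ^ (2 ^ r) ≤ (ε * (H / (2 * Real.log H))) ^ (2 ^ r) := by
    have e1 : (ε * ((H : ℝ) / (2 * Real.log H))) ^ (2 ^ r) * (2 * Real.log H) ^ (2 ^ r) =
        (ε * H) ^ (2 ^ r) := by
      rw [← mul_pow]; congr 1; field_simp
    have h2l : (0 : ℝ) < (2 * Real.log H) ^ (2 ^ r) := by positivity
    have h3 : T ^ (2 ^ r) * (2 * Real.log H) ^ (2 ^ r) * (6 * (H : ℝ)) ≤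
        (ε * H) ^ (2 ^ r) * (6 * (H : ℝ)) := by
      calc T ^ (2 ^ r) * (2 * Real.log H) ^ (2 ^ r) * (6 * (H : ℝ))
          = (T ^ (2 ^ r) * (6 * (H : ℝ))) * (2 * Real.log H) ^ (2 ^ r) := by ring
        _ ≤ (3 ^ r * (7 * (H : ℝ)) ^ (2 ^ r)) * (2 * Real.log H) ^ (2 ^ r) :=
            mul_le_mul_of_nonneg_right step2 h2l.le
        _ = (3 ^ r * (14 * Real.log H) ^ (2 ^ r)) * (H : ℝ) ^ (2 ^ r) := by
            rw [show (14 * Real.log (H : ℝ)) = 7 * (2 * Real.log H) by ring]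
            simp only [mul_pow]; ring
        _ ≤ (ε ^ (2 ^ r) * (6 * (H : ℝ))) * (H : ℝ) ^ (2 ^ r) :=
            mul_le_mul_of_nonneg_right hev (by positivity)
        _ = (ε * H) ^ (2 ^ r) * (6 * (H : ℝ)) := by rw [mul_pow]; ring
    have h4 := le_of_mul_le_mul_right h3 h6
    rw [← e1] at h4
    exact le_of_mul_le_mul_right h4 h2l
  have hne : (2 ^ r : ℕ) ≠ 0 := by positivity
  have hfin : T ≤ ε * (H / (2 * Real.log H)) :=
    le_of_pow_le_pow_left₀ hne (by positivity) step3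
  exact hfin.trans (mul_le_mul_of_nonneg_left hcard hε.le)

end Pool.Agent.Work.MP_58cfe3_nt
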