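import Pool.Agent.Work.MP_58cfe3_nt.Per

/-!
# Module DilM (size M): dilation of multiplicative functions

PROOF. `dil` gives `M (p [p ∣ n] ∏ f_j(n + p h_j)) = M (∏ f_j(p n + p h_j)) = M (∏ f_j(p (n + h_j)))`. If
`p ∤ n + h_j` then `f_j(p (n + h_j)) = f_j(p) f_j(n + h_j)` (multiplicativity for `n + h_j > 0`; for
`n + h_j ≤ 0` both sides are `0`). So the difference of the two functions is at most
`2 ∑_j [p ∣ n + h_j]`, with mean `2 k/p` (`mr_dvd`, `norm_mean_le`, `mr_mono`).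
-/

set_option autoImplicit false

namespace Pool.Agent.Work.MP_58cfe3_nt

open Filter Topology

private theorem dm_val {f : ℤ → ℂ} (hf : MulBdd f) {p : ℕ} (hp : p.Prime) {a : ℤ}
    (ha : ¬ (p : ℤ) ∣ a) : f (p * a) = f p * f a := by
  have hp0 : (0 : ℤ) < p := by exact_mod_cast hp.pos
  rcases le_or_gt a 0 with h | h
  · rw [hf.nonpos a h, hf.nonpos (p * a) (mul_nonpos_of_nonneg_of_nonpos hp0.le h), mul_zero]
  · exact hf.mul p a hp0 h ((Nat.prime_iff_prime_int.1 hp).coprime_iff_not_dvd.2 ha)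

theorem dil_mul {M : (ℤ → ℂ) → ℂ} (hM : IsMean M) {k : ℕ} (f : Fin k → ℤ → ℂ)
    (hf : ∀ i, MulBdd (f i)) (h : Fin k → ℕ) {p : ℕ} (hp : p.Prime) :
    ‖M (fun n => if (p : ℤ) ∣ n then (p : ℂ) * ∏ j, f j (n + p * h j) else 0) -
      (∏ j, f j p) * M (fun n => ∏ j, f j (n + h j))‖ ≤ 2 * k / p := by
  have hB1 : Bdd fun n : ℤ => ∏ j, f j (n + p * h j) :=
    Bdd.prod _ fun j _ => (hf j).bounded.shift fun n => n + p * h j
  have hB2 : Bdd fun n : ℤ => ∏ j, f j (p * n + p * h j) :=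
    Bdd.prod _ fun j _ => (hf j).bounded.shift fun n => p * n + p * h j
  have hB3 : Bdd fun n : ℤ => ∏ j, f j (n + h j) :=
    Bdd.prod _ fun j _ => (hf j).bounded.shift fun n => n + h j
  rw [hM.dil (fun n => ∏ j, f j (n + p * h j)) hB1 p hp.pos, ← hM.smul _ _ hB3,
    ← mean_sub hM hB2 (hB3.smul _)]
  have hone : ∀ n : ℤ, ‖∏ j, f j (p * n + p * h j) - (∏ j, f j p) * ∏ j, f j (n + h j)‖ ≤ 2 := by
    intro n
    have h1 : ‖∏ j, f j (p * n + p * h j)‖ ≤ 1 := norm_prod_le_one _ _ fun j _ => (hf j).bdd _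
    have h2 : ‖∏ j, f j p‖ ≤ 1 := norm_prod_le_one _ _ fun j _ => (hf j).bdd _
    have h3 : ‖∏ j, f j (n + h j)‖ ≤ 1 := norm_prod_le_one _ _ fun j _ => (hf j).bdd _
    calc ‖∏ j, f j (p * n + p * h j) - (∏ j, f j p) * ∏ j, f j (n + h j)‖
        ≤ ‖∏ j, f j (p * n + p * h j)‖ + ‖(∏ j, f j p) * ∏ j, f j (n + h j)‖ := norm_sub_le _ _
      _ ≤ 1 + 1 * 1 := by
          rw [norm_mul]
          exact add_le_add h1 (mul_le_mul h2 h3 (norm_nonneg _) zero_le_one)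
      _ = 2 := by norm_num
  have hpt : ∀ n : ℤ, ‖∏ j, f j (p * n + p * h j) - (∏ j, f j p) * ∏ j, f j (n + h j)‖ ≤
      ∑ j : Fin k, 2 * (if (p : ℤ) ∣ n + (h j : ℤ) then (1 : ℝ) else 0) := by
    intro n
    by_cases hex : ∃ j : Fin k, (p : ℤ) ∣ n + (h j : ℤ)
    · obtain ⟨j, hj⟩ := hex
      refine (hone n).trans ?_
      have h1 : (2 : ℝ) * (if (p : ℤ) ∣ n + (h j : ℤ) then (1 : ℝ) else 0) ≤
          ∑ j : Fin k, 2 * (if (p : ℤ) ∣ n + (h j : ℤ) then (1 : ℝ) else 0) :=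
        Finset.single_le_sum (f := fun j : Fin k =>
          (2 : ℝ) * (if (p : ℤ) ∣ n + (h j : ℤ) then (1 : ℝ) else 0))
          (fun i _ => by positivity) (Finset.mem_univ j)
      rw [if_pos hj, mul_one] at h1
      exact h1
    · push Not at hex
      have h1 : ∏ j, f j (p * n + p * h j) = (∏ j, f j p) * ∏ j, f j (n + h j) := by
        rw [← Finset.prod_mul_distrib]
        refine Finset.prod_congr rfl fun j _ => ?_
        rw [← mul_add, dm_val (hf j) hp (hex j)]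
      rw [h1, sub_self, norm_zero]
      exact Finset.sum_nonneg fun i _ => by positivity
  have hind : ∀ (j : Fin k) (n : ℤ), |2 * (if (p : ℤ) ∣ n + (h j : ℤ) then (1 : ℝ) else 0)| ≤ 2 := by
    intro j n
    split_ifs <;> norm_num
  have hind' : ∀ (j : Fin k) (n : ℤ), |(if (p : ℤ) ∣ n + (h j : ℤ) then (1 : ℝ) else 0)| ≤ 1 := by
    intro j n
    split_ifs <;> norm_num
  refine (norm_mean_le hM (hB2.sub (hB3.smul _))).trans ?_
  refine (mr_mono hM (C := 2) (D := ∑ _j : Fin k, 2) (fun n => ?_) (fun n => ?_) hpt).trans ?_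
  · rw [abs_of_nonneg (norm_nonneg _)]
    exact hone n
  · exact (Finset.abs_sum_le_sum_abs _ _).trans (Finset.sum_le_sum fun j _ => hind j n)
  · rw [mr_sum hM Finset.univ (fun j n => 2 * (if (p : ℤ) ∣ n + (h j : ℤ) then (1 : ℝ) else 0))
      (C := 2) (fun j _ n => hind j n)]
    have h1 : ∀ j : Fin k, mr M (fun n => 2 * (if (p : ℤ) ∣ n + (h j : ℤ) then (1 : ℝ) else 0)) =
        2 * (1 / p) := fun j => by
      rw [mr_mul hM 2 (hind' j), mr_dvd hM hp.pos (h j)]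
    simp only [h1, Finset.sum_const, Finset.card_univ, Fintype.card_fin, nsmul_eq_mul]
    refine le_of_eq ?_
    ring

end Pool.Agent.Work.MP_58cfe3_nt
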