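import Pool.Agent.Work.MP_58cfe3_nt.EdKey

/-!
# Module EdKeyB (size M): good scales, arbitrary 1-bounded functions

PROOF. Discretise: the closed unit disc is covered by finitely many balls of radius `η = ε/(8 k + 8)` with
centres `w_1..w_m` in the closed disc (compactness, `Metric`/`IsCompact.finite_cover_balls`). Let
`α = Fin k → Fin m` (or `Fin k → S` with `S` the finite set of centres), `ξ n j` = index of a centre
within `η` of `f j n`, `v j a = w (a j)`; then `‖v j (ξ n) - f j n‖ ≤ η` and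
`‖∏_j v j (ξ (n + p h_j)) - ∏_j f j (n + p h_j)‖ ≤ k η ≤ ε/8` (all factors of norm at most `1`). The means with
and without the factor `p [p ∣ n]` (mean `1`: `mean_dvd` and `norm_mean_le`) change by at most `k η` each.
Apply `ed_key` with `ε/2`. (If `k = 0` everything is trivial or the same proof works.)
-/

set_option autoImplicit false

namespace Pool.Agent.Work.MP_58cfe3_nt

open Filter Topology

private theorem prod_sub_le {ι : Type} (s : Finset ι) (a b : ι → ℂ) (ha : ∀ i ∈ s, ‖a i‖ ≤ 1)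
    (hb : ∀ i ∈ s, ‖b i‖ ≤ 1) : ‖∏ i ∈ s, a i - ∏ i ∈ s, b i‖ ≤ ∑ i ∈ s, ‖a i - b i‖ := by
  classical
  induction s using Finset.induction_on with
  | empty => simp
  | insert x s hx ih =>
    rw [Finset.prod_insert hx, Finset.prod_insert hx, Finset.sum_insert hx]
    have e : a x * ∏ i ∈ s, a i - b x * ∏ i ∈ s, b i =
        (a x - b x) * ∏ i ∈ s, a i + b x * (∏ i ∈ s, a i - ∏ i ∈ s, b i) := by ring
    rw [e]
    refine (norm_add_le _ _).trans (add_le_add ?_ ?_)
    · rw [norm_mul]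
      exact mul_le_of_le_one_right (norm_nonneg _)
        (norm_prod_le_one s a fun i hi => ha i (Finset.mem_insert_of_mem hi))
    · rw [norm_mul]
      exact (mul_le_of_le_one_left (norm_nonneg _) (hb x (Finset.mem_insert_self x s))).trans
        (ih (fun i hi => ha i (Finset.mem_insert_of_mem hi))
          fun i hi => hb i (Finset.mem_insert_of_mem hi))

/-- two bounded functions which are close have close means, also after the factor `p [p ∣ n]` -/
private theorem close {M : (ℤ → ℂ) → ℂ} (hM : IsMean M) {F G : ℤ → ℂ} (hF : Bdd F) (hG : Bdd G)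
    {δ : ℝ} (hd : ∀ n, ‖F n - G n‖ ≤ δ) {p : ℕ} (hp : 0 < p) :
    ‖(M (fun n => if (p : ℤ) ∣ n then (p : ℂ) * F n else 0) - M F) -
      (M (fun n => if (p : ℤ) ∣ n then (p : ℂ) * G n else 0) - M G)‖ ≤ 2 * δ := by
  have hδ : 0 ≤ δ := (norm_nonneg _).trans (hd 0)
  have hp' : (0 : ℝ) < p := by exact_mod_cast hp
  have hFb : Bdd fun n : ℤ => if (p : ℤ) ∣ n then (p : ℂ) * F n else 0 :=
    Bdd.ite (fun n => (p : ℤ) ∣ n) (hF.smul _) (bdd_const 0)
  have hGb : Bdd fun n : ℤ => if (p : ℤ) ∣ n then (p : ℂ) * G n else 0 :=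
    Bdd.ite (fun n => (p : ℤ) ∣ n) (hG.smul _) (bdd_const 0)
  have h1 : ‖M F - M G‖ ≤ δ := by
    rw [← mean_sub hM hF hG]
    exact hM.le _ _ hd
  have h2 : ‖M (fun n => if (p : ℤ) ∣ n then (p : ℂ) * F n else 0) -
      M (fun n => if (p : ℤ) ∣ n then (p : ℂ) * G n else 0)‖ ≤ δ := by
    rw [← mean_sub hM hFb hGb]
    have hpt : ∀ n : ℤ, ‖(if (p : ℤ) ∣ n then (p : ℂ) * F n else 0) -
        (if (p : ℤ) ∣ n then (p : ℂ) * G n else 0)‖ ≤
          (p * δ) * (if (p : ℤ) ∣ n + 0 then (1 : ℝ) else 0) := by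
      intro n
      rw [add_zero]
      split_ifs
      · rw [← mul_sub, norm_mul, Complex.norm_natCast, mul_one]
        exact mul_le_mul_of_nonneg_left (hd n) hp'.le
      · simp
    have hone : ∀ n : ℤ, |(if (p : ℤ) ∣ n + 0 then (1 : ℝ) else 0)| ≤ 1 := fun n => by
      split_ifs <;> simp
    have hbd : ∀ n : ℤ, |(p * δ) * (if (p : ℤ) ∣ n + 0 then (1 : ℝ) else 0)| ≤ p * δ := fun n => by
      rw [abs_mul, abs_of_nonneg (by positivity : (0 : ℝ) ≤ p * δ)]
      exact mul_le_of_le_one_right (by positivity) (hone n)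
    refine (norm_mean_le hM (hFb.sub hGb)).trans
      ((mr_mono hM (C := p * δ) (fun n => ?_) hbd hpt).trans (le_of_eq ?_))
    · rw [abs_of_nonneg (norm_nonneg _)]
      exact (hpt n).trans (le_of_abs_le (hbd n))
    · rw [mr_mul hM _ hone, mr_dvd hM hp 0]
      field_simp
  have e : (M (fun n => if (p : ℤ) ∣ n then (p : ℂ) * F n else 0) - M F) -
      (M (fun n => if (p : ℤ) ∣ n then (p : ℂ) * G n else 0) - M G) =
      (M (fun n => if (p : ℤ) ∣ n then (p : ℂ) * F n else 0) -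
        M (fun n => if (p : ℤ) ∣ n then (p : ℂ) * G n else 0)) - (M F - M G) := by ring
  rw [e]
  refine (norm_sub_le _ _).trans ?_
  linarith

theorem ed_key' {M : (ℤ → ℂ) → ℂ} (hM : IsMean M) {k : ℕ} (f : Fin k → ℤ → ℂ)
    (hf : ∀ i n, ‖f i n‖ ≤ 1) (h : Fin k → ℕ)
    {tl : ℕ → ℝ} (ht : ∀ i, 0 ≤ tl i) {K : ℝ} (hK : ∀ N, ∑ i ∈ Finset.range N, tl i ≤ K)
    {ε : ℝ} (hε : 0 < ε) (i₀ : ℕ) :
    ∃ i, i₀ ≤ i ∧ tl i * HH i ≤ ε * (PB (HH i)).card ∧
      ∀ c : ℕ → ℂ, (∀ p, ‖c p‖ ≤ 1) →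
        ‖∑ p ∈ PB (HH i), c p * (M (fun n => if (p : ℤ) ∣ n then
          (p : ℂ) * ∏ j, f j (n + p * h j) else 0) -
            M (fun n => ∏ j, f j (n + p * h j)))‖ ≤ ε * (PB (HH i)).card := by
  classical
  have hk : (0 : ℝ) < 4 * (k + 1) := by positivity
  have hη : 0 < ε / (4 * (k + 1)) := div_pos hε hk
  obtain ⟨t, htsub, htfin, htcov⟩ :=
    (isCompact_closedBall (0 : ℂ) 1).finite_cover_balls hη
  haveI : Fintype ↥t := htfin.fintype
  have hex : ∀ i n, ∃ w : ↥t, ‖(w : ℂ) - f i n‖ ≤ ε / (4 * (k + 1)) := by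
    intro i n
    have hmem : f i n ∈ Metric.closedBall (0 : ℂ) 1 := by
      simpa using hf i n
    obtain ⟨w, hw, hw2⟩ := Set.mem_iUnion₂.mp (htcov hmem)
    refine ⟨⟨w, hw⟩, ?_⟩
    rw [Metric.mem_ball, dist_comm, dist_eq_norm] at hw2
    exact hw2.le
  choose ξ hξ using hex
  have hv : ∀ (i : Fin k) (a : Fin k → ↥t), ‖((a i : ↥t) : ℂ)‖ ≤ 1 := by
    intro i a
    have := htsub (a i).2
    simpa using this
  obtain ⟨i, hi, h1, h2⟩ := ed_key hM (fun n j => ξ j n) (fun j a => ((a j : ↥t) : ℂ)) hv h ht hK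
    (half_pos hε) i₀
  have hcard : (0 : ℝ) ≤ (PB (HH i)).card := Nat.cast_nonneg _
  refine ⟨i, hi, h1.trans (by nlinarith), fun c hc => ?_⟩
  have h3 := h2 c hc
  set P := PB (HH i) with hP
  have hdiff : ∀ p ∈ P, ‖(M (fun n => if (p : ℤ) ∣ n then
          (p : ℂ) * ∏ j, f j (n + p * h j) else 0) -
            M (fun n => ∏ j, f j (n + p * h j))) - (M (fun n => if (p : ℤ) ∣ n then
          (p : ℂ) * ∏ j, (ξ j (n + p * h j) : ℂ) else 0) -
            M (fun n => ∏ j, (ξ j (n + p * h j) : ℂ)))‖ ≤ ε / 2 := by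
    intro p hp
    have hpp : p.Prime := by
      rw [hP, PB, Finset.mem_filter] at hp
      exact hp.2
    have hξ1 : ∀ j n, ‖((ξ j n : ↥t) : ℂ)‖ ≤ 1 := fun j n => by
      have := htsub (ξ j n).2
      simpa using this
    refine (close hM (F := fun n => ∏ j, f j (n + p * h j))
      (G := fun n => ∏ j, (ξ j (n + p * h j) : ℂ))
      ⟨1, fun n => norm_prod_le_one _ _ fun j _ => hf j _⟩
      ⟨1, fun n => norm_prod_le_one _ _ fun j _ => hξ1 j _⟩
      (δ := k * (ε / (4 * (k + 1)))) (fun n => ?_) hpp.pos).trans ?_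
    · refine (prod_sub_le _ _ _ (fun j _ => hf j _) fun j _ => hξ1 j _).trans ?_
      calc ∑ j : Fin k, ‖f j (n + p * h j) - (ξ j (n + p * h j) : ℂ)‖
          ≤ ∑ _j : Fin k, ε / (4 * (k + 1)) := Finset.sum_le_sum fun j _ => by
            rw [norm_sub_rev]; exact hξ j _
        _ = k * (ε / (4 * (k + 1))) := by simp
    · have : 2 * (k * (ε / (4 * (k + 1)))) = (k / (k + 1)) * (ε / 2) := by
        field_simp
        ring
      rw [this]
      refine mul_le_of_le_one_left (half_pos hε).le ?_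
      rw [div_le_one (by positivity)]
      linarith
  have hsum : ∑ p ∈ P, c p * (M (fun n => if (p : ℤ) ∣ n then
          (p : ℂ) * ∏ j, f j (n + p * h j) else 0) -
            M (fun n => ∏ j, f j (n + p * h j))) =
      ∑ p ∈ P, c p * ((M (fun n => if (p : ℤ) ∣ n then
          (p : ℂ) * ∏ j, f j (n + p * h j) else 0) -
            M (fun n => ∏ j, f j (n + p * h j))) - (M (fun n => if (p : ℤ) ∣ n then
          (p : ℂ) * ∏ j, (ξ j (n + p * h j) : ℂ) else 0) -
            M (fun n => ∏ j, (ξ j (n + p * h j) : ℂ)))) +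
      ∑ p ∈ P, c p * (M (fun n => if (p : ℤ) ∣ n then
          (p : ℂ) * ∏ j, (ξ j (n + p * h j) : ℂ) else 0) -
            M (fun n => ∏ j, (ξ j (n + p * h j) : ℂ))) := by
    rw [← Finset.sum_add_distrib]
    refine Finset.sum_congr rfl fun p _ => ?_
    ring
  rw [hsum]
  refine (norm_add_le _ _).trans ?_
  have h4 : ‖∑ p ∈ P, c p * ((M (fun n => if (p : ℤ) ∣ n then
          (p : ℂ) * ∏ j, f j (n + p * h j) else 0) -
            M (fun n => ∏ j, f j (n + p * h j))) - (M (fun n => if (p : ℤ) ∣ n then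
          (p : ℂ) * ∏ j, (ξ j (n + p * h j) : ℂ) else 0) -
            M (fun n => ∏ j, (ξ j (n + p * h j) : ℂ))))‖ ≤ ε / 2 * P.card := by
    refine (norm_sum_le _ _).trans ?_
    calc _ ≤ ∑ _p ∈ P, ε / 2 := Finset.sum_le_sum fun p hp => by
          rw [norm_mul]
          exact (mul_le_of_le_one_left (norm_nonneg _) (hc p)).trans (hdiff p hp)
      _ = ε / 2 * P.card := by rw [Finset.sum_const, nsmul_eq_mul]; ring
  linarith

end Pool.Agent.Work.MP_58cfe3_nt
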