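import Pool.Agent.Work.MP_58cfe3_nt.Per

/-!
# Module Triv (size M): functions which are small at many primes

PROOF. For a finite set `S` of primes, `|g(n)| ≤ ∏_{p ∈ S} u_p(n)`, `u_p(n) = |g(p)|` if `p ∣ n` and `p² ∤ n`, and `1`
otherwise (for `n > 0` write `n = (∏_{p ∈ S, p exactly divides n} p) * m` with `m` coprime to these primes and use
multiplicativity and `‖g‖ ≤ 1`; for `n ≤ 0` the left side is `0`). `u_p` is periodic mod `p²`, so by
`mr_prod_per` (set of moduli `p²`) the mean of the product is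
`∏_{p ∈ S} (1 - (1 - |g(p)|)(p - 1)/p²) ≤ exp (- ∑_{p ∈ S} (1 - |g(p)|)/(2p))`, which is arbitrarily small by
the hypothesis. So `mr M |g| = 0` and `M (g(· + h) F) = 0` for bounded `F` (`norm_mean_le`, `mr_shift`).
-/

set_option autoImplicit false

namespace Pool.Agent.Work.MP_58cfe3_nt

open Filter Topology

private noncomputable def uu (g : ℤ → ℂ) (p : ℕ) (n : ℤ) : ℝ :=
  if (p : ℤ) ∣ n ∧ ¬ ((p : ℤ) ^ 2 ∣ n) then ‖g p‖ else 1

private theorem uu_nonneg (g : ℤ → ℂ) (p : ℕ) (n : ℤ) : 0 ≤ uu g p n := by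
  unfold uu
  split_ifs
  · exact norm_nonneg _
  · exact zero_le_one

private theorem uu_le_one {g : ℤ → ℂ} (hg : MulBdd g) (p : ℕ) (n : ℤ) : uu g p n ≤ 1 := by
  unfold uu
  split_ifs
  · exact hg.bdd _
  · exact le_rfl

private theorem uu_per (g : ℤ → ℂ) (p : ℕ) (n : ℤ) : uu g p (n + ((p ^ 2 : ℕ) : ℤ)) = uu g p n := by
  unfold uu
  have h1 : ((p : ℤ) ∣ n + ((p ^ 2 : ℕ) : ℤ)) ↔ (p : ℤ) ∣ n := by
    have : (p : ℤ) ∣ ((p ^ 2 : ℕ) : ℤ) := ⟨(p : ℤ), by push_cast; ring⟩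
    exact (Int.dvd_add_left this)
  have h2 : ((p : ℤ) ^ 2 ∣ n + ((p ^ 2 : ℕ) : ℤ)) ↔ (p : ℤ) ^ 2 ∣ n := by
    have : (p : ℤ) ^ 2 ∣ ((p ^ 2 : ℕ) : ℤ) := ⟨1, by push_cast; ring⟩
    exact (Int.dvd_add_left this)
  simp only [h1, h2]

private theorem norm_le_prod {g : ℤ → ℂ} (hg : MulBdd g) (S : Finset ℕ) :
    (∀ p ∈ S, p.Prime) → ∀ n : ℤ, ‖g n‖ ≤ ∏ p ∈ S, uu g p n := by
  classical
  induction S using Finset.induction_on with
  | empty =>
    intro _ n
    simpa using hg.bdd n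
  | insert q S hq ih =>
    intro hS n
    have hS' : ∀ p ∈ S, p.Prime := fun p hp => hS p (Finset.mem_insert_of_mem hp)
    have hqp : q.Prime := hS q (Finset.mem_insert_self q S)
    rw [Finset.prod_insert hq]
    rcases le_or_gt n 0 with hn | hn
    · rw [hg.nonpos n hn, norm_zero]
      exact mul_nonneg (uu_nonneg _ _ _) (Finset.prod_nonneg fun p _ => uu_nonneg _ _ _)
    by_cases hd : (q : ℤ) ∣ n ∧ ¬ ((q : ℤ) ^ 2 ∣ n)
    · obtain ⟨⟨m, rfl⟩, h2⟩ := hd
      have hqZ : (0 : ℤ) < q := by exact_mod_cast hqp.pos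
      have hm : 0 < m := pos_of_mul_pos_right hn hqZ.le
      have hqm : ¬ ((q : ℤ) ∣ m) := by
        rintro ⟨k, rfl⟩
        exact h2 ⟨k, by ring⟩
      have hprime : Prime (q : ℤ) := Nat.prime_iff_prime_int.mp hqp
      have hcop : IsCoprime (q : ℤ) m := (hprime.coprime_iff_not_dvd).mpr hqm
      rw [hg.mul _ _ hqZ hm hcop, norm_mul]
      have hu : uu g q ((q : ℤ) * m) = ‖g q‖ := by
        unfold uu
        rw [if_pos ⟨Dvd.intro _ rfl, h2⟩]
      rw [hu]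
      refine mul_le_mul_of_nonneg_left ?_ (norm_nonneg _)
      refine (ih hS' m).trans (le_of_eq ?_)
      refine Finset.prod_congr rfl fun p hp => ?_
      have hpq : p ≠ q := fun h => hq (h ▸ hp)
      have hpc : IsCoprime (p : ℤ) (q : ℤ) := by
        rw [Nat.isCoprime_iff_coprime]
        exact (Nat.coprime_primes (hS' p hp) hqp).mpr hpq
      have e1 : (p : ℤ) ∣ (q : ℤ) * m ↔ (p : ℤ) ∣ m :=
        ⟨fun h => hpc.dvd_of_dvd_mul_left h, fun h => Dvd.dvd.mul_left h _⟩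
      have e2 : (p : ℤ) ^ 2 ∣ (q : ℤ) * m ↔ (p : ℤ) ^ 2 ∣ m :=
        ⟨fun h => (hpc.pow_left).dvd_of_dvd_mul_left h, fun h => Dvd.dvd.mul_left h _⟩
      unfold uu
      simp only [e1, e2]
    · have hu : uu g q n = 1 := by
        unfold uu
        rw [if_neg hd]
      rw [hu, one_mul]
      exact ih hS' n

private theorem sum_uu {g : ℤ → ℂ} (hg : MulBdd g) {p : ℕ} (hp : p.Prime) :
    (∑ a ∈ Finset.range (p ^ 2), uu g p a) / ((p ^ 2 : ℕ) : ℝ) ≤ Real.exp (-((1 - ‖g p‖) / p / 2)) := by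
  classical
  have hp2 : (2 : ℝ) ≤ p := by exact_mod_cast hp.two_le
  have hppos : (0 : ℝ) < p := by linarith
  -- the set of exact multiples
  set T := (Finset.range (p ^ 2)).filter (fun a : ℕ => (p : ℤ) ∣ (a : ℤ) ∧ ¬ ((p : ℤ) ^ 2 ∣ (a : ℤ)))
    with hT
  have hcard : p - 1 ≤ T.card := by
    have hinj : Set.InjOn (fun k : ℕ => (k + 1) * p) (Finset.range (p - 1) : Set ℕ) := by
      intro a _ b _ hab
      have : (a + 1) * p = (b + 1) * p := hab
      have := Nat.eq_of_mul_eq_mul_right hp.pos this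
      omega
    have hsub : (Finset.range (p - 1)).image (fun k : ℕ => (k + 1) * p) ⊆ T := by
      intro a ha
      rw [Finset.mem_image] at ha
      obtain ⟨k, hk, rfl⟩ := ha
      rw [Finset.mem_range] at hk
      rw [hT, Finset.mem_filter, Finset.mem_range]
      have hlt : (k + 1) * p < p ^ 2 := by
        rw [pow_two]
        exact Nat.mul_lt_mul_of_pos_right (by omega) hp.pos
      refine ⟨hlt, ⟨(k + 1 : ℤ), by push_cast; ring⟩, ?_⟩
      intro hdv
      have hdv' : p ^ 2 ∣ (k + 1) * p := by exact_mod_cast hdv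
      exact absurd (Nat.le_of_dvd (Nat.mul_pos (Nat.succ_pos _) hp.pos) hdv') (not_le.mpr hlt)
    have := Finset.card_le_card hsub
    rw [Finset.card_image_of_injOn hinj, Finset.card_range] at this
    exact this
  have hsum : ∑ a ∈ Finset.range (p ^ 2), uu g p a = ((p ^ 2 : ℕ) : ℝ) - (1 - ‖g p‖) * T.card := by
    have h1 : ∀ a ∈ Finset.range (p ^ 2), uu g p (a : ℤ) =
        1 - (if (p : ℤ) ∣ (a : ℤ) ∧ ¬ ((p : ℤ) ^ 2 ∣ (a : ℤ)) then (1 - ‖g p‖) else 0) := by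
      intro a _
      unfold uu
      split_ifs <;> ring
    rw [Finset.sum_congr rfl h1, Finset.sum_sub_distrib, ← Finset.sum_filter, ← hT]
    simp only [Finset.sum_const, Finset.card_range, nsmul_eq_mul, mul_one]
    ring
  rw [hsum]
  have hq : (0 : ℝ) < ((p ^ 2 : ℕ) : ℝ) := by exact_mod_cast pow_pos hp.pos 2
  rw [sub_div, div_self hq.ne']
  have h3 : (p : ℝ) / 2 ≤ T.card := by
    have : ((p - 1 : ℕ) : ℝ) ≤ T.card := by exact_mod_cast hcard
    rw [Nat.cast_sub hp.one_lt.le] at this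
    push_cast at this
    linarith
  have h4 : (1 - ‖g p‖) / p / 2 ≤ (1 - ‖g p‖) * T.card / ((p ^ 2 : ℕ) : ℝ) := by
    have hnn : 0 ≤ 1 - ‖g p‖ := by linarith [hg.bdd p]
    rw [le_div_iff₀ hq]
    have : (1 - ‖g p‖) / p / 2 * ((p ^ 2 : ℕ) : ℝ) = (1 - ‖g p‖) * ((p : ℝ) / 2) := by
      push_cast
      field_simp
    rw [this]
    exact mul_le_mul_of_nonneg_left h3 hnn
  have h5 := Real.add_one_le_exp (-((1 - ‖g p‖) / p / 2))
  linarith

private theorem mr_norm_zero {M : (ℤ → ℂ) → ℂ} (hM : IsMean M) {g : ℤ → ℂ} (hg : MulBdd g)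
    (hd : ∀ K : ℝ, ∃ S : Finset ℕ, (∀ p ∈ S, p.Prime) ∧ K ≤ ∑ p ∈ S, (1 - ‖g p‖) / p) :
    mr M (fun n => ‖g n‖) ≤ 0 := by
  classical
  have key : ∀ K : ℝ, mr M (fun n => ‖g n‖) ≤ Real.exp (-(K / 2)) := by
    intro K
    obtain ⟨S, hS, hK⟩ := hd K
    have hb1 : ∀ n, |‖g n‖| ≤ 1 := fun n => by
      rw [abs_norm]; exact hg.bdd n
    have hb2 : ∀ n, |∏ p ∈ S, uu g p n| ≤ 1 := fun n => by
      rw [abs_of_nonneg (Finset.prod_nonneg fun p _ => uu_nonneg _ _ _)]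
      exact Finset.prod_le_one (fun p _ => uu_nonneg _ _ _) fun p _ => uu_le_one hg _ _
    have h1 := mr_mono hM hb1 hb2 (norm_le_prod hg S hS)
    -- the mean of the product
    have hinj : Set.InjOn (fun p : ℕ => p ^ 2) (S : Set ℕ) := by
      intro a _ b _ hab
      exact Nat.pow_left_injective (n := 2) (by norm_num) hab
    have h2 := mr_prod_per hM (S.image fun p => p ^ 2)
      (by
        intro q hq
        obtain ⟨p, hp, rfl⟩ := Finset.mem_image.mp hq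
        exact pow_pos (hS p hp).pos 2)
      (by
        intro q hq q' hq' hne
        obtain ⟨p, hp, rfl⟩ := Finset.mem_image.mp hq
        obtain ⟨p', hp', rfl⟩ := Finset.mem_image.mp hq'
        have hpp : p ≠ p' := fun h => hne (by rw [h])
        exact Nat.Coprime.pow 2 2 ((Nat.coprime_primes (hS p hp) (hS p' hp')).mpr hpp))
      (fun q n => uu g (Nat.sqrt q) n)
      (by
        intro q hq n
        obtain ⟨p, hp, rfl⟩ := Finset.mem_image.mp hq
        have : Nat.sqrt (p ^ 2) = p := Nat.sqrt_eq' p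
        simp only [this]
        exact uu_per g p n)
    have h3 : (fun n : ℤ => ∏ q ∈ S.image (fun p => p ^ 2), uu g (Nat.sqrt q) n) =
        fun n => ∏ p ∈ S, uu g p n := by
      funext n
      rw [Finset.prod_image hinj]
      refine Finset.prod_congr rfl fun p _ => ?_
      rw [Nat.sqrt_eq']
    rw [h3, Finset.prod_image hinj] at h2
    rw [h2] at h1
    refine h1.trans ?_
    have h4 : (∏ p ∈ S, (∑ a ∈ Finset.range (p ^ 2), uu g (Nat.sqrt (p ^ 2)) (a : ℤ)) / ((p ^ 2 : ℕ) : ℝ)) ≤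
        ∏ p ∈ S, Real.exp (-((1 - ‖g p‖) / p / 2)) := by
      refine Finset.prod_le_prod (fun p _ => ?_) fun p hp => ?_
      · exact div_nonneg (Finset.sum_nonneg fun a _ => uu_nonneg _ _ _) (Nat.cast_nonneg _)
      · rw [Nat.sqrt_eq']
        exact sum_uu hg (hS p hp)
    refine h4.trans ?_
    rw [← Real.exp_sum]
    refine Real.exp_le_exp.mpr ?_
    rw [Finset.sum_neg_distrib, ← Finset.sum_div]
    linarith
  -- let `K → ∞`
  refine le_of_forall_pos_lt_add fun ε hε => ?_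
  have h := key (2 * (-Real.log (ε / 2)))
  have : -(2 * (-Real.log (ε / 2)) / 2) = Real.log (ε / 2) := by ring
  rw [this, Real.exp_log (by positivity)] at h
  linarith

theorem triv {M : (ℤ → ℂ) → ℂ} (hM : IsMean M) {g : ℤ → ℂ} (hg : MulBdd g)
    (hd : ∀ K : ℝ, ∃ S : Finset ℕ, (∀ p ∈ S, p.Prime) ∧ K ≤ ∑ p ∈ S, (1 - ‖g p‖) / p)
    (h : ℤ) {F : ℤ → ℂ} (hF : Bdd F) : M (fun n => g (n + h) * F n) = 0 := by
  obtain ⟨C, hC⟩ := hF
  have hC0 : 0 ≤ C := (norm_nonneg _).trans (hC 0)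
  have hb : Bdd (fun n => g (n + h) * F n) := (hg.bounded.shift _).mul ⟨C, hC⟩
  have h1 := norm_mean_le hM hb
  have hb1 : ∀ n, |‖g (n + h) * F n‖| ≤ 1 * C := fun n => by
    rw [abs_norm, norm_mul]
    exact mul_le_mul (hg.bdd _) (hC n) (norm_nonneg _) zero_le_one
  have hb0 : ∀ n, |‖g n‖| ≤ 1 := fun n => by
    rw [abs_norm]; exact hg.bdd n
  have hb0' : ∀ n, |‖g (n + h)‖| ≤ 1 := fun n => hb0 _
  have hb2 : ∀ n, |C * ‖g (n + h)‖| ≤ C * 1 := fun n => by
    rw [abs_mul, abs_of_nonneg hC0]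
    exact mul_le_mul_of_nonneg_left (hb0' n) hC0
  have h2 := mr_mono hM hb1 hb2 (fun n => by
    rw [norm_mul, mul_comm]
    exact mul_le_mul_of_nonneg_right (hC n) (norm_nonneg _))
  rw [mr_mul hM C hb0', mr_shift hM hb0 h] at h2
  have h3 := mr_norm_zero hM hg hd
  have h4 : C * mr M (fun n => ‖g n‖) ≤ 0 := mul_nonpos_of_nonneg_of_nonpos hC0 h3
  have h5 : ‖M fun n => g (n + h) * F n‖ ≤ 0 := h1.trans (h2.trans h4)
  exact norm_le_zero_iff.mp h5

end Pool.Agent.Work.MP_58cfe3_nt
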