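import Pool.Agent.Work.MP_58cfe3_nt.MDefs

/-!
# Basic facts on bounded functions, `MulBdd` and cubes (proved)
-/

set_option autoImplicit false

namespace Pool.Agent.Work.MP_58cfe3_nt

open Filter Topology

theorem bdd_of_le {f : ℤ → ℂ} {C : ℝ} (h : ∀ n, ‖f n‖ ≤ C) : Bdd f := ⟨C, h⟩

theorem bdd_const (c : ℂ) : Bdd fun _ => c := ⟨‖c‖, fun _ => le_rfl⟩

theorem Bdd.add {f g : ℤ → ℂ} (hf : Bdd f) (hg : Bdd g) : Bdd fun n => f n + g n := by
  obtain ⟨C, hC⟩ := hf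
  obtain ⟨D, hD⟩ := hg
  exact ⟨C + D, fun n => (norm_add_le _ _).trans (add_le_add (hC n) (hD n))⟩

theorem Bdd.mul {f g : ℤ → ℂ} (hf : Bdd f) (hg : Bdd g) : Bdd fun n => f n * g n := by
  obtain ⟨C, hC⟩ := hf
  obtain ⟨D, hD⟩ := hg
  refine ⟨C * D, fun n => ?_⟩
  rw [norm_mul]
  exact mul_le_mul (hC n) (hD n) (norm_nonneg _) ((norm_nonneg _).trans (hC n))

theorem Bdd.smul {f : ℤ → ℂ} (c : ℂ) (hf : Bdd f) : Bdd fun n => c * f n := (bdd_const c).mul hf

theorem Bdd.sub {f g : ℤ → ℂ} (hf : Bdd f) (hg : Bdd g) : Bdd fun n => f n - g n := by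
  have := hf.add (hg.smul (-1))
  simpa [sub_eq_add_neg] using this

theorem Bdd.star {f : ℤ → ℂ} (hf : Bdd f) : Bdd fun n => star (f n) := by
  obtain ⟨C, hC⟩ := hf
  exact ⟨C, fun n => by rw [norm_star]; exact hC n⟩

theorem Bdd.shift {f : ℤ → ℂ} (hf : Bdd f) (φ : ℤ → ℤ) : Bdd fun n => f (φ n) := by
  obtain ⟨C, hC⟩ := hf
  exact ⟨C, fun n => hC _⟩

theorem Bdd.sum {ι : Type*} (s : Finset ι) {f : ι → ℤ → ℂ} (hf : ∀ i ∈ s, Bdd (f i)) :
    Bdd fun n => ∑ i ∈ s, f i n := by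
  classical
  induction s using Finset.induction_on with
  | empty => simpa using bdd_const 0
  | insert a s ha ih =>
    have h1 := (hf a (Finset.mem_insert_self a s)).add
      (ih fun i hi => hf i (Finset.mem_insert_of_mem hi))
    simpa [Finset.sum_insert ha] using h1

theorem Bdd.prod {ι : Type*} (s : Finset ι) {f : ι → ℤ → ℂ} (hf : ∀ i ∈ s, Bdd (f i)) :
    Bdd fun n => ∏ i ∈ s, f i n := by
  classical
  induction s using Finset.induction_on with
  | empty => simpa using bdd_const 1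
  | insert a s ha ih =>
    have h1 := (hf a (Finset.mem_insert_self a s)).mul
      (ih fun i hi => hf i (Finset.mem_insert_of_mem hi))
    simpa [Finset.prod_insert ha] using h1

theorem Bdd.ite {f g : ℤ → ℂ} (p : ℤ → Prop) [DecidablePred p] (hf : Bdd f) (hg : Bdd g) :
    Bdd fun n => if p n then f n else g n := by
  obtain ⟨C, hC⟩ := hf
  obtain ⟨D, hD⟩ := hg
  refine ⟨max C D, fun n => ?_⟩
  by_cases h : p n
  · simp only [h, if_true]; exact (hC n).trans (le_max_left _ _)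
  · simp only [h, if_false]; exact (hD n).trans (le_max_right _ _)

theorem norm_prod_le_one {ι : Type*} (s : Finset ι) (f : ι → ℂ) (h : ∀ i ∈ s, ‖f i‖ ≤ 1) :
    ‖∏ i ∈ s, f i‖ ≤ 1 := by
  rw [norm_prod]
  exact Finset.prod_le_one (fun i _ => norm_nonneg _) h

theorem MulBdd.bounded {g : ℤ → ℂ} (hg : MulBdd g) : Bdd g := ⟨1, hg.bdd⟩

theorem MulBdd.star {g : ℤ → ℂ} (hg : MulBdd g) : MulBdd fun n => star (g n) where
  nonpos n hn := by simp [hg.nonpos n hn]
  bdd n := by rw [norm_star]; exact hg.bdd n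
  mul m n hm hn h := by simp [hg.mul m n hm hn h, mul_comm]

theorem norm_cube_le {g : ℤ → ℂ} (hg : ∀ n, ‖g n‖ ≤ 1) {r : ℕ} (e : Fin r → ℤ) (n : ℤ) :
    ‖cube g e n‖ ≤ 1 := by
  unfold cube
  refine norm_prod_le_one _ _ fun A _ => ?_
  split_ifs
  · exact hg _
  · rw [norm_star]; exact hg _

end Pool.Agent.Work.MP_58cfe3_nt
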