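import Pool.Agent.Work.MP_58cfe3_nt.MeanA

/-!
# Module CSa (size M): one Cauchy-Schwarz step

PROOF. `T = ∑_{p ∈ P} c_p M (f₀(n + h₀ p) ∏_{i<r+1} f_i(n + h_i p))`. Translate the `p`-th mean by `-h_r p`
(`shift`; `h_r` = shift of the last companion): `T = M (f_r(n) Φ(n))` with
`Φ(n) = ∑_p c_p f₀(n + (h₀ - h_r) p) ∏_{i<r} f_i(n + (h_i - h_r) p)`. `mean_cs`: `‖T‖² ≤ mr M ‖Φ‖²`, and
`‖Φ(n)‖² = ∑_{p,p'} c_p conj c_{p'} (...)(p) conj (...)(p')`; write `p' = p + d`, `d ∈ D` (`hD`: all differences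
are in `D`), group by `d`, and use `f_i(n + (h_i - h_r) p) conj f_i(n + (h_i - h_r)(p + d)) =
dd ((h_i - h_r) d) f_i (n + (h_i - h_r) p)`. So `‖T‖² ≤ ∑_{d ∈ D} ‖T_d‖` with `T_d` the sum of the same form over
`P_d = {p ∈ P : p + d ∈ P}` with `c_p conj c_{p+d}`. (`Fin.prod_univ_castSucc`.)
-/

set_option autoImplicit false

namespace Pool.Agent.Work.MP_58cfe3_nt

open Filter Topology

private theorem csa_regroup (P D : Finset ℤ) (hD : ∀ p ∈ P, ∀ p' ∈ P, p' - p ∈ D)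
    (A : ℤ → ℤ → ℂ) : ∑ p ∈ P, ∑ p' ∈ P, A p p' =
      ∑ d ∈ D, ∑ p ∈ P.filter (fun p => p + d ∈ P), A p (p + d) := by
  have h1 : ∀ d ∈ D, ∑ p ∈ P.filter (fun p => p + d ∈ P), A p (p + d) =
      ∑ p ∈ P, if p + d ∈ P then A p (p + d) else 0 := fun d _ => Finset.sum_filter _ _
  symm
  rw [Finset.sum_congr rfl h1, Finset.sum_comm]
  refine Finset.sum_congr rfl fun p hp => ?_
  rw [← Finset.sum_filter]
  symm
  refine Finset.sum_nbij' (fun p' => p' - p) (fun d => p + d) ?_ ?_ ?_ ?_ ?_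
  · intro p' hp'
    rw [Finset.mem_filter]
    refine ⟨hD p hp p' hp', ?_⟩
    rw [add_sub_cancel]
    exact hp'
  · intro d hd
    exact (Finset.mem_filter.1 hd).2
  · intro p' _
    ring
  · intro d _
    ring
  · intro p' _
    rw [add_sub_cancel]

theorem cs_step {M : (ℤ → ℂ) → ℂ} (hM : IsMean M) {r : ℕ} (P D : Finset ℤ)
    (hD : ∀ p ∈ P, ∀ p' ∈ P, p' - p ∈ D) (c : ℤ → ℂ) (f₀ : ℤ → ℂ) (hf₀ : ∀ n, ‖f₀ n‖ ≤ 1)
    (f : Fin (r + 1) → ℤ → ℂ) (hf : ∀ i n, ‖f i n‖ ≤ 1) (h₀ : ℤ) (h : Fin (r + 1) → ℤ) :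
    ‖∑ p ∈ P, c p * M (fun n => f₀ (n + h₀ * p) * ∏ i, f i (n + h i * p))‖ ^ 2 ≤
      ∑ d ∈ D, ‖∑ p ∈ P.filter (fun p => p + d ∈ P), (c p * star (c (p + d))) *
        M (fun n => dd ((h₀ - h (Fin.last r)) * d) f₀ (n + (h₀ - h (Fin.last r)) * p) *
          ∏ i : Fin r, dd ((h i.castSucc - h (Fin.last r)) * d) (f i.castSucc)
            (n + (h i.castSucc - h (Fin.last r)) * p))‖ := by
  set hr := h (Fin.last r) with hhr
  let G : ℤ → ℤ → ℂ := fun p n => f₀ (n + (h₀ - hr) * p) *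
    ∏ i : Fin r, f i.castSucc (n + (h i.castSucc - hr) * p)
  have hb₀ : Bdd f₀ := ⟨1, hf₀⟩
  have hbi : ∀ i, Bdd (f i) := fun i => ⟨1, hf i⟩
  have hG : ∀ p, Bdd (G p) := fun p =>
    (hb₀.shift fun n => n + (h₀ - hr) * p).mul
      (Bdd.prod Finset.univ fun i _ => (hbi i.castSucc).shift fun n => n + (h i.castSucc - hr) * p)
  have e1 : ∀ p, M (fun n => f₀ (n + h₀ * p) * ∏ i, f i (n + h i * p)) =
      M (fun n => f (Fin.last r) n * G p n) := by
    intro p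
    have hb : Bdd fun n => f₀ (n + h₀ * p) * ∏ i, f i (n + h i * p) :=
      (hb₀.shift fun n => n + h₀ * p).mul
        (Bdd.prod Finset.univ fun i _ => (hbi i).shift fun n => n + h i * p)
    rw [← hM.shift _ hb (-(hr * p))]
    congr 1
    funext n
    have e2 : n + -(hr * p) + h₀ * p = n + (h₀ - hr) * p := by ring
    have e3 : ∀ i : Fin r, n + -(hr * p) + h i.castSucc * p = n + (h i.castSucc - hr) * p :=
      fun i => by ring
    have e4 : n + -(hr * p) + h (Fin.last r) * p = n := by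
      rw [← hhr]
      ring
    rw [Fin.prod_univ_castSucc, e2, e4]
    simp only [e3]
    show f₀ (n + (h₀ - hr) * p) * (_ * f (Fin.last r) n) = f (Fin.last r) n * (_ * _)
    ring
  let Φ : ℤ → ℂ := fun n => ∑ p ∈ P, c p * G p n
  have hΦ : Bdd Φ := Bdd.sum P fun p _ => (hG p).smul (c p)
  have e5 : ∑ p ∈ P, c p * M (fun n => f₀ (n + h₀ * p) * ∏ i, f i (n + h i * p)) =
      M fun n => f (Fin.last r) n * Φ n := by
    have e6 : (fun n => f (Fin.last r) n * Φ n) =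
        fun n => ∑ p ∈ P, c p * (f (Fin.last r) n * G p n) := by
      funext n
      show f (Fin.last r) n * ∑ p ∈ P, c p * G p n = _
      rw [Finset.mul_sum]
      exact Finset.sum_congr rfl fun p _ => by ring
    rw [e6, mean_sum hM P (fun p n => c p * (f (Fin.last r) n * G p n))
      fun p _ => ((hbi _).mul (hG p)).smul (c p)]
    refine Finset.sum_congr rfl fun p _ => ?_
    rw [e1, hM.smul _ _ ((hbi _).mul (hG p))]
  rw [e5]
  refine (mean_cs hM (hf _) hΦ).trans ?_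
  obtain ⟨C, hC⟩ := hΦ
  have hC0 : 0 ≤ C := (norm_nonneg _).trans (hC 0)
  have h1 : ∀ n, |‖Φ n‖ ^ 2| ≤ C ^ 2 := by
    intro n
    rw [abs_of_nonneg (by positivity)]
    exact pow_le_pow_left₀ (norm_nonneg _) (hC n) 2
  have h2 := mean_ofReal hM h1
  have h3 : mr M (fun n => ‖Φ n‖ ^ 2) ≤ ‖M fun n => ((‖Φ n‖ ^ 2 : ℝ) : ℂ)‖ := by
    rw [h2, Complex.norm_real]
    exact le_abs_self _
  refine h3.trans ?_
  let T : ℤ → ℤ → ℤ → ℂ := fun d p n =>
    dd ((h₀ - hr) * d) f₀ (n + (h₀ - hr) * p) *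
      ∏ i : Fin r, dd ((h i.castSucc - hr) * d) (f i.castSucc) (n + (h i.castSucc - hr) * p)
  have hdd : ∀ (s : ℤ) (g : ℤ → ℂ), (Bdd g) → Bdd (dd s g) := fun s g hg =>
    hg.mul ((hg.shift fun n => n + s).star)
  have hT : ∀ d p, Bdd (T d p) := fun d p =>
    ((hdd _ _ hb₀).shift fun n => n + (h₀ - hr) * p).mul
      (Bdd.prod Finset.univ fun i _ =>
        (hdd _ _ (hbi i.castSucc)).shift fun n => n + (h i.castSucc - hr) * p)
  have e7 : ∀ p d n, G p n * star (G (p + d) n) = T d p n := by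
    intro p d n
    show (f₀ (n + (h₀ - hr) * p) * ∏ i : Fin r, f i.castSucc (n + (h i.castSucc - hr) * p)) *
      star (f₀ (n + (h₀ - hr) * (p + d)) *
        ∏ i : Fin r, f i.castSucc (n + (h i.castSucc - hr) * (p + d))) = _
    have e8 : n + (h₀ - hr) * (p + d) = n + (h₀ - hr) * p + (h₀ - hr) * d := by ring
    have e9 : ∀ i : Fin r, n + (h i.castSucc - hr) * (p + d) =
        n + (h i.castSucc - hr) * p + (h i.castSucc - hr) * d := fun i => by ring
    rw [e8, star_mul', star_prod]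
    simp only [e9]
    show _ = (f₀ (n + (h₀ - hr) * p) * star (f₀ (n + (h₀ - hr) * p + (h₀ - hr) * d))) *
      ∏ i : Fin r, (f i.castSucc (n + (h i.castSucc - hr) * p) *
        star (f i.castSucc (n + (h i.castSucc - hr) * p + (h i.castSucc - hr) * d)))
    rw [Finset.prod_mul_distrib]
    ring
  have e10 : (fun n => ((‖Φ n‖ ^ 2 : ℝ) : ℂ)) = fun n => ∑ d ∈ D,
      ∑ p ∈ P.filter (fun p => p + d ∈ P), (c p * star (c (p + d))) * T d p n := by
    funext n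
    have e11 : ((‖Φ n‖ ^ 2 : ℝ) : ℂ) = Φ n * star (Φ n) := by
      rw [Complex.star_def, Complex.mul_conj, Complex.normSq_eq_norm_sq]
    rw [e11]
    show (∑ p ∈ P, c p * G p n) * star (∑ p ∈ P, c p * G p n) = _
    rw [star_sum, Finset.sum_mul_sum, csa_regroup P D hD]
    refine Finset.sum_congr rfl fun d _ => Finset.sum_congr rfl fun p _ => ?_
    rw [star_mul', ← e7 p d n]
    ring
  rw [e10, mean_sum hM D (fun d n => ∑ p ∈ P.filter (fun p => p + d ∈ P),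
    (c p * star (c (p + d))) * T d p n) fun d _ => Bdd.sum _ fun p _ => (hT d p).smul _]
  refine (norm_sum_le _ _).trans (Finset.sum_le_sum fun d _ => ?_)
  rw [mean_sum hM (P.filter (fun p => p + d ∈ P)) (fun p n => (c p * star (c (p + d))) * T d p n)
    fun p _ => (hT d p).smul _]
  refine le_of_eq (congrArg norm (Finset.sum_congr rfl fun p _ => ?_))
  exact hM.smul _ _ (hT d p)

end Pool.Agent.Work.MP_58cfe3_nt
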