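import Pool.Agent.Work.MP_58cfe3_nt.CSa

/-!
# Module CSb (size M): the iterated Cauchy-Schwarz inequality

PROOF. Induction on `r` (all other data generalised). `r = 0`: `M (f₀(n + h₀ p)) = M f₀` by `shift`, so the
norm is at most `|P| ‖M f₀‖` and `BB M D [] f₀ = ‖M f₀‖`, exponent `2^0 - 1 - 0 = 0`.
Step: `‖T‖^(2^(r+1)) = (‖T‖²)^(2^r) ≤ (∑_{d∈D} ‖T_d‖)^(2^r) ≤ |D|^(2^r - 1) ∑_d ‖T_d‖^(2^r)`
(`inner_le_nnorm_mul_nnorm`/`Finset.inner_mul_le_norm_mul_norm`; power mean: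
`inner`-free lemma `inv_mul`... use `Finset.sum_pow_le_pow_sum`-type lemma `pow_sum_le` : Mathlib
`inner_le...`; concretely `Real.pow_sum_div_card_le_sum_pow`), and the induction hypothesis for `T_d`
(`P_d ⊆ P`, `|P_d| ≤ N`, `‖c_p conj c_{p+d}‖ ≤ 1`, `‖dd‖ ≤ 1`) with the differences
`h₀' - h_i' = h₀ - h_i`: `‖T_d‖^(2^r) ≤ N^(2^r) ... `. To keep it simple the bound is stated with
`N ≥ |P|`, `N ≥ |D|`, `N ≥ 1`: `‖T‖^(2^r) ≤ N^(2^r - r) * BB` (since `|P| |D|^(2^r-1-r) ≤ N^(2^r-r)`).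
In the step: `(2^r - 1) + (2^r - r) = 2^(r+1) - (r+1)`. `es i = h₀ - h i`; the list for `BB` is
`[es (last), ..., es 0]`, i.e. `(List.ofFn (fun i => h₀ - h i)).reverse`; the first Cauchy-Schwarz step
removes the last companion, and `List.ofFn_succ'`/`List.reverse_concat` gives the recursion.
-/

set_option autoImplicit false

namespace Pool.Agent.Work.MP_58cfe3_nt

open Filter Topology

private theorem dd_le {f : ℤ → ℂ} (hf : ∀ n, ‖f n‖ ≤ 1) (s n : ℤ) : ‖dd s f n‖ ≤ 1 := by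
  unfold dd
  rw [norm_mul, norm_star]
  exact mul_le_one₀ (hf _) (norm_nonneg _) (hf _)

theorem cs_iter {M : (ℤ → ℂ) → ℂ} (hM : IsMean M) (D : Finset ℤ) {N : ℝ} (hN : 1 ≤ N)
    (hDN : (D.card : ℝ) ≤ N) : ∀ (r : ℕ) (P : Finset ℤ), (P.card : ℝ) ≤ N →
    (∀ p ∈ P, ∀ p' ∈ P, p' - p ∈ D) → ∀ (c : ℤ → ℂ), (∀ p, ‖c p‖ ≤ 1) →
    ∀ (f₀ : ℤ → ℂ), (∀ n, ‖f₀ n‖ ≤ 1) → ∀ (f : Fin r → ℤ → ℂ), (∀ i n, ‖f i n‖ ≤ 1) →
    ∀ (h₀ : ℤ) (h : Fin r → ℤ),
    ‖∑ p ∈ P, c p * M (fun n => f₀ (n + h₀ * p) * ∏ i, f i (n + h i * p))‖ ^ (2 ^ r) ≤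
      N ^ (2 ^ r - r) * BB M D (List.ofFn fun i => h₀ - h i).reverse f₀ := by
  intro r
  induction r with
  | zero =>
    intro P hP _ c hc f₀ hf₀ f hf h₀ h
    have hsh : ∀ p : ℤ, M (fun n => f₀ (n + h₀ * p) * ∏ i : Fin 0, f i (n + h i * p)) = M f₀ := by
      intro p
      have := hM.shift f₀ ⟨1, hf₀⟩ (h₀ * p)
      simpa using this
    simp only [hsh, pow_zero, pow_one, List.ofFn_zero, List.reverse_nil, BB, Nat.sub_zero]
    calc ‖∑ p ∈ P, c p * M f₀‖ ≤ ∑ p ∈ P, ‖c p * M f₀‖ := norm_sum_le _ _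
      _ ≤ ∑ p ∈ P, ‖M f₀‖ := by
          refine Finset.sum_le_sum fun p _ => ?_
          rw [norm_mul]
          exact mul_le_of_le_one_left (norm_nonneg _) (hc p)
      _ = P.card * ‖M f₀‖ := by rw [Finset.sum_const, nsmul_eq_mul]
      _ ≤ N * ‖M f₀‖ := mul_le_mul_of_nonneg_right hP (norm_nonneg _)
  | succ r ih =>
    intro P hP hPD c hc f₀ hf₀ f hf h₀ h
    set T := ∑ p ∈ P, c p * M (fun n => f₀ (n + h₀ * p) * ∏ i, f i (n + h i * p)) with hT
    set Td : ℤ → ℂ := fun d => ∑ p ∈ P.filter (fun p => p + d ∈ P), (c p * star (c (p + d))) *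
        M (fun n => dd ((h₀ - h (Fin.last r)) * d) f₀ (n + (h₀ - h (Fin.last r)) * p) *
          ∏ i : Fin r, dd ((h i.castSucc - h (Fin.last r)) * d) (f i.castSucc)
            (n + (h i.castSucc - h (Fin.last r)) * p)) with hTd
    have h1 : ‖T‖ ^ 2 ≤ ∑ d ∈ D, ‖Td d‖ := cs_step hM P D hPD c f₀ hf₀ f hf h₀ h
    have hih : ∀ d ∈ D, ‖Td d‖ ^ (2 ^ r) ≤ N ^ (2 ^ r - r) *
        BB M D (List.ofFn fun i : Fin r => h₀ - h i.castSucc).reverse
          (dd ((h₀ - h (Fin.last r)) * d) f₀) := by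
      intro d _
      have := ih (P.filter (fun p => p + d ∈ P))
        ((Nat.cast_le.mpr (Finset.card_filter_le _ _)).trans hP)
        (fun p hp p' hp' => hPD p (Finset.mem_filter.mp hp).1 p' (Finset.mem_filter.mp hp').1)
        (fun p => c p * star (c (p + d)))
        (fun p => by rw [norm_mul, norm_star]; exact mul_le_one₀ (hc _) (norm_nonneg _) (hc _))
        (dd ((h₀ - h (Fin.last r)) * d) f₀) (dd_le hf₀ _)
        (fun i => dd ((h i.castSucc - h (Fin.last r)) * d) (f i.castSucc))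
        (fun i => dd_le (hf _) _) (h₀ - h (Fin.last r))
        (fun i => h i.castSucc - h (Fin.last r))
      have e : (fun i : Fin r => h₀ - h (Fin.last r) - (h i.castSucc - h (Fin.last r))) =
          fun i : Fin r => h₀ - h i.castSucc := by
        funext i; ring
      rw [e] at this
      exact this
    have hlist : (List.ofFn fun i : Fin (r + 1) => h₀ - h i).reverse =
        (h₀ - h (Fin.last r)) :: (List.ofFn fun i : Fin r => h₀ - h i.castSucc).reverse := by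
      rw [List.ofFn_succ', List.concat_eq_append, List.reverse_append]
      rfl
    have hBB : BB M D (List.ofFn fun i : Fin (r + 1) => h₀ - h i).reverse f₀ =
        ∑ d ∈ D, BB M D (List.ofFn fun i : Fin r => h₀ - h i.castSucc).reverse
          (dd ((h₀ - h (Fin.last r)) * d) f₀) := by
      rw [hlist]; rfl
    have hpow : (∑ d ∈ D, ‖Td d‖) ^ (2 ^ r) ≤ (D.card : ℝ) ^ (2 ^ r - 1) *
        ∑ d ∈ D, ‖Td d‖ ^ (2 ^ r) := by
      obtain ⟨m, hm⟩ : ∃ m, 2 ^ r = m + 1 := ⟨2 ^ r - 1, by have := Nat.one_le_two_pow (n := r); omega⟩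
      rw [hm, Nat.add_sub_cancel]
      exact pow_sum_le_card_mul_sum_pow (fun _ _ => norm_nonneg _) m
    have hNN : (0 : ℝ) ≤ N := zero_le_one.trans hN
    have hexp : 2 ^ (r + 1) - (r + 1) = (2 ^ r - 1) + (2 ^ r - r) := by
      have h2 : r < 2 ^ r := Nat.lt_two_pow_self
      rw [pow_succ]; omega
    calc ‖T‖ ^ (2 ^ (r + 1)) = (‖T‖ ^ 2) ^ (2 ^ r) := by rw [← pow_mul, pow_succ, mul_comm]
      _ ≤ (∑ d ∈ D, ‖Td d‖) ^ (2 ^ r) := pow_le_pow_left₀ (by positivity) h1 _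
      _ ≤ (D.card : ℝ) ^ (2 ^ r - 1) * ∑ d ∈ D, ‖Td d‖ ^ (2 ^ r) := hpow
      _ ≤ N ^ (2 ^ r - 1) * ∑ d ∈ D, ‖Td d‖ ^ (2 ^ r) := by
          refine mul_le_mul_of_nonneg_right (pow_le_pow_left₀ (by positivity) hDN _)
            (Finset.sum_nonneg fun _ _ => by positivity)
      _ ≤ N ^ (2 ^ r - 1) * ∑ d ∈ D, (N ^ (2 ^ r - r) *
            BB M D (List.ofFn fun i : Fin r => h₀ - h i.castSucc).reverse
              (dd ((h₀ - h (Fin.last r)) * d) f₀)) := by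
          refine mul_le_mul_of_nonneg_left (Finset.sum_le_sum hih) (by positivity)
      _ = N ^ (2 ^ (r + 1) - (r + 1)) *
            BB M D (List.ofFn fun i : Fin (r + 1) => h₀ - h i).reverse f₀ := by
          rw [← Finset.mul_sum, ← mul_assoc, ← pow_add, hexp, hBB]

end Pool.Agent.Work.MP_58cfe3_nt
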