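import Pool.Agent.Work.MP_58cfe3_nt.MeanEx
import Pool.Agent.Work.MP_58cfe3_nt.EdKeyB
import Pool.Agent.Work.MP_58cfe3_nt.DilM
import Pool.Agent.Work.MP_58cfe3_nt.CSfin
import Pool.Agent.Work.MP_58cfe3_nt.Triv

/-!
# Module Crit (size M-L): the criterion

PROOF. Suppose not; `exists_mean` for `F n = g (n+h) ∏ f_i (n + h'_i)` gives a mean `M` with `M F ≠ 0` and
`M (cube g e) = 0` for all nondegenerate `e`. By `shift` by a large integer all shifts may be taken `≥ 0`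
(natural numbers `a`, `a_i`, with `a_i ≠ a`). Put `f̃ = Fin.cons g f`, `h̃ = Fin.cons a a'`, `k = r + 1`,
`Dm = M (∏ f̃_j(n + h̃_j)) ≠ 0`, `G p = ∏ f̃_j(p)`. If for some `j` the sums of `(1 - |f̃_j(p)|)/p` over finite sets of
primes are unbounded, `triv` gives `Dm = 0`. Otherwise they are all bounded, so
`tl i = ∑_{p ∈ PB (HH i)} (1 - |G p|)/p` has bounded partial sums: `1 - |G p| ≤ ∑_j (1 - |f̃_j p|)` and the sets
`PB (HH i)`, `i ≥ 1`, are disjoint (`HH (i+1) = (i+1)² HH i ≥ 4 HH i`; `i = 0, 1` have the same `HH = 1`: every prime is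
in at most two of the sets). Take `ε = |Dm|/32` (or smaller), `i₀` so large that `cs_fin` applies to `H = HH i` and
`2 k/H ≤ ε`, `c p = conj of the phase of G p * Dm`. With `ed_key'`, `dil_mul`, `cs_fin`:
`|Dm| ∑_{p} |G p| = ‖∑ c_p G p Dm‖ ≤ (ε + 2k/H + ε) |PB|`, while
`∑_p (1 - |G p|) ≤ 4H tl i ≤ 4 ε' |PB|` gives `∑ |G p| ≥ |PB|/2`. Contradiction (`|PB| > 0` by `card_PB`).
-/

set_option autoImplicit false

namespace Pool.Agent.Work.MP_58cfe3_nt

open Filter Topology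

private theorem one_sub_norm_prod {ι : Type*} (s : Finset ι) (x : ι → ℂ)
    (hx : ∀ i ∈ s, ‖x i‖ ≤ 1) : 1 - ‖∏ i ∈ s, x i‖ ≤ ∑ i ∈ s, (1 - ‖x i‖) := by
  classical
  induction s using Finset.induction_on with
  | empty => simp
  | insert a s ha ih =>
    rw [Finset.prod_insert ha, Finset.sum_insert ha, norm_mul]
    have h1 := ih fun i hi => hx i (Finset.mem_insert_of_mem hi)
    have h2 := hx a (Finset.mem_insert_self a s)
    have h3 : ‖∏ i ∈ s, x i‖ ≤ 1 :=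
      norm_prod_le_one _ _ fun i hi => hx i (Finset.mem_insert_of_mem hi)
    have h4 := norm_nonneg (x a)
    nlinarith

private theorem HH_succ (i : ℕ) : HH (i + 1) = (i + 1) ^ 2 * HH i := by
  unfold HH
  rw [Nat.factorial_succ, mul_pow]

private theorem HH_four {i : ℕ} (hi : 1 ≤ i) : 4 * HH i ≤ HH (i + 1) := by
  rw [HH_succ]
  refine Nat.mul_le_mul_right _ ?_
  nlinarith

private theorem HH_mono {i j : ℕ} (hij : i ≤ j) : HH i ≤ HH j := by
  unfold HH
  exact Nat.pow_le_pow_left (Nat.factorial_le hij) 2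

private theorem le_HH (i : ℕ) : i ≤ HH i := by
  unfold HH
  have h1 := Nat.self_le_factorial i
  have h2 : 1 ≤ i.factorial := Nat.factorial_pos i
  nlinarith

private theorem PB_disj {i j : ℕ} (hi : 1 ≤ i) (hij : i < j) :
    Disjoint (PB (HH i)) (PB (HH j)) := by
  rw [Finset.disjoint_left]
  intro p hp hp'
  unfold PB at hp hp'
  rw [Finset.mem_filter, Finset.mem_Ioc] at hp hp'
  have h1 := HH_four hi
  have h2 : HH (i + 1) ≤ HH j := HH_mono hij
  omega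

private theorem tl_bound (t : ℕ → ℝ) (K : ℝ)
    (hK : ∀ S : Finset ℕ, (∀ p ∈ S, p.Prime) → ∑ p ∈ S, t p ≤ K) (N : ℕ) :
    ∑ i ∈ Finset.range N, ∑ p ∈ PB (HH i), t p ≤ 2 * K := by
  have hK0 : 0 ≤ K := by simpa using hK ∅ (by simp)
  have hprime : ∀ H, ∀ p ∈ PB H, p.Prime := by
    intro H p hp
    unfold PB at hp
    exact (Finset.mem_filter.1 hp).2
  cases N with
  | zero => simpa using hK0
  | succ N =>
    rw [Finset.sum_range_succ']
    have h1 : ∑ p ∈ PB (HH 0), t p ≤ K := hK _ (hprime _)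
    have h2 : ∑ i ∈ Finset.range N, ∑ p ∈ PB (HH (i + 1)), t p ≤ K := by
      rw [← Finset.sum_biUnion]
      · refine hK _ fun p hp => ?_
        rw [Finset.mem_biUnion] at hp
        obtain ⟨i, _, hi⟩ := hp
        exact hprime _ p hi
      · intro i _ j _ hij
        rcases Nat.lt_or_gt_of_ne hij with h | h
        · exact PB_disj (Nat.succ_le_succ (Nat.zero_le i)) (Nat.succ_lt_succ h)
        · exact (PB_disj (Nat.succ_le_succ (Nat.zero_le j)) (Nat.succ_lt_succ h)).symm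
    linarith

private theorem exists_phase (w : ℂ) : ∃ u : ℂ, ‖u‖ ≤ 1 ∧ u * w = (‖w‖ : ℂ) := by
  by_cases hS0 : w = 0
  · exact ⟨0, by simp, by simp [hS0]⟩
  · have hn : ‖w‖ ≠ 0 := norm_ne_zero_iff.2 hS0
    have hn' : (‖w‖ : ℂ) ≠ 0 := by exact_mod_cast hn
    refine ⟨(starRingEnd ℂ) w / ‖w‖, ?_, ?_⟩
    · rw [norm_div, RCLike.norm_conj, Complex.norm_real, norm_norm, div_self hn]
    · rw [div_mul_eq_mul_div, Complex.conj_mul', sq, mul_div_assoc, div_self hn', mul_one]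

theorem criterion {g : ℤ → ℂ} (hg : MulBdd g) {r : ℕ} (hc : Cubes g r) : Universal g r := by
  intro f hf h h' hne
  by_contra hT
  have hB : Bdd fun n => g (n + h) * ∏ i, f i (n + h' i) :=
    (hg.bounded.shift fun n => n + h).mul
      (Bdd.prod _ fun i _ => ((hf i).bounded).shift fun n => n + h' i)
  obtain ⟨M, hM, hMF, hvan⟩ := exists_mean hB hT
  have hcube : ∀ e : Fin r → ℤ, Function.Injective (vert e) → M (cube g e) = 0 := fun e he =>
    hvan _ ⟨1, norm_cube_le hg.bdd e⟩ (hc e he)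
  -- shift
  obtain ⟨s, hs0, hs⟩ : ∃ s : ℤ, 0 ≤ h + s ∧ ∀ i, 0 ≤ h' i + s := by
    refine ⟨|h| + ∑ i, |h' i|, ?_, fun i => ?_⟩
    · have h1 := neg_abs_le h
      have h2 : 0 ≤ ∑ i, |h' i| := Finset.sum_nonneg fun i _ => abs_nonneg _
      linarith
    · have h1 := neg_abs_le (h' i)
      have h2 : |h' i| ≤ ∑ i, |h' i| :=
        Finset.single_le_sum (f := fun i => |h' i|) (fun i _ => abs_nonneg _) (Finset.mem_univ i)
      have h3 := abs_nonneg h
      linarith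
  obtain ⟨ft, hft⟩ : ∃ ft : Fin (r + 1) → ℤ → ℂ, ft = Fin.cons g f := ⟨_, rfl⟩
  obtain ⟨ht, hht⟩ : ∃ ht : Fin (r + 1) → ℕ,
      ht = Fin.cons (h + s).toNat fun i => (h' i + s).toNat := ⟨_, rfl⟩
  have hft0 : ft 0 = g := by rw [hft]; rfl
  have hftS : ∀ i : Fin r, ft i.succ = f i := by intro i; rw [hft]; rfl
  have hht0 : ((ht 0 : ℕ) : ℤ) = h + s := by
    rw [hht]
    exact Int.toNat_of_nonneg hs0
  have hhtS : ∀ i : Fin r, ((ht i.succ : ℕ) : ℤ) = h' i + s := by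
    intro i
    rw [hht]
    exact Int.toNat_of_nonneg (hs i)
  have hfm : ∀ j, MulBdd (ft j) := by
    intro j
    refine Fin.cases ?_ (fun i => ?_) j
    · rw [hft0]; exact hg
    · rw [hftS]; exact hf i
  have hfn : ∀ j n, ‖ft j n‖ ≤ 1 := fun j n => (hfm j).bdd n
  obtain ⟨Dm, hDm⟩ : ∃ Dm : ℂ, Dm = M fun n => ∏ j, ft j (n + ht j) := ⟨_, rfl⟩
  have hDmF : Dm = M fun n => g (n + h) * ∏ i, f i (n + h' i) := by
    rw [hDm, ← hM.shift _ hB s]
    congr 1
    funext n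
    rw [Fin.prod_univ_succ, hft0, hht0]
    congr 1
    · congr 1; ring
    · refine Finset.prod_congr rfl fun i _ => ?_
      rw [hftS, hhtS]
      congr 1; ring
  have hDm0 : 0 < ‖Dm‖ := by
    rw [norm_pos_iff, hDmF]
    exact hMF
  -- the sums over primes are bounded
  have hbd : ∀ j, ∃ K : ℝ, ∀ S : Finset ℕ, (∀ p ∈ S, p.Prime) →
      ∑ p ∈ S, (1 - ‖ft j p‖) / p ≤ K := by
    intro j
    by_contra hcon
    push Not at hcon
    have h1 := triv hM (hfm j) (fun K => by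
      obtain ⟨S, hS, hS'⟩ := hcon K
      exact ⟨S, hS, hS'.le⟩) (ht j) (F := fun n => ∏ i ∈ Finset.univ.erase j, ft i (n + ht i))
      (Bdd.prod _ fun i _ => ((hfm i).bounded).shift fun n => n + ht i)
    have h2 : Dm = 0 := by
      rw [hDm, ← h1]
      congr 1
      funext n
      exact (Finset.mul_prod_erase Finset.univ (fun i => ft i (n + ht i)) (Finset.mem_univ j)).symm
    rw [h2, norm_zero] at hDm0
    exact lt_irrefl _ hDm0
  choose K hK using hbd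
  obtain ⟨G, hG⟩ : ∃ G : ℕ → ℂ, G = fun p : ℕ => ∏ j, ft j (p : ℤ) := ⟨_, rfl⟩
  have hGn : ∀ p, ‖G p‖ ≤ 1 := by
    intro p
    rw [hG]
    exact norm_prod_le_one _ _ fun j _ => hfn j p
  have hKG : ∀ S : Finset ℕ, (∀ p ∈ S, p.Prime) → ∑ p ∈ S, (1 - ‖G p‖) / p ≤ ∑ j, K j := by
    intro S hS
    calc ∑ p ∈ S, (1 - ‖G p‖) / p ≤ ∑ p ∈ S, ∑ j, (1 - ‖ft j p‖) / p := by
          refine Finset.sum_le_sum fun p _ => ?_
          rw [← Finset.sum_div]
          refine div_le_div_of_nonneg_right ?_ (Nat.cast_nonneg p)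
          rw [hG]
          exact one_sub_norm_prod _ _ fun j _ => hfn j p
      _ = ∑ j, ∑ p ∈ S, (1 - ‖ft j p‖) / p := Finset.sum_comm
      _ ≤ ∑ j, K j := Finset.sum_le_sum fun j _ => hK j S hS
  have htl := tl_bound (fun p => (1 - ‖G p‖) / p) (∑ j, K j) hKG
  have htl0 : ∀ i, 0 ≤ ∑ p ∈ PB (HH i), (1 - ‖G p‖) / (p : ℝ) := fun i =>
    Finset.sum_nonneg fun p _ => div_nonneg (by have := hGn p; linarith) (Nat.cast_nonneg p)
  -- the scale
  obtain ⟨ε, hε⟩ : ∃ ε : ℝ, ε = min (1 / 8) (‖Dm‖ / 32) := ⟨_, rfl⟩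
  have hε0 : 0 < ε := by
    rw [hε]
    exact lt_min (by norm_num) (by linarith)
  have hε1 : ε ≤ 1 / 8 := by rw [hε]; exact min_le_left _ _
  have hε2 : ε ≤ ‖Dm‖ / 32 := by rw [hε]; exact min_le_right _ _
  obtain ⟨H₁, hH₁⟩ := cs_fin (r := r) hε0
  obtain ⟨H₀, hH₀⟩ := card_PB
  obtain ⟨n₀, hn₀⟩ := exists_nat_gt (32 * ((r + 1 : ℕ) : ℝ) / ‖Dm‖)
  obtain ⟨i, hi, hi1, hi2⟩ := ed_key' hM ft hfn ht htl0 htl hε0 (H₁ + H₀ + 2 + n₀)
  obtain ⟨H, hHi⟩ : ∃ H, H = HH i := ⟨_, rfl⟩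
  rw [← hHi] at hi1 hi2
  have hHge : H₁ + H₀ + 2 + n₀ ≤ H := by
    rw [hHi]
    exact hi.trans (le_HH i)
  have hH2 : (2 : ℝ) ≤ H := by
    have : 2 ≤ H := by omega
    exact_mod_cast this
  have hcard : 0 < ((PB H).card : ℝ) := by
    refine lt_of_lt_of_le ?_ (hH₀ H (by omega))
    have : 0 < Real.log H := Real.log_pos (by linarith)
    positivity
  have hkH : 2 * ((r + 1 : ℕ) : ℝ) / H ≤ ‖Dm‖ / 16 := by
    have h1 : (n₀ : ℝ) ≤ H := by
      have : n₀ ≤ H := by omega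
      exact_mod_cast this
    have h2 : 32 * ((r + 1 : ℕ) : ℝ) / ‖Dm‖ < H := lt_of_lt_of_le hn₀ h1
    rw [div_lt_iff₀ hDm0] at h2
    rw [div_le_iff₀ (by linarith)]
    nlinarith
  -- phases
  choose c hc1 hc2 using fun p => exists_phase (G p * Dm)
  have hA := hi2 c hc1
  have hBs := hH₁ H (by omega) M hM g hg.bdd hcube f (fun i n => (hf i).bdd n) (ht 0)
    (fun i => ht i.succ) (fun i => by
      rw [hht0, hhtS]
      have := hne i
      intro hcon
      exact this (by linarith)) c hc1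
  have hBeq : ∀ p : ℕ, (M fun n => ∏ j, ft j (n + p * ht j))
      = M fun n => g (n + p * (ht 0 : ℤ)) * ∏ i : Fin r, f i (n + p * (ht i.succ : ℤ)) := by
    intro p
    congr 1
    funext n
    rw [Fin.prod_univ_succ, hft0]
    congr 1
    exact Finset.prod_congr rfl fun i _ => by rw [hftS]
  have hCs : ‖∑ p ∈ PB H, c p * (M (fun n => if (p : ℤ) ∣ n then
        (p : ℂ) * ∏ j, ft j (n + p * ht j) else 0) - G p * Dm)‖ ≤
        2 * ((r + 1 : ℕ) : ℝ) / H * (PB H).card := by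
    have h1 : ∀ p ∈ PB H, ‖c p * (M (fun n => if (p : ℤ) ∣ n then
        (p : ℂ) * ∏ j, ft j (n + p * ht j) else 0) - G p * Dm)‖ ≤
          2 * ((r + 1 : ℕ) : ℝ) / H := by
      intro p hp
      unfold PB at hp
      rw [Finset.mem_filter, Finset.mem_Ioc] at hp
      have h2 := dil_mul hM ft hfm ht hp.2
      rw [← hDm] at h2
      have h3 : (2 * ((r + 1 : ℕ) : ℝ) / p) ≤ 2 * ((r + 1 : ℕ) : ℝ) / H := by
        refine div_le_div_of_nonneg_left (by positivity) (by linarith) ?_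
        exact_mod_cast hp.1.1.le
      rw [norm_mul]
      refine (mul_le_of_le_one_left (norm_nonneg _) (hc1 p)).trans (le_trans ?_ h3)
      rw [hG]
      exact h2
    refine (norm_sum_le_of_le _ h1).trans (le_of_eq ?_)
    rw [Finset.sum_const, nsmul_eq_mul, mul_comm]
  -- the sum
  have hsum : ∑ p ∈ PB H, c p * (G p * Dm)
      = (∑ p ∈ PB H, c p * M (fun n => g (n + p * (ht 0 : ℤ)) *
          ∏ i : Fin r, f i (n + p * (ht i.succ : ℤ))))
        + (∑ p ∈ PB H, c p * (M (fun n => if (p : ℤ) ∣ n then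
          (p : ℂ) * ∏ j, ft j (n + p * ht j) else 0) - M (fun n => ∏ j, ft j (n + p * ht j))))
        - ∑ p ∈ PB H, c p * (M (fun n => if (p : ℤ) ∣ n then
          (p : ℂ) * ∏ j, ft j (n + p * ht j) else 0) - G p * Dm) := by
    rw [← Finset.sum_add_distrib, ← Finset.sum_sub_distrib]
    refine Finset.sum_congr rfl fun p _ => ?_
    rw [hBeq p]
    ring
  have hn1 : ‖∑ p ∈ PB H, c p * (G p * Dm)‖ ≤
      (ε + ε + 2 * ((r + 1 : ℕ) : ℝ) / H) * (PB H).card := by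
    rw [hsum]
    refine (norm_sub_le _ _).trans ?_
    have h1 := norm_add_le (∑ p ∈ PB H, c p * M (fun n => g (n + p * (ht 0 : ℤ)) *
          ∏ i : Fin r, f i (n + p * (ht i.succ : ℤ))))
        (∑ p ∈ PB H, c p * (M (fun n => if (p : ℤ) ∣ n then
          (p : ℂ) * ∏ j, ft j (n + p * ht j) else 0) - M (fun n => ∏ j, ft j (n + p * ht j))))
    linarith
  have hn2 : ‖∑ p ∈ PB H, c p * (G p * Dm)‖ = ‖Dm‖ * ∑ p ∈ PB H, ‖G p‖ := by
    have h1 : ∑ p ∈ PB H, c p * (G p * Dm) = ((∑ p ∈ PB H, ‖G p * Dm‖ : ℝ) : ℂ) := by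
      rw [Complex.ofReal_sum]
      exact Finset.sum_congr rfl fun p _ => hc2 p
    rw [h1, Complex.norm_real, Real.norm_eq_abs,
      abs_of_nonneg (Finset.sum_nonneg fun p _ => norm_nonneg _), Finset.mul_sum]
    exact Finset.sum_congr rfl fun p _ => by rw [norm_mul, mul_comm]
  have hn3 : ((PB H).card : ℝ) * (1 - 4 * ε) ≤ ∑ p ∈ PB H, ‖G p‖ := by
    have h1 : ∑ p ∈ PB H, (1 - ‖G p‖) ≤ 4 * H * ∑ p ∈ PB H, (1 - ‖G p‖) / (p : ℝ) := by
      rw [Finset.mul_sum]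
      refine Finset.sum_le_sum fun p hp => ?_
      unfold PB at hp
      rw [Finset.mem_filter, Finset.mem_Ioc] at hp
      have h2 : (0 : ℝ) < p := by exact_mod_cast hp.2.pos
      have h3 : (p : ℝ) ≤ 4 * H := by exact_mod_cast hp.1.2
      have h4 : 0 ≤ 1 - ‖G p‖ := by have := hGn p; linarith
      rw [mul_div_assoc', le_div_iff₀ h2, mul_comm]
      exact mul_le_mul_of_nonneg_right h3 h4
    rw [Finset.sum_sub_distrib, Finset.sum_const, nsmul_eq_mul, mul_one] at h1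
    have h5 : 4 * H * ∑ p ∈ PB H, (1 - ‖G p‖) / (p : ℝ) ≤ 4 * (ε * (PB H).card) := by
      nlinarith
    linarith
  rw [hn2] at hn1
  have hfin : ‖Dm‖ * (((PB H).card : ℝ) * (1 - 4 * ε)) ≤
      (ε + ε + 2 * ((r + 1 : ℕ) : ℝ) / H) * (PB H).card :=
    (mul_le_mul_of_nonneg_left hn3 hDm0.le).trans hn1
  have h6 : ‖Dm‖ * (1 - 4 * ε) ≤ ε + ε + 2 * ((r + 1 : ℕ) : ℝ) / H := by
    by_contra hcon
    push Not at hcon
    have := mul_lt_mul_of_pos_right hcon hcard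
    linarith
  nlinarith

end Pool.Agent.Work.MP_58cfe3_nt
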