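import Mathlib

/-!
# MP_58cfe3_nt: the logarithmically averaged Elliott conjecture, one function with vanishing
self-correlations and arbitrary companions

Definitions of the statement.
-/

set_option autoImplicit false

namespace Pool.Agent.Work.MP_58cfe3_nt

open Filter Topology

/-- A 1-bounded multiplicative function, extended by `0` to the integers `n ≤ 0`. -/
structure MulBdd (g : ℤ → ℂ) : Prop where
  nonpos : ∀ n : ℤ, n ≤ 0 → g n = 0
  bdd : ∀ n : ℤ, ‖g n‖ ≤ 1
  mul : ∀ m n : ℤ, 0 < m → 0 < n → IsCoprime m n → g (m * n) = g m * g n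

/-- The logarithmic average of `f` over `1 ≤ n ≤ X`. -/
noncomputable def Elog (f : ℤ → ℂ) (X : ℕ) : ℂ :=
  (∑ n ∈ Finset.Icc 1 X, f n / n) / ∑ n ∈ Finset.Icc 1 X, (1 / n : ℂ)

/-- The vertex of the cube with edges `e` which belongs to the set `A` of directions. -/
def vert {r : ℕ} (e : Fin r → ℤ) (A : Finset (Fin r)) : ℤ := ∑ i ∈ A, e i

/-- The product of `g` over the vertices of the cube `n + vert e A`; the vertices with an odd
number of directions carry the complex conjugate. -/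
noncomputable def cube (g : ℤ → ℂ) {r : ℕ} (e : Fin r → ℤ) (n : ℤ) : ℂ :=
  ∏ A : Finset (Fin r), if Even A.card then g (n + vert e A) else star (g (n + vert e A))

/-- The self-correlations of `g` over all `r`-dimensional cubes with `2 ^ r` distinct vertices
vanish logarithmically. -/
def Cubes (g : ℤ → ℂ) (r : ℕ) : Prop :=
  ∀ e : Fin r → ℤ, Function.Injective (vert e) → Tendsto (Elog (cube g e)) atTop (𝓝 0)

/-- The logarithmic correlations of `g` with `r` ARBITRARY 1-bounded multiplicative companions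
vanish, for all shifts (the shift of `g` different from the other ones). -/
def Universal (g : ℤ → ℂ) (r : ℕ) : Prop :=
  ∀ f : Fin r → ℤ → ℂ, (∀ i, MulBdd (f i)) → ∀ (h : ℤ) (h' : Fin r → ℤ), (∀ i, h' i ≠ h) →
    Tendsto (Elog fun n => g (n + h) * ∏ i, f i (n + h' i)) atTop (𝓝 0)

/-- `1 - Re (g(p) * conj (χ(p) p^(it)))`. -/
noncomputable def gap (g : ℤ → ℂ) {q : ℕ} (χ : DirichletCharacter ℂ q) (t : ℝ) (p : ℕ) : ℝ :=
  1 - (g p * star (χ p * (p : ℂ) ^ ((t : ℂ) * Complex.I))).re

/-- The square of the pretentious distance `D(g, n ↦ χ(n) n^(it); X)`. -/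
noncomputable def dist2 (g : ℤ → ℂ) {q : ℕ} (χ : DirichletCharacter ℂ q) (t : ℝ) (X : ℕ) : ℝ :=
  ∑ p ∈ (Finset.Icc 1 X).filter Nat.Prime, gap g χ t p / p

/-- Hypothesis (H) for the function `g`: for every Dirichlet character `χ`, the infimum over
`|t| ≤ X` of `D(g, n ↦ χ(n) n^(it); X)` tends to infinity. -/
def NonPret (g : ℤ → ℂ) : Prop :=
  ∀ (q : ℕ) [NeZero q] (χ : DirichletCharacter ℂ q),
    Tendsto (fun X : ℕ => ⨅ t : Set.Icc (-(X : ℝ)) X, Real.sqrt (dist2 g χ t X)) atTop atTop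

/-- The conjecture Q1. -/
def Q1 : Prop :=
  ∀ k : ℕ, 3 ≤ k → ∀ g : Fin k → ℤ → ℂ, (∀ i, MulBdd (g i)) → (∃ j, NonPret (g j)) →
    ∀ h : Fin k → ℤ, Function.Injective h →
      Tendsto (Elog fun n => ∏ i, g i (n + h i)) atTop (𝓝 0)

/-- `g` is slow: for some Dirichlet character `χ` and some real `t` it is close to `χ(p) p^(it)` at
the primes between `X ^ η` and `X` for every fixed `η > 0`, but the distance to `χ(n) n^(it)` over
all primes is infinite. -/
def Slow (g : ℤ → ℂ) : Prop :=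
  ∃ (q : ℕ) (_ : NeZero q) (χ : DirichletCharacter ℂ q) (t : ℝ),
    (∀ η : ℝ, 0 < η → Tendsto (fun X : ℕ => ∑ p ∈ (Finset.Icc 1 X).filter
      (fun p : ℕ => p.Prime ∧ (X : ℝ) ^ η < p), gap g χ t p / p) atTop (𝓝 0)) ∧
    Tendsto (fun X : ℕ => dist2 g χ t X) atTop atTop

/-- The multiplicative function `f` twisted at the primes of `Q` by the numbers `ε p`. -/
noncomputable def twist (f : ℤ → ℂ) (Q : Set ℕ) (ε : ℕ → ℂ) (n : ℤ) : ℂ :=
  open Classical in
  f n * ∏ p ∈ n.toNat.primeFactors, if p ∈ Q then ε p ^ (n.toNat.factorization p) else 1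

end Pool.Agent.Work.MP_58cfe3_nt
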