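import Pool.Agent.Work.MP_58cfe3_nt.MeanA

/-!
# Module Dist (size S-M): distributions of finite valued functions

PROOFS. `pr_nonneg`, `pr_sum` (`∑_a [X n = a] = 1`, `mr_sum`), `mr_comp`: `φ (X n) = ∑_a [X n = a] φ a`.
`pr_comp`: `[φ (X n) = b] = ∑_{a, φ a = b} [X n = a]`. `pr_shift`: `shift`. All functions involved are
bounded because the types are finite.
-/

set_option autoImplicit false

namespace Pool.Agent.Work.MP_58cfe3_nt

open Filter Topology

open Classical in
private theorem ind_le {α : Type} (X : ℤ → α) (a : α) (n : ℤ) :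
    |(if X n = a then (1 : ℝ) else 0)| ≤ 1 := by
  split_ifs <;> simp

theorem pr_nonneg {M : (ℤ → ℂ) → ℂ} (hM : IsMean M) {α : Type} (X : ℤ → α) (a : α) :
    0 ≤ pr M X a := by
  classical
  unfold pr
  refine mr_nonneg hM (C := 1) (fun n => ?_) (fun n => ?_)
  · split_ifs <;> simp
  · split_ifs <;> simp

theorem mr_comp {M : (ℤ → ℂ) → ℂ} (hM : IsMean M) {α : Type} [Fintype α] (X : ℤ → α)
    (φ : α → ℝ) : mr M (fun n => φ (X n)) = ∑ a, pr M X a * φ a := by
  classical
  have e : (fun n => φ (X n)) = fun n => ∑ a, φ a * (if X n = a then 1 else 0) := by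
    funext n
    simp
  have hb : ∀ a ∈ (Finset.univ : Finset α), ∀ n,
      |φ a * (if X n = a then (1 : ℝ) else 0)| ≤ ∑ a, |φ a| := by
    intro a _ n
    rw [abs_mul]
    calc |φ a| * |(if X n = a then (1 : ℝ) else 0)| ≤ |φ a| * 1 :=
          mul_le_mul_of_nonneg_left (ind_le X a n) (abs_nonneg _)
      _ = |φ a| := mul_one _
      _ ≤ _ := Finset.single_le_sum (f := fun a => |φ a|) (fun i _ => abs_nonneg _)
          (Finset.mem_univ a)
  rw [e, mr_sum hM Finset.univ _ hb]
  refine Finset.sum_congr rfl fun a _ => ?_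
  rw [mr_mul hM (φ a) (ind_le X a), mul_comm]
  unfold pr
  congr

theorem pr_sum {M : (ℤ → ℂ) → ℂ} (hM : IsMean M) {α : Type} [Fintype α] (X : ℤ → α) :
    ∑ a, pr M X a = 1 := by
  have h := mr_comp hM X (fun _ => 1)
  rw [mr_const hM] at h
  simpa using h.symm

theorem pr_le_one {M : (ℤ → ℂ) → ℂ} (hM : IsMean M) {α : Type} (X : ℤ → α) (a : α) :
    pr M X a ≤ 1 := by
  classical
  have h := mr_mono hM (ind_le X a) (g := fun _ => 1) (D := 1) (fun n => by simp)
    (fun n => by split_ifs <;> simp)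
  rw [mr_const hM] at h
  unfold pr
  convert h

open Classical in
theorem pr_comp {M : (ℤ → ℂ) → ℂ} (hM : IsMean M) {α β : Type} [Fintype α] (X : ℤ → α)
    (φ : α → β) (b : β) :
    pr M (fun n => φ (X n)) b = ∑ a, if φ a = b then pr M X a else 0 := by
  have h := mr_comp hM X (fun a => if φ a = b then (1 : ℝ) else 0)
  unfold pr at h ⊢
  rw [h]
  refine Finset.sum_congr rfl fun a _ => ?_
  split_ifs <;> simp

theorem pr_shift {M : (ℤ → ℂ) → ℂ} (hM : IsMean M) {α : Type} (X : ℤ → α) (s : ℤ) (a : α) :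
    pr M (fun n => X (n + s)) a = pr M X a := by
  classical
  unfold pr
  convert mr_shift hM (ind_le X a) s

theorem pr_fst {M : (ℤ → ℂ) → ℂ} (hM : IsMean M) {α β : Type} [Fintype β] (X : ℤ → α)
    (Y : ℤ → β) (a : α) : ∑ b, pr M (fun n => (X n, Y n)) (a, b) = pr M X a := by
  classical
  have hb : ∀ b ∈ (Finset.univ : Finset β), ∀ n,
      |(if (X n, Y n) = (a, b) then (1 : ℝ) else 0)| ≤ 1 := fun b _ n => by
    split_ifs <;> simp
  have h := mr_sum hM Finset.univ (fun b n => if (X n, Y n) = (a, b) then (1 : ℝ) else 0) hb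
  unfold pr
  have e : (fun n => ∑ b, if (X n, Y n) = (a, b) then (1 : ℝ) else 0) =
      fun n => if X n = a then 1 else 0 := by
    funext n
    by_cases hX : X n = a <;> simp [Prod.mk.injEq, hX]
  rw [e] at h
  convert h.symm

theorem pr_snd {M : (ℤ → ℂ) → ℂ} (hM : IsMean M) {α β : Type} [Fintype α] (X : ℤ → α)
    (Y : ℤ → β) (b : β) : ∑ a, pr M (fun n => (X n, Y n)) (a, b) = pr M Y b := by
  classical
  have hb : ∀ a ∈ (Finset.univ : Finset α), ∀ n,
      |(if (X n, Y n) = (a, b) then (1 : ℝ) else 0)| ≤ 1 := fun b _ n => by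
    split_ifs <;> simp
  have h := mr_sum hM Finset.univ (fun a n => if (X n, Y n) = (a, b) then (1 : ℝ) else 0) hb
  unfold pr
  have e : (fun n => ∑ a, if (X n, Y n) = (a, b) then (1 : ℝ) else 0) =
      fun n => if Y n = b then 1 else 0 := by
    funext n
    by_cases hY : Y n = b <;> simp [Prod.mk.injEq, hY]
  rw [e] at h
  convert h.symm

end Pool.Agent.Work.MP_58cfe3_nt
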