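import Pool.Agent.Work.MP_58cfe3_nt.MDefs

/-!
# Module DivS (size S-M): the divergence used in the entropy decrement

PROOFS. `log_HH`: `log (i!)² = 2 log i! ≤ 2 i log i` (`Nat.factorial_le_pow`).
`div_sum`: for `i ≥ 2`: `log log (i+1) - log log i ≤ (log (i+1) - log i) / log i ≤ 1/(i log i)`
(`log x ≤ x - 1`), so `∑_{i=i₀}^{N-1} 1/(i log i) ≥ log log N - log log i₀ → ∞`. If every `i ≥ i₁` had
`a i > c / (i log i)`, the partial sums of `a ≥ 0` would be unbounded.
-/

set_option autoImplicit false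

namespace Pool.Agent.Work.MP_58cfe3_nt

open Filter Topology

theorem log_HH (i : ℕ) : Real.log (HH i) ≤ 2 * i * Real.log i := by
  have h1 : ((HH i : ℕ) : ℝ) = ((i.factorial : ℕ) : ℝ) ^ 2 := by
    unfold HH; push_cast; ring
  rw [h1, Real.log_pow]
  have h2 : Real.log ((i.factorial : ℕ) : ℝ) ≤ i * Real.log i := by
    have h3 : ((i.factorial : ℕ) : ℝ) ≤ (i : ℝ) ^ i := by
      exact_mod_cast Nat.factorial_le_pow i
    have h4 : (0 : ℝ) < ((i.factorial : ℕ) : ℝ) := by exact_mod_cast Nat.factorial_pos i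
    have h5 := Real.log_le_log h4 h3
    rwa [Real.log_pow] at h5
  push_cast
  nlinarith

private theorem loglog_step {i : ℕ} (hi : 3 ≤ i) :
    Real.log (Real.log ((i + 1 : ℕ) : ℝ)) - Real.log (Real.log i) ≤ 1 / (i * Real.log i) := by
  have h3 : (3 : ℝ) ≤ i := by exact_mod_cast hi
  have hi0 : (0 : ℝ) < i := by linarith
  have hl : 0 < Real.log i := Real.log_pos (by linarith)
  have hl' : 0 < Real.log ((i + 1 : ℕ) : ℝ) := Real.log_pos (by push_cast; linarith)
  rw [← Real.log_div hl'.ne' hl.ne']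
  have e1 := Real.log_le_sub_one_of_pos (div_pos hl' hl)
  have e2 : Real.log ((i + 1 : ℕ) : ℝ) - Real.log i ≤ 1 / i := by
    rw [← Real.log_div (by push_cast; positivity) hi0.ne']
    have h4 : (0 : ℝ) < ((i + 1 : ℕ) : ℝ) / i := by push_cast; positivity
    have h5 := Real.log_le_sub_one_of_pos h4
    have h6 : ((i + 1 : ℕ) : ℝ) / i - 1 = 1 / i := by
      push_cast; field_simp; ring
    rw [h6] at h5
    exact h5
  have e3 : Real.log ((i + 1 : ℕ) : ℝ) / Real.log i - 1 ≤ 1 / (i * Real.log i) := by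
    have : Real.log ((i + 1 : ℕ) : ℝ) / Real.log i - 1 =
        (Real.log ((i + 1 : ℕ) : ℝ) - Real.log i) / Real.log i := by
      field_simp
    rw [this]
    calc (Real.log ((i + 1 : ℕ) : ℝ) - Real.log i) / Real.log i ≤ (1 / i) / Real.log i :=
          div_le_div_of_nonneg_right e2 hl.le
      _ = 1 / (i * Real.log i) := by rw [div_div]
  linarith

/-- A nonnegative sequence with bounded partial sums is at most `c / (i log i)` for arbitrarily
large `i`. -/
theorem div_sum {a : ℕ → ℝ} (h0 : ∀ i, 0 ≤ a i) {K : ℝ}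
    (hK : ∀ N, ∑ i ∈ Finset.range N, a i ≤ K) {c : ℝ} (hc : 0 < c) (i₀ : ℕ) :
    ∃ i, i₀ ≤ i ∧ a i ≤ c / (i * Real.log i) := by
  by_contra hcon
  push Not at hcon
  set i₁ := max i₀ 3 with hi₁
  have key : ∀ N, i₁ ≤ N → c * (Real.log (Real.log (N : ℝ)) - Real.log (Real.log (i₁ : ℝ))) ≤
      ∑ i ∈ Finset.Ico i₁ N, a i := by
    intro N hN
    induction N, hN using Nat.le_induction with
    | base => simp
    | succ n hn ih =>
      rw [Finset.sum_Ico_succ_top hn]
      have h1 := hcon n ((le_max_left _ _).trans hn)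
      have h2 := loglog_step ((le_max_right i₀ 3).trans hn)
      have h3 : c * (Real.log (Real.log ((n + 1 : ℕ) : ℝ)) - Real.log (Real.log n)) ≤
          c / (n * Real.log n) := by
        calc _ ≤ c * (1 / (n * Real.log n)) := mul_le_mul_of_nonneg_left h2 hc.le
          _ = _ := by ring
      have h4 : c * (Real.log (Real.log ((n + 1 : ℕ) : ℝ)) - Real.log (Real.log (i₁ : ℝ))) =
          c * (Real.log (Real.log (n : ℝ)) - Real.log (Real.log (i₁ : ℝ))) +
          c * (Real.log (Real.log ((n + 1 : ℕ) : ℝ)) - Real.log (Real.log n)) := by ring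
      rw [h4]
      linarith
  have ht : Tendsto (fun N : ℕ => Real.log (Real.log (N : ℝ))) atTop atTop :=
    Real.tendsto_log_atTop.comp (Real.tendsto_log_atTop.comp tendsto_natCast_atTop_atTop)
  obtain ⟨N, hN1, hN2⟩ := ((ht.eventually_gt_atTop
    (K / c + Real.log (Real.log (i₁ : ℝ)))).and (eventually_ge_atTop i₁)).exists
  have h1 := key N hN2
  have h2 : ∑ i ∈ Finset.Ico i₁ N, a i ≤ ∑ i ∈ Finset.range N, a i :=
    Finset.sum_le_sum_of_subset_of_nonneg (fun i hi => by
      rw [Finset.mem_range]; exact (Finset.mem_Ico.1 hi).2) fun i _ _ => h0 i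
  have h3 := hK N
  have h4 : K < c * (Real.log (Real.log (N : ℝ)) - Real.log (Real.log (i₁ : ℝ))) := by
    have : K / c < Real.log (Real.log (N : ℝ)) - Real.log (Real.log (i₁ : ℝ)) := by linarith
    calc K = c * (K / c) := by field_simp
      _ < _ := mul_lt_mul_of_pos_left this hc
  linarith

end Pool.Agent.Work.MP_58cfe3_nt
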