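import Pool.Agent.Work.MP_58cfe3_nt.Win

/-!
# Module EdSum (size M): the entropy decrement, summed

PROOF. `L_i = B * HH i`, `m_i = (i+1)²`, so `L_{i+1} = m_i L_i`. With `a_i = ent M (win ξ L_i) / L_i`,
`ent_step` and `ent M (rz Q_i) ≤ log Q_i ≤ C HH i` (`ent_le_log_card`, `ZMod.card`) give
`a_{i+1} ≤ C / (B m_i) + a_i - I_i / L_i`. Sum over `i < N`:
`∑_{i<N} I_i / L_i ≤ a_0 + (C/B) ∑ 1/(i+1)² ≤ a_0 + 2 C / B` and `a ≥ 0`; multiply by `B`.
-/

set_option autoImplicit false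

namespace Pool.Agent.Work.MP_58cfe3_nt

open Filter Topology

private theorem HH_succ (i : ℕ) : HH (i + 1) = (i + 1) ^ 2 * HH i := by
  unfold HH
  rw [Nat.factorial_succ, mul_pow]

private theorem HH_pos (i : ℕ) : 0 < HH i := by
  unfold HH
  positivity

private theorem ed_one {M : (ℤ → ℂ) → ℂ} (hM : IsMean M) {α : Type} [Fintype α] (ξ : ℤ → α)
    {B : ℕ} (_hB : 0 < B) (Q : ℕ → ℕ) [∀ i, NeZero (Q i)] {C : ℝ}
    (hQ : ∀ i, Real.log (Q i) ≤ C * HH i) (i : ℕ) :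
    minf M (win ξ (B * HH i)) (rz (Q i)) / HH i ≤
      ent M (win ξ (B * HH i)) / HH i - ent M (win ξ (B * HH (i + 1))) / HH (i + 1) +
        C * (1 / ((i : ℝ) + 1) ^ 2) := by
  have h1 := ent_step hM ξ (Q i) (B * HH i) ((i + 1) ^ 2)
  have e : (i + 1) ^ 2 * (B * HH i) = B * HH (i + 1) := by rw [HH_succ]; ring
  rw [e] at h1
  have h2 : ent M (rz (Q i)) ≤ C * HH i := by
    refine (ent_le_log_card hM (rz (Q i))).trans ?_
    rw [ZMod.card]
    exact hQ i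
  have h3 : (0 : ℝ) < HH i := by exact_mod_cast HH_pos i
  have h4 : ((HH (i + 1) : ℕ) : ℝ) = ((i : ℝ) + 1) ^ 2 * HH i := by
    rw [HH_succ]; push_cast; ring
  have h5 : (0 : ℝ) < ((i : ℝ) + 1) ^ 2 := by positivity
  have h6 : ent M (win ξ (B * HH (i + 1))) ≤ C * HH i + ((i : ℝ) + 1) ^ 2 *
      (ent M (win ξ (B * HH i)) - minf M (win ξ (B * HH i)) (rz (Q i))) := by
    push_cast at h1
    linarith
  have h7 : ent M (win ξ (B * HH (i + 1))) / HH (i + 1) ≤ C * (1 / ((i : ℝ) + 1) ^ 2) +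
      (ent M (win ξ (B * HH i)) - minf M (win ξ (B * HH i)) (rz (Q i))) / HH i := by
    rw [h4, div_le_iff₀ (mul_pos h5 h3)]
    refine h6.trans (le_of_eq ?_)
    field_simp
  have h8 : (ent M (win ξ (B * HH i)) - minf M (win ξ (B * HH i)) (rz (Q i))) / HH i =
      ent M (win ξ (B * HH i)) / HH i - minf M (win ξ (B * HH i)) (rz (Q i)) / HH i :=
    sub_div _ _ _
  rw [h8] at h7
  linarith

theorem ed_sum {M : (ℤ → ℂ) → ℂ} (hM : IsMean M) {α : Type} [Fintype α] (ξ : ℤ → α)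
    {B : ℕ} (hB : 0 < B) (Q : ℕ → ℕ) [∀ i, NeZero (Q i)] {C : ℝ}
    (hQ : ∀ i, Real.log (Q i) ≤ C * HH i) :
    ∃ K : ℝ, ∀ N : ℕ, ∑ i ∈ Finset.range N, minf M (win ξ (B * HH i)) (rz (Q i)) / HH i ≤ K := by
  have hC : 0 ≤ C := by
    have h1 := hQ 0
    have h2 : 0 ≤ Real.log (Q 0) := Real.log_natCast_nonneg _
    have h3 : (0 : ℝ) < HH 0 := by exact_mod_cast HH_pos 0
    by_contra h
    push Not at h
    have := mul_neg_of_neg_of_pos h h3
    linarith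
  have hs : Summable fun i : ℕ => (1 : ℝ) / ((i : ℝ) + 1) ^ 2 := by
    have h := (summable_nat_add_iff 1).2
      (Real.summable_one_div_nat_pow.2 (one_lt_two) : Summable fun n : ℕ => (1 : ℝ) / (n : ℝ) ^ 2)
    refine h.congr fun n => ?_
    push_cast
    rfl
  refine ⟨ent M (win ξ (B * HH 0)) / HH 0 + C * ∑' i : ℕ, (1 : ℝ) / ((i : ℝ) + 1) ^ 2, fun N => ?_⟩
  have h1 : ∑ i ∈ Finset.range N, minf M (win ξ (B * HH i)) (rz (Q i)) / HH i ≤
      ∑ i ∈ Finset.range N, (ent M (win ξ (B * HH i)) / HH i -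
        ent M (win ξ (B * HH (i + 1))) / HH (i + 1) + C * (1 / ((i : ℝ) + 1) ^ 2)) :=
    Finset.sum_le_sum fun i _ => ed_one hM ξ hB Q hQ i
  rw [Finset.sum_add_distrib, Finset.sum_range_sub' (fun i => ent M (win ξ (B * HH i)) / HH i),
    ← Finset.mul_sum] at h1
  have h2 : ∑ i ∈ Finset.range N, (1 : ℝ) / ((i : ℝ) + 1) ^ 2 ≤
      ∑' i : ℕ, (1 : ℝ) / ((i : ℝ) + 1) ^ 2 :=
    hs.sum_le_tsum _ fun i _ => by positivity
  have h3 := mul_le_mul_of_nonneg_left h2 hC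
  have h4 : 0 ≤ ent M (win ξ (B * HH N)) / HH N := div_nonneg (ent_nonneg hM _) (Nat.cast_nonneg _)
  linarith

end Pool.Agent.Work.MP_58cfe3_nt
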