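import Pool.Agent.Work.MP_58cfe3_nt.Key
import Pool.Agent.Work.MP_58cfe3_nt.EdSum
import Pool.Agent.Work.MP_58cfe3_nt.PrimeB
import Pool.Agent.Work.MP_58cfe3_nt.DivS

/-!
# Module EdKey (size M): good scales, finite valued functions

PROOF. `Q i = ∏ PB (HH i)` (positive), `log (Q i) ≤ 4 log 4 HH i` (`log_prod_PB`), `B = 1 + 4 D`. `ed_sum`
and `hT` show that `a i = minf ... / HH i + tl i` has bounded partial sums (`minf_nonneg`). Let
`δ = min (ε² / 50) ε`-like. By `div_sum` with `c = δ / 4` there is a large `i` with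
`a i ≤ δ/(4 i log i)`, and by `card_PB`, `log_HH`: `|PB (HH i)| ≥ HH i / (2 log HH i) ≥ HH i/(4 i log i)`, so
`minf ≤ δ |PB|` and `tl i * HH i ≤ δ |PB|`. In `key` take `l = ε/(25 H)`:
`‖∑‖ ≤ minf/(l H) + |PB| l 25 H / 2 = 25 minf/ε + ε |PB|/2 ≤ ε |PB|` if `δ ≤ ε²/50`.
-/

set_option autoImplicit false

namespace Pool.Agent.Work.MP_58cfe3_nt

open Filter Topology

private theorem le_HH (i : ℕ) : i ≤ HH i := by
  unfold HH
  calc i ≤ i.factorial := Nat.self_le_factorial i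
    _ ≤ i.factorial ^ 2 := Nat.le_self_pow (by norm_num) _

theorem ed_key {M : (ℤ → ℂ) → ℂ} (hM : IsMean M) {α : Type} [Fintype α] (ξ : ℤ → α) {k : ℕ}
    (v : Fin k → α → ℂ) (hv : ∀ i a, ‖v i a‖ ≤ 1) (h : Fin k → ℕ)
    {tl : ℕ → ℝ} (ht : ∀ i, 0 ≤ tl i) {K : ℝ} (hK : ∀ N, ∑ i ∈ Finset.range N, tl i ≤ K)
    {ε : ℝ} (hε : 0 < ε) (i₀ : ℕ) :
    ∃ i, i₀ ≤ i ∧ tl i * HH i ≤ ε * (PB (HH i)).card ∧
      ∀ c : ℕ → ℂ, (∀ p, ‖c p‖ ≤ 1) →
        ‖∑ p ∈ PB (HH i), c p * (M (fun n => if (p : ℤ) ∣ n then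
          (p : ℂ) * ∏ j, v j (ξ (n + p * h j)) else 0) -
            M (fun n => ∏ j, v j (ξ (n + p * h j))))‖ ≤ ε * (PB (HH i)).card := by
  classical
  set D : ℕ := Finset.univ.sup h with hDdef
  have hD : ∀ i, h i ≤ D := fun i => Finset.le_sup (Finset.mem_univ i)
  set Q : ℕ → ℕ := fun i => ∏ p ∈ PB (HH i), p with hQdef
  have hQpos : ∀ i, 0 < Q i := by
    intro i
    refine Finset.prod_pos fun p hp => ?_
    exact (Finset.mem_filter.mp hp).2.pos
  haveI hne : ∀ i, NeZero (Q i) := fun i => ⟨(hQpos i).ne'⟩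
  have hQlog : ∀ i, Real.log (Q i) ≤ 4 * Real.log 4 * HH i := fun i => log_prod_PB (HH i)
  obtain ⟨K', hK'⟩ := ed_sum hM ξ (B := 1 + 4 * D) (by omega) Q hQlog
  set a : ℕ → ℝ := fun i => minf M (win ξ ((1 + 4 * D) * HH i)) (rz (Q i)) / HH i + tl i with ha
  have hHH0 : ∀ i, (0 : ℝ) ≤ HH i := fun i => Nat.cast_nonneg _
  have hm0 : ∀ i, 0 ≤ minf M (win ξ ((1 + 4 * D) * HH i)) (rz (Q i)) := fun i =>
    minf_nonneg hM _ _
  have h0 : ∀ i, 0 ≤ a i := fun i => add_nonneg (div_nonneg (hm0 i) (hHH0 i)) (ht i)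
  have hsum : ∀ N, ∑ i ∈ Finset.range N, a i ≤ K' + K := by
    intro N
    rw [ha, Finset.sum_add_distrib]
    exact add_le_add (hK' N) (hK N)
  set δ : ℝ := min (ε ^ 2 / 50) ε with hδ
  have hδ0 : 0 < δ := lt_min (by positivity) hε
  obtain ⟨H₀, hH₀⟩ := card_PB
  obtain ⟨i, hi, hai⟩ := div_sum h0 hsum (c := δ / 4) (by positivity) (max i₀ (max 3 H₀))
  have hi0 : i₀ ≤ i := (le_max_left _ _).trans hi
  have hi3 : 3 ≤ i := ((le_max_left _ _).trans (le_max_right _ _)).trans hi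
  have hiH : H₀ ≤ i := ((le_max_right _ _).trans (le_max_right _ _)).trans hi
  have hHi : i ≤ HH i := le_HH i
  have hHpos : (0 : ℝ) < HH i := by
    have : 0 < HH i := by omega
    exact_mod_cast this
  have hi3' : (3 : ℝ) ≤ i := by exact_mod_cast hi3
  have hlogi : 0 < Real.log i := Real.log_pos (by linarith)
  have hlogH : 0 < Real.log (HH i) := by
    refine Real.log_pos ?_
    have : (i : ℝ) ≤ HH i := by exact_mod_cast hHi
    linarith
  have hcard : (HH i : ℝ) / (4 * (i * Real.log i)) ≤ (PB (HH i)).card := by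
    refine le_trans ?_ (hH₀ (HH i) (hiH.trans hHi))
    refine div_le_div_of_nonneg_left hHpos.le (by positivity) ?_
    have := log_HH i
    nlinarith
  have haH : a i * HH i ≤ δ * (PB (HH i)).card := by
    calc a i * HH i ≤ (δ / 4 / (i * Real.log i)) * HH i :=
          mul_le_mul_of_nonneg_right hai hHpos.le
      _ = δ * (HH i / (4 * (i * Real.log i))) := by field_simp
      _ ≤ δ * (PB (HH i)).card := mul_le_mul_of_nonneg_left hcard hδ0.le
  have hC0 : (0 : ℝ) ≤ (PB (HH i)).card := Nat.cast_nonneg _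
  refine ⟨i, hi0, ?_, ?_⟩
  · calc tl i * HH i ≤ a i * HH i := by
          refine mul_le_mul_of_nonneg_right ?_ hHpos.le
          have := div_nonneg (hm0 i) (hHH0 i)
          simp only [ha]
          linarith
      _ ≤ δ * (PB (HH i)).card := haH
      _ ≤ ε * (PB (HH i)).card := mul_le_mul_of_nonneg_right (min_le_right _ _) hC0
  · intro c hc
    have hmi : minf M (win ξ ((1 + 4 * D) * HH i)) (rz (Q i)) ≤ δ * (PB (HH i)).card := by
      refine le_trans ?_ haH
      have h1 : minf M (win ξ ((1 + 4 * D) * HH i)) (rz (Q i)) / HH i ≤ a i := by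
        simp only [ha]
        linarith [ht i]
      calc minf M (win ξ ((1 + 4 * D) * HH i)) (rz (Q i))
          = minf M (win ξ ((1 + 4 * D) * HH i)) (rz (Q i)) / HH i * HH i := by
            field_simp
        _ ≤ a i * HH i := mul_le_mul_of_nonneg_right h1 hHpos.le
    have hkey := key hM ξ v hv h hD (HH i) (by omega) (Q i)
      (fun p hp => Finset.dvd_prod_of_mem _ hp) c hc (l := ε / (25 * HH i)) (by positivity)
    set S := ‖∑ p ∈ PB (HH i), c p * (M (fun n => if (p : ℤ) ∣ n then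
          (p : ℂ) * ∏ j, v j (ξ (n + p * h j)) else 0) -
            M (fun n => ∏ j, v j (ξ (n + p * h j))))‖ with hS
    have e1 : ε / (25 * HH i) * HH i * S = ε / 25 * S := by field_simp
    have e2 : (PB (HH i)).card * ((ε / (25 * HH i)) ^ 2 * (5 * (HH i : ℝ)) ^ 2 / 2) =
        ε ^ 2 / 50 * (PB (HH i)).card := by field_simp; ring
    rw [e1, e2] at hkey
    have h3 : δ * (PB (HH i)).card ≤ ε ^ 2 / 50 * (PB (HH i)).card :=
      mul_le_mul_of_nonneg_right (min_le_left _ _) hC0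
    have h4 : ε / 25 * S ≤ ε ^ 2 / 25 * (PB (HH i)).card := by linarith
    have h5 : ε / 25 * S ≤ ε / 25 * (ε * (PB (HH i)).card) := by
      calc ε / 25 * S ≤ ε ^ 2 / 25 * (PB (HH i)).card := h4
        _ = ε / 25 * (ε * (PB (HH i)).card) := by ring
    exact le_of_mul_le_mul_left h5 (by positivity)

end Pool.Agent.Work.MP_58cfe3_nt
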