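import Pool.Agent.Work.MP_58cfe3_nt.Basic

/-!
# Module ElogA (size M): elementary properties of the logarithmic average

PROOFS. Write `S X = ∑_{n ≤ X} 1/n` (real, positive for `X ≥ 1`, tends to infinity: it is
`Real` `harmonic`, or compare with `log`; `Elog f 0 = 0`).
* `elog_le`: triangle inequality.
* `elog_shift`: it is enough to treat `s = 1` for all bounded `f` (then `s = -1` by replacing `f` by
  `f(· - 1)`, then all `s` by induction). For `s = 1`:
  `∑_{n ≤ X} f(n+1)/n - ∑_{n ≤ X} f(n)/n = ∑_{m=2}^{X+1} f(m)/(m-1) - ∑_{m ≤ X} f(m)/m`, the norm is at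
  most `C (∑_{m=2}^{X} (1/(m-1) - 1/m) + 1/X + 1) ≤ 3 C`; divide by `S X → ∞`.
* `elog_dil`: `∑_{n ≤ X, q ∣ n} q f(n)/n = ∑_{m ≤ X/q} f(q m)/m` and
  `∑_{X/q < m ≤ X} 1/m ≤ ` (at most `X` terms, each at most `1/(X/q)`, so at most `q (1 + ...)`): any
  bound depending only on `q` is enough, e.g. `∑_{X/q < m ≤ X} 1/m ≤ X * (1/(⌊X/q⌋ + 1)) ≤ q`.
-/

set_option autoImplicit false

namespace Pool.Agent.Work.MP_58cfe3_nt

open Filter Topology

/-- the denominator -/
private noncomputable def SS (X : ℕ) : ℝ := ∑ n ∈ Finset.Icc 1 X, (1 / n : ℝ)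

private noncomputable def NN (f : ℤ → ℂ) (X : ℕ) : ℂ := ∑ n ∈ Finset.Icc 1 X, f n / n

private theorem elog_eq (f : ℤ → ℂ) (X : ℕ) : Elog f X = NN f X / (SS X : ℂ) := by
  rw [Elog, NN, SS]
  push_cast
  rfl

private theorem SS_nonneg (X : ℕ) : 0 ≤ SS X := Finset.sum_nonneg fun n _ => by positivity

private theorem SS_pos {X : ℕ} (hX : 1 ≤ X) : 0 < SS X := by
  refine Finset.sum_pos (fun n hn => ?_) ⟨1, Finset.mem_Icc.2 ⟨le_rfl, hX⟩⟩
  have h1 := (Finset.mem_Icc.1 hn).1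
  have h2 : (0 : ℝ) < n := by exact_mod_cast h1
  positivity

private theorem SS_tendsto : Tendsto SS atTop atTop := by
  have h1 := Real.tendsto_sum_range_one_div_nat_succ_atTop
  refine h1.congr fun X => ?_
  rw [SS]
  induction X with
  | zero => simp
  | succ X ih =>
    rw [Finset.sum_range_succ, ih, Finset.sum_Icc_succ_top (by omega)]
    push_cast
    rfl

private theorem NN_le {f : ℤ → ℂ} {C : ℝ} (h : ∀ n, ‖f n‖ ≤ C) (X : ℕ) : ‖NN f X‖ ≤ C * SS X := by
  rw [NN, SS, Finset.mul_sum]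
  refine (norm_sum_le _ _).trans (Finset.sum_le_sum fun n _ => ?_)
  rw [norm_div, Complex.norm_natCast, mul_one_div]
  exact div_le_div_of_nonneg_right (h _) (Nat.cast_nonneg n)

private theorem tend_of_le {F G : ℤ → ℂ} {K : ℝ} (h : ∀ X : ℕ, ‖NN F X - NN G X‖ ≤ K) :
    Tendsto (fun X : ℕ => Elog F X - Elog G X) atTop (𝓝 0) := by
  refine squeeze_zero_norm (a := fun X => K / SS X) (fun X => ?_) ?_
  · rw [elog_eq, elog_eq, ← sub_div, norm_div, Complex.norm_real, Real.norm_eq_abs,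
      abs_of_nonneg (SS_nonneg X)]
    exact div_le_div_of_nonneg_right (h X) (SS_nonneg X)
  · exact SS_tendsto.const_div_atTop K

theorem elog_le {f : ℤ → ℂ} {C : ℝ} (h : ∀ n, ‖f n‖ ≤ C) (X : ℕ) : ‖Elog f X‖ ≤ C := by
  have hC : 0 ≤ C := (norm_nonneg _).trans (h 0)
  rw [elog_eq, norm_div, Complex.norm_real, Real.norm_eq_abs, abs_of_nonneg (SS_nonneg X)]
  exact div_le_of_le_mul₀ (SS_nonneg X) hC (NN_le h X)

theorem elog_add (f g : ℤ → ℂ) (X : ℕ) :
    Elog (fun n => f n + g n) X = Elog f X + Elog g X := by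
  rw [elog_eq, elog_eq, elog_eq, ← add_div, NN, NN, NN, ← Finset.sum_add_distrib]
  congr 1
  exact Finset.sum_congr rfl fun n _ => add_div _ _ _

theorem elog_smul (c : ℂ) (f : ℤ → ℂ) (X : ℕ) : Elog (fun n => c * f n) X = c * Elog f X := by
  rw [elog_eq, elog_eq, ← mul_div_assoc, NN, NN, Finset.mul_sum]
  congr 1
  exact Finset.sum_congr rfl fun n _ => mul_div_assoc _ _ _

theorem elog_one {X : ℕ} (hX : 1 ≤ X) : Elog (fun _ => 1) X = 1 := by
  have h1 : NN (fun _ => 1) X = (SS X : ℂ) := by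
    rw [NN, SS]
    push_cast
    rfl
  rw [elog_eq, h1]
  refine div_self ?_
  exact_mod_cast (SS_pos hX).ne'

private theorem shift_one_le {f : ℤ → ℂ} {C : ℝ} (h : ∀ n, ‖f n‖ ≤ C) (X : ℕ) :
    ‖NN (fun n => f (n + 1)) X - NN f X‖ ≤ 3 * C := by
  have hC : 0 ≤ C := (norm_nonneg _).trans (h 0)
  -- first part
  have h1 : ∀ X : ℕ, ‖∑ n ∈ Finset.Icc 1 X, (f (n + 1) / n - f (n + 1) / (n + 1 : ℕ))‖ ≤
      C * (1 - 1 / ((X : ℝ) + 1)) := by
    intro X
    induction X with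
    | zero => simp
    | succ X ih =>
      rw [Finset.sum_Icc_succ_top (by omega)]
      refine (norm_add_le _ _).trans ?_
      have h2 : ‖f (((X + 1 : ℕ) : ℤ) + 1) / ((X + 1 : ℕ) : ℂ) -
          f (((X + 1 : ℕ) : ℤ) + 1) / ((X + 1 + 1 : ℕ) : ℂ)‖ ≤
          C * (1 / ((X : ℝ) + 1) - 1 / ((X : ℝ) + 1 + 1)) := by
        have h3 : f (((X + 1 : ℕ) : ℤ) + 1) / ((X + 1 : ℕ) : ℂ) -
            f (((X + 1 : ℕ) : ℤ) + 1) / ((X + 1 + 1 : ℕ) : ℂ) =
            f (((X + 1 : ℕ) : ℤ) + 1) *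
              ((1 / ((X : ℝ) + 1) - 1 / ((X : ℝ) + 1 + 1) : ℝ) : ℂ) := by
          push_cast
          ring
        rw [h3, norm_mul, Complex.norm_real, Real.norm_eq_abs, abs_of_nonneg]
        · exact mul_le_mul_of_nonneg_right (h _) (by
            rw [sub_nonneg]
            exact one_div_le_one_div_of_le (by positivity) (by linarith))
        · rw [sub_nonneg]
          exact one_div_le_one_div_of_le (by positivity) (by linarith)
      calc _ ≤ C * (1 - 1 / ((X : ℝ) + 1)) + C * (1 / ((X : ℝ) + 1) - 1 / ((X : ℝ) + 1 + 1)) :=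
            add_le_add ih h2
        _ = C * (1 - 1 / (((X + 1 : ℕ) : ℝ) + 1)) := by
            push_cast
            ring
  -- second part, telescoping
  have h2 : ∀ X : ℕ, ∑ n ∈ Finset.Icc 1 X, (f (n + 1) / (n + 1 : ℕ) - f n / n) =
      f (X + 1) / (X + 1 : ℕ) - f 1 / 1 := by
    intro X
    induction X with
    | zero => simp
    | succ X ih =>
      rw [Finset.sum_Icc_succ_top (by omega), ih]
      push_cast
      ring
  have h3 : NN (fun n => f (n + 1)) X - NN f X =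
      ∑ n ∈ Finset.Icc 1 X, (f (n + 1) / n - f (n + 1) / (n + 1 : ℕ)) +
        (f (X + 1) / (X + 1 : ℕ) - f 1 / 1) := by
    rw [← h2, NN, NN, ← Finset.sum_sub_distrib, ← Finset.sum_add_distrib]
    exact Finset.sum_congr rfl fun n _ => by ring
  rw [h3]
  have h4 : C * (1 - 1 / ((X : ℝ) + 1)) ≤ C := by
    have : 0 ≤ C * (1 / ((X : ℝ) + 1)) := by positivity
    linarith
  have h5 : ‖f (X + 1) / ((X + 1 : ℕ) : ℂ)‖ ≤ C := by
    rw [norm_div, Complex.norm_natCast]
    refine (div_le_div_of_nonneg_right (h _) (Nat.cast_nonneg _)).trans ?_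
    refine div_le_self hC ?_
    push_cast
    linarith [Nat.cast_nonneg (α := ℝ) X]
  have h6 : ‖f 1 / (1 : ℂ)‖ ≤ C := by
    rw [div_one]
    exact h 1
  calc _ ≤ _ := norm_add_le _ _
    _ ≤ C + (C + C) := add_le_add ((h1 X).trans h4) ((norm_sub_le _ _).trans (add_le_add h5 h6))
    _ = 3 * C := by ring

private theorem elog_shift_one {f : ℤ → ℂ} (hf : Bdd f) :
    Tendsto (fun X : ℕ => Elog (fun n => f (n + 1)) X - Elog f X) atTop (𝓝 0) := by
  obtain ⟨C, hC⟩ := hf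
  exact tend_of_le fun X => shift_one_le hC X

theorem elog_shift {f : ℤ → ℂ} (hf : Bdd f) (s : ℤ) :
    Tendsto (fun X : ℕ => Elog (fun n => f (n + s)) X - Elog f X) atTop (𝓝 0) := by
  induction s using Int.induction_on with
  | zero => simp
  | succ s ih =>
    have h1 := elog_shift_one (f := fun n => f (n + s)) (hf.shift _)
    have h2 := h1.add ih
    rw [add_zero] at h2
    refine h2.congr fun X => ?_
    rw [sub_add_sub_cancel]
    congr 2
    funext n
    congr 1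
    ring
  | pred s ih =>
    have h1 := elog_shift_one (f := fun n => f (n + (-(s : ℤ) - 1))) (hf.shift _)
    have h2 := ih.sub h1
    rw [sub_zero] at h2
    refine h2.congr fun X => ?_
    have h3 : (fun n : ℤ => f (n + 1 + (-(s : ℤ) - 1))) = fun n => f (n + -(s : ℤ)) := by
      funext n
      congr 1
      ring
    rw [h3]
    ring

theorem elog_dil {f : ℤ → ℂ} (hf : Bdd f) {q : ℕ} (hq : 0 < q) :
    Tendsto (fun X : ℕ => Elog (fun n => if (q : ℤ) ∣ n then (q : ℂ) * f n else 0) X -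
      Elog (fun n => f (q * n)) X) atTop (𝓝 0) := by
  obtain ⟨C, hC⟩ := hf
  have hC0 : 0 ≤ C := (norm_nonneg _).trans (hC 0)
  have hqC : (q : ℂ) ≠ 0 := by exact_mod_cast hq.ne'
  refine tend_of_le (K := C * q) fun X => ?_
  have h1 : NN (fun n => if (q : ℤ) ∣ n then (q : ℂ) * f n else 0) X =
      ∑ m ∈ Finset.Icc 1 (X / q), f (q * m) / m := by
    rw [NN]
    have h2 : ∀ n ∈ Finset.Icc 1 X, (if (q : ℤ) ∣ (n : ℤ) then (q : ℂ) * f n else 0) / (n : ℂ) =
        if q ∣ n then (q : ℂ) * f n / n else 0 := by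
      intro n _
      by_cases h : q ∣ n
      · rw [if_pos (Int.natCast_dvd_natCast.2 h), if_pos h]
      · rw [if_neg (fun h' => h (Int.natCast_dvd_natCast.1 h')), if_neg h, zero_div]
    rw [Finset.sum_congr rfl h2, ← Finset.sum_filter]
    symm
    refine Finset.sum_bij (fun m _ => q * m) ?_ ?_ ?_ ?_
    · intro m hm
      obtain ⟨h3, h4⟩ := Finset.mem_Icc.1 hm
      refine Finset.mem_filter.2 ⟨Finset.mem_Icc.2 ⟨Nat.mul_pos hq h3, ?_⟩, dvd_mul_right q m⟩
      calc q * m ≤ q * (X / q) := Nat.mul_le_mul_left q h4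
        _ ≤ X := Nat.mul_div_le X q
    · intro a _ b _ hab
      exact Nat.eq_of_mul_eq_mul_left hq hab
    · intro n hn
      obtain ⟨h3, m, rfl⟩ := Finset.mem_filter.1 hn
      obtain ⟨h4, h5⟩ := Finset.mem_Icc.1 h3
      refine ⟨m, Finset.mem_Icc.2 ⟨?_, ?_⟩, rfl⟩
      · exact Nat.pos_of_ne_zero fun h6 => by subst h6; simp at h4
      · exact (Nat.le_div_iff_mul_le hq).2 (by rwa [mul_comm])
    · intro m hm
      have h3 : (m : ℂ) ≠ 0 := by
        have := (Finset.mem_Icc.1 hm).1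
        exact_mod_cast (by omega : m ≠ 0)
      push_cast
      rw [mul_div_mul_left _ _ hqC]
  have h2 : Finset.Icc 1 (X / q) ⊆ Finset.Icc 1 X :=
    Finset.Icc_subset_Icc le_rfl (Nat.div_le_self X q)
  have h3 : NN (fun n => f (q * n)) X = ∑ m ∈ Finset.Icc 1 X \ Finset.Icc 1 (X / q), f (q * m) / m +
      ∑ m ∈ Finset.Icc 1 (X / q), f (q * m) / m := (Finset.sum_sdiff h2).symm
  rw [h1, h3, sub_add_cancel_right, norm_neg]
  refine (norm_sum_le _ _).trans ?_
  have h4 : ∀ m ∈ Finset.Icc 1 X \ Finset.Icc 1 (X / q), ‖f (q * m) / (m : ℂ)‖ ≤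
      C / ((X / q : ℕ) + 1 : ℝ) := by
    intro m hm
    rw [Finset.mem_sdiff, Finset.mem_Icc, Finset.mem_Icc] at hm
    have h5 : X / q + 1 ≤ m := by omega
    have h6 : ((X / q : ℕ) + 1 : ℝ) ≤ m := by exact_mod_cast h5
    rw [norm_div, Complex.norm_natCast]
    exact div_le_div₀ hC0 (hC _) (by positivity) h6
  refine (Finset.sum_le_card_nsmul _ _ _ h4).trans ?_
  rw [nsmul_eq_mul]
  have h5 : ((Finset.Icc 1 X \ Finset.Icc 1 (X / q)).card : ℝ) ≤ X := by
    have h6 := Finset.card_le_card (Finset.sdiff_subset (s := Finset.Icc 1 X)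
      (t := Finset.Icc 1 (X / q)))
    rw [Nat.card_Icc, Nat.add_sub_cancel] at h6
    exact_mod_cast h6
  have h6 : (X : ℝ) ≤ q * ((X / q : ℕ) + 1 : ℝ) := by
    have h7 : X < q * (X / q + 1) := Nat.lt_mul_div_succ X hq
    exact_mod_cast h7.le
  have h7 : (0 : ℝ) < ((X / q : ℕ) + 1 : ℝ) := by positivity
  calc ((Finset.Icc 1 X \ Finset.Icc 1 (X / q)).card : ℝ) * (C / ((X / q : ℕ) + 1 : ℝ))
      ≤ (q * ((X / q : ℕ) + 1 : ℝ)) * (C / ((X / q : ℕ) + 1 : ℝ)) :=
        mul_le_mul_of_nonneg_right (h5.trans h6) (by positivity)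
    _ = C * q := by field_simp

end Pool.Agent.Work.MP_58cfe3_nt
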