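import Pool.Agent.Work.MP_58cfe3_nt.Dist

/-!
# Module Ent (size M): Shannon entropy of finite valued functions

PROOFS (all from `log x ≤ x - 1`, i.e. `Real.log_le_sub_one_of_pos`).
* `ent_nonneg`: `Real.negMulLog_nonneg`. `ent_le_log_card`: Gibbs with the uniform distribution.
* `ent_comp_le`: with `p_a = pr X a` and `P_b = ∑_{φ a = b} p_a`: `∑_a p_a log (P_{φ a} / p_a) ≥ 0` since
  `p_a ≤ P_{φ a}`.
* `ent_inj`: `ent_comp_le` twice (a left inverse of `φ`; `α` is nonempty because `X 0 : α`).
* `ent_submod`: `H(X,Y,Z) + H(Z) ≤ H(X,Z) + H(Y,Z)`. With `p_{abc}`, marginals `p_{ac}, p_{bc}, p_c`: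
  RHS - LHS `= - ∑ p_{abc} log (p_{ac} p_{bc} / (p_{abc} p_c)) ≥ - ∑_{p_{abc} > 0}
  (p_{ac} p_{bc} / p_c - p_{abc}) ≥ 0`, because `∑_{a,b,c} p_{ac} p_{bc} / p_c = ∑_c p_c = 1` (terms with
  `p_c = 0` are `0`). The entropies of the marginals are written as sums over `(a, b, c)` with `pr_fst`,
  `pr_snd`, `pr_comp`.
* `minf_nonneg`: `ent_submod` with a trivial third variable (or directly).
-/

set_option autoImplicit false

namespace Pool.Agent.Work.MP_58cfe3_nt

open Filter Topology

private theorem ent_eq {M : (ℤ → ℂ) → ℂ} {α : Type} [Fintype α] (X : ℤ → α) :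
    ent M X = ∑ a, pr M X a * (-Real.log (pr M X a)) := by
  unfold ent
  refine Finset.sum_congr rfl fun a _ => ?_
  simp [Real.negMulLog]

private theorem ent_comp_eq {M : (ℤ → ℂ) → ℂ} (hM : IsMean M) {α β : Type} [Fintype α]
    [Fintype β] (X : ℤ → α) (φ : α → β) :
    ent M (fun n => φ (X n)) =
      ∑ a, pr M X a * (-Real.log (pr M (fun n => φ (X n)) (φ a))) := by
  rw [ent_eq, ← mr_comp hM X (fun a => -Real.log (pr M (fun n => φ (X n)) (φ a))),
    ← mr_comp hM (fun n => φ (X n)) (fun b => -Real.log (pr M (fun n => φ (X n)) b))]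

private theorem pr_le_comp {M : (ℤ → ℂ) → ℂ} (hM : IsMean M) {α β : Type} [Fintype α]
    (X : ℤ → α) (φ : α → β) (a : α) :
    pr M X a ≤ pr M (fun n => φ (X n)) (φ a) := by
  classical
  rw [pr_comp hM X φ (φ a)]
  have h : (if φ a = φ a then pr M X a else 0) = pr M X a := if_pos rfl
  calc pr M X a = (if φ a = φ a then pr M X a else 0) := h.symm
    _ ≤ ∑ x, if φ x = φ a then pr M X x else 0 := by
      refine Finset.single_le_sum (f := fun x => if φ x = φ a then pr M X x else 0)
        (fun x _ => ?_) (Finset.mem_univ a)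
      show 0 ≤ if φ x = φ a then pr M X x else 0
      split_ifs
      · exact pr_nonneg hM X x
      · exact le_rfl

theorem ent_nonneg {M : (ℤ → ℂ) → ℂ} (hM : IsMean M) {α : Type} [Fintype α] (X : ℤ → α) :
    0 ≤ ent M X :=
  Finset.sum_nonneg fun a _ => Real.negMulLog_nonneg (pr_nonneg hM X a) (pr_le_one hM X a)

theorem ent_le_log_card {M : (ℤ → ℂ) → ℂ} (hM : IsMean M) {α : Type} [Fintype α] (X : ℤ → α) :
    ent M X ≤ Real.log (Fintype.card α) := by
  haveI : Nonempty α := ⟨X 0⟩
  have hN : (0 : ℝ) < Fintype.card α := by exact_mod_cast Fintype.card_pos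
  have key : ∀ a : α, pr M X a * (-Real.log (pr M X a)) - pr M X a * Real.log (Fintype.card α) ≤
      1 / (Fintype.card α : ℝ) - pr M X a := by
    intro a
    rcases (pr_nonneg hM X a).eq_or_lt with h0 | hpos
    · rw [← h0]; simp
    · have h1 := Real.log_le_sub_one_of_pos
        (show 0 < 1 / ((Fintype.card α : ℝ) * pr M X a) by positivity)
      have h2 : Real.log (1 / ((Fintype.card α : ℝ) * pr M X a)) =
          -Real.log (pr M X a) - Real.log (Fintype.card α) := by
        rw [one_div, Real.log_inv, Real.log_mul hN.ne' hpos.ne']; ring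
      rw [h2] at h1
      have h3 := mul_le_mul_of_nonneg_left h1 hpos.le
      have h4 : pr M X a * (1 / ((Fintype.card α : ℝ) * pr M X a) - 1) =
          1 / (Fintype.card α : ℝ) - pr M X a := by
        field_simp
      rw [h4] at h3
      linarith [h3, mul_sub (pr M X a) (-Real.log (pr M X a)) (Real.log (Fintype.card α))]
  have hs := Finset.sum_le_sum (s := Finset.univ) fun a _ => key a
  rw [Finset.sum_sub_distrib, Finset.sum_sub_distrib, ← Finset.sum_mul, pr_sum hM X, ← ent_eq,
    Finset.sum_const, Finset.card_univ, nsmul_eq_mul, mul_one_div_cancel hN.ne'] at hs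
  linarith

theorem ent_comp_le {M : (ℤ → ℂ) → ℂ} (hM : IsMean M) {α β : Type} [Fintype α] [Fintype β]
    (X : ℤ → α) (φ : α → β) : ent M (fun n => φ (X n)) ≤ ent M X := by
  rw [ent_comp_eq hM, ent_eq]
  refine Finset.sum_le_sum fun a _ => ?_
  rcases (pr_nonneg hM X a).eq_or_lt with h0 | hpos
  · rw [← h0]; simp
  · refine mul_le_mul_of_nonneg_left ?_ hpos.le
    exact neg_le_neg (Real.log_le_log hpos (pr_le_comp hM X φ a))

theorem ent_inj {M : (ℤ → ℂ) → ℂ} (hM : IsMean M) {α β : Type} [Fintype α] [Fintype β]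
    (X : ℤ → α) {φ : α → β} (hφ : Function.Injective φ) : ent M (fun n => φ (X n)) = ent M X := by
  haveI : Nonempty α := ⟨X 0⟩
  refine le_antisymm (ent_comp_le hM X φ) ?_
  have h := ent_comp_le hM (fun n => φ (X n)) (Function.invFun φ)
  have h2 : (fun n => Function.invFun φ (φ (X n))) = X := by
    funext n
    exact Function.leftInverse_invFun hφ (X n)
  rwa [h2] at h

theorem ent_shift {M : (ℤ → ℂ) → ℂ} (hM : IsMean M) {α : Type} [Fintype α] (X : ℤ → α) (s : ℤ) :
    ent M (fun n => X (n + s)) = ent M X := by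
  unfold ent
  refine Finset.sum_congr rfl fun a _ => ?_
  rw [pr_shift hM X s a]

theorem ent_submod {M : (ℤ → ℂ) → ℂ} (hM : IsMean M) {α β γ : Type} [Fintype α] [Fintype β]
    [Fintype γ] (X : ℤ → α) (Y : ℤ → β) (Z : ℤ → γ) :
    ent M (fun n => ((X n, Y n), Z n)) + ent M Z ≤
      ent M (fun n => (X n, Z n)) + ent M (fun n => (Y n, Z n)) := by
  set W : ℤ → (α × β) × γ := fun n => ((X n, Y n), Z n) with hW
  have e1 : ent M Z = ∑ t, pr M W t * (-Real.log (pr M Z t.2)) :=
    ent_comp_eq hM W (fun t => t.2)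
  have e2 : ent M (fun n => (X n, Z n)) =
      ∑ t, pr M W t * (-Real.log (pr M (fun n => (X n, Z n)) (t.1.1, t.2))) :=
    ent_comp_eq hM W (fun t => (t.1.1, t.2))
  have e3 : ent M (fun n => (Y n, Z n)) =
      ∑ t, pr M W t * (-Real.log (pr M (fun n => (Y n, Z n)) (t.1.2, t.2))) :=
    ent_comp_eq hM W (fun t => (t.1.2, t.2))
  have key : ∀ t : (α × β) × γ, pr M W t * (-Real.log (pr M W t)) +
      pr M W t * (-Real.log (pr M Z t.2)) -
      pr M W t * (-Real.log (pr M (fun n => (X n, Z n)) (t.1.1, t.2))) -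
      pr M W t * (-Real.log (pr M (fun n => (Y n, Z n)) (t.1.2, t.2))) ≤
      pr M (fun n => (X n, Z n)) (t.1.1, t.2) * pr M (fun n => (Y n, Z n)) (t.1.2, t.2) /
        pr M Z t.2 - pr M W t := by
    intro t
    have n1 := pr_nonneg hM W t
    have n2 := pr_nonneg hM (fun n => (X n, Z n)) (t.1.1, t.2)
    have n3 := pr_nonneg hM (fun n => (Y n, Z n)) (t.1.2, t.2)
    have n4 := pr_nonneg hM Z t.2
    rcases n1.eq_or_lt with h0 | hpos
    · rw [← h0]
      have := div_nonneg (mul_nonneg n2 n3) n4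
      simpa using this
    · have p2 : 0 < pr M (fun n => (X n, Z n)) (t.1.1, t.2) :=
        lt_of_lt_of_le hpos (pr_le_comp hM W (fun t => (t.1.1, t.2)) t)
      have p3 : 0 < pr M (fun n => (Y n, Z n)) (t.1.2, t.2) :=
        lt_of_lt_of_le hpos (pr_le_comp hM W (fun t => (t.1.2, t.2)) t)
      have p4 : 0 < pr M Z t.2 :=
        lt_of_lt_of_le hpos (pr_le_comp hM W (fun t => t.2) t)
      set w := pr M W t
      set x := pr M (fun n => (X n, Z n)) (t.1.1, t.2)
      set y := pr M (fun n => (Y n, Z n)) (t.1.2, t.2)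
      set z := pr M Z t.2
      have h1 := Real.log_le_sub_one_of_pos (show 0 < (x * y) / (w * z) by positivity)
      have h2 : Real.log ((x * y) / (w * z)) =
          Real.log x + Real.log y - Real.log w - Real.log z := by
        rw [Real.log_div (mul_pos p2 p3).ne' (mul_pos hpos p4).ne', Real.log_mul p2.ne' p3.ne',
          Real.log_mul hpos.ne' p4.ne']
        ring
      rw [h2] at h1
      have h3 := mul_le_mul_of_nonneg_left h1 hpos.le
      have h4 : w * (x * y / (w * z) - 1) = x * y / z - w := by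
        field_simp
      rw [h4] at h3
      calc _ = w * (Real.log x + Real.log y - Real.log w - Real.log z) := by ring
        _ ≤ _ := h3
  have hs := Finset.sum_le_sum (s := Finset.univ) fun t _ => key t
  rw [Finset.sum_sub_distrib, Finset.sum_sub_distrib, Finset.sum_sub_distrib,
    Finset.sum_add_distrib, ← ent_eq, ← e1, ← e2, ← e3, pr_sum hM W] at hs
  have tot : ∑ t : (α × β) × γ, pr M (fun n => (X n, Z n)) (t.1.1, t.2) *
      pr M (fun n => (Y n, Z n)) (t.1.2, t.2) / pr M Z t.2 = 1 := by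
    rw [Fintype.sum_prod_type_right]
    have : ∀ c : γ, ∑ s : α × β, pr M (fun n => (X n, Z n)) (s.1, c) *
        pr M (fun n => (Y n, Z n)) (s.2, c) / pr M Z c = pr M Z c := by
      intro c
      rw [Fintype.sum_prod_type]
      have h5 : ∀ a : α, ∑ b : β, pr M (fun n => (X n, Z n)) (a, c) *
          pr M (fun n => (Y n, Z n)) (b, c) / pr M Z c =
          pr M (fun n => (X n, Z n)) (a, c) * (pr M Z c / pr M Z c) := by
        intro a
        rw [← Finset.sum_div, ← Finset.mul_sum, pr_snd hM Y Z c]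
        ring
      simp only [h5]
      rw [← Finset.sum_mul, pr_snd hM X Z c]
      by_cases h0 : pr M Z c = 0
      · rw [h0]; simp
      · rw [div_self h0, mul_one]
    simp only [this]
    exact pr_sum hM Z
  rw [tot] at hs
  linarith

theorem minf_nonneg {M : (ℤ → ℂ) → ℂ} (hM : IsMean M) {α β : Type} [Fintype α] [Fintype β]
    (X : ℤ → α) (Y : ℤ → β) : 0 ≤ minf M X Y := by
  have h := ent_submod hM X Y (fun _ => ())
  have e0 := ent_nonneg hM (fun _ : ℤ => ())
  have e1 : ent M (fun n => (X n, ())) = ent M X :=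
    ent_inj hM X (φ := fun a => (a, ())) (fun a b hab => (Prod.mk.inj hab).1)
  have e2 : ent M (fun n => (Y n, ())) = ent M Y :=
    ent_inj hM Y (φ := fun a => (a, ())) (fun a b hab => (Prod.mk.inj hab).1)
  have e3 : ent M (fun n => ((X n, Y n), ())) = ent M (fun n => (X n, Y n)) :=
    ent_inj hM (fun n => (X n, Y n)) (φ := fun a => (a, ())) (fun a b hab => (Prod.mk.inj hab).1)
  rw [e1, e2, e3] at h
  unfold minf
  linarith

end Pool.Agent.Work.MP_58cfe3_nt
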