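import Pool.Agent.Work.MP_58cfe3_nt.Crit

/-!
# Module EqQ (size M): equivalence of Q1 with its cube case

PROOF. Only if: `k = 2^r ≥ 4`, identify `Fin k` with `Finset (Fin r)` (`Fintype.equivFinOfCardEq`), functions `g` or its
conjugate (`MulBdd.star`), shifts `vert e` (injective); `cube g e` is the product (reindex with
`Equiv.prod_comp`). Some `j` (the one of the empty set) has the function `g` itself, which satisfies (H).
If: `k ≥ 3`, `j` with (H), `r = k - 1 ≥ 2`; the criterion gives `Universal (g j) r`; companions: the functions
`g (j.succAbove i)`, shifts `h (j.succAbove i) ≠ h j`; `Fin.prod_univ_succAbove`.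
-/

set_option autoImplicit false

namespace Pool.Agent.Work.MP_58cfe3_nt

open Filter Topology

theorem q1_iff : Q1 ↔ ∀ g : ℤ → ℂ, MulBdd g → NonPret g → ∀ r : ℕ, 2 ≤ r → Cubes g r := by
  constructor
  · intro hQ g hg hN r hr e he
    have hcard : 3 ≤ Fintype.card (Finset (Fin r)) := by
      rw [Fintype.card_finset, Fintype.card_fin]
      calc 3 ≤ 2 ^ 2 := by norm_num
        _ ≤ 2 ^ r := Nat.pow_le_pow_right (by norm_num) hr
    let E : Finset (Fin r) ≃ Fin (Fintype.card (Finset (Fin r))) := Fintype.equivFin _
    have h1 := hQ (Fintype.card (Finset (Fin r))) hcard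
      (fun i => if Even (E.symm i).card then g else fun n => star (g n))
      (fun i => by
        show MulBdd (if Even (E.symm i).card then g else fun n => star (g n))
        split_ifs
        · exact hg
        · exact hg.star)
      ⟨E ∅, by
        have : (if Even (E.symm (E ∅)).card then g else fun n => star (g n)) = g := by
          rw [Equiv.symm_apply_apply]
          simp
        show NonPret (if Even (E.symm (E ∅)).card then g else fun n => star (g n))
        rw [this]
        exact hN⟩
      (fun i => vert e (E.symm i)) (he.comp E.symm.injective)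
    have h2 : cube g e = fun n => ∏ i,
        (if Even (E.symm i).card then g else fun n => star (g n)) (n + vert e (E.symm i)) := by
      funext n
      unfold cube
      rw [← Equiv.prod_comp E.symm]
      refine Finset.prod_congr rfl fun i _ => ?_
      split_ifs <;> rfl
    rw [h2]
    exact h1
  · intro H k hk g hg hj h hinj
    obtain ⟨j, hj⟩ := hj
    obtain ⟨r, rfl⟩ : ∃ r, k = r + 1 := ⟨k - 1, by omega⟩
    have h1 := criterion (hg j) (H (g j) (hg j) hj r (by omega))
      (fun i => g (j.succAbove i)) (fun i => hg _) (h j) (fun i => h (j.succAbove i))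
      (fun i hi => Fin.succAbove_ne j i (hinj hi))
    have h2 : (fun n => ∏ i, g i (n + h i)) = fun n => g j (n + h j) *
        ∏ i, g (j.succAbove i) (n + h (j.succAbove i)) := by
      funext n
      exact Fin.prod_univ_succAbove _ j
    rw [h2]
    exact h1

end Pool.Agent.Work.MP_58cfe3_nt
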