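import Pool.Agent.Work.MP_58cfe3_nt.Per

/-!
# Module FDil: functions which are multiplicative with respect to an invariant mean

`MulM M f c`: `f` is bounded by `1`, `f(p n) = c(p) f(n)` for `M`-almost all `n` prime to `p`, and `f`
vanishes `M`-almost everywhere if the series of `(1 - |c(p)|)/p` diverges.
-/

set_option autoImplicit false

namespace Pool.Agent.Work.MP_58cfe3_nt

open Filter Topology

/-- `f` is multiplicative with respect to the mean `M`, with the values `c p` at the primes -/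
structure MulM (M : (ℤ → ℂ) → ℂ) (f : ℤ → ℂ) (c : ℕ → ℂ) : Prop where
  bdd : ∀ n : ℤ, ‖f n‖ ≤ 1
  cbd : ∀ p : ℕ, ‖c p‖ ≤ 1
  dil : ∀ p : ℕ, p.Prime → mr M (fun n => if (p : ℤ) ∣ n then 0 else ‖f (p * n) - c p * f n‖) ≤ 0
  triv : (∀ K : ℝ, ∃ S : Finset ℕ, (∀ p ∈ S, p.Prime) ∧ K ≤ ∑ p ∈ S, (1 - ‖c p‖) / p) →
    mr M (fun n => ‖f n‖) ≤ 0

theorem MulM.bounded {M : (ℤ → ℂ) → ℂ} {f : ℤ → ℂ} {c : ℕ → ℂ} (h : MulM M f c) : Bdd f :=
  ⟨1, h.bdd⟩

private theorem prod_lip {ι : Type*} (s : Finset ι) (x y : ι → ℂ) (hx : ∀ i, ‖x i‖ ≤ 1)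
    (hy : ∀ i, ‖y i‖ ≤ 1) : ‖∏ i ∈ s, x i - ∏ i ∈ s, y i‖ ≤ ∑ i ∈ s, ‖x i - y i‖ := by
  classical
  induction s using Finset.induction_on with
  | empty => simp
  | insert a s ha ih =>
    rw [Finset.prod_insert ha, Finset.prod_insert ha, Finset.sum_insert ha]
    have e : x a * ∏ i ∈ s, x i - y a * ∏ i ∈ s, y i =
        (x a - y a) * ∏ i ∈ s, x i + y a * (∏ i ∈ s, x i - ∏ i ∈ s, y i) := by ring
    rw [e]
    refine (norm_add_le _ _).trans (add_le_add ?_ ?_)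
    · rw [norm_mul]
      exact mul_le_of_le_one_right (norm_nonneg _) (norm_prod_le_one _ _ fun i _ => hx i)
    · rw [norm_mul]
      exact (mul_le_of_le_one_left (norm_nonneg _) (hy a)).trans ih

theorem dil_mulM {M : (ℤ → ℂ) → ℂ} (hM : IsMean M) {k : ℕ} (f : Fin k → ℤ → ℂ)
    (c : Fin k → ℕ → ℂ) (hf : ∀ i, MulM M (f i) (c i)) (h : Fin k → ℕ) {p : ℕ} (hp : p.Prime) :
    ‖M (fun n => if (p : ℤ) ∣ n then (p : ℂ) * ∏ j, f j (n + p * h j) else 0) -
      (∏ j, c j p) * M (fun n => ∏ j, f j (n + h j))‖ ≤ 2 * k / p := by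
  have hB1 : Bdd fun n : ℤ => ∏ j, f j (n + p * h j) :=
    Bdd.prod _ fun j _ => (hf j).bounded.shift fun n => n + p * h j
  have hB2 : Bdd fun n : ℤ => ∏ j, f j (p * n + p * h j) :=
    Bdd.prod _ fun j _ => (hf j).bounded.shift fun n => p * n + p * h j
  have hB3 : Bdd fun n : ℤ => ∏ j, f j (n + h j) :=
    Bdd.prod _ fun j _ => (hf j).bounded.shift fun n => n + h j
  rw [hM.dil (fun n => ∏ j, f j (n + p * h j)) hB1 p hp.pos, ← hM.smul _ _ hB3,
    ← mean_sub hM hB2 (hB3.smul _)]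
  obtain ⟨er, her⟩ : ∃ er : Fin k → ℤ → ℝ,
      er = fun j n => if (p : ℤ) ∣ n then 0 else ‖f j (p * n) - c j p * f j n‖ := ⟨_, rfl⟩
  have her0 : ∀ j n, 0 ≤ er j n := by
    intro j n
    rw [her]
    dsimp only
    split_ifs
    · exact le_rfl
    · exact norm_nonneg _
  have hcf : ∀ j n, ‖c j p * f j n‖ ≤ 1 := fun j n => by
    rw [norm_mul]
    exact mul_le_one₀ ((hf j).cbd p) (norm_nonneg _) ((hf j).bdd n)
  have her2 : ∀ j n, er j n ≤ 2 := by
    intro j n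
    rw [her]
    dsimp only
    split_ifs
    · norm_num
    · refine (norm_sub_le _ _).trans ?_
      have h1 := (hf j).bdd (p * n)
      have h2 := hcf j n
      linarith
  have hone : ∀ n : ℤ, ‖∏ j, f j (p * n + p * h j) - (∏ j, c j p) * ∏ j, f j (n + h j)‖ ≤ 2 := by
    intro n
    have h1 : ‖∏ j, f j (p * n + p * h j)‖ ≤ 1 := norm_prod_le_one _ _ fun j _ => (hf j).bdd _
    have h2 : ‖∏ j, c j p‖ ≤ 1 := norm_prod_le_one _ _ fun j _ => (hf j).cbd _
    have h3 : ‖∏ j, f j (n + h j)‖ ≤ 1 := norm_prod_le_one _ _ fun j _ => (hf j).bdd _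
    calc ‖∏ j, f j (p * n + p * h j) - (∏ j, c j p) * ∏ j, f j (n + h j)‖
        ≤ ‖∏ j, f j (p * n + p * h j)‖ + ‖(∏ j, c j p) * ∏ j, f j (n + h j)‖ := norm_sub_le _ _
      _ ≤ 1 + 1 * 1 := by
          rw [norm_mul]
          exact add_le_add h1 (mul_le_mul h2 h3 (norm_nonneg _) zero_le_one)
      _ = 2 := by norm_num
  have hpt : ∀ n : ℤ, ‖∏ j, f j (p * n + p * h j) - (∏ j, c j p) * ∏ j, f j (n + h j)‖ ≤
      ∑ j : Fin k, (2 * (if (p : ℤ) ∣ n + (h j : ℤ) then (1 : ℝ) else 0) + er j (n + h j)) := by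
    intro n
    have hterm : ∀ j : Fin k, 0 ≤ 2 * (if (p : ℤ) ∣ n + (h j : ℤ) then (1 : ℝ) else 0) +
        er j (n + h j) := by
      intro j
      have := her0 j (n + h j)
      split_ifs <;> linarith
    by_cases hex : ∃ j : Fin k, (p : ℤ) ∣ n + (h j : ℤ)
    · obtain ⟨j, hj⟩ := hex
      refine (hone n).trans ?_
      have h1 := Finset.single_le_sum (f := fun j : Fin k =>
          (2 * (if (p : ℤ) ∣ n + (h j : ℤ) then (1 : ℝ) else 0) + er j (n + h j)))
          (fun i _ => hterm i) (Finset.mem_univ j)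
      refine le_trans ?_ h1
      rw [if_pos hj, mul_one]
      have := her0 j (n + h j)
      linarith
    · push Not at hex
      rw [← Finset.prod_mul_distrib]
      refine (prod_lip Finset.univ (fun j => f j (p * n + p * h j))
        (fun j => c j p * f j (n + h j)) (fun j => (hf j).bdd _) (fun j => hcf j _)).trans ?_
      refine Finset.sum_le_sum fun j _ => ?_
      rw [if_neg (hex j), mul_zero, zero_add, her]
      dsimp only
      rw [if_neg (hex j), mul_add]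
  have hind' : ∀ (j : Fin k) (n : ℤ), |(if (p : ℤ) ∣ n + (h j : ℤ) then (1 : ℝ) else 0)| ≤ 1 := by
    intro j n
    split_ifs <;> norm_num
  have hind : ∀ (j : Fin k) (n : ℤ), |2 * (if (p : ℤ) ∣ n + (h j : ℤ) then (1 : ℝ) else 0)| ≤ 2 := by
    intro j n
    split_ifs <;> norm_num
  have herb : ∀ (j : Fin k) (n : ℤ), |er j n| ≤ 2 := fun j n => by
    rw [abs_of_nonneg (her0 j n)]
    exact her2 j n
  have hsb : ∀ (j : Fin k) (n : ℤ), |2 * (if (p : ℤ) ∣ n + (h j : ℤ) then (1 : ℝ) else 0) +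
      er j (n + h j)| ≤ 4 := fun j n => by
    refine (abs_add_le _ _).trans ?_
    have h1 := hind j n
    have h2 := herb j (n + h j)
    linarith
  refine (norm_mean_le hM (hB2.sub (hB3.smul _))).trans ?_
  refine (mr_mono hM (C := 2) (D := ∑ _j : Fin k, 4) (fun n => ?_) (fun n => ?_) hpt).trans ?_
  · rw [abs_of_nonneg (norm_nonneg _)]
    exact hone n
  · exact (Finset.abs_sum_le_sum_abs _ _).trans (Finset.sum_le_sum fun j _ => hsb j n)
  · rw [mr_sum hM Finset.univ (fun j n => 2 * (if (p : ℤ) ∣ n + (h j : ℤ) then (1 : ℝ) else 0) +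
      er j (n + h j)) (C := 4) (fun j _ n => hsb j n)]
    have h1 : ∀ j : Fin k, mr M (fun n => 2 * (if (p : ℤ) ∣ n + (h j : ℤ) then (1 : ℝ) else 0) +
        er j (n + h j)) ≤ 2 * (1 / p) := fun j => by
      rw [mr_add hM (hind j) (fun n => herb j (n + h j)), mr_mul hM 2 (hind' j),
        mr_dvd hM hp.pos (h j), mr_shift hM (herb j) (h j)]
      have h2 := (hf j).dil p hp
      rw [her]
      linarith
    refine (Finset.sum_le_sum fun j _ => h1 j).trans ?_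
    simp only [Finset.sum_const, Finset.card_univ, Fintype.card_fin, nsmul_eq_mul]
    refine le_of_eq ?_
    ring

/-- functions which vanish almost everywhere -/
theorem trivM {M : (ℤ → ℂ) → ℂ} (hM : IsMean M) {g : ℤ → ℂ} {c : ℕ → ℂ} (hg : MulM M g c)
    (hd : ∀ K : ℝ, ∃ S : Finset ℕ, (∀ p ∈ S, p.Prime) ∧ K ≤ ∑ p ∈ S, (1 - ‖c p‖) / p)
    (h : ℤ) {F : ℤ → ℂ} (hF : Bdd F) : M (fun n => g (n + h) * F n) = 0 := by
  obtain ⟨C, hC⟩ := hF
  have hC0 : 0 ≤ C := (norm_nonneg _).trans (hC 0)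
  have hb : Bdd (fun n => g (n + h) * F n) := (hg.bounded.shift _).mul ⟨C, hC⟩
  have h1 := norm_mean_le hM hb
  have hb1 : ∀ n, |‖g (n + h) * F n‖| ≤ 1 * C := fun n => by
    rw [abs_norm, norm_mul]
    exact mul_le_mul (hg.bdd _) (hC n) (norm_nonneg _) zero_le_one
  have hb0 : ∀ n, |‖g n‖| ≤ 1 := fun n => by
    rw [abs_norm]; exact hg.bdd n
  have hb0' : ∀ n, |‖g (n + h)‖| ≤ 1 := fun n => hb0 _
  have hb2 : ∀ n, |C * ‖g (n + h)‖| ≤ C * 1 := fun n => by
    rw [abs_mul, abs_of_nonneg hC0]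
    exact mul_le_mul_of_nonneg_left (hb0' n) hC0
  have h2 := mr_mono hM hb1 hb2 (fun n => by
    rw [norm_mul, mul_comm]
    exact mul_le_mul_of_nonneg_right (hC n) (norm_nonneg _))
  rw [mr_mul hM C hb0', mr_shift hM hb0 h] at h2
  have h3 := hg.triv hd
  have h4 : C * mr M (fun n => ‖g n‖) ≤ 0 := mul_nonpos_of_nonneg_of_nonpos hC0 h3
  have h5 : ‖M fun n => g (n + h) * F n‖ ≤ 0 := h1.trans (h2.trans h4)
  exact norm_le_zero_iff.mp h5

end Pool.Agent.Work.MP_58cfe3_nt
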