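import Pool.Agent.Work.MP_58cfe3_nt.WDefs

/-!
# MP_58cfe3_nt, block L: locally pretentious functions

Definitions: functions which at the scale `X` are near a twisted Dirichlet character
`n ↦ χ_X(n) n^(i t_X)` on the primes in `(X^η, X]`; the character (of bounded modulus) and the real
number `t_X` (at most a fixed power of `X`) may depend on `X`.
-/

set_option autoImplicit false

namespace Pool.Agent.Work.MP_58cfe3_nt

open Filter Topology

/-- At the scale `X` the function `g` is near `χ(n) n^(it)` on the primes in `(X^η, X]` (mass at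
most `δ`), for some Dirichlet character `χ` of modulus at most `Q` and some real `t` with
`|t| ≤ X^A`. -/
def NearScale (g : ℤ → ℂ) (Q A : ℕ) (η δ : ℝ) (X : ℕ) : Prop :=
  ∃ (q : ℕ) (_ : NeZero q) (χ : DirichletCharacter ℂ q) (t : ℝ),
    q ≤ Q ∧ |t| ≤ (X : ℝ) ^ A ∧ mass g χ t η X ≤ δ

/-- The same, and the square of the distance `D(g, n ↦ χ(n) n^(it); X)` over all primes `p ≤ X` is
at least `K`. -/
def NearFar (g : ℤ → ℂ) (Q A : ℕ) (η δ K : ℝ) (X : ℕ) : Prop :=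
  ∃ (q : ℕ) (_ : NeZero q) (χ : DirichletCharacter ℂ q) (t : ℝ),
    q ≤ Q ∧ |t| ≤ (X : ℝ) ^ A ∧ mass g χ t η X ≤ δ ∧ K ≤ dist2 g χ t X

/-- `g` is locally pretentious at almost all scales: for some `Q`, `A` and all `η, δ > 0` the scales
`X` at which `g` is not near a twisted character on the primes in `(X^η, X]` have loglog density
zero. -/
def LocPret (g : ℤ → ℂ) : Prop :=
  ∃ Q A : ℕ, ∀ η δ : ℝ, 0 < η → 0 < δ → LLNull {X | ¬ NearScale g Q A η δ X}

/-- The logarithmic correlations of `g` with `r` ARBITRARY 1-bounded multiplicative companions are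
small over all windows `X/ω < n ≤ X` with `X ∈ S` and `ω ≥ ω₀`; here `ω₀` depends on `g`, the shifts and
on `ε` only, so that the bound is uniform in the companions. -/
def UnifOn (S : Set ℕ) (g : ℤ → ℂ) : Prop :=
  ∀ (r : ℕ) (h : ℤ) (h' : Fin r → ℤ), (∀ i, h' i ≠ h) → ∀ ε : ℝ, 0 < ε →
    ∃ ω₀ : ℝ, 1 < ω₀ ∧ ∀ X ∈ S, ∀ ω : ℝ, ω₀ ≤ ω → ω ≤ X →
      ∀ f : Fin r → ℤ → ℂ, (∀ i, MulBdd (f i)) →
        ‖∑ n ∈ Finset.Ioc ⌊(X : ℝ) / ω⌋₊ X, (g (n + h) * ∏ i, f i (n + h' i)) / n‖ ≤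
          ε * Real.log ω

/-- windowed logarithmic average, over `X^δ < n ≤ X` -/
noncomputable def Wlog (δ : ℝ) (f : ℤ → ℂ) (X : ℕ) : ℂ :=
  (∑ n ∈ Finset.Ioc ⌊(X : ℝ) ^ δ⌋₊ X, f n / n) / ∑ n ∈ Finset.Ioc ⌊(X : ℝ) ^ δ⌋₊ X, (1 / n : ℂ)

end Pool.Agent.Work.MP_58cfe3_nt
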