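import Pool.Agent.Work.MP_58cfe3_nt.SDefs

/-!
# Module SExc (size M): exceptional integers

PROOF. `B ≥ |v i|` for all `i`, `κ = card ι`. `n` is not good iff for some `i`: `n + v i ≤ 0` (at most `B` values of `n`), or
`m = n + v i ∈ [1, x + B]` is divisible by `p^A` for a prime `p ≤ w` (at most `(x + B)/p^A ≤ (x + B)/2^A` values for each of the
at most `w` primes), or by `p²` for a prime `p > w` (at most `(x + B)/p²` values for each `p`, and
`∑_{p > w} 1/p² ≤ 1/w`; only `p ≤ x + B` matter). Total `≤ κ (B + (x + B)(w/2^A + 1/w))`. Take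
`w₀ ≥ 4κ/η + 1`, for `w ≥ w₀` `A` with `κ w/2^A ≤ η/8`, and `x` large.
-/

set_option autoImplicit false

namespace Pool.Agent.Work.MP_58cfe3_nt

open Filter Topology

private theorem exc_tele {w : ℕ} (hw : 1 ≤ w) (N : ℕ) :
    ∑ n ∈ Finset.Ioc w (w + N), 1 / (n : ℝ) ^ 2 ≤ 1 / (w : ℝ) - 1 / ((w : ℝ) + N) := by
  have hw' : (1 : ℝ) ≤ w := by exact_mod_cast hw
  induction N with
  | zero => simp
  | succ N ih =>
    have hI : Finset.Ioc w (w + (N + 1)) = insert (w + N + 1) (Finset.Ioc w (w + N)) := by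
      ext k
      simp only [Finset.mem_Ioc, Finset.mem_insert]
      omega
    rw [hI, Finset.sum_insert (by simp)]
    have h1 : (0 : ℝ) < (w : ℝ) + N := by positivity
    have h2 : (0 : ℝ) < (w : ℝ) + N + 1 := by positivity
    have h3 : 1 / (((w + N + 1 : ℕ) : ℝ)) ^ 2 ≤ 1 / ((w : ℝ) + N) - 1 / ((w : ℝ) + N + 1) := by
      rw [div_sub_div _ _ h1.ne' h2.ne', div_le_div_iff₀ (by positivity) (by positivity)]
      push_cast
      nlinarith
    have h4 : (w : ℝ) + ((N + 1 : ℕ) : ℝ) = (w : ℝ) + N + 1 := by push_cast; ring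
    rw [h4]
    linarith

private theorem exc_one (x B m : ℕ) (hm : 0 < m) {a : ℤ} (ha : a ≤ B) :
    (((Finset.Icc 1 x).filter fun n : ℕ => 0 < (n : ℤ) + a ∧ (m : ℤ) ∣ (n : ℤ) + a).card : ℝ) ≤
      ((x : ℝ) + B) / m := by
  have h1 : ((Finset.Icc 1 x).filter fun n : ℕ => 0 < (n : ℤ) + a ∧ (m : ℤ) ∣ (n : ℤ) + a).card ≤
      ((Finset.Ioc 0 (x + B)).filter fun k : ℕ => m ∣ k).card := by
    refine Finset.card_le_card_of_injOn (fun n : ℕ => ((n : ℤ) + a).toNat) ?_ ?_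
    · intro n hn
      have hn' := Finset.mem_filter.1 (Finset.mem_coe.1 hn)
      have hn1 := Finset.mem_Icc.1 hn'.1
      have h2 : (((n : ℤ) + a).toNat : ℤ) = (n : ℤ) + a := Int.toNat_of_nonneg hn'.2.1.le
      refine Finset.mem_coe.2 (Finset.mem_filter.2 ⟨Finset.mem_Ioc.2 ⟨?_, ?_⟩, ?_⟩)
      · show 0 < ((n : ℤ) + a).toNat
        have := hn'.2.1
        omega
      · show ((n : ℤ) + a).toNat ≤ x + B
        have := hn'.2.1
        omega
      · show m ∣ ((n : ℤ) + a).toNat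
        rw [← Int.natCast_dvd_natCast, h2]
        exact hn'.2.2
    · intro n hn n' hn' he
      have h2 := (Finset.mem_filter.1 (Finset.mem_coe.1 hn)).2.1
      have h3 := (Finset.mem_filter.1 (Finset.mem_coe.1 hn')).2.1
      have he' : ((n : ℤ) + a).toNat = ((n' : ℤ) + a).toNat := he
      omega
  rw [Nat.Ioc_filter_dvd_card_eq_div] at h1
  have h2 : (((Finset.Icc 1 x).filter fun n : ℕ =>
      0 < (n : ℤ) + a ∧ (m : ℤ) ∣ (n : ℤ) + a).card : ℝ) ≤ (((x + B) / m : ℕ) : ℝ) := by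
    exact_mod_cast h1
  refine h2.trans ?_
  have h3 := @Nat.cast_div_le ℝ _ _ _ (x + B) m
  push_cast at h3
  exact h3

theorem exc_count {ι : Type} [Fintype ι] (v : ι → ℤ) {η : ℝ} (hη : 0 < η) :
    ∃ w₀ : ℕ, ∀ w : ℕ, w₀ ≤ w → ∃ A : ℕ, 1 ≤ A ∧ ∃ x₀ : ℕ, ∀ x : ℕ, x₀ ≤ x →
      (ecount v w A x : ℝ) ≤ η * x := by
  classical
  set κ : ℝ := (Fintype.card ι : ℝ) with hκ
  have hκ0 : 0 ≤ κ := by positivity
  obtain ⟨B, hB⟩ : ∃ B : ℕ, ∀ i, |v i| ≤ B := by
    refine ⟨∑ i, (v i).natAbs, fun i => ?_⟩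
    have h1 : (v i).natAbs ≤ ∑ i, (v i).natAbs :=
      Finset.single_le_sum (f := fun i => (v i).natAbs) (fun _ _ => Nat.zero_le _)
        (Finset.mem_univ i)
    rw [Int.abs_eq_natAbs]
    exact_mod_cast h1
  refine ⟨⌈8 * κ / η⌉₊ + 1, fun w hw => ?_⟩
  have hw1 : 1 ≤ w := by omega
  have hw0 : (0 : ℝ) < w := by exact_mod_cast hw1
  have hw2 : 8 * κ / η ≤ w := by
    refine (Nat.le_ceil _).trans ?_
    exact_mod_cast (by omega : ⌈8 * κ / η⌉₊ ≤ w)
  have hκw : 2 * κ / w ≤ η / 4 := by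
    rw [div_le_iff₀ hη] at hw2
    rw [div_le_iff₀ hw0]
    linarith
  obtain ⟨A, hA⟩ : ∃ A : ℕ, 8 * κ * w / η < 2 ^ A := pow_unbounded_of_one_lt _ (by norm_num)
  have hA1 : 8 * κ * w / η ≤ 2 ^ (A + 1) := by
    refine hA.le.trans ?_
    exact pow_le_pow_right₀ (by norm_num) (by omega)
  have hκA : 2 * κ * (w / 2 ^ (A + 1)) ≤ η / 4 := by
    rw [div_le_iff₀ hη] at hA1
    rw [← mul_div_assoc, div_le_iff₀ (by positivity)]
    linarith
  refine ⟨A + 1, by omega, ⌈2 * κ * B / η⌉₊ + B, fun x hx => ?_⟩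
  have hxB : (B : ℝ) ≤ x := by exact_mod_cast (by omega : B ≤ x)
  have hx1 : 2 * κ * B / η ≤ x := by
    refine (Nat.le_ceil _).trans ?_
    exact_mod_cast (by omega : ⌈2 * κ * B / η⌉₊ ≤ x)
  have hx2 : κ * B ≤ η / 2 * x := by
    rw [div_le_iff₀ hη] at hx1
    linarith
  let S1 : ι → Finset ℕ := fun i => (Finset.Icc 1 x).filter fun n : ℕ => (n : ℤ) + v i ≤ 0
  let S : ι → ℕ → Finset ℕ := fun i m =>
    (Finset.Icc 1 x).filter fun n : ℕ => 0 < (n : ℤ) + v i ∧ (m : ℤ) ∣ (n : ℤ) + v i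
  let P2 : Finset ℕ := (Finset.Icc 1 w).filter Nat.Prime
  let P3 : Finset ℕ := (Finset.Ioc w (w + (x + B))).filter Nat.Prime
  have hsub : ((Finset.Icc 1 x).filter fun n : ℕ => ¬ Good v w (A + 1) n) ⊆
      (Finset.univ : Finset ι).biUnion fun i =>
        S1 i ∪ (P2.biUnion (fun p => S i (p ^ (A + 1))) ∪ P3.biUnion (fun p => S i (p ^ 2))) := by
    intro n hn
    obtain ⟨hn1, hn2⟩ := Finset.mem_filter.1 hn
    have hn3 := Finset.mem_Icc.1 hn1
    unfold Good at hn2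
    push Not at hn2
    obtain ⟨i, hi⟩ := hn2
    refine Finset.mem_biUnion.2 ⟨i, Finset.mem_univ i, ?_⟩
    by_cases h0 : 0 < (n : ℤ) + v i
    · refine Finset.mem_union_right _ ?_
      by_cases h2 : ∀ p : ℕ, p.Prime → p ≤ w → ¬ (p : ℤ) ^ (A + 1) ∣ (n : ℤ) + v i
      · obtain ⟨p, hp, hpw, hd⟩ := hi h0 h2
        refine Finset.mem_union_right _ (Finset.mem_biUnion.2 ⟨p, ?_, ?_⟩)
        · refine Finset.mem_filter.2 ⟨Finset.mem_Ioc.2 ⟨hpw, ?_⟩, hp⟩
          have h3 : (p : ℤ) ^ 2 ≤ (n : ℤ) + v i := Int.le_of_dvd h0 hd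
          have h4 : v i ≤ B := (le_abs_self _).trans (hB i)
          have h5 : (p : ℤ) ≤ (p : ℤ) ^ 2 := by
            have : (1 : ℤ) ≤ p := by exact_mod_cast hp.one_le
            nlinarith
          have h6 : (p : ℤ) ≤ w + (x + B) := by
            have : (n : ℤ) ≤ x := by exact_mod_cast hn3.2
            have : (0 : ℤ) ≤ w := by positivity
            linarith
          exact_mod_cast h6
        · refine Finset.mem_filter.2 ⟨hn1, h0, ?_⟩
          push_cast
          exact hd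
      · push Not at h2
        obtain ⟨p, hp, hpw, hd⟩ := h2
        refine Finset.mem_union_left _ (Finset.mem_biUnion.2 ⟨p, ?_, ?_⟩)
        · exact Finset.mem_filter.2 ⟨Finset.mem_Icc.2 ⟨hp.one_le, hpw⟩, hp⟩
        · refine Finset.mem_filter.2 ⟨hn1, h0, ?_⟩
          push_cast
          exact hd
    · refine Finset.mem_union_left _ (Finset.mem_filter.2 ⟨hn1, ?_⟩)
      omega
  have hS1 : ∀ i, ((S1 i).card : ℝ) ≤ B := by
    intro i
    have h1 : S1 i ⊆ Finset.Icc 1 B := by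
      intro n hn
      obtain ⟨hn1, hn2⟩ := Finset.mem_filter.1 hn
      have hn3 := Finset.mem_Icc.1 hn1
      have h4 : -v i ≤ B := (neg_le_abs _).trans (hB i)
      rw [Finset.mem_Icc]
      omega
    have h2 := Finset.card_le_card h1
    rw [Nat.card_Icc, Nat.add_sub_cancel] at h2
    exact_mod_cast h2
  have hSm : ∀ i m, 0 < m → ((S i m).card : ℝ) ≤ ((x : ℝ) + B) / m := by
    intro i m hm
    exact exc_one x B m hm ((le_abs_self _).trans (hB i))
  have hxB0 : (0 : ℝ) ≤ (x : ℝ) + B := by positivity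
  have h2 : ∀ i, ((P2.biUnion (fun p => S i (p ^ (A + 1)))).card : ℝ) ≤
      w * (((x : ℝ) + B) / 2 ^ (A + 1)) := by
    intro i
    have h3 : ((P2.biUnion (fun p => S i (p ^ (A + 1)))).card : ℝ) ≤
        ∑ p ∈ P2, ((S i (p ^ (A + 1))).card : ℝ) := by exact_mod_cast Finset.card_biUnion_le
    refine h3.trans ?_
    have h4 : ∀ p ∈ P2, ((S i (p ^ (A + 1))).card : ℝ) ≤ ((x : ℝ) + B) / 2 ^ (A + 1) := by
      intro p hp
      have hp1 := (Finset.mem_filter.1 hp).2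
      refine (hSm i _ (pow_pos hp1.pos _)).trans ?_
      push_cast
      refine div_le_div_of_nonneg_left hxB0 (by positivity) ?_
      have h5 : (2 : ℝ) ≤ p := by exact_mod_cast hp1.two_le
      exact pow_le_pow_left₀ (by norm_num) h5 _
    refine (Finset.sum_le_sum h4).trans ?_
    rw [Finset.sum_const, nsmul_eq_mul]
    refine mul_le_mul_of_nonneg_right ?_ (by positivity)
    have h5 : P2.card ≤ w := by
      refine (Finset.card_filter_le _ _).trans ?_
      rw [Nat.card_Icc, Nat.add_sub_cancel]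
    exact_mod_cast h5
  have h3 : ∀ i, ((P3.biUnion (fun p => S i (p ^ 2))).card : ℝ) ≤ ((x : ℝ) + B) / w := by
    intro i
    have h3 : ((P3.biUnion (fun p => S i (p ^ 2))).card : ℝ) ≤
        ∑ p ∈ P3, ((S i (p ^ 2)).card : ℝ) := by exact_mod_cast Finset.card_biUnion_le
    refine h3.trans ?_
    have h4 : ∀ p ∈ P3, ((S i (p ^ 2)).card : ℝ) ≤ ((x : ℝ) + B) * (1 / (p : ℝ) ^ 2) := by
      intro p hp
      have hp1 := (Finset.mem_filter.1 hp).2
      refine (hSm i _ (pow_pos hp1.pos _)).trans ?_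
      push_cast
      rw [mul_one_div]
    refine (Finset.sum_le_sum h4).trans ?_
    rw [← Finset.mul_sum, div_eq_mul_one_div ((x : ℝ) + B)]
    refine mul_le_mul_of_nonneg_left ?_ hxB0
    refine (Finset.sum_le_sum_of_subset_of_nonneg (Finset.filter_subset _ _)
      fun p _ _ => by positivity).trans ((exc_tele hw1 (x + B)).trans ?_)
    have : (0 : ℝ) ≤ 1 / ((w : ℝ) + ((x + B : ℕ) : ℝ)) := by positivity
    linarith
  have hcard : (ecount v w (A + 1) x : ℝ) ≤
      κ * (B + (w * (((x : ℝ) + B) / 2 ^ (A + 1)) + ((x : ℝ) + B) / w)) := by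
    have h4 : ecount v w (A + 1) x ≤ ∑ i : ι, (S1 i ∪ (P2.biUnion (fun p => S i (p ^ (A + 1))) ∪
        P3.biUnion (fun p => S i (p ^ 2)))).card := by
      unfold ecount
      refine le_trans (le_of_eq ?_) ((Finset.card_le_card hsub).trans Finset.card_biUnion_le)
      congr
    have h5 : (ecount v w (A + 1) x : ℝ) ≤ ∑ i : ι, (((S1 i ∪ (P2.biUnion (fun p =>
        S i (p ^ (A + 1))) ∪ P3.biUnion (fun p => S i (p ^ 2)))).card : ℕ) : ℝ) := by
      exact_mod_cast h4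
    refine h5.trans ?_
    have h6 : ∀ i ∈ (Finset.univ : Finset ι), (((S1 i ∪ (P2.biUnion (fun p =>
        S i (p ^ (A + 1))) ∪ P3.biUnion (fun p => S i (p ^ 2)))).card : ℕ) : ℝ) ≤
        B + (w * (((x : ℝ) + B) / 2 ^ (A + 1)) + ((x : ℝ) + B) / w) := by
      intro i _
      have h7 : (((S1 i ∪ (P2.biUnion (fun p =>
        S i (p ^ (A + 1))) ∪ P3.biUnion (fun p => S i (p ^ 2)))).card : ℕ) : ℝ) ≤
        ((S1 i).card : ℝ) + (((P2.biUnion (fun p => S i (p ^ (A + 1)))).card : ℝ) +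
          ((P3.biUnion (fun p => S i (p ^ 2))).card : ℝ)) := by
        have h8 := (Finset.card_union_le (S1 i) (P2.biUnion (fun p =>
          S i (p ^ (A + 1))) ∪ P3.biUnion (fun p => S i (p ^ 2)))).trans
          (Nat.add_le_add_left (Finset.card_union_le _ _) _)
        exact_mod_cast h8
      have := hS1 i
      have := h2 i
      have := h3 i
      linarith
    refine (Finset.sum_le_sum h6).trans ?_
    rw [Finset.sum_const, Finset.card_univ, nsmul_eq_mul, ← hκ]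
  refine hcard.trans ?_
  have e1 : w * (((x : ℝ) + B) / 2 ^ (A + 1)) ≤ (w / 2 ^ (A + 1)) * (2 * x) := by
    have : w * (((x : ℝ) + B) / 2 ^ (A + 1)) = (w / 2 ^ (A + 1)) * ((x : ℝ) + B) := by ring
    rw [this]
    exact mul_le_mul_of_nonneg_left (by linarith) (by positivity)
  have e2 : ((x : ℝ) + B) / w ≤ 2 * x / w := div_le_div_of_nonneg_right (by linarith) hw0.le
  have e3 : κ * (B + (w * (((x : ℝ) + B) / 2 ^ (A + 1)) + ((x : ℝ) + B) / w)) ≤
      κ * (B + ((w / 2 ^ (A + 1)) * (2 * x) + 2 * x / w)) :=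
    mul_le_mul_of_nonneg_left (by linarith) hκ0
  refine e3.trans ?_
  have hx0 : (0 : ℝ) ≤ x := by positivity
  have e4 : κ * (B + ((w / 2 ^ (A + 1)) * (2 * x) + 2 * x / w)) =
      κ * B + (2 * κ * (w / 2 ^ (A + 1))) * x + (2 * κ / w) * x := by ring
  rw [e4]
  have e5 : (2 * κ * (w / 2 ^ (A + 1))) * x ≤ η / 4 * x := mul_le_mul_of_nonneg_right hκA hx0
  have e6 : (2 * κ / w) * x ≤ η / 4 * x := mul_le_mul_of_nonneg_right hκw hx0
  linarith

end Pool.Agent.Work.MP_58cfe3_nt
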