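import Pool.Agent.Work.MP_58cfe3_nt.Basic
import Pool.Agent.Work.MP_73869e_nt.N
import Pool.Agent.Work.MP_43ce8a_nt.D.SvDy

/-!
# Module Mer (size S-M): Mertens theorems in the form used here

PROOF. `mertens2`: `Pool.Agent.Work.MP_73869e_nt.M3.exists_M` (N1.lean, `PP N = ∑_{p ≤ N} 1/p`, rewrite
`Ioc 0 N = Icc 1 N`). `mert_le`: `Pool.Agent.Work.MP_73869e_nt.mertens_third` (N.lean):
`mert y * log y → exp (-γ) > 0`, so for `N ≥ N₀` `mert N ≥ c/log N`; for the finitely many `2 ≤ N < N₀` enlarge `C`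
(the product is monotone in `N`, `log N ≥ log 2`). Product of inverses = inverse of the product.
`mert_dy`: `Pool.Agent.Work.MP_43ce8a_nt.D.dyadic` (SvDy.lean).
`mert_win`: from `mertens2`: with `x` real, `N = ⌊x⌋₊`, `N' = ⌊x^θ⌋₊`, the sum is `≤ PP N - PP N'`
`= loglog N - loglog N' + o(1)`, and `loglog N - loglog N' → log (1/θ) < 2/θ - ...`; it is enough to show
eventually `≤ log (1/θ) + 1` (use `x^θ/2 ≤ N'`).
-/

set_option autoImplicit false

namespace Pool.Agent.Work.MP_58cfe3_nt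

open Filter Topology

open Pool.Agent.Work.MP_73869e_nt.M3 in
private theorem PP_eq (N : ℕ) : PP N = ∑ p ∈ (Finset.Icc 1 N).filter Nat.Prime, (1 / p : ℝ) := by
  have h : Finset.Icc 1 N = Finset.Ioc 0 N := by
    ext x
    simp only [Finset.mem_Icc, Finset.mem_Ioc]
    omega
  rw [h]
  rfl

theorem mertens2 : ∃ M : ℝ, Tendsto (fun N : ℕ =>
    ∑ p ∈ (Finset.Icc 1 N).filter Nat.Prime, (1 / p : ℝ) - Real.log (Real.log N)) atTop (𝓝 M) := by
  obtain ⟨M, hM⟩ := Pool.Agent.Work.MP_73869e_nt.M3.exists_M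
  refine ⟨M, ?_⟩
  simpa only [PP_eq] using hM

theorem mert_le : ∃ C : ℝ, 0 < C ∧ ∀ N : ℕ, 2 ≤ N →
    ∏ p ∈ (Finset.Icc 1 N).filter Nat.Prime, (1 - 1 / (p : ℝ))⁻¹ ≤ C * Real.log N := by
  have h1 := Pool.Agent.Work.MP_73869e_nt.mertens_third
  have hc0 : 0 < Real.exp (-Real.eulerMascheroniConstant) := Real.exp_pos _
  set c0 : ℝ := Real.exp (-Real.eulerMascheroniConstant) with hc0def
  have h2 : ∀ᶠ y : ℝ in atTop, c0 / 2 < Pool.Agent.Work.MP_73869e_nt.mert y * Real.log y :=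
    h1.eventually (lt_mem_nhds (by linarith))
  have h3 : ∀ᶠ N : ℕ in atTop, c0 / 2 < Pool.Agent.Work.MP_73869e_nt.mert (N : ℝ) * Real.log N :=
    tendsto_natCast_atTop_atTop.eventually h2
  obtain ⟨N0, hN0⟩ := eventually_atTop.1 h3
  have hpos : ∀ N : ℕ, 0 ≤ ∏ p ∈ (Finset.Icc 1 N).filter Nat.Prime, (1 - 1 / (p : ℝ))⁻¹ := by
    intro N
    refine Finset.prod_nonneg fun p hp => ?_
    have hp2 : (1 : ℝ) ≤ p := by exact_mod_cast (Finset.mem_filter.1 hp).2.one_le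
    have : 1 / (p : ℝ) ≤ 1 := by rw [div_le_one (by linarith)]; exact hp2
    exact inv_nonneg.2 (by linarith)
  have hlog2 : 0 < Real.log 2 := Real.log_pos (by norm_num)
  have hS : 0 ≤ ∑ k ∈ Finset.range N0,
      ∏ p ∈ (Finset.Icc 1 k).filter Nat.Prime, (1 - 1 / (p : ℝ))⁻¹ :=
    Finset.sum_nonneg fun k _ => hpos k
  refine ⟨2 / c0 + (∑ k ∈ Finset.range N0,
      ∏ p ∈ (Finset.Icc 1 k).filter Nat.Prime, (1 - 1 / (p : ℝ))⁻¹) / Real.log 2, by positivity, ?_⟩
  intro N hN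
  have hN2 : (2 : ℝ) ≤ N := by exact_mod_cast hN
  have hlogN : Real.log 2 ≤ Real.log N := Real.log_le_log (by norm_num) hN2
  have hlogpos : 0 < Real.log N := lt_of_lt_of_le hlog2 hlogN
  by_cases hle : N0 ≤ N
  · have h4 := hN0 N hle
    have h5 : Pool.Agent.Work.MP_73869e_nt.mert (N : ℝ) =
        ∏ p ∈ (Finset.Icc 1 N).filter Nat.Prime, (1 - 1 / (p : ℝ)) := by
      unfold Pool.Agent.Work.MP_73869e_nt.mert
      rw [Nat.floor_natCast]
    rw [Finset.prod_inv_distrib, ← h5]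
    have h6 : 0 < Pool.Agent.Work.MP_73869e_nt.mert (N : ℝ) := by
      by_contra hneg
      have : Pool.Agent.Work.MP_73869e_nt.mert (N : ℝ) * Real.log N ≤ 0 :=
        mul_nonpos_of_nonpos_of_nonneg (not_lt.1 hneg) hlogpos.le
      linarith
    have h7 : (Pool.Agent.Work.MP_73869e_nt.mert (N : ℝ))⁻¹ ≤ 2 / c0 * Real.log N := by
      rw [inv_le_iff_one_le_mul₀ h6]
      have h8 : 2 / c0 * Real.log N * Pool.Agent.Work.MP_73869e_nt.mert (N : ℝ) =
          2 / c0 * (Pool.Agent.Work.MP_73869e_nt.mert (N : ℝ) * Real.log N) := by ring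
      rw [h8]
      have h9 : 2 / c0 * (c0 / 2) = 1 := by field_simp
      rw [← h9]
      exact mul_le_mul_of_nonneg_left h4.le (by positivity)
    have h8 : 0 ≤ (∑ k ∈ Finset.range N0,
      ∏ p ∈ (Finset.Icc 1 k).filter Nat.Prime, (1 - 1 / (p : ℝ))⁻¹) / Real.log 2 * Real.log N := by
      positivity
    rw [add_mul]
    linarith
  · have h4 : ∏ p ∈ (Finset.Icc 1 N).filter Nat.Prime, (1 - 1 / (p : ℝ))⁻¹ ≤
        ∑ k ∈ Finset.range N0, ∏ p ∈ (Finset.Icc 1 k).filter Nat.Prime, (1 - 1 / (p : ℝ))⁻¹ :=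
      Finset.single_le_sum (f := fun k : ℕ =>
        ∏ p ∈ (Finset.Icc 1 k).filter Nat.Prime, (1 - 1 / (p : ℝ))⁻¹) (fun k _ => hpos k)
        (Finset.mem_range.2 (not_le.1 hle))
    have h5 : (∑ k ∈ Finset.range N0,
        ∏ p ∈ (Finset.Icc 1 k).filter Nat.Prime, (1 - 1 / (p : ℝ))⁻¹) ≤
        (∑ k ∈ Finset.range N0,
        ∏ p ∈ (Finset.Icc 1 k).filter Nat.Prime, (1 - 1 / (p : ℝ))⁻¹) / Real.log 2 *
          Real.log N := by
      rw [div_mul_eq_mul_div, le_div_iff₀ hlog2]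
      exact mul_le_mul_of_nonneg_left hlogN hS
    have h6 : 0 ≤ 2 / c0 * Real.log N := by positivity
    rw [add_mul]
    linarith

theorem mert_dy : ∃ L : ℝ, 0 ≤ L ∧ ∀ P : Finset ℕ, (∀ p ∈ P, p.Prime) → ∀ y : ℝ, 1 ≤ y →
    ∑ p ∈ P.filter (fun p : ℕ => y ≤ (p : ℝ) ∧ (p : ℝ) < y ^ 2), 1 / (p : ℝ) ≤ L :=
  Pool.Agent.Work.MP_43ce8a_nt.D.dyadic

theorem mert_win {θ : ℝ} (h0 : 0 < θ) (h1 : θ ≤ 1) : ∀ᶠ x : ℕ in atTop,
    ∑ p ∈ (Finset.Icc 1 x).filter (fun p : ℕ => p.Prime ∧ (x : ℝ) ^ θ < p), (1 / p : ℝ) ≤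
      Real.log (1 / θ) + 1 := by
  obtain ⟨M, hM⟩ := mertens2
  have hpow : Tendsto (fun x : ℕ => (x : ℝ) ^ θ) atTop atTop :=
    (tendsto_rpow_atTop h0).comp tendsto_natCast_atTop_atTop
  have hfl : Tendsto (fun x : ℕ => ⌊(x : ℝ) ^ θ⌋₊) atTop atTop := tendsto_nat_floor_atTop.comp hpow
  have hdiff := hM.sub (hM.comp hfl)
  rw [sub_self] at hdiff
  have hlog : Tendsto (fun x : ℕ => Real.log (x : ℝ)) atTop atTop :=
    Real.tendsto_log_atTop.comp tendsto_natCast_atTop_atTop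
  have hr1 : Real.exp (-(1 / 2 : ℝ)) < 1 := by
    rw [Real.exp_lt_one_iff]
    norm_num
  have hr0 : 0 < Real.exp (-(1 / 2 : ℝ)) := Real.exp_pos _
  set r : ℝ := Real.exp (-(1 / 2 : ℝ)) with hr
  have hlogr : Real.log r = -(1 / 2) := by rw [hr, Real.log_exp]
  have hlog2 : 0 < Real.log 2 := Real.log_pos (by norm_num)
  filter_upwards [hdiff.eventually (gt_mem_nhds (by norm_num : (0 : ℝ) < 1 / 2)),
    hpow.eventually (eventually_ge_atTop 2),
    hlog.eventually (eventually_ge_atTop (Real.log 2 / (θ * (1 - r)))),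
    eventually_ge_atTop 2] with x hx1 hx2 hx3 hx4
  have hx0 : (0 : ℝ) < x := by
    have : (2 : ℝ) ≤ x := by exact_mod_cast hx4
    linarith
  have hlx : 0 < Real.log x := Real.log_pos (by
    have : (2 : ℝ) ≤ x := by exact_mod_cast hx4
    linarith)
  set N' : ℕ := ⌊(x : ℝ) ^ θ⌋₊ with hN'
  have hN1 : (x : ℝ) ^ θ < N' + 1 := Nat.lt_floor_add_one _
  have hN2 : (N' : ℝ) ≤ (x : ℝ) ^ θ := Nat.floor_le (by positivity)
  have hN3 : (x : ℝ) ^ θ / 2 ≤ N' := by linarith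
  have hlogN : θ * Real.log x - Real.log 2 ≤ Real.log N' := by
    have h2 : Real.log ((x : ℝ) ^ θ / 2) ≤ Real.log N' := Real.log_le_log (by positivity) hN3
    rwa [Real.log_div (by positivity) (by norm_num), Real.log_rpow hx0] at h2
  have hkey : θ * r * Real.log x ≤ Real.log N' := by
    have h2 : Real.log 2 ≤ Real.log x * (θ * (1 - r)) := by
      have h3 : 0 < θ * (1 - r) := mul_pos h0 (by linarith)
      rwa [div_le_iff₀ h3] at hx3
    nlinarith
  have hll : Real.log (Real.log x) - Real.log (Real.log N') ≤ Real.log (1 / θ) + 1 / 2 := by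
    have h2 : Real.log (θ * r * Real.log x) ≤ Real.log (Real.log N') :=
      Real.log_le_log (by positivity) hkey
    rw [Real.log_mul (by positivity) (by positivity), Real.log_mul (by positivity) (by positivity),
      hlogr] at h2
    rw [one_div, Real.log_inv]
    linarith
  have hsum : ∑ p ∈ (Finset.Icc 1 x).filter (fun p : ℕ => p.Prime ∧ (x : ℝ) ^ θ < p), (1 / p : ℝ) ≤
      ∑ p ∈ (Finset.Icc 1 x).filter Nat.Prime, (1 / p : ℝ) -
        ∑ p ∈ (Finset.Icc 1 N').filter Nat.Prime, (1 / p : ℝ) := by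
    rw [le_sub_iff_add_le, ← Finset.sum_union]
    · refine Finset.sum_le_sum_of_subset_of_nonneg ?_ fun p _ _ => by positivity
      intro p hp
      rw [Finset.mem_union, Finset.mem_filter, Finset.mem_filter, Finset.mem_Icc,
        Finset.mem_Icc] at hp
      rw [Finset.mem_filter, Finset.mem_Icc]
      rcases hp with hp | hp
      · exact ⟨hp.1, hp.2.1⟩
      · refine ⟨⟨hp.1.1, ?_⟩, hp.2⟩
        have h2 : (N' : ℝ) ≤ x := by
          refine hN2.trans ?_
          calc (x : ℝ) ^ θ ≤ (x : ℝ) ^ (1 : ℝ) :=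
                Real.rpow_le_rpow_of_exponent_le (by
                  have : (2 : ℝ) ≤ x := by exact_mod_cast hx4
                  linarith) h1
            _ = x := Real.rpow_one _
        have h3 : N' ≤ x := by exact_mod_cast h2
        omega
    · rw [Finset.disjoint_left]
      intro p hp hp'
      rw [Finset.mem_filter, Finset.mem_Icc] at hp hp'
      have h2 : (p : ℝ) ≤ N' := by exact_mod_cast hp'.1.2
      linarith [hp.2.2]
  simp only [Function.comp_apply] at hx1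
  rw [← hN'] at hx1
  linarith

end Pool.Agent.Work.MP_58cfe3_nt
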