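import Pool.Agent.Work.MP_58cfe3_nt.SDefs
import Pool.Agent.Work.MP_58cfe3_nt.Mer

/-!
# Module SLarge (size M): the large primes

PROOF. For `‖z‖ ≤ 1`: `‖1 - z‖² ≤ 2 (1 - Re z)`. Put `X = x + B`; for large `x`, `x^θ ≥ X^(θ/2)`, so
`LL x B θ ⊆ {p ≤ X prime, X^(θ/2) < p}` and by Cauchy-Schwarz
`(∑_{LL} ‖1 - g p‖/p)² ≤ (∑ ‖1 - g p‖²/p)(∑ 1/p) ≤ 2 (∑_{X^(θ/2) < p ≤ X} (1 - Re g p)/p)(log (2/θ) + 1)` (`mert_win`), which
tends to `0` by `Near g` at `η = θ/2`.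
-/

set_option autoImplicit false

namespace Pool.Agent.Work.MP_58cfe3_nt

open Filter Topology

private theorem SLarge.sq_le {z : ℂ} (h : ‖z‖ ≤ 1) : ‖1 - z‖ ^ 2 ≤ 2 * (1 - z.re) := by
  have h1 : ‖1 - z‖ ^ 2 = (1 - z.re) ^ 2 + z.im ^ 2 := by
    rw [← Complex.normSq_eq_norm_sq, Complex.normSq_apply]
    simp
    ring
  have h2 : z.re ^ 2 + z.im ^ 2 ≤ 1 := by
    have h3 : ‖z‖ ^ 2 = z.re ^ 2 + z.im ^ 2 := by
      rw [← Complex.normSq_eq_norm_sq, Complex.normSq_apply]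
      ring
    rw [← h3]
    exact pow_le_one₀ (norm_nonneg _) h
  rw [h1]
  nlinarith

private theorem SLarge.re_le {z : ℂ} (h : ‖z‖ ≤ 1) : 0 ≤ 1 - z.re := by
  have := (Complex.re_le_norm z).trans h
  linarith

theorem large_small {g : ℤ → ℂ} (hb : ∀ n, ‖g n‖ ≤ 1) (hn : Near g) {θ : ℝ} (h0 : 0 < θ)
    (h1 : θ ≤ 1) (B : ℕ) :
    Tendsto (fun x : ℕ => ∑ p ∈ LL x B θ, ‖1 - g p‖ / p) atTop (𝓝 0) := by
  have hη : 0 < θ / 2 := by positivity
  have hη1 : θ / 2 ≤ 1 := by linarith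
  set K : ℝ := Real.log (1 / (θ / 2)) + 1 with hK
  have hshift : Tendsto (fun x : ℕ => x + B) atTop atTop := tendsto_add_atTop_nat B
  have hnear := (hn (θ / 2) hη).comp hshift
  have hwin := hshift.eventually (mert_win hη hη1)
  have hsq : Tendsto (fun x : ℕ => Real.sqrt (2 * (∑ p ∈ (Finset.Icc 1 (x + B)).filter
      (fun p : ℕ => p.Prime ∧ ((x + B : ℕ) : ℝ) ^ (θ / 2) < p), (1 - (g p).re) / p) * K))
      atTop (𝓝 0) := by
    have h2 : Tendsto (fun x : ℕ => 2 * (∑ p ∈ (Finset.Icc 1 (x + B)).filter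
      (fun p : ℕ => p.Prime ∧ ((x + B : ℕ) : ℝ) ^ (θ / 2) < p), (1 - (g p).re) / p) * K)
      atTop (𝓝 (2 * 0 * K)) := (hnear.const_mul 2).mul_const K
    have h3 := (Real.continuous_sqrt.tendsto _).comp h2
    simp only [mul_zero, zero_mul, Real.sqrt_zero] at h3
    exact h3
  refine squeeze_zero' (Eventually.of_forall fun x => ?_) ?_ hsq
  · exact Finset.sum_nonneg fun p _ => div_nonneg (norm_nonneg _) (Nat.cast_nonneg _)
  filter_upwards [hwin, eventually_ge_atTop (max 2 B)] with x hw hx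
  have hx2 : 2 ≤ x := (le_max_left _ _).trans hx
  have hxB : B ≤ x := (le_max_right _ _).trans hx
  have hsub : LL x B θ ⊆ (Finset.Icc 1 (x + B)).filter
      (fun p : ℕ => p.Prime ∧ ((x + B : ℕ) : ℝ) ^ (θ / 2) < p) := by
    intro p hp
    simp only [LL, Finset.mem_filter, Finset.mem_Icc] at hp
    simp only [Finset.mem_filter, Finset.mem_Icc]
    refine ⟨hp.1, hp.2.1, lt_of_le_of_lt ?_ hp.2.2⟩
    have e1 : ((x + B : ℕ) : ℝ) ≤ (x : ℝ) ^ 2 := by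
      have : x + B ≤ x ^ 2 := by nlinarith
      exact_mod_cast this
    calc ((x + B : ℕ) : ℝ) ^ (θ / 2) ≤ ((x : ℝ) ^ 2) ^ (θ / 2) :=
          Real.rpow_le_rpow (Nat.cast_nonneg _) e1 hη.le
      _ = (x : ℝ) ^ θ := by
          rw [← Real.rpow_natCast (x : ℝ) 2, ← Real.rpow_mul (Nat.cast_nonneg _)]
          congr 1
          push_cast
          ring
  refine (Finset.sum_le_sum_of_subset_of_nonneg hsub fun p _ _ =>
    div_nonneg (norm_nonneg _) (Nat.cast_nonneg _)).trans ?_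
  refine Real.le_sqrt_of_sq_le ?_
  set Q := (Finset.Icc 1 (x + B)).filter
      (fun p : ℕ => p.Prime ∧ ((x + B : ℕ) : ℝ) ^ (θ / 2) < p) with hQ
  have hcs : (∑ p ∈ Q, ‖1 - g p‖ / p) ^ 2 ≤
      (∑ p ∈ Q, ‖1 - g p‖ ^ 2 / (p : ℝ)) * ∑ p ∈ Q, 1 / (p : ℝ) := by
    refine Finset.sum_sq_le_sum_mul_sum_of_sq_le_mul Q (fun p _ => by positivity)
      (fun p _ => by positivity) (fun p _ => le_of_eq (by ring))
  refine hcs.trans ?_
  have hA : ∑ p ∈ Q, ‖1 - g p‖ ^ 2 / (p : ℝ) ≤ 2 * ∑ p ∈ Q, (1 - (g p).re) / p := by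
    rw [Finset.mul_sum]
    refine Finset.sum_le_sum fun p _ => ?_
    rw [← mul_div_assoc]
    exact div_le_div_of_nonneg_right (SLarge.sq_le (hb p)) (Nat.cast_nonneg _)
  have hnn : 0 ≤ ∑ p ∈ Q, (1 - (g p).re) / (p : ℝ) :=
    Finset.sum_nonneg fun p _ => div_nonneg (SLarge.re_le (hb p)) (Nat.cast_nonneg _)
  refine mul_le_mul hA hw (Finset.sum_nonneg fun p _ => by positivity) (by positivity)

end Pool.Agent.Work.MP_58cfe3_nt
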