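import Pool.Agent.Work.MP_58cfe3_nt.SDec

/-!
# Module SPt (size M): pointwise approximation

PROOF. By `decomp` (with `Y = x + B`), for each `i`:
`g (n + v i) = g (gcd_i) * ∏_{p ∈ TT w x θ} (if p ∣ n + v i then g p else 1) * ∏_{p ≤ x + B prime, p > w, p > x^θ} (..)`: the primes
in `(w, x + B]` with `p ≤ x^θ` are those of `TT w x θ` (`x^θ ≤ x` for `x ≥ 1`, `θ ≤ 1`). Apply `cj (s i)`
(multiplicative), take the product over `i`, exchange the products: `∏_i ∏_{p ∈ TT} = FF`. The product of the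
large prime factors differs from `1` by at most the sum of the `‖1 - g p‖` over the pairs `(i, p)`,
`p ∈ LL x B θ`, `p ∣ n + v i` (`‖∏ a_j - 1‖ ≤ ∑ ‖a_j - 1‖` for `‖a_j‖ ≤ 1`;
`‖cj b z - 1‖ = ‖z - 1‖`), all other factors have norm `≤ 1`.
-/

set_option autoImplicit false

namespace Pool.Agent.Work.MP_58cfe3_nt

open Filter Topology

private theorem SPt.cj_mul (b : Bool) (z y : ℂ) : cj b (z * y) = cj b z * cj b y := by
  unfold cj; split_ifs <;> simp [mul_comm]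

private theorem SPt.cj_one (b : Bool) : cj b 1 = 1 := by
  unfold cj; split_ifs <;> simp

private theorem SPt.cj_prod (b : Bool) {α : Type*} (S : Finset α) (f : α → ℂ) :
    cj b (∏ a ∈ S, f a) = ∏ a ∈ S, cj b (f a) := by
  classical
  induction S using Finset.induction_on with
  | empty => simp [SPt.cj_one]
  | insert a S ha ih => rw [Finset.prod_insert ha, Finset.prod_insert ha, SPt.cj_mul, ih]

private theorem SPt.cj_norm (b : Bool) (z : ℂ) : ‖cj b z‖ = ‖z‖ := by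
  unfold cj; split_ifs <;> simp

private theorem SPt.cj_sub_one (b : Bool) (z : ℂ) : ‖cj b z - 1‖ = ‖z - 1‖ := by
  have : cj b z - 1 = cj b (z - 1) := by
    unfold cj; split_ifs <;> simp
  rw [this, SPt.cj_norm]

private theorem SPt.prod_sub_one {α : Type*} (S : Finset α) (f : α → ℂ) (h : ∀ a ∈ S, ‖f a‖ ≤ 1) :
    ‖∏ a ∈ S, f a - 1‖ ≤ ∑ a ∈ S, ‖f a - 1‖ := by
  classical
  induction S using Finset.induction_on with
  | empty => simp
  | insert a S ha ih =>
    rw [Finset.prod_insert ha, Finset.sum_insert ha]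
    have e : f a * ∏ x ∈ S, f x - 1 = (f a - 1) + f a * (∏ x ∈ S, f x - 1) := by ring
    rw [e]
    refine (norm_add_le _ _).trans (add_le_add le_rfl ?_)
    rw [norm_mul]
    refine (mul_le_of_le_one_left (norm_nonneg _) (h a (Finset.mem_insert_self a S))).trans ?_
    exact ih fun b hb => h b (Finset.mem_insert_of_mem hb)

theorem pt_bound {g : ℤ → ℂ} (hg : MulBdd g) {ι : Type} [Fintype ι] {v : ι → ℤ} (s : ι → Bool)
    {B : ℕ} (hB : ∀ i, |v i| ≤ B) {w A x : ℕ} {θ : ℝ} (hθ : 0 < θ) (hθ' : θ ≤ 1) {n : ℕ}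
    (hn : n ∈ Finset.Icc 1 x) (hgood : Good v w A n) :
    ‖∏ i, cj (s i) (g (n + v i)) -
      (∏ i, cj (s i) (g (Int.gcd (n + v i) ((primorial w ^ A : ℕ) : ℤ)))) *
        FF v (TT w x θ) (fun p i => cj (s i) (g p)) n‖ ≤
      ∑ i, ∑ p ∈ LL x B θ, if (p : ℤ) ∣ n + v i then ‖1 - g p‖ else 0 := by
  classical
  obtain ⟨hn1, hnx⟩ := Finset.mem_Icc.1 hn
  set S : Finset ℕ := (Finset.Icc 1 (x + B)).filter (fun p : ℕ => p.Prime ∧ w < p) with hS
  have hx1 : (1 : ℝ) ≤ (x : ℝ) := by exact_mod_cast hn1.trans hnx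
  have hxθ : (x : ℝ) ^ θ ≤ (x : ℝ) := by
    calc (x : ℝ) ^ θ ≤ (x : ℝ) ^ (1 : ℝ) := Real.rpow_le_rpow_of_exponent_le hx1 hθ'
      _ = x := Real.rpow_one _
  have hTS : TT w x θ ⊆ S := by
    intro p hp
    simp only [TT, Finset.mem_filter, Finset.mem_Icc] at hp
    simp only [hS, Finset.mem_filter, Finset.mem_Icc]
    exact ⟨⟨hp.1.1, by omega⟩, hp.2.1, hp.2.2.1⟩
  have hSL : S \ TT w x θ ⊆ LL x B θ := by
    intro p hp
    rw [Finset.mem_sdiff] at hp
    obtain ⟨h1, h2⟩ := hp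
    simp only [hS, Finset.mem_filter, Finset.mem_Icc] at h1
    simp only [LL, Finset.mem_filter, Finset.mem_Icc]
    refine ⟨h1.1, h1.2.1, ?_⟩
    by_contra h3
    push Not at h3
    apply h2
    simp only [TT, Finset.mem_filter, Finset.mem_Icc]
    have h4 : (p : ℝ) ≤ (x : ℝ) := h3.trans hxθ
    exact ⟨⟨h1.1.1, by exact_mod_cast h4⟩, h1.2.1, h1.2.2, h3⟩
  set F : ι → ℕ → ℂ := fun i p => if (p : ℤ) ∣ n + v i then g p else 1 with hF
  have hF1 : ∀ i p, ‖F i p‖ ≤ 1 := by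
    intro i p
    simp only [hF]
    split_ifs
    · exact hg.bdd _
    · simp
  have hdec : ∀ i, g (n + v i) = g (Int.gcd (n + v i) ((primorial w ^ A : ℕ) : ℤ)) *
      ((∏ p ∈ TT w x θ, F i p) * ∏ p ∈ S \ TT w x θ, F i p) := by
    intro i
    obtain ⟨h1, h2, h3⟩ := hgood i
    have h4 : (n : ℤ) + v i ≤ ((x + B : ℕ) : ℤ) := by
      have := (abs_le.1 (hB i)).2
      push_cast
      have h5 : (n : ℤ) ≤ x := by exact_mod_cast hnx
      linarith
    rw [decomp hg h1 h4 h2 h3]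
    congr 1
    rw [mul_comm, Finset.prod_sdiff hTS]
  have hFF : FF v (TT w x θ) (fun p i => cj (s i) (g p)) n =
      ∏ i, cj (s i) (∏ p ∈ TT w x θ, F i p) := by
    unfold FF
    rw [Finset.prod_comm]
    refine Finset.prod_congr rfl fun i _ => ?_
    rw [SPt.cj_prod]
    refine Finset.prod_congr rfl fun p _ => ?_
    simp only [hF]
    split_ifs
    · rfl
    · rw [SPt.cj_one]
  have hmain : ∏ i, cj (s i) (g (n + v i)) -
      (∏ i, cj (s i) (g (Int.gcd (n + v i) ((primorial w ^ A : ℕ) : ℤ)))) *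
        FF v (TT w x θ) (fun p i => cj (s i) (g p)) n =
      ((∏ i, cj (s i) (g (Int.gcd (n + v i) ((primorial w ^ A : ℕ) : ℤ)))) *
        ∏ i, cj (s i) (∏ p ∈ TT w x θ, F i p)) *
        (∏ i, cj (s i) (∏ p ∈ S \ TT w x θ, F i p) - 1) := by
    rw [hFF]
    have : ∏ i, cj (s i) (g (n + v i)) =
        (∏ i, cj (s i) (g (Int.gcd (n + v i) ((primorial w ^ A : ℕ) : ℤ)))) *
        ((∏ i, cj (s i) (∏ p ∈ TT w x θ, F i p)) *
        ∏ i, cj (s i) (∏ p ∈ S \ TT w x θ, F i p)) := by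
      rw [← Finset.prod_mul_distrib, ← Finset.prod_mul_distrib]
      refine Finset.prod_congr rfl fun i _ => ?_
      conv_lhs => rw [hdec i]
      rw [SPt.cj_mul, SPt.cj_mul]
    rw [this]
    ring
  rw [hmain, norm_mul, norm_mul]
  have hA : ‖∏ i, cj (s i) (g (Int.gcd (n + v i) ((primorial w ^ A : ℕ) : ℤ)))‖ ≤ 1 :=
    norm_prod_le_one _ _ fun i _ => by rw [SPt.cj_norm]; exact hg.bdd _
  have hBn : ‖∏ i, cj (s i) (∏ p ∈ TT w x θ, F i p)‖ ≤ 1 :=
    norm_prod_le_one _ _ fun i _ => by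
      rw [SPt.cj_norm]; exact norm_prod_le_one _ _ fun p _ => hF1 i p
  have hC : ‖∏ i, cj (s i) (∏ p ∈ S \ TT w x θ, F i p) - 1‖ ≤
      ∑ i, ∑ p ∈ LL x B θ, if (p : ℤ) ∣ n + v i then ‖1 - g p‖ else 0 := by
    refine (SPt.prod_sub_one _ _ fun i _ => ?_).trans (Finset.sum_le_sum fun i _ => ?_)
    · rw [SPt.cj_norm]; exact norm_prod_le_one _ _ fun p _ => hF1 i p
    · rw [SPt.cj_sub_one]
      refine (SPt.prod_sub_one _ _ fun p _ => hF1 i p).trans ?_
      refine (Finset.sum_le_sum_of_subset_of_nonneg hSL fun p _ _ => norm_nonneg _).trans ?_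
      refine Finset.sum_le_sum fun p _ => ?_
      simp only [hF]
      split_ifs
      · rw [norm_sub_rev]
      · simp
  calc _ ≤ 1 * ‖∏ i, cj (s i) (∏ p ∈ S \ TT w x θ, F i p) - 1‖ := by
        refine mul_le_mul_of_nonneg_right ?_ (norm_nonneg _)
        exact mul_le_one₀ hA (norm_nonneg _) hBn
    _ = ‖∏ i, cj (s i) (∏ p ∈ S \ TT w x θ, F i p) - 1‖ := one_mul _
    _ ≤ _ := hC

end Pool.Agent.Work.MP_58cfe3_nt
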