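import Pool.Agent.Work.MP_58cfe3_nt.SDefs

/-!
# Module SSum (size S-M): sum over `n` of the large prime terms

PROOF. Exchange the sums. For fixed `i, p` the number of `n ∈ [1, x]` with `0 < n + v i`, `p ∣ n + v i` is at most the
number of multiples of `p` in `[1, x + B]`, i.e. `⌊(x + B)/p⌋ ≤ (x + B)/p` (`n ↦ n + v i` injective).
-/

set_option autoImplicit false

namespace Pool.Agent.Work.MP_58cfe3_nt

open Filter Topology

theorem large_sum {ι : Type} [Fintype ι] {v : ι → ℤ} {B : ℕ} (hB : ∀ i, |v i| ≤ B) (x : ℕ)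
    {N : Finset ℕ} (hN : ∀ n ∈ N, n ∈ Finset.Icc 1 x ∧ ∀ i, 0 < (n : ℤ) + v i)
    {S : Finset ℕ} (hS : ∀ p ∈ S, 0 < p) {a : ℕ → ℝ} (ha : ∀ p, 0 ≤ a p) :
    ∑ n ∈ N, ∑ i, ∑ p ∈ S, (if (p : ℤ) ∣ (n : ℤ) + v i then a p else 0) ≤
      Fintype.card ι * (x + B) * ∑ p ∈ S, a p / p := by
  have key : ∀ (i : ι), ∀ p ∈ S, ∑ n ∈ N, (if (p : ℤ) ∣ (n : ℤ) + v i then a p else 0) ≤
      (x + B) * (a p / p) := by
    intro i p hp
    have hp0 : (0 : ℝ) < (p : ℝ) := by exact_mod_cast hS p hp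
    rw [← Finset.sum_filter, Finset.sum_const, nsmul_eq_mul]
    have hcard : (N.filter fun n : ℕ => (p : ℤ) ∣ (n : ℤ) + v i).card ≤ (x + B) / p := by
      rw [← Nat.Ioc_filter_dvd_card_eq_div]
      refine Finset.card_le_card_of_injOn (fun n : ℕ => ((n : ℤ) + v i).toNat) (fun n hn => ?_)
        (fun n hn n' hn' h => ?_)
      · have hn1 := Finset.mem_filter.1 (Finset.mem_coe.1 hn)
        obtain ⟨h1, h2⟩ := hN n hn1.1
        have h3 := h2 i
        have h4 := (Finset.mem_Icc.1 h1).2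
        have h5 := (abs_le.1 (hB i)).2
        refine Finset.mem_coe.2 (Finset.mem_filter.2 ⟨Finset.mem_Ioc.2 ⟨?_, ?_⟩, ?_⟩)
        · show 0 < ((n : ℤ) + v i).toNat
          omega
        · show ((n : ℤ) + v i).toNat ≤ x + B
          omega
        · have h6 : (p : ℤ) ∣ ((((n : ℤ) + v i).toNat : ℕ) : ℤ) := by
            rw [Int.toNat_of_nonneg h3.le]
            exact hn1.2
          exact_mod_cast h6
      · have h3 := (hN n (Finset.mem_filter.1 (Finset.mem_coe.1 hn)).1).2 i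
        have h3' := (hN n' (Finset.mem_filter.1 (Finset.mem_coe.1 hn')).1).2 i
        have h' : ((n : ℤ) + v i).toNat = ((n' : ℤ) + v i).toNat := h
        omega
    have hcard' : ((N.filter fun n : ℕ => (p : ℤ) ∣ (n : ℤ) + v i).card : ℝ) ≤ (x + B) / p := by
      refine (Nat.cast_le.2 hcard).trans ?_
      refine Nat.cast_div_le.trans ?_
      push_cast
      exact le_rfl
    calc ((N.filter fun n : ℕ => (p : ℤ) ∣ (n : ℤ) + v i).card : ℝ) * a p
        ≤ (x + B) / p * a p := mul_le_mul_of_nonneg_right hcard' (ha p)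
      _ = (x + B) * (a p / p) := by ring
  calc ∑ n ∈ N, ∑ i, ∑ p ∈ S, (if (p : ℤ) ∣ (n : ℤ) + v i then a p else 0)
      = ∑ i, ∑ p ∈ S, ∑ n ∈ N, (if (p : ℤ) ∣ (n : ℤ) + v i then a p else 0) := by
        rw [Finset.sum_comm]
        refine Finset.sum_congr rfl fun i _ => ?_
        rw [Finset.sum_comm]
    _ ≤ ∑ _i : ι, ∑ p ∈ S, (x + B) * (a p / p) :=
        Finset.sum_le_sum fun i _ => Finset.sum_le_sum fun p hp => key i p hp
    _ = Fintype.card ι * (x + B) * ∑ p ∈ S, a p / p := by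
        rw [Finset.sum_const, Finset.card_univ, nsmul_eq_mul, ← Finset.mul_sum]
        ring

end Pool.Agent.Work.MP_58cfe3_nt
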