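import Pool.Agent.Work.MP_58cfe3_nt.SDefs

/-!
# MP_58cfe3_nt, block W: correlations along a set of scales

Definitions: correlations along a filter of scales, weakly pretentious functions, sets of scales of
loglog density one.
-/

set_option autoImplicit false

namespace Pool.Agent.Work.MP_58cfe3_nt

open Filter Topology

/-- The self-correlations of `g` over all `r`-dimensional cubes with `2 ^ r` distinct vertices
vanish logarithmically along the filter `l` of scales. -/
def CubesAt (l : Filter ℕ) (g : ℤ → ℂ) (r : ℕ) : Prop :=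
  ∀ e : Fin r → ℤ, Function.Injective (vert e) → Tendsto (Elog (cube g e)) l (𝓝 0)

/-- The logarithmic correlations of `g` with `r` ARBITRARY 1-bounded multiplicative companions
vanish along the filter `l` of scales, for all shifts (the shift of `g` different from the other
ones). -/
def UniversalAt (l : Filter ℕ) (g : ℤ → ℂ) (r : ℕ) : Prop :=
  ∀ f : Fin r → ℤ → ℂ, (∀ i, MulBdd (f i)) → ∀ (h : ℤ) (h' : Fin r → ℤ), (∀ i, h' i ≠ h) →
    Tendsto (Elog fun n => g (n + h) * ∏ i, f i (n + h' i)) l (𝓝 0)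

/-- The function `g` weakly pretends to be `n ↦ χ(n) n^(it)` for some Dirichlet character `χ` and
some real number `t`: the square of the distance is `o(log log X)`. -/
def WeakPret (g : ℤ → ℂ) : Prop :=
  ∃ (q : ℕ) (_ : NeZero q) (χ : DirichletCharacter ℂ q) (t : ℝ),
    Tendsto (fun X : ℕ => dist2 g χ t X / Real.log (Real.log X)) atTop (𝓝 0)

open Classical in
/-- The total weight `1/(X log X)` of the `X ≤ Y` which belong to `B`. -/
noncomputable def llw (B : Set ℕ) (Y : ℕ) : ℝ :=
  ∑ X ∈ (Finset.Icc 2 Y).filter (fun X => X ∈ B), 1 / ((X : ℝ) * Real.log X)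

/-- The set `B` of scales has loglog density zero. -/
def LLNull (B : Set ℕ) : Prop :=
  Tendsto (fun Y : ℕ => llw B Y / Real.log (Real.log Y)) atTop (𝓝 0)

/-- `g(p)` is close to `1` at the primes between `X ^ η` and `X`, along the filter `l` of scales -/
def NearAt (l : Filter ℕ) (g : ℤ → ℂ) : Prop :=
  ∀ η : ℝ, 0 < η → Tendsto (fun X : ℕ => ∑ p ∈ (Finset.Icc 1 X).filter
    (fun p : ℕ => p.Prime ∧ (X : ℝ) ^ η < p), (1 - (g p).re) / p) l (𝓝 0)

/-- the mass of `1 - Re (g(p) conj (χ(p) p^(it)))` between `X ^ η` and `X` -/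
noncomputable def mass (g : ℤ → ℂ) {q : ℕ} (χ : DirichletCharacter ℂ q) (t η : ℝ) (X : ℕ) : ℝ :=
  ∑ p ∈ (Finset.Icc 1 X).filter (fun p : ℕ => p.Prime ∧ (X : ℝ) ^ η < p), gap g χ t p / p

end Pool.Agent.Work.MP_58cfe3_nt
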