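import Pool.Agent.Work.MP_58cfe3_nt.LCls
import Pool.Agent.Work.MP_58cfe3_nt.LDefs
import Pool.Agent.Work.MP_58cfe3_nt.SExc
import Pool.Agent.Work.MP_58cfe3_nt.SLarge
import Pool.Agent.Work.MP_58cfe3_nt.SPt
import Pool.Agent.Work.MP_58cfe3_nt.WDefs
import Pool.Agent.Work.MP_58cfe3_nt.SSum

/-!
# Module LOrd: ordinary averages, for a family of functions (one for each scale)
-/

set_option autoImplicit false

namespace Pool.Agent.Work.MP_58cfe3_nt

open Filter Topology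

private theorem norm_cj (b : Bool) (z : ℂ) : ‖cj b z‖ = ‖z‖ := by
  unfold cj
  split_ifs
  · exact norm_star z
  · rfl

private theorem norm_prod_cj {ι : Type} [Fintype ι] (s : ι → Bool) (z : ι → ℂ)
    (hz : ∀ i, ‖z i‖ ≤ 1) : ‖∏ i, cj (s i) (z i)‖ ≤ 1 :=
  norm_prod_le_one _ _ fun i _ => by rw [norm_cj]; exact hz i

private theorem norm_FF {ι : Type} [Fintype ι] (v : ι → ℤ) (T : Finset ℕ) (u : ℕ → ι → ℂ)
    (hu : ∀ p i, ‖u p i‖ ≤ 1) (n : ℤ) : ‖FF v T u n‖ ≤ 1 := by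
  unfold FF
  refine norm_prod_le_one _ _ fun p _ => norm_prod_le_one _ _ fun i _ => ?_
  split_ifs
  · exact hu p i
  · rw [norm_one]

/-- splitting into residue classes -/
private theorem cls_split {q W : ℕ} (hq : 0 < q) (hW : 0 < W) (a : ℤ) (x : ℕ) {E : ℝ}
    (L F : ℤ → ℂ) (hL : ∀ n, ‖L n‖ ≤ 1) (hper : ∀ n m : ℤ, (W : ℤ) ∣ n - m → L n = L m)
    (hE : ∀ r : ℤ, ‖∑ n ∈ cls x (q * W) r, F n‖ ≤ E) :
    ‖∑ n ∈ cls x q a, L n * F n‖ ≤ (q * W : ℕ) * E := by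
  have hM : 0 < q * W := Nat.mul_pos hq hW
  have hE0 : 0 ≤ E := (norm_nonneg _).trans (hE 0)
  have h1 : ∑ n ∈ cls x q a, L n * F n = ∑ r ∈ Finset.range (q * W),
      ∑ n ∈ (cls x q a).filter (fun n => n % (q * W) = r), L n * F n := by
    refine (Finset.sum_fiberwise_of_maps_to (fun n _ => ?_) _).symm
    exact Finset.mem_range.2 (Nat.mod_lt n hM)
  rw [h1]
  refine (norm_sum_le _ _).trans ?_
  have h2 : ∀ r ∈ Finset.range (q * W),
      ‖∑ n ∈ (cls x q a).filter (fun n => n % (q * W) = r), L n * F n‖ ≤ E := by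
    intro r hr
    have hr' := Finset.mem_range.1 hr
    have key : ∀ n : ℕ, n % (q * W) = r ↔ ((q * W : ℕ) : ℤ) ∣ (n : ℤ) - r := by
      intro n
      constructor
      · intro h
        refine ⟨(n / (q * W) : ℕ), ?_⟩
        have h3 := Nat.div_add_mod n (q * W)
        rw [h] at h3
        have h4 : (n : ℤ) = ((q * W : ℕ) : ℤ) * ((n / (q * W) : ℕ) : ℤ) + r := by
          exact_mod_cast h3.symm
        rw [h4]
        ring
      · intro h
        have h3 : (n : ℤ) ≡ r [ZMOD ((q * W : ℕ) : ℤ)] := (Int.modEq_iff_dvd.2 h).symm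
        have h4 : n ≡ r [MOD q * W] := (Int.natCast_modEq_iff).1 h3
        rw [h4, Nat.mod_eq_of_lt hr']
    by_cases hqr : (q : ℤ) ∣ (r : ℤ) - a
    · have h3 : (cls x q a).filter (fun n => n % (q * W) = r) = cls x (q * W) r := by
        ext n
        unfold cls
        rw [Finset.mem_filter, Finset.mem_filter, Finset.mem_filter, key n]
        constructor
        · rintro ⟨⟨h4, _⟩, h5⟩
          exact ⟨h4, h5⟩
        · rintro ⟨h4, h5⟩
          refine ⟨⟨h4, ?_⟩, h5⟩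
          have h6 : (q : ℤ) ∣ (n : ℤ) - r := by
            refine Dvd.dvd.trans ?_ h5
            exact_mod_cast Dvd.intro W rfl
          have h7 := dvd_add h6 hqr
          rwa [sub_add_sub_cancel] at h7
      rw [h3]
      have h4 : ∑ n ∈ cls x (q * W) r, L n * F n = L r * ∑ n ∈ cls x (q * W) r, F n := by
        rw [Finset.mul_sum]
        refine Finset.sum_congr rfl fun n hn => ?_
        have h5 := (Finset.mem_filter.1 hn).2
        rw [hper n r]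
        refine Dvd.dvd.trans ?_ h5
        exact_mod_cast Dvd.intro_left q rfl
      rw [h4, norm_mul]
      calc ‖L r‖ * ‖∑ n ∈ cls x (q * W) r, F n‖ ≤ 1 * E :=
            mul_le_mul (hL r) (hE r) (norm_nonneg _) zero_le_one
        _ = E := one_mul E
    · have h3 : (cls x q a).filter (fun n => n % (q * W) = r) = ∅ := by
        refine Finset.filter_eq_empty_iff.2 fun n hn h4 => hqr ?_
        have h5 := (Finset.mem_filter.1 hn).2
        have h6 : (q : ℤ) ∣ (n : ℤ) - r := by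
          refine Dvd.dvd.trans ?_ ((key n).1 h4)
          exact_mod_cast Dvd.intro W rfl
        have h7 := dvd_sub h5 h6
        rwa [sub_sub_sub_cancel_left] at h7
      rw [h3, Finset.sum_empty, norm_zero]
      exact hE0
  refine (Finset.sum_le_card_nsmul _ _ _ h2).trans (le_of_eq ?_)
  rw [Finset.card_range, nsmul_eq_mul]

open Classical in
/-- the approximation -/
private theorem approx {g : ℤ → ℂ} (hg : MulBdd g) {ι : Type} [Fintype ι] {v : ι → ℤ}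
    (s : ι → Bool) {B : ℕ} (hB : ∀ i, |v i| ≤ B) {w A x : ℕ} {θ : ℝ} (hθ : 0 < θ) (hθ' : θ ≤ 1)
    {q : ℕ} (a : ℤ) :
    ‖∑ n ∈ cls x q a, ((∏ i, cj (s i) (g (n + v i))) -
      (∏ i, cj (s i) (g (Int.gcd (n + v i) ((primorial w ^ A : ℕ) : ℤ)))) *
        FF v (TT w x θ) (fun p i => cj (s i) (g p)) n)‖ ≤
      Fintype.card ι * (x + B) * (∑ p ∈ LL x B θ, ‖1 - g p‖ / p) + 2 * ecount v w A x := by
  refine (norm_sum_le _ _).trans ?_
  rw [← Finset.sum_filter_add_sum_filter_not (cls x q a) (fun n : ℕ => Good v w A n)]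
  refine add_le_add ?_ ?_
  · have h1 : ∀ n ∈ (cls x q a).filter (fun n : ℕ => Good v w A n),
        ‖(∏ i, cj (s i) (g (n + v i))) -
          (∏ i, cj (s i) (g (Int.gcd (n + v i) ((primorial w ^ A : ℕ) : ℤ)))) *
          FF v (TT w x θ) (fun p i => cj (s i) (g p)) n‖ ≤
          ∑ i, ∑ p ∈ LL x B θ, if (p : ℤ) ∣ (n : ℤ) + v i then ‖1 - g p‖ else 0 := by
      intro n hn
      obtain ⟨h2, h3⟩ := Finset.mem_filter.1 hn
      exact pt_bound hg s hB hθ hθ' (Finset.mem_filter.1 h2).1 h3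
    refine (Finset.sum_le_sum h1).trans ?_
    refine large_sum hB x (fun n hn => ?_) (fun p hp => ?_) (a := fun p => ‖1 - g p‖)
      (fun p => norm_nonneg _)
    · obtain ⟨h2, h3⟩ := Finset.mem_filter.1 hn
      exact ⟨(Finset.mem_filter.1 h2).1, fun i => (h3 i).1⟩
    · exact ((Finset.mem_filter.1 hp).2.1).pos
  · have h1 : ∀ n ∈ (cls x q a).filter (fun n : ℕ => ¬ Good v w A n),
        ‖(∏ i, cj (s i) (g (n + v i))) -
          (∏ i, cj (s i) (g (Int.gcd (n + v i) ((primorial w ^ A : ℕ) : ℤ)))) *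
          FF v (TT w x θ) (fun p i => cj (s i) (g p)) n‖ ≤ 2 := by
      intro n _
      refine (norm_sub_le _ _).trans ?_
      have h2 : ‖∏ i, cj (s i) (g (n + v i))‖ ≤ 1 := norm_prod_cj s _ fun i => hg.bdd _
      have h3 : ‖(∏ i, cj (s i) (g (Int.gcd (n + v i) ((primorial w ^ A : ℕ) : ℤ)))) *
          FF v (TT w x θ) (fun p i => cj (s i) (g p)) n‖ ≤ 1 := by
        rw [norm_mul]
        exact mul_le_one₀ (norm_prod_cj s _ fun i => hg.bdd _) (norm_nonneg _)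
          (norm_FF _ _ _ (fun p i => by rw [norm_cj]; exact hg.bdd _) _)
      linarith
    refine (Finset.sum_le_card_nsmul _ _ _ h1).trans ?_
    rw [nsmul_eq_mul, mul_comm]
    refine mul_le_mul_of_nonneg_left ?_ (by norm_num)
    unfold ecount
    have h2 : (cls x q a).filter (fun n : ℕ => ¬ Good v w A n) ⊆
        (Finset.Icc 1 x).filter fun n : ℕ => ¬ Good v w A n :=
      Finset.filter_subset_filter _ (Finset.filter_subset _ _)
    exact_mod_cast Finset.card_le_card h2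

private theorem LOrd.sq_le {z : ℂ} (h : ‖z‖ ≤ 1) : ‖1 - z‖ ^ 2 ≤ 2 * (1 - z.re) := by
  have h1 : ‖1 - z‖ ^ 2 = (1 - z.re) ^ 2 + z.im ^ 2 := by
    rw [← Complex.normSq_eq_norm_sq, Complex.normSq_apply]
    simp
    ring
  have h2 : z.re ^ 2 + z.im ^ 2 ≤ 1 := by
    have h3 : ‖z‖ ^ 2 = z.re ^ 2 + z.im ^ 2 := by
      rw [← Complex.normSq_eq_norm_sq, Complex.normSq_apply]
      ring
    rw [← h3]
    exact pow_le_one₀ (norm_nonneg _) h
  rw [h1]
  nlinarith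

private theorem LOrd.re_le {z : ℂ} (h : ‖z‖ ≤ 1) : 0 ≤ 1 - z.re := by
  have := (Complex.re_le_norm z).trans h
  linarith

private theorem LOrd.norm_le {z : ℂ} (h : ‖z‖ ≤ 1) : ‖1 - z‖ ≤ 2 := by
  refine (norm_sub_le _ _).trans ?_
  rw [norm_one]
  linarith

/-- the large primes -/
private theorem large_fam {G : ℕ → ℤ → ℂ} (hb : ∀ X n, ‖G X n‖ ≤ 1) {l : Filter ℕ} (hl : l ≤ atTop)
    (hn : ∀ η : ℝ, 0 < η → Tendsto (fun X : ℕ => ∑ p ∈ (Finset.Icc 1 X).filter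
      (fun p : ℕ => p.Prime ∧ (X : ℝ) ^ η < p), (1 - (G X p).re) / p) l (𝓝 0))
    {θ : ℝ} (h0 : 0 < θ) (h1 : θ ≤ 1) (B : ℕ) {ε δ : ℝ} (hε : 0 < ε)
    (hε1 : ε ≤ 1) (hδ : 0 < δ) :
    ∀ᶠ X : ℕ in l, ∀ x : ℕ, (X : ℝ) ^ ε ≤ x → x ≤ X → ∑ p ∈ LL x B θ, ‖1 - G X p‖ / p ≤ δ := by
  have hη : 0 < ε * θ := by positivity
  have hη1 : ε * θ ≤ 1 := mul_le_one₀ hε1 h0.le h1
  set K : ℝ := Real.log (1 / (ε * θ)) + 1 with hK
  have hsq : Tendsto (fun X : ℕ => Real.sqrt (2 * (∑ p ∈ (Finset.Icc 1 X).filter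
      (fun p : ℕ => p.Prime ∧ (X : ℝ) ^ (ε * θ) < p), (1 - (G X p).re) / p) * K)) l (𝓝 0) := by
    have h2 := ((hn (ε * θ) hη).const_mul 2).mul_const K
    have h3 := (Real.continuous_sqrt.tendsto _).comp h2
    simp only [mul_zero, zero_mul, Real.sqrt_zero] at h3
    exact h3
  have hB : Tendsto (fun X : ℕ => 2 * (B : ℝ) / (X : ℝ)) atTop (𝓝 0) :=
    tendsto_const_nhds.div_atTop tendsto_natCast_atTop_atTop
  filter_upwards [hl (mert_win hη hη1), hsq.eventually (ge_mem_nhds (half_pos hδ)),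
    hl (hB.eventually (ge_mem_nhds (half_pos hδ))), hl (eventually_ge_atTop 1)]
    with X hw hs hBX hX1 x hx hxX
  have hXr : (1 : ℝ) ≤ X := by exact_mod_cast hX1
  set Q := (Finset.Icc 1 X).filter (fun p : ℕ => p.Prime ∧ (X : ℝ) ^ (ε * θ) < p) with hQ
  have hsub : LL x B θ ⊆ Q ∪ Finset.Ioc X (X + B) := by
    intro p hp
    simp only [LL, Finset.mem_filter, Finset.mem_Icc] at hp
    rw [Finset.mem_union]
    by_cases hpX : p ≤ X
    · left
      rw [hQ, Finset.mem_filter, Finset.mem_Icc]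
      refine ⟨⟨hp.1.1, hpX⟩, hp.2.1, lt_of_le_of_lt ?_ hp.2.2⟩
      rw [Real.rpow_mul (Nat.cast_nonneg _)]
      exact Real.rpow_le_rpow (by positivity) hx h0.le
    · right
      rw [Finset.mem_Ioc]
      omega
  have hcs : (∑ p ∈ Q, ‖1 - G X p‖ / p) ^ 2 ≤
      (∑ p ∈ Q, ‖1 - G X p‖ ^ 2 / (p : ℝ)) * ∑ p ∈ Q, 1 / (p : ℝ) := by
    refine Finset.sum_sq_le_sum_mul_sum_of_sq_le_mul Q (fun p _ => by positivity)
      (fun p _ => by positivity) (fun p _ => le_of_eq (by ring))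
  have hA : ∑ p ∈ Q, ‖1 - G X p‖ ^ 2 / (p : ℝ) ≤ 2 * ∑ p ∈ Q, (1 - (G X p).re) / p := by
    rw [Finset.mul_sum]
    refine Finset.sum_le_sum fun p _ => ?_
    rw [← mul_div_assoc]
    exact div_le_div_of_nonneg_right (LOrd.sq_le (hb X p)) (Nat.cast_nonneg _)
  have hnn : 0 ≤ ∑ p ∈ Q, (1 - (G X p).re) / (p : ℝ) :=
    Finset.sum_nonneg fun p _ => div_nonneg (LOrd.re_le (hb X p)) (Nat.cast_nonneg _)
  have hQs : ∑ p ∈ Q, ‖1 - G X p‖ / p ≤ δ / 2 := by
    refine le_trans (Real.le_sqrt_of_sq_le (hcs.trans ?_)) hs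
    exact mul_le_mul hA hw (Finset.sum_nonneg fun p _ => by positivity) (by positivity)
  have hIs : ∑ p ∈ Finset.Ioc X (X + B), ‖1 - G X p‖ / (p : ℝ) ≤ δ / 2 := by
    have h2 : ∀ p ∈ Finset.Ioc X (X + B), ‖1 - G X p‖ / (p : ℝ) ≤ 2 / X := by
      intro p hp
      have h3 : (X : ℝ) ≤ p := by exact_mod_cast (Finset.mem_Ioc.1 hp).1.le
      exact div_le_div₀ (by norm_num) (LOrd.norm_le (hb X p)) (by linarith) h3
    refine (Finset.sum_le_card_nsmul _ _ _ h2).trans (le_trans (le_of_eq ?_) hBX)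
    rw [Nat.card_Ioc, nsmul_eq_mul]
    simp
    ring
  calc ∑ p ∈ LL x B θ, ‖1 - G X p‖ / (p : ℝ) ≤ ∑ p ∈ Q ∪ Finset.Ioc X (X + B), ‖1 - G X p‖ / (p : ℝ) :=
        Finset.sum_le_sum_of_subset_of_nonneg hsub fun p _ _ =>
          div_nonneg (norm_nonneg _) (Nat.cast_nonneg _)
    _ ≤ ∑ p ∈ Q, ‖1 - G X p‖ / (p : ℝ) + ∑ p ∈ Finset.Ioc X (X + B), ‖1 - G X p‖ / (p : ℝ) := by
        rw [← Finset.sum_union_inter]
        exact le_add_of_nonneg_right (Finset.sum_nonneg fun p _ =>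
          div_nonneg (norm_nonneg _) (Nat.cast_nonneg _))
    _ ≤ δ := by linarith

/-- the middle primes -/
private theorem mid_fam {G : ℕ → ℤ → ℂ} (hb : ∀ X n, ‖G X n‖ ≤ 1) {l : Filter ℕ} (hl : l ≤ atTop)
    (hn : ∀ η : ℝ, 0 < η → Tendsto (fun X : ℕ => ∑ p ∈ (Finset.Icc 1 X).filter
      (fun p : ℕ => p.Prime ∧ (X : ℝ) ^ η < p), (1 - (G X p).re) / p) l (𝓝 0))
    (hf : Tendsto (fun X : ℕ => ∑ p ∈ (Finset.Icc 1 X).filter Nat.Prime, (1 - (G X p).re) / p)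
      l atTop)
    {θ : ℝ} (h0 : 0 < θ) (h1 : θ ≤ 1) (w : ℕ) (K : ℝ) {ε : ℝ} (hε : 0 < ε) :
    ∀ᶠ X : ℕ in l, ∀ x : ℕ, (X : ℝ) ^ ε ≤ x → x ≤ X →
      K ≤ ∑ p ∈ TT w x θ, (1 - (G X p).re) / p := by
  have hη : 0 < ε * θ := by positivity
  filter_upwards [(hn (ε * θ) hη).eventually (ge_mem_nhds one_pos),
    hf.eventually_ge_atTop (K + 1 + 2 * w), hl (eventually_ge_atTop 1)] with X hX1 hX2 hX0 x hx hxX
  have hX0' : (1 : ℝ) ≤ X := by exact_mod_cast hX0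
  have hx1 : (1 : ℝ) ≤ x := (Real.one_le_rpow hX0' hε.le).trans hx
  have hnn : ∀ p : ℕ, 0 ≤ (1 - (G X p).re) / (p : ℝ) := fun p =>
    div_nonneg (LOrd.re_le (hb X p)) (Nat.cast_nonneg _)
  have hsub : (Finset.Icc 1 X).filter Nat.Prime ⊆ TT w x θ ∪ ((Finset.Icc 1 w) ∪
      (Finset.Icc 1 X).filter (fun p : ℕ => p.Prime ∧ (X : ℝ) ^ (ε * θ) < p)) := by
    intro p hp
    rw [Finset.mem_filter, Finset.mem_Icc] at hp
    rw [Finset.mem_union, Finset.mem_union, TT, Finset.mem_filter, Finset.mem_filter,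
      Finset.mem_Icc, Finset.mem_Icc, Finset.mem_Icc]
    by_cases h2 : p ≤ w
    · exact Or.inr (Or.inl ⟨hp.1.1, h2⟩)
    · by_cases h3 : (X : ℝ) ^ (ε * θ) < p
      · exact Or.inr (Or.inr ⟨hp.1, hp.2, h3⟩)
      · left
        have h4 : (p : ℝ) ≤ (x : ℝ) ^ θ := by
          refine (not_lt.1 h3).trans ?_
          rw [Real.rpow_mul (Nat.cast_nonneg _)]
          exact Real.rpow_le_rpow (by positivity) hx h0.le
        have h5 : (x : ℝ) ^ θ ≤ x := by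
          calc (x : ℝ) ^ θ ≤ (x : ℝ) ^ (1 : ℝ) := Real.rpow_le_rpow_of_exponent_le hx1 h1
            _ = x := Real.rpow_one _
        have h6 : p ≤ x := by exact_mod_cast h4.trans h5
        exact ⟨⟨hp.1.1, h6⟩, hp.2, not_le.1 h2, h4⟩
  have h2 := Finset.sum_le_sum_of_subset_of_nonneg hsub fun p _ _ => hnn p
  have h3 : ∀ S T : Finset ℕ, ∑ p ∈ S ∪ T, (1 - (G X p).re) / (p : ℝ) ≤
      ∑ p ∈ S, (1 - (G X p).re) / (p : ℝ) + ∑ p ∈ T, (1 - (G X p).re) / (p : ℝ) := by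
    intro S T
    rw [← Finset.sum_union_inter]
    exact le_add_of_nonneg_right (Finset.sum_nonneg fun p _ => hnn p)
  have h4 := h3 (TT w x θ) ((Finset.Icc 1 w) ∪
      (Finset.Icc 1 X).filter (fun p : ℕ => p.Prime ∧ (X : ℝ) ^ (ε * θ) < p))
  have h5 := h3 (Finset.Icc 1 w)
      ((Finset.Icc 1 X).filter (fun p : ℕ => p.Prime ∧ (X : ℝ) ^ (ε * θ) < p))
  have h6 : ∑ p ∈ Finset.Icc 1 w, (1 - (G X p).re) / (p : ℝ) ≤ 2 * w := by
    have h7 : ∀ p ∈ Finset.Icc 1 w, (1 - (G X p).re) / (p : ℝ) ≤ 2 := by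
      intro p hp
      have h8 : (1 : ℝ) ≤ p := by exact_mod_cast (Finset.mem_Icc.1 hp).1
      have h9 := (Complex.abs_re_le_norm (G X p)).trans (hb X p)
      have h10 := (abs_le.1 h9).1
      rw [div_le_iff₀ (by linarith)]
      linarith
    refine (Finset.sum_le_card_nsmul _ _ _ h7).trans (le_of_eq ?_)
    rw [Nat.card_Icc, nsmul_eq_mul, Nat.add_sub_cancel, mul_comm]
  linarith

theorem ord_fam {G : ℕ → ℤ → ℂ} (hG : ∀ X, MulBdd (G X)) {l : Filter ℕ} (hl : l ≤ atTop)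
    (h1 : ∀ η : ℝ, 0 < η → Tendsto (fun X : ℕ => ∑ p ∈ (Finset.Icc 1 X).filter
      (fun p : ℕ => p.Prime ∧ (X : ℝ) ^ η < p), (1 - (G X p).re) / p) l (𝓝 0))
    (h2 : Tendsto (fun X : ℕ => ∑ p ∈ (Finset.Icc 1 X).filter Nat.Prime, (1 - (G X p).re) / p)
      l atTop) {ι : Type} [Fintype ι] [Nonempty ι] {v : ι → ℤ} (hv : Function.Injective v)
    (s : ι → Bool) {q : ℕ} (hq : 0 < q) (a : ℤ) {ε : ℝ} (hε : 0 < ε) (hε1 : ε ≤ 1) :
    ∀ᶠ X : ℕ in l, ∀ x : ℕ, (X : ℝ) ^ ε ≤ x → x ≤ X →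
      ‖∑ n ∈ cls x q a, ∏ i, cj (s i) (G X (n + v i))‖ ≤ ε * x := by
  have hbG : ∀ X n, ‖G X n‖ ≤ 1 := fun X n => (hG X).bdd n
  obtain ⟨B, hB⟩ : ∃ B : ℕ, ∀ i, |v i| ≤ B := by
    refine ⟨∑ i, (v i).natAbs, fun i => ?_⟩
    rw [Int.abs_eq_natAbs]
    exact_mod_cast Finset.single_le_sum (f := fun i => (v i).natAbs) (fun _ _ => Nat.zero_le _)
      (Finset.mem_univ i)
  have hκ : (0 : ℝ) < Fintype.card ι := by exact_mod_cast Fintype.card_pos
  obtain ⟨η, hη, hηε⟩ : ∃ η : ℝ, 0 < η ∧ 4 * η < ε := ⟨ε / 8, by positivity, by linarith⟩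
  obtain ⟨θ, hθ, hθ', K, w₀, hw₀⟩ := class_small_u hv hη
  obtain ⟨w₁, hw₁⟩ := exc_count v hη
  obtain ⟨w, hww⟩ : ∃ w : ℕ, w = max (max w₀ w₁) q := ⟨_, rfl⟩
  have hw0 : w₀ ≤ w := by omega
  have hw1 : w₁ ≤ w := by omega
  have hwq : q ≤ w := by omega
  obtain ⟨A, hA, x₁, hx₁⟩ := hw₁ w hw1
  have hW : 0 < primorial w ^ A := pow_pos (primorial_pos w) A
  have hprime : ∀ p : ℕ, p.Prime → p ∣ q * primorial w ^ A → p ≤ w := by
    intro p hp hd
    rcases hp.dvd_mul.1 hd with h3 | h3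
    · exact (Nat.le_of_dvd hq h3).trans hwq
    · have h4 := hp.dvd_of_dvd_pow h3
      unfold primorial at h4
      rw [hp.prime.dvd_finset_prod_iff] at h4
      obtain ⟨l, hl, h5⟩ := h4
      obtain ⟨h6, h7⟩ := Finset.mem_filter.1 hl
      rw [(Nat.prime_dvd_prime_iff_eq hp h7).1 h5]
      have := Finset.mem_range.1 h6
      omega
  obtain ⟨x₀, hx₀⟩ := hw₀ w hw0 (q * primorial w ^ A) (Nat.mul_pos hq hW) hprime
  have hδ : 0 < η / (2 * Fintype.card ι) := by positivity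
  have hpow : Tendsto (fun X : ℕ => (X : ℝ) ^ ε) atTop atTop :=
    (tendsto_rpow_atTop hε).comp tendsto_natCast_atTop_atTop
  filter_upwards [large_fam hbG hl h1 hθ hθ' B hε hε1 hδ,
    mid_fam hbG hl h1 h2 hθ hθ' w K hε,
    hl (hpow.eventually_ge_atTop ((max (max x₀ x₁) (max B 1) : ℕ) : ℝ))]
    with X hXl hXmid hXm x hxX1 hxX2
  have hg := hG X
  have hxm : max (max x₀ x₁) (max B 1) ≤ x := by exact_mod_cast hXm.trans hxX1
  have hx := hXl x hxX1 hxX2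
  have hx0 : x₀ ≤ x := by omega
  have hx1 : x₁ ≤ x := by omega
  have hxB : B ≤ x := by omega
  have hx2 : 1 ≤ x := by omega
  have hxpos : (0 : ℝ) < x := by exact_mod_cast hx2
  have hM0 : (0 : ℝ) < (q * primorial w ^ A : ℕ) := by exact_mod_cast Nat.mul_pos hq hW
  have e1 := approx hg s hB (w := w) (A := A) (x := x) hθ hθ' (q := q) a
  have e2 := cls_split (x := x) hq hW a
    (fun n => ∏ i, cj (s i) (G X (Int.gcd (n + v i) ((primorial w ^ A : ℕ) : ℤ))))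
    (fun n => FF v (TT w x θ) (fun p i => cj (s i) (G X p)) n)
    (fun n => norm_prod_cj s _ fun i => hg.bdd _)
    (fun n m hnm => by
      refine Finset.prod_congr rfl fun i _ => ?_
      have h3 : ((primorial w ^ A : ℕ) : ℤ) ∣ (n + v i) - (m + v i) := by
        rw [add_sub_add_right_eq_sub]
        exact hnm
      rw [gcd_congr h3])
    (fun r => hx₀ x hx0 (G X) hg.bdd (hXmid x hxX1 hxX2) s r)
  have e3 : ((q * primorial w ^ A : ℕ) : ℝ) * (η * (x / (q * primorial w ^ A : ℕ))) = η * x := by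
    field_simp
  rw [e3] at e2
  have e4 := hx₁ x hx1
  have e5 : (Fintype.card ι : ℝ) * (x + B) * (∑ p ∈ LL x B θ, ‖1 - G X p‖ / p) ≤ η * x := by
    have h3 : (B : ℝ) ≤ x := by exact_mod_cast hxB
    calc (Fintype.card ι : ℝ) * (x + B) * (∑ p ∈ LL x B θ, ‖1 - G X p‖ / p)
        ≤ (Fintype.card ι : ℝ) * (x + x) * (η / (2 * Fintype.card ι)) := by
          refine mul_le_mul ?_ hx (Finset.sum_nonneg fun p _ => by positivity) (by positivity)
          exact mul_le_mul_of_nonneg_left (by linarith) hκ.le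
      _ = η * x := by
          field_simp
          ring
  have e6 : ‖∑ n ∈ cls x q a, ∏ i, cj (s i) (G X (n + v i))‖ ≤ 4 * η * x := by
    have h3 : ∑ n ∈ cls x q a, ∏ i, cj (s i) (G X (n + v i)) =
        ∑ n ∈ cls x q a, ((∏ i, cj (s i) (G X (n + v i))) -
          (∏ i, cj (s i) (G X (Int.gcd (n + v i) ((primorial w ^ A : ℕ) : ℤ)))) *
          FF v (TT w x θ) (fun p i => cj (s i) (G X p)) n) +
        ∑ n ∈ cls x q a, (∏ i, cj (s i) (G X (Int.gcd (n + v i) ((primorial w ^ A : ℕ) : ℤ)))) *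
          FF v (TT w x θ) (fun p i => cj (s i) (G X p)) n := by
      rw [← Finset.sum_add_distrib]
      exact Finset.sum_congr rfl fun n _ => (sub_add_cancel _ _).symm
    rw [h3]
    refine (norm_add_le _ _).trans ?_
    linarith
  calc _ ≤ 4 * η * x := e6
    _ ≤ ε * x := (mul_lt_mul_of_pos_right hηε hxpos).le

end Pool.Agent.Work.MP_58cfe3_nt
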