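import Pool.Agent.Work.MP_58cfe3_nt.LMean

/-!
# Module LPer: multiplication by an almost periodic function, for a family of functions
-/

set_option autoImplicit false

namespace Pool.Agent.Work.MP_58cfe3_nt

open Filter Topology

theorem per_fam {l : Filter ℕ} (hl : l ≤ atTop) {δ : ℝ} (hδ : 0 < δ) (hδ1 : δ < 1)
    {F : ℕ → ℤ → ℂ} {Y : ℤ → ℂ} (hF : ∀ X n, ‖F X n‖ ≤ 1)
    (h : ∀ m : ℕ, 0 < m → ∀ a : ℤ,
      Tendsto (fun X => Wlog δ (fun n => if (m : ℤ) ∣ n - a then F X n else 0) X) l (𝓝 0))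
    (hap : ∀ η : ℝ, 0 < η → ∃ m : ℕ, 0 < m ∧ ∃ Z : ℤ → ℂ, (∀ n, ‖Z n‖ ≤ 1) ∧
      (∀ n, Z (n + m) = Z n) ∧
      ∀ᶠ X : ℕ in atTop, ‖Elog (fun n => ((‖Y n - Z n‖ : ℝ) : ℂ)) X‖ ≤ η) :
    Tendsto (fun X => Wlog δ (fun n => F X n * Y n) X) l (𝓝 0) := by
  rw [Metric.tendsto_nhds]
  intro ε hε
  have hd : 0 < 1 - δ := by linarith
  obtain ⟨m, hm, Z, hZ1, hZm, hev⟩ := hap (ε * (1 - δ) / 4) (by positivity)
  have hper : Function.Periodic Z (m : ℤ) := hZm
  have hmz : (m : ℤ) ≠ 0 := by exact_mod_cast hm.ne'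
  have hmz' : (0 : ℤ) < m := by exact_mod_cast hm
  have h1 : ∀ (X : ℕ) (n : ℤ), F X n * Z n = ∑ a ∈ Finset.range m, Z a *
      (if (m : ℤ) ∣ n - a then F X n else 0) := by
    intro X n
    have h2 : 0 ≤ n % m := Int.emod_nonneg _ hmz
    have h3 : n % m < m := Int.emod_lt_of_pos _ hmz'
    have h4 : ((n % m).toNat : ℤ) = n % m := Int.toNat_of_nonneg h2
    rw [Finset.sum_eq_single (n % m).toNat]
    · rw [h4, if_pos (Int.dvd_self_sub_emod)]
      have h5 : Z n = Z (n % m) := by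
        conv_lhs => rw [← Int.emod_add_mul_ediv n m, mul_comm]
        exact hper.int_mul (n / m) _
      rw [h5, mul_comm]
    · intro b hb hne
      rw [if_neg, mul_zero]
      intro h5
      apply hne
      have h6 : n % m = b := by
        have h7 : n % m = (b : ℤ) % m :=
          (Int.emod_eq_emod_iff_emod_sub_eq_zero).2 (Int.emod_eq_zero_of_dvd h5)
        rw [h7]
        exact Int.emod_eq_of_lt (by positivity) (by exact_mod_cast Finset.mem_range.1 hb)
      rw [h6]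
      simp
    · intro h5
      exfalso
      apply h5
      rw [Finset.mem_range]
      omega
  have h2 : Tendsto (fun X => Wlog δ (fun n => F X n * Z n) X) l (𝓝 0) := by
    have h3 : Tendsto (fun X : ℕ => ∑ a ∈ Finset.range m, Z a *
        Wlog δ (fun n => if (m : ℤ) ∣ n - a then F X n else 0) X) l
        (𝓝 (∑ a ∈ Finset.range m, Z a * 0)) :=
      tendsto_finsetSum _ fun a _ => (h m hm a).const_mul (Z a)
    simp only [mul_zero, Finset.sum_const_zero] at h3
    refine h3.congr fun X => ?_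
    have h4 : (fun n => F X n * Z n) = fun n => ∑ a ∈ Finset.range m, Z a *
      (if (m : ℤ) ∣ n - a then F X n else 0) := funext (h1 X)
    rw [h4, wlog_sum]
    exact Finset.sum_congr rfl fun a _ => (wlog_smul _ _ _ _).symm
  rw [Metric.tendsto_nhds] at h2
  filter_upwards [hl hev, h2 (ε / 2) (by linarith), hl (wlog_le_elog hδ hδ1)] with X hX1 hX2 hX3
  rw [dist_zero_right] at hX2 ⊢
  have h3 : Wlog δ (fun n => F X n * Y n) X = Wlog δ (fun n => F X n * Z n) X +
      Wlog δ (fun n => F X n * (Y n - Z n)) X := by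
    rw [← wlog_add]
    congr 1
    funext n
    ring
  have h4 : ‖Wlog δ (fun n => F X n * (Y n - Z n)) X‖ ≤ ε / 2 := by
    refine (hX3 _ (fun n => ‖Y n - Z n‖) fun n => ?_).trans ?_
    · rw [norm_mul]
      exact mul_le_of_le_one_left (norm_nonneg _) (hF X n)
    · calc 2 / (1 - δ) * ‖Elog (fun n => ((‖Y n - Z n‖ : ℝ) : ℂ)) X‖
          ≤ 2 / (1 - δ) * (ε * (1 - δ) / 4) := mul_le_mul_of_nonneg_left hX1 (by positivity)
        _ = ε / 2 := by
          field_simp
          norm_num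
  rw [h3]
  calc _ ≤ _ := norm_add_le _ _
    _ < ε / 2 + ε / 2 := add_lt_add_of_lt_of_le hX2 h4
    _ = ε := by ring

end Pool.Agent.Work.MP_58cfe3_nt
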