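import Pool.Agent.Work.MP_58cfe3_nt.Basic

/-!
# Definitions of block S (slow functions)
-/

set_option autoImplicit false

namespace Pool.Agent.Work.MP_58cfe3_nt

open Filter Topology

/-- conjugation, if `b` is true -/
noncomputable def cj (b : Bool) (z : ℂ) : ℂ := if b then star z else z

/-- the natural numbers `n ≤ x` with `n ≡ r mod M` -/
def cls (x M : ℕ) (r : ℤ) : Finset ℕ := (Finset.Icc 1 x).filter fun n : ℕ => (M : ℤ) ∣ (n : ℤ) - r

/-- the local weight of the state `o` at the prime `p` (`none`: `p` divides no `n + v i`) -/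
noncomputable def lw {ι : Type} (κ p : ℕ) (o : Option ι) : ℝ :=
  match o with
  | none => 1 - κ / p
  | some _ => 1 / p

/-- the value of the state `o` at `p` -/
noncomputable def uv {ι : Type} (u : ℕ → ι → ℂ) (p : ℕ) (o : Option ι) : ℂ :=
  match o with
  | none => 1
  | some i => u p i

/-- `σ` is the divisibility pattern of `n` -/
def Match {ι : Type} (v : ι → ℤ) (T : Finset ℕ) (σ : T → Option ι) (n : ℤ) : Prop :=
  ∀ (p : T) (i : ι), ((p : ℕ) : ℤ) ∣ n + v i ↔ σ p = some i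

/-- the product of the primes `p ∈ T` with `σ p ≠ none` -/
noncomputable def pd {ι : Type} {T : Finset ℕ} (σ : T → Option ι) : ℕ :=
  ∏ p : T, Option.elim (σ p) 1 fun _ => (p : ℕ)

/-- the product of the local values at the primes of `T` -/
noncomputable def FF {ι : Type} [Fintype ι] (v : ι → ℤ) (T : Finset ℕ) (u : ℕ → ι → ℂ) (n : ℤ) : ℂ :=
  ∏ p ∈ T, ∏ i, if (p : ℤ) ∣ n + v i then u p i else 1

/-- admissible sets of primes -/
structure TP {ι : Type} [Fintype ι] (v : ι → ℤ) (M z : ℕ) (T : Finset ℕ) : Prop where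
  prime : ∀ p ∈ T, p.Prime
  lt : ∀ p ∈ T, p < z
  big : ∀ p ∈ T, 2 * Fintype.card ι ≤ p
  cop : ∀ p ∈ T, Nat.Coprime p M
  inj : ∀ p ∈ T, ∀ i j, i ≠ j → ¬ (p : ℤ) ∣ v i - v j

/-- the number of `n ≤ x`, `n ≡ r mod M`, with the pattern `σ` -/
noncomputable def mcount {ι : Type} (v : ι → ℤ) {T : Finset ℕ} (M : ℕ) (r : ℤ) (x : ℕ)
    (σ : T → Option ι) : ℕ :=
  open Classical in ((cls x M r).filter fun n : ℕ => Match v T σ n).card

/-- the number of `n ≤ x`, `n ≡ r mod M`, with a large `T`-part of the product of the `n + v i` -/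
noncomputable def bcount {ι : Type} (v : ι → ℤ) (T : Finset ℕ) (M : ℕ) (r : ℤ) (x D : ℕ) : ℕ :=
  open Classical in
  ((cls x M r).filter fun n : ℕ => D < ∏ p ∈ T.filter (fun p : ℕ => ∃ i, (p : ℤ) ∣ n + v i), p).card

/-- the primes `p` with `w < p ≤ x ^ θ` (and `p ≤ x`) -/
noncomputable def TT (w x : ℕ) (θ : ℝ) : Finset ℕ :=
  (Finset.Icc 1 x).filter fun p : ℕ => p.Prime ∧ w < p ∧ (p : ℝ) ≤ (x : ℝ) ^ θ

/-- the primes `p ≤ x + B` with `p > x ^ θ` -/
noncomputable def LL (x B : ℕ) (θ : ℝ) : Finset ℕ :=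
  (Finset.Icc 1 (x + B)).filter fun p : ℕ => p.Prime ∧ (x : ℝ) ^ θ < p

/-- `g(p)` is close to `1` at the primes between `X ^ η` and `X` -/
def Near (g : ℤ → ℂ) : Prop :=
  ∀ η : ℝ, 0 < η → Tendsto (fun X : ℕ => ∑ p ∈ (Finset.Icc 1 X).filter
    (fun p : ℕ => p.Prime ∧ (X : ℝ) ^ η < p), (1 - (g p).re) / p) atTop (𝓝 0)

/-- the distance between `g` and `1` is infinite -/
def Far (g : ℤ → ℂ) : Prop :=
  Tendsto (fun X : ℕ => ∑ p ∈ (Finset.Icc 1 X).filter Nat.Prime, (1 - (g p).re) / p) atTop atTop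

/-- `n + v i` is positive, not divisible by a high power of a prime `≤ w` and not by the square of a
prime `> w`, for all `i` -/
def Good {ι : Type} (v : ι → ℤ) (w A : ℕ) (n : ℤ) : Prop :=
  ∀ i, 0 < n + v i ∧ (∀ p : ℕ, p.Prime → p ≤ w → ¬ (p : ℤ) ^ A ∣ n + v i) ∧
    ∀ p : ℕ, p.Prime → w < p → ¬ (p : ℤ) ^ 2 ∣ n + v i

/-- the number of `n ≤ x` which are not `Good` -/
noncomputable def ecount {ι : Type} (v : ι → ℤ) (w A x : ℕ) : ℕ :=
  open Classical in ((Finset.Icc 1 x).filter fun n : ℕ => ¬ Good v w A n).card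

/-- the completely multiplicative function which is `χ(p)` at the primes `p` not dividing `q` and `1`
at the primes dividing `q` -/
noncomputable def xs {q : ℕ} (χ : DirichletCharacter ℂ q) (n : ℤ) : ℂ :=
  ∏ p ∈ n.toNat.primeFactors, (if p ∣ q then 1 else χ p) ^ (n.toNat.factorization p)

/-- `g` untwisted by `χ(n) n^(it)` -/
noncomputable def unt (g : ℤ → ℂ) {q : ℕ} (χ : DirichletCharacter ℂ q) (t : ℝ) : ℤ → ℂ :=
  twist g Set.univ fun p => star ((if p ∣ q then 1 else χ p) * (p : ℂ) ^ ((t : ℂ) * Complex.I))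

end Pool.Agent.Work.MP_58cfe3_nt
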