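import Pool.Agent.Work.MP_58cfe3_nt.LDefs
import Pool.Agent.Work.MP_58cfe3_nt.SDefs

/-!
# Module LPow: the archimedean factor of an r-cube at `n` is `1 + O(|t| / n ^ r)`
-/

set_option autoImplicit false

namespace Pool.Agent.Work.MP_58cfe3_nt

open Filter Topology

/-- finite differences of order `S.card` kill powers of smaller exponent -/
private theorem alt_pow {ι : Type*} [DecidableEq ι] (e : ι → ℝ) (S : Finset ι) :
    ∀ (x : ℝ) (j : ℕ), j < S.card →
      ∑ A ∈ S.powerset, (-1 : ℝ) ^ A.card * (x + ∑ i ∈ A, e i) ^ j = 0 := by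
  induction S using Finset.induction_on with
  | empty => intro x j hj; simp at hj
  | insert a S ha ih =>
    intro x j hj
    rw [Finset.card_insert_of_notMem ha] at hj
    rw [Finset.sum_powerset_insert ha, ← Finset.sum_add_distrib]
    have h1 : ∀ A ∈ S.powerset, (-1 : ℝ) ^ A.card * (x + ∑ i ∈ A, e i) ^ j +
        (-1 : ℝ) ^ (insert a A).card * (x + ∑ i ∈ insert a A, e i) ^ j =
        ∑ i ∈ Finset.range j, -((j.choose i : ℝ) * e a ^ (j - i)) *
          ((-1 : ℝ) ^ A.card * (x + ∑ i ∈ A, e i) ^ i) := by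
      intro A hA
      have hA' : a ∉ A := fun h => ha (Finset.mem_powerset.1 hA h)
      rw [Finset.card_insert_of_notMem hA', Finset.sum_insert hA', pow_succ]
      have h2 : (x + (e a + ∑ i ∈ A, e i)) ^ j = ∑ i ∈ Finset.range (j + 1),
          (x + ∑ i ∈ A, e i) ^ i * e a ^ (j - i) * (j.choose i : ℝ) := by
        rw [← add_pow]
        ring
      rw [h2, Finset.sum_range_succ, Nat.choose_self, Nat.sub_self]
      have h3 : ∑ i ∈ Finset.range j, -((j.choose i : ℝ) * e a ^ (j - i)) *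
          ((-1 : ℝ) ^ A.card * (x + ∑ i ∈ A, e i) ^ i) =
          -((-1 : ℝ) ^ A.card * ∑ i ∈ Finset.range j,
          (x + ∑ i ∈ A, e i) ^ i * e a ^ (j - i) * (j.choose i : ℝ)) := by
        rw [Finset.mul_sum, ← Finset.sum_neg_distrib]
        refine Finset.sum_congr rfl fun i _ => ?_
        ring
      rw [h3]
      push_cast
      ring
    rw [Finset.sum_congr rfl h1, Finset.sum_comm]
    refine Finset.sum_eq_zero fun i hi => ?_
    rw [← Finset.mul_sum, ih x i (by have := Finset.mem_range.1 hi; omega), mul_zero]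

theorem vert_alt {r : ℕ} (e : Fin r → ℤ) {j : ℕ} (hj : j < r) :
    ∑ A : Finset (Fin r), (-1 : ℝ) ^ A.card * (vert e A : ℝ) ^ j = 0 := by
  have h1 := alt_pow (fun i => (e i : ℝ)) (Finset.univ : Finset (Fin r)) 0 j (by simpa using hj)
  rw [Finset.powerset_univ] at h1
  rw [← h1]
  refine Finset.sum_congr rfl fun A _ => ?_
  rw [zero_add]
  unfold vert
  push_cast
  rfl

/-- the alternating sum of the logarithms -/
theorem vert_log {r : ℕ} (hr : 1 ≤ r) (e : Fin r → ℤ) :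
    ∃ C : ℝ, 0 ≤ C ∧ ∃ B : ℕ, (∀ A, |vert e A| ≤ B) ∧ ∀ n : ℕ, 2 * B < n →
      |∑ A : Finset (Fin r), (-1 : ℝ) ^ A.card * Real.log ((n : ℝ) + (vert e A : ℝ))| ≤
        C / (n : ℝ) ^ r := by
  obtain ⟨B, hB⟩ : ∃ B : ℕ, ∀ A, |vert e A| ≤ B := by
    refine ⟨∑ A, (vert e A).natAbs, fun A => ?_⟩
    rw [Int.abs_eq_natAbs]
    exact_mod_cast Finset.single_le_sum (f := fun A => (vert e A).natAbs)
      (fun _ _ => Nat.zero_le _) (Finset.mem_univ A)
  refine ⟨∑ _A : Finset (Fin r), 2 * (B : ℝ) ^ r, by positivity, B, hB, fun n hn => ?_⟩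
  have hn0 : 0 < n := by omega
  have hnr : (0 : ℝ) < n := by exact_mod_cast hn0
  have hBn : 2 * (B : ℝ) < n := by exact_mod_cast hn
  obtain ⟨s, rfl⟩ : ∃ s, r = s + 1 := ⟨r - 1, by omega⟩
  -- expansion of one logarithm
  have hx : ∀ A : Finset (Fin (s + 1)), |-((vert e A : ℝ) / n)| ≤ B / n := by
    intro A
    rw [abs_neg, abs_div, abs_of_pos hnr]
    refine div_le_div_of_nonneg_right ?_ hnr.le
    exact_mod_cast hB A
  have hBn2 : (B : ℝ) / n ≤ 1 / 2 := by
    rw [div_le_iff₀ hnr]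
    linarith
  have h1 : ∀ A : Finset (Fin (s + 1)), |∑ i ∈ Finset.range s,
      (-((vert e A : ℝ) / n)) ^ (i + 1) / ((i : ℝ) + 1) +
        Real.log (1 - -((vert e A : ℝ) / n))| ≤ 2 * (B : ℝ) ^ (s + 1) / n ^ (s + 1) := by
    intro A
    have h2 := Real.abs_log_sub_add_sum_range_le (x := -((vert e A : ℝ) / n))
      (by have := hx A; linarith) s
    refine h2.trans ?_
    have h3 : 1 / 2 ≤ 1 - |-((vert e A : ℝ) / n)| := by
      have := hx A
      linarith
    have h4 : |-((vert e A : ℝ) / n)| ^ (s + 1) ≤ (B / n : ℝ) ^ (s + 1) :=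
      pow_le_pow_left₀ (abs_nonneg _) (hx A) _
    rw [div_le_iff₀ (by linarith)]
    have h5 : (0 : ℝ) ≤ (B / n : ℝ) ^ (s + 1) := by positivity
    have h6 : 2 * (B : ℝ) ^ (s + 1) / n ^ (s + 1) = 2 * (B / n : ℝ) ^ (s + 1) := by
      rw [div_pow]
      ring
    rw [h6]
    nlinarith
  have hlog : ∀ A : Finset (Fin (s + 1)), Real.log ((n : ℝ) + (vert e A : ℝ)) =
      Real.log n + Real.log (1 - -((vert e A : ℝ) / n)) := by
    intro A
    have h2 : 0 < 1 - -((vert e A : ℝ) / n) := by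
      have h3 := hx A
      have h4 := le_abs_self (-((vert e A : ℝ) / n))
      linarith
    rw [← Real.log_mul hnr.ne' h2.ne']
    congr 1
    field_simp
    ring
  have h0 : ∑ A : Finset (Fin (s + 1)), (-1 : ℝ) ^ A.card * Real.log n = 0 := by
    have h2 := vert_alt e (j := 0) (Nat.succ_pos s)
    simp only [pow_zero, mul_one] at h2
    rw [← Finset.sum_mul, h2, zero_mul]
  have hpoly : ∑ A : Finset (Fin (s + 1)), (-1 : ℝ) ^ A.card *
      ∑ i ∈ Finset.range s, (-((vert e A : ℝ) / n)) ^ (i + 1) / ((i : ℝ) + 1) = 0 := by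
    have h2 : ∀ A : Finset (Fin (s + 1)), (-1 : ℝ) ^ A.card *
        ∑ i ∈ Finset.range s, (-((vert e A : ℝ) / n)) ^ (i + 1) / ((i : ℝ) + 1) =
        ∑ i ∈ Finset.range s, ((-1 / n : ℝ) ^ (i + 1) / ((i : ℝ) + 1)) *
          ((-1 : ℝ) ^ A.card * (vert e A : ℝ) ^ (i + 1)) := by
      intro A
      rw [Finset.mul_sum]
      refine Finset.sum_congr rfl fun i _ => ?_
      rw [show -((vert e A : ℝ) / n) = (-1 / n) * (vert e A : ℝ) by ring, mul_pow]
      ring
    rw [Finset.sum_congr rfl fun A _ => h2 A, Finset.sum_comm]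
    refine Finset.sum_eq_zero fun i hi => ?_
    rw [← Finset.mul_sum, vert_alt e (by have := Finset.mem_range.1 hi; omega), mul_zero]
  have hfin : ∑ A : Finset (Fin (s + 1)), (-1 : ℝ) ^ A.card *
      Real.log ((n : ℝ) + (vert e A : ℝ)) =
      ∑ A : Finset (Fin (s + 1)), (-1 : ℝ) ^ A.card * (∑ i ∈ Finset.range s,
        (-((vert e A : ℝ) / n)) ^ (i + 1) / ((i : ℝ) + 1) +
          Real.log (1 - -((vert e A : ℝ) / n))) := by
    have h2 : ∀ A : Finset (Fin (s + 1)), (-1 : ℝ) ^ A.card * (∑ i ∈ Finset.range s,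
        (-((vert e A : ℝ) / n)) ^ (i + 1) / ((i : ℝ) + 1) +
          Real.log (1 - -((vert e A : ℝ) / n))) =
        (-1 : ℝ) ^ A.card * ∑ i ∈ Finset.range s,
          (-((vert e A : ℝ) / n)) ^ (i + 1) / ((i : ℝ) + 1) +
        ((-1 : ℝ) ^ A.card * Real.log ((n : ℝ) + (vert e A : ℝ)) -
          (-1 : ℝ) ^ A.card * Real.log n) := by
      intro A
      rw [hlog A]
      ring
    rw [Finset.sum_congr rfl fun A _ => h2 A, Finset.sum_add_distrib, Finset.sum_sub_distrib,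
      hpoly, h0]
    ring
  rw [hfin]
  refine (Finset.abs_sum_le_sum_abs _ _).trans ?_
  rw [Finset.sum_div]
  refine Finset.sum_le_sum fun A _ => ?_
  rw [abs_mul, abs_pow, abs_neg, abs_one, one_pow, one_mul]
  exact h1 A

/-- the archimedean factor -/
theorem vert_arch {r : ℕ} (hr : 1 ≤ r) (e : Fin r → ℤ) :
    ∃ C : ℝ, 0 ≤ C ∧ ∃ B : ℕ, (∀ A, |vert e A| ≤ B) ∧ ∀ (n : ℕ) (t : ℝ), 2 * B < n →
      ‖(∏ A : Finset (Fin r), cj (!decide (Even A.card))
        ((((n : ℤ) + vert e A : ℤ) : ℂ) ^ ((t : ℂ) * Complex.I))) - 1‖ ≤ |t| * C / (n : ℝ) ^ r := by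
  obtain ⟨C, hC, B, hB, h⟩ := vert_log hr e
  refine ⟨C, hC, B, hB, fun n t hn => ?_⟩
  have hfac : ∀ A : Finset (Fin r), cj (!decide (Even A.card))
      ((((n : ℤ) + vert e A : ℤ) : ℂ) ^ ((t : ℂ) * Complex.I)) =
      Complex.exp ((((-1 : ℝ) ^ A.card * Real.log ((n : ℝ) + (vert e A : ℝ)) : ℝ) : ℂ) *
        ((t : ℂ) * Complex.I)) := by
    intro A
    have hpos : (0 : ℤ) < (n : ℤ) + vert e A := by
      have := (abs_le.1 (hB A)).1
      omega
    have hposR : (0 : ℝ) < (n : ℝ) + (vert e A : ℝ) := by exact_mod_cast hpos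
    have hne : ((((n : ℤ) + vert e A : ℤ) : ℂ)) ≠ 0 := by exact_mod_cast hpos.ne'
    have hl : Complex.log (((n : ℤ) + vert e A : ℤ) : ℂ) =
        ((Real.log ((n : ℝ) + (vert e A : ℝ)) : ℝ) : ℂ) := by
      rw [Complex.ofReal_log hposR.le]
      push_cast
      rfl
    rw [Complex.cpow_def_of_ne_zero hne, hl]
    by_cases hA : Even A.card
    · rw [hA.neg_one_pow, one_mul]
      simp [cj, hA]
    · have hA' : Odd A.card := Nat.not_even_iff_odd.1 hA
      rw [hA'.neg_one_pow]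
      simp only [cj, hA, decide_false, Bool.not_false, if_true]
      rw [Complex.star_def, ← Complex.exp_conj]
      congr 1
      simp only [map_mul, Complex.conj_ofReal, Complex.conj_I]
      push_cast
      ring
  rw [Finset.prod_congr rfl fun A _ => hfac A, ← Complex.exp_sum, ← Finset.sum_mul]
  have h1 : (∑ A : Finset (Fin r), (((-1 : ℝ) ^ A.card *
      Real.log ((n : ℝ) + (vert e A : ℝ)) : ℝ) : ℂ)) * ((t : ℂ) * Complex.I) =
      Complex.I * ((t * ∑ A : Finset (Fin r), (-1 : ℝ) ^ A.card *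
      Real.log ((n : ℝ) + (vert e A : ℝ)) : ℝ) : ℂ) := by
    push_cast
    ring
  rw [h1]
  refine (Real.norm_exp_I_mul_ofReal_sub_one_le).trans ?_
  rw [Real.norm_eq_abs, abs_mul, mul_div_assoc]
  exact mul_le_mul_of_nonneg_left (h n hn) (abs_nonneg t)

end Pool.Agent.Work.MP_58cfe3_nt
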