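import Pool.Agent.Work.MP_58cfe3_nt.LMean

/-!
# Module LWin: from ordinary averages to windowed logarithmic averages, for a family of functions
-/

set_option autoImplicit false

namespace Pool.Agent.Work.MP_58cfe3_nt

open Filter Topology

/-- the harmonic sum -/
private noncomputable def HS (X : ℕ) : ℝ := ∑ i ∈ Finset.range X, (1 : ℝ) / ((i : ℝ) + 1)

private theorem HS_eq (X : ℕ) : HS X = ((harmonic X : ℚ) : ℝ) := by
  unfold HS harmonic
  push_cast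
  exact Finset.sum_congr rfl fun i _ => by rw [one_div]

private theorem HS_ge (X : ℕ) : Real.log (X + 1) ≤ HS X := by
  rw [HS_eq]
  exact_mod_cast log_add_one_le_harmonic X

private theorem HS_le (X : ℕ) : HS X ≤ 1 + Real.log X := by
  rw [HS_eq]
  exact harmonic_le_one_add_log X

private theorem HS_nonneg (X : ℕ) : 0 ≤ HS X := Finset.sum_nonneg fun i _ => by positivity

private theorem HS_tendsto : Tendsto HS atTop atTop := Real.tendsto_sum_range_one_div_nat_succ_atTop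

private theorem harm_eq (X : ℕ) : ∑ n ∈ Finset.Icc 1 X, (1 / n : ℂ) = ((HS X : ℝ) : ℂ) := by
  unfold HS
  induction X with
  | zero => simp
  | succ X ih =>
    rw [Finset.sum_Icc_succ_top (by omega), ih, Finset.sum_range_succ]
    push_cast
    ring

private theorem elog_le_of_ord {f : ℤ → ℂ} (hb : ∀ n, ‖f n‖ ≤ 1) {δ : ℝ} (hδ : 0 < δ) {X : ℕ}
    (hX : ∀ x : ℕ, (X : ℝ) ^ δ ≤ x → x ≤ X → ‖∑ n ∈ Finset.Icc 1 x, f n‖ ≤ δ * x)
    (hXH : 4 / δ ≤ HS X) (hX1 : 1 ≤ X) : ‖Elog f X‖ ≤ 3 * δ := by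
  obtain ⟨F, hF⟩ : ∃ F : ℕ → ℂ, F = fun n : ℕ => ∑ m ∈ Finset.Icc 1 n, f m := ⟨_, rfl⟩
  have hF0 : F 0 = 0 := by rw [hF]; simp
  have hFs : ∀ n, F (n + 1) = F n + f ((n + 1 : ℕ) : ℤ) := by
    intro n
    rw [hF]
    exact Finset.sum_Icc_succ_top (by omega) _
  have hFn : ∀ n, ‖F n‖ ≤ n := by
    intro n
    rw [hF]
    refine (norm_sum_le _ _).trans ?_
    refine (Finset.sum_le_card_nsmul _ _ 1 fun m _ => hb _).trans (le_of_eq ?_)
    simp
  have hid : ∀ X : ℕ, ∑ n ∈ Finset.Icc 1 X, f n / (n : ℂ) =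
      F X / (X : ℂ) + ∑ n ∈ Finset.range X, F n / ((n : ℂ) * ((n : ℂ) + 1)) := by
    intro X
    induction X with
    | zero => simp [hF0]
    | succ X ih =>
      rw [Finset.sum_Icc_succ_top (by omega), ih, Finset.sum_range_succ, hFs]
      have h1 : ((X : ℂ) + 1) ≠ 0 := by exact_mod_cast Nat.succ_ne_zero X
      rcases Nat.eq_zero_or_pos X with h0 | h0
      · subst h0
        simp [hF0]
      · have h2 : (X : ℂ) ≠ 0 := by exact_mod_cast h0.ne'
        push_cast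
        field_simp
        ring
  have hXr : (1 : ℝ) ≤ X := by exact_mod_cast hX1
  have hHpos : 0 < HS X := lt_of_lt_of_le (by positivity) hXH
  rw [Elog, hid X, harm_eq X, norm_div, Complex.norm_real, Real.norm_eq_abs,
    abs_of_pos hHpos, div_le_iff₀ hHpos]
  -- the terms
  have hN : ∀ n ∈ Finset.range X, ‖F n / ((n : ℂ) * ((n : ℂ) + 1))‖ ≤
      (if (n : ℝ) < (X : ℝ) ^ δ then 1 / ((n : ℝ) + 1) else 0) + δ * (1 / ((n : ℝ) + 1)) := by
    intro n hn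
    have hnX := Finset.mem_range.1 hn
    have h2 : ‖(n : ℂ) + 1‖ = (n : ℝ) + 1 := by
      have : (n : ℂ) + 1 = (((n : ℝ) + 1 : ℝ) : ℂ) := by push_cast; rfl
      rw [this, Complex.norm_real, Real.norm_eq_abs, abs_of_nonneg (by positivity)]
    rw [← div_div, norm_div, h2, norm_div, Complex.norm_natCast]
    have h3 : 0 ≤ δ * (1 / ((n : ℝ) + 1)) := by positivity
    split_ifs with hlt
    · have h4 : ‖F n‖ / n ≤ 1 := div_le_one_of_le₀ (hFn n) (Nat.cast_nonneg n)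
      have h5 : ‖F n‖ / n / ((n : ℝ) + 1) ≤ 1 / ((n : ℝ) + 1) :=
        div_le_div_of_nonneg_right h4 (by positivity)
      linarith
    · rw [zero_add]
      have h4 : ‖F n‖ ≤ δ * n := by
        rw [hF]
        exact hX n (not_lt.1 hlt) hnX.le
      have h5 : ‖F n‖ / n ≤ δ := by
        rcases Nat.eq_zero_or_pos n with h0 | h0
        · subst h0
          simp [hδ.le]
        · have : (0 : ℝ) < n := by exact_mod_cast h0
          rwa [div_le_iff₀ this]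
      calc ‖F n‖ / n / ((n : ℝ) + 1) ≤ δ / ((n : ℝ) + 1) :=
            div_le_div_of_nonneg_right h5 (by positivity)
        _ = δ * (1 / ((n : ℝ) + 1)) := by ring
  have hS1 : ∑ n ∈ Finset.range X, (if (n : ℝ) < (X : ℝ) ^ δ then 1 / ((n : ℝ) + 1) else 0) ≤
      2 + δ * Real.log X := by
    rw [← Finset.sum_filter]
    have hsub : (Finset.range X).filter (fun n : ℕ => (n : ℝ) < (X : ℝ) ^ δ) ⊆
        Finset.range ⌈(X : ℝ) ^ δ⌉₊ := by
      intro n hn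
      exact Finset.mem_range.2 (Nat.lt_ceil.2 (Finset.mem_filter.1 hn).2)
    have h1 : ∑ n ∈ (Finset.range X).filter (fun n : ℕ => (n : ℝ) < (X : ℝ) ^ δ),
        1 / ((n : ℝ) + 1) ≤ HS ⌈(X : ℝ) ^ δ⌉₊ :=
      Finset.sum_le_sum_of_subset_of_nonneg hsub fun n _ _ => by positivity
    have h2 := HS_le ⌈(X : ℝ) ^ δ⌉₊
    have hXδ : (1 : ℝ) ≤ (X : ℝ) ^ δ := Real.one_le_rpow hXr hδ.le
    have h3 : ((⌈(X : ℝ) ^ δ⌉₊ : ℕ) : ℝ) ≤ 2 * (X : ℝ) ^ δ := by
      have := (Nat.ceil_lt_add_one (by positivity : (0 : ℝ) ≤ (X : ℝ) ^ δ)).le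
      linarith
    have h4 : Real.log ((⌈(X : ℝ) ^ δ⌉₊ : ℕ) : ℝ) ≤ Real.log (2 * (X : ℝ) ^ δ) := by
      refine Real.log_le_log ?_ h3
      have : 0 < ⌈(X : ℝ) ^ δ⌉₊ := Nat.ceil_pos.2 (by positivity)
      exact_mod_cast this
    have h5 : Real.log (2 * (X : ℝ) ^ δ) = Real.log 2 + δ * Real.log X := by
      rw [Real.log_mul (by norm_num) (by positivity), Real.log_rpow (by linarith)]
    have h6 : Real.log 2 ≤ 1 := by
      have := Real.log_two_lt_d9
      linarith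
    linarith
  have hS2 : ∑ n ∈ Finset.range X, δ * (1 / ((n : ℝ) + 1)) = δ * HS X := by
    rw [HS, Finset.mul_sum]
  have hS : ‖∑ n ∈ Finset.range X, F n / ((n : ℂ) * ((n : ℂ) + 1))‖ ≤
      2 + δ * Real.log X + δ * HS X := by
    refine (norm_sum_le _ _).trans ((Finset.sum_le_sum hN).trans ?_)
    rw [Finset.sum_add_distrib, hS2]
    linarith
  have hlast : ‖F X / (X : ℂ)‖ ≤ 1 := by
    rw [norm_div, Complex.norm_natCast]
    exact div_le_one_of_le₀ (hFn X) (Nat.cast_nonneg X)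
  have hlog : Real.log X ≤ HS X := by
    refine le_trans ?_ (HS_ge X)
    exact Real.log_le_log (by linarith) (by linarith)
  have h4 : 4 ≤ δ * HS X := by
    rw [div_le_iff₀ hδ] at hXH
    linarith
  calc _ ≤ 1 + (2 + δ * Real.log X + δ * HS X) := (norm_add_le _ _).trans (add_le_add hlast hS)
    _ ≤ 3 * δ * HS X := by nlinarith

theorem win_of_ord {f : ℕ → ℤ → ℂ} (hb : ∀ X n, ‖f X n‖ ≤ 1) {l : Filter ℕ} (hl : l ≤ atTop)
    (h : ∀ ε : ℝ, 0 < ε → ε ≤ 1 → ∀ᶠ X : ℕ in l, ∀ x : ℕ, (X : ℝ) ^ ε ≤ x → x ≤ X →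
      ‖∑ n ∈ Finset.Icc 1 x, f X n‖ ≤ ε * x) {δ : ℝ} (hδ : 0 < δ) (hδ1 : δ < 1) :
    Tendsto (fun X => Wlog δ (f X) X) l (𝓝 0) := by
  have key : ∀ N : ℕ → ℕ, Tendsto N l atTop →
      (∀ ε : ℝ, 0 < ε → ε ≤ 1 → ∀ᶠ X : ℕ in l, ∀ x : ℕ, ((N X : ℕ) : ℝ) ^ ε ≤ x → x ≤ N X →
        ‖∑ n ∈ Finset.Icc 1 x, f X n‖ ≤ ε * x) → Tendsto (fun X => Elog (f X) (N X)) l (𝓝 0) := by
    intro N hN hh
    rw [Metric.tendsto_nhds]
    intro ε hε
    obtain ⟨δ, hδ, hδε, hδ1⟩ : ∃ δ : ℝ, 0 < δ ∧ 4 * δ < ε ∧ δ ≤ 1 :=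
      ⟨min (ε / 8) 1, lt_min (by positivity) one_pos, by
        have := min_le_left (ε / 8) 1
        linarith, min_le_right _ _⟩
    filter_upwards [hh δ hδ hδ1, (HS_tendsto.comp hN).eventually_ge_atTop (4 / δ),
      hN.eventually_ge_atTop 1] with X hX hXH hX1
    rw [dist_zero_right]
    have := elog_le_of_ord (hb X) hδ hX hXH hX1
    linarith
  have h1 := key (fun X => X) (tendsto_id.mono_left hl) h
  have hw : Tendsto (wlo δ) l atTop := (wlo_tendsto hδ).mono_left hl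
  have h2 := key (wlo δ) hw fun ε hε hε1 => by
    have hε' : 0 < δ * ε / 2 := by positivity
    have hε1' : δ * ε / 2 ≤ ε := by nlinarith
    have hbig : ∀ᶠ X : ℕ in l, (2 : ℝ) ≤ (X : ℝ) ^ (δ / 2) :=
      hl (((tendsto_rpow_atTop (half_pos hδ)).comp tendsto_natCast_atTop_atTop).eventually_ge_atTop 2)
    filter_upwards [h (δ * ε / 2) hε' (hε1'.trans hε1), hbig, hl (eventually_ge_atTop 1)]
      with X hX hX2 hX1 x hx1 hx2
    have hXr : (1 : ℝ) ≤ X := by exact_mod_cast hX1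
    have hX0 : (0 : ℝ) < X := by linarith
    have e1 : (X : ℝ) ^ (δ / 2) ≤ ((wlo δ X : ℕ) : ℝ) := by
      have e2 : (X : ℝ) ^ δ < ((wlo δ X : ℕ) : ℝ) + 1 := Nat.lt_floor_add_one _
      have e3 : (X : ℝ) ^ δ = (X : ℝ) ^ (δ / 2) * (X : ℝ) ^ (δ / 2) := by
        rw [← Real.rpow_add hX0]
        congr 1
        ring
      nlinarith
    have e4 : (X : ℝ) ^ (δ * ε / 2) ≤ x := by
      refine le_trans ?_ hx1
      calc (X : ℝ) ^ (δ * ε / 2) = ((X : ℝ) ^ (δ / 2)) ^ ε := by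
            rw [← Real.rpow_mul hX0.le]
            congr 1
            ring
        _ ≤ _ := Real.rpow_le_rpow (by positivity) e1 hε.le
    refine (hX x e4 (hx2.trans (wlo_le hδ1.le hX1))).trans ?_
    exact mul_le_mul_of_nonneg_right hε1' (Nat.cast_nonneg x)
  have h3 := wlog_lim hδ hδ1 hl h1 h2
  simpa using h3

end Pool.Agent.Work.MP_58cfe3_nt
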