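import Pool.Agent.Work.MP_58cfe3_nt.Defs

/-!
# Definitions of block R (random twists)
-/

set_option autoImplicit false

namespace Pool.Agent.Work.MP_58cfe3_nt

open Filter Topology

/-- `∑ 1/p` over the primes `p ≤ X` of `Q` -/
noncomputable def QS (Q : Set ℕ) (X : ℕ) : ℝ :=
  open Classical in ∑ p ∈ (Finset.Icc 1 X).filter (fun p => p.Prime ∧ p ∈ Q), (1 / p : ℝ)

/-- the integers in `[1, X]` which are not exactly divisible by any prime `p > w` of `Q` -/
noncomputable def N0 (Q : Set ℕ) (w X : ℕ) : Finset ℕ :=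
  open Classical in
  (Finset.Icc 1 X).filter fun n => ∀ p ∈ Q, p.Prime → w < p → p ∣ n → p ^ 2 ∣ n

/-- the harmonic sum -/
noncomputable def hs (X : ℕ) : ℝ := ∑ n ∈ Finset.Icc 1 X, (1 / n : ℝ)

end Pool.Agent.Work.MP_58cfe3_nt
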