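import Pool.Agent.Work.MP_58cfe3_nt.Basic
import Pool.Agent.Work.MP_58cfe3_nt.RDefs

/-!
# Module RMul (size S): the twist is 1-bounded multiplicative

PROOF. For `n ≤ 0` `f n = 0`. Bound: product of numbers of norm `≤ 1`. Multiplicativity: `m, n > 0` coprime,
`(m * n).toNat = m.toNat * n.toNat`, `Nat.Coprime.primeFactors_mul` (disjoint union), and for `p ∣ m`
the exponent of `p` in `m n` is that in `m` (`Nat.factorization_mul`, `p ∤ n`).
-/

set_option autoImplicit false

namespace Pool.Agent.Work.MP_58cfe3_nt

open Filter Topology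

theorem twist_mulBdd {f : ℤ → ℂ} (hf : MulBdd f) (Q : Set ℕ) {ε : ℕ → ℂ} (hε : ∀ p, ‖ε p‖ ≤ 1) :
    MulBdd (twist f Q ε) := by
  classical
  refine ⟨?_, ?_, ?_⟩
  · intro n hn
    unfold twist
    rw [hf.nonpos n hn, zero_mul]
  · intro n
    unfold twist
    rw [norm_mul]
    refine mul_le_one₀ (hf.bdd n) (norm_nonneg _) (norm_prod_le_one _ _ fun p _ => ?_)
    split_ifs
    · rw [norm_pow]
      exact pow_le_one₀ (norm_nonneg _) (hε p)
    · simp
  · intro m n hm hn hmn
    unfold twist
    have h1 : (m * n).toNat = m.toNat * n.toNat := Int.toNat_mul hm.le hn.le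
    have hcop : m.toNat.Coprime n.toNat := by
      rw [Int.isCoprime_iff_gcd_eq_one] at hmn
      have h2 : Int.gcd m n = Nat.gcd m.toNat n.toNat := by
        have h3 : m.natAbs = m.toNat := by omega
        have h4 : n.natAbs = n.toNat := by omega
        rw [Int.gcd, h3, h4]
      rw [Nat.Coprime, ← h2]
      exact hmn
    have hm0 : m.toNat ≠ 0 := by omega
    have hn0 : n.toNat ≠ 0 := by omega
    rw [hf.mul m n hm hn hmn, h1, hcop.primeFactors_mul,
      Finset.prod_union hcop.disjoint_primeFactors]
    have e1 : ∀ p ∈ m.toNat.primeFactors, (if p ∈ Q then ε p ^ ((m.toNat * n.toNat).factorization p)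
        else 1) = if p ∈ Q then ε p ^ (m.toNat.factorization p) else 1 := by
      intro p hp
      have hp1 := Nat.prime_of_mem_primeFactors hp
      have hp2 := Nat.dvd_of_mem_primeFactors hp
      have h3 : n.toNat.factorization p = 0 := by
        refine Nat.factorization_eq_zero_of_not_dvd fun h4 => ?_
        exact hp1.one_lt.ne' (Nat.eq_one_of_dvd_coprimes hcop hp2 h4)
      rw [Nat.factorization_mul hm0 hn0, Finsupp.add_apply, h3, add_zero]
    have e2 : ∀ p ∈ n.toNat.primeFactors, (if p ∈ Q then ε p ^ ((m.toNat * n.toNat).factorization p)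
        else 1) = if p ∈ Q then ε p ^ (n.toNat.factorization p) else 1 := by
      intro p hp
      have hp1 := Nat.prime_of_mem_primeFactors hp
      have hp2 := Nat.dvd_of_mem_primeFactors hp
      have h3 : m.toNat.factorization p = 0 := by
        refine Nat.factorization_eq_zero_of_not_dvd fun h4 => ?_
        exact hp1.one_lt.ne' (Nat.eq_one_of_dvd_coprimes hcop h4 hp2)
      rw [Nat.factorization_mul hm0 hn0, Finsupp.add_apply, h3, zero_add]
    rw [Finset.prod_congr rfl e1, Finset.prod_congr rfl e2]
    ring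

end Pool.Agent.Work.MP_58cfe3_nt
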