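import Pool.Agent.Work.MP_58cfe3_nt.SDefs
import Pool.Agent.Work.MP_58cfe3_nt.RMul

/-!
# Module SUnt (size M): untwisting

PROOF. Put `a p = if p ∣ q then 1 else χ p`; for `p` prime `|a p| = 1`, always `|a p| ≤ 1`; `|(p:ℂ)^(it)| ≤ 1` for every
natural `p` (`p = 0`: `0^0 = 1`, `0^(it) = 0` for `t ≠ 0`). `unt_mulBdd`: `twist_mulBdd`.
`unt_eq`: for `n > 0`, `unt g χ t n = g n * ∏_{p ∣ n} star (a p * p^(it))^(v_p n)`, `xs χ n = ∏ (a p)^(v_p n)`,
`n^(it) = ∏ (p^(it))^(v_p n)` (`exp (i t log n)`, or `Complex.natCast_mul_natCast_cpow` and induction), all of the factors have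
norm `1`, so the product of the three is `g n`.
For a prime `p`: `unt g χ t p = g p * star (a p * p^(it))`, so for `p ∤ q`, `1 - Re (unt g χ t p) = gap g χ t p`; for `p ∣ q`,
`χ p = 0`, `gap = 1`. `unt_near`: for large `X`, `X^η > q`, so no prime divisor of `q` is in the range of the sum.
`unt_far`: the sums differ at the finitely many `p ∣ q` only, `dist2 g χ t X ≤ (Far-sum) + ∑_{p ∣ q} 1/p`.
-/

set_option autoImplicit false

namespace Pool.Agent.Work.MP_58cfe3_nt

open Filter Topology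

private theorem norm_cpow_le (p : ℕ) (t : ℝ) : ‖(p : ℂ) ^ ((t : ℂ) * Complex.I)‖ ≤ 1 := by
  rcases Nat.eq_zero_or_pos p with h | h
  · subst h
    by_cases ht : t = 0
    · simp [ht]
    · rw [Nat.cast_zero, Complex.zero_cpow]
      · simp
      · simp [ht]
  · rw [Complex.norm_natCast_cpow_of_pos h]
    simp

private theorem norm_cpow_eq {p : ℕ} (h : 0 < p) (t : ℝ) :
    ‖(p : ℂ) ^ ((t : ℂ) * Complex.I)‖ = 1 := by
  rw [Complex.norm_natCast_cpow_of_pos h]
  simp

private theorem norm_a_le {q : ℕ} [NeZero q] (χ : DirichletCharacter ℂ q) (p : ℕ) :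
    ‖(if p ∣ q then (1 : ℂ) else χ p)‖ ≤ 1 := by
  split_ifs
  · simp
  · exact χ.norm_le_one _

private theorem norm_a_eq {q : ℕ} [NeZero q] (χ : DirichletCharacter ℂ q) {p : ℕ} (hp : p.Prime) :
    ‖(if p ∣ q then (1 : ℂ) else χ p)‖ = 1 := by
  split_ifs with h
  · simp
  · have h1 : p.Coprime q := (Nat.Prime.coprime_iff_not_dvd hp).2 h
    have h2 := χ.unit_norm_eq_one (ZMod.unitOfCoprime p h1)
    rwa [ZMod.coe_unitOfCoprime] at h2

private theorem prod_cpow (s : Finset ℕ) (e : ℕ → ℕ) (w : ℂ) :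
    ((∏ p ∈ s, p ^ e p : ℕ) : ℂ) ^ w = ∏ p ∈ s, ((p : ℂ) ^ w) ^ e p := by
  classical
  have h1 : ∀ (p k : ℕ), ((p ^ k : ℕ) : ℂ) ^ w = ((p : ℂ) ^ w) ^ k := by
    intro p k
    induction k with
    | zero => simp
    | succ k ih => rw [pow_succ, Nat.cast_mul, Complex.natCast_mul_natCast_cpow, ih, pow_succ]
  induction s using Finset.induction_on with
  | empty => simp
  | insert a s ha ih =>
    rw [Finset.prod_insert ha, Finset.prod_insert ha, Nat.cast_mul,
      Complex.natCast_mul_natCast_cpow, ih, h1]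

private theorem unt_prime (g : ℤ → ℂ) {q : ℕ} [NeZero q] (χ : DirichletCharacter ℂ q) (t : ℝ)
    {p : ℕ} (hp : p.Prime) : unt g χ t (p : ℤ) =
      g p * star ((if p ∣ q then 1 else χ p) * (p : ℂ) ^ ((t : ℂ) * Complex.I)) := by
  classical
  unfold unt twist
  rw [Int.toNat_natCast, hp.primeFactors, Finset.prod_singleton, if_pos (Set.mem_univ _),
    hp.factorization_self, pow_one]

private theorem unt_gap (g : ℤ → ℂ) {q : ℕ} [NeZero q] (χ : DirichletCharacter ℂ q) (t : ℝ)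
    {p : ℕ} (hp : p.Prime) (h : ¬ p ∣ q) : 1 - (unt g χ t p).re = gap g χ t p := by
  rw [unt_prime g χ t hp, if_neg h, gap]

theorem unt_mulBdd {g : ℤ → ℂ} (hg : MulBdd g) {q : ℕ} [NeZero q] (χ : DirichletCharacter ℂ q)
    (t : ℝ) : MulBdd (unt g χ t) := by
  refine twist_mulBdd hg _ fun p => ?_
  rw [norm_star, norm_mul]
  exact mul_le_one₀ (norm_a_le χ p) (norm_nonneg _) (norm_cpow_le p t)

theorem unt_eq (g : ℤ → ℂ) {q : ℕ} [NeZero q] (χ : DirichletCharacter ℂ q) (t : ℝ) {n : ℤ}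
    (hn : 0 < n) : g n = unt g χ t n * xs χ n * (n : ℂ) ^ ((t : ℂ) * Complex.I) := by
  classical
  have h0 : n.toNat ≠ 0 := by omega
  have h1 : (n : ℂ) = (n.toNat : ℂ) := by
    have h2 : ((n.toNat : ℕ) : ℤ) = n := Int.toNat_of_nonneg hn.le
    rw [← Int.cast_natCast, h2]
  have h3 : (n : ℂ) ^ ((t : ℂ) * Complex.I) =
      ∏ p ∈ n.toNat.primeFactors, ((p : ℂ) ^ ((t : ℂ) * Complex.I)) ^ (n.toNat.factorization p) := by
    rw [h1, ← prod_cpow]
    congr 2
    exact (Nat.prod_factorization_pow_eq_self h0).symm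
  unfold unt twist xs
  rw [h3, mul_assoc, ← Finset.prod_mul_distrib, mul_assoc, ← Finset.prod_mul_distrib,
    Finset.prod_eq_one, mul_one]
  intro p hp
  have hp1 := Nat.prime_of_mem_primeFactors hp
  rw [if_pos (Set.mem_univ _), ← mul_pow, ← mul_pow]
  have h4 : ‖(if p ∣ q then (1 : ℂ) else χ p) * (p : ℂ) ^ ((t : ℂ) * Complex.I)‖ = 1 := by
    rw [norm_mul, norm_a_eq χ hp1, norm_cpow_eq hp1.pos, mul_one]
  have h5 : star ((if p ∣ q then (1 : ℂ) else χ p) * (p : ℂ) ^ ((t : ℂ) * Complex.I)) *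
      ((if p ∣ q then (1 : ℂ) else χ p) * (p : ℂ) ^ ((t : ℂ) * Complex.I)) = 1 := by
    have h6 := Complex.conj_mul' ((if p ∣ q then (1 : ℂ) else χ p) *
      (p : ℂ) ^ ((t : ℂ) * Complex.I))
    rw [h4] at h6
    simpa using h6
  rw [h5, one_pow]

theorem unt_near {g : ℤ → ℂ} {q : ℕ} [NeZero q] {χ : DirichletCharacter ℂ q} {t : ℝ}
    (h : ∀ η : ℝ, 0 < η → Tendsto (fun X : ℕ => ∑ p ∈ (Finset.Icc 1 X).filter
      (fun p : ℕ => p.Prime ∧ (X : ℝ) ^ η < p), gap g χ t p / p) atTop (𝓝 0)) :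
    Near (unt g χ t) := by
  intro η hη
  refine (h η hη).congr' ?_
  have h1 : Tendsto (fun X : ℕ => (X : ℝ) ^ η) atTop atTop :=
    (tendsto_rpow_atTop hη).comp tendsto_natCast_atTop_atTop
  filter_upwards [h1.eventually_ge_atTop (q : ℝ)] with X hX
  refine Finset.sum_congr rfl fun p hp => ?_
  obtain ⟨_, hp1, hp2⟩ := Finset.mem_filter.1 hp
  have h2 : q < p := by exact_mod_cast hX.trans_lt hp2
  rw [unt_gap g χ t hp1 (Nat.not_dvd_of_pos_of_lt (NeZero.pos q) h2)]

theorem unt_far {g : ℤ → ℂ} {q : ℕ} [NeZero q] {χ : DirichletCharacter ℂ q} {t : ℝ}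
    (hg : MulBdd g) (h : Tendsto (fun X : ℕ => dist2 g χ t X) atTop atTop) :
    Far (unt g χ t) := by
  have h1 : ∀ X : ℕ, dist2 g χ t X - (q.divisors.card : ℝ) ≤
      ∑ p ∈ (Finset.Icc 1 X).filter Nat.Prime, (1 - (unt g χ t p).re) / p := by
    intro X
    have h2 : ∀ p ∈ (Finset.Icc 1 X).filter Nat.Prime, gap g χ t p / p ≤
        (1 - (unt g χ t p).re) / p + (if p ∣ q then 1 else 0) := by
      intro p hp
      have hp1 := (Finset.mem_filter.1 hp).2
      have hp2 : (1 : ℝ) ≤ p := by exact_mod_cast hp1.one_lt.le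
      by_cases hd : p ∣ q
      · rw [if_pos hd]
        have h3 : (χ p : ℂ) = 0 := by
          refine χ.map_nonunit fun hu => ?_
          rw [ZMod.isUnit_iff_coprime] at hu
          exact (Nat.Prime.coprime_iff_not_dvd hp1).1 hu hd
        have h4 : gap g χ t p = 1 := by
          rw [gap, h3]
          simp
        have h5 : 0 ≤ (1 - (unt g χ t p).re) / p := by
          refine div_nonneg ?_ (by linarith)
          have h6 := (unt_mulBdd hg χ t).bdd p
          have h7 := Complex.re_le_norm (unt g χ t p)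
          linarith
        have h8 : (1 : ℝ) / p ≤ 1 := div_le_self zero_le_one hp2
        rw [h4]
        linarith
      · rw [if_neg hd, add_zero, unt_gap g χ t hp1 hd]
    have h3 : ∑ p ∈ (Finset.Icc 1 X).filter Nat.Prime, (if p ∣ q then (1 : ℝ) else 0) ≤
        (q.divisors.card : ℝ) := by
      rw [← Finset.sum_filter, Finset.sum_const, nsmul_eq_mul, mul_one]
      have h4 : (((Finset.Icc 1 X).filter Nat.Prime).filter fun p => p ∣ q) ⊆ q.divisors := by
        intro p hp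
        exact Nat.mem_divisors.2 ⟨(Finset.mem_filter.1 hp).2, NeZero.ne q⟩
      exact_mod_cast Finset.card_le_card h4
    have h4 := Finset.sum_le_sum h2
    rw [Finset.sum_add_distrib] at h4
    unfold dist2
    linarith
  unfold Far
  exact tendsto_atTop_mono h1 (tendsto_atTop_add_const_right _ _ h)

end Pool.Agent.Work.MP_58cfe3_nt
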