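import Pool.Agent.Work.MP_58cfe3_nt.SApp
import Pool.Agent.Work.MP_58cfe3_nt.SUnt
import Pool.Agent.Work.MP_58cfe3_nt.Crit
import Pool.Agent.Work.MP_58cfe3_nt.LOrd
import Pool.Agent.Work.MP_58cfe3_nt.LWin
import Pool.Agent.Work.MP_58cfe3_nt.LPer
import Pool.Agent.Work.MP_58cfe3_nt.LPow

/-!
# Module LCub: the windowed cube averages of a locally pretentious function vanish
-/

set_option autoImplicit false

namespace Pool.Agent.Work.MP_58cfe3_nt

open Filter Topology

private theorem lc_cj_mul (b : Bool) (z w : ℂ) : cj b (z * w) = cj b z * cj b w := by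
  unfold cj
  split_ifs
  · rw [star_mul']
  · rfl

private theorem lc_norm_cj (b : Bool) (z : ℂ) : ‖cj b z‖ = ‖z‖ := by
  unfold cj
  split_ifs
  · exact norm_star z
  · rfl

private theorem lc_norm_prod {ι : Type} [Fintype ι] (s : ι → Bool) (z : ι → ℂ)
    (hz : ∀ i, ‖z i‖ ≤ 1) : ‖∏ i, cj (s i) (z i)‖ ≤ 1 :=
  norm_prod_le_one _ _ fun i _ => by rw [lc_norm_cj]; exact hz i

private theorem lc_cube (g : ℤ → ℂ) {r : ℕ} (e : Fin r → ℤ) (n : ℤ) :
    cube g e n = ∏ A : Finset (Fin r), cj (!decide (Even A.card)) (g (n + vert e A)) := by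
  unfold cube cj
  refine Finset.prod_congr rfl fun A _ => ?_
  by_cases h : Even A.card
  · simp [h]
  · simp [h]

private theorem lc_unt_prime (g : ℤ → ℂ) {q : ℕ} [NeZero q] (χ : DirichletCharacter ℂ q) (t : ℝ)
    {p : ℕ} (hp : p.Prime) : unt g χ t (p : ℤ) =
      g p * star ((if p ∣ q then 1 else χ p) * (p : ℂ) ^ ((t : ℂ) * Complex.I)) := by
  classical
  unfold unt twist
  rw [Int.toNat_natCast, hp.primeFactors, Finset.prod_singleton, if_pos (Set.mem_univ _),
    hp.factorization_self, pow_one]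

private theorem lc_unt_gap (g : ℤ → ℂ) {q : ℕ} [NeZero q] (χ : DirichletCharacter ℂ q) (t : ℝ)
    {p : ℕ} (hp : p.Prime) (h : ¬ p ∣ q) : 1 - (unt g χ t p).re = gap g χ t p := by
  rw [lc_unt_prime g χ t hp, if_neg h, gap]

private theorem lc_near {l : Filter ℕ} (hl : l ≤ atTop) {g : ℤ → ℂ} {q : ℕ} [NeZero q]
    {χ : DirichletCharacter ℂ q} {t : ℕ → ℝ} {η : ℝ} (hη : 0 < η)
    (h : Tendsto (fun X => mass g χ (t X) η X) l (𝓝 0)) :
    Tendsto (fun X : ℕ => ∑ p ∈ (Finset.Icc 1 X).filter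
      (fun p : ℕ => p.Prime ∧ (X : ℝ) ^ η < p), (1 - (unt g χ (t X) p).re) / p) l (𝓝 0) := by
  refine h.congr' ?_
  have h1 : Tendsto (fun X : ℕ => (X : ℝ) ^ η) atTop atTop :=
    (tendsto_rpow_atTop hη).comp tendsto_natCast_atTop_atTop
  filter_upwards [hl (h1.eventually_ge_atTop (q : ℝ))] with X hX
  unfold mass
  refine Finset.sum_congr rfl fun p hp => ?_
  obtain ⟨_, hp1, hp2⟩ := Finset.mem_filter.1 hp
  have h2 : q < p := by exact_mod_cast hX.trans_lt hp2
  rw [lc_unt_gap g χ (t X) hp1 (Nat.not_dvd_of_pos_of_lt (NeZero.pos q) h2)]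

private theorem lc_far {g : ℤ → ℂ} (hg : MulBdd g) {q : ℕ} [NeZero q]
    (χ : DirichletCharacter ℂ q) (t : ℝ) (X : ℕ) : dist2 g χ t X - (q.divisors.card : ℝ) ≤
      ∑ p ∈ (Finset.Icc 1 X).filter Nat.Prime, (1 - (unt g χ t p).re) / p := by
  have h2 : ∀ p ∈ (Finset.Icc 1 X).filter Nat.Prime, gap g χ t p / p ≤
      (1 - (unt g χ t p).re) / p + (if p ∣ q then 1 else 0) := by
    intro p hp
    have hp1 := (Finset.mem_filter.1 hp).2
    have hp2 : (1 : ℝ) ≤ p := by exact_mod_cast hp1.one_lt.le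
    by_cases hd : p ∣ q
    · rw [if_pos hd]
      have h3 : (χ p : ℂ) = 0 := by
        refine χ.map_nonunit fun hu => ?_
        rw [ZMod.isUnit_iff_coprime] at hu
        exact (Nat.Prime.coprime_iff_not_dvd hp1).1 hu hd
      have h4 : gap g χ t p = 1 := by
        rw [gap, h3]
        simp
      have h5 : 0 ≤ (1 - (unt g χ t p).re) / p := by
        refine div_nonneg ?_ (by linarith)
        have h6 := (unt_mulBdd hg χ t).bdd p
        have h7 := Complex.re_le_norm (unt g χ t p)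
        linarith
      have h8 : (1 : ℝ) / p ≤ 1 := div_le_self zero_le_one hp2
      rw [h4]
      linarith
    · rw [if_neg hd, add_zero, lc_unt_gap g χ t hp1 hd]
  have h3 : ∑ p ∈ (Finset.Icc 1 X).filter Nat.Prime, (if p ∣ q then (1 : ℝ) else 0) ≤
      (q.divisors.card : ℝ) := by
    rw [← Finset.sum_filter, Finset.sum_const, nsmul_eq_mul, mul_one]
    have h4 : (((Finset.Icc 1 X).filter Nat.Prime).filter fun p => p ∣ q) ⊆ q.divisors := by
      intro p hp
      exact Nat.mem_divisors.2 ⟨(Finset.mem_filter.1 hp).2, NeZero.ne q⟩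
    exact_mod_cast Finset.card_le_card h4
  have h4 := Finset.sum_le_sum h2
  rw [Finset.sum_add_distrib] at h4
  unfold dist2
  linarith

theorem cube_win {g : ℤ → ℂ} (hg : MulBdd g) {l : Filter ℕ} (hl : l ≤ atTop) {q : ℕ}
    [NeZero q] (χ : DirichletCharacter ℂ q) (t : ℕ → ℝ) {A : ℕ}
    (ht : ∀ᶠ X : ℕ in l, |t X| ≤ (X : ℝ) ^ A)
    (hnear : ∀ η : ℝ, 0 < η → Tendsto (fun X => mass g χ (t X) η X) l (𝓝 0))
    (hfar : Tendsto (fun X : ℕ => dist2 g χ (t X) X) l atTop) {δ : ℝ} (hδ : 0 < δ) (hδ1 : δ < 1)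
    {r : ℕ} (hr : (A : ℝ) + 1 ≤ δ * r) {e : Fin r → ℤ} (he : Function.Injective (vert e)) :
    Tendsto (Wlog δ (cube g e)) l (𝓝 0) := by
  have hr1 : 1 ≤ r := by
    rcases Nat.eq_zero_or_pos r with h0 | h0
    · exfalso
      rw [h0, Nat.cast_zero, mul_zero] at hr
      have : (0 : ℝ) ≤ A := Nat.cast_nonneg A
      linarith
    · exact h0
  have hG : ∀ X, MulBdd (unt g χ (t X)) := fun X => unt_mulBdd hg χ (t X)
  have hN : ∀ η : ℝ, 0 < η → Tendsto (fun X : ℕ => ∑ p ∈ (Finset.Icc 1 X).filter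
      (fun p : ℕ => p.Prime ∧ (X : ℝ) ^ η < p), (1 - (unt g χ (t X) p).re) / p) l (𝓝 0) :=
    fun η hη => lc_near hl hη (hnear η hη)
  have hF : Tendsto (fun X : ℕ => ∑ p ∈ (Finset.Icc 1 X).filter Nat.Prime,
      (1 - (unt g χ (t X) p).re) / p) l atTop :=
    tendsto_atTop_mono (fun X => lc_far hg χ (t X) X) (tendsto_atTop_add_const_right _ _ hfar)
  have hY : ∀ n : ℤ, ‖∏ A : Finset (Fin r), cj (!decide (Even A.card)) (xs χ (n + vert e A))‖ ≤ 1 :=
    fun n => lc_norm_prod _ _ fun A => (norm_xs χ _).le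
  have hFn : ∀ (X : ℕ) (n : ℤ), ‖∏ A : Finset (Fin r), cj (!decide (Even A.card))
      (unt g χ (t X) (n + vert e A))‖ ≤ 1 := fun X n => lc_norm_prod _ _ fun A => (hG X).bdd _
  have h1 : Tendsto (fun X => Wlog δ (fun n => (∏ A : Finset (Fin r), cj (!decide (Even A.card))
      (unt g χ (t X) (n + vert e A))) * ∏ A : Finset (Fin r), cj (!decide (Even A.card))
      (xs χ (n + vert e A))) X) l (𝓝 0) := by
    refine per_fam hl hδ hδ1 (F := fun X n => ∏ A : Finset (Fin r), cj (!decide (Even A.card))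
      (unt g χ (t X) (n + vert e A))) hFn (fun m hm a => ?_) (fun η hη => ?_)
    · refine win_of_ord (f := fun X n => if (m : ℤ) ∣ n - a then ∏ A : Finset (Fin r),
        cj (!decide (Even A.card)) (unt g χ (t X) (n + vert e A)) else 0) (fun X n => ?_) hl
        (fun ε hε hε1 => ?_) hδ hδ1
      · split_ifs
        · exact hFn X n
        · simp
      · refine (ord_fam hG hl hN hF he (fun A => !decide (Even A.card)) hm a hε hε1).mono
          fun X hX x hx1 hx2 => ?_
        have h3 := hX x hx1 hx2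
        unfold cls at h3
        rwa [Finset.sum_filter] at h3
    · exact xs_approx χ (vert e) (fun A => !decide (Even A.card)) hη
  obtain ⟨C, hC, B, hB, harch⟩ := vert_arch hr1 e
  have hcb : ∀ n, ‖cube g e n‖ ≤ 1 := norm_cube_le hg.bdd e
  have h2 : Tendsto (fun X => Wlog δ (fun n => cube g e n -
      (∏ A : Finset (Fin r), cj (!decide (Even A.card))
      (unt g χ (t X) (n + vert e A))) * ∏ A : Finset (Fin r), cj (!decide (Even A.card))
      (xs χ (n + vert e A))) X) l (𝓝 0) := by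
    have hlim : Tendsto (fun X : ℕ => C / (X : ℝ)) atTop (𝓝 0) :=
      tendsto_const_nhds.div_atTop tendsto_natCast_atTop_atTop
    have hbig : ∀ᶠ X : ℕ in atTop, 2 * B ≤ wlo δ X := (wlo_tendsto hδ).eventually_ge_atTop _
    refine squeeze_zero_norm' ?_ (hlim.mono_left hl)
    filter_upwards [ht, hl hbig, hl (eventually_ge_atTop 1)] with X hX hXB hX1
    have hXr : (1 : ℝ) ≤ X := by exact_mod_cast hX1
    have hX0 : (0 : ℝ) < X := by linarith
    refine wlog_le (fun n hn => ?_) (by positivity)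
    have hn1 : wlo δ X < n := (Finset.mem_Ioc.1 hn).1
    have hnX : (X : ℝ) ^ δ < n := by
      refine lt_of_lt_of_le (Nat.lt_floor_add_one _) ?_
      exact_mod_cast hn1
    have hpow : (X : ℝ) ^ (A + 1) ≤ (n : ℝ) ^ r := by
      calc (X : ℝ) ^ (A + 1) = (X : ℝ) ^ ((A : ℝ) + 1) := by
            rw [← Real.rpow_natCast]
            push_cast
            rfl
        _ ≤ (X : ℝ) ^ (δ * r) := Real.rpow_le_rpow_of_exponent_le hXr hr
        _ = ((X : ℝ) ^ δ) ^ r := by rw [Real.rpow_mul hX0.le, Real.rpow_natCast]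
        _ ≤ (n : ℝ) ^ r := pow_le_pow_left₀ (by positivity) hnX.le _
    have hpos : ∀ A, 0 < (n : ℤ) + vert e A := by
      intro A
      have h5 := (abs_le.1 (hB A)).1
      omega
    have h5 : cube g e n = ((∏ A : Finset (Fin r), cj (!decide (Even A.card))
        (unt g χ (t X) (n + vert e A))) * ∏ A : Finset (Fin r), cj (!decide (Even A.card))
        (xs χ (n + vert e A))) * ∏ A : Finset (Fin r), cj (!decide (Even A.card))
        ((((n : ℤ) + vert e A : ℤ) : ℂ) ^ ((t X : ℂ) * Complex.I)) := by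
      rw [lc_cube, ← Finset.prod_mul_distrib, ← Finset.prod_mul_distrib]
      refine Finset.prod_congr rfl fun A _ => ?_
      rw [← lc_cj_mul, ← lc_cj_mul, ← unt_eq g χ (t X) (hpos A)]
    rw [h5, ← mul_sub_one, norm_mul, norm_mul]
    have h6 := harch n (t X) (lt_of_le_of_lt hXB hn1)
    have h7 : |t X| * C / (n : ℝ) ^ r ≤ C / X := by
      have h8 : |t X| * C / (n : ℝ) ^ r ≤ (X : ℝ) ^ A * C / (X : ℝ) ^ (A + 1) :=
        div_le_div₀ (by positivity) (mul_le_mul_of_nonneg_right hX hC) (by positivity) hpow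
      refine h8.trans (le_of_eq ?_)
      rw [pow_succ]
      field_simp
    calc _ ≤ (1 : ℝ) * ‖(∏ A : Finset (Fin r), cj (!decide (Even A.card))
        ((((n : ℤ) + vert e A : ℤ) : ℂ) ^ ((t X : ℂ) * Complex.I))) - 1‖ := by
          refine mul_le_mul_of_nonneg_right ?_ (norm_nonneg _)
          exact mul_le_one₀ (hFn X n) (norm_nonneg _) (hY n)
      _ ≤ C / X := by
        rw [one_mul]
        exact h6.trans h7
  have h3 := h1.add h2
  rw [add_zero] at h3
  refine h3.congr fun X => ?_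
  rw [← wlog_add]
  congr 1
  funext n
  exact add_sub_cancel _ _

end Pool.Agent.Work.MP_58cfe3_nt
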