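import Pool.Agent.Work.MP_58cfe3_nt.LCrit
import Pool.Agent.Work.MP_58cfe3_nt.LCub

/-!
# Module LUni: locally pretentious functions and arbitrary companions
-/

set_option autoImplicit false

namespace Pool.Agent.Work.MP_58cfe3_nt

open Filter Topology

theorem lu_gap_nonneg {g : ℤ → ℂ} (hb : ∀ n, ‖g n‖ ≤ 1) {q : ℕ}
    (χ : DirichletCharacter ℂ q) (t : ℝ) (p : ℕ) : 0 ≤ gap g χ t p := by
  unfold gap
  have h1 : ‖g p * star (χ p * (p : ℂ) ^ ((t : ℂ) * Complex.I))‖ ≤ 1 := by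
    rw [norm_mul, norm_star, norm_mul]
    have h2 : ‖χ p‖ ≤ 1 := DirichletCharacter.norm_le_one χ _
    have h3 : ‖(p : ℂ) ^ ((t : ℂ) * Complex.I)‖ ≤ 1 := by
      rcases Nat.eq_zero_or_pos p with h0 | h0
      · subst h0
        by_cases ht : (t : ℂ) * Complex.I = 0
        · rw [ht]
          simp
        · rw [Nat.cast_zero, Complex.zero_cpow ht]
          simp
      · rw [Complex.norm_natCast_cpow_of_pos h0]
        simp
    exact mul_le_one₀ (hb _) (by positivity) (mul_le_one₀ h2 (norm_nonneg _) h3)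
  have h2 := (Complex.re_le_norm (g p * star (χ p * (p : ℂ) ^ ((t : ℂ) * Complex.I)))).trans h1
  linarith

theorem mass_anti {g : ℤ → ℂ} (hb : ∀ n, ‖g n‖ ≤ 1) {q : ℕ} (χ : DirichletCharacter ℂ q)
    (t : ℝ) {η η' : ℝ} (h : η' ≤ η) {X : ℕ} (hX : 1 ≤ X) : mass g χ t η X ≤ mass g χ t η' X := by
  have hXr : (1 : ℝ) ≤ X := by exact_mod_cast hX
  unfold mass
  refine Finset.sum_le_sum_of_subset_of_nonneg (fun p hp => ?_) fun p _ _ =>
    div_nonneg (lu_gap_nonneg hb χ t p) (Nat.cast_nonneg p)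
  rw [Finset.mem_filter] at hp ⊢
  exact ⟨hp.1, hp.2.1, lt_of_le_of_lt (Real.rpow_le_rpow_of_exponent_le hXr h) hp.2.2⟩

/-- a fixed character and a choice of the numbers `t` -/
private theorem choose_t {g : ℤ → ℂ} (hb : ∀ n, ‖g n‖ ≤ 1) {U : Ultrafilter ℕ}
    (hU : (U : Filter ℕ) ≤ atTop) {Q A : ℕ}
    (h : ∀ η δ K : ℝ, 0 < η → 0 < δ → ∀ᶠ X in (U : Filter ℕ), NearFar g Q A η δ K X) :
    ∃ (q : ℕ) (_ : NeZero q) (χ : DirichletCharacter ℂ q) (t : ℕ → ℝ),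
      (∀ᶠ X : ℕ in (U : Filter ℕ), |t X| ≤ (X : ℝ) ^ A) ∧
      (∀ η : ℝ, 0 < η → Tendsto (fun X => mass g χ (t X) η X) U (𝓝 0)) ∧
      Tendsto (fun X : ℕ => dist2 g χ (t X) X) U atTop := by
  classical
  -- the condition number `k` for a fixed character
  obtain ⟨P, hP⟩ : ∃ P : ((q : Fin Q) × DirichletCharacter ℂ ((q : ℕ) + 1)) → ℕ → ℕ → Prop,
      P = fun (c : (q : Fin Q) × DirichletCharacter ℂ ((q : ℕ) + 1)) (k X : ℕ) =>
        ∃ t : ℝ, |t| ≤ (X : ℝ) ^ A ∧ mass g c.2 t (1 / (k + 1)) X ≤ 1 / (k + 1) ∧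
        (k : ℝ) ≤ dist2 g c.2 t X := ⟨_, rfl⟩
  have hmono : ∀ c k k' X, k' ≤ k → 1 ≤ X → P c k X → P c k' X := by
    intro c k k' X hk hX hc
    rw [hP] at hc ⊢
    obtain ⟨t, h1, h2, h3⟩ := hc
    have hk' : (k' : ℝ) ≤ k := by exact_mod_cast hk
    have h4 : 1 / ((k : ℝ) + 1) ≤ 1 / ((k' : ℝ) + 1) :=
      one_div_le_one_div_of_le (by positivity) (by linarith)
    exact ⟨t, h1, (mass_anti hb c.2 t h4 hX).trans (h2.trans h4), hk'.trans h3⟩
  -- for each `k` some character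
  have hex : ∀ k : ℕ, ∃ c, ∀ᶠ X in (U : Filter ℕ), P c k X := by
    intro k
    have h1 := h (1 / (k + 1)) (1 / (k + 1)) k (by positivity) (by positivity)
    have h2 : (⋃ c ∈ (Set.univ : Set ((q : Fin Q) × DirichletCharacter ℂ ((q : ℕ) + 1))),
        {X | P c k X}) ∈ U := by
      refine Filter.mem_of_superset h1 fun X hX => ?_
      obtain ⟨q, hq, χ, t, hqQ, ht, hm, hd⟩ := hX
      obtain ⟨q', rfl⟩ : ∃ q', q = q' + 1 := ⟨q - 1, by have := hq.out; omega⟩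
      rw [Set.mem_iUnion₂]
      refine ⟨⟨⟨q', by omega⟩, χ⟩, Set.mem_univ _, ?_⟩
      show P _ k X
      rw [hP]
      exact ⟨t, ht, hm, hd⟩
    rw [Ultrafilter.finite_biUnion_mem_iff Set.finite_univ] at h2
    obtain ⟨c, _, hc⟩ := h2
    exact ⟨c, hc⟩
  choose c hc using hex
  obtain ⟨c₀, hc₀⟩ := Finite.exists_infinite_fiber c
  have hall : ∀ k : ℕ, ∀ᶠ X in (U : Filter ℕ), P c₀ k X := by
    intro k
    obtain ⟨k', hk', hkk'⟩ := (Set.infinite_coe_iff.1 hc₀).exists_gt k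
    have h1 := hc k'
    rw [show c k' = c₀ from hk'] at h1
    filter_upwards [h1, hU (eventually_ge_atTop 1)] with X hX hX1
    exact hmono c₀ k' k X hkk'.le hX1 hX
  -- the diagonal choice
  obtain ⟨κ, hκ⟩ : ∃ κ : ℕ → ℕ, κ = fun X => Nat.findGreatest (fun k => P c₀ k X) X := ⟨_, rfl⟩
  have hκ1 : ∀ k, ∀ᶠ X in (U : Filter ℕ), k ≤ κ X ∧ P c₀ (κ X) X := by
    intro k
    filter_upwards [hall k, hU (eventually_ge_atTop k)] with X hX hXk
    rw [hκ]
    exact ⟨Nat.le_findGreatest hXk hX, Nat.findGreatest_spec (P := fun k => P c₀ k X) hXk hX⟩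
  obtain ⟨t, ht⟩ : ∃ t : ℕ → ℝ, ∀ X, P c₀ (κ X) X → |t X| ≤ (X : ℝ) ^ A ∧
      mass g c₀.2 (t X) (1 / ((κ X : ℕ) + 1)) X ≤ 1 / ((κ X : ℕ) + 1) ∧
        ((κ X : ℕ) : ℝ) ≤ dist2 g c₀.2 (t X) X := by
    rw [hP]
    refine ⟨fun X => if h : ∃ t : ℝ, |t| ≤ (X : ℝ) ^ A ∧
      mass g c₀.2 t (1 / ((κ X : ℕ) + 1)) X ≤ 1 / ((κ X : ℕ) + 1) ∧
        ((κ X : ℕ) : ℝ) ≤ dist2 g c₀.2 t X then h.choose else 0, fun X hX => ?_⟩
    dsimp only
    rw [dif_pos hX]
    exact hX.choose_spec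
  refine ⟨(c₀.1 : ℕ) + 1, inferInstance, c₀.2, t, ?_, fun η hη => ?_, ?_⟩
  · filter_upwards [hκ1 0] with X hX
    exact (ht X hX.2).1
  · rw [Metric.tendsto_nhds]
    intro ε hε
    obtain ⟨k, hk⟩ := exists_nat_one_div_lt (lt_min hη hε)
    filter_upwards [hκ1 k, hU (eventually_ge_atTop 1)] with X hX hX1
    have h1 := (ht X hX.2).2.1
    have hk' : (k : ℝ) ≤ κ X := by exact_mod_cast hX.1
    have h4 : 1 / (((κ X : ℕ) : ℝ) + 1) ≤ 1 / ((k : ℝ) + 1) :=
      one_div_le_one_div_of_le (by positivity) (by linarith)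
    have h5 := lt_of_le_of_lt h4 hk
    have h6 := mass_anti hb c₀.2 (t X) ((h5.trans_le (min_le_left _ _)).le) hX1
    have h7 : 0 ≤ mass g c₀.2 (t X) η X := Finset.sum_nonneg fun p _ =>
      div_nonneg (lu_gap_nonneg hb _ _ p) (Nat.cast_nonneg p)
    rw [dist_zero_right, Real.norm_eq_abs, abs_of_nonneg h7]
    exact lt_of_le_of_lt (h6.trans h1) (h5.trans_le (min_le_right _ _))
  · rw [Filter.tendsto_atTop]
    intro K
    obtain ⟨k, hk⟩ := exists_nat_ge K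
    filter_upwards [hκ1 k] with X hX
    have hk' : (k : ℝ) ≤ κ X := by exact_mod_cast hX.1
    exact (hk.trans hk').trans (ht X hX.2).2.2

/-- the constant function `1` on the positive integers -/
private noncomputable def one1 (n : ℤ) : ℂ := if 0 < n then 1 else 0

private theorem one1_mulBdd : MulBdd one1 := by
  refine ⟨fun n hn => if_neg (not_lt.2 hn), fun n => ?_, fun m n hm hn _ => ?_⟩
  · unfold one1
    split_ifs <;> simp
  · unfold one1
    rw [if_pos (mul_pos hm hn), if_pos hm, if_pos hn, mul_one]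

theorem loc_universal {g : ℤ → ℂ} (hg : MulBdd g) {l : Filter ℕ} (hl : l ≤ atTop) {Q A : ℕ}
    (hloc : ∀ η δ K : ℝ, 0 < η → 0 < δ → ∀ᶠ X in l, NearFar g Q A η δ K X) (r : ℕ) :
    UniversalAt l g r := by
  intro f hf h₀ h' hne
  by_contra hT
  have hFb : ∀ n : ℤ, ‖g (n + h₀) * ∏ i, f i (n + h' i)‖ ≤ 1 := by
    intro n
    rw [norm_mul]
    exact mul_le_one₀ (hg.bdd _) (norm_nonneg _)
      (norm_prod_le_one _ _ fun i _ => (hf i).bdd _)
  obtain ⟨U, hUl, ε, hε, hwin⟩ := exists_win hl hFb hT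
  have hU : (U : Filter ℕ) ≤ atTop := hUl.trans hl
  obtain ⟨hδ1, M, hM, hMF, hvan⟩ := hwin (ε / 2) (half_pos hε) (half_lt_self hε)
  have hδ : 0 < ε / 2 := half_pos hε
  obtain ⟨q, hq, χ, t, ht1, ht2, ht3⟩ := choose_t hg.bdd hU
    fun η δ K hη hδ => hUl (hloc η δ K hη hδ)
  -- number of companions
  obtain ⟨s, hs⟩ : ∃ s : ℕ, ((A : ℝ) + 1) / (ε / 2) ≤ s := exists_nat_ge _
  have hr : (A : ℝ) + 1 ≤ (ε / 2) * ((r + s : ℕ) : ℝ) := by
    rw [div_le_iff₀ hδ] at hs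
    push_cast
    have : 0 ≤ ε / 2 * (r : ℝ) := by positivity
    nlinarith
  have hcube : ∀ e : Fin (r + s) → ℤ, Function.Injective (vert e) → M (cube g e) = 0 :=
    fun e he => hvan _ ⟨1, norm_cube_le hg.bdd e⟩
      (cube_win hg hU χ t ht1 ht2 ht3 hδ hδ1 hr he)
  have h1 := criterion_mean hM hg hcube (f := Fin.append f fun _ : Fin s => one1)
    (fun i => by
      refine Fin.addCases (fun i => ?_) (fun i => ?_) i
      · rw [Fin.append_left]
        exact hf i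
      · rw [Fin.append_right]
        exact one1_mulBdd) h₀ (Fin.append h' fun _ : Fin s => h₀ + 1)
    (fun i => by
      refine Fin.addCases (fun i => ?_) (fun i => ?_) i
      · rw [Fin.append_left]
        exact hne i
      · rw [Fin.append_right]
        omega)
  have h2 : (fun n : ℤ => g (n + h₀) * ∏ i, (Fin.append f fun _ : Fin s => one1) i
      (n + (Fin.append h' fun _ : Fin s => h₀ + 1) i)) =
      fun n => (g (n + h₀) * ∏ i, f i (n + h' i)) * one1 (n + (h₀ + 1)) ^ s := by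
    funext n
    rw [Fin.prod_univ_add]
    simp only [Fin.append_left, Fin.append_right, Finset.prod_const, Finset.card_univ,
      Fintype.card_fin]
    ring
  rw [h2] at h1
  -- the two functions agree for large `n`
  have hb1 : Bdd fun n : ℤ => g (n + h₀) * ∏ i, f i (n + h' i) := ⟨1, hFb⟩
  have hb2 : Bdd fun n : ℤ => (g (n + h₀) * ∏ i, f i (n + h' i)) * one1 (n + (h₀ + 1)) ^ s := by
    refine ⟨1, fun n => ?_⟩
    rw [norm_mul, norm_pow]
    exact mul_le_one₀ (hFb n) (by positivity) (pow_le_one₀ (norm_nonneg _) (one1_mulBdd.bdd _))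
  have h3 := hvan _ (hb1.sub hb2) (by
    refine tendsto_const_nhds.congr' ?_
    have hbig : ∀ᶠ X : ℕ in atTop, h₀.natAbs + 1 ≤ wlo (ε / 2) X :=
      (wlo_tendsto hδ).eventually_ge_atTop _
    filter_upwards [hU hbig] with X hX
    symm
    rw [← norm_le_zero_iff]
    refine wlog_le (fun n hn => ?_) le_rfl
    have hn1 : wlo (ε / 2) X < n := (Finset.mem_Ioc.1 hn).1
    have h4 : one1 ((n : ℤ) + (h₀ + 1)) = 1 := by
      unfold one1
      rw [if_pos]
      omega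
    rw [h4, one_pow, mul_one, sub_self, norm_zero])
  rw [mean_sub hM hb1 hb2, h1, sub_zero] at h3
  exact hMF h3

end Pool.Agent.Work.MP_58cfe3_nt
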