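import Pool.Agent.Work.MP_58cfe3_nt.WDens
import Pool.Agent.Work.MP_58cfe3_nt.LUni

/-!
# Module LDiag: sets of loglog density zero, diagonal choice (copied from WDens)
-/

set_option autoImplicit false

namespace Pool.Agent.Work.MP_58cfe3_nt

open Filter Topology

private theorem llw_mono {B C : Set ℕ} (h : B ⊆ C) (Y : ℕ) : llw B Y ≤ llw C Y := by
  classical
  unfold llw
  refine Finset.sum_le_sum_of_subset_of_nonneg ?_ fun X hX _ => ?_
  · intro X hX
    rw [Finset.mem_filter] at hX ⊢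
    exact ⟨hX.1, h hX.2⟩
  · have h1 := (Finset.mem_Icc.1 (Finset.mem_filter.1 hX).1).1
    have h2 : (0 : ℝ) ≤ Real.log X := Real.log_natCast_nonneg X
    positivity

private theorem llw_nonneg (B : Set ℕ) (Y : ℕ) : 0 ≤ llw B Y := by
  classical
  unfold llw
  refine Finset.sum_nonneg fun X _ => ?_
  have h2 : (0 : ℝ) ≤ Real.log X := Real.log_natCast_nonneg X
  positivity

private theorem loglog_tendsto : Tendsto (fun Y : ℕ => Real.log (Real.log Y)) atTop atTop :=
  Real.tendsto_log_atTop.comp (Real.tendsto_log_atTop.comp tendsto_natCast_atTop_atTop)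

/-- the diagonal choice -/
theorem ll_diag {B : ℕ → Set ℕ} (hB : Monotone B) (h : ∀ k, LLNull (B k)) :
    ∃ κ : ℕ → ℕ, Tendsto κ atTop atTop ∧ LLNull {X | X ∈ B (κ X)} := by
  have h1 : ∀ k : ℕ, ∃ N : ℕ, ∀ Y : ℕ, N ≤ Y →
      llw (B k) Y ≤ 1 / ((k : ℝ) + 1) * Real.log (Real.log Y) := by
    intro k
    have h2 : (0 : ℝ) < 1 / ((k : ℝ) + 1) := by positivity
    have h3 := ((h k).eventually (ge_mem_nhds h2)).and (loglog_tendsto.eventually_gt_atTop 0)
    obtain ⟨N, hN⟩ := Filter.eventually_atTop.1 h3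
    refine ⟨N, fun Y hY => ?_⟩
    obtain ⟨h4, h5⟩ := hN Y hY
    rwa [div_le_iff₀ h5] at h4
  choose N hN using h1
  let N' : ℕ → ℕ := fun k => k + ∑ j ∈ Finset.range (k + 1), N j
  have hN'1 : ∀ k, N k ≤ N' k := fun k =>
    (Finset.single_le_sum (f := N) (fun _ _ => Nat.zero_le _)
      (Finset.mem_range.2 (Nat.lt_succ_self k))).trans (Nat.le_add_left _ _)
  let κ : ℕ → ℕ := fun X => Nat.findGreatest (fun k => N' k ≤ X) X
  have hκm : Monotone κ := by
    intro X Y hXY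
    by_cases h0 : κ X = 0
    · rw [h0]
      exact Nat.zero_le _
    · have h2 : N' (κ X) ≤ X :=
        Nat.findGreatest_of_ne_zero (P := fun k => N' k ≤ X) (n := X) rfl h0
      exact Nat.le_findGreatest ((Nat.findGreatest_le X).trans hXY) (h2.trans hXY)
  have hκt : Tendsto κ atTop atTop := by
    rw [Filter.tendsto_atTop]
    intro k
    filter_upwards [eventually_ge_atTop (N' k)] with X hX
    refine Nat.le_findGreatest ?_ hX
    exact (Nat.le_add_right k _).trans hX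
  refine ⟨κ, hκt, ?_⟩
  unfold LLNull
  have hb : Tendsto (fun Y : ℕ => 1 / ((κ Y : ℝ) + 1)) atTop (𝓝 0) :=
    tendsto_one_div_add_atTop_nhds_zero_nat.comp hκt
  refine squeeze_zero' ?_ ?_ hb
  · filter_upwards [loglog_tendsto.eventually_gt_atTop 0] with Y hY
    exact div_nonneg (llw_nonneg _ _) hY.le
  · filter_upwards [loglog_tendsto.eventually_gt_atTop 0, hκt.eventually_ge_atTop 1] with Y hY hκ
    rw [div_le_iff₀ hY]
    have h2 : N' (κ Y) ≤ Y :=
      Nat.findGreatest_of_ne_zero (P := fun k => N' k ≤ Y) (n := Y) rfl (by omega)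
    refine le_trans ?_ (hN (κ Y) Y ((hN'1 _).trans h2))
    classical
    unfold llw
    refine Finset.sum_le_sum_of_subset_of_nonneg ?_ fun X _ _ => ?_
    · intro X hX
      obtain ⟨h3, h4⟩ := Finset.mem_filter.1 hX
      exact Finset.mem_filter.2 ⟨h3, hB (hκm (Finset.mem_Icc.1 h3).2) h4⟩
    · have h4 : (0 : ℝ) ≤ Real.log X := Real.log_natCast_nonneg X
      positivity

/-- locally pretentious at almost all scales: one set of scales -/
theorem loc_set {g : ℤ → ℂ} (hb : ∀ n, ‖g n‖ ≤ 1) (h : LocPret g) :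
    ∃ Q A : ℕ, ∃ S : Set ℕ, LLNull Sᶜ ∧
      ∀ η δ : ℝ, 0 < η → 0 < δ → ∀ᶠ X in atTop ⊓ 𝓟 S, NearScale g Q A η δ X := by
  obtain ⟨Q, A, h⟩ := h
  refine ⟨Q, A, ?_⟩
  have hmono : ∀ (k k' : ℕ) (X : ℕ), k' ≤ k → 1 ≤ X →
      NearScale g Q A (1 / ((k : ℝ) + 1)) (1 / ((k : ℝ) + 1)) X →
      NearScale g Q A (1 / ((k' : ℝ) + 1)) (1 / ((k' : ℝ) + 1)) X := by
    rintro k k' X hk hX ⟨q, hq, χ, t, h1, h2, h3⟩
    have hk' : (k' : ℝ) ≤ k := by exact_mod_cast hk
    have h4 : 1 / ((k : ℝ) + 1) ≤ 1 / ((k' : ℝ) + 1) :=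
      one_div_le_one_div_of_le (by positivity) (by linarith)
    exact ⟨q, hq, χ, t, h1, h2, (mass_anti hb χ t h4 hX).trans (h3.trans h4)⟩
  let B : ℕ → Set ℕ := fun k =>
    {X | 1 ≤ X ∧ ¬ NearScale g Q A (1 / ((k : ℝ) + 1)) (1 / ((k : ℝ) + 1)) X}
  have hBm : Monotone B := by
    intro j k hjk X hX
    exact ⟨hX.1, fun hcon => hX.2 (hmono k j X hjk hX.1 hcon)⟩
  have hB0 : ∀ k, LLNull (B k) := by
    intro k
    have h1 := h (1 / ((k : ℝ) + 1)) (1 / ((k : ℝ) + 1)) (by positivity) (by positivity)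
    unfold LLNull at h1 ⊢
    refine squeeze_zero' ?_ ?_ h1
    · filter_upwards [loglog_tendsto.eventually_gt_atTop 0] with Y hY
      exact div_nonneg (llw_nonneg _ _) hY.le
    · filter_upwards [loglog_tendsto.eventually_gt_atTop 0] with Y hY
      exact div_le_div_of_nonneg_right (llw_mono (fun X hX => hX.2) Y) hY.le
  obtain ⟨κ, hκ, hnull⟩ := ll_diag hBm hB0
  refine ⟨{X | X ∉ B (κ X)}, ?_, fun η δ hη hδ => ?_⟩
  · have : ({X | X ∉ B (κ X)} : Set ℕ)ᶜ = {X | X ∈ B (κ X)} := by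
      ext X
      simp
    rw [this]
    exact hnull
  · obtain ⟨k, hk⟩ := exists_nat_one_div_lt (lt_min hη hδ)
    have i1 : (atTop ⊓ 𝓟 {X : ℕ | X ∉ B (κ X)} : Filter ℕ) ≤ atTop := inf_le_left
    have i2 : (atTop ⊓ 𝓟 {X : ℕ | X ∉ B (κ X)} : Filter ℕ) ≤ 𝓟 {X : ℕ | X ∉ B (κ X)} :=
      inf_le_right
    filter_upwards [i1 (hκ.eventually_ge_atTop k), i1 (eventually_ge_atTop 1),
      i2 (Filter.mem_principal_self _)] with X hX1 hX2 hX3
    have h3 : NearScale g Q A (1 / ((κ X : ℝ) + 1)) (1 / ((κ X : ℝ) + 1)) X := by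
      by_contra hcon
      exact hX3 ⟨hX2, hcon⟩
    obtain ⟨q, hq, χ, t, h4, h5, h6⟩ := hmono (κ X) k X hX1 hX2 h3
    have h7 := (hk.trans_le (min_le_left _ _)).le
    have h8 := (hk.trans_le (min_le_right _ _)).le
    exact ⟨q, hq, χ, t, h4, h5, (mass_anti hb χ t h7 hX2).trans (h6.trans h8)⟩

private theorem llw_union (B C : Set ℕ) (Y : ℕ) : llw (B ∪ C) Y ≤ llw B Y + llw C Y := by
  classical
  unfold llw
  rw [Finset.sum_filter, Finset.sum_filter, Finset.sum_filter, ← Finset.sum_add_distrib]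
  refine Finset.sum_le_sum fun X _ => ?_
  have h0 : 0 ≤ 1 / ((X : ℝ) * Real.log X) := by
    have : (0 : ℝ) ≤ Real.log X := Real.log_natCast_nonneg X
    positivity
  by_cases h1 : X ∈ B
  · by_cases h2 : X ∈ C
    · rw [if_pos (Set.mem_union_left C h1), if_pos h1, if_pos h2]
      linarith
    · rw [if_pos (Set.mem_union_left C h1), if_pos h1, if_neg h2, add_zero]
  · by_cases h2 : X ∈ C
    · rw [if_pos (Set.mem_union_right B h2), if_neg h1, if_pos h2, zero_add]
    · rw [if_neg (by rintro (h | h); exacts [h1 h, h2 h]), if_neg h1, if_neg h2, add_zero]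

private theorem llw_Iio (N Y : ℕ) : llw (Set.Iio N) Y ≤ (N : ℝ) * 2 := by
  classical
  unfold llw
  rw [Finset.sum_filter]
  refine (Finset.sum_le_sum (g := fun X : ℕ => if X < N then (2 : ℝ) else 0) fun X hX => ?_).trans ?_
  · by_cases hXN : X ∈ Set.Iio N
    · rw [if_pos hXN, if_pos (Set.mem_Iio.1 hXN)]
      have h6 : (2 : ℝ) ≤ X := by exact_mod_cast (Finset.mem_Icc.1 hX).1
      have h7 : Real.log 2 ≤ Real.log X := Real.log_le_log (by norm_num) h6
      have h8 := Real.log_two_gt_d9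
      rw [div_le_iff₀ (mul_pos (by linarith) (by linarith))]
      nlinarith
    · rw [if_neg hXN, if_neg (fun h => hXN (Set.mem_Iio.2 h))]
  rw [← Finset.sum_filter, Finset.sum_const, nsmul_eq_mul]
  refine mul_le_mul_of_nonneg_right ?_ (by norm_num)
  have h6 : (Finset.Icc 2 Y).filter (fun X => X < N) ⊆ Finset.range N := by
    intro X hX
    exact Finset.mem_range.2 (Finset.mem_filter.1 hX).2
  have h7 := Finset.card_le_card h6
  rw [Finset.card_range] at h7
  exact_mod_cast h7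

/-- weakly pretentious functions are locally pretentious -/
theorem weak_loc {g : ℤ → ℂ} (hb : ∀ n, ‖g n‖ ≤ 1) (h : WeakPret g) : LocPret g := by
  obtain ⟨q, hq, χ, t, h⟩ := h
  obtain ⟨S, hS, hnear⟩ := near_scales hb χ t h
  obtain ⟨N, hN⟩ := exists_nat_ge |t|
  refine ⟨q, 1, fun η δ hη hδ => ?_⟩
  have h1 := (hnear η hη).eventually (ge_mem_nhds hδ)
  rw [Filter.eventually_inf_principal, Filter.eventually_atTop] at h1
  obtain ⟨X₀, hX₀⟩ := h1
  have hsub : {X | ¬ NearScale g q 1 η δ X} ⊆ Sᶜ ∪ Set.Iio (X₀ + N) := by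
    intro X hX
    by_contra hcon
    rw [Set.mem_union, not_or, Set.notMem_compl_iff, Set.mem_Iio, not_lt] at hcon
    refine hX ⟨q, hq, χ, t, le_rfl, ?_, hX₀ X (by omega) hcon.1⟩
    rw [pow_one]
    refine hN.trans ?_
    exact_mod_cast (by omega : N ≤ X)
  unfold LLNull at hS ⊢
  have hfin : Tendsto (fun Y : ℕ => (X₀ + N : ℕ) * (2 : ℝ) / Real.log (Real.log Y)) atTop (𝓝 0) :=
    tendsto_const_nhds.div_atTop loglog_tendsto
  have h2 := hS.add hfin
  rw [add_zero] at h2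
  refine squeeze_zero' ?_ ?_ h2
  · filter_upwards [loglog_tendsto.eventually_gt_atTop 0] with Y hY
    exact div_nonneg (llw_nonneg _ _) hY.le
  · filter_upwards [loglog_tendsto.eventually_gt_atTop 0] with Y hY
    rw [← add_div]
    refine div_le_div_of_nonneg_right ?_ hY.le
    refine (llw_mono hsub Y).trans ((llw_union _ _ Y).trans ?_)
    refine add_le_add le_rfl ?_
    exact llw_Iio _ Y

end Pool.Agent.Work.MP_58cfe3_nt
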