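import Pool.Agent.Work.MP_58cfe3_nt.Mer
import Pool.Agent.Work.MP_58cfe3_nt.LDiag

/-!
# Module LFar: (H) gives large distances for all characters of bounded modulus and `|t| ≤ X^A`
-/

set_option autoImplicit false

namespace Pool.Agent.Work.MP_58cfe3_nt

open Filter Topology

private theorem lf_gap_le {g : ℤ → ℂ} (hb : ∀ n, ‖g n‖ ≤ 1) {q : ℕ}
    (χ : DirichletCharacter ℂ q) (t : ℝ) (p : ℕ) : gap g χ t p ≤ 2 := by
  unfold gap
  have h1 : ‖g p * star (χ p * (p : ℂ) ^ ((t : ℂ) * Complex.I))‖ ≤ 1 := by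
    rw [norm_mul, norm_star, norm_mul]
    have h2 : ‖χ p‖ ≤ 1 := DirichletCharacter.norm_le_one χ _
    have h3 : ‖(p : ℂ) ^ ((t : ℂ) * Complex.I)‖ ≤ 1 := by
      rcases Nat.eq_zero_or_pos p with h0 | h0
      · subst h0
        by_cases ht : (t : ℂ) * Complex.I = 0
        · rw [ht]
          simp
        · rw [Nat.cast_zero, Complex.zero_cpow ht]
          simp
      · rw [Complex.norm_natCast_cpow_of_pos h0]
        simp
    exact mul_le_one₀ (hb _) (by positivity) (mul_le_one₀ h2 (norm_nonneg _) h3)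
  have h2 := (Complex.abs_re_le_norm (g p * star (χ p * (p : ℂ) ^ ((t : ℂ) * Complex.I)))).trans h1
  have h3 := (abs_le.1 h2).1
  linarith

/-- the distance up to `X ^ (A + 1)` exceeds the distance up to `X` by a bounded amount -/
private theorem lf_pow {g : ℤ → ℂ} (hb : ∀ n, ‖g n‖ ≤ 1) (A : ℕ) :
    ∃ C : ℝ, ∀ᶠ X : ℕ in atTop, ∀ (q : ℕ) (χ : DirichletCharacter ℂ q) (t : ℝ),
      dist2 g χ t (X ^ (A + 1)) ≤ dist2 g χ t X + C := by
  have hθ : (0 : ℝ) < 1 / ((A : ℝ) + 1) := by positivity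
  have hθ1 : (1 : ℝ) / ((A : ℝ) + 1) ≤ 1 := by
    rw [div_le_one (by positivity)]
    have : (0 : ℝ) ≤ A := Nat.cast_nonneg A
    linarith
  refine ⟨2 * (Real.log (1 / (1 / ((A : ℝ) + 1))) + 1), ?_⟩
  have hpow : Tendsto (fun X : ℕ => X ^ (A + 1)) atTop atTop :=
    tendsto_pow_atTop (Nat.succ_ne_zero A)
  filter_upwards [hpow.eventually (mert_win hθ hθ1)] with X hX q χ t
  have hroot : ((X ^ (A + 1) : ℕ) : ℝ) ^ (1 / ((A : ℝ) + 1)) = X := by
    rw [Nat.cast_pow, ← Real.rpow_natCast, ← Real.rpow_mul (Nat.cast_nonneg X)]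
    have h1 : (((A + 1 : ℕ) : ℝ)) * (1 / ((A : ℝ) + 1)) = 1 := by
      push_cast
      field_simp
    rw [h1, Real.rpow_one]
  rw [hroot] at hX
  unfold dist2
  have hsub : (Finset.Icc 1 (X ^ (A + 1))).filter Nat.Prime ⊆
      (Finset.Icc 1 X).filter Nat.Prime ∪ (Finset.Icc 1 (X ^ (A + 1))).filter
        (fun p : ℕ => p.Prime ∧ (X : ℝ) < p) := by
    intro p hp
    rw [Finset.mem_filter, Finset.mem_Icc] at hp
    rw [Finset.mem_union, Finset.mem_filter, Finset.mem_filter, Finset.mem_Icc, Finset.mem_Icc]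
    rcases le_or_gt p X with h1 | h1
    · exact Or.inl ⟨⟨hp.1.1, h1⟩, hp.2⟩
    · exact Or.inr ⟨hp.1, hp.2, by exact_mod_cast h1⟩
  have hnn : ∀ p : ℕ, 0 ≤ gap g χ t p / (p : ℝ) := fun p =>
    div_nonneg (lu_gap_nonneg hb χ t p) (Nat.cast_nonneg _)
  refine (Finset.sum_le_sum_of_subset_of_nonneg hsub fun p _ _ => hnn p).trans ?_
  have h3 : ∀ S T : Finset ℕ, ∑ p ∈ S ∪ T, gap g χ t p / (p : ℝ) ≤
      ∑ p ∈ S, gap g χ t p / (p : ℝ) + ∑ p ∈ T, gap g χ t p / (p : ℝ) := by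
    intro S T
    rw [← Finset.sum_union_inter]
    exact le_add_of_nonneg_right (Finset.sum_nonneg fun p _ => hnn p)
  refine (h3 _ _).trans (add_le_add le_rfl ?_)
  refine le_trans ?_ (mul_le_mul_of_nonneg_left hX (by norm_num))
  rw [Finset.mul_sum]
  refine Finset.sum_le_sum fun p _ => ?_
  rw [mul_one_div]
  exact div_le_div_of_nonneg_right (lf_gap_le hb χ t p) (Nat.cast_nonneg _)

/-- (H) gives large distances -/
theorem nonpret_far {g : ℤ → ℂ} (hb : ∀ n, ‖g n‖ ≤ 1) (hn : NonPret g) (Q A : ℕ) (K : ℝ) :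
    ∀ᶠ X : ℕ in atTop, ∀ (q : ℕ) (_ : NeZero q) (χ : DirichletCharacter ℂ q) (t : ℝ), q ≤ Q →
      |t| ≤ (X : ℝ) ^ A → K ≤ dist2 g χ t X := by
  obtain ⟨C, hC⟩ := lf_pow hb A
  have hpow : Tendsto (fun X : ℕ => X ^ (A + 1)) atTop atTop :=
    tendsto_pow_atTop (Nat.succ_ne_zero A)
  have h1 : ∀ c : (q : Fin Q) × DirichletCharacter ℂ ((q : ℕ) + 1), ∀ᶠ X : ℕ in atTop,
      ∀ t : ℝ, |t| ≤ (X : ℝ) ^ A → K ≤ dist2 g c.2 t X := by
    intro c
    have h2 := (hn ((c.1 : ℕ) + 1) c.2).comp hpow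
    filter_upwards [h2.eventually_ge_atTop (|K + C| + 1), hC, eventually_ge_atTop 1]
      with X hX hXC hX1 t ht
    have hX1' : (1 : ℝ) ≤ X := by exact_mod_cast hX1
    have ht2 : |t| ≤ ((X ^ (A + 1) : ℕ) : ℝ) := by
      push_cast
      refine ht.trans ?_
      exact pow_le_pow_right₀ hX1' (Nat.le_succ A)
    have h3 := ciInf_le (f := fun s : Set.Icc (-((X ^ (A + 1) : ℕ) : ℝ)) ((X ^ (A + 1) : ℕ) : ℝ) =>
      Real.sqrt (dist2 g c.2 s (X ^ (A + 1)))) ⟨0, by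
        rintro _ ⟨s, rfl⟩
        exact Real.sqrt_nonneg _⟩ ⟨t, abs_le.1 ht2⟩
    have h4 : |K + C| + 1 ≤ Real.sqrt (dist2 g c.2 t (X ^ (A + 1))) := le_trans hX h3
    have h5 : 0 ≤ |K + C| := abs_nonneg _
    have h6 : 0 < Real.sqrt (dist2 g c.2 t (X ^ (A + 1))) := by linarith
    have h7 := Real.sq_sqrt (Real.sqrt_pos.1 h6).le
    have h8 : |K + C| ≤ dist2 g c.2 t (X ^ (A + 1)) := by
      rw [← h7]
      nlinarith
    have h9 := hXC _ c.2 t
    have h10 := le_abs_self (K + C)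
    linarith
  have h2 : ∀ᶠ X : ℕ in atTop, ∀ c : (q : Fin Q) × DirichletCharacter ℂ ((q : ℕ) + 1),
      ∀ t : ℝ, |t| ≤ (X : ℝ) ^ A → K ≤ dist2 g c.2 t X := Filter.eventually_all.2 h1
  filter_upwards [h2] with X hX q hq χ t hqQ ht
  obtain ⟨q', rfl⟩ : ∃ q', q = q' + 1 := ⟨q - 1, by have := hq.out; omega⟩
  exact hX ⟨⟨q', by omega⟩, χ⟩ t ht

/-- (H) and near give near and far -/
theorem near_far {g : ℤ → ℂ} (hb : ∀ n, ‖g n‖ ≤ 1) (hn : NonPret g) (Q A : ℕ) (η δ K : ℝ) :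
    ∀ᶠ X : ℕ in atTop, NearScale g Q A η δ X → NearFar g Q A η δ K X := by
  filter_upwards [nonpret_far hb hn Q A K] with X hX h
  obtain ⟨q, hq, χ, t, h1, h2, h3⟩ := h
  exact ⟨q, hq, χ, t, h1, h2, h3, hX q hq χ t h1 h2⟩

/-- locally pretentious functions which satisfy (H): one set of scales, arbitrary companions -/
theorem loc_scales {g : ℤ → ℂ} (hg : MulBdd g) (hn : NonPret g) (h : LocPret g) :
    ∃ S : Set ℕ, LLNull Sᶜ ∧ ∀ r : ℕ, UniversalAt (atTop ⊓ 𝓟 S) g r := by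
  obtain ⟨Q, A, S, hS, hnear⟩ := loc_set hg.bdd h
  have hl : (atTop ⊓ 𝓟 S : Filter ℕ) ≤ atTop := inf_le_left
  refine ⟨S, hS, fun r => loc_universal (Q := Q) (A := A) hg hl (fun η δ K hη hδ => ?_) r⟩
  filter_upwards [hnear η δ hη hδ, hl (near_far hg.bdd hn Q A η δ K)] with X hX1 hX2
  exact hX2 hX1

end Pool.Agent.Work.MP_58cfe3_nt
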