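import Pool.Agent.Work.MP_58cfe3_nt.LFar

/-!
# Module LTup: tuples; slow functions
-/

set_option autoImplicit false

namespace Pool.Agent.Work.MP_58cfe3_nt

open Filter Topology

private theorem nearfar_mono {g : ℤ → ℂ} (hb : ∀ n, ‖g n‖ ≤ 1) {Q A : ℕ} {η δ K η' δ' K' : ℝ}
    (h1 : η ≤ η') (h2 : δ ≤ δ') (h3 : K' ≤ K) {X : ℕ} (hX : 1 ≤ X)
    (h : NearFar g Q A η δ K X) : NearFar g Q A η' δ' K' X := by
  obtain ⟨q, hq, χ, t, h4, h5, h6, h7⟩ := h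
  exact ⟨q, hq, χ, t, h4, h5, (mass_anti hb χ t h1 hX).trans (h6.trans h2), h3.trans h7⟩

/-- tuples: at each scale some function is locally pretentious and far -/
theorem loc_tuple {k : ℕ} {g : Fin k → ℤ → ℂ} (hg : ∀ i, MulBdd (g i)) {h : Fin k → ℤ}
    {l : Filter ℕ} (hl : l ≤ atTop) {Q A : ℕ}
    (hloc : ∀ η δ K : ℝ, 0 < η → 0 < δ → ∀ᶠ X in l, ∃ j, (∀ i, i ≠ j → h i ≠ h j) ∧
      NearFar (g j) Q A η δ K X) :
    Tendsto (Elog fun n => ∏ i, g i (n + h i)) l (𝓝 0) := by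
  classical
  rw [tendsto_iff_ultrafilter]
  intro U hU
  have hU1 : (U : Filter ℕ) ≤ atTop := hU.trans hl
  -- for each number `m` some `j`
  have hex : ∀ m : ℕ, ∃ j, ∀ᶠ X in (U : Filter ℕ), (∀ i, i ≠ j → h i ≠ h j) ∧
      NearFar (g j) Q A (1 / (m + 1)) (1 / (m + 1)) m X := by
    intro m
    have h1 := hU (hloc (1 / (m + 1)) (1 / (m + 1)) m (by positivity) (by positivity))
    have h2 : (⋃ j ∈ (Set.univ : Set (Fin k)), {X | (∀ i, i ≠ j → h i ≠ h j) ∧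
        NearFar (g j) Q A (1 / (m + 1)) (1 / (m + 1)) m X}) ∈ U := by
      refine Filter.mem_of_superset h1 fun X hX => ?_
      obtain ⟨j, hj⟩ := hX
      rw [Set.mem_iUnion₂]
      exact ⟨j, Set.mem_univ _, hj⟩
    rw [Ultrafilter.finite_biUnion_mem_iff Set.finite_univ] at h2
    obtain ⟨j, _, hj⟩ := h2
    exact ⟨j, hj⟩
  choose c hc using hex
  obtain ⟨j, hj⟩ := Finite.exists_infinite_fiber c
  have hinf := Set.infinite_coe_iff.1 hj
  have hall : ∀ η δ K : ℝ, 0 < η → 0 < δ → ∀ᶠ X in (U : Filter ℕ),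
      (∀ i, i ≠ j → h i ≠ h j) ∧ NearFar (g j) Q A η δ K X := by
    intro η δ K hη hδ
    obtain ⟨m₀, hm₀⟩ := exists_nat_one_div_lt (lt_min hη hδ)
    obtain ⟨m₁, hm₁⟩ := exists_nat_ge K
    obtain ⟨m, hm, hmm⟩ := hinf.exists_gt (m₀ + m₁)
    have h1 := hc m
    rw [show c m = j from hm] at h1
    have h2 : (m₀ : ℝ) ≤ m := by exact_mod_cast (by omega : m₀ ≤ m)
    have h3 : (m₁ : ℝ) ≤ m := by exact_mod_cast (by omega : m₁ ≤ m)
    have h4 : 1 / ((m : ℝ) + 1) ≤ 1 / ((m₀ : ℝ) + 1) :=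
      one_div_le_one_div_of_le (by positivity) (by linarith)
    have h5 := lt_of_le_of_lt h4 hm₀
    filter_upwards [h1, hU1 (eventually_ge_atTop 1)] with X hX hX1
    exact ⟨hX.1, nearfar_mono (hg j).bdd ((h5.trans_le (min_le_left _ _)).le)
      ((h5.trans_le (min_le_right _ _)).le) (hm₁.trans h3) hX1 hX.2⟩
  have hne : ∀ i, i ≠ j → h i ≠ h j := by
    obtain ⟨X, hX⟩ := (hall 1 1 0 one_pos one_pos).exists
    exact hX.1
  obtain ⟨m, rfl⟩ : ∃ m, k = m + 1 := ⟨k - 1, by have := j.isLt; omega⟩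
  have h1 := loc_universal (hg j) hU1 (fun η δ K hη hδ => (hall η δ K hη hδ).mono fun X hX => hX.2)
    m (fun i => g (j.succAbove i)) (fun i => hg _) (h j) (fun i => h (j.succAbove i))
    (fun i => hne _ (Fin.succAbove_ne j i))
  refine h1.congr fun X => ?_
  congr 1
  funext n
  rw [Fin.prod_univ_succAbove _ j]

/-- slow functions -/
theorem slow_loc {g : ℤ → ℂ} (h : Slow g) : ∃ Q A : ℕ, ∀ η δ K : ℝ, 0 < η → 0 < δ →
    ∀ᶠ X in atTop, NearFar g Q A η δ K X := by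
  obtain ⟨q, hq, χ, t, h1, h2⟩ := h
  obtain ⟨N, hN⟩ := exists_nat_ge |t|
  refine ⟨q, 1, fun η δ K hη hδ => ?_⟩
  filter_upwards [(h1 η hη).eventually (ge_mem_nhds hδ), h2.eventually_ge_atTop K,
    eventually_ge_atTop N] with X hX1 hX2 hX3
  refine ⟨q, hq, χ, t, le_rfl, ?_, hX1, hX2⟩
  rw [pow_one]
  exact hN.trans (by exact_mod_cast hX3)

end Pool.Agent.Work.MP_58cfe3_nt
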