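import Pool.Agent.Work.MP_58cfe3_nt.FUni
import Pool.Agent.Work.MP_58cfe3_nt.LFar
import Pool.Agent.Work.MP_58cfe3_nt.LTup

/-!
# Module FEnd: consequences of the finitary theorem for one function
-/

set_option autoImplicit false

namespace Pool.Agent.Work.MP_58cfe3_nt

open Filter Topology

/-- a function which is near and far at all large scales of `S` -/
theorem unif_of_near {g : ℤ → ℂ} (hg : MulBdd g) {S : Set ℕ} {Q A : ℕ}
    (h : ∀ η δ K : ℝ, 0 < η → 0 < δ → ∀ᶠ X in atTop ⊓ 𝓟 S, NearFar g Q A η δ K X) :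
    UnifOn S g := by
  intro r h₀ h' hne ε hε
  obtain ⟨η, δ, K, ω₀, hη, hδ, hω, hmain⟩ := unif_win h₀ h' hne Q A hε
  have h1 := h η δ K hη hδ
  rw [Filter.eventually_inf_principal, Filter.eventually_atTop] at h1
  obtain ⟨N, hN⟩ := h1
  refine ⟨max ω₀ N, lt_max_of_lt_left hω, fun X hX ω hω1 hω2 f hf => ?_⟩
  refine hmain X ω ((le_max_left _ _).trans hω1) hω2 g hg (hN X ?_ hX) f hf
  have h2 : (N : ℝ) ≤ X := ((le_max_right _ _).trans hω1).trans hω2
  exact_mod_cast h2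

/-- the windows `1 < n ≤ X` -/
theorem univ_of_unif {g : ℤ → ℂ} (hg : MulBdd g) {S : Set ℕ} (h : UnifOn S g) (r : ℕ) :
    UniversalAt (atTop ⊓ 𝓟 S) g r := by
  intro f hf h₀ h' hne
  rw [Metric.tendsto_nhds]
  intro ε hε
  obtain ⟨ω₀, hω, hmain⟩ := h r h₀ h' hne (ε / 2) (half_pos hε)
  rw [Filter.eventually_inf_principal]
  have hlog : Tendsto (fun X : ℕ => Real.log X) atTop atTop :=
    Real.tendsto_log_atTop.comp tendsto_natCast_atTop_atTop
  filter_upwards [tendsto_natCast_atTop_atTop.eventually_ge_atTop ω₀,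
    hlog.eventually_gt_atTop (2 / ε), eventually_ge_atTop 2] with X hX1 hX2 hX3 hXS
  have h1 := hmain X hXS X hX1 le_rfl f hf
  obtain ⟨F, hF⟩ : ∃ F : ℤ → ℂ, F = fun n => g (n + h₀) * ∏ i, f i (n + h' i) := ⟨_, rfl⟩
  have hFb : ∀ n, ‖F n‖ ≤ 1 := by
    intro n
    rw [hF]
    dsimp only
    rw [norm_mul]
    exact mul_le_one₀ (hg.bdd _) (norm_nonneg _)
      (norm_prod_le_one _ _ fun i _ => (hf i).bdd _)
  have h2 : ‖∑ n ∈ Finset.Ioc ⌊(X : ℝ) / X⌋₊ X, F n / n‖ ≤ ε / 2 * Real.log X := by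
    rw [hF]
    exact h1
  rw [← hF]
  have hX0 : (0 : ℝ) < X := by exact_mod_cast (by omega : 0 < X)
  rw [div_self hX0.ne', Nat.floor_one] at h2
  have hsplit : ∑ n ∈ Finset.Icc 1 X, F n / (n : ℂ) = F (1 : ℕ) / ((1 : ℕ) : ℂ) +
      ∑ n ∈ Finset.Ioc 1 X, F n / (n : ℂ) := by
    rw [← Finset.Icc_erase_left, ← Finset.add_sum_erase _ _ (Finset.mem_Icc.2
      ⟨le_rfl, by omega⟩ : (1 : ℕ) ∈ Finset.Icc 1 X)]
  have hden : (∑ n ∈ Finset.Icc 1 X, (1 / n : ℂ)) =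
      ((∑ n ∈ Finset.Icc 1 X, (1 / n : ℝ) : ℝ) : ℂ) := by
    push_cast
    rfl
  have hden2 : Real.log X ≤ ∑ n ∈ Finset.Icc 1 X, (1 / n : ℝ) := by
    have h3 : (∑ n ∈ Finset.Icc 1 X, (1 / n : ℝ)) = ((harmonic X : ℚ) : ℝ) := by
      have h4 : ∀ Y : ℕ, (∑ n ∈ Finset.Icc 1 Y, (1 / n : ℝ)) = ((harmonic Y : ℚ) : ℝ) := by
        intro Y
        induction Y with
        | zero => simp
        | succ Y ih =>
          rw [Finset.sum_Icc_succ_top (by omega), ih, harmonic_succ]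
          push_cast
          rw [one_div]
      exact h4 X
    rw [h3]
    refine le_trans ?_ (log_add_one_le_harmonic X)
    exact Real.log_le_log hX0 (by push_cast; linarith)
  have hlp : 0 < Real.log X := lt_trans (by positivity) hX2
  rw [dist_zero_right, Elog, hden, norm_div, Complex.norm_real, Real.norm_eq_abs,
    abs_of_pos (lt_of_lt_of_le hlp hden2), div_lt_iff₀ (lt_of_lt_of_le hlp hden2), hsplit]
  have h5 : ‖F (1 : ℕ) / ((1 : ℕ) : ℂ)‖ ≤ 1 := by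
    simp only [Nat.cast_one, div_one]
    exact hFb _
  rw [div_lt_iff₀ hε] at hX2
  calc _ ≤ 1 + ε / 2 * Real.log X := (norm_add_le _ _).trans (add_le_add h5 h2)
    _ < ε * Real.log X := by linarith
    _ ≤ _ := mul_le_mul_of_nonneg_left hden2 hε.le

/-- locally pretentious functions which satisfy (H) -/
theorem unif_scales {g : ℤ → ℂ} (hg : MulBdd g) (hn : NonPret g) (h : LocPret g) :
    ∃ S : Set ℕ, LLNull Sᶜ ∧ UnifOn S g ∧ ∀ r : ℕ, UniversalAt (atTop ⊓ 𝓟 S) g r := by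
  obtain ⟨Q, A, S, hS, hnear⟩ := loc_set hg.bdd h
  have hl : (atTop ⊓ 𝓟 S : Filter ℕ) ≤ atTop := inf_le_left
  have h1 : UnifOn S g := unif_of_near (Q := Q) (A := A) hg fun η δ K hη hδ => by
    filter_upwards [hnear η δ hη hδ, hl (near_far hg.bdd hn Q A η δ K)] with X hX1 hX2
    exact hX2 hX1
  exact ⟨S, hS, h1, fun r => univ_of_unif hg h1 r⟩

/-- slow functions -/
theorem unif_slow {g : ℤ → ℂ} (hg : MulBdd g) (h : Slow g) :
    UnifOn Set.univ g ∧ ∀ r : ℕ, UniversalAt atTop g r := by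
  obtain ⟨Q, A, h1⟩ := slow_loc h
  have h2 : UnifOn Set.univ g := unif_of_near (Q := Q) (A := A) hg fun η δ K hη hδ => by
    rw [Filter.principal_univ, inf_top_eq]
    exact h1 η δ K hη hδ
  refine ⟨h2, fun r => ?_⟩
  have h3 := univ_of_unif hg h2 r
  rwa [Filter.principal_univ, inf_top_eq] at h3

end Pool.Agent.Work.MP_58cfe3_nt
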