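import Pool.Agent.Work.MP_58cfe3_nt.LMean

/-!
# Module GWa: averages over short windows

The window of the scale `X` is `(a X, X]` with `a X` at least a power of `X` and with
`log (X / a X) → ∞` along the filter of scales.
-/

set_option autoImplicit false

namespace Pool.Agent.Work.MP_58cfe3_nt

open Filter Topology

/-- the harmonic sum of the window -/
noncomputable def hw (a : ℕ → ℕ) (X : ℕ) : ℝ := ∑ n ∈ Finset.Ioc (a X) X, (1 / n : ℝ)

/-- logarithmic average over the window `(a X, X]` -/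
noncomputable def Wa (a : ℕ → ℕ) (f : ℤ → ℂ) (X : ℕ) : ℂ :=
  (∑ n ∈ Finset.Ioc (a X) X, f n / n) / ((hw a X : ℝ) : ℂ)

theorem hw_nonneg (a : ℕ → ℕ) (X : ℕ) : 0 ≤ hw a X := Finset.sum_nonneg fun n _ => by positivity

/-- windowed averages are bounded by the average of the norm -/
theorem wa_le_sum (a : ℕ → ℕ) (f : ℤ → ℂ) (X : ℕ) :
    ‖Wa a f X‖ ≤ (∑ n ∈ Finset.Ioc (a X) X, ‖f n‖ / n) / hw a X := by
  rw [Wa, norm_div, Complex.norm_real, Real.norm_eq_abs, abs_of_nonneg (hw_nonneg a X)]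
  refine div_le_div_of_nonneg_right ?_ (hw_nonneg a X)
  refine (norm_sum_le _ _).trans (Finset.sum_le_sum fun n _ => ?_)
  rw [norm_div, Complex.norm_natCast]

theorem wa_le {a : ℕ → ℕ} {f : ℤ → ℂ} {C : ℝ} {X : ℕ}
    (h : ∀ n ∈ Finset.Ioc (a X) X, ‖f n‖ ≤ C) (hC : 0 ≤ C) : ‖Wa a f X‖ ≤ C := by
  refine (wa_le_sum a f X).trans (div_le_of_le_mul₀ (hw_nonneg a X) hC ?_)
  rw [hw, Finset.mul_sum]
  refine Finset.sum_le_sum fun n hn => ?_
  rw [mul_one_div]
  exact div_le_div_of_nonneg_right (h n hn) (Nat.cast_nonneg n)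

theorem wa_add (a : ℕ → ℕ) (f g : ℤ → ℂ) (X : ℕ) :
    Wa a (fun n => f n + g n) X = Wa a f X + Wa a g X := by
  unfold Wa
  rw [← add_div, ← Finset.sum_add_distrib]
  congr 1
  exact Finset.sum_congr rfl fun n _ => add_div _ _ _

theorem wa_smul (a : ℕ → ℕ) (c : ℂ) (f : ℤ → ℂ) (X : ℕ) :
    Wa a (fun n => c * f n) X = c * Wa a f X := by
  unfold Wa
  rw [← mul_div_assoc, Finset.mul_sum]
  congr 1
  exact Finset.sum_congr rfl fun n _ => mul_div_assoc _ _ _

theorem wa_sum {ι : Type*} (a : ℕ → ℕ) (s : Finset ι) (f : ι → ℤ → ℂ) (X : ℕ) :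
    Wa a (fun n => ∑ i ∈ s, f i n) X = ∑ i ∈ s, Wa a (f i) X := by
  classical
  induction s using Finset.induction_on with
  | empty => simp [Wa]
  | insert b s hb ih =>
    rw [Finset.sum_insert hb, ← ih, ← wa_add]
    congr 1
    funext n
    rw [Finset.sum_insert hb]

theorem wa_congr {a : ℕ → ℕ} {f g : ℤ → ℂ} {X : ℕ}
    (h : ∀ n ∈ Finset.Ioc (a X) X, f n = g n) : Wa a f X = Wa a g X := by
  unfold Wa
  congr 1
  exact Finset.sum_congr rfl fun n hn => by rw [h n hn]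

/-! ### partial summation -/

theorem part_sum {f : ℕ → ℂ} {η : ℝ} {a X : ℕ} (ha : 1 ≤ a) (haX : a ≤ X)
    (h : ∀ x, a ≤ x → x ≤ X → ‖∑ n ∈ Finset.Icc 1 x, f n‖ ≤ η * x) :
    ‖∑ n ∈ Finset.Ioc a X, f n / n‖ ≤ 2 * η + η * ∑ n ∈ Finset.Ioc a X, (1 / n : ℝ) := by
  obtain ⟨F, hF⟩ : ∃ F : ℕ → ℂ, F = fun n : ℕ => ∑ m ∈ Finset.Icc 1 n, f m := ⟨_, rfl⟩
  have hFs : ∀ n, F (n + 1) = F n + f (n + 1) := by
    intro n
    rw [hF]
    exact Finset.sum_Icc_succ_top (by omega) _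
  have hFn : ∀ x, a ≤ x → x ≤ X → ‖F x‖ ≤ η * x := by
    intro x h1 h2
    rw [hF]
    exact h x h1 h2
  have hη : 0 ≤ η := by
    have h1 := (norm_nonneg _).trans (hFn a le_rfl haX)
    have h2 : (0 : ℝ) < a := by exact_mod_cast ha
    by_contra hcon
    push Not at hcon
    nlinarith
  have hid : ∀ Y : ℕ, a ≤ Y → ∑ n ∈ Finset.Ioc a Y, f n / (n : ℂ) =
      F Y / (Y : ℂ) - F a / (a : ℂ) + ∑ n ∈ Finset.Ioc a Y, F (n - 1) / (((n - 1 : ℕ) : ℂ) * n) := by
    intro Y hY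
    induction Y, hY using Nat.le_induction with
    | base => simp
    | succ Y hY ih =>
      rw [Finset.sum_Ioc_succ_top (by omega), Finset.sum_Ioc_succ_top (by omega), ih,
        Nat.add_sub_cancel]
      have h1 : ((Y : ℂ) + 1) ≠ 0 := by exact_mod_cast Nat.succ_ne_zero Y
      have h2 : (Y : ℂ) ≠ 0 := by
        have : Y ≠ 0 := by omega
        exact_mod_cast this
      rw [hFs]
      push_cast
      field_simp
      ring
  rw [hid X haX]
  have h1 : ∀ Y, a ≤ Y → Y ≤ X → ‖F Y / (Y : ℂ)‖ ≤ η := by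
    intro Y h2 h3
    rw [norm_div, Complex.norm_natCast]
    have h4 : (0 : ℝ) < Y := by exact_mod_cast (by omega : 0 < Y)
    rw [div_le_iff₀ h4]
    exact hFn Y h2 h3
  have h2 : ‖∑ n ∈ Finset.Ioc a X, F (n - 1) / (((n - 1 : ℕ) : ℂ) * n)‖ ≤
      η * ∑ n ∈ Finset.Ioc a X, (1 / n : ℝ) := by
    rw [Finset.mul_sum]
    refine (norm_sum_le _ _).trans (Finset.sum_le_sum fun n hn => ?_)
    rw [Finset.mem_Ioc] at hn
    rw [← div_div, norm_div, Complex.norm_natCast, mul_one_div]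
    exact div_le_div_of_nonneg_right (h1 (n - 1) (by omega) (by omega)) (Nat.cast_nonneg _)
  have h3 := norm_add_le (F X / (X : ℂ) - F a / (a : ℂ))
    (∑ n ∈ Finset.Ioc a X, F (n - 1) / (((n - 1 : ℕ) : ℂ) * n))
  have h4 := norm_sub_le (F X / (X : ℂ)) (F a / (a : ℂ))
  have h5 := h1 X haX le_rfl
  have h6 := h1 a le_rfl haX
  linarith

/-- from ordinary averages to windowed averages -/
theorem wa_part {a : ℕ → ℕ} {f : ℤ → ℂ} {η : ℝ} {X : ℕ} (ha : 1 ≤ a X)
    (h : ∀ x : ℕ, a X ≤ x → x ≤ X → ‖∑ n ∈ Finset.Icc 1 x, f n‖ ≤ η * x) (hw2 : 2 ≤ hw a X)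
    (hη : 0 ≤ η) : ‖Wa a f X‖ ≤ 2 * η := by
  have haX : a X ≤ X := by
    by_contra hcon
    have : hw a X = 0 := by
      unfold hw
      rw [Finset.Ioc_eq_empty (by omega), Finset.sum_empty]
    rw [this] at hw2
    norm_num at hw2
  have h1 := part_sum (f := fun n : ℕ => f n) ha haX h
  have hpos : 0 < hw a X := by linarith
  rw [Wa, norm_div, Complex.norm_real, Real.norm_eq_abs, abs_of_pos hpos, div_le_iff₀ hpos]
  refine h1.trans ?_
  rw [← hw]
  nlinarith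

/-! ### shifts and dilations -/

private noncomputable def NN (f : ℤ → ℂ) (X : ℕ) : ℂ := ∑ n ∈ Finset.Icc 1 X, f n / n

private theorem ioc_eq (f : ℤ → ℂ) {a X : ℕ} (h : a ≤ X) :
    ∑ n ∈ Finset.Ioc a X, f n / (n : ℂ) = NN f X - NN f a := by
  have h1 : Finset.Icc 1 X = Finset.Icc 1 a ∪ Finset.Ioc a X := by
    ext n
    simp only [Finset.mem_union, Finset.mem_Icc, Finset.mem_Ioc]
    omega
  have h2 : Disjoint (Finset.Icc 1 a) (Finset.Ioc a X) := by
    rw [Finset.disjoint_left]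
    intro n hn hn'
    rw [Finset.mem_Icc] at hn
    rw [Finset.mem_Ioc] at hn'
    omega
  rw [NN, NN, h1, Finset.sum_union h2, add_sub_cancel_left]

private theorem tend_of_le {F G : ℤ → ℂ} {K : ℝ} (h : ∀ X : ℕ, ‖NN F X - NN G X‖ ≤ K)
    {l : Filter ℕ} {a : ℕ → ℕ} (ha : Tendsto (hw a) l atTop) :
    Tendsto (fun X : ℕ => Wa a F X - Wa a G X) l (𝓝 0) := by
  have hK : 0 ≤ K := (norm_nonneg _).trans (h 0)
  refine squeeze_zero_norm (a := fun X => 2 * K / hw a X) (fun X => ?_) (ha.const_div_atTop _)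
  rw [Wa, Wa, ← sub_div, norm_div, Complex.norm_real, Real.norm_eq_abs,
    abs_of_nonneg (hw_nonneg a X)]
  refine div_le_div_of_nonneg_right ?_ (hw_nonneg a X)
  rcases le_or_gt (a X) X with haX | haX
  · rw [ioc_eq F haX, ioc_eq G haX]
    have e : NN F X - NN F (a X) - (NN G X - NN G (a X)) =
        (NN F X - NN G X) - (NN F (a X) - NN G (a X)) := by ring
    rw [e]
    have h1 := norm_sub_le (NN F X - NN G X) (NN F (a X) - NN G (a X))
    have h2 := h X
    have h3 := h (a X)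
    linarith
  · rw [Finset.Ioc_eq_empty (by omega)]
    simp only [Finset.sum_empty, sub_self, norm_zero]
    positivity

private theorem shift_one_le {f : ℤ → ℂ} {C : ℝ} (h : ∀ n, ‖f n‖ ≤ C) (X : ℕ) :
    ‖NN (fun n => f (n + 1)) X - NN f X‖ ≤ 3 * C := by
  have hC : 0 ≤ C := (norm_nonneg _).trans (h 0)
  have h1 : ∀ X : ℕ, ‖∑ n ∈ Finset.Icc 1 X, (f (n + 1) / n - f (n + 1) / (n + 1 : ℕ))‖ ≤
      C * (1 - 1 / ((X : ℝ) + 1)) := by
    intro X
    induction X with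
    | zero => simp
    | succ X ih =>
      rw [Finset.sum_Icc_succ_top (by omega)]
      refine (norm_add_le _ _).trans ?_
      have h2 : ‖f (((X + 1 : ℕ) : ℤ) + 1) / ((X + 1 : ℕ) : ℂ) -
          f (((X + 1 : ℕ) : ℤ) + 1) / ((X + 1 + 1 : ℕ) : ℂ)‖ ≤
          C * (1 / ((X : ℝ) + 1) - 1 / ((X : ℝ) + 1 + 1)) := by
        have h3 : f (((X + 1 : ℕ) : ℤ) + 1) / ((X + 1 : ℕ) : ℂ) -
            f (((X + 1 : ℕ) : ℤ) + 1) / ((X + 1 + 1 : ℕ) : ℂ) =
            f (((X + 1 : ℕ) : ℤ) + 1) *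
              ((1 / ((X : ℝ) + 1) - 1 / ((X : ℝ) + 1 + 1) : ℝ) : ℂ) := by
          push_cast
          ring
        rw [h3, norm_mul, Complex.norm_real, Real.norm_eq_abs, abs_of_nonneg]
        · exact mul_le_mul_of_nonneg_right (h _) (by
            rw [sub_nonneg]
            exact one_div_le_one_div_of_le (by positivity) (by linarith))
        · rw [sub_nonneg]
          exact one_div_le_one_div_of_le (by positivity) (by linarith)
      calc _ ≤ C * (1 - 1 / ((X : ℝ) + 1)) + C * (1 / ((X : ℝ) + 1) - 1 / ((X : ℝ) + 1 + 1)) :=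
            add_le_add ih h2
        _ = C * (1 - 1 / (((X + 1 : ℕ) : ℝ) + 1)) := by
            push_cast
            ring
  have h2 : ∀ X : ℕ, ∑ n ∈ Finset.Icc 1 X, (f (n + 1) / (n + 1 : ℕ) - f n / n) =
      f (X + 1) / (X + 1 : ℕ) - f 1 / 1 := by
    intro X
    induction X with
    | zero => simp
    | succ X ih =>
      rw [Finset.sum_Icc_succ_top (by omega), ih]
      push_cast
      ring
  have h3 : NN (fun n => f (n + 1)) X - NN f X =
      ∑ n ∈ Finset.Icc 1 X, (f (n + 1) / n - f (n + 1) / (n + 1 : ℕ)) +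
        (f (X + 1) / (X + 1 : ℕ) - f 1 / 1) := by
    rw [← h2, NN, NN, ← Finset.sum_sub_distrib, ← Finset.sum_add_distrib]
    exact Finset.sum_congr rfl fun n _ => by ring
  rw [h3]
  have h4 : C * (1 - 1 / ((X : ℝ) + 1)) ≤ C := by
    have : 0 ≤ C * (1 / ((X : ℝ) + 1)) := by positivity
    linarith
  have h5 : ‖f (X + 1) / ((X + 1 : ℕ) : ℂ)‖ ≤ C := by
    rw [norm_div, Complex.norm_natCast]
    refine (div_le_div_of_nonneg_right (h _) (Nat.cast_nonneg _)).trans ?_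
    refine div_le_self hC ?_
    push_cast
    linarith [Nat.cast_nonneg (α := ℝ) X]
  have h6 : ‖f 1 / (1 : ℂ)‖ ≤ C := by
    rw [div_one]
    exact h 1
  calc _ ≤ _ := norm_add_le _ _
    _ ≤ C + (C + C) := add_le_add ((h1 X).trans h4) ((norm_sub_le _ _).trans (add_le_add h5 h6))
    _ = 3 * C := by ring

theorem wa_shift {l : Filter ℕ} {a : ℕ → ℕ} (ha : Tendsto (hw a) l atTop) {f : ℤ → ℂ} (hf : Bdd f)
    (s : ℤ) : Tendsto (fun X : ℕ => Wa a (fun n => f (n + s)) X - Wa a f X) l (𝓝 0) := by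
  have hone : ∀ g : ℤ → ℂ, Bdd g →
      Tendsto (fun X : ℕ => Wa a (fun n => g (n + 1)) X - Wa a g X) l (𝓝 0) := by
    intro g hg
    obtain ⟨C, hC⟩ := hg
    exact tend_of_le (fun X => shift_one_le hC X) ha
  induction s using Int.induction_on with
  | zero =>
    simp only [add_zero, sub_self]
    exact tendsto_const_nhds
  | succ s ih =>
    have h1 := hone (fun n => f (n + s)) (hf.shift _)
    have h2 := h1.add ih
    rw [add_zero] at h2
    refine h2.congr fun X => ?_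
    rw [sub_add_sub_cancel]
    congr 2
    funext n
    congr 1
    ring
  | pred s ih =>
    have h1 := hone (fun n => f (n + (-(s : ℤ) - 1))) (hf.shift _)
    have h2 := ih.sub h1
    rw [sub_zero] at h2
    refine h2.congr fun X => ?_
    have h3 : (fun n : ℤ => f (n + 1 + (-(s : ℤ) - 1))) = fun n => f (n + -(s : ℤ)) := by
      funext n
      congr 1
      ring
    rw [h3]
    ring

theorem wa_dil {l : Filter ℕ} {a : ℕ → ℕ} (ha : Tendsto (hw a) l atTop) {f : ℤ → ℂ} (hf : Bdd f)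
    {q : ℕ} (hq : 0 < q) :
    Tendsto (fun X : ℕ => Wa a (fun n => if (q : ℤ) ∣ n then (q : ℂ) * f n else 0) X -
      Wa a (fun n => f (q * n)) X) l (𝓝 0) := by
  obtain ⟨C, hC⟩ := hf
  have hC0 : 0 ≤ C := (norm_nonneg _).trans (hC 0)
  have hqC : (q : ℂ) ≠ 0 := by exact_mod_cast hq.ne'
  refine tend_of_le (K := C * q) (fun X => ?_) ha
  have h1 : NN (fun n => if (q : ℤ) ∣ n then (q : ℂ) * f n else 0) X =
      ∑ m ∈ Finset.Icc 1 (X / q), f (q * m) / m := by
    rw [NN]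
    have h2 : ∀ n ∈ Finset.Icc 1 X, (if (q : ℤ) ∣ (n : ℤ) then (q : ℂ) * f n else 0) / (n : ℂ) =
        if q ∣ n then (q : ℂ) * f n / n else 0 := by
      intro n _
      by_cases h : q ∣ n
      · rw [if_pos (Int.natCast_dvd_natCast.2 h), if_pos h]
      · rw [if_neg (fun h' => h (Int.natCast_dvd_natCast.1 h')), if_neg h, zero_div]
    rw [Finset.sum_congr rfl h2, ← Finset.sum_filter]
    symm
    refine Finset.sum_bij (fun m _ => q * m) ?_ ?_ ?_ ?_
    · intro m hm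
      obtain ⟨h3, h4⟩ := Finset.mem_Icc.1 hm
      refine Finset.mem_filter.2 ⟨Finset.mem_Icc.2 ⟨Nat.mul_pos hq h3, ?_⟩, dvd_mul_right q m⟩
      calc q * m ≤ q * (X / q) := Nat.mul_le_mul_left q h4
        _ ≤ X := Nat.mul_div_le X q
    · intro a _ b _ hab
      exact Nat.eq_of_mul_eq_mul_left hq hab
    · intro n hn
      obtain ⟨h3, m, rfl⟩ := Finset.mem_filter.1 hn
      obtain ⟨h4, h5⟩ := Finset.mem_Icc.1 h3
      refine ⟨m, Finset.mem_Icc.2 ⟨?_, ?_⟩, rfl⟩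
      · exact Nat.pos_of_ne_zero fun h6 => by subst h6; simp at h4
      · exact (Nat.le_div_iff_mul_le hq).2 (by rwa [mul_comm])
    · intro m hm
      have h3 : (m : ℂ) ≠ 0 := by
        have := (Finset.mem_Icc.1 hm).1
        exact_mod_cast (by omega : m ≠ 0)
      push_cast
      rw [mul_div_mul_left _ _ hqC]
  have h2 : Finset.Icc 1 (X / q) ⊆ Finset.Icc 1 X :=
    Finset.Icc_subset_Icc le_rfl (Nat.div_le_self X q)
  have h3 : NN (fun n => f (q * n)) X = ∑ m ∈ Finset.Icc 1 X \ Finset.Icc 1 (X / q), f (q * m) / m +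
      ∑ m ∈ Finset.Icc 1 (X / q), f (q * m) / m := (Finset.sum_sdiff h2).symm
  rw [h1, h3, sub_add_cancel_right, norm_neg]
  refine (norm_sum_le _ _).trans ?_
  have h4 : ∀ m ∈ Finset.Icc 1 X \ Finset.Icc 1 (X / q), ‖f (q * m) / (m : ℂ)‖ ≤
      C / ((X / q : ℕ) + 1 : ℝ) := by
    intro m hm
    rw [Finset.mem_sdiff, Finset.mem_Icc, Finset.mem_Icc] at hm
    have h5 : X / q + 1 ≤ m := by omega
    have h6 : ((X / q : ℕ) + 1 : ℝ) ≤ m := by exact_mod_cast h5
    rw [norm_div, Complex.norm_natCast]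
    exact div_le_div₀ hC0 (hC _) (by positivity) h6
  refine (Finset.sum_le_card_nsmul _ _ _ h4).trans ?_
  rw [nsmul_eq_mul]
  have h5 : ((Finset.Icc 1 X \ Finset.Icc 1 (X / q)).card : ℝ) ≤ X := by
    have h6 := Finset.card_le_card (Finset.sdiff_subset (s := Finset.Icc 1 X)
      (t := Finset.Icc 1 (X / q)))
    rw [Nat.card_Icc, Nat.add_sub_cancel] at h6
    exact_mod_cast h6
  have h6 : (X : ℝ) ≤ q * ((X / q : ℕ) + 1 : ℝ) := by
    have h7 : X < q * (X / q + 1) := Nat.lt_mul_div_succ X hq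
    exact_mod_cast h7.le
  have h7 : (0 : ℝ) < ((X / q : ℕ) + 1 : ℝ) := by positivity
  calc ((Finset.Icc 1 X \ Finset.Icc 1 (X / q)).card : ℝ) * (C / ((X / q : ℕ) + 1 : ℝ))
      ≤ (q * ((X / q : ℕ) + 1 : ℝ)) * (C / ((X / q : ℕ) + 1 : ℝ)) :=
        mul_le_mul_of_nonneg_right (h5.trans h6) (by positivity)
    _ = C * q := by field_simp

/-! ### the mean -/

private noncomputable def LA (U : Ultrafilter ℕ) (a : ℕ → ℕ) (f : ℤ → ℂ) : ℂ :=
  open Classical in
  if h : ∃ z, Tendsto (Wa a f) U (𝓝 z) then h.choose else 0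

private theorem LA_tendsto (U : Ultrafilter ℕ) (a : ℕ → ℕ) {f : ℤ → ℂ} (hf : Bdd f) :
    Tendsto (Wa a f) U (𝓝 (LA U a f)) := by
  obtain ⟨C, hC⟩ := hf
  have hC0 : 0 ≤ C := (norm_nonneg _).trans (hC 0)
  have h1 : ∃ z, Tendsto (Wa a f) U (𝓝 z) := by
    obtain ⟨z, _, hz⟩ := (isCompact_closedBall (0 : ℂ) C).ultrafilter_le_nhds' (U.map (Wa a f))
      (by
        rw [Ultrafilter.mem_map]
        refine Filter.mem_of_superset Filter.univ_mem fun X _ => ?_
        rw [Set.mem_preimage, mem_closedBall_zero_iff]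
        exact wa_le (fun n _ => hC n) hC0)
    exact ⟨z, hz⟩
  rw [LA, dif_pos h1]
  exact h1.choose_spec

private theorem LA_unique (U : Ultrafilter ℕ) (a : ℕ → ℕ) {f : ℤ → ℂ} (hf : Bdd f) {z : ℂ}
    (h : Tendsto (Wa a f) U (𝓝 z)) : LA U a f = z :=
  tendsto_nhds_unique (LA_tendsto U a hf) h

private theorem LA_eq (U : Ultrafilter ℕ) (a : ℕ → ℕ) {f g : ℤ → ℂ} (hf : Bdd f) (hg : Bdd g)
    (h : Tendsto (fun X : ℕ => Wa a f X - Wa a g X) U (𝓝 0)) : LA U a f = LA U a g := by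
  refine LA_unique U a hf ?_
  have h1 := h.add (LA_tendsto U a hg)
  rw [zero_add] at h1
  exact h1.congr fun X => sub_add_cancel _ _

/-- the windowed mean of an ultrafilter -/
theorem exists_amean {U : Ultrafilter ℕ} {a : ℕ → ℕ} (ha : Tendsto (hw a) U atTop) :
    ∃ M : (ℤ → ℂ) → ℂ, IsMean M ∧ ∀ f, Bdd f → Tendsto (Wa a f) U (𝓝 (M f)) := by
  refine ⟨LA U a, ⟨fun f g hf hg => ?_, fun c f hf => ?_, fun f C h => ?_, ?_, fun f hf s => ?_,
    fun f hf q hq => ?_⟩, fun f hf => LA_tendsto U a hf⟩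
  · refine LA_unique U a (hf.add hg) ?_
    exact ((LA_tendsto U a hf).add (LA_tendsto U a hg)).congr fun X => (wa_add a f g X).symm
  · refine LA_unique U a (hf.smul c) ?_
    exact ((LA_tendsto U a hf).const_mul c).congr fun X => (wa_smul a c f X).symm
  · refine le_of_tendsto (LA_tendsto U a (bdd_of_le h)).norm ?_
    exact Eventually.of_forall fun X => wa_le (fun n _ => h n) ((norm_nonneg _).trans (h 0))
  · refine LA_unique U a (bdd_const 1) ?_
    refine (tendsto_const_nhds (x := (1 : ℂ))).congr' ?_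
    filter_upwards [ha.eventually_gt_atTop 0] with X hX
    have h1 : (∑ n ∈ Finset.Ioc (a X) X, (1 : ℂ) / n) = ((hw a X : ℝ) : ℂ) := by
      unfold hw
      push_cast
      rfl
    rw [Wa, h1]
    exact (div_self (by exact_mod_cast hX.ne')).symm
  · exact LA_eq U a (hf.shift fun n => n + s) hf (wa_shift ha hf s)
  · exact LA_eq U a (Bdd.ite (fun n => (q : ℤ) ∣ n) (hf.smul (q : ℂ)) (bdd_const 0))
      (hf.shift fun n => q * n) (wa_dil ha hf hq)

end Pool.Agent.Work.MP_58cfe3_nt
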