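import Pool.Agent.Work.MP_58cfe3_nt.FDil
import Pool.Agent.Work.MP_58cfe3_nt.GWa

/-!
# Module FGlue: families of multiplicative functions along a sparse sequence of scales

The scales `x 0 < x 1 < ...` grow so fast that `2 ^ x m ≤ x (m + 1)`. The family `F` of functions is
glued to one function, equal to `F (x m)` on `(x (m - 1) ^ 2, x m ^ 2]`. If all `F X` are 1-bounded
and multiplicative, then the glued function is multiplicative with respect to windowed means.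
-/

set_option autoImplicit false

namespace Pool.Agent.Work.MP_58cfe3_nt

open Filter Topology

/-- the glued function -/
noncomputable def glue (x : ℕ → ℕ) (F : ℕ → ℤ → ℂ) (n : ℤ) : ℂ :=
  F (x (sInf {m : ℕ | n ≤ (x m : ℤ) ^ 2})) n

/-- the sequence of scales -/
structure Sparse (x : ℕ → ℕ) : Prop where
  one : 1 ≤ x 0
  step : ∀ m, 2 ^ x m ≤ x (m + 1)

theorem Sparse.strictMono {x : ℕ → ℕ} (hx : Sparse x) : StrictMono x :=
  strictMono_nat_of_lt_succ fun m => (Nat.lt_two_pow_self (n := x m)).trans_le (hx.step m)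

theorem Sparse.tendsto {x : ℕ → ℕ} (hx : Sparse x) : Tendsto x atTop atTop :=
  hx.strictMono.tendsto_atTop

theorem glue_at {x : ℕ → ℕ} (hx : Sparse x) (F : ℕ → ℤ → ℂ) {m : ℕ} {n : ℤ}
    (h1 : (x m : ℤ) ^ 2 < n) (h2 : n ≤ (x (m + 1) : ℤ) ^ 2) : glue x F n = F (x (m + 1)) n := by
  have hI : sInf {k : ℕ | n ≤ (x k : ℤ) ^ 2} = m + 1 := by
    apply le_antisymm
    · exact Nat.sInf_le h2
    · by_contra hcon
      push Not at hcon
      have h3 : sInf {k : ℕ | n ≤ (x k : ℤ) ^ 2} ∈ {k : ℕ | n ≤ (x k : ℤ) ^ 2} :=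
        Nat.sInf_mem ⟨m + 1, h2⟩
      have h4 : x (sInf {k : ℕ | n ≤ (x k : ℤ) ^ 2}) ≤ x m := hx.strictMono.monotone (by omega)
      have h5 : ((x (sInf {k : ℕ | n ≤ (x k : ℤ) ^ 2}) : ℕ) : ℤ) ^ 2 ≤ (x m : ℤ) ^ 2 := by
        have : ((x (sInf {k : ℕ | n ≤ (x k : ℤ) ^ 2}) : ℕ) : ℤ) ≤ (x m : ℤ) := by exact_mod_cast h4
        exact pow_le_pow_left₀ (by positivity) this 2
      have h6 : n ≤ ((x (sInf {k : ℕ | n ≤ (x k : ℤ) ^ 2}) : ℕ) : ℤ) ^ 2 := h3
      exact absurd (h6.trans h5) (not_le.2 h1)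
  unfold glue
  rw [hI]

theorem glue_eq {x : ℕ → ℕ} (hx : Sparse x) {δ : ℝ} (hδ : 0 < δ) (C : ℕ) :
    ∀ᶠ X : ℕ in map x atTop, ∀ (F : ℕ → ℤ → ℂ) (n : ℤ), (X : ℝ) ^ δ / 2 ≤ n → n ≤ C * X + C →
      glue x F n = F X n := by
  rw [Filter.eventually_map]
  -- growth
  have hg1 : ∀ᶠ y : ℕ in atTop, 2 * (y : ℝ) ^ 2 < ((2 : ℝ) ^ y) ^ δ := by
    have h1 : Tendsto (fun y : ℝ => y ^ (2 : ℝ) * Real.exp (-(Real.log 2 * δ) * y)) atTop (𝓝 0) :=
      tendsto_rpow_mul_exp_neg_mul_atTop_nhds_zero 2 _ (mul_pos (Real.log_pos one_lt_two) hδ)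
    have h2 := (h1.comp tendsto_natCast_atTop_atTop).eventually (gt_mem_nhds (show (0 : ℝ) < 1 / 2 by
      norm_num))
    filter_upwards [h2] with y hy
    have h3 : ((2 : ℝ) ^ y) ^ δ = Real.exp (Real.log 2 * δ * y) := by
      rw [← Real.rpow_natCast, ← Real.rpow_mul zero_le_two, Real.rpow_def_of_pos zero_lt_two]
      congr 1
      ring
    rw [h3]
    simp only [Function.comp_apply] at hy
    rw [show ((2 : ℝ)) = ((2 : ℕ) : ℝ) by norm_num] at hy
    rw [Real.rpow_natCast] at hy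
    have h4 : Real.exp (-(Real.log ((2 : ℕ) : ℝ) * δ) * (y : ℝ)) =
        (Real.exp (Real.log 2 * δ * y))⁻¹ := by
      rw [← Real.exp_neg]
      congr 1
      push_cast
      ring
    rw [h4] at hy
    have h5 := Real.exp_pos (Real.log 2 * δ * y)
    rw [← div_eq_mul_inv, div_lt_iff₀ h5] at hy
    push_cast at hy
    linarith
  have hg2 : ∀ᶠ m : ℕ in atTop, 2 * ((x m : ℕ) : ℝ) ^ 2 < ((x (m + 1) : ℕ) : ℝ) ^ δ := by
    filter_upwards [hx.tendsto.eventually hg1] with m hm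
    refine hm.trans_le (Real.rpow_le_rpow (by positivity) ?_ hδ.le)
    exact_mod_cast hx.step m
  have hg3 : ∀ᶠ m : ℕ in atTop, C * x (m + 1) + C ≤ x (m + 1) ^ 2 := by
    have h1 : Tendsto (fun m => x (m + 1)) atTop atTop := hx.tendsto.comp (tendsto_add_atTop_nat 1)
    filter_upwards [h1.eventually_ge_atTop (C + C + 1)] with m hm
    nlinarith
  have hg : ∀ᶠ m : ℕ in atTop, ∀ (F : ℕ → ℤ → ℂ) (n : ℤ), ((x (m + 1) : ℕ) : ℝ) ^ δ / 2 ≤ n →
      n ≤ C * ((x (m + 1) : ℕ) : ℤ) + C → glue x F n = F (x (m + 1)) n := by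
    filter_upwards [hg2, hg3] with m h2 h3 F n hn1 hn2
    refine glue_at hx F ?_ ?_
    · have h4 : ((x m : ℕ) : ℝ) ^ 2 < n := by linarith
      exact_mod_cast h4
    · refine hn2.trans ?_
      exact_mod_cast h3
  rw [eventually_atTop] at hg ⊢
  obtain ⟨N, hN⟩ := hg
  refine ⟨N + 1, fun m hm => ?_⟩
  obtain ⟨k, rfl⟩ : ∃ k, m = k + 1 := ⟨m - 1, by omega⟩
  exact hN k (by omega)

/-- shifts in the window -/
theorem glue_shift {x : ℕ → ℕ} (hx : Sparse x) {δ : ℝ} (hδ : 0 < δ) (h : ℤ) :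
    ∀ᶠ X : ℕ in map x atTop, ∀ n ∈ Finset.Ioc ⌊(X : ℝ) ^ δ⌋₊ X, ∀ F : ℕ → ℤ → ℂ,
      glue x F ((n : ℤ) + h) = F X ((n : ℤ) + h) := by
  have hle : map x atTop ≤ atTop := hx.tendsto
  have h1 : Tendsto (fun X : ℕ => (X : ℝ) ^ δ) atTop atTop :=
    (tendsto_rpow_atTop hδ).comp tendsto_natCast_atTop_atTop
  filter_upwards [glue_eq hx hδ (h.natAbs + 1),
    hle (h1.eventually_ge_atTop (2 * (h.natAbs : ℝ)))] with X hX1 hX2 n hn F
  rw [Finset.mem_Ioc] at hn
  have h3 : (X : ℝ) ^ δ < n := (Nat.floor_lt (by positivity)).1 hn.1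
  have h4 : -(h.natAbs : ℤ) ≤ h ∧ h ≤ h.natAbs := by omega
  refine hX1 F _ ?_ ?_
  · push_cast
    have h5 : -(h.natAbs : ℝ) ≤ (h : ℝ) := by exact_mod_cast h4.1
    linarith
  · push_cast
    have h6 : (n : ℤ) ≤ X := by exact_mod_cast hn.2
    have h7 : (0 : ℤ) ≤ (X : ℤ) := by positivity
    have h8 : 0 ≤ (h.natAbs : ℤ) * X := by positivity
    rw [show |h| = (h.natAbs : ℤ) from Int.abs_eq_natAbs h]
    nlinarith

/-- dilations in the window -/
theorem glue_mul {x : ℕ → ℕ} (hx : Sparse x) {δ : ℝ} (hδ : 0 < δ) {p : ℕ} (hp : 1 ≤ p) :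
    ∀ᶠ X : ℕ in map x atTop, ∀ n ∈ Finset.Ioc ⌊(X : ℝ) ^ δ⌋₊ X, ∀ F : ℕ → ℤ → ℂ,
      glue x F ((p : ℤ) * n) = F X ((p : ℤ) * n) := by
  filter_upwards [glue_eq hx hδ p] with X hX1 n hn F
  rw [Finset.mem_Ioc] at hn
  have h3 : (X : ℝ) ^ δ < n := (Nat.floor_lt (by positivity)).1 hn.1
  have hpr : (1 : ℝ) ≤ p := by exact_mod_cast hp
  have hXp : 0 ≤ (X : ℝ) ^ δ := by positivity
  refine hX1 F _ ?_ ?_
  · push_cast
    have h4 : (n : ℝ) ≤ p * n := by
      have : (0 : ℝ) ≤ n := Nat.cast_nonneg n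
      nlinarith
    linarith
  · have h6 : (n : ℤ) ≤ X := by exact_mod_cast hn.2
    have h7 : (p : ℤ) * n ≤ p * X := mul_le_mul_of_nonneg_left h6 (by positivity)
    have h8 : (0 : ℤ) ≤ p := by positivity
    linarith

/-! ### the limit values at the primes -/

private theorem exists_lim (U : Ultrafilter ℕ) {F : ℕ → ℤ → ℂ} (hF : ∀ X n, ‖F X n‖ ≤ 1) (n : ℤ) :
    ∃ a : ℂ, ‖a‖ ≤ 1 ∧ Tendsto (fun X => F X n) U (𝓝 a) := by
  obtain ⟨a, ha1, ha⟩ := (isCompact_closedBall (0 : ℂ) 1).ultrafilter_le_nhds'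
    (U.map fun X => F X n)
    (by
      rw [Ultrafilter.mem_map]
      refine Filter.mem_of_superset Filter.univ_mem fun X _ => ?_
      rw [Set.mem_preimage, mem_closedBall_zero_iff]
      exact hF X n)
  exact ⟨a, mem_closedBall_zero_iff.1 ha1, ha⟩

/-! ### small products -/

private noncomputable def vv (v : ℕ → ℝ) (p : ℕ) (n : ℤ) : ℝ :=
  if (p : ℤ) ∣ n ∧ ¬ ((p : ℤ) ^ 2 ∣ n) then v p else 1

private theorem vv_nonneg {v : ℕ → ℝ} (hv : ∀ p, 0 ≤ v p) (p : ℕ) (n : ℤ) : 0 ≤ vv v p n := by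
  unfold vv
  split_ifs
  · exact hv p
  · exact zero_le_one

private theorem vv_le_one {v : ℕ → ℝ} (hv : ∀ p, v p ≤ 1) (p : ℕ) (n : ℤ) : vv v p n ≤ 1 := by
  unfold vv
  split_ifs
  · exact hv p
  · exact le_rfl

private theorem vv_per (v : ℕ → ℝ) (p : ℕ) (n : ℤ) : vv v p (n + ((p ^ 2 : ℕ) : ℤ)) = vv v p n := by
  unfold vv
  have h1 : ((p : ℤ) ∣ n + ((p ^ 2 : ℕ) : ℤ)) ↔ (p : ℤ) ∣ n := by
    have : (p : ℤ) ∣ ((p ^ 2 : ℕ) : ℤ) := ⟨(p : ℤ), by push_cast; ring⟩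
    exact (Int.dvd_add_left this)
  have h2 : ((p : ℤ) ^ 2 ∣ n + ((p ^ 2 : ℕ) : ℤ)) ↔ (p : ℤ) ^ 2 ∣ n := by
    have : (p : ℤ) ^ 2 ∣ ((p ^ 2 : ℕ) : ℤ) := ⟨1, by push_cast; ring⟩
    exact (Int.dvd_add_left this)
  simp only [h1, h2]

private theorem norm_le_prod {g : ℤ → ℂ} (hg : MulBdd g) (S : Finset ℕ) :
    (∀ p ∈ S, p.Prime) → ∀ n : ℤ, ‖g n‖ ≤ ∏ p ∈ S, vv (fun p => ‖g p‖) p n := by
  classical
  have hv0 : ∀ p : ℕ, 0 ≤ (fun p : ℕ => ‖g p‖) p := fun p => norm_nonneg _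
  induction S using Finset.induction_on with
  | empty =>
    intro _ n
    simpa using hg.bdd n
  | insert q S hq ih =>
    intro hS n
    have hS' : ∀ p ∈ S, p.Prime := fun p hp => hS p (Finset.mem_insert_of_mem hp)
    have hqp : q.Prime := hS q (Finset.mem_insert_self q S)
    rw [Finset.prod_insert hq]
    rcases le_or_gt n 0 with hn | hn
    · rw [hg.nonpos n hn, norm_zero]
      exact mul_nonneg (vv_nonneg hv0 _ _) (Finset.prod_nonneg fun p _ => vv_nonneg hv0 _ _)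
    by_cases hd : (q : ℤ) ∣ n ∧ ¬ ((q : ℤ) ^ 2 ∣ n)
    · obtain ⟨⟨m, rfl⟩, h2⟩ := hd
      have hqZ : (0 : ℤ) < q := by exact_mod_cast hqp.pos
      have hm : 0 < m := pos_of_mul_pos_right hn hqZ.le
      have hqm : ¬ ((q : ℤ) ∣ m) := by
        rintro ⟨k, rfl⟩
        exact h2 ⟨k, by ring⟩
      have hprime : Prime (q : ℤ) := Nat.prime_iff_prime_int.mp hqp
      have hcop : IsCoprime (q : ℤ) m := (hprime.coprime_iff_not_dvd).mpr hqm
      rw [hg.mul _ _ hqZ hm hcop, norm_mul]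
      have hu : vv (fun p => ‖g p‖) q ((q : ℤ) * m) = ‖g q‖ := by
        unfold vv
        rw [if_pos ⟨Dvd.intro _ rfl, h2⟩]
      rw [hu]
      refine mul_le_mul_of_nonneg_left ?_ (norm_nonneg _)
      refine (ih hS' m).trans (le_of_eq ?_)
      refine Finset.prod_congr rfl fun p hp => ?_
      have hpq : p ≠ q := fun h => hq (h ▸ hp)
      have hpc : IsCoprime (p : ℤ) (q : ℤ) := by
        rw [Nat.isCoprime_iff_coprime]
        exact (Nat.coprime_primes (hS' p hp) hqp).mpr hpq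
      have e1 : (p : ℤ) ∣ (q : ℤ) * m ↔ (p : ℤ) ∣ m :=
        ⟨fun h => hpc.dvd_of_dvd_mul_left h, fun h => Dvd.dvd.mul_left h _⟩
      have e2 : (p : ℤ) ^ 2 ∣ (q : ℤ) * m ↔ (p : ℤ) ^ 2 ∣ m :=
        ⟨fun h => (hpc.pow_left).dvd_of_dvd_mul_left h, fun h => Dvd.dvd.mul_left h _⟩
      unfold vv
      simp only [e1, e2]
    · have hu : vv (fun p => ‖g p‖) q n = 1 := by
        unfold vv
        rw [if_neg hd]
      rw [hu, one_mul]
      exact ih hS' n

private theorem sum_vv {v : ℕ → ℝ} (hv : ∀ p, v p ≤ 1) {p : ℕ} (hp : p.Prime) :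
    (∑ a ∈ Finset.range (p ^ 2), vv v p a) / ((p ^ 2 : ℕ) : ℝ) ≤ Real.exp (-((1 - v p) / p / 2)) := by
  classical
  have hp2 : (2 : ℝ) ≤ p := by exact_mod_cast hp.two_le
  have hppos : (0 : ℝ) < p := by linarith
  set T := (Finset.range (p ^ 2)).filter (fun a : ℕ => (p : ℤ) ∣ (a : ℤ) ∧ ¬ ((p : ℤ) ^ 2 ∣ (a : ℤ)))
    with hT
  have hcard : p - 1 ≤ T.card := by
    have hinj : Set.InjOn (fun k : ℕ => (k + 1) * p) (Finset.range (p - 1) : Set ℕ) := by
      intro a _ b _ hab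
      have : (a + 1) * p = (b + 1) * p := hab
      have := Nat.eq_of_mul_eq_mul_right hp.pos this
      omega
    have hsub : (Finset.range (p - 1)).image (fun k : ℕ => (k + 1) * p) ⊆ T := by
      intro a ha
      rw [Finset.mem_image] at ha
      obtain ⟨k, hk, rfl⟩ := ha
      rw [Finset.mem_range] at hk
      rw [hT, Finset.mem_filter, Finset.mem_range]
      have hlt : (k + 1) * p < p ^ 2 := by
        rw [pow_two]
        exact Nat.mul_lt_mul_of_pos_right (by omega) hp.pos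
      refine ⟨hlt, ⟨(k + 1 : ℤ), by push_cast; ring⟩, ?_⟩
      intro hdv
      have hdv' : p ^ 2 ∣ (k + 1) * p := by exact_mod_cast hdv
      exact absurd (Nat.le_of_dvd (Nat.mul_pos (Nat.succ_pos _) hp.pos) hdv') (not_le.mpr hlt)
    have := Finset.card_le_card hsub
    rw [Finset.card_image_of_injOn hinj, Finset.card_range] at this
    exact this
  have hsum : ∑ a ∈ Finset.range (p ^ 2), vv v p a = ((p ^ 2 : ℕ) : ℝ) - (1 - v p) * T.card := by
    have h1 : ∀ a ∈ Finset.range (p ^ 2), vv v p (a : ℤ) =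
        1 - (if (p : ℤ) ∣ (a : ℤ) ∧ ¬ ((p : ℤ) ^ 2 ∣ (a : ℤ)) then (1 - v p) else 0) := by
      intro a _
      unfold vv
      split_ifs <;> ring
    rw [Finset.sum_congr rfl h1, Finset.sum_sub_distrib, ← Finset.sum_filter, ← hT]
    simp only [Finset.sum_const, Finset.card_range, nsmul_eq_mul, mul_one]
    ring
  rw [hsum]
  have hq : (0 : ℝ) < ((p ^ 2 : ℕ) : ℝ) := by exact_mod_cast pow_pos hp.pos 2
  rw [sub_div, div_self hq.ne']
  have h3 : (p : ℝ) / 2 ≤ T.card := by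
    have : ((p - 1 : ℕ) : ℝ) ≤ T.card := by exact_mod_cast hcard
    rw [Nat.cast_sub hp.one_lt.le] at this
    push_cast at this
    linarith
  have h4 : (1 - v p) / p / 2 ≤ (1 - v p) * T.card / ((p ^ 2 : ℕ) : ℝ) := by
    have hnn : 0 ≤ 1 - v p := by linarith [hv p]
    rw [le_div_iff₀ hq]
    have : (1 - v p) / p / 2 * ((p ^ 2 : ℕ) : ℝ) = (1 - v p) * ((p : ℝ) / 2) := by
      push_cast
      field_simp
    rw [this]
    exact mul_le_mul_of_nonneg_left h3 hnn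
  have h5 := Real.add_one_le_exp (-((1 - v p) / p / 2))
  linarith

/-- the mean of the product of the periodic functions -/
private theorem mr_vv {M : (ℤ → ℂ) → ℂ} (hM : IsMean M) {v : ℕ → ℝ} (hv0 : ∀ p, 0 ≤ v p)
    (hv1 : ∀ p, v p ≤ 1) {S : Finset ℕ} (hS : ∀ p ∈ S, p.Prime) {K : ℝ}
    (hK : K ≤ ∑ p ∈ S, (1 - v p) / p) :
    mr M (fun n => ∏ p ∈ S, vv v p n) ≤ Real.exp (-(K / 2)) := by
  classical
  have hinj : Set.InjOn (fun p : ℕ => p ^ 2) (S : Set ℕ) := by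
    intro a _ b _ hab
    exact Nat.pow_left_injective (n := 2) (by norm_num) hab
  have h2 := mr_prod_per hM (S.image fun p => p ^ 2)
    (by
      intro q hq
      obtain ⟨p, hp, rfl⟩ := Finset.mem_image.mp hq
      exact pow_pos (hS p hp).pos 2)
    (by
      intro q hq q' hq' hne
      obtain ⟨p, hp, rfl⟩ := Finset.mem_image.mp hq
      obtain ⟨p', hp', rfl⟩ := Finset.mem_image.mp hq'
      have hpp : p ≠ p' := fun h => hne (by rw [h])
      exact Nat.Coprime.pow 2 2 ((Nat.coprime_primes (hS p hp) (hS p' hp')).mpr hpp))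
    (fun q n => vv v (Nat.sqrt q) n)
    (by
      intro q hq n
      obtain ⟨p, hp, rfl⟩ := Finset.mem_image.mp hq
      have : Nat.sqrt (p ^ 2) = p := Nat.sqrt_eq' p
      simp only [this]
      exact vv_per v p n)
  have h3 : (fun n : ℤ => ∏ q ∈ S.image (fun p => p ^ 2), vv v (Nat.sqrt q) n) =
      fun n => ∏ p ∈ S, vv v p n := by
    funext n
    rw [Finset.prod_image hinj]
    refine Finset.prod_congr rfl fun p _ => ?_
    rw [Nat.sqrt_eq']
  rw [h3, Finset.prod_image hinj] at h2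
  rw [h2]
  have h4 : (∏ p ∈ S, (∑ a ∈ Finset.range (p ^ 2), vv v (Nat.sqrt (p ^ 2)) (a : ℤ)) /
      ((p ^ 2 : ℕ) : ℝ)) ≤ ∏ p ∈ S, Real.exp (-((1 - v p) / p / 2)) := by
    refine Finset.prod_le_prod (fun p _ => ?_) fun p hp => ?_
    · exact div_nonneg (Finset.sum_nonneg fun a _ => vv_nonneg hv0 _ _) (Nat.cast_nonneg _)
    · rw [Nat.sqrt_eq']
      exact sum_vv hv1 (hS p hp)
  refine h4.trans ?_
  rw [← Real.exp_sum]
  refine Real.exp_le_exp.mpr ?_
  rw [Finset.sum_neg_distrib, ← Finset.sum_div]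
  linarith

private theorem prod_lipr {ι : Type*} (s : Finset ι) (x y : ι → ℝ) (hx0 : ∀ i, 0 ≤ x i)
    (hx : ∀ i, x i ≤ 1) (hy0 : ∀ i, 0 ≤ y i) (hy : ∀ i, y i ≤ 1) :
    ∏ i ∈ s, x i - ∏ i ∈ s, y i ≤ ∑ i ∈ s, |x i - y i| := by
  classical
  induction s using Finset.induction_on with
  | empty => simp
  | insert a s ha ih =>
    rw [Finset.prod_insert ha, Finset.prod_insert ha, Finset.sum_insert ha]
    have e : x a * ∏ i ∈ s, x i - y a * ∏ i ∈ s, y i =
        (x a - y a) * ∏ i ∈ s, x i + y a * (∏ i ∈ s, x i - ∏ i ∈ s, y i) := by ring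
    rw [e]
    have hP0 : 0 ≤ ∏ i ∈ s, x i := Finset.prod_nonneg fun i _ => hx0 i
    have hP1 : ∏ i ∈ s, x i ≤ 1 := Finset.prod_le_one (fun i _ => hx0 i) fun i _ => hx i
    refine add_le_add ?_ ?_
    · calc (x a - y a) * ∏ i ∈ s, x i ≤ |x a - y a| * ∏ i ∈ s, x i :=
            mul_le_mul_of_nonneg_right (le_abs_self _) hP0
        _ ≤ |x a - y a| := mul_le_of_le_one_right (abs_nonneg _) hP1
    · have h1 : 0 ≤ ∑ i ∈ s, |x i - y i| := Finset.sum_nonneg fun i _ => abs_nonneg _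
      calc y a * (∏ i ∈ s, x i - ∏ i ∈ s, y i) ≤ y a * ∑ i ∈ s, |x i - y i| :=
            mul_le_mul_of_nonneg_left ih (hy0 a)
        _ ≤ ∑ i ∈ s, |x i - y i| := mul_le_of_le_one_left h1 (hy a)

/-- a glued family of multiplicative functions is multiplicative with respect to windowed means -/
theorem glue_mulM {x : ℕ → ℕ} (hx : Sparse x) {U : Ultrafilter ℕ}
    (hU : (U : Filter ℕ) ≤ map x atTop) {δ : ℝ} (hδ : 0 < δ) {a : ℕ → ℕ}
    (hlo : ∀ᶠ X in (U : Filter ℕ), wlo δ X ≤ a X) {M : (ℤ → ℂ) → ℂ}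
    (hM : IsMean M) (hlim : ∀ f, Bdd f → Tendsto (Wa a f) U (𝓝 (M f)))
    {F : ℕ → ℤ → ℂ} (hF : ∀ X, MulBdd (F X)) : ∃ c : ℕ → ℂ, MulM M (glue x F) c := by
  classical
  have hFb : ∀ X n, ‖F X n‖ ≤ 1 := fun X n => (hF X).bdd n
  choose c hc1 hc2 using fun p : ℕ => exists_lim U hFb (p : ℤ)
  have hGb : ∀ n, ‖glue x F n‖ ≤ 1 := fun n => hFb _ n
  -- functions with small windowed averages
  have hsmall : ∀ (φ : ℤ → ℝ) (C : ℝ), (∀ n, |φ n| ≤ C) → ∀ (ψ : ℕ → ℝ), Tendsto ψ U (𝓝 0) →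
      (∀ X, 0 ≤ ψ X) →
      (∀ᶠ X : ℕ in (U : Filter ℕ), ∀ n ∈ Finset.Ioc (a X) X, |φ n| ≤ ψ X) → mr M φ = 0 := by
    intro φ C hφ ψ hψ hψ0 h
    have hb : Bdd fun n => ((φ n : ℝ) : ℂ) := ⟨C, fun n => by
      rw [Complex.norm_real, Real.norm_eq_abs]
      exact hφ n⟩
    have h1 : Tendsto (Wa a fun n => ((φ n : ℝ) : ℂ)) U (𝓝 0) := by
      refine squeeze_zero_norm' ?_ hψ
      filter_upwards [h] with X hX
      refine wa_le (fun n hn => ?_) (hψ0 X)
      rw [Complex.norm_real, Real.norm_eq_abs]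
      exact hX n hn
    have h2 := tendsto_nhds_unique (hlim _ hb) h1
    unfold mr
    rw [h2, Complex.zero_re]
  refine ⟨c, hGb, hc1, fun p hp => ?_, fun hd => ?_⟩
  · -- dilations
    have hcg : ∀ n, ‖c p * glue x F n‖ ≤ 1 := fun n => by
      rw [norm_mul]
      exact mul_le_one₀ (hc1 p) (norm_nonneg _) (hGb n)
    refine le_of_eq (hsmall _ 2 (fun n => ?_) (fun X => ‖F X p - c p‖) ?_ (fun X => norm_nonneg _) ?_)
    · split_ifs
      · norm_num
      · rw [abs_norm]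
        refine (norm_sub_le _ _).trans ?_
        have h1 := hGb (p * n)
        have h2 := hcg n
        linarith
    · have h1 := (hc2 p).sub_const (c p)
      rw [sub_self] at h1
      simpa using h1.norm
    · filter_upwards [hU (glue_mul hx hδ hp.pos), hU (glue_shift hx hδ 0), hlo]
        with X hX1 hX2 hXlo n hn'
      have hn := Finset.Ioc_subset_Ioc_left hXlo hn'
      split_ifs with hdvd
      · rw [abs_zero]
        exact norm_nonneg _
      · rw [abs_norm]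
        have h1 := hX1 n hn F
        have h2 := hX2 n hn F
        rw [add_zero] at h2
        have hn0 : (0 : ℤ) < n := by
          have := (Finset.mem_Ioc.1 hn).1
          exact_mod_cast (Nat.zero_le _).trans_lt this
        have hp0 : (0 : ℤ) < p := by exact_mod_cast hp.pos
        have h3 := (hF X).mul p n hp0 hn0
          ((Nat.prime_iff_prime_int.1 hp).coprime_iff_not_dvd.2 hdvd)
        rw [h1, h2, h3, ← sub_mul, norm_mul]
        exact mul_le_of_le_one_right (norm_nonneg _) (hFb X n)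
  · -- small functions
    have key : ∀ K : ℝ, mr M (fun n => ‖glue x F n‖) ≤ Real.exp (-(K / 2)) := by
      intro K
      obtain ⟨S, hS, hK⟩ := hd K
      have hv0 : ∀ p : ℕ, 0 ≤ (fun p : ℕ => ‖c p‖) p := fun p => norm_nonneg _
      have hv1 : ∀ p : ℕ, (fun p : ℕ => ‖c p‖) p ≤ 1 := fun p => hc1 p
      have hP0 : ∀ n : ℤ, 0 ≤ ∏ p ∈ S, vv (fun p => ‖c p‖) p n := fun n =>
        Finset.prod_nonneg fun p _ => vv_nonneg hv0 _ _
      have hP1 : ∀ n : ℤ, ∏ p ∈ S, vv (fun p => ‖c p‖) p n ≤ 1 := fun n =>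
        Finset.prod_le_one (fun p _ => vv_nonneg hv0 _ _) fun p _ => vv_le_one hv1 _ _
      obtain ⟨φ, hφ⟩ : ∃ φ : ℤ → ℝ, φ = fun n : ℤ => max 0
          (‖glue x F n‖ - ∏ p ∈ S, vv (fun p => ‖c p‖) p n) := ⟨_, rfl⟩
      have hφ0 : ∀ n, 0 ≤ φ n := fun n => by rw [hφ]; exact le_max_left _ _
      have hφ1 : ∀ n, φ n ≤ 1 := fun n => by
        rw [hφ]
        refine max_le zero_le_one ?_
        have h1 := hGb n
        have h2 := hP0 n
        linarith
      have hφb : ∀ n, |φ n| ≤ 1 := fun n => by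
        rw [abs_of_nonneg (hφ0 n)]
        exact hφ1 n
      have h1 : mr M φ = 0 := by
        refine hsmall φ 1 hφb (fun X => ∑ p ∈ S, |‖F X p‖ - ‖c p‖|) ?_
          (fun X => Finset.sum_nonneg fun p _ => abs_nonneg _) ?_
        · rw [show (0 : ℝ) = ∑ p ∈ S, |‖c p‖ - ‖c p‖| by simp]
          exact tendsto_finsetSum _ fun p _ => ((hc2 p).norm.sub_const _).abs
        · filter_upwards [hU (glue_shift hx hδ 0), hlo] with X hX hXlo n hn'
          have hn := Finset.Ioc_subset_Ioc_left hXlo hn'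
          have h2 := hX n hn F
          rw [add_zero] at h2
          rw [abs_of_nonneg (hφ0 n), hφ]
          refine max_le (Finset.sum_nonneg fun p _ => abs_nonneg _) ?_
          rw [h2]
          have h3 := norm_le_prod (hF X) S hS n
          have h4 := prod_lipr S (fun p => vv (fun p => ‖F X p‖) p n)
            (fun p => vv (fun p => ‖c p‖) p n)
            (fun p => vv_nonneg (fun p => norm_nonneg _) _ _)
            (fun p => vv_le_one (fun p => hFb X p) _ _) (fun p => vv_nonneg hv0 _ _)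
            (fun p => vv_le_one hv1 _ _)
          have h5 : ∑ p ∈ S, |vv (fun p => ‖F X p‖) p n - vv (fun p => ‖c p‖) p n| ≤
              ∑ p ∈ S, |‖F X p‖ - ‖c p‖| := by
            refine Finset.sum_le_sum fun p _ => ?_
            unfold vv
            split_ifs
            · exact le_rfl
            · rw [sub_self, abs_zero]
              exact abs_nonneg _
          linarith
      have h2 := mr_vv hM hv0 hv1 hS hK
      have hPb : ∀ n : ℤ, |∏ p ∈ S, vv (fun p => ‖c p‖) p n| ≤ 1 := fun n => by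
        rw [abs_of_nonneg (hP0 n)]
        exact hP1 n
      have h3 := mr_mono hM (f := fun n => ‖glue x F n‖)
        (g := fun n => (∏ p ∈ S, vv (fun p => ‖c p‖) p n) + φ n) (C := 1) (D := 1 + 1)
        (fun n => by rw [abs_norm]; exact hGb n)
        (fun n => (abs_add_le _ _).trans (add_le_add (hPb n) (hφb n))) (fun n => by
          have h4 : ‖glue x F n‖ - ∏ p ∈ S, vv (fun p => ‖c p‖) p n ≤ φ n := by
            rw [hφ]
            exact le_max_right _ _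
          show ‖glue x F n‖ ≤ (∏ p ∈ S, vv (fun p => ‖c p‖) p n) + φ n
          linarith)
      rw [mr_add hM hPb hφb, h1, add_zero] at h3
      exact h3.trans h2
    refine le_of_forall_pos_lt_add fun ε hε => ?_
    have h := key (2 * (-Real.log (ε / 2)))
    have : -(2 * (-Real.log (ε / 2)) / 2) = Real.log (ε / 2) := by ring
    rw [this, Real.exp_log (by positivity)] at h
    linarith

end Pool.Agent.Work.MP_58cfe3_nt
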