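import Pool.Agent.Work.MP_58cfe3_nt.GWa

/-!
# Module GPer: multiplication by an almost periodic function, for a family of functions (short windows)
-/

set_option autoImplicit false

namespace Pool.Agent.Work.MP_58cfe3_nt

open Filter Topology

theorem per_fam_wa {l : Filter ℕ} {a : ℕ → ℕ} (haw : Tendsto (hw a) l atTop)
    (ha1 : Tendsto a l atTop)
    {F : ℕ → ℤ → ℂ} {Y : ℤ → ℂ} (hF : ∀ X n, ‖F X n‖ ≤ 1)
    (h : ∀ m : ℕ, 0 < m → ∀ b : ℤ,
      Tendsto (fun X => Wa a (fun n => if (m : ℤ) ∣ n - b then F X n else 0) X) l (𝓝 0))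
    (hap : ∀ η : ℝ, 0 < η → ∃ m : ℕ, 0 < m ∧ ∃ Z : ℤ → ℂ, (∀ n, ‖Z n‖ ≤ 1) ∧
      (∀ n, Z (n + m) = Z n) ∧
      ∀ᶠ X : ℕ in atTop, ∑ n ∈ Finset.Icc 1 X, ‖Y n - Z n‖ ≤ η * X) :
    Tendsto (fun X => Wa a (fun n => F X n * Y n) X) l (𝓝 0) := by
  rw [Metric.tendsto_nhds]
  intro ε hε
  obtain ⟨m, hm, Z, hZ1, hZm, hev⟩ := hap (ε / 8) (by positivity)
  have hper : Function.Periodic Z (m : ℤ) := hZm
  have hmz : (m : ℤ) ≠ 0 := by exact_mod_cast hm.ne'
  have hmz' : (0 : ℤ) < m := by exact_mod_cast hm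
  have h1 : ∀ (X : ℕ) (n : ℤ), F X n * Z n = ∑ b ∈ Finset.range m, Z b *
      (if (m : ℤ) ∣ n - b then F X n else 0) := by
    intro X n
    have h2 : 0 ≤ n % m := Int.emod_nonneg _ hmz
    have h3 : n % m < m := Int.emod_lt_of_pos _ hmz'
    have h4 : ((n % m).toNat : ℤ) = n % m := Int.toNat_of_nonneg h2
    rw [Finset.sum_eq_single (n % m).toNat]
    · rw [h4, if_pos (Int.dvd_self_sub_emod)]
      have h5 : Z n = Z (n % m) := by
        conv_lhs => rw [← Int.emod_add_mul_ediv n m, mul_comm]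
        exact hper.int_mul (n / m) _
      rw [h5, mul_comm]
    · intro b hb hne
      rw [if_neg, mul_zero]
      intro h5
      apply hne
      have h6 : n % m = b := by
        have h7 : n % m = (b : ℤ) % m :=
          (Int.emod_eq_emod_iff_emod_sub_eq_zero).2 (Int.emod_eq_zero_of_dvd h5)
        rw [h7]
        exact Int.emod_eq_of_lt (by positivity) (by exact_mod_cast Finset.mem_range.1 hb)
      rw [h6]
      simp
    · intro h5
      exfalso
      apply h5
      rw [Finset.mem_range]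
      omega
  have h2 : Tendsto (fun X => Wa a (fun n => F X n * Z n) X) l (𝓝 0) := by
    have h3 : Tendsto (fun X : ℕ => ∑ b ∈ Finset.range m, Z b *
        Wa a (fun n => if (m : ℤ) ∣ n - b then F X n else 0) X) l
        (𝓝 (∑ b ∈ Finset.range m, Z b * 0)) :=
      tendsto_finsetSum _ fun b _ => (h m hm b).const_mul (Z b)
    simp only [mul_zero, Finset.sum_const_zero] at h3
    refine h3.congr fun X => ?_
    have h4 : (fun n => F X n * Z n) = fun n => ∑ b ∈ Finset.range m, Z b *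
      (if (m : ℤ) ∣ n - b then F X n else 0) := funext (h1 X)
    rw [h4, wa_sum]
    exact Finset.sum_congr rfl fun b _ => (wa_smul _ _ _ _).symm
  obtain ⟨x₀, hx₀⟩ := Filter.eventually_atTop.1 hev
  rw [Metric.tendsto_nhds] at h2
  filter_upwards [ha1.eventually_ge_atTop (x₀ + 1), h2 (ε / 2) (by linarith),
    haw.eventually_ge_atTop 2] with X hX1 hX2 hX3
  rw [dist_zero_right] at hX2 ⊢
  have h3 : Wa a (fun n => F X n * Y n) X = Wa a (fun n => F X n * Z n) X +
      Wa a (fun n => F X n * (Y n - Z n)) X := by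
    rw [← wa_add]
    congr 1
    funext n
    ring
  have h4 : ‖Wa a (fun n => F X n * (Y n - Z n)) X‖ ≤ ε / 4 := by
    have h5 : ‖Wa a (fun n => ((‖Y n - Z n‖ : ℝ) : ℂ)) X‖ ≤ 2 * (ε / 8) := by
      refine wa_part (by omega) (fun x hx1 hx2 => ?_) hX3 (by positivity)
      have h6 : ∑ n ∈ Finset.Icc 1 x, (((‖Y (n : ℤ) - Z n‖ : ℝ)) : ℂ) =
          ((∑ n ∈ Finset.Icc 1 x, ‖Y (n : ℤ) - Z n‖ : ℝ) : ℂ) := by
        push_cast
        rfl
      rw [h6, Complex.norm_real, Real.norm_eq_abs,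
        abs_of_nonneg (Finset.sum_nonneg fun n _ => norm_nonneg _)]
      exact hx₀ x (by omega)
    have hpos : 0 < hw a X := by linarith
    have h7 : ‖Wa a (fun n => ((‖Y n - Z n‖ : ℝ) : ℂ)) X‖ =
        (∑ n ∈ Finset.Ioc (a X) X, ‖Y (n : ℤ) - Z n‖ / n) / hw a X := by
      have h8 : (∑ n ∈ Finset.Ioc (a X) X, ((‖Y (n : ℤ) - Z n‖ : ℝ) : ℂ) / (n : ℂ)) =
          ((∑ n ∈ Finset.Ioc (a X) X, ‖Y (n : ℤ) - Z n‖ / n : ℝ) : ℂ) := by
        push_cast
        rfl
      rw [Wa, h8, norm_div, Complex.norm_real, Complex.norm_real, Real.norm_eq_abs,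
        Real.norm_eq_abs, abs_of_pos hpos, abs_of_nonneg (Finset.sum_nonneg fun n _ =>
          div_nonneg (norm_nonneg _) (Nat.cast_nonneg n))]
    have h9 : ‖Wa a (fun n => F X n * (Y n - Z n)) X‖ ≤
        (∑ n ∈ Finset.Ioc (a X) X, ‖Y (n : ℤ) - Z n‖ / n) / hw a X := by
      refine (wa_le_sum a _ X).trans (div_le_div_of_nonneg_right ?_ hpos.le)
      refine Finset.sum_le_sum fun n _ => div_le_div_of_nonneg_right ?_ (Nat.cast_nonneg n)
      rw [norm_mul]
      exact mul_le_of_le_one_left (norm_nonneg _) (hF X n)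
    rw [← h7] at h9
    linarith
  rw [h3]
  calc _ ≤ _ := norm_add_le _ _
    _ < ε := by linarith

end Pool.Agent.Work.MP_58cfe3_nt
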