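import Pool.Agent.Work.MP_58cfe3_nt.FCrit
import Pool.Agent.Work.MP_58cfe3_nt.FGlue
import Pool.Agent.Work.MP_58cfe3_nt.GCub
import Pool.Agent.Work.MP_58cfe3_nt.LUni

/-!
# Module FUni: the finitary theorem, uniform in all functions, for windows `X/ω < n ≤ X`
-/

set_option autoImplicit false

namespace Pool.Agent.Work.MP_58cfe3_nt

open Filter Topology

theorem nearfar_mono {g : ℤ → ℂ} (hb : ∀ n, ‖g n‖ ≤ 1) {Q A : ℕ} {η δ K η' δ' K' : ℝ}
    (h1 : η ≤ η') (h2 : δ ≤ δ') (h3 : K' ≤ K) {X : ℕ} (hX : 1 ≤ X)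
    (h : NearFar g Q A η δ K X) : NearFar g Q A η' δ' K' X := by
  obtain ⟨q, hq, χ, t, h4, h5, h6, h7⟩ := h
  exact ⟨q, hq, χ, t, h4, h5, (mass_anti hb χ t h1 hX).trans (h6.trans h2), h3.trans h7⟩

/-- a fixed character and a choice of the numbers `t`, for a family -/
private theorem choose_fam {G : ℕ → ℤ → ℂ} (hb : ∀ X n, ‖G X n‖ ≤ 1) {U : Ultrafilter ℕ}
    (hU : (U : Filter ℕ) ≤ atTop) {Q A : ℕ}
    (h : ∀ k : ℕ, ∀ᶠ X in (U : Filter ℕ), NearFar (G X) Q A (1 / (k + 1)) (1 / (k + 1)) k X) :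
    ∃ (q : ℕ) (_ : NeZero q) (χ : DirichletCharacter ℂ q) (t : ℕ → ℝ),
      (∀ᶠ X : ℕ in (U : Filter ℕ), |t X| ≤ (X : ℝ) ^ A) ∧
      (∀ η : ℝ, 0 < η → Tendsto (fun X => mass (G X) χ (t X) η X) U (𝓝 0)) ∧
      Tendsto (fun X : ℕ => dist2 (G X) χ (t X) X) U atTop := by
  classical
  -- the condition number `k` for a fixed character
  obtain ⟨P, hP⟩ : ∃ P : ((q : Fin Q) × DirichletCharacter ℂ ((q : ℕ) + 1)) → ℕ → ℕ → Prop,
      P = fun (c : (q : Fin Q) × DirichletCharacter ℂ ((q : ℕ) + 1)) (k X : ℕ) =>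
        ∃ t : ℝ, |t| ≤ (X : ℝ) ^ A ∧ mass (G X) c.2 t (1 / (k + 1)) X ≤ 1 / (k + 1) ∧
        (k : ℝ) ≤ dist2 (G X) c.2 t X := ⟨_, rfl⟩
  have hmono : ∀ c k k' X, k' ≤ k → 1 ≤ X → P c k X → P c k' X := by
    intro c k k' X hk hX hc
    rw [hP] at hc ⊢
    obtain ⟨t, h1, h2, h3⟩ := hc
    have hk' : (k' : ℝ) ≤ k := by exact_mod_cast hk
    have h4 : 1 / ((k : ℝ) + 1) ≤ 1 / ((k' : ℝ) + 1) :=
      one_div_le_one_div_of_le (by positivity) (by linarith)
    exact ⟨t, h1, (mass_anti (hb X) c.2 t h4 hX).trans (h2.trans h4), hk'.trans h3⟩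
  -- for each `k` some character
  have hex : ∀ k : ℕ, ∃ c, ∀ᶠ X in (U : Filter ℕ), P c k X := by
    intro k
    have h1 := h k
    have h2 : (⋃ c ∈ (Set.univ : Set ((q : Fin Q) × DirichletCharacter ℂ ((q : ℕ) + 1))),
        {X | P c k X}) ∈ U := by
      refine Filter.mem_of_superset h1 fun X hX => ?_
      obtain ⟨q, hq, χ, t, hqQ, ht, hm, hd⟩ := hX
      obtain ⟨q', rfl⟩ : ∃ q', q = q' + 1 := ⟨q - 1, by have := hq.out; omega⟩
      rw [Set.mem_iUnion₂]
      refine ⟨⟨⟨q', by omega⟩, χ⟩, Set.mem_univ _, ?_⟩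
      show P _ k X
      rw [hP]
      exact ⟨t, ht, hm, hd⟩
    rw [Ultrafilter.finite_biUnion_mem_iff Set.finite_univ] at h2
    obtain ⟨c, _, hc⟩ := h2
    exact ⟨c, hc⟩
  choose c hc using hex
  obtain ⟨c₀, hc₀⟩ := Finite.exists_infinite_fiber c
  have hall : ∀ k : ℕ, ∀ᶠ X in (U : Filter ℕ), P c₀ k X := by
    intro k
    obtain ⟨k', hk', hkk'⟩ := (Set.infinite_coe_iff.1 hc₀).exists_gt k
    have h1 := hc k'
    rw [show c k' = c₀ from hk'] at h1
    filter_upwards [h1, hU (eventually_ge_atTop 1)] with X hX hX1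
    exact hmono c₀ k' k X hkk'.le hX1 hX
  -- the diagonal choice
  obtain ⟨κ, hκ⟩ : ∃ κ : ℕ → ℕ, κ = fun X => Nat.findGreatest (fun k => P c₀ k X) X := ⟨_, rfl⟩
  have hκ1 : ∀ k, ∀ᶠ X in (U : Filter ℕ), k ≤ κ X ∧ P c₀ (κ X) X := by
    intro k
    filter_upwards [hall k, hU (eventually_ge_atTop k)] with X hX hXk
    rw [hκ]
    exact ⟨Nat.le_findGreatest hXk hX, Nat.findGreatest_spec (P := fun k => P c₀ k X) hXk hX⟩
  obtain ⟨t, ht⟩ : ∃ t : ℕ → ℝ, ∀ X, P c₀ (κ X) X → |t X| ≤ (X : ℝ) ^ A ∧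
      mass (G X) c₀.2 (t X) (1 / ((κ X : ℕ) + 1)) X ≤ 1 / ((κ X : ℕ) + 1) ∧
        ((κ X : ℕ) : ℝ) ≤ dist2 (G X) c₀.2 (t X) X := by
    rw [hP]
    refine ⟨fun X => if h : ∃ t : ℝ, |t| ≤ (X : ℝ) ^ A ∧
      mass (G X) c₀.2 t (1 / ((κ X : ℕ) + 1)) X ≤ 1 / ((κ X : ℕ) + 1) ∧
        ((κ X : ℕ) : ℝ) ≤ dist2 (G X) c₀.2 t X then h.choose else 0, fun X hX => ?_⟩
    dsimp only
    rw [dif_pos hX]
    exact hX.choose_spec
  refine ⟨(c₀.1 : ℕ) + 1, inferInstance, c₀.2, t, ?_, fun η hη => ?_, ?_⟩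
  · filter_upwards [hκ1 0] with X hX
    exact (ht X hX.2).1
  · rw [Metric.tendsto_nhds]
    intro ε hε
    obtain ⟨k, hk⟩ := exists_nat_one_div_lt (lt_min hη hε)
    filter_upwards [hκ1 k, hU (eventually_ge_atTop 1)] with X hX hX1
    have h1 := (ht X hX.2).2.1
    have hk' : (k : ℝ) ≤ κ X := by exact_mod_cast hX.1
    have h4 : 1 / (((κ X : ℕ) : ℝ) + 1) ≤ 1 / ((k : ℝ) + 1) :=
      one_div_le_one_div_of_le (by positivity) (by linarith)
    have h5 := lt_of_le_of_lt h4 hk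
    have h6 := mass_anti (hb X) c₀.2 (t X) ((h5.trans_le (min_le_left _ _)).le) hX1
    have h7 : 0 ≤ mass (G X) c₀.2 (t X) η X := Finset.sum_nonneg fun p _ =>
      div_nonneg (lu_gap_nonneg (hb X) _ _ p) (Nat.cast_nonneg p)
    rw [dist_zero_right, Real.norm_eq_abs, abs_of_nonneg h7]
    exact lt_of_le_of_lt (h6.trans h1) (h5.trans_le (min_le_right _ _))
  · rw [Filter.tendsto_atTop]
    intro K
    obtain ⟨k, hk⟩ := exists_nat_ge K
    filter_upwards [hκ1 k] with X hX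
    have hk' : (k : ℝ) ≤ κ X := by exact_mod_cast hX.1
    exact (hk.trans hk').trans (ht X hX.2).2.2

/-! ### harmonic sums of windows -/

private theorem hsum_le {m X : ℕ} (hm : 1 ≤ m) (hX : m ≤ X) :
    ∑ n ∈ Finset.Ioc m X, (1 / n : ℝ) ≤ Real.log X - Real.log m := by
  induction X, hX using Nat.le_induction with
  | base => simp
  | succ X hX ih =>
    rw [Finset.sum_Ioc_succ_top (by omega)]
    have hX0 : (0 : ℝ) < X := by exact_mod_cast (by omega : 0 < X)
    have h1 : Real.log ((X : ℝ) / ((X : ℝ) + 1)) ≤ (X : ℝ) / ((X : ℝ) + 1) - 1 :=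
      Real.log_le_sub_one_of_pos (by positivity)
    rw [Real.log_div hX0.ne' (by positivity)] at h1
    have h2 : (X : ℝ) / ((X : ℝ) + 1) - 1 = -(1 / ((X : ℝ) + 1)) := by
      field_simp
      ring
    push_cast
    linarith

private theorem hsum_ge {m X : ℕ} (hX : m ≤ X) :
    Real.log ((X : ℝ) + 1) - Real.log ((m : ℝ) + 1) ≤ ∑ n ∈ Finset.Ioc m X, (1 / n : ℝ) := by
  induction X, hX using Nat.le_induction with
  | base => simp
  | succ X hX ih =>
    rw [Finset.sum_Ioc_succ_top (by omega)]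
    have h1 : Real.log (((X : ℝ) + 1 + 1) / ((X : ℝ) + 1)) ≤
        ((X : ℝ) + 1 + 1) / ((X : ℝ) + 1) - 1 := Real.log_le_sub_one_of_pos (by positivity)
    rw [Real.log_div (by positivity) (by positivity)] at h1
    have h2 : ((X : ℝ) + 1 + 1) / ((X : ℝ) + 1) - 1 = 1 / ((X : ℝ) + 1) := by
      field_simp
      ring
    push_cast
    linarith

/-- the constant function `1` on the positive integers -/
private noncomputable def one1 (n : ℤ) : ℂ := if 0 < n then 1 else 0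

private theorem one1_mulBdd : MulBdd one1 := by
  refine ⟨fun n hn => if_neg (not_lt.2 hn), fun n => ?_, fun m n hm hn _ => ?_⟩
  · unfold one1
    split_ifs <;> simp
  · unfold one1
    rw [if_pos (mul_pos hm hn), if_pos hm, if_pos hn, mul_one]

/-- families of functions on a sparse sequence of scales -/
private theorem uni_aux {r : ℕ} (h : ℤ) (h' : Fin r → ℤ) (hne : ∀ i, h' i ≠ h) {Q A : ℕ}
    {x : ℕ → ℕ} (hx : Sparse x) {U : Ultrafilter ℕ} (hU : (U : Filter ℕ) ≤ map x atTop)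
    {G : ℕ → ℤ → ℂ} (hG : ∀ X, MulBdd (G X))
    (hGn : ∀ k : ℕ, ∀ᶠ X in (U : Filter ℕ), NearFar (G X) Q A (1 / (k + 1)) (1 / (k + 1)) k X)
    {f : ℕ → Fin r → ℤ → ℂ} (hf : ∀ X i, MulBdd (f X i)) {δ : ℝ} (hδ : 0 < δ)
    {a : ℕ → ℕ} (haw : Tendsto (hw a) U atTop) (hlo : ∀ᶠ X in (U : Filter ℕ), wlo δ X ≤ a X) :
    Tendsto (fun X => Wa a (fun n => G X (n + h) * ∏ i, f X i (n + h' i)) X) U (𝓝 0) := by
  have hU1 : (U : Filter ℕ) ≤ atTop := hU.trans hx.tendsto
  obtain ⟨M, hM, hlim⟩ := exists_amean haw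
  obtain ⟨q, hq, χ, t, ht1, ht2, ht3⟩ := choose_fam (fun X => (hG X).bdd) hU1 hGn
  -- the shifts
  have hsh : ∀ v : ℤ, ∀ᶠ X : ℕ in (U : Filter ℕ), ∀ n ∈ Finset.Ioc (a X) X,
      ∀ F : ℕ → ℤ → ℂ, glue x F ((n : ℤ) + v) = F X ((n : ℤ) + v) := by
    intro v
    filter_upwards [hU (glue_shift hx hδ v), hlo] with X hX hXlo n hn F
    exact hX n (Finset.Ioc_subset_Ioc_left hXlo hn) F
  -- number of companions
  obtain ⟨s, hs⟩ : ∃ s : ℕ, ((A : ℝ) + 1) / δ ≤ s := exists_nat_ge _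
  have hr : (A : ℝ) + 1 ≤ δ * ((r + s : ℕ) : ℝ) := by
    rw [div_le_iff₀ hδ] at hs
    push_cast
    have : 0 ≤ δ * (r : ℝ) := by positivity
    nlinarith
  obtain ⟨cg, hcg⟩ := glue_mulM hx hU hδ hlo hM hlim hG
  choose cf hcf using fun i : Fin r => glue_mulM hx hU hδ hlo hM hlim (F := fun X => f X i)
    fun X => hf X i
  obtain ⟨c1, hc1⟩ := glue_mulM hx hU hδ hlo hM hlim (F := fun _ => one1) fun _ => one1_mulBdd
  have hcube : ∀ e : Fin (r + s) → ℤ, Function.Injective (vert e) →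
      M (cube (glue x G) e) = 0 := by
    intro e he
    have h1 := cube_wa hG hU1 χ t ht1 ht2 ht3 haw hδ hlo hr he
    have hb : Bdd (cube (glue x G) e) := ⟨1, norm_cube_le hcg.bdd e⟩
    refine tendsto_nhds_unique (hlim _ hb) (h1.congr' ?_)
    have h2 : ∀ᶠ X : ℕ in (U : Filter ℕ), ∀ B : Finset (Fin (r + s)),
        ∀ n ∈ Finset.Ioc (a X) X, glue x G ((n : ℤ) + vert e B) = G X ((n : ℤ) + vert e B) := by
      rw [Filter.eventually_all]
      intro B
      filter_upwards [hsh (vert e B)] with X hX n hn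
      exact hX n hn G
    filter_upwards [h2] with X hX
    refine wa_congr fun n hn => ?_
    unfold cube
    refine Finset.prod_congr rfl fun B _ => ?_
    rw [hX B n hn]
  have h1 := criterion_mulM hM hcg hcube
    (f := Fin.append (fun i => glue x fun X => f X i) fun _ : Fin s => one1)
    (cf := Fin.append cf fun _ : Fin s => c1)
    (fun i => by
      refine Fin.addCases (fun i => ?_) (fun i => ?_) i
      · rw [Fin.append_left, Fin.append_left]
        exact hcf i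
      · rw [Fin.append_right, Fin.append_right]
        exact hc1) h (Fin.append h' fun _ : Fin s => h + 1)
    (fun i => by
      refine Fin.addCases (fun i => ?_) (fun i => ?_) i
      · rw [Fin.append_left]
        exact hne i
      · rw [Fin.append_right]
        omega)
  have h2 : (fun n : ℤ => glue x G (n + h) *
      ∏ i, (Fin.append (fun i => glue x fun X => f X i) fun _ : Fin s => one1) i
      (n + (Fin.append h' fun _ : Fin s => h + 1) i)) =
      fun n => (glue x G (n + h) * ∏ i, (glue x fun X => f X i) (n + h' i)) *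
        one1 (n + (h + 1)) ^ s := by
    funext n
    rw [Fin.prod_univ_add]
    simp only [Fin.append_left, Fin.append_right, Finset.prod_const, Finset.card_univ,
      Fintype.card_fin]
    ring
  rw [h2] at h1
  have hb1 : Bdd fun n : ℤ => (glue x G (n + h) * ∏ i, (glue x fun X => f X i) (n + h' i)) *
      one1 (n + (h + 1)) ^ s := by
    refine ⟨1, fun n => ?_⟩
    rw [norm_mul, norm_mul, norm_pow]
    exact mul_le_one₀ (mul_le_one₀ (hcg.bdd _) (norm_nonneg _)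
      (norm_prod_le_one _ _ fun i _ => (hcf i).bdd _)) (by positivity)
      (pow_le_one₀ (norm_nonneg _) (one1_mulBdd.bdd _))
  have h3 := hlim _ hb1
  rw [h1] at h3
  refine h3.congr' ?_
  have h4 : ∀ᶠ X : ℕ in (U : Filter ℕ), ∀ i : Fin r, ∀ n ∈ Finset.Ioc (a X) X,
      glue x (fun X => f X i) ((n : ℤ) + h' i) = f X i ((n : ℤ) + h' i) := by
    rw [Filter.eventually_all]
    intro i
    filter_upwards [hsh (h' i)] with X hX n hn
    exact hX n hn fun X => f X i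
  have hbig : ∀ᶠ X : ℕ in atTop, h.natAbs + 1 ≤ wlo δ X :=
    (wlo_tendsto hδ).eventually_ge_atTop _
  filter_upwards [hsh h, h4, hU1 hbig, hlo] with X hX1 hX2 hX3 hX4
  refine wa_congr fun n hn => ?_
  have hn1 : a X < n := (Finset.mem_Ioc.1 hn).1
  have h5 : one1 ((n : ℤ) + (h + 1)) = 1 := by
    unfold one1
    rw [if_pos]
    omega
  rw [h5, one_pow, mul_one, hX1 n hn G]
  congr 1
  exact Finset.prod_congr rfl fun i _ => hX2 i n hn

/-- the finitary theorem for windows `X/ω < n ≤ X`, uniform in all functions -/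
theorem unif_win {r : ℕ} (h : ℤ) (h' : Fin r → ℤ) (hne : ∀ i, h' i ≠ h) (Q A : ℕ) {ε : ℝ}
    (hε : 0 < ε) :
    ∃ η δ K ω₀ : ℝ, 0 < η ∧ 0 < δ ∧ 1 < ω₀ ∧ ∀ (X : ℕ) (ω : ℝ), ω₀ ≤ ω → ω ≤ X →
      ∀ g : ℤ → ℂ, MulBdd g → NearFar g Q A η δ K X →
      ∀ f : Fin r → ℤ → ℂ, (∀ i, MulBdd (f i)) →
      ‖∑ n ∈ Finset.Ioc ⌊(X : ℝ) / ω⌋₊ X, (g (n + h) * ∏ i, f i (n + h' i)) / n‖ ≤
        ε * Real.log ω := by
  by_contra hcon
  push Not at hcon
  have hneg : ∀ (k : ℕ) (W : ℝ), ∃ (X : ℕ) (ω : ℝ), max W 2 ≤ ω ∧ ω ≤ X ∧ ∃ g : ℤ → ℂ,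
      MulBdd g ∧ NearFar g Q A (1 / (k + 1)) (1 / (k + 1)) k X ∧
      ∃ f : Fin r → ℤ → ℂ, (∀ i, MulBdd (f i)) ∧ ε * Real.log ω <
        ‖∑ n ∈ Finset.Ioc ⌊(X : ℝ) / ω⌋₊ X, (g (n + h) * ∏ i, f i (n + h' i)) / n‖ := by
    intro k W
    obtain ⟨X, ω, h1, h2, g, h3, h4, f, h5, h6⟩ := hcon (1 / (k + 1)) (1 / (k + 1)) k (max W 2)
      (by positivity) (by positivity) (lt_of_lt_of_le one_lt_two (le_max_right _ _))
    exact ⟨X, ω, h1, h2, g, h3, h4, f, h5, h6⟩
  choose X₁ ω₁ hω1 hω2 g₁ hg₁ hn₁ f₁ hf₁ hbig using hneg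
  -- the recursive choice
  obtain ⟨W, hW0, hWs⟩ : ∃ W : ℕ → ℝ, W 0 = 1 ∧ ∀ k, W (k + 1) = 2 ^ X₁ k (W k) :=
    ⟨fun k => Nat.rec (motive := fun _ => ℝ) 1 (fun k w => 2 ^ X₁ k w) k, rfl, fun k => rfl⟩
  obtain ⟨x, hx⟩ : ∃ x : ℕ → ℕ, x = fun k => X₁ k (W k) := ⟨_, rfl⟩
  obtain ⟨w, hw'⟩ : ∃ w : ℕ → ℝ, w = fun k => ω₁ k (W k) := ⟨_, rfl⟩
  have hwx : ∀ k, w k ≤ x k := fun k => by
    rw [hx, hw']
    exact hω2 k (W k)
  have hw2 : ∀ k, 2 ≤ w k := fun k => by
    rw [hw']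
    exact (le_max_right _ _).trans (hω1 k (W k))
  have hwW : ∀ k, ((2 ^ x k : ℕ) : ℝ) ≤ w (k + 1) := fun k => by
    rw [hw', hx]
    refine le_trans (le_of_eq ?_) ((le_max_left _ _).trans (hω1 (k + 1) (W (k + 1))))
    rw [hWs]
    push_cast
    rfl
  have hsp : Sparse x := by
    refine ⟨?_, fun k => ?_⟩
    · have h1 := (hw2 0).trans (hwx 0)
      have h2 : (1 : ℝ) ≤ x 0 := by linarith
      exact_mod_cast h2
    · exact_mod_cast (hwW k).trans (hwx (k + 1))
  have hinj : Function.Injective x := hsp.strictMono.injective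
  have hinv : ∀ k, Function.invFun x (x k) = k := Function.leftInverse_invFun hinj
  -- the families
  obtain ⟨G, hG⟩ : ∃ G : ℕ → ℤ → ℂ, G = fun X => g₁ (Function.invFun x X) (W (Function.invFun x X)) :=
    ⟨_, rfl⟩
  obtain ⟨f, hf⟩ : ∃ f : ℕ → Fin r → ℤ → ℂ,
      f = fun X => f₁ (Function.invFun x X) (W (Function.invFun x X)) := ⟨_, rfl⟩
  obtain ⟨Ω, hΩ⟩ : ∃ Ω : ℕ → ℝ, Ω = fun X => w (Function.invFun x X) := ⟨_, rfl⟩
  have hΩx : ∀ k, Ω (x k) = w k := fun k => by rw [hΩ]; simp only [hinv]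
  -- the window
  obtain ⟨δ, hδ, hδ1, hδ2⟩ : ∃ δ : ℝ, 0 < δ ∧ δ ≤ 1 / 2 ∧ 8 * δ ≤ ε :=
    ⟨min (1 / 2) (ε / 8), lt_min (by norm_num) (by positivity), min_le_left _ _, by
      have := min_le_right (1 / 2) (ε / 8)
      linarith⟩
  obtain ⟨a, ha⟩ : ∃ a : ℕ → ℕ, a = fun X : ℕ => max ⌊(X : ℝ) / Ω X⌋₊ (wlo δ X) := ⟨_, rfl⟩
  obtain ⟨U, hU⟩ : ∃ U : Ultrafilter ℕ, (U : Filter ℕ) ≤ map x atTop :=
    ⟨Ultrafilter.of _, Ultrafilter.of_le _⟩
  have hwt : Tendsto w atTop atTop := by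
    rw [← tendsto_add_atTop_iff_nat 1]
    refine tendsto_atTop_mono (fun k => ?_) (tendsto_natCast_atTop_atTop.comp hsp.tendsto)
    refine le_trans ?_ (hwW k)
    show ((x k : ℕ) : ℝ) ≤ ((2 ^ x k : ℕ) : ℝ)
    exact_mod_cast (Nat.lt_two_pow_self (n := x k)).le
  have hxt : Tendsto (fun k => ((x k : ℕ) : ℝ)) atTop atTop :=
    tendsto_natCast_atTop_atTop.comp hsp.tendsto
  have hax : ∀ k, a (x k) = max ⌊((x k : ℕ) : ℝ) / w k⌋₊ (wlo δ (x k)) := fun k => by
    rw [ha]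
    simp only [hΩx]
  have hx1 : ∀ k, 1 ≤ x k := fun k => hsp.one.trans (hsp.strictMono.monotone (Nat.zero_le k))
  have hale : ∀ k, a (x k) ≤ x k := fun k => by
    rw [hax]
    refine max_le ?_ (wlo_le (by linarith) (hx1 k))
    refine Nat.floor_le_of_le ?_
    have h1 := hw2 k
    exact div_le_self (Nat.cast_nonneg _) (by linarith)
  -- the harmonic sums of the windows
  have haw : Tendsto (hw a) U atTop := by
    refine Tendsto.mono_left ?_ hU
    rw [tendsto_map'_iff]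
    have h1 : Tendsto (fun k => min (Real.log (w k)) (1 / 2 * Real.log (x k)) - Real.log 2)
        atTop atTop := by
      refine tendsto_atTop_add_const_right _ _ ?_
      have h2 : Tendsto (fun k => Real.log (w k)) atTop atTop := Real.tendsto_log_atTop.comp hwt
      have h3 : Tendsto (fun k => 1 / 2 * Real.log ((x k : ℕ) : ℝ)) atTop atTop :=
        (Real.tendsto_log_atTop.comp hxt).const_mul_atTop (by norm_num)
      rw [Filter.tendsto_atTop] at h2 h3 ⊢
      intro b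
      filter_upwards [h2 b, h3 b] with k hk1 hk2
      exact le_min hk1 hk2
    refine tendsto_atTop_mono (fun k => ?_) h1
    have h4 : (1 : ℝ) ≤ ((x k : ℕ) : ℝ) := by exact_mod_cast hx1 k
    have h5 := hw2 k
    have h6 := hwx k
    have hx0 : (0 : ℝ) < ((x k : ℕ) : ℝ) := by linarith
    refine le_trans ?_ (hsum_ge (hale k))
    have h7 : (((a (x k) : ℕ)) : ℝ) + 1 ≤
        2 * max (((x k : ℕ) : ℝ) / w k) (((x k : ℕ) : ℝ) ^ δ) := by
      have h8 : (1 : ℝ) ≤ ((x k : ℕ) : ℝ) / w k := (one_le_div (by linarith)).2 h6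
      have h9 : ((a (x k) : ℕ) : ℝ) ≤ max (((x k : ℕ) : ℝ) / w k) (((x k : ℕ) : ℝ) ^ δ) := by
        rw [hax, Nat.cast_max]
        exact max_le_max (Nat.floor_le (by positivity)) (Nat.floor_le (by positivity))
      have h10 := h8.trans (le_max_left (((x k : ℕ) : ℝ) / w k) (((x k : ℕ) : ℝ) ^ δ))
      linarith
    have hmx : 0 < max (((x k : ℕ) : ℝ) / w k) (((x k : ℕ) : ℝ) ^ δ) :=
      lt_max_of_lt_right (by positivity)
    have h8 : Real.log (((a (x k) : ℕ) : ℝ) + 1) ≤ Real.log 2 +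
        Real.log (max (((x k : ℕ) : ℝ) / w k) (((x k : ℕ) : ℝ) ^ δ)) := by
      rw [← Real.log_mul (by norm_num) hmx.ne']
      exact Real.log_le_log (by positivity) h7
    have h9 : Real.log ((x k : ℕ) : ℝ) ≤ Real.log (((x k : ℕ) : ℝ) + 1) :=
      Real.log_le_log hx0 (by linarith)
    have h10 : Real.log (max (((x k : ℕ) : ℝ) / w k) (((x k : ℕ) : ℝ) ^ δ)) ≤
        Real.log ((x k : ℕ) : ℝ) - min (Real.log (w k)) (1 / 2 * Real.log (x k)) := by
      rcases max_choice (((x k : ℕ) : ℝ) / w k) (((x k : ℕ) : ℝ) ^ δ) with hc | hc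
      · rw [hc, Real.log_div hx0.ne' (by linarith)]
        have := min_le_left (Real.log (w k)) (1 / 2 * Real.log (x k))
        linarith
      · rw [hc, Real.log_rpow hx0]
        have h11 := min_le_right (Real.log (w k)) (1 / 2 * Real.log (x k))
        have h12 : 0 ≤ Real.log ((x k : ℕ) : ℝ) := Real.log_nonneg h4
        nlinarith
    linarith
  have hlo : ∀ᶠ X in (U : Filter ℕ), wlo δ X ≤ a X := Eventually.of_forall fun X => by
    rw [ha]
    exact le_max_right _ _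
  have hlimit := uni_aux h h' hne (Q := Q) (A := A) hsp hU (G := G)
    (fun X => by rw [hG]; exact hg₁ _ _)
    (fun k => by
      refine hU ?_
      show ∀ᶠ X in map x atTop, NearFar (G X) Q A (1 / (k + 1)) (1 / (k + 1)) k X
      rw [Filter.eventually_map]
      filter_upwards [eventually_ge_atTop k] with j hj
      have h1 : NearFar (G (x j)) Q A (1 / ((j : ℝ) + 1)) (1 / ((j : ℝ) + 1)) j (x j) := by
        rw [hG]
        dsimp only
        rw [hinv]
        have h2 := hn₁ j (W j)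
        rwa [show X₁ j (W j) = x j by rw [hx]] at h2
      have hk' : (k : ℝ) ≤ j := by exact_mod_cast hj
      have h4 : 1 / ((j : ℝ) + 1) ≤ 1 / ((k : ℝ) + 1) :=
        one_div_le_one_div_of_le (by positivity) (by linarith)
      exact nearfar_mono (by rw [hG]; exact (hg₁ _ _).bdd) h4 h4 hk' (hx1 j) h1)
    (f := f) (fun X i => by rw [hf]; exact hf₁ _ _ i) hδ haw hlo
  -- the lower bound
  have hlow : ∀ᶠ X in (U : Filter ℕ),
      ε / 4 ≤ ‖Wa a (fun n => G X (n + h) * ∏ i, f X i (n + h' i)) X‖ := by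
    refine hU ?_
    show ∀ᶠ X in map x atTop, ε / 4 ≤ ‖Wa a (fun n => G X (n + h) * ∏ i, f X i (n + h' i)) X‖
    rw [Filter.eventually_map]
    have hlw : Tendsto (fun k => Real.log (w k)) atTop atTop := Real.tendsto_log_atTop.comp hwt
    filter_upwards [hlw.eventually_ge_atTop (max 1 (4 / ε))] with k hk
    have hk1 : 1 ≤ Real.log (w k) := (le_max_left _ _).trans hk
    have hk2 : 4 / ε ≤ Real.log (w k) := (le_max_right _ _).trans hk
    have hGk : G (x k) = g₁ k (W k) := by rw [hG]; simp only [hinv]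
    have hfk : f (x k) = f₁ k (W k) := by rw [hf]; simp only [hinv]
    have hb := hbig k (W k)
    rw [← hGk, ← hfk, show X₁ k (W k) = x k by rw [hx], show ω₁ k (W k) = w k by rw [hw']] at hb
    have h4 : (1 : ℝ) ≤ ((x k : ℕ) : ℝ) := by exact_mod_cast hx1 k
    have h5 := hw2 k
    have h6 := hwx k
    have hx0 : (0 : ℝ) < ((x k : ℕ) : ℝ) := by linarith
    have hw0 : (0 : ℝ) < w k := by linarith
    obtain ⟨m, hm⟩ : ∃ m : ℕ, m = ⌊((x k : ℕ) : ℝ) / w k⌋₊ := ⟨_, rfl⟩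
    rw [← hm] at hb
    have hxw : (1 : ℝ) ≤ ((x k : ℕ) : ℝ) / w k := (one_le_div (by linarith)).2 h6
    have hm1 : 1 ≤ m := by
      rw [hm]
      exact Nat.floor_pos.2 hxw
    have hma : m ≤ a (x k) := by
      rw [hax, hm]
      exact le_max_left _ _
    have hmx : m ≤ x k := hma.trans (hale k)
    obtain ⟨F, hF⟩ : ∃ F : ℤ → ℂ, F = fun n => G (x k) (n + h) * ∏ i, f (x k) i (n + h' i) :=
      ⟨_, rfl⟩
    have hFb : ∀ n, ‖F n‖ ≤ 1 := by
      intro n
      rw [hF, hGk, hfk]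
      dsimp only
      rw [norm_mul]
      exact mul_le_one₀ ((hg₁ _ _).bdd _) (norm_nonneg _)
        (norm_prod_le_one _ _ fun i _ => (hf₁ _ _ i).bdd _)
    rw [← hF]
    have hb' : ε * Real.log (w k) < ‖∑ n ∈ Finset.Ioc m (x k), F n / n‖ := by
      rw [hF]
      exact hb
    have hsplit : ∑ n ∈ Finset.Ioc m (x k), F n / (n : ℂ) =
        ∑ n ∈ Finset.Ioc m (a (x k)), F n / (n : ℂ) +
          ∑ n ∈ Finset.Ioc (a (x k)) (x k), F n / (n : ℂ) := by
      rw [← Finset.sum_union]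
      · rw [Finset.Ioc_union_Ioc_eq_Ioc hma (hale k)]
      · rw [Finset.disjoint_left]
        intro n hn hn'
        rw [Finset.mem_Ioc] at hn hn'
        omega
    have hfirst : ‖∑ n ∈ Finset.Ioc m (a (x k)), F n / (n : ℂ)‖ ≤ ε / 2 * Real.log (w k) := by
      have h7 : ‖∑ n ∈ Finset.Ioc m (a (x k)), F n / (n : ℂ)‖ ≤
          ∑ n ∈ Finset.Ioc m (a (x k)), (1 / n : ℝ) := by
        refine (norm_sum_le _ _).trans (Finset.sum_le_sum fun n _ => ?_)
        rw [norm_div, Complex.norm_natCast]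
        exact div_le_div_of_nonneg_right (hFb _) (Nat.cast_nonneg n)
      refine h7.trans ((hsum_le hm1 hma).trans ?_)
      have h8 : 1 + ε / 4 * Real.log (w k) ≤ ε / 2 * Real.log (w k) := by
        rw [div_le_iff₀ hε] at hk2
        linarith
      refine le_trans ?_ h8
      rcases le_or_gt (wlo δ (x k)) m with hc | hc
      · have h9 : a (x k) = m := by
          rw [hax, ← hm]
          exact max_eq_left hc
        rw [h9, sub_self]
        have : 0 ≤ ε / 4 * Real.log (w k) := by positivity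
        linarith
      · have h9 : a (x k) = wlo δ (x k) := by
          rw [hax, ← hm]
          exact max_eq_right hc.le
        rw [h9]
        have h10 : Real.log ((wlo δ (x k) : ℕ) : ℝ) ≤ δ * Real.log ((x k : ℕ) : ℝ) := by
          rw [← Real.log_rpow hx0]
          refine Real.log_le_log ?_ (Nat.floor_le (by positivity))
          exact_mod_cast (Nat.zero_le m).trans_lt hc
        have h11 : 0 ≤ Real.log (m : ℝ) := Real.log_natCast_nonneg m
        -- `w k` is large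
        have h12 : ((x k : ℕ) : ℝ) / w k < ((x k : ℕ) : ℝ) ^ δ := by
          have h13 : m + 1 ≤ wlo δ (x k) := hc
          have h14 : ((x k : ℕ) : ℝ) / w k < (m : ℝ) + 1 := by
            rw [hm]
            exact Nat.lt_floor_add_one _
          have h15 : ((m : ℝ) + 1) ≤ ((wlo δ (x k) : ℕ) : ℝ) := by exact_mod_cast h13
          have h16 : ((wlo δ (x k) : ℕ) : ℝ) ≤ ((x k : ℕ) : ℝ) ^ δ := Nat.floor_le (by positivity)
          linarith
        have h13 := Real.log_le_log (by positivity) h12.le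
        rw [Real.log_div hx0.ne' hw0.ne', Real.log_rpow hx0] at h13
        have h14 : 0 ≤ Real.log ((x k : ℕ) : ℝ) := Real.log_nonneg h4
        have h15 : Real.log ((x k : ℕ) : ℝ) ≤ 2 * Real.log (w k) := by nlinarith
        have h16 : δ * Real.log ((x k : ℕ) : ℝ) ≤ ε / 4 * Real.log (w k) := by nlinarith
        linarith
    have hsecond : ε / 2 * Real.log (w k) ≤
        ‖∑ n ∈ Finset.Ioc (a (x k)) (x k), F n / (n : ℂ)‖ := by
      have h7 := norm_add_le (∑ n ∈ Finset.Ioc m (a (x k)), F n / (n : ℂ))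
        (∑ n ∈ Finset.Ioc (a (x k)) (x k), F n / (n : ℂ))
      rw [← hsplit] at h7
      linarith
    have hhw : hw a (x k) ≤ 2 * Real.log (w k) := by
      have h7 : hw a (x k) ≤ ∑ n ∈ Finset.Ioc m (x k), (1 / n : ℝ) :=
        Finset.sum_le_sum_of_subset_of_nonneg (Finset.Ioc_subset_Ioc_left hma)
          fun n _ _ => by positivity
      refine h7.trans ((hsum_le hm1 hmx).trans ?_)
      have h8 : ((x k : ℕ) : ℝ) / w k ≤ 2 * m := by
        have h9 : ((x k : ℕ) : ℝ) / w k < (m : ℝ) + 1 := by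
          rw [hm]
          exact Nat.lt_floor_add_one _
        have h10 : (1 : ℝ) ≤ m := by exact_mod_cast hm1
        linarith
      have h9 : ((x k : ℕ) : ℝ) ≤ 2 * m * w k := by
        rwa [div_le_iff₀ hw0] at h8
      have hm0 : (0 : ℝ) < m := by exact_mod_cast hm1
      have h10 := Real.log_le_log hx0 h9
      rw [Real.log_mul (by positivity) hw0.ne', Real.log_mul (by norm_num) hm0.ne'] at h10
      have h11 := Real.log_two_lt_d9
      linarith
    have hpos : 0 < hw a (x k) := by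
      rcases (hw_nonneg a (x k)).lt_or_eq with h7 | h7
      · exact h7
      · exfalso
        have h8 : ‖∑ n ∈ Finset.Ioc (a (x k)) (x k), F n / (n : ℂ)‖ ≤ hw a (x k) := by
          refine (norm_sum_le _ _).trans (Finset.sum_le_sum fun n _ => ?_)
          rw [norm_div, Complex.norm_natCast]
          exact div_le_div_of_nonneg_right (hFb _) (Nat.cast_nonneg n)
        rw [← h7] at h8
        have h9 : 0 < ε / 2 * Real.log (w k) := by positivity
        linarith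
    rw [Wa, norm_div, Complex.norm_real, Real.norm_eq_abs, abs_of_pos hpos, le_div_iff₀ hpos]
    have h7 : ε / 4 * hw a (x k) ≤ ε / 4 * (2 * Real.log (w k)) :=
      mul_le_mul_of_nonneg_left hhw (by positivity)
    linarith
  have h1 := ge_of_tendsto hlimit.norm hlow
  rw [norm_zero] at h1
  linarith

end Pool.Agent.Work.MP_58cfe3_nt
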