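import Pool.Agent.Work.MP_58cfe3_nt.SX
import Pool.Agent.Work.MP_58cfe3_nt.SDefs

/-!
# Module GApp: periodic approximation of products of `xs χ` in natural density (copy of SApp)

PROOF. `B ≥ |v i|`, `κ = card ι`. Let `m = q^N`, `N ≥ 1` to be chosen. Call `n` fine if `ℓ^N ∤ n + v i` for all primes
`ℓ ∣ q` and all `i`; this depends only on `n` mod `m`. Put `Z n = Y (n')` if `n` is fine and `0` otherwise, where
`Y n = ∏_i cj (s i) (xs χ (n + v i))` and `n' = n % m + m (B + 1) > B` is the representative of `n`. `Z` is `m`-periodic of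
norm `≤ 1`. For natural `n > B` which is fine, `Y n = Z n` by `xs_per` (`n + v i > 0`, `n' + v i > 0`). So
`‖Y n - Z n‖ ≤ 2` only for `n ≤ B` and for not fine `n`, whose upper logarithmic density is
`≤ ∑_i ∑_{ℓ ∣ q} ℓ^(-N) ≤ κ q 2^(-N)`: for a residue class `a` mod `L`,
`∑_{n ≤ X, L ∣ n + v} 1/n ≤ (1 + 1/L) + (1/L) hs X`-type bound (the terms with `n = j L - v`: at most one `n < L`, the others
`n ≥ L j`); divide by `hs X → ∞`. Choose `N` with `2 κ q 2^(-N) ≤ η/2`.
-/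

set_option autoImplicit false

namespace Pool.Agent.Work.MP_58cfe3_nt

open Filter Topology

private theorem res_card (L : ℕ) (hL : 0 < L) (v : ℤ) (X : ℕ) :
    ∑ _n ∈ (Finset.Icc 1 X).filter (fun n : ℕ => (L : ℤ) ∣ n + v), (1 : ℝ) ≤ 1 + X / L := by
  classical
  set A := (Finset.Icc 1 X).filter (fun n : ℕ => (L : ℤ) ∣ n + v) with hA
  have hLr : (0 : ℝ) < L := by exact_mod_cast hL
  have hinj : Set.InjOn (fun n : ℕ => n / L) A := by
    intro n hn n' hn' h
    rw [Finset.mem_coe, hA, Finset.mem_filter] at hn hn'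
    have h1 : (L : ℤ) ∣ (n' : ℤ) - n := by
      have := dvd_sub hn'.2 hn.2
      rwa [add_sub_add_right_eq_sub] at this
    have h2 : n ≡ n' [MOD L] := Nat.modEq_iff_dvd.2 h1
    have h3 := Nat.div_add_mod n L
    have h4 := Nat.div_add_mod n' L
    have h5 : n % L = n' % L := h2
    have h6 : n / L = n' / L := h
    rw [h5, h6] at h3
    omega
  have hsub : A.image (fun n => n / L) ⊆ Finset.range (X / L + 1) := by
    intro j hj
    obtain ⟨n, hn, rfl⟩ := Finset.mem_image.1 hj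
    rw [hA, Finset.mem_filter, Finset.mem_Icc] at hn
    rw [Finset.mem_range]
    exact Nat.lt_succ_of_le (Nat.div_le_div_right hn.1.2)
  have h1 := Finset.card_le_card hsub
  rw [Finset.card_image_of_injOn hinj, Finset.card_range] at h1
  rw [Finset.sum_const, nsmul_eq_mul, mul_one]
  have h2 : ((A.card : ℕ) : ℝ) ≤ ((X / L : ℕ) : ℝ) + 1 := by exact_mod_cast h1
  have h3 : ((X / L : ℕ) : ℝ) ≤ (X : ℝ) / L := Nat.cast_div_le
  linarith

private theorem norm_cj (b : Bool) (z : ℂ) : ‖cj b z‖ = ‖z‖ := by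
  rw [cj]
  split_ifs
  · exact norm_star z
  · rfl

private theorem norm_Y {q : ℕ} [NeZero q] (χ : DirichletCharacter ℂ q) {ι : Type} [Fintype ι]
    (v : ι → ℤ) (s : ι → Bool) (n : ℤ) : ‖∏ i, cj (s i) (xs χ (n + v i))‖ = 1 := by
  rw [norm_prod]
  exact Finset.prod_eq_one fun i _ => by rw [norm_cj, norm_xs]

private theorem small_sum (B X : ℕ) :
    ∑ n ∈ Finset.Icc 1 X, (if n ≤ B then (1 : ℝ) else 0) ≤ B := by
  rw [← Finset.sum_filter]
  have h1 : ((Finset.Icc 1 X).filter fun n => n ≤ B) ⊆ Finset.Icc 1 B := by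
    intro n hn
    rw [Finset.mem_filter, Finset.mem_Icc] at hn
    exact Finset.mem_Icc.2 ⟨hn.1.1, hn.2⟩
  calc ∑ n ∈ (Finset.Icc 1 X).filter (fun n => n ≤ B), (1 : ℝ)
      ≤ ∑ n ∈ Finset.Icc 1 B, (1 : ℝ) :=
        Finset.sum_le_sum_of_subset_of_nonneg h1 fun n _ _ => by positivity
    _ = B := by simp

theorem xs_approx_nat {q : ℕ} [NeZero q] (χ : DirichletCharacter ℂ q) {ι : Type} [Fintype ι]
    (v : ι → ℤ) (s : ι → Bool) {η : ℝ} (hη : 0 < η) :
    ∃ m : ℕ, 0 < m ∧ ∃ Z : ℤ → ℂ, (∀ n, ‖Z n‖ ≤ 1) ∧ (∀ n, Z (n + m) = Z n) ∧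
      ∀ᶠ X : ℕ in atTop,
        ∑ n ∈ Finset.Icc 1 X, ‖(∏ i, cj (s i) (xs χ ((n : ℤ) + v i))) - Z n‖ ≤ η * X := by
  classical
  -- parameters
  obtain ⟨B, hB⟩ : ∃ B : ℕ, ∀ i, |v i| ≤ B := by
    refine ⟨Finset.univ.sup fun i => (v i).natAbs, fun i => ?_⟩
    rw [Int.abs_eq_natAbs]
    exact_mod_cast Finset.le_sup (f := fun i => (v i).natAbs) (Finset.mem_univ i)
  set K : ℝ := (Fintype.card ι : ℝ) * q with hK
  have hK0 : 0 ≤ K := by positivity
  obtain ⟨N, hN⟩ : ∃ N : ℕ, 2 * K * (1 / 2 : ℝ) ^ N ≤ η / 2 := by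
    have h1 : Tendsto (fun N : ℕ => 2 * K * (1 / 2 : ℝ) ^ N) atTop (𝓝 (2 * K * 0)) :=
      (tendsto_pow_atTop_nhds_zero_of_lt_one (by norm_num) (by norm_num)).const_mul _
    rw [mul_zero] at h1
    obtain ⟨N, hN⟩ := (h1.eventually_le_const (half_pos hη)).exists
    exact ⟨N, hN⟩
  have hq0 : 0 < q := Nat.pos_of_ne_zero (NeZero.ne q)
  have hm0 : 0 < q ^ N := pow_pos hq0 N
  let fine : ℤ → Prop := fun n => ∀ l : ℕ, l.Prime → l ∣ q → ∀ i, ¬ (l : ℤ) ^ N ∣ n + v i
  let Y : ℤ → ℂ := fun n => ∏ i, cj (s i) (xs χ (n + v i))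
  let rep : ℤ → ℤ := fun n => n % ((q ^ N : ℕ) : ℤ) + ((q ^ N : ℕ) : ℤ) * ((B : ℤ) + 1)
  let Z : ℤ → ℂ := fun n => if fine n then Y (rep n) else 0
  have hY : ∀ n, ‖Y n‖ = 1 := fun n => norm_Y χ v s n
  have hZ : ∀ n, ‖Z n‖ ≤ 1 := by
    intro n
    simp only [Z]
    split_ifs
    · exact (hY _).le
    · simp
  have hdvd : ∀ l : ℕ, l ∣ q → (l : ℤ) ^ N ∣ ((q ^ N : ℕ) : ℤ) := by
    intro l hl
    push_cast
    exact pow_dvd_pow_of_dvd (Int.natCast_dvd_natCast.2 hl) N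
  have hfine : ∀ n, fine (n + (q ^ N : ℕ)) ↔ fine n := by
    intro n
    refine forall_congr' fun l => forall_congr' fun _ => forall_congr' fun hl => forall_congr' fun i => ?_
    refine not_congr ?_
    have h1 : n + ((q ^ N : ℕ) : ℤ) + v i = n + v i + ((q ^ N : ℕ) : ℤ) := by ring
    rw [h1]
    exact dvd_add_left (hdvd l hl)
  have hper : ∀ n, Z (n + (q ^ N : ℕ)) = Z n := by
    intro n
    simp only [Z]
    have h1 : rep (n + (q ^ N : ℕ)) = rep n := by
      simp only [rep]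
      rw [Int.add_emod_right]
    simp only [hfine n, h1]
  have hYZ : ∀ n : ℕ, B < n → fine n → Y n = Z n := by
    intro n hn hf
    simp only [Z]
    rw [if_pos hf]
    refine Finset.prod_congr rfl fun i _ => ?_
    have hvi := abs_le.1 (hB i)
    have hn' : (B : ℤ) < n := by exact_mod_cast hn
    have hmz : (0 : ℤ) < ((q ^ N : ℕ) : ℤ) := by exact_mod_cast hm0
    have hmod : 0 ≤ (n : ℤ) % ((q ^ N : ℕ) : ℤ) := Int.emod_nonneg _ hmz.ne'
    have hrep : (B : ℤ) < rep n := by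
      simp only [rep]
      have : (B : ℤ) + 1 ≤ ((q ^ N : ℕ) : ℤ) * ((B : ℤ) + 1) := by nlinarith
      linarith
    rw [xs_per χ (N := N) (m := (n : ℤ) + v i) (m' := rep n + v i) (by linarith [hvi.1])
      (by linarith [hvi.1]) ?_ fun l hl hlq => hf l hl hlq i]
    have h1 : (n : ℤ) + v i - (rep n + v i) =
        ((q ^ N : ℕ) : ℤ) * ((n : ℤ) / ((q ^ N : ℕ) : ℤ) - ((B : ℤ) + 1)) := by
      simp only [rep]
      have := Int.emod_add_mul_ediv (n : ℤ) ((q ^ N : ℕ) : ℤ)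
      linear_combination -this
    rw [h1]
    push_cast
    exact dvd_mul_right _ _
  refine ⟨q ^ N, hm0, Z, hZ, hper, ?_⟩
  have hterm : ∀ n : ℕ, ‖Y n - Z n‖ ≤
      2 * (if n ≤ B then (1 : ℝ) else 0) +
        2 * ∑ i, ∑ l ∈ q.primeFactors, (if ((l ^ N : ℕ) : ℤ) ∣ n + v i then (1 : ℝ) else 0) := by
    intro n
    have hD : ‖Y n - Z n‖ ≤ 2 := by
      refine (norm_sub_le _ _).trans ?_
      have := hZ n
      rw [hY]
      linarith
    have hs0 : ∀ i, 0 ≤ ∑ l ∈ q.primeFactors,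
        (if ((l ^ N : ℕ) : ℤ) ∣ (n : ℤ) + v i then (1 : ℝ) else 0) := fun i =>
      Finset.sum_nonneg fun l _ => by split_ifs <;> positivity
    have hs1 : 0 ≤ ∑ i, ∑ l ∈ q.primeFactors,
        (if ((l ^ N : ℕ) : ℤ) ∣ (n : ℤ) + v i then (1 : ℝ) else 0) :=
      Finset.sum_nonneg fun i _ => hs0 i
    by_cases hnB : n ≤ B
    · rw [if_pos hnB]
      linarith
    · rw [if_neg hnB]
      by_cases hf : fine n
      · rw [hYZ n (by omega) hf, sub_self, norm_zero]
        linarith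
      · have hf' : ∃ l : ℕ, l.Prime ∧ l ∣ q ∧ ∃ i, (l : ℤ) ^ N ∣ (n : ℤ) + v i := by
          by_contra hcon
          refine hf fun l hl hlq i hd => hcon ⟨l, hl, hlq, i, hd⟩
        obtain ⟨l, hl, hlq, i, hd⟩ := hf'
        have h1 : (1 : ℝ) ≤ ∑ i, ∑ l ∈ q.primeFactors,
            (if ((l ^ N : ℕ) : ℤ) ∣ (n : ℤ) + v i then (1 : ℝ) else 0) := by
          refine le_trans ?_ (Finset.single_le_sum (fun i _ => hs0 i) (Finset.mem_univ i))
          refine le_trans ?_ (Finset.single_le_sum (f := fun l : ℕ =>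
            (if ((l ^ N : ℕ) : ℤ) ∣ (n : ℤ) + v i then (1 : ℝ) else 0))
            (fun l _ => by split_ifs <;> positivity)
            (Nat.mem_primeFactors.2 ⟨hl, hlq, hq0.ne'⟩))
          have h2 : ((l ^ N : ℕ) : ℤ) ∣ (n : ℤ) + v i := by
            push_cast
            exact hd
          simp only [h2, if_true]
          exact le_rfl
        linarith
  have hsum : ∀ X : ℕ, ∑ n ∈ Finset.Icc 1 X, ‖Y n - Z n‖ ≤
      2 * B + 2 * K + (η / 2) * (X : ℝ) := by
    intro X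
    have hX0 : (0 : ℝ) ≤ X := Nat.cast_nonneg X
    calc ∑ n ∈ Finset.Icc 1 X, ‖Y n - Z n‖
        ≤ ∑ n ∈ Finset.Icc 1 X, (2 * (if n ≤ B then (1 : ℝ) else 0) +
          2 * ∑ i, ∑ l ∈ q.primeFactors,
            (if ((l ^ N : ℕ) : ℤ) ∣ n + v i then (1 : ℝ) else 0)) :=
          Finset.sum_le_sum fun n _ => hterm n
      _ = 2 * ∑ n ∈ Finset.Icc 1 X, (if n ≤ B then (1 : ℝ) else 0) +
          2 * ∑ i, ∑ l ∈ q.primeFactors, ∑ n ∈ (Finset.Icc 1 X).filter
            (fun n : ℕ => ((l ^ N : ℕ) : ℤ) ∣ n + v i), (1 : ℝ) := by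
          rw [Finset.sum_add_distrib, ← Finset.mul_sum, ← Finset.mul_sum]
          congr 2
          rw [Finset.sum_comm]
          refine Finset.sum_congr rfl fun i _ => ?_
          rw [Finset.sum_comm]
          refine Finset.sum_congr rfl fun l _ => ?_
          rw [Finset.sum_filter]
      _ ≤ 2 * B + 2 * ∑ i : ι, ∑ l ∈ q.primeFactors, (1 + (X : ℝ) * (1 / 2 : ℝ) ^ N) := by
          refine add_le_add (mul_le_mul_of_nonneg_left (small_sum B X) (by norm_num))
            (mul_le_mul_of_nonneg_left ?_ (by norm_num))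
          refine Finset.sum_le_sum fun i _ => Finset.sum_le_sum fun l hl => ?_
          have hlp := Nat.prime_of_mem_primeFactors hl
          refine (res_card (l ^ N) (pow_pos hlp.pos N) (v i) X).trans ?_
          refine add_le_add le_rfl ?_
          rw [div_eq_mul_inv]
          refine mul_le_mul_of_nonneg_left ?_ hX0
          push_cast
          rw [one_div, inv_pow]
          refine inv_anti₀ (by positivity) ?_
          exact pow_le_pow_left₀ (by norm_num) (by exact_mod_cast hlp.two_le) N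
      _ = 2 * B + 2 * ((Fintype.card ι : ℝ) * (q.primeFactors.card : ℝ) *
          (1 + (X : ℝ) * (1 / 2 : ℝ) ^ N)) := by
          rw [Finset.sum_const, Finset.sum_const, nsmul_eq_mul, nsmul_eq_mul, Finset.card_univ]
          ring
      _ ≤ 2 * B + 2 * (K * (1 + (X : ℝ) * (1 / 2 : ℝ) ^ N)) := by
          have h1 : (q.primeFactors.card : ℝ) ≤ q := by
            have h2 : q.primeFactors ⊆ Finset.Icc 1 q := fun l hl =>
              Finset.mem_Icc.2 ⟨(Nat.prime_of_mem_primeFactors hl).one_le,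
                Nat.le_of_dvd hq0 (Nat.dvd_of_mem_primeFactors hl)⟩
            have h3 := Finset.card_le_card h2
            rw [Nat.card_Icc, Nat.add_sub_cancel] at h3
            exact_mod_cast h3
          rw [hK]
          have h4 : 0 ≤ 1 + (X : ℝ) * (1 / 2 : ℝ) ^ N := by positivity
          have h5 : (Fintype.card ι : ℝ) * (q.primeFactors.card : ℝ) ≤ (Fintype.card ι : ℝ) * q :=
            mul_le_mul_of_nonneg_left h1 (Nat.cast_nonneg _)
          have h6 := mul_le_mul_of_nonneg_right h5 h4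
          linarith
      _ = 2 * B + 2 * K + (2 * K * (1 / 2 : ℝ) ^ N) * (X : ℝ) := by ring
      _ ≤ 2 * B + 2 * K + (η / 2) * (X : ℝ) :=
          add_le_add le_rfl (mul_le_mul_of_nonneg_right hN hX0)
  filter_upwards [(tendsto_natCast_atTop_atTop (R := ℝ)).eventually_ge_atTop
    ((2 * B + 2 * K) / (η / 2))] with X hX
  have hX2 : 2 * B + 2 * K ≤ (η / 2) * (X : ℝ) := by
    rw [div_le_iff₀ (half_pos hη)] at hX
    linarith
  have := hsum X
  linarith

end Pool.Agent.Work.MP_58cfe3_nt
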