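import Pool.Agent.Work.MP_58cfe3_nt.Dist

/-!
# Module Gibbs (size M): the Gibbs variational inequality

`E Φ(X, Y) ≤ I(X : Y) + log E_{x ~ X} E_{y ~ Y} exp Φ(x, y)`.

PROOF. `p_{ab} = pr (X,Y) (a,b)`, marginals `p_a, q_b` (`pr_fst`, `pr_snd`),
`Zs = ∑_{a,b} p_a q_b exp Φ(a,b) > 0`. `minf = ∑_{a,b} p_{ab} log (p_{ab} / (p_a q_b))` (terms with
`p_{ab} = 0` are `0`; `p_{ab} > 0` forces `p_a, q_b > 0`). For `p_{ab} > 0`:
`p_{ab} (Φ - log Zs - log (p_{ab} / (p_a q_b))) = p_{ab} log (p_a q_b e^Φ / (Zs p_{ab})) ≤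
p_a q_b e^Φ / Zs - p_{ab}`; sum over all `(a,b)`: the right side is at most `1 - 1 = 0`.
Finally `mr M (Φ(X,Y)) = ∑ p_{ab} Φ(a,b)` (`mr_comp`).
-/

set_option autoImplicit false

namespace Pool.Agent.Work.MP_58cfe3_nt

open Filter Topology

theorem gibbs {M : (ℤ → ℂ) → ℂ} (hM : IsMean M) {α β : Type} [Fintype α] [Fintype β]
    (X : ℤ → α) (Y : ℤ → β) (Φ : α → β → ℝ) :
    mr M (fun n => Φ (X n) (Y n)) ≤ minf M X Y +
      Real.log (∑ a, pr M X a * mr M fun n => Real.exp (Φ a (Y n))) := by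
  classical
  obtain ⟨p, hp⟩ : ∃ p : α × β → ℝ, p = fun c => pr M (fun n => (X n, Y n)) c := ⟨_, rfl⟩
  obtain ⟨P, hP⟩ : ∃ P : α → ℝ, P = fun a => pr M X a := ⟨_, rfl⟩
  obtain ⟨Q, hQ⟩ : ∃ Q : β → ℝ, Q = fun b => pr M Y b := ⟨_, rfl⟩
  have hp0 : ∀ c, 0 ≤ p c := fun c => by rw [hp]; exact pr_nonneg hM _ _
  have hP0 : ∀ c, 0 ≤ P c := fun c => by rw [hP]; exact pr_nonneg hM _ _
  have hQ0 : ∀ c, 0 ≤ Q c := fun c => by rw [hQ]; exact pr_nonneg hM _ _
  have hp1 : ∑ c, p c = 1 := by rw [hp]; exact pr_sum hM _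
  have hfst : ∀ a, ∑ b, p (a, b) = P a := fun a => by
    rw [hp, hP]; exact pr_fst hM X Y a
  have hsnd : ∀ b, ∑ a, p (a, b) = Q b := fun b => by
    rw [hp, hQ]; exact pr_snd hM X Y b
  have hPhi : mr M (fun n => Φ (X n) (Y n)) = ∑ c, p c * Φ c.1 c.2 := by
    rw [hp]; exact mr_comp hM (fun n => (X n, Y n)) (fun c => Φ c.1 c.2)
  have hZ : ∀ a, (mr M fun n => Real.exp (Φ a (Y n))) = ∑ b, Q b * Real.exp (Φ a b) := fun a => by
    rw [hQ]; exact mr_comp hM Y (fun b => Real.exp (Φ a b))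
  obtain ⟨Z, hZd⟩ : ∃ Z : ℝ, Z = ∑ c : α × β, P c.1 * Q c.2 * Real.exp (Φ c.1 c.2) := ⟨_, rfl⟩
  have hZZ : (∑ a, pr M X a * mr M fun n => Real.exp (Φ a (Y n))) = Z := by
    rw [hZd, Fintype.sum_prod_type]
    refine Finset.sum_congr rfl fun a _ => ?_
    rw [hZ a, Finset.mul_sum]
    refine Finset.sum_congr rfl fun b _ => ?_
    rw [← mul_assoc, hP]
  have hle1 : ∀ c : α × β, p c ≤ P c.1 := fun c => by
    rw [← hfst c.1]
    exact Finset.single_le_sum (f := fun b => p (c.1, b)) (fun b _ => hp0 _) (Finset.mem_univ c.2)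
  have hle2 : ∀ c : α × β, p c ≤ Q c.2 := fun c => by
    rw [← hsnd c.2]
    exact Finset.single_le_sum (f := fun a => p (a, c.2)) (fun b _ => hp0 _) (Finset.mem_univ c.1)
  have hterm0 : ∀ c : α × β, 0 ≤ P c.1 * Q c.2 * Real.exp (Φ c.1 c.2) := fun c =>
    mul_nonneg (mul_nonneg (hP0 _) (hQ0 _)) (Real.exp_pos _).le
  have hZpos : 0 < Z := by
    obtain ⟨c, hc⟩ : ∃ c, 0 < p c := by
      by_contra hcon
      push Not at hcon
      have : ∑ c, p c ≤ 0 := Finset.sum_nonpos fun c _ => hcon c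
      rw [hp1] at this
      linarith
    rw [hZd]
    refine Finset.sum_pos' (fun c _ => hterm0 c) ⟨c, Finset.mem_univ _, ?_⟩
    exact mul_pos (mul_pos (hc.trans_le (hle1 c)) (hc.trans_le (hle2 c))) (Real.exp_pos _)
  have hminf : minf M X Y = ∑ c, p c * (Real.log (p c) - Real.log (P c.1) - Real.log (Q c.2)) := by
    have e1 : ent M X = ∑ c, -(p c * Real.log (P c.1)) := by
      unfold ent
      rw [Fintype.sum_prod_type]
      refine Finset.sum_congr rfl fun a _ => ?_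
      have : pr M X a = P a := by rw [hP]
      rw [this, Real.negMulLog, Finset.sum_neg_distrib]
      dsimp only
      rw [← Finset.sum_mul, hfst a]
      ring
    have e2 : ent M Y = ∑ c, -(p c * Real.log (Q c.2)) := by
      unfold ent
      rw [Fintype.sum_prod_type_right]
      refine Finset.sum_congr rfl fun b _ => ?_
      have : pr M Y b = Q b := by rw [hQ]
      rw [this, Real.negMulLog, Finset.sum_neg_distrib]
      dsimp only
      rw [← Finset.sum_mul, hsnd b]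
      ring
    have e3 : ent M (fun n => (X n, Y n)) = ∑ c, -(p c * Real.log (p c)) := by
      unfold ent
      refine Finset.sum_congr rfl fun c _ => ?_
      rw [Real.negMulLog, hp]
      ring
    unfold minf
    rw [e1, e2, e3, ← Finset.sum_add_distrib, ← Finset.sum_sub_distrib]
    refine Finset.sum_congr rfl fun c _ => ?_
    ring
  rw [hZZ, hPhi, hminf]
  have key : ∑ c, (p c * (Φ c.1 c.2 - Real.log (p c) + Real.log (P c.1) + Real.log (Q c.2)
      - Real.log Z)) ≤ ∑ c, (P c.1 * Q c.2 * Real.exp (Φ c.1 c.2) / Z - p c) := by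
    refine Finset.sum_le_sum fun c _ => ?_
    rcases (hp0 c).eq_or_lt with h0 | h0
    · rw [← h0]
      simp only [zero_mul, sub_zero]
      exact div_nonneg (hterm0 c) hZpos.le
    · have hPc := h0.trans_le (hle1 c)
      have hQc := h0.trans_le (hle2 c)
      have hx : 0 < P c.1 * Q c.2 * Real.exp (Φ c.1 c.2) / (Z * p c) := by positivity
      have hlog := Real.log_le_sub_one_of_pos hx
      rw [Real.log_div (by positivity) (by positivity), Real.log_mul (by positivity) (by positivity),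
        Real.log_mul hPc.ne' hQc.ne', Real.log_exp, Real.log_mul hZpos.ne' h0.ne'] at hlog
      have := mul_le_mul_of_nonneg_left hlog h0.le
      have e : p c * (P c.1 * Q c.2 * Real.exp (Φ c.1 c.2) / (Z * p c) - 1) =
          P c.1 * Q c.2 * Real.exp (Φ c.1 c.2) / Z - p c := by
        field_simp
      rw [e] at this
      refine le_trans (le_of_eq ?_) this
      ring
  have hr : ∑ c, (P c.1 * Q c.2 * Real.exp (Φ c.1 c.2) / Z - p c) = 0 := by
    rw [Finset.sum_sub_distrib, ← Finset.sum_div, ← hZd, hp1, div_self hZpos.ne', sub_self]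
  rw [hr] at key
  have hl : ∑ c, (p c * (Φ c.1 c.2 - Real.log (p c) + Real.log (P c.1) + Real.log (Q c.2)
      - Real.log Z)) = ∑ c, p c * Φ c.1 c.2 -
        ∑ c, p c * (Real.log (p c) - Real.log (P c.1) - Real.log (Q c.2)) - Real.log Z := by
    have e : ∑ c, p c * Real.log Z = Real.log Z := by
      rw [← Finset.sum_mul, hp1, one_mul]
    rw [← e, ← Finset.sum_sub_distrib, ← Finset.sum_sub_distrib]
    refine Finset.sum_congr rfl fun c _ => ?_
    rw [e]
    ring
  rw [hl] at key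
  linarith

end Pool.Agent.Work.MP_58cfe3_nt
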