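import Pool.Agent.Work.MP_58cfe3_nt.Per

/-!
# Module Hoef (size M): exponential moments of sums of periodic functions

PROOF. `exp (l ∑ z_p(n)) = ∏ exp (l z_p(n))`, `mr_prod_per`, and for each `p`:
`(1/p) ∑_{a<p} exp (l z_p(a)) ≤ cosh (l b) ≤ exp (l² b² / 2)` (`Real.cosh_le_exp_half_sq`), because for
`|z| ≤ b` convexity gives `exp (l z) ≤ cosh (l b) + (z / b) sinh (l b)` and the `z_p(a)` sum to `0`
(for `b = 0` everything is trivial).
-/

set_option autoImplicit false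

namespace Pool.Agent.Work.MP_58cfe3_nt

open Filter Topology

private theorem exp_le_chord {z b l : ℝ} (hb : 0 < b) (hz : |z| ≤ b) :
    Real.exp (l * z) ≤ Real.cosh (l * b) + z / b * Real.sinh (l * b) := by
  obtain ⟨h1, h2⟩ := abs_le.1 hz
  have hA : 0 ≤ (b + z) / (2 * b) := div_nonneg (by linarith) (by linarith)
  have hB : 0 ≤ (b - z) / (2 * b) := div_nonneg (by linarith) (by linarith)
  have hAB : (b + z) / (2 * b) + (b - z) / (2 * b) = 1 := by
    field_simp
    ring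
  have h := convexOn_exp.2 (Set.mem_univ (l * b)) (Set.mem_univ (-(l * b))) hA hB hAB
  simp only [smul_eq_mul] at h
  have e : (b + z) / (2 * b) * (l * b) + (b - z) / (2 * b) * (-(l * b)) = l * z := by
    field_simp
    ring
  rw [e] at h
  refine h.trans (le_of_eq ?_)
  rw [Real.cosh_eq, Real.sinh_eq]
  field_simp
  ring

private theorem factor_le {p : ℕ} (hp : 0 < p) {z : ℤ → ℝ}
    (hz0 : ∑ a ∈ Finset.range p, z a = 0) {b : ℝ} (hb : ∀ n, |z n| ≤ b) (l : ℝ) :
    (∑ a ∈ Finset.range p, Real.exp (l * z a)) / p ≤ Real.exp (l ^ 2 * b ^ 2 / 2) := by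
  have hp' : (0 : ℝ) < p := by exact_mod_cast hp
  have hb0 : 0 ≤ b := (abs_nonneg _).trans (hb 0)
  rw [div_le_iff₀ hp']
  rcases hb0.eq_or_lt with h0 | hpos
  · have h1 : ∀ n, z n = 0 := fun n => by
      have := hb n
      rw [← h0] at this
      exact abs_nonpos_iff.1 this
    simp [h1, ← h0]
  · have h1 : ∑ a ∈ Finset.range p, Real.exp (l * z a) ≤
        ∑ a ∈ Finset.range p, (Real.cosh (l * b) + z a / b * Real.sinh (l * b)) :=
      Finset.sum_le_sum fun a _ => exp_le_chord hpos (hb a)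
    have h2 : ∑ a ∈ Finset.range p, (Real.cosh (l * b) + z a / b * Real.sinh (l * b)) =
        Real.cosh (l * b) * p := by
      rw [Finset.sum_add_distrib, ← Finset.sum_mul, ← Finset.sum_div, hz0]
      simp [mul_comm]
    rw [h2] at h1
    refine h1.trans (mul_le_mul_of_nonneg_right ?_ hp'.le)
    have h3 := Real.cosh_le_exp_half_sq (l * b)
    rwa [mul_pow] at h3

theorem hoef {M : (ℤ → ℂ) → ℂ} (hM : IsMean M) (P : Finset ℕ) (hP : ∀ p ∈ P, p.Prime)
    (z : ℕ → ℤ → ℝ) (hz : ∀ p ∈ P, ∀ n, z p (n + p) = z p n)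
    (hz0 : ∀ p ∈ P, ∑ a ∈ Finset.range p, z p a = 0) {b : ℝ} (hb : ∀ p ∈ P, ∀ n, |z p n| ≤ b)
    (l : ℝ) :
    mr M (fun n => Real.exp (l * ∑ p ∈ P, z p n)) ≤ Real.exp (P.card * (l ^ 2 * b ^ 2 / 2)) := by
  have e : (fun n => Real.exp (l * ∑ p ∈ P, z p n)) = fun n => ∏ p ∈ P, Real.exp (l * z p n) := by
    funext n
    rw [Finset.mul_sum, Real.exp_sum]
  rw [e, mr_prod_per hM P (fun p hp => (hP p hp).pos)
    (fun p hp p' hp' hne => (Nat.coprime_primes (hP p hp) (hP p' hp')).2 hne)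
    (fun p n => Real.exp (l * z p n)) (fun p hp n => by rw [hz p hp n])]
  have h1 : ∏ p ∈ P, ((∑ a ∈ Finset.range p, Real.exp (l * z p a)) / p) ≤
      ∏ p ∈ P, Real.exp (l ^ 2 * b ^ 2 / 2) :=
    Finset.prod_le_prod
      (fun p hp => div_nonneg (Finset.sum_nonneg fun a _ => (Real.exp_pos _).le) (Nat.cast_nonneg _))
      (fun p hp => factor_le (hP p hp).pos (hz0 p hp) (hb p hp) l)
  refine h1.trans (le_of_eq ?_)
  rw [Finset.prod_const, ← Real.exp_nat_mul]

end Pool.Agent.Work.MP_58cfe3_nt
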