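import Pool.Agent.Work.MP_58cfe3_nt.Ent

/-!
# Module Win (size M): one step of the entropy decrement

PROOF. Fix `L, m`. Let `Z n = rz Q n`, `W_i n = win ξ L (n + i L)` for `i < m`,
`V_i n = (W_0 n, ..., W_{i-1} n)` (as a function `Fin i → (Fin L → α)`, or by recursion). Induction on
`i` with `ent_submod`: `H(V_i, Z) ≤ H(Z) + ∑_{k<i} (H(W_k, Z) - H(Z))`. By injectivity of translation in
`ZMod Q` and `ent_shift`: `H(W_k, Z) = H(win ξ L (· + kL), rz Q (· + kL)) = H(win ξ L, Z)`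
(`ent_inj` for `(w, z) ↦ (w, z + kL)`). Finally `win ξ (m L)` is a function of `V_m`
(`j = k L + j'`), so `H(win ξ (m L)) ≤ H(V_m) ≤ H(V_m, Z)` (`ent_comp_le`).
The claim: `H(win (m L)) ≤ H(Z) + m (H(win L, Z) - H(Z)) = H(Z) + m (H(win L) - I)`.
-/

set_option autoImplicit false

namespace Pool.Agent.Work.MP_58cfe3_nt

open Filter Topology

private theorem ent_win_shift {M : (ℤ → ℂ) → ℂ} (hM : IsMean M) {α : Type} [Fintype α] (ξ : ℤ → α)
    (Q : ℕ) [NeZero Q] (L : ℕ) (s : ℤ) :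
    ent M (fun n => (win ξ L (n + s), rz Q n)) ≤ ent M (fun n => (win ξ L n, rz Q n)) := by
  have h1 := ent_comp_le hM (fun n => (win ξ L (n + s), rz Q (n + s)))
    (fun t : (Fin L → α) × ZMod Q => (t.1, t.2 - (s : ZMod Q)))
  have h2 : (fun n : ℤ => ((fun t : (Fin L → α) × ZMod Q => (t.1, t.2 - (s : ZMod Q)))
      (win ξ L (n + s), rz Q (n + s)))) = fun n => (win ξ L (n + s), rz Q n) := by
    funext n
    simp [rz]
  rw [h2] at h1
  have h3 := ent_shift hM (fun n => (win ξ L n, rz Q n)) s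
  rw [h3] at h1
  exact h1

private theorem ent_blocks {M : (ℤ → ℂ) → ℂ} (hM : IsMean M) {α : Type} [Fintype α] (ξ : ℤ → α)
    (Q : ℕ) [NeZero Q] (L i : ℕ) :
    ent M (fun n => ((fun k : Fin i => win ξ L (n + (k : ℕ) * L)), rz Q n)) ≤
      ent M (rz Q) + i * (ent M (fun n => (win ξ L n, rz Q n)) - ent M (rz Q)) := by
  induction i with
  | zero =>
    have h := ent_comp_le hM (rz Q)
      (fun z : ZMod Q => ((fun k : Fin 0 => k.elim0 : Fin 0 → (Fin L → α)), z))
    have h2 : (fun n : ℤ => ((fun k : Fin 0 => win ξ L (n + (k : ℕ) * L)), rz Q n)) =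
        fun n : ℤ => ((fun z : ZMod Q => ((fun k : Fin 0 => k.elim0 : Fin 0 → (Fin L → α)), z))
          (rz Q n)) := by
      funext n
      ext k
      · exact k.elim0
      · rfl
    rw [h2]
    simpa using h
  | succ i ih =>
    have h1 := ent_submod hM (fun n => (fun k : Fin i => win ξ L (n + (k : ℕ) * L)))
      (fun n => win ξ L (n + (i : ℤ) * L)) (rz Q)
    have h2 := ent_win_shift hM ξ Q L ((i : ℤ) * L)
    have h3 := ent_comp_le hM
      (fun n => (((fun k : Fin i => win ξ L (n + (k : ℕ) * L)), win ξ L (n + (i : ℤ) * L)), rz Q n))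
      (fun t : ((Fin i → (Fin L → α)) × (Fin L → α)) × ZMod Q =>
        ((Fin.snoc t.1.1 t.1.2 : Fin (i + 1) → (Fin L → α)), t.2))
    have h4 : (fun n : ℤ => ((fun t : ((Fin i → (Fin L → α)) × (Fin L → α)) × ZMod Q =>
        ((Fin.snoc t.1.1 t.1.2 : Fin (i + 1) → (Fin L → α)), t.2))
        (((fun k : Fin i => win ξ L (n + (k : ℕ) * L)), win ξ L (n + (i : ℤ) * L)), rz Q n))) =
        fun n : ℤ => ((fun k : Fin (i + 1) => win ξ L (n + (k : ℕ) * L)), rz Q n) := by
      funext n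
      simp only
      congr 1
      funext k
      refine Fin.lastCases ?_ (fun k => ?_) k
      · simp
      · simp
    rw [h4] at h3
    push_cast
    linarith

theorem ent_step {M : (ℤ → ℂ) → ℂ} (hM : IsMean M) {α : Type} [Fintype α] (ξ : ℤ → α)
    (Q : ℕ) [NeZero Q] (L m : ℕ) :
    ent M (win ξ (m * L)) ≤ ent M (rz Q) + m * (ent M (win ξ L) - minf M (win ξ L) (rz Q)) := by
  have h1 := ent_blocks hM ξ Q L m
  have h2 := ent_comp_le hM
    (fun n => ((fun k : Fin m => win ξ L (n + (k : ℕ) * L)), rz Q n))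
    (fun t : (Fin m → (Fin L → α)) × ZMod Q => fun j : Fin (m * L) => t.1 j.divNat j.modNat)
  have h3 : (fun n : ℤ => ((fun t : (Fin m → (Fin L → α)) × ZMod Q => fun j : Fin (m * L) =>
      t.1 j.divNat j.modNat)
      ((fun k : Fin m => win ξ L (n + (k : ℕ) * L)), rz Q n))) = win ξ (m * L) := by
    funext n j
    simp only [win, Fin.coe_divNat, Fin.coe_modNat]
    congr 1
    have := Nat.div_add_mod (j : ℕ) L
    have h5 : ((j : ℕ) : ℤ) = (L : ℤ) * (((j : ℕ) / L : ℕ) : ℤ) + (((j : ℕ) % L : ℕ) : ℤ) := by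
      exact_mod_cast this.symm
    rw [h5]
    push_cast
    ring
  rw [h3] at h2
  unfold minf
  have e : ent M (rz Q) + m * (ent M (win ξ L) - (ent M (win ξ L) + ent M (rz Q) -
      ent M (fun n => (win ξ L n, rz Q n)))) =
      ent M (rz Q) + m * (ent M (fun n => (win ξ L n, rz Q n)) - ent M (rz Q)) := by ring
  rw [e]
  exact h2.trans h1

end Pool.Agent.Work.MP_58cfe3_nt
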