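import Pool.Agent.Work.MP_58cfe3_nt.Gibbs
import Pool.Agent.Work.MP_58cfe3_nt.Hoef
import Pool.Agent.Work.MP_58cfe3_nt.Win

/-!
# Module Key (size M-L): small mutual information removes the condition `p ∣ n`

PROOF. `P = PB H` (primes in `(H, 4H]`), `Q = ∏ P`, `L = (1 + 4 D) H`, `h i ≤ D`. For a window
`x : Fin L → α` put `F_{p,j}(x) = ∏_i v i (x (j + p h_i))` for `j < H` (index `< L`). For fixed `x` and a
unimodular `u` let `z_p(x, n) = re (u c_p ∑_{j<H} F_{p,j}(x) (p [p ∣ n + j] - 1))`: periodic mod `p`, sum over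
`n` mod `p` is `0`, and `|z_p| ≤ p + H ≤ 5 H` because `p > H` (at most one `j < H` with `p ∣ n + j`).
Let `Φ(x, y) = l ∑_p z_p(x, y.val)` for `y : ZMod Q`; `z_p(x, (rz Q n).val) = z_p(x, n)` since `p ∣ Q`.
`gibbs` with `X = win ξ L`, `Y = rz Q` and `hoef` (for each `x`, `b = 5H`) give
`mr M (Φ(X n, Y n)) ≤ I + log exp (|P| l² 25 H² / 2)` (the weights `pr M X a` sum to `1`).
On the other side, by `shift`, `M (F_{p,j}(X n) p [p ∣ n + j]) = M (p [p ∣ n] f_p(n))` and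
`M (F_{p,j}(X n)) = M (f_p)` with `f_p(n) = ∏_i v i (ξ (n + p h_i))` for each `j < H`, so
`mr M (Φ) = l H re (u ∑_p c_p (M (p [p ∣ n] f_p) - M f_p))`. Choose `u` with
`u * ∑ ... = ‖∑ ...‖`.
-/

set_option autoImplicit false

namespace Pool.Agent.Work.MP_58cfe3_nt

open Filter Topology

private theorem re_mean {M : (ℤ → ℂ) → ℂ} (hM : IsMean M) {f : ℤ → ℂ} (hf : Bdd f) :
    mr M (fun n => (f n).re) = (M f).re := by
  obtain ⟨C, hC⟩ := hf
  have h1 : ∀ n, |(f n).re| ≤ C := fun n => (Complex.abs_re_le_norm _).trans (hC n)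
  have h2 : ∀ n, |(f n).im| ≤ C := fun n => (Complex.abs_im_le_norm _).trans (hC n)
  have b1 : Bdd fun n => ((f n).re : ℂ) := ⟨C, fun n => by
    rw [Complex.norm_real]; exact h1 n⟩
  have b2 : Bdd fun n => ((f n).im : ℂ) := ⟨C, fun n => by
    rw [Complex.norm_real]; exact h2 n⟩
  have e : (fun n => ((f n).re : ℂ) + Complex.I * ((f n).im : ℂ)) = f := by
    funext n
    rw [mul_comm]
    exact Complex.re_add_im (f n)
  have e2 : M (fun n => ((f n).re : ℂ) + Complex.I * ((f n).im : ℂ))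
      = M (fun n => ((f n).re : ℂ)) + Complex.I * M (fun n => ((f n).im : ℂ)) := by
    rw [hM.add _ _ b1 (b2.smul _), hM.smul _ _ b2]
  rw [e] at e2
  rw [e2]
  have h3 := mean_im hM h2
  simp only [Complex.add_re, Complex.mul_re, Complex.I_re, Complex.I_im, zero_mul, one_mul, h3,
    sub_zero, add_zero]
  rfl

private noncomputable def wt (p : ℕ) (n : ℤ) : ℝ := if (p : ℤ) ∣ n then (p : ℝ) - 1 else -1

private theorem wt_congr {p : ℕ} {a b : ℤ} (hab : (p : ℤ) ∣ a - b) (j : ℤ) :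
    wt p (a + j) = wt p (b + j) := by
  unfold wt
  have : (p : ℤ) ∣ a + j ↔ (p : ℤ) ∣ b + j := by
    have e : a + j = (a - b) + (b + j) := by ring
    rw [e]
    exact dvd_add_right hab
  simp only [this]

private theorem wt_sum {p : ℕ} (hp : 0 < p) (j : ℕ) :
    ∑ a ∈ Finset.range p, wt p ((a : ℤ) + j) = 0 := by
  have : NeZero p := ⟨hp.ne'⟩
  have h1 : ∀ a ∈ Finset.range p, wt p ((a : ℤ) + j)
      = (if a = (-(j : ZMod p)).val then (p : ℝ) else 0) - 1 := by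
    intro a ha
    have ha' := Finset.mem_range.1 ha
    have h2 : ((p : ℤ) ∣ (a : ℤ) + j) ↔ a = (-(j : ZMod p)).val := by
      have h3 : ((a : ℤ) + j) = ((a + j : ℕ) : ℤ) := by push_cast; ring
      rw [h3, Int.natCast_dvd_natCast, ← ZMod.natCast_eq_zero_iff, Nat.cast_add,
        add_eq_zero_iff_eq_neg]
      constructor
      · intro h
        rw [← h, ZMod.val_cast_of_lt ha']
      · intro h
        have h4 : ((a : ℕ) : ZMod p) = (((-(j : ZMod p)).val : ℕ) : ZMod p) := by rw [← h]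
        rw [h4, ZMod.natCast_zmod_val]
    unfold wt
    by_cases h : (p : ℤ) ∣ (a : ℤ) + j
    · rw [if_pos h, if_pos (h2.1 h)]
    · rw [if_neg h, if_neg (fun h' => h (h2.2 h'))]
      ring
  rw [Finset.sum_congr rfl h1, Finset.sum_sub_distrib, Finset.sum_ite_eq', if_pos]
  · simp
  · exact Finset.mem_range.2 (ZMod.val_lt _)

private theorem wt_abs {p H : ℕ} (hpH : H < p) (hp4 : p ≤ 4 * H) (n : ℤ) :
    ∑ j ∈ Finset.range H, |wt p (n + j)| ≤ 5 * H := by
  have h1 : ∀ j ∈ Finset.range H, |wt p (n + j)| ≤ (if (p : ℤ) ∣ n + j then (p : ℝ) else 0) + 1 := by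
    intro j _
    unfold wt
    split_ifs
    · have : (1 : ℝ) ≤ p := by exact_mod_cast Nat.succ_le_of_lt (Nat.zero_lt_of_lt hpH)
      rw [abs_of_nonneg (by linarith)]
      linarith
    · norm_num
  refine (Finset.sum_le_sum h1).trans ?_
  rw [Finset.sum_add_distrib, ← Finset.sum_filter, Finset.sum_const, Finset.sum_const,
    nsmul_eq_mul, nsmul_eq_mul, mul_one, Finset.card_range]
  have h2 : ((Finset.range H).filter fun j : ℕ => (p : ℤ) ∣ n + j).card ≤ 1 := by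
    rw [Finset.card_le_one]
    intro a ha b hb
    rw [Finset.mem_filter, Finset.mem_range] at ha hb
    have h3 : (p : ℤ) ∣ (a : ℤ) - b := by
      have := dvd_sub ha.2 hb.2
      rwa [add_sub_add_left_eq_sub] at this
    have h4 : |(a : ℤ) - b| < p := by
      rw [abs_lt]
      constructor <;> omega
    have h5 := Int.eq_zero_of_abs_lt_dvd h3 h4
    omega
  have h3 : ((((Finset.range H).filter fun j : ℕ => (p : ℤ) ∣ n + j).card : ℕ) : ℝ) ≤ 1 := by
    exact_mod_cast h2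
  have h4 : (p : ℝ) ≤ 4 * H := by exact_mod_cast hp4
  have h5 : (0 : ℝ) ≤ p := Nat.cast_nonneg _
  nlinarith [mul_le_mul_of_nonneg_right h3 h5]

theorem key {M : (ℤ → ℂ) → ℂ} (hM : IsMean M) {α : Type} [Fintype α] (ξ : ℤ → α) {k : ℕ}
    (v : Fin k → α → ℂ) (hv : ∀ i a, ‖v i a‖ ≤ 1) (h : Fin k → ℕ) {D : ℕ} (hD : ∀ i, h i ≤ D)
    (H : ℕ) (hH : 0 < H) (Q : ℕ) [NeZero Q] (hQ : ∀ p ∈ PB H, p ∣ Q)
    (c : ℕ → ℂ) (hc : ∀ p, ‖c p‖ ≤ 1) {l : ℝ} (hl : 0 < l) :
    l * H * ‖∑ p ∈ PB H, c p * (M (fun n => if (p : ℤ) ∣ n then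
        (p : ℂ) * ∏ i, v i (ξ (n + p * h i)) else 0) - M (fun n => ∏ i, v i (ξ (n + p * h i))))‖ ≤
      minf M (win ξ ((1 + 4 * D) * H)) (rz Q) + (PB H).card * (l ^ 2 * (5 * H) ^ 2 / 2) := by
  classical
  have hLpos : 0 < (1 + 4 * D) * H := by positivity
  obtain ⟨L, hL⟩ : ∃ L, L = (1 + 4 * D) * H := ⟨_, rfl⟩
  rw [← hL] at hLpos ⊢
  -- the functions
  obtain ⟨f, hf⟩ : ∃ f : ℕ → ℤ → ℂ, f = fun (p : ℕ) (n : ℤ) => ∏ i, v i (ξ (n + p * h i)) :=
    ⟨_, rfl⟩
  obtain ⟨g, hg⟩ : ∃ g : ℕ → ℤ → ℂ, g = fun (p : ℕ) (n : ℤ) =>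
      if (p : ℤ) ∣ n then (p : ℂ) * f p n else 0 := ⟨_, rfl⟩
  obtain ⟨F, hF⟩ : ∃ F : ℕ → ℕ → (Fin L → α) → ℂ, F = fun p j x =>
      ∏ i, v i (x ⟨(j + p * h i) % L, Nat.mod_lt _ hLpos⟩) := ⟨_, rfl⟩
  have hfb : ∀ p n, ‖f p n‖ ≤ 1 := by
    intro p n
    rw [hf]
    exact norm_prod_le_one _ _ fun i _ => hv i _
  have hFb : ∀ p j x, ‖F p j x‖ ≤ 1 := by
    intro p j x
    rw [hF]
    exact norm_prod_le_one _ _ fun i _ => hv i _
  have hfB : ∀ p, Bdd (f p) := fun p => ⟨1, hfb p⟩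
  have hgB : ∀ p, Bdd (g p) := by
    intro p
    rw [hg]
    exact Bdd.ite (fun n : ℤ => (p : ℤ) ∣ n) ((hfB p).smul _) (bdd_const 0)
  obtain ⟨S, hS⟩ : ∃ S : ℂ, S = ∑ p ∈ PB H, c p * (M (g p) - M (f p)) := ⟨_, rfl⟩
  have hgoal : (∑ p ∈ PB H, c p * (M (fun n => if (p : ℤ) ∣ n then
        (p : ℂ) * ∏ i, v i (ξ (n + p * h i)) else 0) - M (fun n => ∏ i, v i (ξ (n + p * h i)))))
        = S := by
    rw [hS, hg, hf]
  rw [hgoal]
  obtain ⟨u, hu1, hu2⟩ : ∃ u : ℂ, ‖u‖ ≤ 1 ∧ u * S = (‖S‖ : ℂ) := by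
    by_cases hS0 : S = 0
    · exact ⟨0, by simp, by simp [hS0]⟩
    · have hn : ‖S‖ ≠ 0 := norm_ne_zero_iff.2 hS0
      have hn' : (‖S‖ : ℂ) ≠ 0 := by exact_mod_cast hn
      refine ⟨(starRingEnd ℂ) S / ‖S‖, ?_, ?_⟩
      · rw [norm_div, RCLike.norm_conj, Complex.norm_real, norm_norm, div_self hn]
      · rw [div_mul_eq_mul_div, Complex.conj_mul', sq, mul_div_assoc, div_self hn', mul_one]
  -- the periodic functions
  obtain ⟨z, hz⟩ : ∃ z : (Fin L → α) → ℕ → ℤ → ℝ, z = fun x p n =>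
      (u * c p * ∑ j ∈ Finset.range H, F p j x * (wt p (n + j) : ℂ)).re := ⟨_, rfl⟩
  have hPB : ∀ p ∈ PB H, H < p ∧ p ≤ 4 * H ∧ p.Prime := by
    intro p hp
    unfold PB at hp
    rw [Finset.mem_filter, Finset.mem_Ioc] at hp
    exact ⟨hp.1.1, hp.1.2, hp.2⟩
  have hzcongr : ∀ (x : Fin L → α) (p : ℕ) (a b : ℤ), (p : ℤ) ∣ a - b → z x p a = z x p b := by
    intro x p a b hab
    rw [hz]
    simp only [wt_congr hab]
  have hzper : ∀ x, ∀ p ∈ PB H, ∀ n, z x p (n + p) = z x p n := by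
    intro x p _ n
    refine hzcongr x p _ _ ?_
    rw [add_sub_cancel_left]
  have hz0 : ∀ x, ∀ p ∈ PB H, ∑ a ∈ Finset.range p, z x p a = 0 := by
    intro x p hp
    have hp0 : 0 < p := (hPB p hp).2.2.pos
    rw [hz]
    simp only
    rw [← Complex.re_sum, ← Finset.mul_sum, Finset.sum_comm]
    have : ∀ j ∈ Finset.range H, ∑ a ∈ Finset.range p, F p j x * (wt p ((a : ℤ) + j) : ℂ) = 0 := by
      intro j _
      rw [← Finset.mul_sum]
      have h1 := wt_sum hp0 j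
      have h2 : ∑ a ∈ Finset.range p, (wt p ((a : ℤ) + j) : ℂ) = 0 := by
        rw [← Complex.ofReal_sum, h1, Complex.ofReal_zero]
      rw [h2, mul_zero]
    rw [Finset.sum_congr rfl this]
    simp
  have hzb : ∀ x, ∀ p ∈ PB H, ∀ n, |z x p n| ≤ 5 * H := by
    intro x p hp n
    rw [hz]
    refine (Complex.abs_re_le_norm _).trans ?_
    have h1 : ‖∑ j ∈ Finset.range H, F p j x * (wt p (n + j) : ℂ)‖ ≤ 5 * H := by
      refine (norm_sum_le _ _).trans (le_trans (Finset.sum_le_sum fun j _ => ?_)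
        (wt_abs (hPB p hp).1 (hPB p hp).2.1 n))
      rw [norm_mul, Complex.norm_real, Real.norm_eq_abs]
      exact mul_le_of_le_one_left (abs_nonneg _) (hFb p j x)
    rw [norm_mul, norm_mul]
    have h2 : ‖u‖ * ‖c p‖ ≤ 1 := mul_le_one₀ hu1 (norm_nonneg _) (hc p)
    exact (mul_le_of_le_one_left (norm_nonneg _) h2).trans h1
  -- Gibbs
  have hG := gibbs hM (win ξ L) (rz Q) (fun x y => l * ∑ p ∈ PB H, z x p (y.val : ℤ))
  have hval : ∀ (x : Fin L → α) (n : ℤ), ∑ p ∈ PB H, z x p ((rz Q n).val : ℤ)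
      = ∑ p ∈ PB H, z x p n := by
    intro x n
    refine Finset.sum_congr rfl fun p hp => hzcongr x p _ _ ?_
    have h1 : (((rz Q n).val : ℤ) : ZMod Q) = (n : ZMod Q) := by
      rw [Int.cast_natCast, ZMod.natCast_zmod_val]
      rfl
    have h2 : (Q : ℤ) ∣ n - ((rz Q n).val : ℤ) := (ZMod.intCast_eq_intCast_iff_dvd_sub _ _ _).1 h1
    have h3 : (p : ℤ) ∣ (Q : ℤ) := Int.natCast_dvd_natCast.2 (hQ p hp)
    have h4 := h3.trans h2
    rw [← neg_sub]
    exact (dvd_neg).2 h4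
  simp only [hval] at hG
  -- the logarithm
  have hE0 : (0 : ℝ) ≤ (PB H).card * (l ^ 2 * (5 * H) ^ 2 / 2) := by positivity
  have hlog : Real.log (∑ a, pr M (win ξ L) a *
      mr M fun n => Real.exp (l * ∑ p ∈ PB H, z a p n)) ≤
      (PB H).card * (l ^ 2 * (5 * H) ^ 2 / 2) := by
    have h1 : ∀ a, mr M (fun n => Real.exp (l * ∑ p ∈ PB H, z a p n)) ≤
        Real.exp ((PB H).card * (l ^ 2 * (5 * H) ^ 2 / 2)) := fun a =>
      hoef hM (PB H) (fun p hp => (hPB p hp).2.2) (z a) (hzper a) (hz0 a) (hzb a) l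
    have h2 : ∑ a, pr M (win ξ L) a * mr M (fun n => Real.exp (l * ∑ p ∈ PB H, z a p n)) ≤
        Real.exp ((PB H).card * (l ^ 2 * (5 * H) ^ 2 / 2)) := by
      refine (Finset.sum_le_sum fun a _ =>
        mul_le_mul_of_nonneg_left (h1 a) (pr_nonneg hM _ a)).trans ?_
      rw [← Finset.sum_mul, pr_sum hM, one_mul]
    have h3 : 0 ≤ ∑ a, pr M (win ξ L) a *
        mr M (fun n => Real.exp (l * ∑ p ∈ PB H, z a p n)) := by
      refine Finset.sum_nonneg fun a _ => mul_nonneg (pr_nonneg hM _ a) ?_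
      refine mr_nonneg hM (C := Real.exp (l * ∑ p ∈ PB H, (5 * H : ℝ))) (fun n => ?_)
        (fun n => (Real.exp_pos _).le)
      refine Real.exp_le_exp.2 (mul_le_mul_of_nonneg_left (Finset.sum_le_sum fun p hp => ?_) hl.le)
      exact (le_abs_self _).trans (hzb a p hp n)
    rcases h3.eq_or_lt with h4 | h4
    · rw [← h4, Real.log_zero]
      exact hE0
    · have h5 := Real.log_le_log h4 h2
      rwa [Real.log_exp] at h5
  -- the mean of `Φ`
  have hFf : ∀ p ∈ PB H, ∀ j ∈ Finset.range H, ∀ n : ℤ, F p j (win ξ L n) = f p (n + j) := by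
    intro p hp j hj n
    rw [hF, hf]
    simp only
    refine Finset.prod_congr rfl fun i _ => ?_
    congr 1
    unfold win
    congr 1
    have hlt : j + p * h i < L := by
      have h1 := (hPB p hp).2.1
      have h2 := Finset.mem_range.1 hj
      have h3 := hD i
      have h4 : p * h i ≤ 4 * H * D := Nat.mul_le_mul h1 h3
      rw [hL]
      have h5 : (1 + 4 * D) * H = H + 4 * H * D := by ring
      omega
    simp only
    rw [Nat.mod_eq_of_lt hlt]
    push_cast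
    ring
  have hW : ∀ n : ℤ, l * ∑ p ∈ PB H, z (win ξ L n) p n
      = ((l * u : ℂ) * ∑ p ∈ PB H, c p * ∑ j ∈ Finset.range H, (g p (n + j) - f p (n + j))).re := by
    intro n
    have e1 : (l : ℝ) * ∑ p ∈ PB H, z (win ξ L n) p n
        = ((l : ℂ) * ∑ p ∈ PB H, (u * c p * ∑ j ∈ Finset.range H,
            F p j (win ξ L n) * (wt p (n + j) : ℂ))).re := by
      rw [Complex.re_ofReal_mul, Complex.re_sum, hz]
    rw [e1]
    congr 1
    rw [mul_assoc, Finset.mul_sum (PB H) _ u]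
    congr 1
    refine Finset.sum_congr rfl fun p hp => ?_
    rw [mul_assoc]
    congr 2
    refine Finset.sum_congr rfl fun j hj => ?_
    rw [hFf p hp j hj n, hg]
    unfold wt
    simp only
    split_ifs <;> push_cast <;> ring
  have hWB : Bdd fun n : ℤ => (l * u : ℂ) * ∑ p ∈ PB H, c p * ∑ j ∈ Finset.range H,
      (g p (n + j) - f p (n + j)) := by
    refine Bdd.smul _ (Bdd.sum _ fun p _ => Bdd.smul _ (Bdd.sum _ fun j _ => Bdd.sub ?_ ?_))
    · exact (hgB p).shift fun n => n + j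
    · exact (hfB p).shift fun n => n + j
  have hMW : M (fun n : ℤ => (l * u : ℂ) * ∑ p ∈ PB H, c p * ∑ j ∈ Finset.range H,
      (g p (n + j) - f p (n + j))) = ((l * H * ‖S‖ : ℝ) : ℂ) := by
    have b1 : ∀ p, ∀ j ∈ Finset.range H, Bdd fun n : ℤ => g p (n + j) - f p (n + j) := by
      intro p j _
      exact Bdd.sub ((hgB p).shift fun n => n + j) ((hfB p).shift fun n => n + j)
    have b2 : ∀ p ∈ PB H, Bdd fun n : ℤ => c p * ∑ j ∈ Finset.range H,
        (g p (n + j) - f p (n + j)) := by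
      intro p _
      exact Bdd.smul _ (Bdd.sum _ (b1 p))
    rw [hM.smul _ _ (Bdd.sum _ b2), mean_sum hM _ _ b2]
    have e1 : ∀ p ∈ PB H, M (fun n : ℤ => c p * ∑ j ∈ Finset.range H,
        (g p (n + j) - f p (n + j))) = H * (c p * (M (g p) - M (f p))) := by
      intro p _
      rw [hM.smul _ _ (Bdd.sum _ (b1 p)), mean_sum hM _ _ (b1 p)]
      have e2 : ∀ j ∈ Finset.range H, M (fun n : ℤ => g p (n + j) - f p (n + j))
          = M (g p) - M (f p) := by
        intro j _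
        rw [mean_sub hM ((hgB p).shift fun n => n + j) ((hfB p).shift fun n => n + j),
          hM.shift _ (hgB p), hM.shift _ (hfB p)]
      rw [Finset.sum_congr rfl e2, Finset.sum_const, Finset.card_range, nsmul_eq_mul]
      ring
    rw [Finset.sum_congr rfl e1, ← Finset.mul_sum, ← hS]
    have e3 : (l : ℂ) * u * (H * S) = l * H * (u * S) := by ring
    rw [e3, hu2]
    push_cast
    ring
  have hlhs : mr M (fun n => l * ∑ p ∈ PB H, z (win ξ L n) p n) = l * H * ‖S‖ := by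
    rw [show (fun n => l * ∑ p ∈ PB H, z (win ξ L n) p n) = fun n : ℤ =>
      ((l * u : ℂ) * ∑ p ∈ PB H, c p * ∑ j ∈ Finset.range H, (g p (n + j) - f p (n + j))).re from
        funext hW, re_mean hM hWB, hMW, Complex.ofReal_re]
  rw [hlhs] at hG
  linarith

end Pool.Agent.Work.MP_58cfe3_nt
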