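import Pool.Agent.Work.MP_58cfe3_nt.SDefs

/-!
# Module SProd (size S-M): the model product is small

PROOF. `κ = Fintype.card ι ≥ 1`. For one prime let `δ = (∑ i, (1 - cj (s i) (g p)))/p`; `Re δ = κ (1 - Re g p)/p`
(conjugation does not change the real part), `|δ| ≤ 2κ/p`, `|1 - δ|² = 1 - 2 Re δ + |δ|² ≤ exp (-2 Re δ + 4κ²/p²)`, so
`|1 - δ| ≤ exp (- (1 - Re g p)/p + 2κ²/p²)` (`κ ≥ 1`, `1 - Re g p ≥ 0`). Product over `T`, `∑_{p ∈ T} 1/p² ≤ 1`
(`p ≥ 2`, telescoping).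
-/

set_option autoImplicit false

namespace Pool.Agent.Work.MP_58cfe3_nt

open Filter Topology

private theorem sprod_tele (N : ℕ) :
    ∑ n ∈ Finset.Ico 2 (N + 2), 1 / (n : ℝ) ^ 2 ≤ 1 - 1 / ((N : ℝ) + 1) := by
  induction N with
  | zero => simp
  | succ N ih =>
    rw [show N + 1 + 2 = (N + 2) + 1 by ring, Finset.sum_Ico_succ_top (by omega)]
    have h1 : (0 : ℝ) < (N : ℝ) + 1 := by positivity
    have h2 : (0 : ℝ) < (N : ℝ) + 2 := by positivity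
    have h3 : 1 / (((N + 2 : ℕ) : ℝ)) ^ 2 ≤ 1 / ((N : ℝ) + 1) - 1 / ((N : ℝ) + 2) := by
      rw [div_sub_div _ _ h1.ne' h2.ne', div_le_div_iff₀ (by positivity) (by positivity)]
      push_cast
      nlinarith
    have h4 : ((N + 1 : ℕ) : ℝ) + 1 = (N : ℝ) + 2 := by push_cast; ring
    rw [h4]
    linarith

private theorem sprod_sum {T : Finset ℕ} (hT : ∀ p ∈ T, p.Prime) :
    ∑ p ∈ T, 1 / (p : ℝ) ^ 2 ≤ 1 := by
  have hsub : T ⊆ Finset.Ico 2 (T.sup id + 2) := by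
    intro p hp
    have h1 : p ≤ T.sup id := Finset.le_sup (f := id) hp
    rw [Finset.mem_Ico]
    exact ⟨(hT p hp).two_le, by omega⟩
  refine (Finset.sum_le_sum_of_subset_of_nonneg hsub fun p _ _ => by positivity).trans ?_
  refine (sprod_tele _).trans ?_
  have : (0 : ℝ) < 1 / (((T.sup id : ℕ) : ℝ) + 1) := by positivity
  linarith

private theorem sprod_cj_re (b : Bool) (z : ℂ) : (cj b z).re = z.re := by
  unfold cj
  split_ifs <;> simp

private theorem sprod_cj_norm (b : Bool) (z : ℂ) : ‖cj b z‖ = ‖z‖ := by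
  unfold cj
  split_ifs
  · rw [norm_star]
  · rfl

private theorem sprod_one {ι : Type} [Fintype ι] [Nonempty ι] {z : ℂ} (hz : ‖z‖ ≤ 1)
    (s : ι → Bool) {p : ℕ} (hp : 0 < p) :
    ‖1 - (∑ i, (1 - cj (s i) z)) / (p : ℂ)‖ ≤
      Real.exp (-((1 - z.re) / p) + 2 * (Fintype.card ι : ℝ) ^ 2 * (1 / (p : ℝ) ^ 2)) := by
  have hp' : (0 : ℝ) < p := by exact_mod_cast hp
  have hκ : (1 : ℝ) ≤ Fintype.card ι := by exact_mod_cast Fintype.card_pos
  set κ : ℝ := (Fintype.card ι : ℝ) with hκdef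
  set δ : ℂ := (∑ i, (1 - cj (s i) z)) / (p : ℂ) with hδ
  have hre : δ.re = κ * ((1 - z.re) / p) := by
    rw [hδ, Complex.div_natCast_re, Complex.re_sum]
    have h1 : ∀ i, (1 - cj (s i) z).re = 1 - z.re := by
      intro i
      rw [Complex.sub_re, Complex.one_re, sprod_cj_re]
    rw [Finset.sum_congr rfl fun i _ => h1 i, Finset.sum_const, Finset.card_univ, nsmul_eq_mul,
      ← hκdef]
    ring
  have hnorm : ‖δ‖ ≤ 2 * κ / p := by
    rw [hδ, norm_div, Complex.norm_natCast]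
    refine div_le_div_of_nonneg_right ?_ hp'.le
    refine (norm_sum_le _ _).trans ?_
    have h1 : ∀ i ∈ (Finset.univ : Finset ι), ‖1 - cj (s i) z‖ ≤ 2 := by
      intro i _
      refine (norm_sub_le _ _).trans ?_
      rw [sprod_cj_norm, norm_one]
      linarith
    refine (Finset.sum_le_sum h1).trans ?_
    rw [Finset.sum_const, Finset.card_univ, nsmul_eq_mul, ← hκdef]
    linarith
  have hre1 : z.re ≤ 1 := (Complex.re_le_norm z).trans hz
  have hq0 : 0 ≤ (1 - z.re) / p := div_nonneg (by linarith) hp'.le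
  have hsq : ‖1 - δ‖ ^ 2 = 1 - 2 * δ.re + ‖δ‖ ^ 2 := by
    rw [← Complex.normSq_eq_norm_sq, ← Complex.normSq_eq_norm_sq, Complex.normSq_apply,
      Complex.normSq_apply, Complex.sub_re, Complex.sub_im, Complex.one_re, Complex.one_im]
    ring
  have hδ2 : ‖δ‖ ^ 2 ≤ 4 * κ ^ 2 * (1 / (p : ℝ) ^ 2) := by
    have h1 : ‖δ‖ ^ 2 ≤ (2 * κ / p) ^ 2 := pow_le_pow_left₀ (norm_nonneg _) hnorm 2
    refine h1.trans (le_of_eq ?_)
    field_simp
    ring
  have hkre : (1 - z.re) / p ≤ δ.re := by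
    rw [hre]
    exact le_mul_of_one_le_left hq0 hκ
  have hfin : ‖1 - δ‖ ^ 2 ≤
      Real.exp (-((1 - z.re) / p) + 2 * κ ^ 2 * (1 / (p : ℝ) ^ 2)) ^ 2 := by
    rw [← Real.exp_nat_mul]
    have h1 := Real.add_one_le_exp (((2 : ℕ) : ℝ) *
      (-((1 - z.re) / p) + 2 * κ ^ 2 * (1 / (p : ℝ) ^ 2)))
    refine le_trans ?_ h1
    rw [hsq]
    push_cast
    linarith
  exact (pow_le_pow_iff_left₀ (norm_nonneg _) (Real.exp_pos _).le (by norm_num)).1 hfin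

theorem prod_small {ι : Type} [Fintype ι] [Nonempty ι] {g : ℤ → ℂ} (hb : ∀ n, ‖g n‖ ≤ 1)
    (s : ι → Bool) {T : Finset ℕ} (hT : ∀ p ∈ T, p.Prime) :
    ‖∏ p ∈ T, (1 - (∑ i, (1 - cj (s i) (g p))) / (p : ℂ))‖ ≤
      Real.exp (2 * (Fintype.card ι : ℝ) ^ 2) * Real.exp (-∑ p ∈ T, (1 - (g p).re) / p) := by
  rw [norm_prod]
  have h1 : ∏ p ∈ T, ‖1 - (∑ i, (1 - cj (s i) (g p))) / (p : ℂ)‖ ≤
      ∏ p ∈ T, Real.exp (-((1 - (g p).re) / p) +
        2 * (Fintype.card ι : ℝ) ^ 2 * (1 / (p : ℝ) ^ 2)) :=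
    Finset.prod_le_prod (fun _ _ => norm_nonneg _) fun p hp => sprod_one (hb p) s (hT p hp).pos
  refine h1.trans ?_
  rw [← Real.exp_sum, ← Real.exp_add]
  refine Real.exp_le_exp.2 ?_
  rw [Finset.sum_add_distrib, Finset.sum_neg_distrib, ← Finset.mul_sum]
  have h2 : 2 * (Fintype.card ι : ℝ) ^ 2 * ∑ p ∈ T, 1 / (p : ℝ) ^ 2 ≤
      2 * (Fintype.card ι : ℝ) ^ 2 * 1 :=
    mul_le_mul_of_nonneg_left (sprod_sum hT) (by positivity)
  linarith

end Pool.Agent.Work.MP_58cfe3_nt
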