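import Pool.Agent.Work.MP_58cfe3_nt.SKub
import Pool.Agent.Work.MP_58cfe3_nt.SProd

/-!
# Module LCls: small averages over every residue class, uniformly in the function
-/

set_option autoImplicit false

namespace Pool.Agent.Work.MP_58cfe3_nt

open Filter Topology

private theorem norm_cj_le {g : ℤ → ℂ} (hb : ∀ n, ‖g n‖ ≤ 1) (b : Bool) (n : ℤ) : ‖cj b (g n)‖ ≤ 1 := by
  rw [cj]
  split_ifs
  · rw [norm_star]
    exact hb n
  · exact hb n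

theorem class_small_u {ι : Type} [Fintype ι] [Nonempty ι] {v : ι → ℤ} (hv : Function.Injective v)
    {η : ℝ} (hη : 0 < η) :
    ∃ θ : ℝ, 0 < θ ∧ θ ≤ 1 ∧ ∃ K : ℝ, ∃ w₀ : ℕ, ∀ w : ℕ, w₀ ≤ w → ∀ M : ℕ, 0 < M →
      (∀ p : ℕ, p.Prime → p ∣ M → p ≤ w) → ∃ x₀ : ℕ, ∀ x : ℕ, x₀ ≤ x →
        ∀ g : ℤ → ℂ, (∀ n, ‖g n‖ ≤ 1) → K ≤ ∑ p ∈ TT w x θ, (1 - (g p).re) / p →
        ∀ (s : ι → Bool) (r : ℤ),
        ‖∑ n ∈ cls x M r, FF v (TT w x θ) (fun p i => cj (s i) (g p)) n‖ ≤ η * (x / M) := by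
  obtain ⟨θ, hθ0, hθ1, w₀, hk⟩ := kub hv (half_pos hη)
  refine ⟨θ, hθ0, hθ1, Real.log (Real.exp (2 * (Fintype.card ι : ℝ) ^ 2) * (2 / η)), w₀,
    fun w hw M hM hpM => ?_⟩
  obtain ⟨x₀, hx₀⟩ := hk M hM
  refine ⟨x₀, fun x hx g hb hK s r => ?_⟩
  have hT : ∀ p ∈ TT w x θ, p.Prime ∧ w₀ < p ∧ (p : ℝ) ≤ (x : ℝ) ^ θ ∧ Nat.Coprime p M := by
    intro p hp
    rw [TT, Finset.mem_filter] at hp
    refine ⟨hp.2.1, lt_of_le_of_lt hw hp.2.2.1, hp.2.2.2, ?_⟩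
    refine (Nat.Prime.coprime_iff_not_dvd hp.2.1).2 fun hd => ?_
    have := hpM p hp.2.1 hd
    omega
  have h1 := hx₀ x hx (TT w x θ) hT (fun p i => cj (s i) (g p)) (fun p i => norm_cj_le hb _ _) r
  have h2 := prod_small (ι := ι) hb s (T := TT w x θ) (fun p hp => (hT p hp).1)
  have hP : ‖∏ p ∈ TT w x θ, (1 - (∑ i, (1 - cj (s i) (g p))) / (p : ℂ))‖ ≤ η / 2 := by
    refine h2.trans ?_
    have hpos : 0 < Real.exp (2 * (Fintype.card ι : ℝ) ^ 2) * (2 / η) := by positivity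
    calc Real.exp (2 * (Fintype.card ι : ℝ) ^ 2) * Real.exp (-∑ p ∈ TT w x θ, (1 - (g p).re) / p)
        ≤ Real.exp (2 * (Fintype.card ι : ℝ) ^ 2) *
          Real.exp (-Real.log (Real.exp (2 * (Fintype.card ι : ℝ) ^ 2) * (2 / η))) :=
          mul_le_mul_of_nonneg_left (Real.exp_le_exp.2 (neg_le_neg hK)) (Real.exp_pos _).le
      _ = η / 2 := by
          rw [Real.exp_neg, Real.exp_log hpos, mul_inv, inv_div, ← mul_assoc,
            mul_inv_cancel₀ (Real.exp_pos _).ne', one_mul]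
  have hxM : 0 ≤ (x : ℝ) / M := by positivity
  have h6 : ‖((x : ℂ) / M) * ∏ p ∈ TT w x θ, (1 - (∑ i, (1 - cj (s i) (g p))) / (p : ℂ))‖ ≤
      (x / M) * (η / 2) := by
    rw [norm_mul, norm_div, Complex.norm_natCast, Complex.norm_natCast]
    exact mul_le_mul_of_nonneg_left hP hxM
  calc ‖∑ n ∈ cls x M r, FF v (TT w x θ) (fun p i => cj (s i) (g p)) n‖
      = ‖(∑ n ∈ cls x M r, FF v (TT w x θ) (fun p i => cj (s i) (g p)) n -
          ((x : ℂ) / M) * ∏ p ∈ TT w x θ, (1 - (∑ i, (1 - cj (s i) (g p))) / (p : ℂ))) +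
          ((x : ℂ) / M) * ∏ p ∈ TT w x θ, (1 - (∑ i, (1 - cj (s i) (g p))) / (p : ℂ))‖ := by
        rw [sub_add_cancel]
    _ ≤ η / 2 * (x / M) + (x / M) * (η / 2) := (norm_add_le _ _).trans (add_le_add h1 h6)
    _ = η * (x / M) := by ring

end Pool.Agent.Work.MP_58cfe3_nt
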