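import Pool.Agent.Work.MP_58cfe3_nt.ElogA
import Pool.Agent.Work.MP_58cfe3_nt.LDefs

/-!
# Module LMean: windowed means
-/

set_option autoImplicit false

namespace Pool.Agent.Work.MP_58cfe3_nt

open Filter Topology

/-! ### harmonic sums -/

private noncomputable def hS (X : ℕ) : ℝ := ∑ n ∈ Finset.Icc 1 X, (1 / n : ℝ)

private theorem hS_eq (X : ℕ) : hS X = ((harmonic X : ℚ) : ℝ) := by
  unfold hS
  induction X with
  | zero => simp
  | succ X ih =>
    rw [Finset.sum_Icc_succ_top (by omega), ih, harmonic_succ]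
    push_cast
    rw [one_div]

private theorem hS_ge (X : ℕ) : Real.log (X + 1) ≤ hS X := by
  rw [hS_eq]
  exact_mod_cast log_add_one_le_harmonic X

private theorem hS_le (X : ℕ) : hS X ≤ 1 + Real.log X := by
  rw [hS_eq]
  exact harmonic_le_one_add_log X

private theorem hS_nonneg (X : ℕ) : 0 ≤ hS X := Finset.sum_nonneg fun n _ => by positivity

private theorem elog_hS (f : ℤ → ℂ) (X : ℕ) :
    (hS X : ℂ) * Elog f X = ∑ n ∈ Finset.Icc 1 X, f n / n := by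
  have h1 : (∑ n ∈ Finset.Icc 1 X, (1 / n : ℂ)) = (hS X : ℂ) := by
    unfold hS
    push_cast
    rfl
  rcases Nat.eq_zero_or_pos X with h0 | h0
  · subst h0
    simp [hS]
  · have h2 : 0 < hS X := by
      refine Finset.sum_pos (fun n hn => ?_) ⟨1, Finset.mem_Icc.2 ⟨le_rfl, h0⟩⟩
      have h3 := (Finset.mem_Icc.1 hn).1
      have h4 : (0 : ℝ) < n := by exact_mod_cast h3
      positivity
    have h3 : (hS X : ℂ) ≠ 0 := by exact_mod_cast h2.ne'
    rw [Elog, h1, mul_div_cancel₀ _ h3]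

/-- the lower end of the window -/
noncomputable def wlo (δ : ℝ) (X : ℕ) : ℕ := ⌊(X : ℝ) ^ δ⌋₊

theorem wlo_tendsto {δ : ℝ} (hδ : 0 < δ) : Tendsto (wlo δ) atTop atTop :=
  tendsto_nat_floor_atTop.comp ((tendsto_rpow_atTop hδ).comp tendsto_natCast_atTop_atTop)

theorem wlo_le {δ : ℝ} (hδ1 : δ ≤ 1) {X : ℕ} (hX : 1 ≤ X) : wlo δ X ≤ X := by
  unfold wlo
  refine Nat.floor_le_of_le ?_
  have h1 : (1 : ℝ) ≤ X := by exact_mod_cast hX
  calc (X : ℝ) ^ δ ≤ (X : ℝ) ^ (1 : ℝ) := Real.rpow_le_rpow_of_exponent_le h1 hδ1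
    _ = X := Real.rpow_one _

/-- the quotient of the harmonic sums -/
private theorem ratio {δ : ℝ} (hδ : 0 < δ) :
    Tendsto (fun X : ℕ => hS (wlo δ X) / hS X) atTop (𝓝 δ) := by
  have hlog : Tendsto (fun X : ℕ => Real.log X) atTop atTop :=
    Real.tendsto_log_atTop.comp tendsto_natCast_atTop_atTop
  -- `δ log X ≤ hS (wlo δ X) ≤ 1 + δ log X`
  have h1 : ∀ X : ℕ, 1 ≤ X → δ * Real.log X ≤ hS (wlo δ X) := by
    intro X hX
    have hX' : (1 : ℝ) ≤ X := by exact_mod_cast hX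
    have hp : 0 < (X : ℝ) ^ δ := by positivity
    refine le_trans ?_ (hS_ge _)
    rw [← Real.log_rpow (by linarith)]
    exact Real.log_le_log hp (Nat.lt_floor_add_one _).le
  have h2 : ∀ X : ℕ, 1 ≤ X → hS (wlo δ X) ≤ 1 + δ * Real.log X := by
    intro X hX
    have hX' : (1 : ℝ) ≤ X := by exact_mod_cast hX
    have hp : 1 ≤ (X : ℝ) ^ δ := Real.one_le_rpow hX' hδ.le
    refine (hS_le _).trans ?_
    rw [← Real.log_rpow (by linarith)]
    have h3 : 0 < wlo δ X := Nat.floor_pos.2 hp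
    have h4 : ((wlo δ X : ℕ) : ℝ) ≤ (X : ℝ) ^ δ := Nat.floor_le (by positivity)
    have h5 := Real.log_le_log (by exact_mod_cast h3) h4
    linarith
  have h3 : ∀ X : ℕ, 1 ≤ X → Real.log X ≤ hS X := by
    intro X hX
    have hX' : (1 : ℝ) ≤ X := by exact_mod_cast hX
    exact (Real.log_le_log (by linarith) (by linarith)).trans (hS_ge X)
  -- squeeze
  have hlow : Tendsto (fun X : ℕ => δ * (1 - 1 / (1 + Real.log X))) atTop (𝓝 δ) := by
    have h4 : Tendsto (fun X : ℕ => 1 / (1 + Real.log (X : ℝ))) atTop (𝓝 0) :=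
      tendsto_const_nhds.div_atTop (tendsto_atTop_add_const_left _ 1 hlog)
    have h5 := (h4.const_sub 1).const_mul δ
    rwa [sub_zero, mul_one] at h5
  have hup : Tendsto (fun X : ℕ => δ + 1 / Real.log X) atTop (𝓝 δ) := by
    have h4 : Tendsto (fun X : ℕ => 1 / Real.log (X : ℝ)) atTop (𝓝 0) :=
      tendsto_const_nhds.div_atTop hlog
    have h5 := h4.const_add δ
    rwa [add_zero] at h5
  refine tendsto_of_tendsto_of_tendsto_of_le_of_le' hlow hup ?_ ?_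
  · filter_upwards [eventually_ge_atTop 2] with X hX
    have hX' : (2 : ℝ) ≤ X := by exact_mod_cast hX
    have hl : 0 < Real.log X := Real.log_pos (by linarith)
    have e1 := h1 X (by omega)
    have e2 := hS_le X
    have e3 : 0 < hS X := lt_of_lt_of_le hl (h3 X (by omega))
    rw [le_div_iff₀ e3]
    have e4 : δ * (1 - 1 / (1 + Real.log X)) * (1 + Real.log X) = δ * Real.log X := by
      field_simp
      ring
    have e5 : 0 ≤ δ * (1 - 1 / (1 + Real.log X)) := by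
      refine mul_nonneg hδ.le ?_
      rw [sub_nonneg, div_le_one (by linarith)]
      linarith
    calc δ * (1 - 1 / (1 + Real.log X)) * hS X
        ≤ δ * (1 - 1 / (1 + Real.log X)) * (1 + Real.log X) := mul_le_mul_of_nonneg_left e2 e5
      _ = δ * Real.log X := e4
      _ ≤ _ := e1
  · filter_upwards [eventually_ge_atTop 2] with X hX
    have hX' : (2 : ℝ) ≤ X := by exact_mod_cast hX
    have hl : 0 < Real.log X := Real.log_pos (by linarith)
    have e1 := h2 X (by omega)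
    have e2 := h3 X (by omega)
    have e3 : 0 < hS X := lt_of_lt_of_le hl e2
    rw [div_le_iff₀ e3]
    calc hS (wlo δ X) ≤ 1 + δ * Real.log X := e1
      _ = (δ + 1 / Real.log X) * Real.log X := by
        field_simp
        ring
      _ ≤ (δ + 1 / Real.log X) * hS X := mul_le_mul_of_nonneg_left e2 (by positivity)

private theorem split (f : ℤ → ℂ) {a X : ℕ} (h : a ≤ X) :
    ∑ n ∈ Finset.Ioc a X, f n / (n : ℂ) =
      (hS X : ℂ) * Elog f X - (hS a : ℂ) * Elog f a := by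
  rw [elog_hS, elog_hS]
  have h1 : Finset.Icc 1 X = Finset.Icc 1 a ∪ Finset.Ioc a X := by
    ext n
    simp only [Finset.mem_union, Finset.mem_Icc, Finset.mem_Ioc]
    omega
  have h2 : Disjoint (Finset.Icc 1 a) (Finset.Ioc a X) := by
    rw [Finset.disjoint_left]
    intro n hn hn'
    rw [Finset.mem_Icc] at hn
    rw [Finset.mem_Ioc] at hn'
    omega
  rw [h1, Finset.sum_union h2]
  ring

private theorem split_one {a X : ℕ} (h : a ≤ X) :
    ∑ n ∈ Finset.Ioc a X, (1 / n : ℂ) = ((hS X - hS a : ℝ) : ℂ) := by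
  have h1 : Finset.Icc 1 X = Finset.Icc 1 a ∪ Finset.Ioc a X := by
    ext n
    simp only [Finset.mem_union, Finset.mem_Icc, Finset.mem_Ioc]
    omega
  have h2 : Disjoint (Finset.Icc 1 a) (Finset.Ioc a X) := by
    rw [Finset.disjoint_left]
    intro n hn hn'
    rw [Finset.mem_Icc] at hn
    rw [Finset.mem_Ioc] at hn'
    omega
  have h3 : hS X = hS a + ∑ n ∈ Finset.Ioc a X, (1 / n : ℝ) := by
    unfold hS
    rw [h1, Finset.sum_union h2]
  rw [h3, add_sub_cancel_left]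
  push_cast
  rfl

/-- windowed averages in terms of the ordinary ones -/
theorem wlog_lim {δ : ℝ} (hδ : 0 < δ) (hδ1 : δ < 1) {l : Filter ℕ} (hl : l ≤ atTop) {f : ℕ → ℤ → ℂ}
    {a b : ℂ} (h1 : Tendsto (fun X => Elog (f X) X) l (𝓝 a))
    (h2 : Tendsto (fun X => Elog (f X) (wlo δ X)) l (𝓝 b)) :
    Tendsto (fun X => Wlog δ (f X) X) l (𝓝 ((a - δ * b) / (1 - δ))) := by
  have hr : Tendsto (fun X : ℕ => ((hS (wlo δ X) / hS X : ℝ) : ℂ)) l (𝓝 (δ : ℂ)) :=
    ((Complex.continuous_ofReal.tendsto δ).comp (ratio hδ)).mono_left hl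
  have hne : (1 : ℂ) - (δ : ℂ) ≠ 0 := by
    rw [sub_ne_zero]
    intro h
    have : (1 : ℝ) = δ := by exact_mod_cast h
    linarith
  have h3 := (h1.sub (hr.mul h2)).div (tendsto_const_nhds.sub hr) hne
  refine h3.congr' ?_
  have hpos : ∀ᶠ X : ℕ in l, 0 < hS X := by
    refine hl ?_
    filter_upwards [eventually_ge_atTop 1] with X hX
    have hX' : (1 : ℝ) ≤ X := by exact_mod_cast hX
    exact lt_of_lt_of_le (Real.log_pos (by linarith)) (hS_ge X)
  filter_upwards [hpos, hl (eventually_ge_atTop 1)] with X hX hX1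
  have hle := wlo_le hδ1.le hX1
  have hc : (hS X : ℂ) ≠ 0 := by exact_mod_cast hX.ne'
  show _ = (∑ n ∈ Finset.Ioc (wlo δ X) X, f X n / n) / ∑ n ∈ Finset.Ioc (wlo δ X) X, (1 / n : ℂ)
  rw [split (f X) hle, split_one hle]
  rw [show (hS X : ℂ) * Elog (f X) X - (hS (wlo δ X) : ℂ) * Elog (f X) (wlo δ X) =
      (hS X : ℂ) * (Elog (f X) X - ((hS (wlo δ X) / hS X : ℝ) : ℂ) * Elog (f X) (wlo δ X)) by
    push_cast
    field_simp]
  rw [show ((hS X - hS (wlo δ X) : ℝ) : ℂ) =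
      (hS X : ℂ) * (1 - ((hS (wlo δ X) / hS X : ℝ) : ℂ)) by
    push_cast
    field_simp]
  rw [mul_div_mul_left _ _ hc]
  rfl

theorem wlog_le {δ : ℝ} {f : ℤ → ℂ} {C : ℝ} {X : ℕ}
    (h : ∀ n ∈ Finset.Ioc ⌊(X : ℝ) ^ δ⌋₊ X, ‖f n‖ ≤ C) (hC : 0 ≤ C) : ‖Wlog δ f X‖ ≤ C := by
  have h1 : (∑ n ∈ Finset.Ioc ⌊(X : ℝ) ^ δ⌋₊ X, (1 / n : ℂ)) =
      ((∑ n ∈ Finset.Ioc ⌊(X : ℝ) ^ δ⌋₊ X, (1 / n : ℝ) : ℝ) : ℂ) := by
    push_cast
    rfl
  have h2 : 0 ≤ ∑ n ∈ Finset.Ioc ⌊(X : ℝ) ^ δ⌋₊ X, (1 / n : ℝ) :=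
    Finset.sum_nonneg fun n _ => by positivity
  rw [Wlog, h1, norm_div, Complex.norm_real, Real.norm_eq_abs, abs_of_nonneg h2]
  refine div_le_of_le_mul₀ h2 hC ?_
  rw [Finset.mul_sum]
  refine (norm_sum_le _ _).trans (Finset.sum_le_sum fun n hn => ?_)
  rw [norm_div, Complex.norm_natCast, mul_one_div]
  exact div_le_div_of_nonneg_right (h n hn) (Nat.cast_nonneg n)

/-- windowed averages are bounded by the ordinary ones -/
theorem wlog_le_elog {δ : ℝ} (hδ : 0 < δ) (hδ1 : δ < 1) : ∀ᶠ X : ℕ in atTop,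
    ∀ (f : ℤ → ℂ) (g : ℤ → ℝ), (∀ n, ‖f n‖ ≤ g n) →
      ‖Wlog δ f X‖ ≤ 2 / (1 - δ) * ‖Elog (fun n => ((g n : ℝ) : ℂ)) X‖ := by
  have h1 : (δ : ℝ) < (1 + δ) / 2 := by linarith
  filter_upwards [(ratio hδ).eventually (gt_mem_nhds h1), eventually_ge_atTop 2] with X hX hX2 f g h
  have hX' : (2 : ℝ) ≤ X := by exact_mod_cast hX2
  have hpos : 0 < hS X := by
    refine lt_of_lt_of_le (Real.log_pos ?_) (hS_ge X)
    linarith
  rw [div_lt_iff₀ hpos] at hX
  have hd : 0 < hS X - hS (wlo δ X) := by nlinarith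
  have hd2 : (1 - δ) / 2 * hS X ≤ hS X - hS (wlo δ X) := by nlinarith
  have hg : ∀ n, 0 ≤ g n := fun n => (norm_nonneg _).trans (h n)
  have hle := wlo_le hδ1.le (show 1 ≤ X by omega)
  have e1 : Wlog δ f X = (∑ n ∈ Finset.Ioc (wlo δ X) X, f n / n) /
      ((hS X - hS (wlo δ X) : ℝ) : ℂ) := by
    rw [← split_one hle]
    rfl
  have e2 : ‖∑ n ∈ Finset.Ioc (wlo δ X) X, f n / n‖ ≤ ∑ n ∈ Finset.Icc 1 X, g n / (n : ℝ) := by
    refine (norm_sum_le _ _).trans ?_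
    refine (Finset.sum_le_sum (g := fun n : ℕ => g n / (n : ℝ)) fun n _ => ?_).trans ?_
    · rw [norm_div, Complex.norm_natCast]
      exact div_le_div_of_nonneg_right (h n) (Nat.cast_nonneg n)
    · refine Finset.sum_le_sum_of_subset_of_nonneg ?_ fun n _ _ => div_nonneg (hg _) (Nat.cast_nonneg n)
      intro n hn
      rw [Finset.mem_Ioc] at hn
      rw [Finset.mem_Icc]
      omega
  have e3 : ‖Elog (fun n => ((g n : ℝ) : ℂ)) X‖ * hS X = ∑ n ∈ Finset.Icc 1 X, g n / (n : ℝ) := by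
    have h2 := elog_hS (fun n => ((g n : ℝ) : ℂ)) X
    have h3 : ∑ n ∈ Finset.Icc 1 X, ((g n : ℝ) : ℂ) / (n : ℂ) =
        ((∑ n ∈ Finset.Icc 1 X, g n / (n : ℝ) : ℝ) : ℂ) := by
      push_cast
      rfl
    rw [h3] at h2
    have h4 := congrArg norm h2
    rw [norm_mul, Complex.norm_real, Complex.norm_real, Real.norm_eq_abs, Real.norm_eq_abs,
      abs_of_pos hpos, abs_of_nonneg (Finset.sum_nonneg fun n _ =>
        div_nonneg (hg _) (Nat.cast_nonneg n))] at h4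
    linarith
  rw [e1, norm_div, Complex.norm_real, Real.norm_eq_abs, abs_of_pos hd, div_le_iff₀ hd]
  refine e2.trans ?_
  rw [← e3]
  have h5 : 0 ≤ ‖Elog (fun n => ((g n : ℝ) : ℂ)) X‖ := norm_nonneg _
  have h6 : (0 : ℝ) < 1 - δ := by linarith
  calc ‖Elog (fun n => ((g n : ℝ) : ℂ)) X‖ * hS X
      = 2 / (1 - δ) * ‖Elog (fun n => ((g n : ℝ) : ℂ)) X‖ * ((1 - δ) / 2 * hS X) := by
        field_simp
    _ ≤ _ := mul_le_mul_of_nonneg_left hd2 (by positivity)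

theorem wlog_add (δ : ℝ) (f g : ℤ → ℂ) (X : ℕ) :
    Wlog δ (fun n => f n + g n) X = Wlog δ f X + Wlog δ g X := by
  unfold Wlog
  rw [← add_div, ← Finset.sum_add_distrib]
  congr 1
  exact Finset.sum_congr rfl fun n _ => add_div _ _ _

theorem wlog_smul (δ : ℝ) (c : ℂ) (f : ℤ → ℂ) (X : ℕ) :
    Wlog δ (fun n => c * f n) X = c * Wlog δ f X := by
  unfold Wlog
  rw [← mul_div_assoc, Finset.mul_sum]
  congr 1
  exact Finset.sum_congr rfl fun n _ => mul_div_assoc _ _ _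

theorem wlog_sum {ι : Type*} (δ : ℝ) (s : Finset ι) (f : ι → ℤ → ℂ) (X : ℕ) :
    Wlog δ (fun n => ∑ a ∈ s, f a n) X = ∑ a ∈ s, Wlog δ (f a) X := by
  classical
  induction s using Finset.induction_on with
  | empty => simp [Wlog]
  | insert a s ha ih =>
    rw [Finset.sum_insert ha, ← ih, ← wlog_add]
    congr 1
    funext n
    rw [Finset.sum_insert ha]

/-! ### the means -/

private noncomputable def LU (U : Ultrafilter ℕ) (f : ℤ → ℂ) : ℂ :=
  open Classical in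
  if h : ∃ a, Tendsto (Elog f) U (𝓝 a) then h.choose else 0

private theorem LU_tendsto (U : Ultrafilter ℕ) {f : ℤ → ℂ} (hf : Bdd f) :
    Tendsto (Elog f) U (𝓝 (LU U f)) := by
  obtain ⟨C, hC⟩ := hf
  have h1 : ∃ a, Tendsto (Elog f) U (𝓝 a) := by
    obtain ⟨a, _, ha⟩ := (isCompact_closedBall (0 : ℂ) C).ultrafilter_le_nhds' (U.map (Elog f))
      (by
        rw [Ultrafilter.mem_map]
        refine Filter.mem_of_superset Filter.univ_mem fun X _ => ?_
        rw [Set.mem_preimage, mem_closedBall_zero_iff]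
        exact elog_le hC X)
    exact ⟨a, ha⟩
  rw [LU, dif_pos h1]
  exact h1.choose_spec

private theorem LU_unique (U : Ultrafilter ℕ) {f : ℤ → ℂ} (hf : Bdd f) {a : ℂ}
    (h : Tendsto (Elog f) U (𝓝 a)) : LU U f = a :=
  tendsto_nhds_unique (LU_tendsto U hf) h

private theorem LU_eq (U : Ultrafilter ℕ) (hU : (U : Filter ℕ) ≤ atTop) {f g : ℤ → ℂ}
    (hf : Bdd f) (hg : Bdd g)
    (h : Tendsto (fun X : ℕ => Elog f X - Elog g X) atTop (𝓝 0)) : LU U f = LU U g := by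
  refine LU_unique U hf ?_
  have h1 := (h.mono_left hU).add (LU_tendsto U hg)
  rw [zero_add] at h1
  exact h1.congr fun X => sub_add_cancel _ _

private theorem LU_isMean (U : Ultrafilter ℕ) (hU : (U : Filter ℕ) ≤ atTop) : IsMean (LU U) where
  add f g hf hg := by
    refine LU_unique U (hf.add hg) ?_
    exact ((LU_tendsto U hf).add (LU_tendsto U hg)).congr fun X => (elog_add f g X).symm
  smul c f hf := by
    refine LU_unique U (hf.smul c) ?_
    exact ((LU_tendsto U hf).const_mul c).congr fun X => (elog_smul c f X).symm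
  le f C h := by
    refine le_of_tendsto (LU_tendsto U (bdd_of_le h)).norm ?_
    exact Eventually.of_forall fun X => elog_le h X
  one := by
    refine LU_unique U (bdd_const 1) ?_
    refine (tendsto_const_nhds (x := (1 : ℂ))).congr' ?_
    have h1 : ∀ᶠ X in (U : Filter ℕ), 1 ≤ X := hU (eventually_ge_atTop 1)
    exact h1.mono fun X hX => (elog_one hX).symm
  shift f hf s := LU_eq U hU (hf.shift fun n => n + s) hf (elog_shift hf s)
  dil f hf q hq := by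
    refine LU_eq U hU (Bdd.ite (fun n => (q : ℤ) ∣ n) (hf.smul (q : ℂ)) (bdd_const 0))
      (hf.shift fun n => q * n) (elog_dil hf hq)

/-- the windowed mean -/
private noncomputable def WU (U : Ultrafilter ℕ) (δ : ℝ) (f : ℤ → ℂ) : ℂ :=
  (LU U f - δ * LU (U.map (wlo δ)) f) / (1 - δ)

private theorem map_le {U : Ultrafilter ℕ} (hU : (U : Filter ℕ) ≤ atTop) {δ : ℝ} (hδ : 0 < δ) :
    ((U.map (wlo δ) : Ultrafilter ℕ) : Filter ℕ) ≤ atTop := by
  rw [Ultrafilter.coe_map]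
  exact (Filter.map_mono hU).trans (wlo_tendsto hδ)

private theorem WU_tendsto {U : Ultrafilter ℕ} (hU : (U : Filter ℕ) ≤ atTop) {δ : ℝ} (hδ : 0 < δ)
    (hδ1 : δ < 1) {f : ℤ → ℂ} (hf : Bdd f) : Tendsto (Wlog δ f) U (𝓝 (WU U δ f)) := by
  refine wlog_lim hδ hδ1 hU (f := fun _ => f) (LU_tendsto U hf) ?_
  have h1 := LU_tendsto (U.map (wlo δ)) hf
  rw [Ultrafilter.coe_map] at h1
  exact h1

private theorem WU_isMean {U : Ultrafilter ℕ} (hU : (U : Filter ℕ) ≤ atTop) {δ : ℝ} (hδ : 0 < δ)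
    (hδ1 : δ < 1) : IsMean (WU U δ) := by
  have h1 := LU_isMean U hU
  have h2 := LU_isMean (U.map (wlo δ)) (map_le hU hδ)
  have hne : (1 : ℂ) - (δ : ℂ) ≠ 0 := by
    rw [sub_ne_zero]
    intro h
    have : (1 : ℝ) = δ := by exact_mod_cast h
    linarith
  refine ⟨fun f g hf hg => ?_, fun c f hf => ?_, fun f C h => ?_, ?_, fun f hf s => ?_,
    fun f hf q hq => ?_⟩
  · unfold WU
    rw [h1.add f g hf hg, h2.add f g hf hg]
    ring
  · unfold WU
    rw [h1.smul c f hf, h2.smul c f hf]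
    ring
  · refine le_of_tendsto (WU_tendsto hU hδ hδ1 (bdd_of_le h)).norm ?_
    exact Eventually.of_forall fun X => wlog_le (fun n _ => h n) ((norm_nonneg _).trans (h 0))
  · unfold WU
    rw [h1.one, h2.one, mul_one, div_self hne]
  · unfold WU
    rw [h1.shift f hf s, h2.shift f hf s]
  · unfold WU
    rw [h1.dil f hf q hq, h2.dil f hf q hq]

/-- the windowed mean of an ultrafilter -/
theorem exists_wmean {U : Ultrafilter ℕ} (hU : (U : Filter ℕ) ≤ atTop) {δ : ℝ} (hδ : 0 < δ)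
    (hδ1 : δ < 1) : ∃ M : (ℤ → ℂ) → ℂ, IsMean M ∧ ∀ f, Bdd f → Tendsto (Wlog δ f) U (𝓝 (M f)) :=
  ⟨WU U δ, WU_isMean hU hδ hδ1, fun _ hf => WU_tendsto hU hδ hδ1 hf⟩

/-- a nonzero windowed mean -/
theorem exists_win {l : Filter ℕ} (hl : l ≤ atTop) {F : ℤ → ℂ} (hF : ∀ n, ‖F n‖ ≤ 1)
    (h : ¬ Tendsto (Elog F) l (𝓝 0)) :
    ∃ U : Ultrafilter ℕ, (U : Filter ℕ) ≤ l ∧ ∃ ε : ℝ, 0 < ε ∧ ∀ δ : ℝ, 0 < δ → δ < ε →
      δ < 1 ∧ ∃ M : (ℤ → ℂ) → ℂ, IsMean M ∧ M F ≠ 0 ∧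
        ∀ f, Bdd f → Tendsto (Wlog δ f) U (𝓝 0) → M f = 0 := by
  obtain ⟨ε, hε, hfr⟩ : ∃ ε : ℝ, 0 < ε ∧ ∃ᶠ X in l, ε ≤ ‖Elog F X‖ := by
    by_contra hcon
    refine h ?_
    rw [Metric.tendsto_nhds]
    intro ε hε
    by_contra h1
    refine hcon ⟨ε, hε, ?_⟩
    rw [Filter.not_eventually] at h1
    refine h1.mono fun X hX => ?_
    rw [dist_zero_right, not_lt] at hX
    exact hX
  have hne : (l ⊓ 𝓟 {X | ε ≤ ‖Elog F X‖}).NeBot := by
    rw [← Filter.frequently_mem_iff_neBot]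
    exact hfr
  let U : Ultrafilter ℕ := Ultrafilter.of (l ⊓ 𝓟 {X | ε ≤ ‖Elog F X‖})
  have hU0 : (U : Filter ℕ) ≤ l ⊓ 𝓟 {X | ε ≤ ‖Elog F X‖} := Ultrafilter.of_le _
  have hUl : (U : Filter ℕ) ≤ l := hU0.trans inf_le_left
  have hU : (U : Filter ℕ) ≤ atTop := hUl.trans hl
  have hFb : Bdd F := bdd_of_le hF
  refine ⟨U, hUl, min ε 1, lt_min hε one_pos, fun δ hδ hδε => ?_⟩
  have hδ1 : δ < 1 := lt_of_lt_of_le hδε (min_le_right _ _)
  have hδ2 : δ < ε := lt_of_lt_of_le hδε (min_le_left _ _)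
  refine ⟨hδ1, WU U δ, WU_isMean hU hδ hδ1, ?_, fun f hf hlim => ?_⟩
  · have h1 : ε ≤ ‖LU U F‖ := by
      refine ge_of_tendsto (LU_tendsto U hFb).norm ?_
      have h2 : {X | ε ≤ ‖Elog F X‖} ∈ (U : Filter ℕ) :=
        (hU0.trans inf_le_right) (Filter.mem_principal_self _)
      exact h2
    have h2 : ‖LU (U.map (wlo δ)) F‖ ≤ 1 := (LU_isMean (U.map (wlo δ)) (map_le hU hδ)).le F 1 hF
    intro h3
    have hne : (1 : ℂ) - (δ : ℂ) ≠ 0 := by
      rw [sub_ne_zero]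
      intro h
      have : (1 : ℝ) = δ := by exact_mod_cast h
      linarith
    unfold WU at h3
    rw [div_eq_zero_iff, or_iff_left hne, sub_eq_zero] at h3
    rw [h3, norm_mul, Complex.norm_real, Real.norm_eq_abs, abs_of_pos hδ] at h1
    nlinarith
  · exact tendsto_nhds_unique (WU_tendsto hU hδ hδ1 hf) hlim

end Pool.Agent.Work.MP_58cfe3_nt
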