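import Pool.Agent.Work.MP_58cfe3_nt.Defs

/-!
# Invariant means, distributions and entropy

`IsMean M`: `M` is an invariant mean on bounded functions `ℤ → ℂ` (an ultrafilter limit of the
logarithmic averages).  Finite valued functions `X : ℤ → α` are treated as random variables.
-/

set_option autoImplicit false

namespace Pool.Agent.Work.MP_58cfe3_nt

open Filter Topology

/-- bounded functions -/
def Bdd (f : ℤ → ℂ) : Prop := ∃ C : ℝ, ∀ n, ‖f n‖ ≤ C

/-- An invariant mean (ultrafilter limit of logarithmic averages). -/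
structure IsMean (M : (ℤ → ℂ) → ℂ) : Prop where
  add : ∀ f g, Bdd f → Bdd g → M (fun n => f n + g n) = M f + M g
  smul : ∀ (c : ℂ) (f : ℤ → ℂ), Bdd f → M (fun n => c * f n) = c * M f
  le : ∀ (f : ℤ → ℂ) (C : ℝ), (∀ n, ‖f n‖ ≤ C) → ‖M f‖ ≤ C
  one : M (fun _ => 1) = 1
  shift : ∀ f, Bdd f → ∀ s : ℤ, M (fun n => f (n + s)) = M f
  dil : ∀ f, Bdd f → ∀ q : ℕ, 0 < q →
    M (fun n => if (q : ℤ) ∣ n then (q : ℂ) * f n else 0) = M (fun n => f (q * n))

/-- the mean of a real function -/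
noncomputable def mr (M : (ℤ → ℂ) → ℂ) (f : ℤ → ℝ) : ℝ := (M fun n => (f n : ℂ)).re

open Classical in
/-- the probability that `X = a` -/
noncomputable def pr (M : (ℤ → ℂ) → ℂ) {α : Type} (X : ℤ → α) (a : α) : ℝ :=
  mr M fun n => if X n = a then 1 else 0

/-- the Shannon entropy of the distribution of `X` -/
noncomputable def ent (M : (ℤ → ℂ) → ℂ) {α : Type} [Fintype α] (X : ℤ → α) : ℝ :=
  ∑ a, Real.negMulLog (pr M X a)

/-- mutual information -/
noncomputable def minf (M : (ℤ → ℂ) → ℂ) {α β : Type} [Fintype α] [Fintype β]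
    (X : ℤ → α) (Y : ℤ → β) : ℝ :=
  ent M X + ent M Y - ent M (fun n => (X n, Y n))

/-- the window of length `L` of the sequence `ξ` -/
def win {α : Type} (ξ : ℤ → α) (L : ℕ) (n : ℤ) : Fin L → α := fun j => ξ (n + j)

/-- the scales `(i!)²` -/
def HH (i : ℕ) : ℕ := i.factorial ^ 2

/-- the primes in `(H, 4 H]` -/
def PB (H : ℕ) : Finset ℕ := (Finset.Ioc H (4 * H)).filter Nat.Prime

/-- residues modulo `Q` -/
def rz (Q : ℕ) (n : ℤ) : ZMod Q := (n : ZMod Q)

/-- `f(n) * conj f(n + s)` -/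
noncomputable def dd (s : ℤ) (f : ℤ → ℂ) (n : ℤ) : ℂ := f n * star (f (n + s))

/-- the sum of `|M(cube)|` over all cubes with the edges `e_i d_i`, `d_i ∈ D` (the list `l` is the
list of the `e_i`) -/
noncomputable def BB (M : (ℤ → ℂ) → ℂ) (D : Finset ℤ) : List ℤ → (ℤ → ℂ) → ℝ
  | [], f => ‖M f‖
  | e :: l, f => ∑ d ∈ D, BB M D l (dd (e * d) f)

/-- iterated `dd` -/
noncomputable def dds : List ℤ → (ℤ → ℂ) → (ℤ → ℂ)
  | [], f => f
  | s :: l, f => dds l (dd s f)

end Pool.Agent.Work.MP_58cfe3_nt
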