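import Pool.Agent.Work.MP_58cfe3_nt.Basic

/-!
# Module MeanA (size M): consequences of the axioms of a mean

PROOFS.
* `mean_sum`: induction with `add` (`Bdd.sum`); `M 0 = 0` from `smul` with `c = 0`.
* `mean_im`: `f` real, `|f| ≤ C`. For every real `t`: `M (f + i t) = M f + i t` (`add`, `smul`, `one`),
  and `‖f n + i t‖ ≤ √(C² + t²)`, so `(re M f)² + (im M f + t)² ≤ C² + t²` for ALL real `t`, hence
  `im M f = 0`.
* `mr_nonneg`: `0 ≤ f ≤ C` gives `‖C/2 - f n‖ ≤ C/2`, so `‖C/2 - M f‖ ≤ C/2` and `0 ≤ re M f`.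
* `norm_mean_le`: choose a unimodular `u` with `u * M f = ‖M f‖`; then
  `‖M f‖ = re M (u f) = re (M (re (u f)) + i M (im (u f))) = mr M (re (u f)) ≤ mr M ‖f‖`.
* `mean_cs`: `‖M (g Φ)‖ ≤ mr M ‖g Φ‖ ≤ mr M ‖Φ‖ =: a`, and `0 ≤ mr M ((‖Φ‖ - a)²) = mr M ‖Φ‖² - a²`.
-/

set_option autoImplicit false

namespace Pool.Agent.Work.MP_58cfe3_nt

open Filter Topology

private theorem mean_zero {M : (ℤ → ℂ) → ℂ} (hM : IsMean M) : M (fun _ => 0) = 0 := by
  have h := hM.smul 0 (fun _ => 1) (bdd_const 1)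
  simpa using h

theorem mean_sub {M : (ℤ → ℂ) → ℂ} (hM : IsMean M) {f g : ℤ → ℂ} (hf : Bdd f) (hg : Bdd g) :
    M (fun n => f n - g n) = M f - M g := by
  have h := hM.add f (fun n => (-1) * g n) hf (hg.smul (-1))
  rw [hM.smul (-1) g hg] at h
  have e : (fun n => f n - g n) = fun n => f n + (-1) * g n := by
    funext n; ring
  rw [e, h]; ring

theorem mean_const {M : (ℤ → ℂ) → ℂ} (hM : IsMean M) (c : ℂ) : M (fun _ => c) = c := by
  have h := hM.smul c (fun _ => 1) (bdd_const 1)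
  rw [hM.one] at h
  simpa using h

theorem mean_sum {M : (ℤ → ℂ) → ℂ} (hM : IsMean M) {ι : Type} (s : Finset ι) (f : ι → ℤ → ℂ)
    (hf : ∀ i ∈ s, Bdd (f i)) : M (fun n => ∑ i ∈ s, f i n) = ∑ i ∈ s, M (f i) := by
  classical
  induction s using Finset.induction_on with
  | empty => simpa using mean_zero hM
  | insert a s ha ih =>
    have h1 := hM.add (f a) (fun n => ∑ i ∈ s, f i n) (hf a (Finset.mem_insert_self a s))
      (Bdd.sum s fun i hi => hf i (Finset.mem_insert_of_mem hi))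
    rw [ih fun i hi => hf i (Finset.mem_insert_of_mem hi)] at h1
    rw [Finset.sum_insert ha, ← h1]
    congr 1
    funext n
    rw [Finset.sum_insert ha]

private theorem bdd_real {f : ℤ → ℝ} {C : ℝ} (hf : ∀ n, |f n| ≤ C) :
    Bdd fun n => (f n : ℂ) := ⟨C, fun n => by
  rw [Complex.norm_real, Real.norm_eq_abs]; exact hf n⟩

theorem mean_im {M : (ℤ → ℂ) → ℂ} (hM : IsMean M) {f : ℤ → ℝ} {C : ℝ} (hf : ∀ n, |f n| ≤ C) :
    (M fun n => (f n : ℂ)).im = 0 := by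
  have hb := bdd_real hf
  have key : ∀ t : ℝ, (M fun n => (f n : ℂ)).im ^ 2 + 2 * (M fun n => (f n : ℂ)).im * t ≤ C ^ 2 := by
    intro t
    have h1 := hM.add (fun n => (f n : ℂ)) (fun _ => (t : ℂ) * Complex.I) hb (bdd_const _)
    rw [mean_const hM] at h1
    have h2 : ∀ n : ℤ, ‖(f n : ℂ) + (t : ℂ) * Complex.I‖ ≤ Real.sqrt (C ^ 2 + t ^ 2) := by
      intro n
      apply Real.le_sqrt_of_sq_le
      rw [← Complex.normSq_eq_norm_sq, Complex.normSq_add_mul_I]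
      have := sq_le_sq' (by linarith [neg_le_of_abs_le (hf n), abs_nonneg (f n)] : -C ≤ f n)
        (le_of_abs_le (hf n))
      linarith
    have h3 := hM.le _ _ h2
    rw [h1] at h3
    have h4 : ‖(M fun n => (f n : ℂ)) + (t : ℂ) * Complex.I‖ ^ 2 ≤ C ^ 2 + t ^ 2 := by
      have h5 : (0 : ℝ) ≤ C ^ 2 + t ^ 2 := by positivity
      calc ‖(M fun n => (f n : ℂ)) + (t : ℂ) * Complex.I‖ ^ 2
          ≤ Real.sqrt (C ^ 2 + t ^ 2) ^ 2 := pow_le_pow_left₀ (norm_nonneg _) h3 2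
        _ = C ^ 2 + t ^ 2 := Real.sq_sqrt h5
    rw [← Complex.normSq_eq_norm_sq, Complex.normSq_apply] at h4
    simp only [Complex.add_re, Complex.add_im, Complex.mul_re, Complex.mul_im, Complex.ofReal_re,
      Complex.ofReal_im, Complex.I_re, Complex.I_im, mul_zero, mul_one, zero_mul, sub_zero,
      add_zero] at h4
    nlinarith [sq_nonneg (M fun n => (f n : ℂ)).re]
  by_contra hne
  have h := key ((C ^ 2 + 1) / (2 * (M fun n => (f n : ℂ)).im))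
  have e : 2 * (M fun n => (f n : ℂ)).im * ((C ^ 2 + 1) / (2 * (M fun n => (f n : ℂ)).im))
      = C ^ 2 + 1 := by
    field_simp
  rw [e] at h
  nlinarith [sq_nonneg (M fun n => (f n : ℂ)).im]

theorem mean_ofReal {M : (ℤ → ℂ) → ℂ} (hM : IsMean M) {f : ℤ → ℝ} {C : ℝ}
    (hf : ∀ n, |f n| ≤ C) : (M fun n => (f n : ℂ)) = (mr M f : ℂ) := by
  apply Complex.ext
  · simp [mr]
  · rw [mean_im hM hf]; simp

theorem mr_nonneg {M : (ℤ → ℂ) → ℂ} (hM : IsMean M) {f : ℤ → ℝ} {C : ℝ} (hf : ∀ n, f n ≤ C)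
    (h0 : ∀ n, 0 ≤ f n) : 0 ≤ mr M f := by
  have hb : Bdd fun n => (f n : ℂ) := bdd_real (C := C) fun n => by
    rw [abs_of_nonneg (h0 n)]; exact hf n
  have h1 := mean_sub hM (bdd_const ((C / 2 : ℝ) : ℂ)) hb
  rw [mean_const hM] at h1
  have h2 : ∀ n : ℤ, ‖((C / 2 : ℝ) : ℂ) - (f n : ℂ)‖ ≤ C / 2 := by
    intro n
    rw [← Complex.ofReal_sub, Complex.norm_real, Real.norm_eq_abs, abs_le]
    constructor <;> linarith [hf n, h0 n]
  have h3 := hM.le _ _ h2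
  rw [h1] at h3
  have h4 := (Complex.re_le_norm _).trans h3
  rw [Complex.sub_re, Complex.ofReal_re] at h4
  unfold mr
  linarith

theorem mr_add {M : (ℤ → ℂ) → ℂ} (hM : IsMean M) {f g : ℤ → ℝ} {C D : ℝ} (hf : ∀ n, |f n| ≤ C)
    (hg : ∀ n, |g n| ≤ D) : mr M (fun n => f n + g n) = mr M f + mr M g := by
  unfold mr
  rw [← Complex.add_re, ← hM.add _ _ (bdd_real hf) (bdd_real hg)]
  congr 2
  funext n
  push_cast
  rfl

theorem mr_mul {M : (ℤ → ℂ) → ℂ} (hM : IsMean M) (c : ℝ) {f : ℤ → ℝ} {C : ℝ}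
    (hf : ∀ n, |f n| ≤ C) : mr M (fun n => c * f n) = c * mr M f := by
  unfold mr
  rw [← Complex.re_ofReal_mul, ← hM.smul _ _ (bdd_real hf)]
  congr 2
  funext n
  push_cast
  rfl

theorem mr_const {M : (ℤ → ℂ) → ℂ} (hM : IsMean M) (c : ℝ) : mr M (fun _ => c) = c := by
  unfold mr
  rw [mean_const hM]
  simp

theorem mr_mono {M : (ℤ → ℂ) → ℂ} (hM : IsMean M) {f g : ℤ → ℝ} {C D : ℝ} (hf : ∀ n, |f n| ≤ C)
    (hg : ∀ n, |g n| ≤ D) (h : ∀ n, f n ≤ g n) : mr M f ≤ mr M g := by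
  have hf' : ∀ n, |(-1) * f n| ≤ C := fun n => by
    rw [abs_mul]; simpa using hf n
  have h1 := mr_nonneg hM (f := fun n => g n + (-1) * f n) (C := D + C)
    (fun n => by
      have a := le_of_abs_le (hg n)
      have b := neg_le_of_abs_le (hf n)
      show g n + (-1) * f n ≤ D + C
      linarith)
    (fun n => by
      show 0 ≤ g n + (-1) * f n
      linarith [h n])
  rw [mr_add hM hg hf', mr_mul hM (-1) hf] at h1
  linarith

theorem mr_sum {M : (ℤ → ℂ) → ℂ} (hM : IsMean M) {ι : Type} (s : Finset ι) (f : ι → ℤ → ℝ)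
    {C : ℝ} (hf : ∀ i ∈ s, ∀ n, |f i n| ≤ C) :
    mr M (fun n => ∑ i ∈ s, f i n) = ∑ i ∈ s, mr M (f i) := by
  have h := mean_sum hM s (fun i n => (f i n : ℂ)) fun i hi => bdd_real (hf i hi)
  unfold mr
  rw [← Complex.re_sum, ← h]
  congr 2
  funext n
  push_cast
  rfl

theorem mr_shift {M : (ℤ → ℂ) → ℂ} (hM : IsMean M) {f : ℤ → ℝ} {C : ℝ} (hf : ∀ n, |f n| ≤ C)
    (s : ℤ) : mr M (fun n => f (n + s)) = mr M f := by
  unfold mr
  rw [← hM.shift _ (bdd_real hf) s]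

theorem norm_mean_le {M : (ℤ → ℂ) → ℂ} (hM : IsMean M) {f : ℤ → ℂ} (hf : Bdd f) :
    ‖M f‖ ≤ mr M fun n => ‖f n‖ := by
  obtain ⟨C, hC⟩ := hf
  have hf : Bdd f := ⟨C, hC⟩
  have hnb : ∀ n, |‖f n‖| ≤ C := fun n => by rw [abs_of_nonneg (norm_nonneg _)]; exact hC n
  obtain ⟨u, hu1, hu2⟩ : ∃ u : ℂ, ‖u‖ = 1 ∧ u * M f = (‖M f‖ : ℂ) := by
    by_cases h0 : M f = 0
    · exact ⟨1, by simp, by simp [h0]⟩
    · have hn : (‖M f‖ : ℂ) ≠ 0 := by exact_mod_cast (norm_ne_zero_iff.mpr h0)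
      refine ⟨(starRingEnd ℂ) (M f) / ‖M f‖, ?_, ?_⟩
      · rw [norm_div, Complex.norm_conj, Complex.norm_real, norm_norm]
        exact div_self (norm_ne_zero_iff.mpr h0)
      · rw [div_mul_eq_mul_div, div_eq_iff hn, mul_comm, Complex.mul_conj,
          Complex.normSq_eq_norm_sq]
        push_cast
        ring
  have hre : ∀ n, |(u * f n).re| ≤ C := fun n =>
    (Complex.abs_re_le_norm _).trans (by rw [norm_mul, hu1, one_mul]; exact hC n)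
  have him : ∀ n, |(u * f n).im| ≤ C := fun n =>
    (Complex.abs_im_le_norm _).trans (by rw [norm_mul, hu1, one_mul]; exact hC n)
  have h1 : M (fun n => u * f n) = (mr M fun n => (u * f n).re : ℂ) +
      Complex.I * (mr M fun n => (u * f n).im : ℂ) := by
    rw [← mean_ofReal hM hre, ← mean_ofReal hM him, ← hM.smul _ _ (bdd_real him),
      ← hM.add _ _ (bdd_real hre) ((bdd_real him).smul _)]
    congr 1
    funext n
    rw [mul_comm Complex.I]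
    exact (Complex.re_add_im _).symm
  rw [hM.smul u f hf, hu2] at h1
  have h2 := congrArg Complex.re h1
  simp only [Complex.add_re, Complex.mul_re, Complex.ofReal_re, Complex.ofReal_im, Complex.I_re,
    Complex.I_im, zero_mul, mul_zero, sub_zero, add_zero] at h2
  rw [h2]
  have h3 : ∀ n, (u * f n).re ≤ ‖f n‖ := fun n => by
    refine (Complex.re_le_norm _).trans ?_
    rw [norm_mul, hu1, one_mul]
  have h4 := mr_mono hM hre hnb h3
  simpa [Complex.mul_re] using h4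

theorem mean_cs {M : (ℤ → ℂ) → ℂ} (hM : IsMean M) {g Φ : ℤ → ℂ} (hg : ∀ n, ‖g n‖ ≤ 1)
    (hΦ : Bdd Φ) : ‖M fun n => g n * Φ n‖ ^ 2 ≤ mr M fun n => ‖Φ n‖ ^ 2 := by
  obtain ⟨C, hC⟩ := hΦ
  have hΦ : Bdd Φ := ⟨C, hC⟩
  have hC0 : 0 ≤ C := (norm_nonneg _).trans (hC 0)
  have hgb : Bdd g := ⟨1, hg⟩
  have hgΦ : ∀ n, ‖g n * Φ n‖ ≤ ‖Φ n‖ := fun n => by
    rw [norm_mul]
    exact mul_le_of_le_one_left (norm_nonneg _) (hg n)
  have hΦb : ∀ n, |‖Φ n‖| ≤ C := fun n => by rw [abs_of_nonneg (norm_nonneg _)]; exact hC n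
  have hΦ2 : ∀ n, |‖Φ n‖ ^ 2| ≤ C ^ 2 := fun n => by
    rw [abs_of_nonneg (by positivity)]
    exact pow_le_pow_left₀ (norm_nonneg _) (hC n) 2
  have h1 : ‖M fun n => g n * Φ n‖ ≤ mr M fun n => ‖Φ n‖ :=
    (norm_mean_le hM (hgb.mul hΦ)).trans (mr_mono hM (fun n => by
      rw [abs_of_nonneg (norm_nonneg _)]
      exact (hgΦ n).trans (hC n)) hΦb hgΦ)
  set a := mr M fun n => ‖Φ n‖ with ha
  have h2 : 0 ≤ mr M fun n => ‖Φ n‖ ^ 2 + ((-(2 * a)) * ‖Φ n‖ + a ^ 2) := by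
    refine mr_nonneg hM (C := C ^ 2 + (|2 * a| * C + a ^ 2)) (fun n => ?_) (fun n => ?_)
    · have e1 := pow_le_pow_left₀ (norm_nonneg _) (hC n) 2
      have e2 : -(2 * a) * ‖Φ n‖ ≤ |2 * a| * C := by
        calc -(2 * a) * ‖Φ n‖ ≤ |2 * a| * ‖Φ n‖ :=
              mul_le_mul_of_nonneg_right (neg_le_abs _) (norm_nonneg _)
          _ ≤ |2 * a| * C := mul_le_mul_of_nonneg_left (hC n) (abs_nonneg _)
      show ‖Φ n‖ ^ 2 + ((-(2 * a)) * ‖Φ n‖ + a ^ 2) ≤ _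
      linarith
    · show 0 ≤ ‖Φ n‖ ^ 2 + ((-(2 * a)) * ‖Φ n‖ + a ^ 2)
      nlinarith [sq_nonneg (‖Φ n‖ - a)]
  have hlin : ∀ n, |(-(2 * a)) * ‖Φ n‖| ≤ |2 * a| * C := fun n => by
    rw [abs_mul, abs_neg]
    exact mul_le_mul_of_nonneg_left (hΦb n) (abs_nonneg _)
  have hcst : ∀ n : ℤ, |(fun _ : ℤ => a ^ 2) n| ≤ a ^ 2 := fun n => by
    show |a ^ 2| ≤ a ^ 2
    rw [abs_of_nonneg (by positivity)]
  have hsum : ∀ n, |(-(2 * a)) * ‖Φ n‖ + a ^ 2| ≤ |2 * a| * C + a ^ 2 := fun n =>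
    (abs_add_le _ _).trans (add_le_add (hlin n) (hcst n))
  rw [mr_add hM hΦ2 hsum, mr_add hM hlin hcst, mr_mul hM _ hΦb, mr_const hM, ← ha] at h2
  calc ‖M fun n => g n * Φ n‖ ^ 2 ≤ a ^ 2 := pow_le_pow_left₀ (norm_nonneg _) h1 2
    _ ≤ _ := by nlinarith

end Pool.Agent.Work.MP_58cfe3_nt
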