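import Pool.Agent.Work.MP_58cfe3_nt.ElogA

/-!
# Module MeanEx (size M): existence of means

PROOF. `h` gives `ε > 0` with `∃ᶠ X in atTop, ε ≤ ‖Elog F X‖`, so the filter
`atTop ⊓ 𝓟 {X | ε ≤ ‖Elog F X‖}` is `NeBot`; let `𝒰` be an ultrafilter below it. For bounded `f` with
bound `C` the map `Elog f` has values in the compact ball of radius `C` (`elog_le`), so
`𝒰.map (Elog f)` converges to some point (`IsCompact.ultrafilter_le_nhds`); define `M f` by choice
(`if h : ∃ a, Tendsto (Elog f) 𝒰 (𝓝 a) then h.choose else 0`), so `Tendsto (Elog f) 𝒰 (𝓝 (M f))` for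
all bounded `f`. All properties follow by uniqueness of limits from `ElogA` (`𝒰 ≤ atTop`);
`‖M F‖ ≥ ε`.
-/

set_option autoImplicit false

namespace Pool.Agent.Work.MP_58cfe3_nt

open Filter Topology

/-- the limit along the ultrafilter -/
private noncomputable def LM (U : Ultrafilter ℕ) (f : ℤ → ℂ) : ℂ :=
  open Classical in
  if h : ∃ a, Tendsto (Elog f) U (𝓝 a) then h.choose else 0

private theorem LM_tendsto (U : Ultrafilter ℕ) {f : ℤ → ℂ} (hf : Bdd f) :
    Tendsto (Elog f) U (𝓝 (LM U f)) := by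
  obtain ⟨C, hC⟩ := hf
  have h1 : ∃ a, Tendsto (Elog f) U (𝓝 a) := by
    obtain ⟨a, _, ha⟩ := (isCompact_closedBall (0 : ℂ) C).ultrafilter_le_nhds' (U.map (Elog f))
      (by
        rw [Ultrafilter.mem_map]
        refine Filter.mem_of_superset Filter.univ_mem fun X _ => ?_
        rw [Set.mem_preimage, mem_closedBall_zero_iff]
        exact elog_le hC X)
    exact ⟨a, ha⟩
  rw [LM, dif_pos h1]
  exact h1.choose_spec

private theorem LM_unique (U : Ultrafilter ℕ) {f : ℤ → ℂ} (hf : Bdd f) {a : ℂ}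
    (h : Tendsto (Elog f) U (𝓝 a)) : LM U f = a :=
  tendsto_nhds_unique (LM_tendsto U hf) h

private theorem LM_eq (U : Ultrafilter ℕ) (hU : (U : Filter ℕ) ≤ atTop) {f g : ℤ → ℂ}
    (hf : Bdd f) (hg : Bdd g)
    (h : Tendsto (fun X : ℕ => Elog f X - Elog g X) atTop (𝓝 0)) : LM U f = LM U g := by
  refine LM_unique U hf ?_
  have h1 := (h.mono_left hU).add (LM_tendsto U hg)
  rw [zero_add] at h1
  exact h1.congr fun X => sub_add_cancel _ _

private theorem LM_isMean (U : Ultrafilter ℕ) (hU : (U : Filter ℕ) ≤ atTop) : IsMean (LM U) where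
  add f g hf hg := by
    refine LM_unique U (hf.add hg) ?_
    exact ((LM_tendsto U hf).add (LM_tendsto U hg)).congr fun X => (elog_add f g X).symm
  smul c f hf := by
    refine LM_unique U (hf.smul c) ?_
    exact ((LM_tendsto U hf).const_mul c).congr fun X => (elog_smul c f X).symm
  le f C h := by
    refine le_of_tendsto (LM_tendsto U (bdd_of_le h)).norm ?_
    exact Eventually.of_forall fun X => elog_le h X
  one := by
    refine LM_unique U (bdd_const 1) ?_
    refine (tendsto_const_nhds (x := (1 : ℂ))).congr' ?_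
    have h1 : ∀ᶠ X in (U : Filter ℕ), 1 ≤ X := hU (eventually_ge_atTop 1)
    exact h1.mono fun X hX => (elog_one hX).symm
  shift f hf s := LM_eq U hU (hf.shift fun n => n + s) hf (elog_shift hf s)
  dil f hf q hq := by
    refine LM_eq U hU (Bdd.ite (fun n => (q : ℤ) ∣ n) (hf.smul (q : ℂ)) (bdd_const 0))
      (hf.shift fun n => q * n) (elog_dil hf hq)

theorem exists_mean {F : ℤ → ℂ} (hF : Bdd F) (h : ¬ Tendsto (Elog F) atTop (𝓝 0)) :
    ∃ M : (ℤ → ℂ) → ℂ, IsMean M ∧ M F ≠ 0 ∧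
      ∀ f, Bdd f → Tendsto (Elog f) atTop (𝓝 0) → M f = 0 := by
  obtain ⟨ε, hε, hfr⟩ : ∃ ε : ℝ, 0 < ε ∧ ∃ᶠ X in (atTop : Filter ℕ), ε ≤ ‖Elog F X‖ := by
    by_contra hcon
    refine h ?_
    rw [Metric.tendsto_nhds]
    intro ε hε
    by_contra h1
    refine hcon ⟨ε, hε, ?_⟩
    rw [Filter.not_eventually] at h1
    refine h1.mono fun X hX => ?_
    rw [dist_zero_right, not_lt] at hX
    exact hX
  have hne : ((atTop : Filter ℕ) ⊓ 𝓟 {X | ε ≤ ‖Elog F X‖}).NeBot := by
    rw [← Filter.frequently_mem_iff_neBot]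
    exact hfr
  let U : Ultrafilter ℕ := Ultrafilter.of ((atTop : Filter ℕ) ⊓ 𝓟 {X | ε ≤ ‖Elog F X‖})
  have hU0 : (U : Filter ℕ) ≤ (atTop : Filter ℕ) ⊓ 𝓟 {X | ε ≤ ‖Elog F X‖} := Ultrafilter.of_le _
  have hU : (U : Filter ℕ) ≤ atTop := hU0.trans inf_le_left
  refine ⟨LM U, LM_isMean U hU, ?_, ?_⟩
  · have h1 : ε ≤ ‖LM U F‖ := by
      refine ge_of_tendsto (LM_tendsto U hF).norm ?_
      have h2 : {X | ε ≤ ‖Elog F X‖} ∈ (U : Filter ℕ) :=
        (hU0.trans inf_le_right) (Filter.mem_principal_self _)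
      exact h2
    intro h2
    rw [h2, norm_zero] at h1
    linarith
  · intro f hf hlim
    exact LM_unique U hf (hlim.mono_left hU)

end Pool.Agent.Work.MP_58cfe3_nt
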