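import Pool.Agent.Work.MP_58cfe3_nt.MeanA

/-!
# Module Per (size M): products of periodic functions with coprime periods

PROOFS. `mean_mul_per`: put `f` bounded, `φ` periodic mod `p`, `f` periodic mod `m`, `p` and `m` coprime.
By `shift`, for every `k`, `M (φ f) = M (φ(· + m k) f(· + m k)) = M (φ(· + m k) f)`. Average over
`k < p`: `p M (φ f) = M ((∑_{k<p} φ(n + m k)) f(n))` and `∑_{k<p} φ(n + m k) = ∑_{a<p} φ(a)` for every
`n` because `k ↦ n + m k` is a bijection onto the residues mod `p` (`p`, `m` coprime).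
`mean_prod_per`: induction on `P` with `mean_mul_per` (period of the product over `P`: `∏_{p ∈ P} p`).
`mean_dvd`: `φ a = if (p:ℤ) ∣ a then 1 else 0` (period `p`, sum over `range p` equal to `1`); the mean is
`1/p`, also for `p ∣ n + s` by `shift`.
-/

set_option autoImplicit false

namespace Pool.Agent.Work.MP_58cfe3_nt

open Filter Topology

private theorem per_mul {f : ℤ → ℂ} {m : ℕ} (hf : ∀ n, f (n + m) = f n) (k : ℕ) (n : ℤ) :
    f (n + m * k) = f n := by
  induction k with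
  | zero => simp
  | succ k ih =>
    have : n + (m : ℤ) * ((k + 1 : ℕ) : ℤ) = (n + m * k) + m := by push_cast; ring
    rw [this, hf, ih]

private theorem per_emod {f : ℤ → ℂ} {p : ℕ} (hf : ∀ n, f (n + p) = f n) (n : ℤ) :
    f n = f (n % p) := by
  have h : ∀ z : ℤ, ∀ n : ℤ, f (n + p * z) = f n := by
    intro z n
    obtain ⟨k, rfl | rfl⟩ := Int.eq_nat_or_neg z
    · exact per_mul hf k n
    · have := per_mul hf k (n + p * (-(k : ℤ)))
      rw [← this]
      congr 1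
      ring
  conv_lhs => rw [← Int.emod_add_mul_ediv n p]
  exact h _ _

private theorem per_bdd {f : ℤ → ℂ} {p : ℕ} (hp : 0 < p) (hf : ∀ n, f (n + p) = f n) : Bdd f := by
  refine ⟨∑ a ∈ Finset.range p, ‖f a‖, fun n => ?_⟩
  rw [per_emod hf n]
  have h0 : 0 ≤ n % (p : ℤ) := Int.emod_nonneg _ (by positivity)
  have h1 : n % (p : ℤ) < p := Int.emod_lt_of_pos _ (by positivity)
  obtain ⟨a, ha⟩ := Int.eq_ofNat_of_zero_le h0
  rw [ha] at h1 ⊢
  exact Finset.single_le_sum (f := fun a : ℕ => ‖f a‖) (fun _ _ => norm_nonneg _)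
    (Finset.mem_range.2 (by exact_mod_cast h1))

private theorem per_sum {φ : ℤ → ℂ} {p m : ℕ} (hp : 0 < p) (hpm : p.Coprime m)
    (hφ : ∀ n, φ (n + p) = φ n) (n : ℤ) :
    ∑ k ∈ Finset.range p, φ (n + m * k) = ∑ a ∈ Finset.range p, φ a := by
  have : NeZero p := ⟨hp.ne'⟩
  let ψ : ZMod p → ℂ := fun z => φ (z.val : ℤ)
  have hψ : ∀ n : ℤ, φ n = ψ (n : ZMod p) := by
    intro n
    show φ n = φ ((((n : ZMod p)).val : ℕ) : ℤ)
    rw [ZMod.val_intCast, ← per_emod hφ]
  have hrange : ∀ g : ZMod p → ℂ, ∑ k ∈ Finset.range p, g (k : ZMod p) = ∑ z : ZMod p, g z := by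
    intro g
    refine Finset.sum_bij (fun k _ => (k : ZMod p)) (fun _ _ => Finset.mem_univ _) ?_ ?_
      (fun _ _ => rfl)
    · intro a ha b hb hab
      have := (ZMod.natCast_eq_natCast_iff' a b p).1 hab
      rwa [Nat.mod_eq_of_lt (Finset.mem_range.1 ha), Nat.mod_eq_of_lt (Finset.mem_range.1 hb)] at this
    · intro z _
      exact ⟨z.val, Finset.mem_range.2 (ZMod.val_lt z), ZMod.natCast_zmod_val z⟩
  have hu : IsUnit (m : ZMod p) := (ZMod.isUnit_iff_coprime m p).2 hpm.symm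
  have e1 : ∑ k ∈ Finset.range p, φ (n + m * k) =
      ∑ k ∈ Finset.range p, ψ ((n : ZMod p) + (m : ZMod p) * (k : ZMod p)) := by
    refine Finset.sum_congr rfl fun k _ => ?_
    rw [hψ]
    push_cast
    rfl
  have e2 : ∑ a ∈ Finset.range p, φ a = ∑ a ∈ Finset.range p, ψ (a : ZMod p) := by
    refine Finset.sum_congr rfl fun k _ => ?_
    rw [hψ]
    push_cast
    rfl
  rw [e1, e2, hrange (fun z => ψ ((n : ZMod p) + (m : ZMod p) * z)), hrange ψ]
  obtain ⟨u, hu⟩ := hu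
  rw [← hu]
  exact Fintype.sum_equiv ((Units.mulLeft u).trans (Equiv.addLeft (n : ZMod p))) _ _
    (fun z => rfl)

theorem mean_mul_per {M : (ℤ → ℂ) → ℂ} (hM : IsMean M) {p m : ℕ} (hp : 0 < p) (hpm : p.Coprime m)
    {φ f : ℤ → ℂ} (hφ : ∀ n, φ (n + p) = φ n) (hf : Bdd f) (hfm : ∀ n, f (n + m) = f n) :
    M (fun n => φ n * f n) = ((∑ a ∈ Finset.range p, φ a) / p) * M f := by
  have hφb : Bdd φ := per_bdd hp hφ
  have h1 : ∀ k : ℕ, M (fun n => φ (n + m * k) * f n) = M (fun n => φ n * f n) := by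
    intro k
    rw [← hM.shift (fun n => φ n * f n) (hφb.mul hf) (m * k)]
    congr 1
    funext n
    rw [per_mul hfm]
  have h2 : M (fun n => ∑ k ∈ Finset.range p, φ (n + m * k) * f n) =
      ∑ k ∈ Finset.range p, M (fun n => φ (n + m * k) * f n) :=
    mean_sum hM (Finset.range p) (fun k n => φ (n + m * k) * f n)
      (fun k _ => (hφb.shift fun n => n + m * k).mul hf)
  have h3 : M (fun n => ∑ k ∈ Finset.range p, φ (n + m * k) * f n) =
      (∑ a ∈ Finset.range p, φ a) * M f := by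
    rw [← hM.smul _ f hf]
    congr 1
    funext n
    rw [← Finset.sum_mul, per_sum hp hpm hφ]
  rw [h3, Finset.sum_congr rfl fun k _ => h1 k, Finset.sum_const, Finset.card_range,
    nsmul_eq_mul] at h2
  have hp' : (p : ℂ) ≠ 0 := by exact_mod_cast hp.ne'
  field_simp
  linear_combination -h2

theorem mean_prod_per {M : (ℤ → ℂ) → ℂ} (hM : IsMean M) (P : Finset ℕ) (hP : ∀ p ∈ P, 0 < p)
    (hco : ∀ p ∈ P, ∀ p' ∈ P, p ≠ p' → p.Coprime p') (φ : ℕ → ℤ → ℂ)
    (hφ : ∀ p ∈ P, ∀ n, φ p (n + p) = φ p n) :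
    M (fun n => ∏ p ∈ P, φ p n) = ∏ p ∈ P, ((∑ a ∈ Finset.range p, φ p a) / p) := by
  induction P using Finset.induction_on with
  | empty => simpa using hM.one
  | insert q P hq ih =>
    have hPq := hP q (Finset.mem_insert_self _ _)
    have hP' : ∀ p ∈ P, 0 < p := fun p hp => hP p (Finset.mem_insert_of_mem hp)
    have hφ' : ∀ p ∈ P, ∀ n, φ p (n + p) = φ p n := fun p hp => hφ p (Finset.mem_insert_of_mem hp)
    rw [Finset.prod_insert hq, ← ih hP'
      (fun p hp p' hp' => hco p (Finset.mem_insert_of_mem hp) p' (Finset.mem_insert_of_mem hp')) hφ']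
    have hcop : q.Coprime (∏ p ∈ P, p) := by
      refine Nat.Coprime.prod_right fun p hp => hco q (Finset.mem_insert_self _ _) p
        (Finset.mem_insert_of_mem hp) ?_
      rintro rfl
      exact hq hp
    have := mean_mul_per hM hPq hcop (φ := φ q) (f := fun n => ∏ p ∈ P, φ p n)
      (hφ q (Finset.mem_insert_self _ _))
      (Bdd.prod P fun p hp => per_bdd (hP' p hp) (hφ' p hp)) (by
        intro n
        refine Finset.prod_congr rfl fun p hp => ?_
        obtain ⟨k, hk⟩ := Finset.dvd_prod_of_mem (fun p : ℕ => p) hp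
        rw [hk]
        push_cast
        exact per_mul (hφ' p hp) k n)
    rw [← this]
    congr 1
    funext n
    rw [Finset.prod_insert hq]

theorem mr_prod_per {M : (ℤ → ℂ) → ℂ} (hM : IsMean M) (P : Finset ℕ) (hP : ∀ p ∈ P, 0 < p)
    (hco : ∀ p ∈ P, ∀ p' ∈ P, p ≠ p' → p.Coprime p') (φ : ℕ → ℤ → ℝ)
    (hφ : ∀ p ∈ P, ∀ n, φ p (n + p) = φ p n) :
    mr M (fun n => ∏ p ∈ P, φ p n) = ∏ p ∈ P, ((∑ a ∈ Finset.range p, φ p a) / p) := by
  have h := mean_prod_per hM P hP hco (fun p n => (φ p n : ℂ)) (fun p hp n => by rw [hφ p hp n])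
  unfold mr
  have e : (fun n : ℤ => ((∏ p ∈ P, φ p n : ℝ) : ℂ)) = fun n => ∏ p ∈ P, (φ p n : ℂ) := by
    funext n
    push_cast
    rfl
  rw [e, h]
  have e2 : (∏ p ∈ P, ((∑ a ∈ Finset.range p, (φ p a : ℂ)) / p)) =
      ((∏ p ∈ P, ((∑ a ∈ Finset.range p, φ p a) / p) : ℝ) : ℂ) := by
    push_cast
    rfl
  rw [e2, Complex.ofReal_re]

theorem mean_dvd {M : (ℤ → ℂ) → ℂ} (hM : IsMean M) {p : ℕ} (hp : 0 < p) (s : ℤ) :
    M (fun n => if (p : ℤ) ∣ n + s then 1 else 0) = 1 / p := by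
  have hper : ∀ n : ℤ, (if (p : ℤ) ∣ n + p then (1 : ℂ) else 0) = if (p : ℤ) ∣ n then 1 else 0 := by
    intro n
    simp
  have h := mean_mul_per hM hp (Nat.coprime_one_right p) (φ := fun n => if (p : ℤ) ∣ n then 1 else 0)
    (f := fun _ => 1) hper (bdd_const 1) (fun _ => rfl)
  rw [hM.one] at h
  have hsum : (∑ a ∈ Finset.range p, if (p : ℤ) ∣ (a : ℤ) then (1 : ℂ) else 0) = 1 := by
    rw [Finset.sum_eq_single 0]
    · simp
    · intro b hb hb0
      rw [if_neg]
      intro hd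
      have : p ∣ b := by exact_mod_cast hd
      exact absurd (Nat.le_of_dvd (Nat.pos_of_ne_zero hb0) this) (by
        have := Finset.mem_range.1 hb
        omega)
    · intro h0
      exact absurd (Finset.mem_range.2 hp) h0
  have h2 := hM.shift (fun n => if (p : ℤ) ∣ n then 1 else 0)
    (Bdd.ite (fun n : ℤ => (p : ℤ) ∣ n) (bdd_const 1) (bdd_const 0)) s
  rw [h2]
  simp only [mul_one] at h
  rw [h, hsum]

theorem mr_dvd {M : (ℤ → ℂ) → ℂ} (hM : IsMean M) {p : ℕ} (hp : 0 < p) (s : ℤ) :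
    mr M (fun n => if (p : ℤ) ∣ n + s then 1 else 0) = 1 / p := by
  unfold mr
  have e : (fun n : ℤ => (((if (p : ℤ) ∣ n + s then 1 else 0 : ℝ)) : ℂ)) =
      fun n => if (p : ℤ) ∣ n + s then 1 else 0 := by
    funext n
    split_ifs <;> simp
  rw [e, mean_dvd hM hp s]
  have : ((1 : ℂ) / p) = ((1 / p : ℝ) : ℂ) := by push_cast; rfl
  rw [this, Complex.ofReal_re]

end Pool.Agent.Work.MP_58cfe3_nt
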