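import Pool.Agent.Work.MP_58cfe3_nt.Basic
import Pool.Agent.Work.MP_58cfe3_nt.RDefs

/-!
# Module RBC (size M): from a second moment bound to almost sure convergence

PROOF. Choose a natural `K` with `K c ≥ 2` and `X_i = ⌈exp (i^K)⌉₊`. Then `log X_i ≥ i^K`, so
`∑_i ∫ ‖Elog (F ω) X_i‖² ≤ C ∑ i^(-K c) < ∞` (from some `i` on; `C ≥ 0` may be assumed); hence for almost every `ω`,
`∑_i ‖Elog (F ω) X_i‖² < ∞` (`lintegral_tsum`, `ae_lt_top'`, or `hasSum`/`MeasureTheory.summable..`), in particular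
`Elog (F ω) X_i → 0`.
Interpolation (`ω` fixed): for `1 ≤ X ≤ X'`: `‖Elog f X - Elog f X'‖ ≤ 2 (1 - hs X/hs X')` for `‖f‖ ≤ 1`
(`Elog f X' - Elog f X = (1/S' - 1/S) ∑_{n ≤ X} + (1/S') ∑_{X < n ≤ X'}`). For `X_i ≤ X ≤ X_{i+1}`:
`hs X / hs X_{i+1} ≥ hs X_i/hs X_{i+1} ≥ i^K/(1 + log X_{i+1}) ≥ i^K/((i+1)^K + 2) → 1`
(`log (m+1) ≤ hs m ≤ 1 + log m`, `log ⌈y⌉ ≤ log y + 1`). So `Elog (F ω) X → 0`.
-/

set_option autoImplicit false

namespace Pool.Agent.Work.MP_58cfe3_nt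

open Filter Topology MeasureTheory ProbabilityTheory

private theorem hs_harm (X : ℕ) : hs X = ((harmonic X : ℚ) : ℝ) := by
  unfold hs
  rw [harmonic_eq_sum_Icc]
  push_cast
  exact Finset.sum_congr rfl fun n _ => one_div _

private theorem hs_le (X : ℕ) : hs X ≤ 1 + Real.log X := by
  rw [hs_harm]
  exact harmonic_le_one_add_log X

private theorem log_le_hs {X : ℕ} (hX : 1 ≤ X) : Real.log X ≤ hs X := by
  rw [hs_harm]
  refine le_trans ?_ (log_add_one_le_harmonic X)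
  have h1 : (0 : ℝ) < X := by exact_mod_cast hX
  exact Real.log_le_log h1 (by push_cast; linarith)

private theorem hs_pos {X : ℕ} (hX : 1 ≤ X) : 0 < hs X := by
  unfold hs
  refine Finset.sum_pos (fun n hn => ?_) ⟨1, Finset.mem_Icc.2 ⟨le_rfl, hX⟩⟩
  have : 1 ≤ n := (Finset.mem_Icc.1 hn).1
  positivity

private theorem hs_eq (X : ℕ) : ∑ n ∈ Finset.Icc 1 X, (1 / n : ℂ) = ((hs X : ℝ) : ℂ) := by
  unfold hs
  push_cast
  rfl

private theorem norm_sum_le_hs {f : ℤ → ℂ} (hf : ∀ n, ‖f n‖ ≤ 1) (s : Finset ℕ) :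
    ‖∑ n ∈ s, f n / n‖ ≤ ∑ n ∈ s, (1 / n : ℝ) := by
  refine (norm_sum_le _ _).trans (Finset.sum_le_sum fun n _ => ?_)
  rw [norm_div, Complex.norm_natCast]
  exact div_le_div_of_nonneg_right (hf n) (Nat.cast_nonneg n)

private theorem norm_Elog_le {f : ℤ → ℂ} (hf : ∀ n, ‖f n‖ ≤ 1) (X : ℕ) : ‖Elog f X‖ ≤ 1 := by
  unfold Elog
  rw [hs_eq, norm_div, Complex.norm_real, Real.norm_eq_abs]
  have h0 : 0 ≤ hs X := Finset.sum_nonneg fun n _ => by positivity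
  rw [abs_of_nonneg h0]
  exact div_le_one_of_le₀ (norm_sum_le_hs hf _) h0

/-- interpolation -/
private theorem interp {f : ℤ → ℂ} (hf : ∀ n, ‖f n‖ ≤ 1) {X X' : ℕ} (hX : 1 ≤ X) (h : X ≤ X') :
    ‖Elog f X'‖ ≤ ‖Elog f X‖ + 2 * (1 - hs X / hs X') := by
  have hS := hs_pos hX
  have hS' := hs_pos (hX.trans h)
  obtain ⟨A, hA⟩ : ∃ A : ℂ, A = ∑ n ∈ Finset.Icc 1 X, f n / n := ⟨_, rfl⟩
  obtain ⟨R, hR⟩ : ∃ R : ℂ, R = ∑ n ∈ Finset.Icc 1 X' \ Finset.Icc 1 X, f n / n := ⟨_, rfl⟩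
  have hsub : Finset.Icc 1 X ⊆ Finset.Icc 1 X' := Finset.Icc_subset_Icc_right h
  have hAR : ∑ n ∈ Finset.Icc 1 X', f n / n = R + A := by
    rw [hA, hR, Finset.sum_sdiff hsub]
  have hss : hs X' = ∑ n ∈ Finset.Icc 1 X' \ Finset.Icc 1 X, (1 / n : ℝ) + hs X := by
    unfold hs
    rw [Finset.sum_sdiff hsub]
  have hA1 : ‖A‖ ≤ hs X := by
    rw [hA]
    exact norm_sum_le_hs hf _
  have hR1 : ‖R‖ ≤ hs X' - hs X := by
    rw [hR, hss, add_sub_cancel_right]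
    exact norm_sum_le_hs hf _
  have e1 : Elog f X = A / ((hs X : ℝ) : ℂ) := by
    unfold Elog
    rw [hs_eq, hA]
  have e2 : Elog f X' = (R + A) / ((hs X' : ℝ) : ℂ) := by
    unfold Elog
    rw [hs_eq, hAR]
  have hle : hs X ≤ hs X' := by
    have := norm_nonneg R
    linarith
  have n1 : ‖Elog f X‖ = ‖A‖ / hs X := by
    rw [e1, norm_div, Complex.norm_real, Real.norm_eq_abs, abs_of_pos hS]
  have n2 : ‖Elog f X'‖ ≤ (hs X' - hs X + ‖A‖) / hs X' := by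
    rw [e2, norm_div, Complex.norm_real, Real.norm_eq_abs, abs_of_pos hS']
    refine div_le_div_of_nonneg_right ((norm_add_le _ _).trans ?_) hS'.le
    linarith
  have h3 : ‖A‖ / hs X' ≤ ‖A‖ / hs X := div_le_div_of_nonneg_left (norm_nonneg _) hS hle
  have h4 : (hs X' - hs X + ‖A‖) / hs X' = (1 - hs X / hs X') + ‖A‖ / hs X' := by
    field_simp
  have h5 : 0 ≤ 1 - hs X / hs X' := by
    have := (div_le_one hS').2 hle
    linarith
  rw [h4] at n2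
  linarith

private theorem ratio_tendsto {K : ℕ} (hK : 0 < K) :
    Tendsto (fun i : ℕ => 2 * (1 - (i : ℝ) ^ K / (1 + ((i : ℝ) + 1) ^ K))) atTop (𝓝 0) := by
  have h1 : Tendsto (fun i : ℕ => ((i : ℝ) ^ K)⁻¹) atTop (𝓝 0) :=
    tendsto_inv_atTop_zero.comp ((tendsto_pow_atTop hK.ne').comp tendsto_natCast_atTop_atTop)
  have h2 : Tendsto (fun i : ℕ => (1 + (i : ℝ)⁻¹) ^ K) atTop (𝓝 ((1 + 0) ^ K)) :=
    (tendsto_const_nhds.add (tendsto_inv_atTop_zero.comp tendsto_natCast_atTop_atTop)).pow K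
  have h3 : Tendsto (fun i : ℕ => 2 * (1 - 1 / (((i : ℝ) ^ K)⁻¹ + (1 + (i : ℝ)⁻¹) ^ K))) atTop
      (𝓝 (2 * (1 - 1 / (0 + (1 + 0) ^ K)))) := by
    refine tendsto_const_nhds.mul (tendsto_const_nhds.sub (tendsto_const_nhds.div (h1.add h2) ?_))
    norm_num
  have h4 : (2 * (1 - 1 / (0 + (1 + 0) ^ K)) : ℝ) = 0 := by norm_num
  rw [h4] at h3
  refine h3.congr' ?_
  filter_upwards [eventually_gt_atTop 0] with i hi
  have hi' : (0 : ℝ) < i := by exact_mod_cast hi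
  have h5 : (i : ℝ) + 1 = i * (1 + (i : ℝ)⁻¹) := by field_simp
  rw [h5, mul_pow]
  field_simp

theorem ae_tendsto {Ω : Type} [MeasurableSpace Ω] {P : Measure Ω} [IsProbabilityMeasure P]
    {F : Ω → ℤ → ℂ} (hm : ∀ n, Measurable fun ω => F ω n) (hb : ∀ ω n, ‖F ω n‖ ≤ 1) {C c : ℝ}
    (hc : 0 < c)
    (h : ∀ᶠ X : ℕ in atTop, ∫ ω, ‖Elog (F ω) X‖ ^ 2 ∂P ≤ C * (Real.log X) ^ (-c)) :
    ∀ᵐ ω ∂P, Tendsto (Elog (F ω)) atTop (𝓝 0) := by
  obtain ⟨K, hK⟩ := exists_nat_ge (2 / c)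
  have hK0 : 0 < K := by
    have h1 : (0 : ℝ) < K := lt_of_lt_of_le (by positivity) hK
    exact_mod_cast h1
  have hKc : 2 ≤ K * c := (div_le_iff₀ hc).1 hK
  obtain ⟨Xi, hXi⟩ : ∃ Xi : ℕ → ℕ, Xi = fun i : ℕ => ⌈Real.exp ((i : ℝ) ^ K)⌉₊ := ⟨_, rfl⟩
  have hXe : ∀ i : ℕ, Real.exp ((i : ℝ) ^ K) ≤ Xi i := fun i => by
    rw [hXi]
    exact Nat.le_ceil _
  have hX0 : ∀ i : ℕ, (0 : ℝ) < Xi i := fun i => (Real.exp_pos _).trans_le (hXe i)
  have hX1 : ∀ i, 1 ≤ Xi i := fun i => by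
    have := hX0 i
    exact_mod_cast this
  have hXl : ∀ i : ℕ, (i : ℝ) ^ K ≤ Real.log (Xi i) := fun i =>
    (Real.le_log_iff_exp_le (hX0 i)).2 (hXe i)
  have hXt : Tendsto Xi atTop atTop := by
    refine tendsto_atTop_mono (fun i => ?_) tendsto_id
    have h1 : ((id i : ℕ) : ℝ) ≤ Xi i := by
      simp only [id]
      rcases Nat.eq_zero_or_pos i with rfl | hi
      · rw [Nat.cast_zero]
        exact (hX0 0).le
      · have h2 : (1 : ℝ) ≤ i := by exact_mod_cast hi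
        have h3 : (i : ℝ) ≤ (i : ℝ) ^ K := le_self_pow₀ h2 hK0.ne'
        have h4 := Real.add_one_le_exp ((i : ℝ) ^ K)
        have h5 := hXe i
        linarith
    exact_mod_cast h1
  have hEm : ∀ X, Measurable fun ω => Elog (F ω) X := by
    intro X
    unfold Elog
    have h1 : ∀ n : ℕ, Measurable fun ω => F ω (n : ℤ) / (n : ℂ) := fun n => (hm n).div_const _
    exact (Finset.measurable_sum (Finset.Icc 1 X) fun n _ => h1 n).div_const _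
  have hE1 : ∀ ω X, ‖Elog (F ω) X‖ ≤ 1 := fun ω X => norm_Elog_le (hb ω) X
  have hEi : ∀ X, Integrable (fun ω => ‖Elog (F ω) X‖ ^ 2) P := by
    intro X
    refine Integrable.of_bound ((hEm X).norm.pow_const 2).aestronglyMeasurable 1
      (Filter.Eventually.of_forall fun ω => ?_)
    rw [Real.norm_eq_abs, abs_of_nonneg (by positivity)]
    exact pow_le_one₀ (norm_nonneg _) (hE1 ω X)
  have hsum : Summable fun i : ℕ => ∫ ω, ‖Elog (F ω) (Xi i)‖ ^ 2 ∂P := by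
    have h1 : Summable fun i : ℕ => |C| * (1 / (i : ℝ) ^ 2) :=
      (Real.summable_one_div_nat_pow.2 one_lt_two).mul_left _
    refine Summable.of_norm_bounded_eventually_nat h1 ?_
    filter_upwards [hXt.eventually h, eventually_gt_atTop 0] with i hi hi0
    have h2 : 0 ≤ ∫ ω, ‖Elog (F ω) (Xi i)‖ ^ 2 ∂P := integral_nonneg fun ω => by positivity
    rw [Real.norm_eq_abs, abs_of_nonneg h2]
    have h3 : (1 : ℝ) ≤ i := by exact_mod_cast hi0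
    have h4 : (0 : ℝ) < (i : ℝ) ^ K := by positivity
    have h5 : Real.log (Xi i) ^ (-c) ≤ ((i : ℝ) ^ K) ^ (-c) :=
      Real.rpow_le_rpow_of_nonpos h4 (hXl i) (by linarith)
    have h6 : ((i : ℝ) ^ K) ^ (-c) ≤ 1 / (i : ℝ) ^ 2 := by
      rw [← Real.rpow_natCast, ← Real.rpow_mul (by positivity)]
      have h7 : (1 : ℝ) / (i : ℝ) ^ 2 = (i : ℝ) ^ (-2 : ℝ) := by
        rw [Real.rpow_neg (by positivity), one_div]
        norm_cast
      rw [h7]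
      exact Real.rpow_le_rpow_of_exponent_le h3 (by linarith)
    have h8 : 0 ≤ Real.log (Xi i) ^ (-c) := Real.rpow_nonneg (h4.le.trans (hXl i)) _
    calc ∫ ω, ‖Elog (F ω) (Xi i)‖ ^ 2 ∂P ≤ C * Real.log (Xi i) ^ (-c) := hi
      _ ≤ |C| * Real.log (Xi i) ^ (-c) := mul_le_mul_of_nonneg_right (le_abs_self C) h8
      _ ≤ |C| * (1 / (i : ℝ) ^ 2) := mul_le_mul_of_nonneg_left (h5.trans h6) (abs_nonneg C)
  have hlin : ∫⁻ ω, ∑' i, ENNReal.ofReal (‖Elog (F ω) (Xi i)‖ ^ 2) ∂P ≠ ⊤ := by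
    rw [lintegral_tsum fun i => ((hEm (Xi i)).norm.pow_const 2).ennreal_ofReal.aemeasurable]
    have h1 : ∀ i, ∫⁻ ω, ENNReal.ofReal (‖Elog (F ω) (Xi i)‖ ^ 2) ∂P =
        ENNReal.ofReal (∫ ω, ‖Elog (F ω) (Xi i)‖ ^ 2 ∂P) := fun i =>
      (ofReal_integral_eq_lintegral_ofReal (hEi (Xi i))
        (Filter.Eventually.of_forall fun ω => by positivity)).symm
    simp_rw [h1]
    exact hsum.tsum_ofReal_ne_top
  have hae := ae_lt_top' (Measurable.ennreal_tsum fun i =>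
    ((hEm (Xi i)).norm.pow_const 2).ennreal_ofReal).aemeasurable hlin
  filter_upwards [hae] with ω hω
  have h1 : Tendsto (fun i => ‖Elog (F ω) (Xi i)‖) atTop (𝓝 0) := by
    have h2 := ENNReal.tendsto_atTop_zero_of_tsum_ne_top hω.ne
    have h3 := (ENNReal.tendsto_toReal ENNReal.zero_ne_top).comp h2
    have h4 := (Real.continuous_sqrt.tendsto _).comp h3
    simp only [ENNReal.toReal_zero, Real.sqrt_zero] at h4
    refine h4.congr fun i => ?_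
    simp only [Function.comp]
    rw [ENNReal.toReal_ofReal (by positivity), Real.sqrt_sq (norm_nonneg _)]
  obtain ⟨ix, hix⟩ : ∃ ix : ℕ → ℕ, ix = fun X : ℕ => ⌊(Real.log X) ^ ((K : ℝ)⁻¹)⌋₊ := ⟨_, rfl⟩
  have hixt : Tendsto ix atTop atTop := by
    rw [hix]
    exact tendsto_nat_floor_atTop.comp ((tendsto_rpow_atTop (by positivity)).comp
      (Real.tendsto_log_atTop.comp tendsto_natCast_atTop_atTop))
  have h2 : Tendsto (fun X => ‖Elog (F ω) (Xi (ix X))‖ +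
      2 * (1 - ((ix X : ℕ) : ℝ) ^ K / (1 + (((ix X : ℕ) : ℝ) + 1) ^ K))) atTop (𝓝 (0 + 0)) :=
    (h1.comp hixt).add ((ratio_tendsto hK0).comp hixt)
  rw [add_zero] at h2
  refine squeeze_zero_norm' ?_ h2
  filter_upwards [eventually_ge_atTop 1] with X hX
  have hX' : (1 : ℝ) ≤ X := by exact_mod_cast hX
  have hL : 0 ≤ Real.log X := Real.log_nonneg hX'
  have ht : ((Real.log X) ^ ((K : ℝ)⁻¹)) ^ K = Real.log X := Real.rpow_inv_natCast_pow hL hK0.ne'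
  have ht0 : 0 ≤ (Real.log X) ^ ((K : ℝ)⁻¹) := Real.rpow_nonneg hL _
  have h3 : ((ix X : ℕ) : ℝ) ≤ (Real.log X) ^ ((K : ℝ)⁻¹) := by
    rw [hix]
    exact Nat.floor_le ht0
  have h4 : (Real.log X) ^ ((K : ℝ)⁻¹) ≤ ((ix X : ℕ) : ℝ) + 1 := by
    rw [hix]
    exact (Nat.lt_floor_add_one _).le
  have h5 : ((ix X : ℕ) : ℝ) ^ K ≤ Real.log X := by
    rw [← ht]
    exact pow_le_pow_left₀ (Nat.cast_nonneg _) h3 K
  have h6 : Real.log X ≤ (((ix X : ℕ) : ℝ) + 1) ^ K := by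
    rw [← ht]
    exact pow_le_pow_left₀ ht0 h4 K
  have h7 : Xi (ix X) ≤ X := by
    rw [hXi]
    refine Nat.ceil_le.2 ?_
    exact (Real.le_log_iff_exp_le (by linarith)).1 h5
  refine (interp (hb ω) (hX1 (ix X)) h7).trans ?_
  have h8 : ((ix X : ℕ) : ℝ) ^ K / (1 + (((ix X : ℕ) : ℝ) + 1) ^ K) ≤ hs (Xi (ix X)) / hs X := by
    refine div_le_div₀ (hs_pos (hX1 _)).le ((hXl _).trans (log_le_hs (hX1 _))) (hs_pos hX) ?_
    exact (hs_le X).trans (by linarith)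
  linarith

end Pool.Agent.Work.MP_58cfe3_nt
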