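import Pool.Agent.Work.MP_58cfe3_nt.Basic
import Pool.Agent.Work.MP_58cfe3_nt.RDefs

/-!
# Module RExp (size M): vanishing of expectations

PROOF. `cube_meas`: finite products of measurable functions (`Finset.measurable_prod`, `Measurable.pow_const`, the set
`n.toNat.primeFactors` does not depend on `ω`).
`exp_zero`: if `n ≤ 0` then `cube (twist ..) e n = 0` (the factor of `A = ∅` is `twist .. n = f n * _ = 0`; note
`n = 0` and negative `n` are possible in the statement). Let `n > 0`. For a natural number `x > 0` and any `p`: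
`twist f Q ε' x = (ε' p) ^ (exponent of p in x) * twist f Q (Function.update ε' p 1) x` for `p ∈ Q` prime (split the
product over `primeFactors` at `p`; if `p ∤ x` the exponent is `0`). For the vertex `A = ∅` of `n` the exponent is
exactly 1, for the other vertices `n + vert e A` and all the vertices of `m` it is `0` (vertices `≤ 0` have
`toNat = 0`, no dependence on `ε` at all). So
`cube (twist f Q ε') e n = ε' p * R n ε'`, `cube (twist f Q ε') e m = R m ε'` where
`R x ε' = cube (twist f Q (Function.update ε' p 1)) e x` depends only on the `ε' q`, `q ≠ p`, `q < N` for some `N`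
(all prime factors of all vertices are `< N`). Independence: `iIndepFun.indepFun_finset` (the finite sets
`{p}` and `(Finset.range N).erase p`), composed with measurable functions of the two blocks (`IndepFun.comp`);
`IndepFun.integral_mul_eq_mul_integral` (or `integral_fun_mul_eq_mul_integral`) gives
`∫ = (∫ ε p) * ∫ R n * star (R m) = 0`.
-/

set_option autoImplicit false

namespace Pool.Agent.Work.MP_58cfe3_nt

open Filter Topology MeasureTheory ProbabilityTheory

private theorem tw_congr {f : ℤ → ℂ} {Q : Set ℕ} {a b : ℕ → ℂ} {x : ℤ}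
    (h : ∀ q ∈ x.toNat.primeFactors, a q = b q) : twist f Q a x = twist f Q b x := by
  unfold twist
  congr 1
  refine Finset.prod_congr rfl fun q hq => ?_
  rw [h q hq]

private theorem tw_split {f : ℤ → ℂ} {Q : Set ℕ} {a b : ℕ → ℂ} {x : ℤ} {p : ℕ} (hp : p.Prime)
    (hpQ : p ∈ Q) (hx : 0 < x) (h1 : (p : ℤ) ∣ x) (h2 : ¬ (p : ℤ) ^ 2 ∣ x)
    (h : ∀ q ∈ x.toNat.primeFactors, q ≠ p → a q = b q) (hb : b p = 1) :
    twist f Q a x = a p * twist f Q b x := by
  have hx' : ((x.toNat : ℕ) : ℤ) = x := Int.toNat_of_nonneg hx.le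
  have hx0 : x.toNat ≠ 0 := by omega
  have k1 : p ∣ x.toNat := by
    rw [← hx'] at h1
    exact_mod_cast h1
  have k2 : ¬ p ^ 2 ∣ x.toNat := by
    intro hc
    apply h2
    rw [← hx']
    exact_mod_cast hc
  have hm : p ∈ x.toNat.primeFactors := Nat.mem_primeFactors.2 ⟨hp, k1, hx0⟩
  have e1 : x.toNat.factorization p = 1 := by
    have l1 : 1 ≤ x.toNat.factorization p :=
      (hp.pow_dvd_iff_le_factorization hx0).1 (by rwa [pow_one])
    have l2 : ¬ 2 ≤ x.toNat.factorization p := fun hc =>
      k2 ((hp.pow_dvd_iff_le_factorization hx0).2 hc)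
    omega
  unfold twist
  rw [← Finset.mul_prod_erase _ _ hm, ← Finset.mul_prod_erase (x.toNat.primeFactors) _ hm]
  rw [if_pos hpQ, if_pos hpQ, e1, hb, pow_one, pow_one, one_mul]
  have e2 : ∏ q ∈ x.toNat.primeFactors.erase p,
      (open Classical in if q ∈ Q then a q ^ x.toNat.factorization q else 1) =
      ∏ q ∈ x.toNat.primeFactors.erase p,
      (open Classical in if q ∈ Q then b q ^ x.toNat.factorization q else 1) := by
    refine Finset.prod_congr rfl fun q hq => ?_
    rw [h q (Finset.mem_of_mem_erase hq) (Finset.ne_of_mem_erase hq)]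
  rw [e2]
  ring

private theorem tw_nonpos {f : ℤ → ℂ} (hf : MulBdd f) {Q : Set ℕ} {a : ℕ → ℂ} {x : ℤ} (hx : x ≤ 0) :
    twist f Q a x = 0 := by
  unfold twist
  rw [hf.nonpos x hx, zero_mul]

private theorem not_mem_pf {p : ℕ} {x : ℤ} (h : ¬ (p : ℤ) ∣ x) : p ∉ x.toNat.primeFactors := by
  intro hc
  have h1 := Nat.dvd_of_mem_primeFactors hc
  have h0 : x.toNat ≠ 0 := fun h0 => by
    rw [h0] at hc
    simp at hc
  have hx' : ((x.toNat : ℕ) : ℤ) = x := Int.toNat_of_nonneg (by omega)
  apply h
  rw [← hx']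
  exact_mod_cast h1

theorem cube_meas {Ω : Type} [MeasurableSpace Ω] {ε : ℕ → Ω → ℂ} (hm : ∀ p, Measurable (ε p))
    (Q : Set ℕ) (f : ℤ → ℂ) {r : ℕ} (e : Fin r → ℤ) (n : ℤ) :
    Measurable fun ω => cube (twist f Q fun q => ε q ω) e n := by
  have h1 : ∀ x : ℤ, Measurable fun ω => twist f Q (fun q => ε q ω) x := by
    intro x
    unfold twist
    refine Measurable.const_mul (Finset.measurable_fun_prod _ fun p _ => ?_) _
    by_cases hp : p ∈ Q
    · simp only [hp, if_true]
      exact (hm p).pow_const _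
    · simp only [hp, if_false]
      exact measurable_const
  unfold cube
  refine Finset.measurable_fun_prod _ fun A _ => ?_
  by_cases hA : Even A.card
  · simp only [hA, if_true]
    exact h1 _
  · simp only [hA, if_false]
    exact (Complex.continuous_conj.measurable).comp (h1 _)

theorem exp_zero {Ω : Type} [MeasurableSpace Ω] {P : Measure Ω} [IsProbabilityMeasure P]
    {ε : ℕ → Ω → ℂ} (hm : ∀ p, Measurable (ε p)) (hi : iIndepFun ε P) (hb : ∀ p ω, ‖ε p ω‖ ≤ 1)
    {Q : Set ℕ} (h0 : ∀ p ∈ Q, ∫ ω, ε p ω ∂P = 0) {f : ℤ → ℂ} (hf : MulBdd f)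
    {r : ℕ} (e : Fin r → ℤ) {n m : ℤ} {p : ℕ} (hp : p.Prime) (hpQ : p ∈ Q)
    (h1 : (p : ℤ) ∣ n) (h2 : ¬ (p : ℤ) ^ 2 ∣ n)
    (h3 : ∀ A : Finset (Fin r), A.Nonempty → ¬ (p : ℤ) ∣ n + vert e A)
    (h4 : ∀ A : Finset (Fin r), ¬ (p : ℤ) ∣ m + vert e A) :
    ∫ ω, cube (twist f Q fun q => ε q ω) e n * star (cube (twist f Q fun q => ε q ω) e m) ∂P
      = 0 := by
  classical
  have v0 : vert e ∅ = 0 := by simp [vert]
  rcases le_or_gt n 0 with hn | hn
  · have e1 : ∀ ω, cube (twist f Q fun q => ε q ω) e n = 0 := by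
      intro ω
      unfold cube
      refine Finset.prod_eq_zero (Finset.mem_univ ∅) ?_
      rw [if_pos (by simp), v0, add_zero]
      exact tw_nonpos hf hn
    simp only [e1, zero_mul, integral_zero]
  set N : ℕ := 1 + ∑ A : Finset (Fin r), ((n + vert e A).toNat + (m + vert e A).toNat) with hN
  have hN1 : ∀ A, (n + vert e A).toNat < N ∧ (m + vert e A).toNat < N := by
    intro A
    have := Finset.single_le_sum (f := fun A : Finset (Fin r) =>
      (n + vert e A).toNat + (m + vert e A).toNat) (fun _ _ => Nat.zero_le _) (Finset.mem_univ A)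
    constructor <;> omega
  let T : Finset ℕ := (Finset.range N).erase p
  let ε1 : ℕ → (T → ℂ) → ℂ := fun q y => if h : q ∈ T then y ⟨q, h⟩ else 1
  have hε1 : ∀ q, Measurable (ε1 q) := by
    intro q
    by_cases h : q ∈ T
    · have e0 : ε1 q = fun y => y ⟨q, h⟩ := funext fun y => dif_pos h
      rw [e0]
      exact measurable_pi_apply _
    · have e0 : ε1 q = fun _ => 1 := funext fun y => dif_neg h
      rw [e0]
      exact measurable_const
  let R : Ω → (T → ℂ) := fun ω q => ε q ω
  have hpT : p ∉ T := Finset.notMem_erase p _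
  have b1 : ∀ ω, ε1 p (R ω) = 1 := fun ω => dif_neg hpT
  have b2 : ∀ ω q, q < N → q ≠ p → ε q ω = ε1 q (R ω) := by
    intro ω q hq hqp
    have hqT : q ∈ T := Finset.mem_erase.2 ⟨hqp, Finset.mem_range.2 hq⟩
    show ε q ω = if h : q ∈ T then R ω ⟨q, h⟩ else 1
    rw [dif_pos hqT]
  have lt_of : ∀ {x : ℤ} {q : ℕ}, x.toNat < N → q ∈ x.toNat.primeFactors → q < N := fun hx hq =>
    lt_of_le_of_lt (Nat.le_of_mem_primeFactors hq) hx
  -- vertices without the prime
  have c1 : ∀ ω (x : ℤ), x.toNat < N → ¬ (p : ℤ) ∣ x →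
      twist f Q (fun q => ε q ω) x = twist f Q (fun q => ε1 q (R ω)) x := by
    intro ω x hx hpx
    refine tw_congr fun q hq => b2 ω q (lt_of hx hq) ?_
    rintro rfl
    exact not_mem_pf hpx hq
  have c2 : ∀ ω, cube (twist f Q fun q => ε q ω) e m =
      cube (twist f Q fun q => ε1 q (R ω)) e m := by
    intro ω
    unfold cube
    refine Finset.prod_congr rfl fun A _ => ?_
    rw [c1 ω _ (hN1 A).2 (h4 A)]
  have c3 : ∀ ω, cube (twist f Q fun q => ε q ω) e n =
      ε p ω * cube (twist f Q fun q => ε1 q (R ω)) e n := by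
    intro ω
    unfold cube
    rw [← Finset.mul_prod_erase _ _ (Finset.mem_univ (∅ : Finset (Fin r))),
      ← Finset.mul_prod_erase (Finset.univ) (fun A : Finset (Fin r) =>
        if Even A.card then twist f Q (fun q => ε1 q (R ω)) (n + vert e A)
        else star (twist f Q (fun q => ε1 q (R ω)) (n + vert e A)))
        (Finset.mem_univ (∅ : Finset (Fin r)))]
    have e1 : ∏ A ∈ Finset.univ.erase (∅ : Finset (Fin r)),
        (if Even A.card then twist f Q (fun q => ε q ω) (n + vert e A)
          else star (twist f Q (fun q => ε q ω) (n + vert e A))) =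
        ∏ A ∈ Finset.univ.erase (∅ : Finset (Fin r)),
        (if Even A.card then twist f Q (fun q => ε1 q (R ω)) (n + vert e A)
          else star (twist f Q (fun q => ε1 q (R ω)) (n + vert e A))) := by
      refine Finset.prod_congr rfl fun A hA => ?_
      rw [c1 ω _ (hN1 A).1
        (h3 A (Finset.nonempty_iff_ne_empty.2 (Finset.ne_of_mem_erase hA)))]
    have ev : Even (∅ : Finset (Fin r)).card := by simp
    have h10 := (hN1 ∅).1
    rw [v0, add_zero] at h10
    rw [e1, if_pos ev, if_pos ev, v0, add_zero,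
      tw_split (b := fun q => ε1 q (R ω)) hp hpQ hn h1 h2
        (fun q hq hqp => b2 ω q (lt_of h10 hq) hqp) (b1 ω)]
    ring
  -- independence
  let G : (T → ℂ) → ℂ := fun y => cube (twist f Q fun q => ε1 q y) e n *
    star (cube (twist f Q fun q => ε1 q y) e m)
  have hG : Measurable G := (cube_meas hε1 Q f e n).mul
    ((Complex.continuous_conj.measurable).comp (cube_meas hε1 Q f e m))
  have hR : Measurable R := measurable_pi_lambda _ fun q => hm q
  have hind : IndepFun (fun ω (i : ({p} : Finset ℕ)) => ε i ω) R P :=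
    hi.indepFun_finset {p} T (Finset.disjoint_singleton_left.2 hpT) hm
  have hind2 : IndepFun (ε p) (fun ω => G (R ω)) P :=
    hind.comp (φ := fun y : (({p} : Finset ℕ) → ℂ) => y ⟨p, Finset.mem_singleton_self p⟩)
      (measurable_pi_apply _) hG
  have e2 : ∀ ω, cube (twist f Q fun q => ε q ω) e n *
      star (cube (twist f Q fun q => ε q ω) e m) = ε p ω * G (R ω) := by
    intro ω
    rw [c2, c3, mul_assoc]
  simp only [e2]
  rw [hind2.integral_fun_mul_eq_mul_integral (hm p).aestronglyMeasurable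
    (hG.comp hR).aestronglyMeasurable, h0 p hpQ, zero_mul]

end Pool.Agent.Work.MP_58cfe3_nt
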