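import Pool.Agent.Work.MP_58cfe3_nt.RSum
import Pool.Agent.Work.MP_58cfe3_nt.Mer

/-!
# Module RSumB (size S-M): the bound for `N0`

PROOF. `1 - 1/p + 1/p² ≤ exp (-1/p + 1/p²)`; `∑_{p ≥ 2} 1/p² ≤ 1` (finite sums: `1/n² ≤ 1/(n-1) - 1/n`);
`∑_{p ∈ Q, w < p ≤ X} 1/p ≥ QS Q X - ∑_{n ≤ w} 1/n ≥ c log log X - (1 + log w)` (harmonic sum bound, e.g.
`harmonic_le_one_add_log`). So the second product in `n0_sum` is `≤ exp(2) * w * (log X)^(-c)` and the first one is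
`≤ C log X` by `mert_le`.
-/

set_option autoImplicit false

namespace Pool.Agent.Work.MP_58cfe3_nt

open Filter Topology

private theorem sq_sum (X : ℕ) (hX : 1 ≤ X) (S : Finset ℕ) (hS : ∀ p ∈ S, 1 < p ∧ p ≤ X) :
    ∑ p ∈ S, 1 / (p : ℝ) ^ 2 ≤ 1 := by
  have h1 := sum_Ioc_inv_sq_le_sub (α := ℝ) one_ne_zero hX
  have h2 : ∑ p ∈ S, 1 / (p : ℝ) ^ 2 ≤ ∑ i ∈ Finset.Ioc 1 X, ((i : ℝ) ^ 2)⁻¹ := by
    simp_rw [one_div]
    exact Finset.sum_le_sum_of_subset_of_nonneg (fun p hp => Finset.mem_Ioc.2 (hS p hp))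
      fun p _ _ => by positivity
  have h3 : (0 : ℝ) ≤ ((X : ℕ) : ℝ)⁻¹ := by positivity
  refine h2.trans (h1.trans ?_)
  rw [Nat.cast_one, inv_one]
  linarith

open Classical in
private theorem prod_le (Q : Set ℕ) (w X : ℕ) (hX : 1 ≤ X) :
    ∏ p ∈ (Finset.Icc 1 X).filter (fun p => p.Prime ∧ p ∈ Q ∧ w < p),
          (1 - 1 / (p : ℝ) + 1 / (p : ℝ) ^ 2) ≤
      Real.exp 1 * Real.exp (-∑ p ∈ (Finset.Icc 1 X).filter (fun p => p.Prime ∧ p ∈ Q ∧ w < p),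
        (1 / p : ℝ)) := by
  set S := (Finset.Icc 1 X).filter (fun p => p.Prime ∧ p ∈ Q ∧ w < p) with hS
  have hmem : ∀ p ∈ S, 1 < p ∧ p ≤ X := by
    intro p hp
    obtain ⟨h1, h2, -⟩ := Finset.mem_filter.1 hp
    exact ⟨h2.one_lt, (Finset.mem_Icc.1 h1).2⟩
  have h1 : ∏ p ∈ S, (1 - 1 / (p : ℝ) + 1 / (p : ℝ) ^ 2) ≤
      ∏ p ∈ S, Real.exp (-(1 / (p : ℝ)) + 1 / (p : ℝ) ^ 2) := by
    refine Finset.prod_le_prod (fun p hp => ?_) fun p _ => ?_
    · have h2 : (1 : ℝ) < p := by exact_mod_cast (hmem p hp).1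
      have h3 : 1 / (p : ℝ) ≤ 1 := by
        rw [div_le_one (by linarith)]
        exact h2.le
      have h4 : 0 ≤ 1 / (p : ℝ) ^ 2 := by positivity
      linarith
    · have := Real.add_one_le_exp (-(1 / (p : ℝ)) + 1 / (p : ℝ) ^ 2)
      linarith
  refine h1.trans ?_
  rw [← Real.exp_sum, ← Real.exp_add, Finset.sum_add_distrib, Finset.sum_neg_distrib]
  refine Real.exp_le_exp.2 ?_
  have := sq_sum X hX S hmem
  linarith

open Classical in
private theorem QS_le (Q : Set ℕ) (w X : ℕ) :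
    QS Q X ≤ ∑ p ∈ (Finset.Icc 1 X).filter (fun p => p.Prime ∧ p ∈ Q ∧ w < p), (1 / p : ℝ) +
      (1 + Real.log w) := by
  have h1 : QS Q X ≤ ∑ p ∈ (Finset.Icc 1 X).filter (fun p => p.Prime ∧ p ∈ Q ∧ w < p) ∪
      Finset.Icc 1 w, (1 / p : ℝ) := by
    unfold QS
    refine Finset.sum_le_sum_of_subset_of_nonneg ?_ fun p _ _ => by positivity
    intro p hp
    obtain ⟨h2, h3, h4⟩ := Finset.mem_filter.1 hp
    rw [Finset.mem_union]
    by_cases h5 : w < p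
    · exact Or.inl (Finset.mem_filter.2 ⟨h2, h3, h4, h5⟩)
    · exact Or.inr (Finset.mem_Icc.2 ⟨(Finset.mem_Icc.1 h2).1, not_lt.1 h5⟩)
  have h2 : ∑ p ∈ (Finset.Icc 1 X).filter (fun p => p.Prime ∧ p ∈ Q ∧ w < p) ∪
      Finset.Icc 1 w, (1 / p : ℝ) ≤
      ∑ p ∈ (Finset.Icc 1 X).filter (fun p => p.Prime ∧ p ∈ Q ∧ w < p), (1 / p : ℝ) +
        ∑ p ∈ Finset.Icc 1 w, (1 / p : ℝ) := by
    rw [← Finset.sum_union_inter]
    have : 0 ≤ ∑ p ∈ (Finset.Icc 1 X).filter (fun p => p.Prime ∧ p ∈ Q ∧ w < p) ∩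
      Finset.Icc 1 w, (1 / p : ℝ) := Finset.sum_nonneg fun p _ => by positivity
    linarith
  have h3 : ∑ p ∈ Finset.Icc 1 w, (1 / p : ℝ) ≤ 1 + Real.log w := by
    have h4 := harmonic_le_one_add_log w
    rw [harmonic_eq_sum_Icc] at h4
    push_cast at h4
    simp_rw [one_div]
    exact h4
  linarith

theorem n0_bound {Q : Set ℕ} {c : ℝ}
    (hQ : ∀ᶠ X : ℕ in atTop, c * Real.log (Real.log X) ≤ QS Q X) :
    ∃ C : ℝ, 0 < C ∧ ∀ᶠ X : ℕ in atTop, ∀ w : ℕ, 1 ≤ w →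
      ∑ n ∈ N0 Q w X, (1 / n : ℝ) ≤ C * w * (Real.log X) ^ (1 - c) := by
  classical
  obtain ⟨C, hC, hM⟩ := mert_le
  refine ⟨C * (Real.exp 1 * Real.exp 1), by positivity, ?_⟩
  filter_upwards [hQ, eventually_ge_atTop 3] with X hX hX3 w hw
  have hlog : 0 < Real.log X := Real.log_pos (by
    have : (3 : ℝ) ≤ X := by exact_mod_cast hX3
    linarith)
  have hw' : (0 : ℝ) < w := by exact_mod_cast hw
  have h1 := n0_sum Q w X
  have h2 := hM X (by omega)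
  have h3 := prod_le Q w X (by omega)
  have h4 := QS_le Q w X
  have h5 : Real.exp (-∑ p ∈ (Finset.Icc 1 X).filter (fun p => p.Prime ∧ p ∈ Q ∧ w < p),
        (1 / p : ℝ)) ≤ Real.exp 1 * w * (Real.log X) ^ (-c) := by
    have e1 : (Real.log X) ^ (-c) = Real.exp (-(c * Real.log (Real.log X))) := by
      rw [Real.rpow_def_of_pos hlog]
      congr 1
      ring
    have e2 : Real.exp 1 * w * (Real.log X) ^ (-c) =
        Real.exp (1 + Real.log w + -(c * Real.log (Real.log X))) := by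
      rw [e1, Real.exp_add, Real.exp_add, Real.exp_log hw']
    rw [e2]
    refine Real.exp_le_exp.2 ?_
    linarith
  have h6 : 0 ≤ ∏ p ∈ (Finset.Icc 1 X).filter (fun p => p.Prime ∧ p ∈ Q ∧ w < p),
          (1 - 1 / (p : ℝ) + 1 / (p : ℝ) ^ 2) := by
    refine Finset.prod_nonneg fun p hp => ?_
    obtain ⟨-, h2, -⟩ := Finset.mem_filter.1 hp
    have h2 : (1 : ℝ) < p := by exact_mod_cast h2.one_lt
    have h3 : 1 / (p : ℝ) ≤ 1 := by
      rw [div_le_one (by linarith)]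
      exact h2.le
    have h4 : 0 ≤ 1 / (p : ℝ) ^ 2 := by positivity
    linarith
  calc ∑ n ∈ N0 Q w X, (1 / n : ℝ) ≤ _ := h1
    _ ≤ (C * Real.log X) * (Real.exp 1 * (Real.exp 1 * w * (Real.log X) ^ (-c))) := by
      refine mul_le_mul h2 (h3.trans ?_) h6 (by positivity)
      exact mul_le_mul_of_nonneg_left h5 (Real.exp_pos 1).le
    _ = C * (Real.exp 1 * Real.exp 1) * w * (Real.log X) ^ (1 - c) := by
      rw [sub_eq_add_neg, Real.rpow_add hlog, Real.rpow_one]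
      ring

end Pool.Agent.Work.MP_58cfe3_nt
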