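import Pool.Agent.Work.MP_58cfe3_nt.RVar
import Pool.Agent.Work.MP_58cfe3_nt.RSumB

/-!
# Module RMom (size S-M): power of log saving for the second moment

PROOF. `B` a bound for the vertices. `w = ⌈(log X)^(c/2)⌉₊ ≥ 2 B, 1` for large `X`, `w ≤ 2 (log X)^(c/2)`,
`hs X ≥ log X` (e.g. `log_add_one_le_harmonic`). `second_moment` and `n0_bound`: the integral is
`≤ 2 C (log X)^(c/2) (log X)^(1-c)/log X + 2^(r+1) (log X)^(-c/2) = C' (log X)^(-c/2)`.
-/

set_option autoImplicit false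

namespace Pool.Agent.Work.MP_58cfe3_nt

open Filter Topology MeasureTheory ProbabilityTheory

private theorem log_le_hs {X : ℕ} (hX : 1 ≤ X) : Real.log X ≤ hs X := by
  have h1 := log_add_one_le_harmonic X
  have h2 : ((harmonic X : ℚ) : ℝ) = hs X := by
    rw [hs, harmonic_eq_sum_Icc]
    push_cast
    refine Finset.sum_congr rfl fun n _ => ?_
    rw [one_div]
  rw [h2] at h1
  refine le_trans ?_ h1
  have h3 : (1 : ℝ) ≤ X := by exact_mod_cast hX
  exact Real.log_le_log (by linarith) (by push_cast; linarith)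

theorem moment_bound {Ω : Type} [MeasurableSpace Ω] {P : Measure Ω} [IsProbabilityMeasure P]
    {ε : ℕ → Ω → ℂ} (hm : ∀ p, Measurable (ε p)) (hi : iIndepFun ε P) (hb : ∀ p ω, ‖ε p ω‖ ≤ 1)
    {Q : Set ℕ} {c : ℝ} (hc : 0 < c)
    (hQ : ∀ᶠ X : ℕ in atTop, c * Real.log (Real.log X) ≤ QS Q X)
    (h0 : ∀ p ∈ Q, ∫ ω, ε p ω ∂P = 0) {f : ℤ → ℂ} (hf : MulBdd f)
    {r : ℕ} (e : Fin r → ℤ) (he : Function.Injective (vert e)) :
    ∃ C : ℝ, ∀ᶠ X : ℕ in atTop,
      ∫ ω, ‖Elog (cube (twist f Q fun q => ε q ω) e) X‖ ^ 2 ∂P ≤ C * (Real.log X) ^ (-(c / 2)) := by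
  classical
  obtain ⟨C, hC, hn⟩ := n0_bound hQ
  obtain ⟨B, hB⟩ : ∃ B : ℕ, ∀ A, |vert e A| ≤ B := by
    refine ⟨Finset.univ.sup fun A : Finset (Fin r) => (vert e A).natAbs, fun A => ?_⟩
    rw [Int.abs_eq_natAbs]
    exact_mod_cast Finset.le_sup (f := fun A : Finset (Fin r) => (vert e A).natAbs) (Finset.mem_univ A)
  refine ⟨2 * C + 2 ^ (r + 1), ?_⟩
  have hL : Tendsto (fun X : ℕ => Real.log X) atTop atTop :=
    Real.tendsto_log_atTop.comp tendsto_natCast_atTop_atTop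
  have hLc : Tendsto (fun X : ℕ => (Real.log X) ^ (c / 2)) atTop atTop :=
    (tendsto_rpow_atTop (by positivity)).comp hL
  filter_upwards [hn, hL.eventually_ge_atTop 1, hLc.eventually_ge_atTop (max 1 (2 * B : ℝ)),
    eventually_ge_atTop 1] with X hnX hL1 hLB hX1
  have hL0 : 0 < Real.log X := by linarith
  have hp0 : 0 < (Real.log X) ^ (c / 2) := Real.rpow_pos_of_pos hL0 _
  have hp1 : 1 ≤ (Real.log X) ^ (c / 2) := (le_max_left _ _).trans hLB
  have hw1 : (Real.log X) ^ (c / 2) ≤ (⌈(Real.log X) ^ (c / 2)⌉₊ : ℝ) := Nat.le_ceil _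
  have hw2 : (⌈(Real.log X) ^ (c / 2)⌉₊ : ℝ) ≤ 2 * (Real.log X) ^ (c / 2) := by
    have := (Nat.ceil_lt_add_one hp0.le).le
    linarith
  have h1 : 1 ≤ ⌈(Real.log X) ^ (c / 2)⌉₊ := by exact_mod_cast hp1.trans hw1
  have h2 : 2 * B ≤ ⌈(Real.log X) ^ (c / 2)⌉₊ := by
    exact_mod_cast ((le_max_right _ _).trans hLB).trans hw1
  have hsX : Real.log X ≤ hs X := log_le_hs hX1
  have main := second_moment hm hi hb h0 hf e he hB h1 h2 hX1
  have hN := hnX _ h1
  set w : ℝ := (⌈(Real.log X) ^ (c / 2)⌉₊ : ℝ) with hwd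
  have hw0 : 0 < w := hp0.trans_le hw1
  have hpc : 0 < (Real.log X) ^ (1 - c) := Real.rpow_pos_of_pos hL0 _
  have e1 : (∑ n ∈ N0 Q ⌈(Real.log X) ^ (c / 2)⌉₊ X, (1 / n : ℝ)) / hs X ≤
      2 * C * (Real.log X) ^ (-(c / 2)) := by
    calc (∑ n ∈ N0 Q ⌈(Real.log X) ^ (c / 2)⌉₊ X, (1 / n : ℝ)) / hs X
        ≤ (C * w * (Real.log X) ^ (1 - c)) / Real.log X := by
          refine div_le_div₀ (by positivity) hN hL0 hsX
      _ ≤ (C * (2 * (Real.log X) ^ (c / 2)) * (Real.log X) ^ (1 - c)) / Real.log X := by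
          refine div_le_div_of_nonneg_right ?_ hL0.le
          exact mul_le_mul_of_nonneg_right (mul_le_mul_of_nonneg_left hw2 hC.le) hpc.le
      _ = 2 * C * (Real.log X) ^ (-(c / 2)) := by
          have h5 : (Real.log X) ^ (-(c / 2)) * Real.log X =
              (Real.log X) ^ (c / 2) * (Real.log X) ^ (1 - c) := by
            nth_rewrite 2 [← Real.rpow_one (Real.log X)]
            rw [← Real.rpow_add hL0, ← Real.rpow_add hL0]
            congr 1
            ring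
          rw [div_eq_iff hL0.ne', mul_assoc (2 * C), h5]
          ring
  have e2 : (2 : ℝ) ^ (r + 1) / w ≤ 2 ^ (r + 1) * (Real.log X) ^ (-(c / 2)) := by
    rw [Real.rpow_neg hL0.le, ← div_eq_mul_inv]
    exact div_le_div_of_nonneg_left (by positivity) hp0 hw1
  calc _ ≤ _ := main
    _ ≤ 2 * C * (Real.log X) ^ (-(c / 2)) + 2 ^ (r + 1) * (Real.log X) ^ (-(c / 2)) := add_le_add e1 e2
    _ = (2 * C + 2 ^ (r + 1)) * (Real.log X) ^ (-(c / 2)) := by ring

end Pool.Agent.Work.MP_58cfe3_nt
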