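import Pool.Agent.Work.MP_58cfe3_nt.RMul
import Pool.Agent.Work.MP_58cfe3_nt.RMom
import Pool.Agent.Work.MP_58cfe3_nt.RBC
import Pool.Agent.Work.MP_58cfe3_nt.Crit

/-!
# Module RFin (size S): almost every twist is universal

PROOF. For fixed `r, e` with `vert e` injective, `moment_bound` and `ae_tendsto` (with `cube_meas`, `norm_cube_le`,
`twist_mulBdd`) give almost surely `Elog (cube (twist ..) e) → 0`. Countably many `(r, e)`: `ae_all_iff`
(`Fin r → ℤ` is countable). So almost surely `Cubes (twist ..) r` for all `r`, and `criterion` applies.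
-/

set_option autoImplicit false

namespace Pool.Agent.Work.MP_58cfe3_nt

open Filter Topology MeasureTheory ProbabilityTheory

theorem random_universal {Ω : Type} [MeasurableSpace Ω] {P : Measure Ω} [IsProbabilityMeasure P]
    {ε : ℕ → Ω → ℂ} (hm : ∀ p, Measurable (ε p)) (hi : iIndepFun ε P) (hb : ∀ p ω, ‖ε p ω‖ ≤ 1)
    {Q : Set ℕ} {c : ℝ} (hc : 0 < c)
    (hQ : ∀ᶠ X : ℕ in atTop, c * Real.log (Real.log X) ≤ QS Q X)
    (h0 : ∀ p ∈ Q, ∫ ω, ε p ω ∂P = 0) {f : ℤ → ℂ} (hf : MulBdd f) :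
    ∀ᵐ ω ∂P, MulBdd (twist f Q fun p => ε p ω) ∧ ∀ r : ℕ, Universal (twist f Q fun p => ε p ω) r := by
  have hmul : ∀ ω, MulBdd (twist f Q fun p => ε p ω) := fun ω => twist_mulBdd hf Q fun p => hb p ω
  have hT : ∀ (r : ℕ) (e : Fin r → ℤ), ∀ᵐ ω ∂P, Function.Injective (vert e) →
      Tendsto (Elog (cube (twist f Q fun p => ε p ω) e)) atTop (𝓝 0) := by
    intro r e
    by_cases he : Function.Injective (vert e)
    · obtain ⟨C, hC⟩ := moment_bound (P := P) hm hi hb hc hQ h0 hf e he
      have h1 := ae_tendsto (P := P) (F := fun ω => cube (twist f Q fun p => ε p ω) e)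
        (fun n => cube_meas hm Q f e n) (fun ω n => norm_cube_le (hmul ω).bdd e n)
        (C := C) (c := c / 2) (by positivity) hC
      filter_upwards [h1] with ω hω _
      exact hω
    · exact Filter.Eventually.of_forall fun ω h => absurd h he
  have hall : ∀ᵐ ω ∂P, ∀ (r : ℕ) (e : Fin r → ℤ), Function.Injective (vert e) →
      Tendsto (Elog (cube (twist f Q fun p => ε p ω) e)) atTop (𝓝 0) := by
    rw [ae_all_iff]
    intro r
    rw [ae_all_iff]
    exact hT r
  filter_upwards [hall] with ω hω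
  exact ⟨hmul ω, fun r => criterion (hmul ω) fun e he => hω r e he⟩

end Pool.Agent.Work.MP_58cfe3_nt
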