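import Pool.Agent.Work.MP_58cfe3_nt.Basic
import Pool.Agent.Work.MP_58cfe3_nt.RDefs

/-!
# Module RPair (size S-M): sums over multiples

PROOF. `hdiv_sum`: `n = k p`, `k ≤ X`, `1/n = (1/p)(1/k)`, injection `n ↦ n / p` into `Icc 1 X`.
`pair_sum`: union bound over the `2 ^ r` sets `A`. For fixed `A`, `v = vert e A`: `m + v = k p` with `k ≥ 1`, so
`m = k p - v ≥ k p - p/2 ≥ k p / 2`, `1/m ≤ (2/p)(1/k)`; and `k p = m + v ≤ X + B`, `2 B < p` give `k ≤ X`
(`B = 0`: clear; `B ≥ 1`: `p ≥ 3`, `k ≤ X/3 + 1/2 < X + 1`). The map `m ↦ k = (m + v)/p` is injective.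
-/

set_option autoImplicit false

namespace Pool.Agent.Work.MP_58cfe3_nt

open Filter Topology

private theorem inj_sum {X : ℕ} (S : Finset ℕ) (φ : ℕ → ℕ) (hφ : Set.InjOn φ S)
    (himg : ∀ m ∈ S, φ m ∈ Finset.Icc 1 X) {c : ℝ} (hc : 0 ≤ c)
    (hle : ∀ m ∈ S, (1 / m : ℝ) ≤ c * (1 / φ m)) : ∑ m ∈ S, (1 / m : ℝ) ≤ c * hs X := by
  calc ∑ m ∈ S, (1 / m : ℝ) ≤ ∑ m ∈ S, c * (1 / φ m) := Finset.sum_le_sum hle
    _ = c * ∑ m ∈ S, (1 / φ m : ℝ) := by rw [Finset.mul_sum]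
    _ = c * ∑ k ∈ S.image φ, (1 / k : ℝ) := by
      rw [Finset.sum_image (f := fun k : ℕ => (1 / k : ℝ)) hφ]
    _ ≤ c * hs X := by
      refine mul_le_mul_of_nonneg_left ?_ hc
      refine Finset.sum_le_sum_of_subset_of_nonneg ?_ fun k _ _ => by positivity
      intro k hk
      obtain ⟨m, hm, rfl⟩ := Finset.mem_image.1 hk
      exact himg m hm

theorem hdiv_sum {p : ℕ} (hp : 0 < p) (X : ℕ) :
    ∑ n ∈ (Finset.Icc 1 X).filter (fun n => p ∣ n), (1 / n : ℝ) ≤ (1 / p) * hs X := by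
  have hp' : (0 : ℝ) < p := by exact_mod_cast hp
  refine inj_sum _ (fun n => n / p) ?_ ?_ (by positivity) ?_
  · intro m hm n hn h
    have hm' := (Finset.mem_filter.1 hm).2
    have hn' := (Finset.mem_filter.1 hn).2
    have h' : m / p = n / p := h
    rw [← Nat.div_mul_cancel hm', ← Nat.div_mul_cancel hn', h']
  · intro m hm
    obtain ⟨h1, k, rfl⟩ := Finset.mem_filter.1 hm
    rw [Finset.mem_Icc] at h1 ⊢
    rw [Nat.mul_div_cancel_left k hp]
    constructor
    · rcases Nat.eq_zero_or_pos k with h2 | h2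
      · rw [h2] at h1
        omega
      · exact h2
    · nlinarith [h1.2]
  · intro m hm
    obtain ⟨h1, k, rfl⟩ := Finset.mem_filter.1 hm
    rw [Nat.mul_div_cancel_left k hp]
    push_cast
    rw [one_div_mul_one_div]

private theorem one_vert {p B : ℕ} (hp : 2 * B < p) (X : ℕ) (v : ℤ) (hv : |v| ≤ B) :
    ∑ m ∈ (Finset.Icc 1 X).filter (fun m : ℕ => 0 < (m : ℤ) + v ∧ (p : ℤ) ∣ m + v), (1 / m : ℝ) ≤
      (2 / p) * hs X := by
  have hp0 : 0 < p := by omega
  have hp' : (0 : ℝ) < p := by exact_mod_cast hp0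
  have hpz : (0 : ℤ) < p := by exact_mod_cast hp0
  have hpB : 2 * (B : ℤ) < p := by exact_mod_cast hp
  have hv1 := (abs_le.1 hv).1
  have hv2 := (abs_le.1 hv).2
  have key : ∀ m ∈ (Finset.Icc 1 X).filter (fun m : ℕ => 0 < (m : ℤ) + v ∧ (p : ℤ) ∣ m + v),
      ∃ k : ℕ, (((m : ℤ) + v) / p).toNat = k ∧ 1 ≤ k ∧ k ≤ X ∧ (m : ℤ) + v = p * k := by
    intro m hm
    obtain ⟨h1, h2, k, hk⟩ := Finset.mem_filter.1 hm
    rw [Finset.mem_Icc] at h1
    have hk0 : 0 < k := by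
      rw [hk] at h2
      exact (mul_pos_iff_of_pos_left hpz).1 h2
    have e : ((m : ℤ) + v) / p = k := by
      rw [hk]
      exact Int.mul_ediv_cancel_left k hpz.ne'
    have ek : ((k.toNat : ℕ) : ℤ) = k := Int.toNat_of_nonneg hk0.le
    refine ⟨k.toNat, by rw [e], ?_, ?_, by rw [ek]; exact hk⟩
    · have : (1 : ℤ) ≤ (k.toNat : ℤ) := by
        rw [ek]
        omega
      exact_mod_cast this
    · have hX : (m : ℤ) ≤ X := by exact_mod_cast h1.2
      have hX1 : (1 : ℤ) ≤ X := by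
        have : (1 : ℤ) ≤ m := by exact_mod_cast h1.1
        linarith
      have : (k.toNat : ℤ) ≤ X := by
        rw [ek]
        by_contra hc
        push Not at hc
        have h3 : (p : ℤ) * (X + 1) ≤ p * k := mul_le_mul_of_nonneg_left (by omega) hpz.le
        nlinarith
      exact_mod_cast this
  refine inj_sum _ (fun m => (((m : ℤ) + v) / p).toNat) ?_ ?_ (by positivity) ?_
  · intro m hm n hn h
    obtain ⟨k, h1, -, -, h2⟩ := key m hm
    obtain ⟨l, h3, -, -, h4⟩ := key n hn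
    have h5 : k = l := by
      rw [← h1, ← h3]
      exact h
    rw [h5] at h2
    have : (m : ℤ) = n := by linarith
    exact_mod_cast this
  · intro m hm
    obtain ⟨k, h1, h2, h3, -⟩ := key m hm
    beta_reduce
    rw [h1, Finset.mem_Icc]
    exact ⟨h2, h3⟩
  · intro m hm
    obtain ⟨k, h1, h2, h3, h4⟩ := key m hm
    beta_reduce
    rw [h1]
    have hm1 : 1 ≤ m := (Finset.mem_Icc.1 (Finset.mem_filter.1 hm).1).1
    have hk : (1 : ℝ) ≤ k := by exact_mod_cast h2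
    have hm0 : (0 : ℝ) < m := by
      have : (1 : ℝ) ≤ m := by exact_mod_cast hm1
      linarith
    have h5 : (p : ℤ) * k ≤ 2 * m := by
      have hk1 : (1 : ℤ) ≤ k := by exact_mod_cast h2
      nlinarith
    have h6 : (p : ℝ) * k ≤ 2 * m := by exact_mod_cast h5
    rw [div_mul_div_comm, mul_one, div_le_div_iff₀ hm0 (by positivity)]
    linarith

open Classical in
theorem pair_sum {r : ℕ} (e : Fin r → ℤ) {B : ℕ} (hB : ∀ A, |vert e A| ≤ B) {p : ℕ}
    (hp : 2 * B < p) (X : ℕ) :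
    ∑ m ∈ (Finset.Icc 1 X).filter (fun m : ℕ => ∃ A : Finset (Fin r),
      0 < (m : ℤ) + vert e A ∧ (p : ℤ) ∣ m + vert e A), (1 / m : ℝ) ≤
      2 ^ r * (2 / p) * hs X := by
  have h1 : ∑ m ∈ (Finset.Icc 1 X).filter (fun m : ℕ => ∃ A : Finset (Fin r),
      0 < (m : ℤ) + vert e A ∧ (p : ℤ) ∣ m + vert e A), (1 / m : ℝ) ≤
      ∑ A : Finset (Fin r), ∑ m ∈ (Finset.Icc 1 X).filter (fun m : ℕ =>
        0 < (m : ℤ) + vert e A ∧ (p : ℤ) ∣ m + vert e A), (1 / m : ℝ) := by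
    simp_rw [Finset.sum_filter]
    rw [Finset.sum_comm]
    refine Finset.sum_le_sum fun m _ => ?_
    by_cases h : ∃ A : Finset (Fin r), 0 < (m : ℤ) + vert e A ∧ (p : ℤ) ∣ m + vert e A
    · rw [if_pos h]
      obtain ⟨A, hA⟩ := h
      have h2 := Finset.single_le_sum (s := Finset.univ)
        (f := fun A : Finset (Fin r) => if 0 < (m : ℤ) + vert e A ∧ (p : ℤ) ∣ m + vert e A then
          (1 / m : ℝ) else 0) (fun A _ => by split_ifs <;> positivity) (Finset.mem_univ A)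
      simp only [if_pos hA] at h2
      exact h2
    · rw [if_neg h]
      exact Finset.sum_nonneg fun A _ => by split_ifs <;> positivity
  refine h1.trans ((Finset.sum_le_sum fun A _ => one_vert hp X (vert e A) (hB A)).trans ?_)
  rw [Finset.sum_const, nsmul_eq_mul, Finset.card_univ, Fintype.card_finset, Fintype.card_fin]
  push_cast
  rw [mul_assoc]

end Pool.Agent.Work.MP_58cfe3_nt
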