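import Pool.Agent.Work.MP_58cfe3_nt.Basic
import Pool.Agent.Work.MP_58cfe3_nt.RDefs

/-!
# Module RSum (size M): an Euler product bound

PROOF. Let `F n = 1/n` if every prime `p ∈ Q`, `p > w`, dividing `n` satisfies `p² ∣ n`, else `0` (`F 0` arbitrary);
`F 1 = 1` and `F` is multiplicative on coprime arguments. By
`EulerProduct.summable_and_hasSum_smoothNumbers_prod_primesBelow_tsum` (Mathlib) with `N = X + 1`:
`∑_{n (X+1)-smooth} F n = ∏_{p ∈ (X+1).primesBelow} ∑' k, F (p^k)`. All `n ∈ N0 Q w X` are `(X+1)`-smooth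
(`n ≤ X`), so the left side is an upper bound of the sum. Local factors: `∑' k, F (p^k) = (1 - 1/p)⁻¹` in general, and for
`p ∈ Q`, `p > w`: `1 + ∑_{k ≥ 2} p^(-k) = (1 - 1/p)⁻¹ - 1/p = (1 - 1/p)⁻¹ (1 - 1/p + 1/p²)`.
-/

set_option autoImplicit false

namespace Pool.Agent.Work.MP_58cfe3_nt

open Filter Topology

/-- no exact divisor -/
private def good (Q : Set ℕ) (w n : ℕ) : Prop := ∀ p ∈ Q, p.Prime → w < p → p ∣ n → p ^ 2 ∣ n

open Classical in
private noncomputable def FF (Q : Set ℕ) (w n : ℕ) : ℝ := if good Q w n then (n : ℝ)⁻¹ else 0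

private theorem FF_one (Q : Set ℕ) (w : ℕ) : FF Q w 1 = 1 := by
  unfold FF
  rw [if_pos]
  · simp
  · intro p _ hp _ h
    exact absurd (Nat.dvd_one.1 h) hp.one_lt.ne'

private theorem good_mul {Q : Set ℕ} {w m n : ℕ} (h : Nat.Coprime m n) :
    good Q w (m * n) ↔ good Q w m ∧ good Q w n := by
  constructor
  · intro hg
    constructor
    · intro p hpQ hp hw hd
      have h1 := hg p hpQ hp hw (hd.mul_right n)
      have h2 : Nat.Coprime (p ^ 2) n := (Nat.Coprime.coprime_dvd_left hd h).pow_left 2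
      exact h2.dvd_of_dvd_mul_right h1
    · intro p hpQ hp hw hd
      have h1 := hg p hpQ hp hw (hd.mul_left m)
      have h2 : Nat.Coprime (p ^ 2) m := (Nat.Coprime.coprime_dvd_left hd h.symm).pow_left 2
      exact h2.dvd_of_dvd_mul_left h1
  · rintro ⟨h1, h2⟩ p hpQ hp hw hd
    rcases (hp.dvd_mul).1 hd with h3 | h3
    · exact (h1 p hpQ hp hw h3).mul_right n
    · exact (h2 p hpQ hp hw h3).mul_left m

private theorem FF_mul (Q : Set ℕ) (w : ℕ) {m n : ℕ} (h : Nat.Coprime m n) :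
    FF Q w (m * n) = FF Q w m * FF Q w n := by
  unfold FF
  by_cases h1 : good Q w m
  · by_cases h2 : good Q w n
    · rw [if_pos ((good_mul h).2 ⟨h1, h2⟩), if_pos h1, if_pos h2]
      push_cast
      rw [mul_inv]
    · rw [if_neg (fun hh => h2 ((good_mul h).1 hh).2), if_neg h2, mul_zero]
  · rw [if_neg (fun hh => h1 ((good_mul h).1 hh).1), if_neg h1, zero_mul]

private theorem FF_nonneg (Q : Set ℕ) (w n : ℕ) : 0 ≤ FF Q w n := by
  unfold FF
  split_ifs
  · positivity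
  · exact le_rfl

private theorem FF_le (Q : Set ℕ) (w n : ℕ) : FF Q w n ≤ (n : ℝ)⁻¹ := by
  unfold FF
  split_ifs
  · exact le_rfl
  · positivity

private theorem geo {p : ℕ} (hp : p.Prime) :
    HasSum (fun k : ℕ => (1 / (p : ℝ)) ^ k) (1 - 1 / (p : ℝ))⁻¹ := by
  have h1 : (1 : ℝ) < p := by exact_mod_cast hp.one_lt
  refine hasSum_geometric_of_lt_one (by positivity) ?_
  rw [div_lt_one (by linarith)]
  exact h1

private theorem FF_summable (Q : Set ℕ) (w : ℕ) {p : ℕ} (hp : p.Prime) :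
    Summable fun n : ℕ => ‖FF Q w (p ^ n)‖ := by
  refine Summable.of_nonneg_of_le (fun _ => norm_nonneg _) (fun k => ?_) (geo hp).summable
  rw [Real.norm_of_nonneg (FF_nonneg _ _ _)]
  refine (FF_le _ _ _).trans (le_of_eq ?_)
  push_cast
  rw [one_div, inv_pow]

private theorem FF_tsum_gen {Q : Set ℕ} {w p : ℕ} (hp : p.Prime) (h : ¬ (p ∈ Q ∧ w < p)) :
    ∑' k : ℕ, FF Q w (p ^ k) = (1 - 1 / (p : ℝ))⁻¹ := by
  rw [← (geo hp).tsum_eq]
  refine tsum_congr fun k => ?_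
  unfold FF
  rw [if_pos]
  · push_cast
    rw [one_div, inv_pow]
  · intro q hqQ hq hw hd
    have h1 : q = p := (Nat.prime_dvd_prime_iff_eq hq hp).1 (hq.dvd_of_dvd_pow hd)
    exact absurd ⟨h1 ▸ hqQ, h1 ▸ hw⟩ h

private theorem FF_tsum_Q {Q : Set ℕ} {w p : ℕ} (hp : p.Prime) (h : p ∈ Q) (hw : w < p) :
    ∑' k : ℕ, FF Q w (p ^ k) =
      (1 - 1 / (p : ℝ))⁻¹ * (1 - 1 / (p : ℝ) + 1 / (p : ℝ) ^ 2) := by
  have h1 : (1 : ℝ) < p := by exact_mod_cast hp.one_lt
  have h2 : (1 : ℝ) - 1 / p ≠ 0 := by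
    have : 1 / (p : ℝ) < 1 := by rw [div_lt_one (by linarith)]; exact h1
    linarith
  have h3 : HasSum (fun k : ℕ => (1 / (p : ℝ)) ^ k - if k = 1 then 1 / (p : ℝ) else 0)
      ((1 - 1 / (p : ℝ))⁻¹ - 1 / (p : ℝ)) := (geo hp).sub (hasSum_ite_eq 1 (1 / (p : ℝ)))
  have h4 : (1 - 1 / (p : ℝ))⁻¹ * (1 - 1 / (p : ℝ) + 1 / (p : ℝ) ^ 2) =
      (1 - 1 / (p : ℝ))⁻¹ - 1 / (p : ℝ) := by
    rw [eq_sub_iff_add_eq, inv_mul_eq_div, div_add' _ _ _ h2, div_eq_iff h2, inv_mul_cancel₀ h2]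
    field_simp
    ring
  rw [h4, ← h3.tsum_eq]
  refine tsum_congr fun k => ?_
  unfold FF
  by_cases hk : k = 1
  · subst hk
    rw [if_neg, if_pos rfl]
    · simp
    · intro hg
      have h5 := hg p h hp hw (by rw [pow_one])
      rw [pow_one] at h5
      have h6 := Nat.le_of_dvd hp.pos h5
      have h7 := hp.one_lt
      nlinarith
  · rw [if_pos, if_neg hk, sub_zero]
    · push_cast
      rw [one_div, inv_pow]
    · intro q hqQ hq hw' hd
      have h1 : q = p := (Nat.prime_dvd_prime_iff_eq hq hp).1 (hq.dvd_of_dvd_pow hd)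
      subst h1
      have h5 : 2 ≤ k := by
        rcases Nat.lt_or_ge k 2 with hk2 | hk2
        · have : k = 0 := by omega
          subst this
          rw [pow_zero] at hd
          exact absurd (Nat.dvd_one.1 hd) hq.one_lt.ne'
        · exact hk2
      exact pow_dvd_pow q h5

open Classical in
theorem n0_sum (Q : Set ℕ) (w X : ℕ) :
    ∑ n ∈ N0 Q w X, (1 / n : ℝ) ≤
      (∏ p ∈ (Finset.Icc 1 X).filter Nat.Prime, (1 - 1 / (p : ℝ))⁻¹) *
        ∏ p ∈ (Finset.Icc 1 X).filter (fun p => p.Prime ∧ p ∈ Q ∧ w < p),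
          (1 - 1 / (p : ℝ) + 1 / (p : ℝ) ^ 2) := by
  have h1 := (EulerProduct.summable_and_hasSum_factoredNumbers_prod_filter_prime_tsum
    (FF_one Q w) (fun {m n} h => FF_mul Q w h) (fun {p} hp => FF_summable Q w hp)
    (Finset.Icc 1 X)).2
  have h2 : ∏ p ∈ (Finset.Icc 1 X).filter Nat.Prime, ∑' n : ℕ, FF Q w (p ^ n) =
      (∏ p ∈ (Finset.Icc 1 X).filter Nat.Prime, (1 - 1 / (p : ℝ))⁻¹) *
        ∏ p ∈ (Finset.Icc 1 X).filter (fun p => p.Prime ∧ p ∈ Q ∧ w < p),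
          (1 - 1 / (p : ℝ) + 1 / (p : ℝ) ^ 2) := by
    have h3 : (Finset.Icc 1 X).filter (fun p => p.Prime ∧ p ∈ Q ∧ w < p) =
        ((Finset.Icc 1 X).filter Nat.Prime).filter (fun p => p ∈ Q ∧ w < p) := by
      rw [Finset.filter_filter]
    rw [h3, Finset.prod_filter (fun p => p ∈ Q ∧ w < p), ← Finset.prod_mul_distrib]
    refine Finset.prod_congr rfl fun p hp => ?_
    have hp' := (Finset.mem_filter.1 hp).2
    split_ifs with h
    · exact FF_tsum_Q hp' h.1 h.2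
    · rw [mul_one]
      exact FF_tsum_gen hp' h
  rw [← h2]
  have h4 : HasSum ((Nat.factoredNumbers (Finset.Icc 1 X)).indicator (FF Q w))
      (∏ p ∈ (Finset.Icc 1 X).filter Nat.Prime, ∑' n : ℕ, FF Q w (p ^ n)) :=
    hasSum_subtype_iff_indicator.1 h1
  refine le_trans (le_of_eq ?_) (sum_le_hasSum (N0 Q w X) (fun i _ => ?_) h4)
  · refine Finset.sum_congr rfl fun n hn => ?_
    rw [N0, Finset.mem_filter, Finset.mem_Icc] at hn
    rw [Set.indicator_of_mem]
    · have hg : good Q w n := hn.2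
      unfold FF
      rw [if_pos hg, one_div]
    · rw [Nat.mem_factoredNumbers]
      refine ⟨by omega, fun p hp => ?_⟩
      have h5 := Nat.prime_of_mem_primeFactorsList hp
      have h6 := Nat.le_of_mem_primeFactorsList hp
      exact Finset.mem_Icc.2 ⟨h5.one_lt.le, h6.trans hn.1.2⟩
  · exact Set.indicator_nonneg (fun n _ => FF_nonneg Q w n) i

end Pool.Agent.Work.MP_58cfe3_nt
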