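import Pool.Agent.Work.MP_58cfe3_nt.RExp
import Pool.Agent.Work.MP_58cfe3_nt.RPair

/-!
# Module RVar (size M): the second moment

PROOF. Put `F ω n = cube (twist f Q fun q => ε q ω) e n`, `S = hs X ≥ 1`; `‖F ω n‖ ≤ 1` (as in `norm_cube_le`: `twist` has
norm `≤ 1`). `‖Elog (F ω) X‖² = S⁻² ∑_{n, m ≤ X} F n * star (F m)/(n m)` as a complex number, so the integral is
`≤ S⁻² ∑_{n,m} |E[F n * star (F m)]|/(n m)`, each expectation of norm `≤ 1`.
Claim: `E[F n star (F m)] = 0` unless `n ∈ N0 Q w X` or there is a prime `p` with `w < p ≤ X`, `p ∣ n` and a set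
`A` with `0 < m + vert e A`, `p ∣ m + vert e A`. Indeed if `n ∉ N0`, there is a prime `p ∈ Q`, `p > w`, `p ∣ n`,
`p² ∤ n`; for `A ≠ ∅`, `vert e A ≠ vert e ∅ = 0` and `|vert e A| ≤ B < p`, so `p ∤ n + vert e A`. If some vertex of
`m` is `≤ 0`, then `F m = 0` (`f` vanishes there). Otherwise all vertices are positive and, if `p` divides none,
`exp_zero` applies. Hence
`∑ ≤ (∑_{n ∈ N0} 1/n) S + ∑_{w < p ≤ X} (1/p) S * 2^r (2/p) S` (by `hdiv_sum`, `pair_sum`) and
`∑_{p > w} 1/p² ≤ 1/w`.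
-/

set_option autoImplicit false

namespace Pool.Agent.Work.MP_58cfe3_nt

open Filter Topology MeasureTheory ProbabilityTheory

private theorem norm_twist_le {f : ℤ → ℂ} (hf : ∀ n, ‖f n‖ ≤ 1) (Q : Set ℕ) {ε : ℕ → ℂ}
    (hε : ∀ p, ‖ε p‖ ≤ 1) (n : ℤ) : ‖twist f Q ε n‖ ≤ 1 := by
  unfold twist
  rw [norm_mul]
  refine mul_le_one₀ (hf n) (norm_nonneg _) (norm_prod_le_one _ _ fun p _ => ?_)
  split_ifs
  · rw [norm_pow]
    exact pow_le_one₀ (norm_nonneg _) (hε p)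
  · rw [norm_one]

private theorem hs_eq (X : ℕ) : ∑ n ∈ Finset.Icc 1 X, (1 / n : ℂ) = ((hs X : ℝ) : ℂ) := by
  unfold hs
  push_cast
  rfl

private theorem hs_pos {X : ℕ} (hX : 1 ≤ X) : 0 < hs X := by
  unfold hs
  refine Finset.sum_pos (fun n hn => ?_) ⟨1, Finset.mem_Icc.2 ⟨le_rfl, hX⟩⟩
  have : 1 ≤ n := (Finset.mem_Icc.1 hn).1
  positivity

private theorem norm_Elog_sq (g : ℤ → ℂ) (X : ℕ) :
    ‖Elog g X‖ ^ 2 = ‖∑ n ∈ Finset.Icc 1 X, g n / n‖ ^ 2 / hs X ^ 2 := by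
  unfold Elog
  rw [hs_eq, norm_div, div_pow, Complex.norm_real, Real.norm_eq_abs, sq_abs]

private theorem norm_sq_sum (a : ℕ → ℂ) (X : ℕ) :
    ((‖∑ n ∈ Finset.Icc 1 X, a n / n‖ ^ 2 : ℝ) : ℂ) =
      ∑ n ∈ Finset.Icc 1 X, ∑ m ∈ Finset.Icc 1 X, a n * star (a m) / ((n : ℂ) * m) := by
  rw [← Complex.normSq_eq_norm_sq, ← Complex.mul_conj, map_sum, Finset.sum_mul_sum]
  refine Finset.sum_congr rfl fun n _ => Finset.sum_congr rfl fun m _ => ?_
  rw [map_div₀, Complex.conj_natCast, div_mul_div_comm]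
  rfl

private theorem sum_inv_sq (w X : ℕ) (hw : 1 ≤ w) :
    ∑ p ∈ (Finset.Icc 1 X).filter (fun p => p.Prime ∧ w < p), (1 / (p : ℝ)) * (1 / p) ≤ 1 / w := by
  have h1 : (Finset.Icc 1 X).filter (fun p => p.Prime ∧ w < p) ⊆ Finset.Ioc w X := by
    intro p hp
    rw [Finset.mem_filter, Finset.mem_Icc] at hp
    exact Finset.mem_Ioc.2 ⟨hp.2.2, hp.1.2⟩
  refine (Finset.sum_le_sum_of_subset_of_nonneg h1 fun p _ _ => by positivity).trans ?_
  rcases le_or_gt w X with h | h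
  · have h2 := sum_Ioc_inv_sq_le_sub (α := ℝ) (show w ≠ 0 by omega) h
    have h3 : ∑ p ∈ Finset.Ioc w X, (1 / (p : ℝ)) * (1 / p) = ∑ p ∈ Finset.Ioc w X, ((p : ℝ) ^ 2)⁻¹ :=
      Finset.sum_congr rfl fun p _ => by
        rw [one_div, sq, mul_inv]
    rw [h3, one_div]
    have h4 : (0 : ℝ) ≤ (X : ℝ)⁻¹ := by positivity
    linarith
  · rw [Finset.Ioc_eq_empty (by omega), Finset.sum_empty]
    positivity

open Classical in
private theorem double_sum (Q : Set ℕ) {w X : ℕ} (hw : 1 ≤ w) {r : ℕ} (e : Fin r → ℤ) {B : ℕ}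
    (hB : ∀ A, |vert e A| ≤ B) (hw' : 2 * B ≤ w) (E : ℕ → ℕ → ℂ) (hE1 : ∀ n m, ‖E n m‖ ≤ 1)
    (hE : ∀ n ∈ Finset.Icc 1 X, ∀ m ∈ Finset.Icc 1 X, E n m ≠ 0 → n ∈ N0 Q w X ∨
      ∃ p ∈ (Finset.Icc 1 X).filter (fun p => p.Prime ∧ w < p), p ∣ n ∧
        ∃ A : Finset (Fin r), 0 < (m : ℤ) + vert e A ∧ (p : ℤ) ∣ m + vert e A) :
    ∑ n ∈ Finset.Icc 1 X, ∑ m ∈ Finset.Icc 1 X, ‖E n m / ((n : ℂ) * m)‖ ≤
      (∑ n ∈ N0 Q w X, (1 / n : ℝ)) * hs X + 2 ^ (r + 1) / w * hs X ^ 2 := by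
  obtain ⟨Ps, hPs⟩ : ∃ Ps, Ps = (Finset.Icc 1 X).filter (fun p => p.Prime ∧ w < p) := ⟨_, rfl⟩
  rw [← hPs] at hE
  have hPw : ∀ p ∈ Ps, w < p := fun p hp => by
    rw [hPs, Finset.mem_filter] at hp
    exact hp.2.2
  have hhs : 0 ≤ hs X := Finset.sum_nonneg fun n _ => by positivity
  have h1 : ∀ n ∈ Finset.Icc 1 X, ∀ m ∈ Finset.Icc 1 X, ‖E n m / ((n : ℂ) * m)‖ ≤
      (if n ∈ N0 Q w X then (1 / n : ℝ) else 0) * (1 / m) +
      ∑ p ∈ Ps, (if p ∣ n then (1 / n : ℝ) else 0) * (if ∃ A : Finset (Fin r),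
        0 < (m : ℤ) + vert e A ∧ (p : ℤ) ∣ m + vert e A then (1 / m : ℝ) else 0) := by
    intro n hn m hm
    have hx : 0 ≤ (if n ∈ N0 Q w X then (1 / n : ℝ) else 0) * (1 / m) := by
      split_ifs <;> positivity
    have hy : ∀ p ∈ Ps, 0 ≤ (if p ∣ n then (1 / n : ℝ) else 0) * (if ∃ A : Finset (Fin r),
        0 < (m : ℤ) + vert e A ∧ (p : ℤ) ∣ m + vert e A then (1 / m : ℝ) else 0) := by
      intro p _
      split_ifs <;> positivity
    have hz : ‖E n m / ((n : ℂ) * m)‖ ≤ (1 / n) * (1 / m) := by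
      rw [norm_div, norm_mul, Complex.norm_natCast, Complex.norm_natCast, div_mul_div_comm, one_mul]
      exact div_le_div_of_nonneg_right (hE1 n m) (by positivity)
    by_cases h0 : E n m = 0
    · rw [h0, zero_div, norm_zero]
      exact add_nonneg hx (Finset.sum_nonneg hy)
    · rcases hE n hn m hm h0 with h | ⟨p, hp, hpn, hA⟩
      · rw [if_pos h]
        refine hz.trans ?_
        have := Finset.sum_nonneg hy
        linarith
      · have h2 := Finset.single_le_sum hy hp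
        rw [if_pos hpn, if_pos hA] at h2
        linarith
  refine (Finset.sum_le_sum fun n hn => Finset.sum_le_sum fun m hm => h1 n hn m hm).trans ?_
  have h2 : ∑ n ∈ Finset.Icc 1 X, ∑ m ∈ Finset.Icc 1 X,
      ((if n ∈ N0 Q w X then (1 / n : ℝ) else 0) * (1 / m) +
      ∑ p ∈ Ps, (if p ∣ n then (1 / n : ℝ) else 0) * (if ∃ A : Finset (Fin r),
        0 < (m : ℤ) + vert e A ∧ (p : ℤ) ∣ m + vert e A then (1 / m : ℝ) else 0)) =
      (∑ n ∈ N0 Q w X, (1 / n : ℝ)) * hs X + ∑ p ∈ Ps,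
        (∑ n ∈ (Finset.Icc 1 X).filter (fun n => p ∣ n), (1 / n : ℝ)) *
        ∑ m ∈ (Finset.Icc 1 X).filter (fun m : ℕ => ∃ A : Finset (Fin r),
          0 < (m : ℤ) + vert e A ∧ (p : ℤ) ∣ m + vert e A), (1 / m : ℝ) := by
    simp only [Finset.sum_add_distrib]
    congr 1
    · rw [← Finset.sum_mul_sum, Finset.sum_ite_mem]
      congr 2
      refine Finset.inter_eq_right.2 ?_
      unfold N0
      exact Finset.filter_subset _ _
    · simp_rw [Finset.sum_filter, Finset.sum_mul_sum]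
      exact (Finset.sum_congr rfl fun n _ => Finset.sum_comm).trans Finset.sum_comm
  rw [h2]
  have h3 : ∀ p ∈ Ps, (∑ n ∈ (Finset.Icc 1 X).filter (fun n => p ∣ n), (1 / n : ℝ)) *
        (∑ m ∈ (Finset.Icc 1 X).filter (fun m : ℕ => ∃ A : Finset (Fin r),
          0 < (m : ℤ) + vert e A ∧ (p : ℤ) ∣ m + vert e A), (1 / m : ℝ)) ≤
      2 ^ (r + 1) * hs X ^ 2 * ((1 / p) * (1 / p)) := by
    intro p hp
    have hpw := hPw p hp
    have h4 := hdiv_sum (p := p) (by omega) X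
    have h5 := pair_sum e hB (p := p) (by omega) X
    have h6 : 0 ≤ ∑ m ∈ (Finset.Icc 1 X).filter (fun m : ℕ => ∃ A : Finset (Fin r),
          0 < (m : ℤ) + vert e A ∧ (p : ℤ) ∣ m + vert e A), (1 / m : ℝ) :=
      Finset.sum_nonneg fun m _ => by positivity
    refine (mul_le_mul h4 h5 h6 (by positivity)).trans (le_of_eq ?_)
    ring
  have h7 : ∑ p ∈ Ps, (1 / (p : ℝ)) * (1 / p) ≤ 1 / w := by
    rw [hPs]
    exact sum_inv_sq w X hw
  refine add_le_add le_rfl ((Finset.sum_le_sum h3).trans ?_)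
  rw [← Finset.mul_sum]
  calc 2 ^ (r + 1) * hs X ^ 2 * ∑ p ∈ Ps, (1 / (p : ℝ)) * (1 / p)
      ≤ 2 ^ (r + 1) * hs X ^ 2 * (1 / w) := mul_le_mul_of_nonneg_left h7 (by positivity)
    _ = 2 ^ (r + 1) / w * hs X ^ 2 := by ring

theorem second_moment {Ω : Type} [MeasurableSpace Ω] {P : Measure Ω} [IsProbabilityMeasure P]
    {ε : ℕ → Ω → ℂ} (hm : ∀ p, Measurable (ε p)) (hi : iIndepFun ε P) (hb : ∀ p ω, ‖ε p ω‖ ≤ 1)
    {Q : Set ℕ} (h0 : ∀ p ∈ Q, ∫ ω, ε p ω ∂P = 0) {f : ℤ → ℂ} (hf : MulBdd f)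
    {r : ℕ} (e : Fin r → ℤ) (he : Function.Injective (vert e)) {B : ℕ} (hB : ∀ A, |vert e A| ≤ B)
    {w : ℕ} (hw : 1 ≤ w) (hw' : 2 * B ≤ w) {X : ℕ} (hX : 1 ≤ X) :
    ∫ ω, ‖Elog (cube (twist f Q fun q => ε q ω) e) X‖ ^ 2 ∂P ≤
      (∑ n ∈ N0 Q w X, (1 / n : ℝ)) / hs X + 2 ^ (r + 1) / w := by
  classical
  have hF1 : ∀ ω (n : ℤ), ‖cube (twist f Q fun q => ε q ω) e n‖ ≤ 1 := fun ω n =>
    norm_cube_le (fun n => norm_twist_le hf.bdd Q (fun p => hb p ω) n) e n
  have hFm : ∀ n : ℤ, Measurable fun ω => cube (twist f Q fun q => ε q ω) e n :=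
    fun n => cube_meas hm Q f e n
  have hFF : ∀ n m : ℤ, ∀ ω, ‖cube (twist f Q fun q => ε q ω) e n *
      star (cube (twist f Q fun q => ε q ω) e m)‖ ≤ 1 := by
    intro n m ω
    rw [norm_mul, norm_star]
    exact mul_le_one₀ (hF1 ω n) (norm_nonneg _) (hF1 ω m)
  have hint : ∀ n m : ℤ, Integrable (fun ω => cube (twist f Q fun q => ε q ω) e n *
      star (cube (twist f Q fun q => ε q ω) e m)) P := by
    intro n m
    refine Integrable.of_bound ?_ 1 (Filter.Eventually.of_forall fun ω => hFF n m ω)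
    exact ((hFm n).mul (continuous_star.measurable.comp (hFm m))).aestronglyMeasurable
  have h1 : ((∫ ω, ‖∑ n ∈ Finset.Icc 1 X, cube (twist f Q fun q => ε q ω) e n / n‖ ^ 2 ∂P : ℝ) : ℂ) =
      ∑ n ∈ Finset.Icc 1 X, ∑ m ∈ Finset.Icc 1 X,
        (∫ ω, cube (twist f Q fun q => ε q ω) e n * star (cube (twist f Q fun q => ε q ω) e m) ∂P) /
          ((n : ℂ) * m) := by
    rw [← integral_complex_ofReal]
    simp_rw [norm_sq_sum]
    rw [integral_finsetSum]
    · refine Finset.sum_congr rfl fun n _ => ?_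
      rw [integral_finsetSum]
      · refine Finset.sum_congr rfl fun m _ => ?_
        rw [integral_div]
      · intro m _
        exact (hint n m).div_const _
    · intro n _
      exact integrable_finsetSum _ fun m _ => (hint n m).div_const _
  have h2 : ∫ ω, ‖∑ n ∈ Finset.Icc 1 X, cube (twist f Q fun q => ε q ω) e n / n‖ ^ 2 ∂P ≤
      (∑ n ∈ N0 Q w X, (1 / n : ℝ)) * hs X + 2 ^ (r + 1) / w * hs X ^ 2 := by
    have h3 : ∫ ω, ‖∑ n ∈ Finset.Icc 1 X, cube (twist f Q fun q => ε q ω) e n / n‖ ^ 2 ∂P ≤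
        ‖((∫ ω, ‖∑ n ∈ Finset.Icc 1 X, cube (twist f Q fun q => ε q ω) e n / n‖ ^ 2 ∂P : ℝ) : ℂ)‖ := by
      rw [Complex.norm_real]
      exact le_abs_self _
    refine h3.trans ?_
    rw [h1]
    refine (norm_sum_le _ _).trans ((Finset.sum_le_sum fun n _ => norm_sum_le _ _).trans ?_)
    refine double_sum Q hw e hB hw'
      (fun n m => ∫ ω, cube (twist f Q fun q => ε q ω) e n *
        star (cube (twist f Q fun q => ε q ω) e m) ∂P) ?_ ?_
    · intro n m
      have h4 := norm_integral_le_of_norm_le_const (μ := P)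
        (Filter.Eventually.of_forall fun ω => hFF n m ω)
      simpa using h4
    · intro n hn m hm' hne
      by_contra hcon
      rw [not_or] at hcon
      obtain ⟨hn0, hno⟩ := hcon
      apply hne
      have hn1 := Finset.mem_Icc.1 hn
      have hex : ∃ p ∈ Q, p.Prime ∧ w < p ∧ p ∣ n ∧ ¬ p ^ 2 ∣ n := by
        by_contra hc
        apply hn0
        unfold N0
        rw [Finset.mem_filter]
        refine ⟨hn, fun p hpQ hp hwp hpn => ?_⟩
        by_contra h5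
        exact hc ⟨p, hpQ, hp, hwp, hpn, h5⟩
      obtain ⟨p, hpQ, hp, hwp, hpn, hpn2⟩ := hex
      have hpX : p ≤ X := (Nat.le_of_dvd (by omega) hpn).trans hn1.2
      have hpos : ∀ A : Finset (Fin r), ¬ (0 < (m : ℤ) + vert e A ∧ (p : ℤ) ∣ m + vert e A) := by
        intro A hA
        apply hno
        refine ⟨p, ?_, hpn, A, hA⟩
        rw [Finset.mem_filter, Finset.mem_Icc]
        exact ⟨⟨hp.one_lt.le, hpX⟩, hp, hwp⟩
      by_cases hneg : ∃ A : Finset (Fin r), (m : ℤ) + vert e A ≤ 0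
      · obtain ⟨A, hA⟩ := hneg
        have h6 : ∀ ω, cube (twist f Q fun q => ε q ω) e m = 0 := by
          intro ω
          unfold cube
          refine Finset.prod_eq_zero (Finset.mem_univ A) ?_
          have h7 : twist f Q (fun q => ε q ω) ((m : ℤ) + vert e A) = 0 := by
            unfold twist
            rw [hf.nonpos _ hA, zero_mul]
          rw [h7]
          simp
        simp [h6]
      · have hneg' : ∀ A : Finset (Fin r), 0 < (m : ℤ) + vert e A := fun A => by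
          by_contra h8
          exact hneg ⟨A, not_lt.1 h8⟩
        refine exp_zero hm hi hb h0 hf e hp hpQ (by exact_mod_cast hpn) ?_ ?_ ?_
        · intro h8
          apply hpn2
          exact_mod_cast h8
        · intro A hA h8
          have h9 : (p : ℤ) ∣ vert e A := by
            have h10 : (p : ℤ) ∣ n := by exact_mod_cast hpn
            exact (dvd_add_right h10).1 h8
          have h11 : vert e A ≠ 0 := by
            intro h12
            have h13 : vert e A = vert e ∅ := by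
              rw [h12]
              simp [vert]
            have h14 := he h13
            rw [h14] at hA
            exact Finset.not_nonempty_empty hA
          have h15 := Int.le_of_dvd (abs_pos.2 h11) ((dvd_abs _ _).2 h9)
          have h16 := hB A
          omega
        · intro A h8
          exact hpos A ⟨hneg' A, h8⟩
  simp_rw [norm_Elog_sq]
  rw [integral_div, div_le_iff₀ (pow_pos (hs_pos hX) 2)]
  refine h2.trans (le_of_eq ?_)
  have h3 := (hs_pos hX).ne'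
  field_simp

end Pool.Agent.Work.MP_58cfe3_nt
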