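import Pool.Agent.Work.MP_58cfe3_nt.SCrt

/-!
# Module SAny (size M): counting with a union of classes

PROOF. For `p ∈ E` at most one `i` has `p ∣ n + v i` (`hT.inj`: `p ∣ v i - v j` otherwise). So the set is the
disjoint union over the functions `τ : E → ι` (finite type) of the sets of `n` with `p ∣ n + v (τ p)` for all
`p ∈ E`, each counted by `crt_count` for `D ∪ E` and `c' p = c p` on `D`, `- v (τ p)` on `E`:
`x/(M ∏_D p ∏_E p)` with an error `≤ 1`. There are `κ ^ |E|` functions; and
`κ^|E| x/(M ∏_D p ∏_E p) = x/(M ∏_D p) * ∏_E (κ/p)`.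
(Alternatively induction on `E`.)
-/

set_option autoImplicit false

namespace Pool.Agent.Work.MP_58cfe3_nt

open Filter Topology

open Classical in
theorem any_count {ι : Type} [Fintype ι] {v : ι → ℤ} {M z : ℕ} {T : Finset ℕ} (hM : 0 < M)
    (hT : TP v M z T) {D E : Finset ℕ} (hD : D ⊆ T) (hE : E ⊆ T) (hDE : Disjoint D E)
    (c : ℕ → ℤ) (r : ℤ) (x : ℕ) :
    |(((cls x M r).filter fun n : ℕ => (∀ p ∈ D, (p : ℤ) ∣ (n : ℤ) - c p) ∧
        ∀ p ∈ E, ∃ i, (p : ℤ) ∣ (n : ℤ) + v i).card : ℝ) -
      x / (M * ∏ p ∈ D, (p : ℝ)) * ∏ p ∈ E, ((Fintype.card ι : ℝ) / p)| ≤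
      (Fintype.card ι : ℝ) ^ E.card := by
  induction E using Finset.induction_on generalizing D c with
  | empty =>
    have h1 := crt_count hM (D := D) (fun p hp => ⟨hT.prime p (hD hp), hT.cop p (hD hp)⟩) c r x
    simpa using h1
  | insert q E hq ih =>
    have hqT : q ∈ T := hE (Finset.mem_insert_self q E)
    have hqD : q ∉ D := fun h => (Finset.disjoint_left.1 hDE h) (Finset.mem_insert_self q E)
    have hET : E ⊆ T := fun p hp => hE (Finset.mem_insert_of_mem hp)
    have hDE' : Disjoint (insert q D) E := by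
      rw [Finset.disjoint_insert_left]
      exact ⟨hq, hDE.mono_right (Finset.subset_insert q E)⟩
    have hDT : insert q D ⊆ T := Finset.insert_subset hqT hD
    have hq0 : (q : ℝ) ≠ 0 := by
      have := (hT.prime q hqT).pos
      positivity
    have h1 : ((cls x M r).filter fun n : ℕ => (∀ p ∈ D, (p : ℤ) ∣ (n : ℤ) - c p) ∧
        ∀ p ∈ insert q E, ∃ i, (p : ℤ) ∣ (n : ℤ) + v i) =
        Finset.univ.biUnion fun i => (cls x M r).filter fun n : ℕ =>
          (∀ p ∈ insert q D, (p : ℤ) ∣ (n : ℤ) - Function.update c q (- v i) p) ∧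
          ∀ p ∈ E, ∃ i, (p : ℤ) ∣ (n : ℤ) + v i := by
      ext n
      simp only [Finset.mem_filter, Finset.mem_biUnion, Finset.mem_univ, true_and]
      constructor
      · rintro ⟨hn, hd, he⟩
        obtain ⟨i, hi⟩ := he q (Finset.mem_insert_self q E)
        refine ⟨i, hn, ?_, fun p hp => he p (Finset.mem_insert_of_mem hp)⟩
        intro p hp
        rcases Finset.mem_insert.1 hp with rfl | hp
        · rw [Function.update_self, sub_neg_eq_add]
          exact hi
        · have hpq : p ≠ q := fun h => hqD (h ▸ hp)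
          rw [Function.update_of_ne hpq]
          exact hd p hp
      · rintro ⟨i, hn, hd, he⟩
        refine ⟨hn, ?_, ?_⟩
        · intro p hp
          have hpq : p ≠ q := fun h => hqD (h ▸ hp)
          have h2 := hd p (Finset.mem_insert_of_mem hp)
          rwa [Function.update_of_ne hpq] at h2
        · intro p hp
          rcases Finset.mem_insert.1 hp with rfl | hp
          · have h2 := hd p (Finset.mem_insert_self p D)
            rw [Function.update_self, sub_neg_eq_add] at h2
            exact ⟨i, h2⟩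
          · exact he p hp
    have h2 : ((Finset.univ : Finset ι) : Set ι).PairwiseDisjoint fun i =>
        (cls x M r).filter fun n : ℕ =>
          (∀ p ∈ insert q D, (p : ℤ) ∣ (n : ℤ) - Function.update c q (- v i) p) ∧
          ∀ p ∈ E, ∃ i, (p : ℤ) ∣ (n : ℤ) + v i := by
      intro i _ j _ hij
      rw [Function.onFun, Finset.disjoint_left]
      intro n hn hn'
      have h3 := (Finset.mem_filter.1 hn).2.1 q (Finset.mem_insert_self q D)
      have h4 := (Finset.mem_filter.1 hn').2.1 q (Finset.mem_insert_self q D)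
      rw [Function.update_self, sub_neg_eq_add] at h3 h4
      apply hT.inj q hqT i j hij
      have h5 := dvd_sub h3 h4
      have h6 : (n : ℤ) + v i - (n + v j) = v i - v j := by ring
      rwa [h6] at h5
    rw [h1, Finset.card_biUnion h2, Nat.cast_sum]
    have h3 : x / (M * ∏ p ∈ D, (p : ℝ)) * ∏ p ∈ insert q E, ((Fintype.card ι : ℝ) / p) =
        ∑ _i : ι, (x / (M * ∏ p ∈ insert q D, (p : ℝ)) * ∏ p ∈ E, ((Fintype.card ι : ℝ) / p)) := by
      rw [Finset.sum_const, Finset.card_univ, nsmul_eq_mul, Finset.prod_insert hq,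
        Finset.prod_insert hqD]
      have e1 : (x : ℝ) / (M * (q * ∏ p ∈ D, (p : ℝ))) = x / (M * ∏ p ∈ D, (p : ℝ)) / q := by
        rw [div_div]
        congr 1
        ring
      rw [e1]
      ring
    rw [h3, ← Finset.sum_sub_distrib]
    refine (Finset.abs_sum_le_sum_abs _ _).trans ?_
    refine (Finset.sum_le_sum fun i _ => ih hDT hET hDE' (Function.update c q (- v i))).trans ?_
    rw [Finset.sum_const, Finset.card_univ, nsmul_eq_mul, Finset.card_insert_of_notMem hq, pow_succ']

end Pool.Agent.Work.MP_58cfe3_nt
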