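import Pool.Agent.Work.MP_58cfe3_nt.SX
import Pool.Agent.Work.MP_58cfe3_nt.ElogA

/-!
# Module SApp (size M): periodic approximation of products of `xs χ`

PROOF. `B ≥ |v i|`, `κ = card ι`. Let `m = q^N`, `N ≥ 1` to be chosen. Call `n` fine if `ℓ^N ∤ n + v i` for all primes
`ℓ ∣ q` and all `i`; this depends only on `n` mod `m`. Put `Z n = Y (n')` if `n` is fine and `0` otherwise, where
`Y n = ∏_i cj (s i) (xs χ (n + v i))` and `n' = n % m + m (B + 1) > B` is the representative of `n`. `Z` is `m`-periodic of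
norm `≤ 1`. For natural `n > B` which is fine, `Y n = Z n` by `xs_per` (`n + v i > 0`, `n' + v i > 0`). So
`‖Y n - Z n‖ ≤ 2` only for `n ≤ B` and for not fine `n`, whose upper logarithmic density is
`≤ ∑_i ∑_{ℓ ∣ q} ℓ^(-N) ≤ κ q 2^(-N)`: for a residue class `a` mod `L`,
`∑_{n ≤ X, L ∣ n + v} 1/n ≤ (1 + 1/L) + (1/L) hs X`-type bound (the terms with `n = j L - v`: at most one `n < L`, the others
`n ≥ L j`); divide by `hs X → ∞`. Choose `N` with `2 κ q 2^(-N) ≤ η/2`.
-/

set_option autoImplicit false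

namespace Pool.Agent.Work.MP_58cfe3_nt

open Filter Topology

/-- the denominator -/
private noncomputable def sS (X : ℕ) : ℝ := ∑ n ∈ Finset.Icc 1 X, (1 / n : ℝ)

private theorem sS_nonneg (X : ℕ) : 0 ≤ sS X := Finset.sum_nonneg fun n _ => by positivity

private theorem sS_tendsto : Tendsto sS atTop atTop := by
  have h1 := Real.tendsto_sum_range_one_div_nat_succ_atTop
  refine h1.congr fun X => ?_
  rw [sS]
  induction X with
  | zero => simp
  | succ X ih =>
    rw [Finset.sum_range_succ, ih, Finset.sum_Icc_succ_top (by omega)]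
    push_cast
    rfl

private theorem res_sum (L : ℕ) (hL : 0 < L) (v : ℤ) (X : ℕ) :
    ∑ n ∈ (Finset.Icc 1 X).filter (fun n : ℕ => (L : ℤ) ∣ n + v), (1 / n : ℝ) ≤ 1 + sS X / L := by
  classical
  set A := (Finset.Icc 1 X).filter (fun n : ℕ => (L : ℤ) ∣ n + v) with hA
  let G : ℕ → ℝ := fun j => if j = 0 then 1 else 1 / (L * j : ℝ)
  have hLr : (0 : ℝ) < L := by exact_mod_cast hL
  have hG : ∀ j, 0 ≤ G j := by
    intro j
    simp only [G]
    split_ifs
    · exact zero_le_one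
    · positivity
  have hinj : Set.InjOn (fun n : ℕ => n / L) A := by
    intro n hn n' hn' h
    rw [Finset.mem_coe, hA, Finset.mem_filter] at hn hn'
    have h1 : (L : ℤ) ∣ (n' : ℤ) - n := by
      have := dvd_sub hn'.2 hn.2
      rwa [add_sub_add_right_eq_sub] at this
    have h2 : n ≡ n' [MOD L] := Nat.modEq_iff_dvd.2 h1
    have h3 := Nat.div_add_mod n L
    have h4 := Nat.div_add_mod n' L
    have h5 : n % L = n' % L := h2
    have h6 : n / L = n' / L := h
    rw [h5, h6] at h3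
    omega
  calc ∑ n ∈ A, (1 / n : ℝ) ≤ ∑ n ∈ A, G (n / L) := by
        refine Finset.sum_le_sum fun n hn => ?_
        rw [hA, Finset.mem_filter, Finset.mem_Icc] at hn
        have hn1 : (1 : ℝ) ≤ n := by exact_mod_cast hn.1.1
        simp only [G]
        split_ifs with h0
        · rw [div_le_one (by linarith)]
          exact hn1
        · have h1 : 0 < n / L := Nat.pos_of_ne_zero h0
          have h2 : L * (n / L) ≤ n := Nat.mul_div_le n L
          have h3 : (L : ℝ) * ((n / L : ℕ) : ℝ) ≤ n := by exact_mod_cast h2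
          have h4 : (0 : ℝ) < ((n / L : ℕ) : ℝ) := by exact_mod_cast h1
          exact one_div_le_one_div_of_le (by positivity) h3
    _ = ∑ j ∈ A.image (fun n => n / L), G j := (Finset.sum_image hinj).symm
    _ ≤ ∑ j ∈ insert 0 (Finset.Icc 1 X), G j := by
        refine Finset.sum_le_sum_of_subset_of_nonneg ?_ fun j _ _ => hG j
        intro j hj
        obtain ⟨n, hn, rfl⟩ := Finset.mem_image.1 hj
        rw [hA, Finset.mem_filter, Finset.mem_Icc] at hn
        rw [Finset.mem_insert, Finset.mem_Icc]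
        by_cases h0 : n / L = 0
        · exact Or.inl h0
        · exact Or.inr ⟨Nat.pos_of_ne_zero h0, (Nat.div_le_self n L).trans hn.1.2⟩
    _ = 1 + sS X / L := by
        rw [Finset.sum_insert (by simp), sS, Finset.sum_div]
        congr 1
        refine Finset.sum_congr rfl fun j hj => ?_
        have hj1 := (Finset.mem_Icc.1 hj).1
        simp only [G]
        rw [if_neg (by omega), div_div, mul_comm]

private theorem norm_cj (b : Bool) (z : ℂ) : ‖cj b z‖ = ‖z‖ := by
  rw [cj]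
  split_ifs
  · exact norm_star z
  · rfl

private theorem norm_Y {q : ℕ} [NeZero q] (χ : DirichletCharacter ℂ q) {ι : Type} [Fintype ι]
    (v : ι → ℤ) (s : ι → Bool) (n : ℤ) : ‖∏ i, cj (s i) (xs χ (n + v i))‖ = 1 := by
  rw [norm_prod]
  exact Finset.prod_eq_one fun i _ => by rw [norm_cj, norm_xs]

private theorem small_sum (B X : ℕ) :
    ∑ n ∈ Finset.Icc 1 X, (if n ≤ B then (1 / n : ℝ) else 0) ≤ B := by
  rw [← Finset.sum_filter]
  have h1 : ((Finset.Icc 1 X).filter fun n => n ≤ B) ⊆ Finset.Icc 1 B := by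
    intro n hn
    rw [Finset.mem_filter, Finset.mem_Icc] at hn
    exact Finset.mem_Icc.2 ⟨hn.1.1, hn.2⟩
  calc ∑ n ∈ (Finset.Icc 1 X).filter (fun n => n ≤ B), (1 / n : ℝ)
      ≤ ∑ n ∈ Finset.Icc 1 B, (1 / n : ℝ) :=
        Finset.sum_le_sum_of_subset_of_nonneg h1 fun n _ _ => by positivity
    _ ≤ ∑ n ∈ Finset.Icc 1 B, (1 : ℝ) := by
        refine Finset.sum_le_sum fun n hn => ?_
        have hn1 : (1 : ℝ) ≤ n := by exact_mod_cast (Finset.mem_Icc.1 hn).1
        rw [div_le_one (by linarith)]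
        exact hn1
    _ = B := by simp

theorem xs_approx {q : ℕ} [NeZero q] (χ : DirichletCharacter ℂ q) {ι : Type} [Fintype ι]
    (v : ι → ℤ) (s : ι → Bool) {η : ℝ} (hη : 0 < η) :
    ∃ m : ℕ, 0 < m ∧ ∃ Z : ℤ → ℂ, (∀ n, ‖Z n‖ ≤ 1) ∧ (∀ n, Z (n + m) = Z n) ∧
      ∀ᶠ X : ℕ in atTop,
        ‖Elog (fun n => ((‖(∏ i, cj (s i) (xs χ (n + v i))) - Z n‖ : ℝ) : ℂ)) X‖ ≤ η := by
  classical
  -- parameters
  obtain ⟨B, hB⟩ : ∃ B : ℕ, ∀ i, |v i| ≤ B := by
    refine ⟨Finset.univ.sup fun i => (v i).natAbs, fun i => ?_⟩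
    rw [Int.abs_eq_natAbs]
    exact_mod_cast Finset.le_sup (f := fun i => (v i).natAbs) (Finset.mem_univ i)
  set K : ℝ := (Fintype.card ι : ℝ) * q with hK
  have hK0 : 0 ≤ K := by positivity
  obtain ⟨N, hN⟩ : ∃ N : ℕ, 2 * K * (1 / 2 : ℝ) ^ N ≤ η / 2 := by
    have h1 : Tendsto (fun N : ℕ => 2 * K * (1 / 2 : ℝ) ^ N) atTop (𝓝 (2 * K * 0)) :=
      (tendsto_pow_atTop_nhds_zero_of_lt_one (by norm_num) (by norm_num)).const_mul _
    rw [mul_zero] at h1
    obtain ⟨N, hN⟩ := (h1.eventually_le_const (half_pos hη)).exists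
    exact ⟨N, hN⟩
  have hq0 : 0 < q := Nat.pos_of_ne_zero (NeZero.ne q)
  have hm0 : 0 < q ^ N := pow_pos hq0 N
  let fine : ℤ → Prop := fun n => ∀ l : ℕ, l.Prime → l ∣ q → ∀ i, ¬ (l : ℤ) ^ N ∣ n + v i
  let Y : ℤ → ℂ := fun n => ∏ i, cj (s i) (xs χ (n + v i))
  let rep : ℤ → ℤ := fun n => n % ((q ^ N : ℕ) : ℤ) + ((q ^ N : ℕ) : ℤ) * ((B : ℤ) + 1)
  let Z : ℤ → ℂ := fun n => if fine n then Y (rep n) else 0
  have hY : ∀ n, ‖Y n‖ = 1 := fun n => norm_Y χ v s n
  have hZ : ∀ n, ‖Z n‖ ≤ 1 := by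
    intro n
    simp only [Z]
    split_ifs
    · exact (hY _).le
    · simp
  have hdvd : ∀ l : ℕ, l ∣ q → (l : ℤ) ^ N ∣ ((q ^ N : ℕ) : ℤ) := by
    intro l hl
    push_cast
    exact pow_dvd_pow_of_dvd (Int.natCast_dvd_natCast.2 hl) N
  have hfine : ∀ n, fine (n + (q ^ N : ℕ)) ↔ fine n := by
    intro n
    refine forall_congr' fun l => forall_congr' fun _ => forall_congr' fun hl => forall_congr' fun i => ?_
    refine not_congr ?_
    have h1 : n + ((q ^ N : ℕ) : ℤ) + v i = n + v i + ((q ^ N : ℕ) : ℤ) := by ring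
    rw [h1]
    exact dvd_add_left (hdvd l hl)
  have hper : ∀ n, Z (n + (q ^ N : ℕ)) = Z n := by
    intro n
    simp only [Z]
    have h1 : rep (n + (q ^ N : ℕ)) = rep n := by
      simp only [rep]
      rw [Int.add_emod_right]
    simp only [hfine n, h1]
  have hYZ : ∀ n : ℕ, B < n → fine n → Y n = Z n := by
    intro n hn hf
    simp only [Z]
    rw [if_pos hf]
    refine Finset.prod_congr rfl fun i _ => ?_
    have hvi := abs_le.1 (hB i)
    have hn' : (B : ℤ) < n := by exact_mod_cast hn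
    have hmz : (0 : ℤ) < ((q ^ N : ℕ) : ℤ) := by exact_mod_cast hm0
    have hmod : 0 ≤ (n : ℤ) % ((q ^ N : ℕ) : ℤ) := Int.emod_nonneg _ hmz.ne'
    have hrep : (B : ℤ) < rep n := by
      simp only [rep]
      have : (B : ℤ) + 1 ≤ ((q ^ N : ℕ) : ℤ) * ((B : ℤ) + 1) := by nlinarith
      linarith
    rw [xs_per χ (N := N) (m := (n : ℤ) + v i) (m' := rep n + v i) (by linarith [hvi.1])
      (by linarith [hvi.1]) ?_ fun l hl hlq => hf l hl hlq i]
    have h1 : (n : ℤ) + v i - (rep n + v i) =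
        ((q ^ N : ℕ) : ℤ) * ((n : ℤ) / ((q ^ N : ℕ) : ℤ) - ((B : ℤ) + 1)) := by
      simp only [rep]
      have := Int.emod_add_mul_ediv (n : ℤ) ((q ^ N : ℕ) : ℤ)
      linear_combination -this
    rw [h1]
    push_cast
    exact dvd_mul_right _ _
  refine ⟨q ^ N, hm0, Z, hZ, hper, ?_⟩
  have hterm : ∀ n : ℕ, ‖Y n - Z n‖ * (1 / n : ℝ) ≤
      2 * (if n ≤ B then (1 / n : ℝ) else 0) +
        2 * ∑ i, ∑ l ∈ q.primeFactors, (if ((l ^ N : ℕ) : ℤ) ∣ n + v i then (1 / n : ℝ) else 0) := by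
    intro n
    have hn0 : (0 : ℝ) ≤ 1 / n := by positivity
    have hD : ‖Y n - Z n‖ ≤ 2 := by
      refine (norm_sub_le _ _).trans ?_
      have := hZ n
      rw [hY]
      linarith
    have hs0 : ∀ i, 0 ≤ ∑ l ∈ q.primeFactors,
        (if ((l ^ N : ℕ) : ℤ) ∣ (n : ℤ) + v i then (1 / n : ℝ) else 0) := fun i =>
      Finset.sum_nonneg fun l _ => by split_ifs <;> positivity
    have hs1 : 0 ≤ ∑ i, ∑ l ∈ q.primeFactors,
        (if ((l ^ N : ℕ) : ℤ) ∣ (n : ℤ) + v i then (1 / n : ℝ) else 0) :=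
      Finset.sum_nonneg fun i _ => hs0 i
    by_cases hnB : n ≤ B
    · rw [if_pos hnB]
      have : ‖Y n - Z n‖ * (1 / n : ℝ) ≤ 2 * (1 / n) := mul_le_mul_of_nonneg_right hD hn0
      linarith
    · rw [if_neg hnB]
      by_cases hf : fine n
      · rw [hYZ n (by omega) hf, sub_self, norm_zero, zero_mul]
        positivity
      · have hf' : ∃ l : ℕ, l.Prime ∧ l ∣ q ∧ ∃ i, (l : ℤ) ^ N ∣ (n : ℤ) + v i := by
          by_contra hcon
          refine hf fun l hl hlq i hd => hcon ⟨l, hl, hlq, i, hd⟩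
        obtain ⟨l, hl, hlq, i, hd⟩ := hf'
        have h1 : (1 / n : ℝ) ≤ ∑ i, ∑ l ∈ q.primeFactors,
            (if ((l ^ N : ℕ) : ℤ) ∣ (n : ℤ) + v i then (1 / n : ℝ) else 0) := by
          refine le_trans ?_ (Finset.single_le_sum (fun i _ => hs0 i) (Finset.mem_univ i))
          refine le_trans ?_ (Finset.single_le_sum (f := fun l : ℕ =>
            (if ((l ^ N : ℕ) : ℤ) ∣ (n : ℤ) + v i then (1 / n : ℝ) else 0))
            (fun l _ => by split_ifs <;> positivity)
            (Nat.mem_primeFactors.2 ⟨hl, hlq, hq0.ne'⟩))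
          have h2 : ((l ^ N : ℕ) : ℤ) ∣ (n : ℤ) + v i := by
            push_cast
            exact hd
          simp only [h2, if_true]
          exact le_rfl
        have h2 : ‖Y n - Z n‖ * (1 / n : ℝ) ≤ 2 * (1 / n) := mul_le_mul_of_nonneg_right hD hn0
        linarith
  have hsum : ∀ X : ℕ, ∑ n ∈ Finset.Icc 1 X, ‖Y n - Z n‖ * (1 / n : ℝ) ≤
      2 * B + 2 * K + (η / 2) * sS X := by
    intro X
    have hX0 := sS_nonneg X
    calc ∑ n ∈ Finset.Icc 1 X, ‖Y n - Z n‖ * (1 / n : ℝ)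
        ≤ ∑ n ∈ Finset.Icc 1 X, (2 * (if n ≤ B then (1 / n : ℝ) else 0) +
          2 * ∑ i, ∑ l ∈ q.primeFactors,
            (if ((l ^ N : ℕ) : ℤ) ∣ n + v i then (1 / n : ℝ) else 0)) :=
          Finset.sum_le_sum fun n _ => hterm n
      _ = 2 * ∑ n ∈ Finset.Icc 1 X, (if n ≤ B then (1 / n : ℝ) else 0) +
          2 * ∑ i, ∑ l ∈ q.primeFactors, ∑ n ∈ (Finset.Icc 1 X).filter
            (fun n : ℕ => ((l ^ N : ℕ) : ℤ) ∣ n + v i), (1 / n : ℝ) := by
          rw [Finset.sum_add_distrib, ← Finset.mul_sum, ← Finset.mul_sum]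
          congr 2
          rw [Finset.sum_comm]
          refine Finset.sum_congr rfl fun i _ => ?_
          rw [Finset.sum_comm]
          refine Finset.sum_congr rfl fun l _ => ?_
          rw [Finset.sum_filter]
      _ ≤ 2 * B + 2 * ∑ i : ι, ∑ l ∈ q.primeFactors, (1 + sS X * (1 / 2 : ℝ) ^ N) := by
          refine add_le_add (mul_le_mul_of_nonneg_left (small_sum B X) (by norm_num))
            (mul_le_mul_of_nonneg_left ?_ (by norm_num))
          refine Finset.sum_le_sum fun i _ => Finset.sum_le_sum fun l hl => ?_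
          have hlp := Nat.prime_of_mem_primeFactors hl
          refine (res_sum (l ^ N) (pow_pos hlp.pos N) (v i) X).trans ?_
          refine add_le_add le_rfl ?_
          rw [div_eq_mul_inv]
          refine mul_le_mul_of_nonneg_left ?_ hX0
          push_cast
          rw [one_div, inv_pow]
          refine inv_anti₀ (by positivity) ?_
          exact pow_le_pow_left₀ (by norm_num) (by exact_mod_cast hlp.two_le) N
      _ = 2 * B + 2 * ((Fintype.card ι : ℝ) * (q.primeFactors.card : ℝ) *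
          (1 + sS X * (1 / 2 : ℝ) ^ N)) := by
          rw [Finset.sum_const, Finset.sum_const, nsmul_eq_mul, nsmul_eq_mul, Finset.card_univ]
          ring
      _ ≤ 2 * B + 2 * (K * (1 + sS X * (1 / 2 : ℝ) ^ N)) := by
          have h1 : (q.primeFactors.card : ℝ) ≤ q := by
            have h2 : q.primeFactors ⊆ Finset.Icc 1 q := fun l hl =>
              Finset.mem_Icc.2 ⟨(Nat.prime_of_mem_primeFactors hl).one_le,
                Nat.le_of_dvd hq0 (Nat.dvd_of_mem_primeFactors hl)⟩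
            have h3 := Finset.card_le_card h2
            rw [Nat.card_Icc, Nat.add_sub_cancel] at h3
            exact_mod_cast h3
          rw [hK]
          have h4 : 0 ≤ 1 + sS X * (1 / 2 : ℝ) ^ N := by positivity
          have h5 : (Fintype.card ι : ℝ) * (q.primeFactors.card : ℝ) ≤ (Fintype.card ι : ℝ) * q :=
            mul_le_mul_of_nonneg_left h1 (Nat.cast_nonneg _)
          have h6 := mul_le_mul_of_nonneg_right h5 h4
          linarith
      _ = 2 * B + 2 * K + (2 * K * (1 / 2 : ℝ) ^ N) * sS X := by ring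
      _ ≤ 2 * B + 2 * K + (η / 2) * sS X :=
          add_le_add le_rfl (mul_le_mul_of_nonneg_right hN hX0)
  filter_upwards [sS_tendsto.eventually_ge_atTop (max 1 ((2 * B + 2 * K) / (η / 2)))] with X hX
  have hX1 : 1 ≤ sS X := (le_max_left _ _).trans hX
  have hX2 : 2 * B + 2 * K ≤ (η / 2) * sS X := by
    have := (le_max_right _ _).trans hX
    rw [div_le_iff₀ (half_pos hη)] at this
    linarith
  have hE : Elog (fun n => ((‖(∏ i, cj (s i) (xs χ (n + v i))) - Z n‖ : ℝ) : ℂ)) X =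
      ((∑ n ∈ Finset.Icc 1 X, ‖Y n - Z n‖ * (1 / n : ℝ)) / sS X : ℝ) := by
    rw [Elog, sS]
    push_cast
    congr 1
    exact Finset.sum_congr rfl fun n _ => by rw [mul_one_div]
  rw [hE, Complex.norm_real, Real.norm_eq_abs, abs_of_nonneg
    (div_nonneg (Finset.sum_nonneg fun n _ => by positivity) (sS_nonneg X)),
    div_le_iff₀ (by linarith)]
  have := hsum X
  linarith

end Pool.Agent.Work.MP_58cfe3_nt
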