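import Pool.Agent.Work.MP_58cfe3_nt.SCrt
import Pool.Agent.Work.MP_2dba45_nt.Mert

/-!
# Module SBig (size M): few `n` have a large `T`-part

PROOF. `log_sum`: `Pool.Agent.Work.MP_2dba45_nt.Mert.mertens_one` with `N = z` (sum over a subset of the primes `≤ z`,
nonnegative terms). `big_part` (Markov): if the product over the `p ∈ T` dividing some `n + v i` is `> D`, then
`log D ≤ ∑_{p ∈ T, ∃ i, p ∣ n + v i} log p ≤ ∑_{p ∈ T} ∑_i (if p ∣ n + v i then log p else 0)`. Sum over
`n ∈ cls x M r`: for fixed `p, i` the number of `n` is `≤ x/(M p) + 1` by `crt_count` with `D = {p}`, `c = - v i`.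
Total `≤ κ ∑_p log p (x/(M p) + 1)` and `∑_{p ∈ T} log p ≤ z log z` (at most `z` primes, each `< z`).
-/

set_option autoImplicit false

namespace Pool.Agent.Work.MP_58cfe3_nt

open Filter Topology

theorem log_sum : ∃ C : ℝ, 0 ≤ C ∧ ∀ (z : ℕ) (T : Finset ℕ), 2 ≤ z → (∀ p ∈ T, p.Prime ∧ p < z) →
    ∑ p ∈ T, Real.log p / p ≤ Real.log z + C := by
  obtain ⟨C, hC⟩ := Pool.Agent.Work.MP_2dba45_nt.Mert.mertens_one
  refine ⟨C, (abs_nonneg _).trans (hC 1 one_pos), ?_⟩
  intro z T hz hT
  have h1 := (abs_le.mp (hC z (by omega))).2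
  have h2 : ∑ p ∈ T, Real.log p / p ≤
      ∑ p ∈ (Finset.Ioc 0 z).filter Nat.Prime, Real.log p / p := by
    apply Finset.sum_le_sum_of_subset_of_nonneg
    · intro p hp
      rw [Finset.mem_filter, Finset.mem_Ioc]
      exact ⟨⟨(hT p hp).1.pos, (hT p hp).2.le⟩, (hT p hp).1⟩
    · intro p _ _
      exact div_nonneg (Real.log_natCast_nonneg p) (Nat.cast_nonneg p)
  linarith

theorem big_part {ι : Type} [Fintype ι] {v : ι → ℤ} {M z : ℕ} {T : Finset ℕ} (hT : TP v M z T)
    (hM : 0 < M) (hz : 2 ≤ z) {D : ℕ} (hD : 2 ≤ D) (r : ℤ) (x : ℕ) :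
    (bcount v T M r x D : ℝ) ≤
      (Fintype.card ι / Real.log D) * (x / M * (∑ p ∈ T, Real.log p / p) + z * Real.log z) := by
  classical
  have hlD : 0 < Real.log D := Real.log_pos (by exact_mod_cast hD)
  -- the double sum
  have key : (bcount v T M r x D : ℝ) * Real.log D ≤
      ∑ n ∈ cls x M r, ∑ p ∈ T, ∑ i : ι, if (p : ℤ) ∣ (n : ℤ) + v i then Real.log p else 0 := by
    unfold bcount
    rw [← nsmul_eq_mul]
    have e1 : ∀ S : Finset ℕ, S.card • Real.log D = ∑ _n ∈ S, Real.log D := by
      intro S
      rw [Finset.sum_const]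
    rw [e1]
    refine (Finset.sum_le_sum ?_).trans (Finset.sum_le_sum_of_subset_of_nonneg
      (Finset.filter_subset _ _) ?_)
    · intro n hn
      rw [Finset.mem_filter] at hn
      have h2 : Real.log D ≤ Real.log ((∏ p ∈ T.filter
          (fun p : ℕ => ∃ i, (p : ℤ) ∣ (n : ℤ) + v i), p : ℕ) : ℝ) := by
        apply Real.log_le_log (by positivity)
        have h3 : D < ∏ p ∈ T.filter (fun p : ℕ => ∃ i, (p : ℤ) ∣ (n : ℤ) + v i), p := by
          have := hn.2
          convert this
        exact_mod_cast h3.le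
      rw [Nat.cast_prod, Real.log_prod] at h2
      · refine h2.trans ?_
        rw [Finset.sum_filter]
        apply Finset.sum_le_sum
        intro p hp
        split_ifs with hi
        · obtain ⟨i, hi⟩ := hi
          have h3 : (if (p : ℤ) ∣ (n : ℤ) + v i then Real.log p else 0) ≤
              ∑ i : ι, if (p : ℤ) ∣ (n : ℤ) + v i then Real.log p else 0 := by
            apply Finset.single_le_sum (f := fun i : ι =>
              if (p : ℤ) ∣ (n : ℤ) + v i then Real.log p else 0) _ (Finset.mem_univ i)
            intro j _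
            split_ifs
            · exact Real.log_natCast_nonneg p
            · exact le_rfl
          rwa [if_pos hi] at h3
        · apply Finset.sum_nonneg
          intro j _
          split_ifs
          · exact Real.log_natCast_nonneg p
          · exact le_rfl
      · intro p hp
        rw [Finset.mem_filter] at hp
        exact_mod_cast (hT.prime p hp.1).ne_zero
    · intro n _ _
      apply Finset.sum_nonneg
      intro p _
      apply Finset.sum_nonneg
      intro i _
      split_ifs
      · exact Real.log_natCast_nonneg p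
      · exact le_rfl
  have hswap : ∑ n ∈ cls x M r, ∑ p ∈ T, ∑ i : ι,
      (if (p : ℤ) ∣ (n : ℤ) + v i then Real.log p else 0) =
      ∑ p ∈ T, ∑ i : ι, ∑ n ∈ cls x M r,
        if (p : ℤ) ∣ (n : ℤ) + v i then Real.log p else 0 := by
    rw [Finset.sum_comm]
    apply Finset.sum_congr rfl
    intro p _
    rw [Finset.sum_comm]
  rw [hswap] at key
  have hcount : ∀ p ∈ T, ∀ i : ι, (∑ n ∈ cls x M r,
      if (p : ℤ) ∣ (n : ℤ) + v i then Real.log p else 0) ≤
        x / M * (Real.log p / p) + Real.log p := by
    intro p hp i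
    have hpp := hT.prime p hp
    have h1 := crt_count hM (D := {p}) (fun q hq => by
      rw [Finset.mem_singleton] at hq
      subst hq
      exact ⟨hpp, hT.cop q hp⟩) (fun _ => - v i) r x
    have h2 := (abs_le.mp h1).2
    have h3 : (cls x M r).filter (fun n : ℕ => ∀ q ∈ ({p} : Finset ℕ),
        (q : ℤ) ∣ (n : ℤ) - (fun _ => - v i) q) =
        (cls x M r).filter (fun n : ℕ => (p : ℤ) ∣ (n : ℤ) + v i) := by
      apply Finset.filter_congr
      intro n _
      simp
    rw [h3] at h2
    rw [← Finset.sum_filter, Finset.sum_const, nsmul_eq_mul]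
    have hlp : 0 ≤ Real.log p := Real.log_natCast_nonneg p
    have h4 : (((cls x M r).filter (fun n : ℕ => (p : ℤ) ∣ (n : ℤ) + v i)).card : ℝ) ≤
        x / (M * p) + 1 := by
      simp only [Finset.prod_singleton] at h2
      linarith
    calc _ ≤ (x / (M * p) + 1 : ℝ) * Real.log p := by gcongr
      _ = x / M * (Real.log p / p) + Real.log p := by
        have hM' : (M : ℝ) ≠ 0 := by exact_mod_cast hM.ne'
        have hp' : (p : ℝ) ≠ 0 := by exact_mod_cast hpp.ne_zero
        field_simp
  have hTc : T.card ≤ z := by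
    have : T ⊆ Finset.range z := fun p hp => Finset.mem_range.mpr (hT.lt p hp)
    simpa using Finset.card_le_card this
  have hlogsum : ∑ p ∈ T, Real.log p ≤ z * Real.log z := by
    calc ∑ p ∈ T, Real.log p ≤ ∑ _p ∈ T, Real.log z := by
          apply Finset.sum_le_sum
          intro p hp
          apply Real.log_le_log
          · exact_mod_cast (hT.prime p hp).pos
          · exact_mod_cast (hT.lt p hp).le
      _ = T.card * Real.log z := by rw [Finset.sum_const, nsmul_eq_mul]
      _ ≤ z * Real.log z := by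
          have : (T.card : ℝ) ≤ z := by exact_mod_cast hTc
          have := Real.log_natCast_nonneg z
          gcongr
  have htot : (bcount v T M r x D : ℝ) * Real.log D ≤
      Fintype.card ι * (x / M * (∑ p ∈ T, Real.log p / p) + z * Real.log z) := by
    refine key.trans ?_
    calc _ ≤ ∑ p ∈ T, ∑ _i : ι, (x / M * (Real.log p / p) + Real.log p : ℝ) :=
          Finset.sum_le_sum fun p hp => Finset.sum_le_sum fun i _ => hcount p hp i
      _ = Fintype.card ι * (x / M * (∑ p ∈ T, Real.log p / p) + ∑ p ∈ T, Real.log p) := by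
          simp only [Finset.sum_const, Finset.card_univ, nsmul_eq_mul]
          rw [← Finset.mul_sum, Finset.sum_add_distrib, ← Finset.mul_sum]
      _ ≤ _ := by gcongr
  rw [div_mul_eq_mul_div, le_div_iff₀ hlD]
  exact htot

end Pool.Agent.Work.MP_58cfe3_nt
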