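import Pool.Agent.Work.MP_58cfe3_nt.SKub
import Pool.Agent.Work.MP_58cfe3_nt.SProd

/-!
# Module SCls (size M): small averages over every residue class

PROOF. `kub` with `η/2` gives `θ`, `w₀`. For `w ≥ w₀` and `M` all of whose prime factors are `≤ w`, the set
`T = TT w x θ` satisfies the hypotheses (`p > w` prime does not divide `M`, so it is coprime to `M`), with
`u p i = cj (s i) (g p)` (norm `≤ 1`). By `prod_small` the model product has norm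
`≤ exp (2κ²) exp (-∑_{p ∈ TT w x θ} (1 - Re g p)/p)`, and the sum tends to infinity for fixed `w`:
`TT w x θ` contains all primes in `(w, N]`, `N = ⌊x^θ⌋₊ → ∞` (`N ≤ x` as `θ ≤ 1`), so the sum is
`≥ Far-sum(N) - ∑_{p ≤ w} 2/p`. So it is `≤ η/2` for large `x`.
-/

set_option autoImplicit false

namespace Pool.Agent.Work.MP_58cfe3_nt

open Filter Topology

private noncomputable def SF (g : ℤ → ℂ) (X : ℕ) : ℝ :=
  ∑ p ∈ (Finset.Icc 1 X).filter Nat.Prime, (1 - (g p).re) / p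

private theorem term_nonneg {g : ℤ → ℂ} (hb : ∀ n, ‖g n‖ ≤ 1) (p : ℕ) : 0 ≤ (1 - (g p).re) / (p : ℝ) := by
  refine div_nonneg ?_ (Nat.cast_nonneg _)
  have h1 := Complex.re_le_norm (g p)
  have h2 := hb p
  linarith

private theorem norm_cj_le {g : ℤ → ℂ} (hb : ∀ n, ‖g n‖ ≤ 1) (b : Bool) (n : ℤ) : ‖cj b (g n)‖ ≤ 1 := by
  rw [cj]
  split_ifs
  · rw [norm_star]
    exact hb n
  · exact hb n

private theorem sum_TT {g : ℤ → ℂ} (hb : ∀ n, ‖g n‖ ≤ 1) {θ : ℝ} (hθ1 : θ ≤ 1) (w x : ℕ)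
    (hx : 1 ≤ x) : SF g ⌊(x : ℝ) ^ θ⌋₊ - SF g w ≤ ∑ p ∈ TT w x θ, (1 - (g p).re) / p := by
  rw [sub_le_iff_le_add, SF, SF]
  have hx1 : (1 : ℝ) ≤ x := by exact_mod_cast hx
  have hsub : (Finset.Icc 1 ⌊(x : ℝ) ^ θ⌋₊).filter Nat.Prime ⊆
      TT w x θ ∪ (Finset.Icc 1 w).filter Nat.Prime := by
    intro p hp
    rw [Finset.mem_filter, Finset.mem_Icc] at hp
    rw [Finset.mem_union, TT, Finset.mem_filter, Finset.mem_filter, Finset.mem_Icc, Finset.mem_Icc]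
    have h1 : (p : ℝ) ≤ (x : ℝ) ^ θ := (Nat.le_floor_iff (by positivity)).1 hp.1.2
    by_cases hpw : w < p
    · left
      have h2 : (x : ℝ) ^ θ ≤ x := by
        calc (x : ℝ) ^ θ ≤ (x : ℝ) ^ (1 : ℝ) := Real.rpow_le_rpow_of_exponent_le hx1 hθ1
          _ = x := Real.rpow_one _
      have h3 : p ≤ x := by exact_mod_cast h1.trans h2
      exact ⟨⟨hp.1.1, h3⟩, hp.2, hpw, h1⟩
    · right
      exact ⟨⟨hp.1.1, by omega⟩, hp.2⟩
  refine (Finset.sum_le_sum_of_subset_of_nonneg hsub fun p _ _ => term_nonneg hb p).trans ?_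
  rw [← Finset.sum_union_inter]
  exact le_add_of_nonneg_right (Finset.sum_nonneg fun p _ => term_nonneg hb p)

theorem class_small {ι : Type} [Fintype ι] [Nonempty ι] {v : ι → ℤ} (hv : Function.Injective v)
    {g : ℤ → ℂ} (hb : ∀ n, ‖g n‖ ≤ 1) (hf : Far g) (s : ι → Bool) {η : ℝ} (hη : 0 < η) :
    ∃ θ : ℝ, 0 < θ ∧ θ ≤ 1 ∧ ∃ w₀ : ℕ, ∀ w : ℕ, w₀ ≤ w → ∀ M : ℕ, 0 < M →
      (∀ p : ℕ, p.Prime → p ∣ M → p ≤ w) → ∃ x₀ : ℕ, ∀ x : ℕ, x₀ ≤ x → ∀ r : ℤ,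
        ‖∑ n ∈ cls x M r, FF v (TT w x θ) (fun p i => cj (s i) (g p)) n‖ ≤ η * (x / M) := by
  obtain ⟨θ, hθ0, hθ1, w₀, hk⟩ := kub hv (half_pos hη)
  refine ⟨θ, hθ0, hθ1, w₀, fun w hw M hM hpM => ?_⟩
  obtain ⟨x₀, hx₀⟩ := hk M hM
  have hN : Tendsto (fun x : ℕ => ⌊(x : ℝ) ^ θ⌋₊) atTop atTop :=
    tendsto_nat_floor_atTop.comp ((tendsto_rpow_atTop hθ0).comp tendsto_natCast_atTop_atTop)
  have hf' : Tendsto (SF g) atTop atTop := hf
  have hS : Tendsto (fun x : ℕ => SF g ⌊(x : ℝ) ^ θ⌋₊) atTop atTop := hf'.comp hN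
  obtain ⟨x₁, hx₁⟩ := Filter.eventually_atTop.1 (hS.eventually_ge_atTop
    (SF g w + Real.log (Real.exp (2 * (Fintype.card ι : ℝ) ^ 2) * (2 / η))))
  refine ⟨max (max x₀ x₁) 1, fun x hx r => ?_⟩
  have hxx₀ : x₀ ≤ x := (le_max_left _ _).trans ((le_max_left _ _).trans hx)
  have hxx₁ : x₁ ≤ x := (le_max_right _ _).trans ((le_max_left _ _).trans hx)
  have hx1 : 1 ≤ x := (le_max_right _ _).trans hx
  have hT : ∀ p ∈ TT w x θ, p.Prime ∧ w₀ < p ∧ (p : ℝ) ≤ (x : ℝ) ^ θ ∧ Nat.Coprime p M := by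
    intro p hp
    rw [TT, Finset.mem_filter] at hp
    refine ⟨hp.2.1, lt_of_le_of_lt hw hp.2.2.1, hp.2.2.2, ?_⟩
    refine (Nat.Prime.coprime_iff_not_dvd hp.2.1).2 fun hd => ?_
    have := hpM p hp.2.1 hd
    omega
  have h1 := hx₀ x hxx₀ (TT w x θ) hT (fun p i => cj (s i) (g p)) (fun p i => norm_cj_le hb _ _) r
  have h2 := prod_small (ι := ι) hb s (T := TT w x θ) (fun p hp => (hT p hp).1)
  have hP : ‖∏ p ∈ TT w x θ, (1 - (∑ i, (1 - cj (s i) (g p))) / (p : ℂ))‖ ≤ η / 2 := by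
    refine h2.trans ?_
    have h3 := sum_TT hb hθ1 w x hx1
    have h4 := hx₁ x hxx₁
    have h5 : Real.log (Real.exp (2 * (Fintype.card ι : ℝ) ^ 2) * (2 / η)) ≤
        ∑ p ∈ TT w x θ, (1 - (g p).re) / p := by linarith
    have hpos : 0 < Real.exp (2 * (Fintype.card ι : ℝ) ^ 2) * (2 / η) := by positivity
    calc Real.exp (2 * (Fintype.card ι : ℝ) ^ 2) * Real.exp (-∑ p ∈ TT w x θ, (1 - (g p).re) / p)
        ≤ Real.exp (2 * (Fintype.card ι : ℝ) ^ 2) *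
          Real.exp (-Real.log (Real.exp (2 * (Fintype.card ι : ℝ) ^ 2) * (2 / η))) :=
          mul_le_mul_of_nonneg_left (Real.exp_le_exp.2 (neg_le_neg h5)) (Real.exp_pos _).le
      _ = η / 2 := by
          rw [Real.exp_neg, Real.exp_log hpos, mul_inv, inv_div, ← mul_assoc,
            mul_inv_cancel₀ (Real.exp_pos _).ne', one_mul]
  have hxM : 0 ≤ (x : ℝ) / M := by positivity
  have h6 : ‖((x : ℂ) / M) * ∏ p ∈ TT w x θ, (1 - (∑ i, (1 - cj (s i) (g p))) / (p : ℂ))‖ ≤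
      (x / M) * (η / 2) := by
    rw [norm_mul, norm_div, Complex.norm_natCast, Complex.norm_natCast]
    exact mul_le_mul_of_nonneg_left hP hxM
  calc ‖∑ n ∈ cls x M r, FF v (TT w x θ) (fun p i => cj (s i) (g p)) n‖
      = ‖(∑ n ∈ cls x M r, FF v (TT w x θ) (fun p i => cj (s i) (g p)) n -
          ((x : ℂ) / M) * ∏ p ∈ TT w x θ, (1 - (∑ i, (1 - cj (s i) (g p))) / (p : ℂ))) +
          ((x : ℂ) / M) * ∏ p ∈ TT w x θ, (1 - (∑ i, (1 - cj (s i) (g p))) / (p : ℂ))‖ := by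
        rw [sub_add_cancel]
    _ ≤ η / 2 * (x / M) + (x / M) * (η / 2) := (norm_add_le _ _).trans (add_le_add h1 h6)
    _ = η * (x / M) := by ring

end Pool.Agent.Work.MP_58cfe3_nt
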