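import Pool.Agent.Work.MP_58cfe3_nt.SDefs

/-!
# Module SCrt (size S-M): counting a residue class given by the Chinese remainder theorem

PROOF. The moduli `M` and `p ∈ D` are pairwise coprime, so there is an integer `c₀` with
`M ∣ n - r ∧ ∀ p ∈ D, p ∣ n - c p ↔ m ∣ n - c₀`, `m = M * ∏ p ∈ D, p` (existence by induction on `D` or
`Ideal`/`Nat.chineseRemainderOfFinset`; equivalence: coprime divisors, `Finset.prod_dvd_of_coprime`/
`IsCoprime.mul_dvd`). The number of `n` in `[1, x]` in one class modulo `m` is `⌊x/m⌋` or `⌊x/m⌋ + 1`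
(`Int.Ioc_filter_modEq_card`, `Nat.count_modEq_card`), so it differs from `x/m` by at most `1`.
-/

set_option autoImplicit false

namespace Pool.Agent.Work.MP_58cfe3_nt

open Filter Topology

private theorem crt_ex {M : ℕ} {D : Finset ℕ} (hD : ∀ p ∈ D, p.Prime ∧ Nat.Coprime p M)
    (c : ℕ → ℤ) (r : ℤ) : ∃ c₀ : ℤ, ∀ n : ℤ,
      ((M : ℤ) ∣ n - r ∧ ∀ p ∈ D, (p : ℤ) ∣ n - c p) ↔ ((M * ∏ p ∈ D, p : ℕ) : ℤ) ∣ n - c₀ := by
  classical
  induction D using Finset.induction_on with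
  | empty => exact ⟨r, fun n => by simp⟩
  | insert p D hp ih =>
    obtain ⟨c₁, h₁⟩ := ih fun q hq => hD q (Finset.mem_insert_of_mem hq)
    have hcop : Nat.Coprime p (M * ∏ q ∈ D, q) := by
      refine Nat.Coprime.mul_right (hD p (Finset.mem_insert_self p D)).2 ?_
      refine Nat.Coprime.prod_right fun q hq => ?_
      rw [Nat.coprime_primes (hD p (Finset.mem_insert_self p D)).1
        (hD q (Finset.mem_insert_of_mem hq)).1]
      rintro rfl
      exact hp hq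
    have hcop' : IsCoprime (p : ℤ) ((M * ∏ q ∈ D, q : ℕ) : ℤ) :=
      Nat.isCoprime_iff_coprime.2 hcop
    obtain ⟨m₁, hm₁⟩ : ∃ m₁ : ℤ, m₁ = ((M * ∏ q ∈ D, q : ℕ) : ℤ) := ⟨_, rfl⟩
    rw [← hm₁] at hcop'
    obtain ⟨a, b, hab⟩ := hcop'
    refine ⟨c₁ * (a * p) + c p * (b * m₁), fun n => ?_⟩
    have e1 : n - (c₁ * (a * p) + c p * (b * m₁)) = (n - c₁) + m₁ * (b * (c₁ - c p)) := by
      have : a * p = 1 - b * m₁ := by linarith
      rw [this]
      ring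
    have e2 : n - (c₁ * (a * p) + c p * (b * m₁)) = (n - c p) + p * (a * (c p - c₁)) := by
      have : b * m₁ = 1 - a * p := by linarith
      rw [this]
      ring
    have e3 : ((M * ∏ q ∈ insert p D, q : ℕ) : ℤ) = p * m₁ := by
      rw [Finset.prod_insert hp, hm₁]
      push_cast
      ring
    rw [e3]
    have h2 : ((M : ℤ) ∣ n - r ∧ ∀ q ∈ insert p D, (q : ℤ) ∣ n - c q) ↔
        ((p : ℤ) ∣ n - c p ∧ m₁ ∣ n - c₁) := by
      rw [hm₁, ← h₁ n]
      constructor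
      · rintro ⟨h3, h4⟩
        exact ⟨h4 p (Finset.mem_insert_self p D), h3,
          fun q hq => h4 q (Finset.mem_insert_of_mem hq)⟩
      · rintro ⟨h3, h4, h5⟩
        refine ⟨h4, fun q hq => ?_⟩
        rcases Finset.mem_insert.1 hq with rfl | hq
        · exact h3
        · exact h5 q hq
    rw [h2]
    constructor
    · rintro ⟨h3, h4⟩
      refine IsCoprime.mul_dvd ⟨a, b, hab⟩ ?_ ?_
      · rw [e2]
        exact dvd_add h3 (dvd_mul_right _ _)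
      · rw [e1]
        exact dvd_add h4 (dvd_mul_right _ _)
    · intro h3
      constructor
      · have h4 : (p : ℤ) ∣ n - (c₁ * (a * p) + c p * (b * m₁)) := (dvd_mul_right _ _).trans h3
        rw [e2] at h4
        exact (dvd_add_left (dvd_mul_right _ _)).1 h4
      · have h4 : m₁ ∣ n - (c₁ * (a * p) + c p * (b * m₁)) := (dvd_mul_left _ _).trans h3
        rw [e1] at h4
        exact (dvd_add_left (dvd_mul_right _ _)).1 h4

private theorem class_count {m : ℕ} (hm : 0 < m) (c : ℤ) (x : ℕ) :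
    |((((Finset.Icc 1 x).filter fun n : ℕ => (m : ℤ) ∣ (n : ℤ) - c).card : ℕ) : ℝ) - x / m| ≤ 1 := by
  have hm' : (0 : ℚ) < (m : ℚ) := by exact_mod_cast hm
  have h1 := Int.Ioc_filter_modEq_card 0 (x : ℤ) (r := (m : ℤ)) (by exact_mod_cast hm) c
  have h2 : ((Finset.Icc 1 x).filter fun n : ℕ => (m : ℤ) ∣ (n : ℤ) - c).card =
      ((Finset.Ioc (0 : ℤ) x).filter fun n => n ≡ c [ZMOD (m : ℤ)]).card := by
    refine Finset.card_bij (fun n _ => (n : ℤ)) (fun n hn => ?_) (fun a _ b _ h => ?_)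
      (fun b hb => ?_)
    · rw [Finset.mem_filter, Finset.mem_Icc] at hn
      rw [Finset.mem_filter, Finset.mem_Ioc]
      refine ⟨⟨by have := hn.1.1; omega, by exact_mod_cast hn.1.2⟩, ?_⟩
      exact (Int.modEq_iff_dvd.2 hn.2).symm
    · exact_mod_cast h
    · rw [Finset.mem_filter, Finset.mem_Ioc] at hb
      lift b to ℕ using by omega
      refine ⟨b, ?_, rfl⟩
      rw [Finset.mem_filter, Finset.mem_Icc]
      refine ⟨⟨by have := hb.1.1; omega, by exact_mod_cast hb.1.2⟩, ?_⟩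
      exact Int.modEq_iff_dvd.1 hb.2.symm
  rw [← h2] at h1
  set K := ((Finset.Icc 1 x).filter fun n : ℕ => (m : ℤ) ∣ (n : ℤ) - c).card with hK
  have f1 := Int.floor_le ((((x : ℤ) : ℚ) - (c : ℚ)) / ((m : ℤ) : ℚ))
  have f2 := Int.lt_floor_add_one ((((x : ℤ) : ℚ) - (c : ℚ)) / ((m : ℤ) : ℚ))
  have f3 := Int.floor_le ((((0 : ℤ) : ℚ) - (c : ℚ)) / ((m : ℤ) : ℚ))
  have f4 := Int.lt_floor_add_one ((((0 : ℤ) : ℚ) - (c : ℚ)) / ((m : ℤ) : ℚ))
  have e : (((x : ℤ) : ℚ) - (c : ℚ)) / ((m : ℤ) : ℚ) =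
      (x : ℚ) / (m : ℚ) + (((0 : ℤ) : ℚ) - (c : ℚ)) / ((m : ℤ) : ℚ) := by
    push_cast
    rw [← add_div]
    ring
  set F := ⌊(((x : ℤ) : ℚ) - (c : ℚ)) / ((m : ℤ) : ℚ)⌋
  set G := ⌊(((0 : ℤ) : ℚ) - (c : ℚ)) / ((m : ℤ) : ℚ)⌋
  have hx0 : (0 : ℚ) ≤ (x : ℚ) / (m : ℚ) := by positivity
  have g1 : ((F : ℚ) - G) < (x : ℚ) / m + 1 := by linarith
  have g2 : (x : ℚ) / m - 1 < ((F : ℚ) - G) := by linarith
  have g3 : 0 ≤ F - G := by
    have : (-1 : ℚ) < ((F - G : ℤ) : ℚ) := by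
      push_cast
      linarith
    have : (-1 : ℤ) < F - G := by exact_mod_cast this
    omega
  rw [max_eq_left g3] at h1
  have h3 : ((K : ℕ) : ℚ) = (F : ℚ) - G := by
    have : (((K : ℕ) : ℤ) : ℚ) = ((F - G : ℤ) : ℚ) := by rw [h1]
    push_cast at this
    exact this
  have h4 : |((K : ℕ) : ℚ) - (x : ℚ) / m| ≤ 1 := by
    rw [h3, abs_le]
    constructor <;> linarith
  have h5 : ((|((K : ℕ) : ℚ) - (x : ℚ) / m| : ℚ) : ℝ) ≤ ((1 : ℚ) : ℝ) := by exact_mod_cast h4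
  push_cast at h5
  exact h5

theorem crt_count {M : ℕ} (hM : 0 < M) {D : Finset ℕ} (hD : ∀ p ∈ D, p.Prime ∧ Nat.Coprime p M)
    (c : ℕ → ℤ) (r : ℤ) (x : ℕ) :
    |(((cls x M r).filter fun n : ℕ => ∀ p ∈ D, (p : ℤ) ∣ (n : ℤ) - c p).card : ℝ) -
      x / (M * ∏ p ∈ D, (p : ℝ))| ≤ 1 := by
  obtain ⟨c₀, hc₀⟩ := crt_ex hD c r
  have hpos : 0 < M * ∏ p ∈ D, p :=
    Nat.mul_pos hM (Finset.prod_pos fun p hp => (hD p hp).1.pos)
  have h1 := class_count hpos c₀ x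
  have h2 : ((cls x M r).filter fun n : ℕ => ∀ p ∈ D, (p : ℤ) ∣ (n : ℤ) - c p) =
      (Finset.Icc 1 x).filter fun n : ℕ => ((M * ∏ p ∈ D, p : ℕ) : ℤ) ∣ (n : ℤ) - c₀ := by
    unfold cls
    rw [Finset.filter_filter]
    refine Finset.filter_congr fun n _ => ?_
    exact hc₀ n
  rw [h2]
  push_cast at h1 ⊢
  exact h1

end Pool.Agent.Work.MP_58cfe3_nt
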