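import Pool.Agent.Work.MP_58cfe3_nt.SDefs

/-!
# Module SDec (size M): decomposition of `g(m)`

PROOF. `primorial w = ∏_{p ≤ w} p` (Mathlib). `d = gcd (m, (primorial w)^A)`, `m = d k`. For a prime `p ≤ w`, the exponent of `p`
in `m` is `< A`, which is the exponent in `(primorial w)^A`, so `p ∤ k`; all prime factors of `d` are
`≤ w`. For a prime `p > w`, `p² ∤ m`. So `k` is squarefree with all prime factors `> w`, coprime to `d`,
`k = ∏_{p ∣ k} p = ∏ (over the primes w < p ≤ Y with p ∣ m) p`, and `g k = ∏ g p` if `k > 1` (induction over the finite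
set, pairwise coprime). If `k = 1`: `g m = g d` and the product is empty (`= 1`). If `k > 1`:
`g m = g d * g k = g d * ∏ g p`. (No assumption `g 1 = 1` is needed: an induction over the set of primes with the statement
`g (d * ∏_{p ∈ S} p) = g d * ∏_{p ∈ S} g p`.)
`gcd_congr`: clear.
-/

set_option autoImplicit false

namespace Pool.Agent.Work.MP_58cfe3_nt

open Filter Topology

private theorem prod_step {g : ℤ → ℂ} (hg : MulBdd g) {d : ℕ} (hd : 0 < d) (S : Finset ℕ)
    (hS : ∀ p ∈ S, p.Prime ∧ ¬ p ∣ d) :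
    g ((d * ∏ p ∈ S, p : ℕ) : ℤ) = g d * ∏ p ∈ S, g p := by
  classical
  induction S using Finset.induction_on with
  | empty => simp
  | insert q S hq ih =>
    have h1 := ih fun p hp => hS p (Finset.mem_insert_of_mem hp)
    have h2 := hS q (Finset.mem_insert_self _ _)
    have hpos : 0 < ∏ p ∈ S, p := Finset.prod_pos fun p hp =>
      (hS p (Finset.mem_insert_of_mem hp)).1.pos
    rw [Finset.prod_insert hq, Finset.prod_insert hq]
    have h3 : d * (q * ∏ p ∈ S, p) = q * (d * ∏ p ∈ S, p) := by ring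
    have h4 : Nat.Coprime q (d * ∏ p ∈ S, p) := by
      rw [Nat.Prime.coprime_iff_not_dvd h2.1]
      intro h5
      rcases (Nat.Prime.dvd_mul h2.1).1 h5 with h6 | h6
      · exact h2.2 h6
      · obtain ⟨p, hp, h7⟩ := (Prime.dvd_finsetProd_iff h2.1.prime _).1 h6
        have h8 := (Nat.prime_dvd_prime_iff_eq h2.1 (hS p (Finset.mem_insert_of_mem hp)).1).1 h7
        rw [h8] at hq
        exact hq hp
    have h5 : IsCoprime (q : ℤ) ((d * ∏ p ∈ S, p : ℕ) : ℤ) := Nat.isCoprime_iff_coprime.2 h4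
    rw [h3, Nat.cast_mul, hg.mul _ _ (by exact_mod_cast h2.1.pos)
      (by exact_mod_cast Nat.mul_pos hd hpos) h5, h1]
    ring

theorem decomp {g : ℤ → ℂ} (hg : MulBdd g) {w A Y : ℕ} {m : ℤ} (hm : 0 < m) (hY : m ≤ Y)
    (ha : ∀ p : ℕ, p.Prime → p ≤ w → ¬ (p : ℤ) ^ A ∣ m)
    (hb : ∀ p : ℕ, p.Prime → w < p → ¬ (p : ℤ) ^ 2 ∣ m) :
    g m = g (Int.gcd m ((primorial w ^ A : ℕ) : ℤ)) *
      ∏ p ∈ (Finset.Icc 1 Y).filter (fun p : ℕ => p.Prime ∧ w < p), if (p : ℤ) ∣ m then g p else 1 := by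
  classical
  obtain ⟨n, rfl⟩ := Int.eq_ofNat_of_zero_le hm.le
  have hn : 0 < n := by exact_mod_cast hm
  have hYn : n ≤ Y := by exact_mod_cast hY
  have ha' : ∀ p : ℕ, p.Prime → p ≤ w → ¬ p ^ A ∣ n := by
    intro p hp hpw h
    apply ha p hp hpw
    exact_mod_cast h
  have hb' : ∀ p : ℕ, p.Prime → w < p → ¬ p ^ 2 ∣ n := by
    intro p hp hpw h
    apply hb p hp hpw
    exact_mod_cast h
  have hg1 : Int.gcd ((n : ℕ) : ℤ) ((primorial w ^ A : ℕ) : ℤ) = Nat.gcd n (primorial w ^ A) :=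
    Int.gcd_natCast_natCast _ _
  rw [hg1]
  set d := Nat.gcd n (primorial w ^ A) with hd
  have hdn : d ∣ n := Nat.gcd_dvd_left _ _
  have hd0 : 0 < d := Nat.gcd_pos_of_pos_left _ hn
  obtain ⟨k, hk⟩ := hdn
  have hk0 : k ≠ 0 := by
    rintro rfl
    rw [mul_zero] at hk
    omega
  -- small primes do not divide `k`
  have hsmall : ∀ p : ℕ, p.Prime → p ∣ k → w < p := by
    intro p hp hpk
    by_contra hpw
    push Not at hpw
    have h1 := ha' p hp hpw
    set e := n.factorization p with he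
    have h2 : p ^ e ∣ n := Nat.ordProj_dvd n p
    have h3 : e < A := by
      by_contra h4
      push Not at h4
      exact h1 ((pow_dvd_pow p h4).trans h2)
    have h5 : p ∣ primorial w := by
      rw [primorial]
      refine Finset.dvd_prod_of_mem (fun p : ℕ => p) ?_
      rw [Finset.mem_filter, Finset.mem_range]
      exact ⟨by omega, hp⟩
    have h6 : p ^ e ∣ primorial w ^ A := (pow_dvd_pow p h3.le).trans (pow_dvd_pow_of_dvd h5 A)
    have h7 : p ^ e ∣ d := Nat.dvd_gcd h2 h6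
    have h8 : p ^ (e + 1) ∣ n := by
      rw [hk, pow_succ]
      exact Nat.mul_dvd_mul h7 hpk
    exact Nat.pow_succ_factorization_not_dvd hn.ne' hp h8
  -- large primes do not divide `d`
  have hlarge : ∀ p : ℕ, p.Prime → w < p → ¬ p ∣ d := by
    intro p hp hpw h
    have h1 : p ∣ primorial w ^ A := h.trans (Nat.gcd_dvd_right _ _)
    have h2 : p ∣ primorial w := hp.dvd_of_dvd_pow h1
    rw [primorial] at h2
    obtain ⟨q, hq, h3⟩ := (Prime.dvd_finsetProd_iff hp.prime _).1 h2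
    rw [Finset.mem_filter, Finset.mem_range] at hq
    have h4 := (Nat.prime_dvd_prime_iff_eq hp hq.2).1 h3
    omega
  have hsq : Squarefree k := by
    rw [Nat.squarefree_iff_prime_squarefree]
    intro p hp h
    have h1 : p ∣ k := (Dvd.intro _ rfl).trans h
    apply hb' p hp (hsmall p hp h1)
    rw [pow_two, hk]
    exact h.trans (Dvd.intro_left _ rfl)
  have hS : ((Finset.Icc 1 Y).filter (fun p : ℕ => p.Prime ∧ w < p)).filter
      (fun p : ℕ => (p : ℤ) ∣ ((n : ℕ) : ℤ)) = k.primeFactors := by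
    ext p
    rw [Finset.mem_filter, Finset.mem_filter, Finset.mem_Icc, Nat.mem_primeFactors]
    constructor
    · rintro ⟨⟨_, hp, hpw⟩, h1⟩
      have h2 : p ∣ n := by exact_mod_cast h1
      rw [hk] at h2
      rcases (Nat.Prime.dvd_mul hp).1 h2 with h3 | h3
      · exact absurd h3 (hlarge p hp hpw)
      · exact ⟨hp, h3, hk0⟩
    · rintro ⟨hp, h1, _⟩
      have h2 : p ∣ n := by
        rw [hk]
        exact h1.trans (Dvd.intro_left _ rfl)
      refine ⟨⟨⟨hp.one_lt.le, (Nat.le_of_dvd hn h2).trans hYn⟩, hp, hsmall p hp h1⟩, ?_⟩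
      exact_mod_cast h2
  have hprod : ∏ p ∈ (Finset.Icc 1 Y).filter (fun p : ℕ => p.Prime ∧ w < p),
      (if (p : ℤ) ∣ ((n : ℕ) : ℤ) then g p else 1) = ∏ p ∈ k.primeFactors, g p := by
    rw [← hS, Finset.prod_filter (fun p : ℕ => (p : ℤ) ∣ ((n : ℕ) : ℤ))]
  have hkk : ∏ p ∈ k.primeFactors, p = k := Nat.prod_primeFactors_of_squarefree hsq
  have hfin := prod_step hg hd0 k.primeFactors fun p hp => by
    have h1 := Nat.prime_of_mem_primeFactors hp
    exact ⟨h1, hlarge p h1 (hsmall p h1 (Nat.dvd_of_mem_primeFactors hp))⟩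
  rw [hkk, ← hk] at hfin
  show g ((n : ℕ) : ℤ) = _
  rw [hfin]
  congr 1
  exact hprod.symm

theorem gcd_congr {m m' : ℤ} {W : ℕ} (h : (W : ℤ) ∣ m - m') :
    Int.gcd m (W : ℤ) = Int.gcd m' (W : ℤ) := by
  obtain ⟨c, hc⟩ := h
  have h1 : m = m' + W * c := by linarith
  rw [h1]
  simp

end Pool.Agent.Work.MP_58cfe3_nt
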