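import Pool.Agent.Work.MP_58cfe3_nt.SDefs

/-!
# Module SLim (size S-M): the archimedean factor of a cube tends to 1

PROOF. For `m > 0`: `(m:ℂ)^(it) = exp (i t log m)`, its conjugate is `exp (-i t log m)`. For `n > B ≥ |vert e A|`,
the product is `exp (i t ∑_A (-1)^|A| log (n + vert e A))`, and since `∑_A (-1)^|A| = 0` (`r ≥ 1`,
`Finset.sum_powerset_neg_one_pow_card` or pairing), the sum equals `∑_A (-1)^|A| (log (n + vert e A) - log n) → 0`
(`log (n + c) - log n → 0`). Continuity of `exp`.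
-/

set_option autoImplicit false

namespace Pool.Agent.Work.MP_58cfe3_nt

open Filter Topology

theorem vert_lim {r : ℕ} (hr : 1 ≤ r) (e : Fin r → ℤ) (t : ℝ) :
    Tendsto (fun n : ℕ => ∏ A : Finset (Fin r), cj (!decide (Even A.card))
      ((((n : ℤ) + vert e A : ℤ) : ℂ) ^ ((t : ℂ) * Complex.I))) atTop (𝓝 1) := by
  have hsum : ∑ A : Finset (Fin r), ((-1 : ℝ) ^ A.card) = 0 := by
    have h1 := Finset.sum_powerset_neg_one_pow_card_of_nonempty
      (x := (Finset.univ : Finset (Fin r))) ⟨⟨0, hr⟩, Finset.mem_univ _⟩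
    rw [Finset.powerset_univ] at h1
    have h2 : ((∑ A : Finset (Fin r), (-1 : ℤ) ^ A.card : ℤ) : ℝ) = 0 := by
      rw [h1]
      simp
    push_cast at h2
    exact h2
  have hlog : ∀ A : Finset (Fin r), Tendsto (fun n : ℕ =>
      (-1 : ℝ) ^ A.card * (Real.log ((n : ℝ) + (vert e A : ℝ)) - Real.log (n : ℝ))) atTop (𝓝 0) := by
    intro A
    have h1 := (Real.tendsto_log_comp_add_sub_log (vert e A : ℝ)).comp
      (tendsto_natCast_atTop_atTop (R := ℝ))
    have h2 := h1.const_mul ((-1 : ℝ) ^ A.card)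
    rw [mul_zero] at h2
    exact h2
  have hlim : Tendsto (fun n : ℕ => ∑ A : Finset (Fin r),
      (-1 : ℝ) ^ A.card * (Real.log ((n : ℝ) + (vert e A : ℝ)) - Real.log (n : ℝ))) atTop (𝓝 0) := by
    have := tendsto_finsetSum (Finset.univ : Finset (Finset (Fin r))) fun A _ => hlog A
    simpa using this
  have hexp : Tendsto (fun n : ℕ => Complex.exp ((((∑ A : Finset (Fin r),
      (-1 : ℝ) ^ A.card * (Real.log ((n : ℝ) + (vert e A : ℝ)) - Real.log (n : ℝ)) : ℝ) : ℂ)) *
        ((t : ℂ) * Complex.I))) atTop (𝓝 1) := by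
    have h1 : Tendsto (fun n : ℕ => (((∑ A : Finset (Fin r),
      (-1 : ℝ) ^ A.card * (Real.log ((n : ℝ) + (vert e A : ℝ)) - Real.log (n : ℝ)) : ℝ) : ℂ)) *
        ((t : ℂ) * Complex.I)) atTop (𝓝 (((0 : ℝ) : ℂ) * ((t : ℂ) * Complex.I))) :=
      ((Complex.continuous_ofReal.tendsto 0).comp hlim).mul_const _
    rw [Complex.ofReal_zero, zero_mul] at h1
    have h2 := (Complex.continuous_exp.tendsto 0).comp h1
    rw [Complex.exp_zero] at h2
    exact h2
  refine hexp.congr' ?_
  obtain ⟨B, hB⟩ : ∃ B : ℕ, ∀ A : Finset (Fin r), |vert e A| ≤ B := by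
    refine ⟨(∑ A : Finset (Fin r), |vert e A|).toNat, fun A => ?_⟩
    have h1 : |vert e A| ≤ ∑ A : Finset (Fin r), |vert e A| :=
      Finset.single_le_sum (f := fun A : Finset (Fin r) => |vert e A|)
        (fun A _ => abs_nonneg _) (Finset.mem_univ A)
    exact h1.trans (Int.self_le_toNat _)
  filter_upwards [Filter.eventually_gt_atTop B] with n hn
  have hfac : ∀ A : Finset (Fin r), cj (!decide (Even A.card))
      ((((n : ℤ) + vert e A : ℤ) : ℂ) ^ ((t : ℂ) * Complex.I)) =
      Complex.exp ((((-1 : ℝ) ^ A.card * Real.log ((n : ℝ) + (vert e A : ℝ)) : ℝ) : ℂ) *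
        ((t : ℂ) * Complex.I)) := by
    intro A
    have hpos : (0 : ℤ) < (n : ℤ) + vert e A := by
      have := (abs_le.1 (hB A)).1
      omega
    have hposR : (0 : ℝ) < (n : ℝ) + (vert e A : ℝ) := by exact_mod_cast hpos
    have hne : ((((n : ℤ) + vert e A : ℤ) : ℂ)) ≠ 0 := by exact_mod_cast hpos.ne'
    have hl : Complex.log (((n : ℤ) + vert e A : ℤ) : ℂ) =
        ((Real.log ((n : ℝ) + (vert e A : ℝ)) : ℝ) : ℂ) := by
      rw [Complex.ofReal_log hposR.le]
      push_cast
      rfl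
    rw [Complex.cpow_def_of_ne_zero hne, hl]
    by_cases hA : Even A.card
    · rw [hA.neg_one_pow, one_mul]
      simp [cj, hA]
    · have hA' : Odd A.card := Nat.not_even_iff_odd.1 hA
      rw [hA'.neg_one_pow]
      simp only [cj, hA, decide_false, Bool.not_false, if_true]
      rw [Complex.star_def, ← Complex.exp_conj]
      congr 1
      simp only [map_mul, Complex.conj_ofReal, Complex.conj_I]
      push_cast
      ring
  rw [Finset.prod_congr rfl fun A _ => hfac A, ← Complex.exp_sum]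
  congr 1
  rw [← Finset.sum_mul]
  congr 1
  rw [← Complex.ofReal_sum]
  congr 1
  have h3 : ∑ A : Finset (Fin r), (-1 : ℝ) ^ A.card * Real.log (n : ℝ) = 0 := by
    rw [← Finset.sum_mul, hsum, zero_mul]
  rw [← sub_zero (∑ A : Finset (Fin r), (-1 : ℝ) ^ A.card * Real.log ((n : ℝ) + (vert e A : ℝ))),
    ← h3, ← Finset.sum_sub_distrib]
  refine Finset.sum_congr rfl fun A _ => ?_
  ring

end Pool.Agent.Work.MP_58cfe3_nt
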