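import Pool.Agent.Work.MP_58cfe3_nt.ElogA

/-!
# Module SPer (size M): multiplication by an almost periodic function

PROOF. Let `η > 0`, `m, Z` from `hap`. `F Y = F Z + F (Y - Z)`. `F n Z n = ∑_{a < m} Z a * (if m ∣ n - a then F n else 0)`, so
`Elog (F Z) → 0` (`elog_add`, `elog_smul`, finite sums). `‖Elog (F (Y - Z)) X‖ ≤ ‖Elog ‖Y - Z‖ X‖ ≤ η` eventually: the
logarithmic average of a function is bounded by that of its norm (`Elog` of a nonnegative real function is a nonnegative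
real number). So `limsup ‖Elog (F Y)‖ ≤ η`.
`elog_zero_of_tendsto`: if `f n → 0` (`n → ∞`, natural `n`) and `f` is bounded, then `Elog f → 0` (the harmonic sum
tends to infinity).
-/

set_option autoImplicit false

namespace Pool.Agent.Work.MP_58cfe3_nt

open Filter Topology

private noncomputable def SSp (X : ℕ) : ℝ := ∑ n ∈ Finset.Icc 1 X, (1 / n : ℝ)

private theorem elog_eqp (f : ℤ → ℂ) (X : ℕ) :
    Elog f X = (∑ n ∈ Finset.Icc 1 X, f n / n) / (SSp X : ℂ) := by
  rw [Elog, SSp]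
  push_cast
  rfl

private theorem SSp_nonneg (X : ℕ) : 0 ≤ SSp X := Finset.sum_nonneg fun n _ => by positivity

private theorem SSp_tendsto : Tendsto SSp atTop atTop := by
  have h1 := Real.tendsto_sum_range_one_div_nat_succ_atTop
  refine h1.congr fun X => ?_
  rw [SSp]
  induction X with
  | zero => simp
  | succ X ih =>
    rw [Finset.sum_range_succ, ih, Finset.sum_Icc_succ_top (by omega)]
    push_cast
    rfl

private theorem elog_mono {f : ℤ → ℂ} {g : ℤ → ℝ} (h : ∀ n, ‖f n‖ ≤ g n) (X : ℕ) :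
    ‖Elog f X‖ ≤ ‖Elog (fun n => ((g n : ℝ) : ℂ)) X‖ := by
  have hg : ∀ n, 0 ≤ g n := fun n => (norm_nonneg _).trans (h n)
  rw [elog_eqp, elog_eqp, norm_div, norm_div]
  refine div_le_div_of_nonneg_right ?_ (norm_nonneg _)
  have h1 : (∑ n ∈ Finset.Icc 1 X, ((g n : ℝ) : ℂ) / (n : ℂ)) =
      ((∑ n ∈ Finset.Icc 1 X, g n / (n : ℝ) : ℝ) : ℂ) := by
    push_cast
    rfl
  have h2 : 0 ≤ ∑ n ∈ Finset.Icc 1 X, g n / (n : ℝ) := Finset.sum_nonneg fun n _ =>
    div_nonneg (hg _) (Nat.cast_nonneg n)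
  rw [h1, Complex.norm_real, Real.norm_eq_abs, abs_of_nonneg h2]
  refine (norm_sum_le _ _).trans (Finset.sum_le_sum fun n _ => ?_)
  rw [norm_div, Complex.norm_natCast]
  exact div_le_div_of_nonneg_right (h n) (Nat.cast_nonneg n)

private theorem elog_sum {ι : Type*} (s : Finset ι) (f : ι → ℤ → ℂ) (X : ℕ) :
    Elog (fun n => ∑ a ∈ s, f a n) X = ∑ a ∈ s, Elog (f a) X := by
  simp only [elog_eqp]
  rw [← Finset.sum_div, Finset.sum_comm]
  congr 1
  exact Finset.sum_congr rfl fun n _ => Finset.sum_div _ _ _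

theorem per_approx {F Y : ℤ → ℂ} (hF : ∀ n, ‖F n‖ ≤ 1) (hY : ∀ n, ‖Y n‖ ≤ 1)
    (h : ∀ m : ℕ, 0 < m → ∀ a : ℤ,
      Tendsto (Elog fun n => if (m : ℤ) ∣ n - a then F n else 0) atTop (𝓝 0))
    (hap : ∀ η : ℝ, 0 < η → ∃ m : ℕ, 0 < m ∧ ∃ Z : ℤ → ℂ, (∀ n, ‖Z n‖ ≤ 1) ∧
      (∀ n, Z (n + m) = Z n) ∧
      ∀ᶠ X : ℕ in atTop, ‖Elog (fun n => ((‖Y n - Z n‖ : ℝ) : ℂ)) X‖ ≤ η) :
    Tendsto (Elog fun n => F n * Y n) atTop (𝓝 0) := by
  have _ := hY
  rw [Metric.tendsto_nhds]
  intro ε hε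
  obtain ⟨m, hm, Z, hZ1, hZm, hev⟩ := hap (ε / 2) (by linarith)
  have hper : Function.Periodic Z (m : ℤ) := hZm
  have hmz : (m : ℤ) ≠ 0 := by exact_mod_cast hm.ne'
  have hmz' : (0 : ℤ) < m := by exact_mod_cast hm
  have h1 : ∀ n : ℤ, F n * Z n = ∑ a ∈ Finset.range m, Z a *
      (if (m : ℤ) ∣ n - a then F n else 0) := by
    intro n
    have h2 : 0 ≤ n % m := Int.emod_nonneg _ hmz
    have h3 : n % m < m := Int.emod_lt_of_pos _ hmz'
    have h4 : ((n % m).toNat : ℤ) = n % m := Int.toNat_of_nonneg h2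
    rw [Finset.sum_eq_single (n % m).toNat]
    · rw [h4, if_pos (Int.dvd_self_sub_emod)]
      have h5 : Z n = Z (n % m) := by
        conv_lhs => rw [← Int.emod_add_mul_ediv n m, mul_comm]
        exact hper.int_mul (n / m) _
      rw [h5, mul_comm]
    · intro b hb hne
      rw [if_neg, mul_zero]
      intro h5
      apply hne
      have h6 : n % m = b := by
        have h7 : n % m = (b : ℤ) % m :=
          (Int.emod_eq_emod_iff_emod_sub_eq_zero).2 (Int.emod_eq_zero_of_dvd h5)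
        rw [h7]
        exact Int.emod_eq_of_lt (by positivity) (by exact_mod_cast Finset.mem_range.1 hb)
      rw [h6]
      simp
    · intro h5
      exfalso
      apply h5
      rw [Finset.mem_range]
      omega
  have h2 : Tendsto (Elog fun n => F n * Z n) atTop (𝓝 0) := by
    have h3 : Tendsto (fun X : ℕ => ∑ a ∈ Finset.range m, Z a *
        Elog (fun n => if (m : ℤ) ∣ n - a then F n else 0) X) atTop
        (𝓝 (∑ a ∈ Finset.range m, Z a * 0)) :=
      tendsto_finsetSum _ fun a _ => (h m hm a).const_mul (Z a)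
    simp only [mul_zero, Finset.sum_const_zero] at h3
    refine h3.congr fun X => ?_
    have h4 : (fun n => F n * Z n) = fun n => ∑ a ∈ Finset.range m, Z a *
      (if (m : ℤ) ∣ n - a then F n else 0) := funext h1
    rw [h4, elog_sum]
    exact Finset.sum_congr rfl fun a _ => (elog_smul _ _ _).symm
  rw [Metric.tendsto_nhds] at h2
  filter_upwards [hev, h2 (ε / 2) (by linarith)] with X hX1 hX2
  rw [dist_zero_right] at hX2 ⊢
  have h3 : Elog (fun n => F n * Y n) X = Elog (fun n => F n * Z n) X +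
      Elog (fun n => F n * (Y n - Z n)) X := by
    rw [← elog_add]
    congr 1
    funext n
    ring
  have h4 : ‖Elog (fun n => F n * (Y n - Z n)) X‖ ≤
      ‖Elog (fun n => ((‖Y n - Z n‖ : ℝ) : ℂ)) X‖ := by
    refine elog_mono (fun n => ?_) X
    rw [norm_mul]
    exact mul_le_of_le_one_left (norm_nonneg _) (hF n)
  rw [h3]
  calc _ ≤ _ := norm_add_le _ _
    _ < ε / 2 + ε / 2 := add_lt_add_of_lt_of_le hX2 (h4.trans hX1)
    _ = ε := by ring

theorem elog_zero_of_tendsto {f : ℤ → ℂ} (hf : Bdd f)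
    (h : Tendsto (fun n : ℕ => f n) atTop (𝓝 0)) : Tendsto (Elog f) atTop (𝓝 0) := by
  obtain ⟨C, hC⟩ := hf
  have hC0 : 0 ≤ C := (norm_nonneg _).trans (hC 0)
  rw [Metric.tendsto_nhds]
  intro ε hε
  rw [Metric.tendsto_atTop] at h
  obtain ⟨n₀, hn₀⟩ := h (ε / 2) (by linarith)
  have h1 : ∀ᶠ X : ℕ in atTop, 2 * (C * n₀) / ε < SSp X := SSp_tendsto.eventually_gt_atTop _
  filter_upwards [h1] with X hX
  have h0 : 0 ≤ 2 * (C * n₀) / ε := by positivity
  have hS : 0 < SSp X := lt_of_le_of_lt h0 hX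
  rw [dist_zero_right, elog_eqp, norm_div, Complex.norm_real, Real.norm_eq_abs,
    abs_of_nonneg hS.le, div_lt_iff₀ hS]
  have h2 : ∀ n ∈ Finset.Icc 1 X, ‖f n / (n : ℂ)‖ ≤ ε / 2 * (1 / n) +
      (if n < n₀ then C else 0) := by
    intro n hn
    have hn1 : (1 : ℝ) ≤ n := by exact_mod_cast (Finset.mem_Icc.1 hn).1
    rw [norm_div, Complex.norm_natCast]
    by_cases hlt : n < n₀
    · rw [if_pos hlt]
      have h3 : ‖f n‖ / (n : ℝ) ≤ C := by
        refine (div_le_div_of_nonneg_right (hC n) (by linarith)).trans ?_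
        exact div_le_self hC0 hn1
      have h4 : 0 ≤ ε / 2 * (1 / (n : ℝ)) := by positivity
      linarith
    · rw [if_neg hlt, add_zero, ← mul_div_assoc, mul_one]
      have h3 := hn₀ n (not_lt.1 hlt)
      rw [dist_zero_right] at h3
      exact div_le_div_of_nonneg_right h3.le (by linarith)
  have h3 : ∑ n ∈ Finset.Icc 1 X, (if n < n₀ then C else 0) ≤ C * n₀ := by
    rw [← Finset.sum_filter, Finset.sum_const, nsmul_eq_mul, mul_comm]
    refine mul_le_mul_of_nonneg_left ?_ hC0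
    have h4 : ((Finset.Icc 1 X).filter fun n => n < n₀) ⊆ Finset.range n₀ := by
      intro n hn
      exact Finset.mem_range.2 (Finset.mem_filter.1 hn).2
    have h5 := Finset.card_le_card h4
    rw [Finset.card_range] at h5
    exact_mod_cast h5
  have h4 : ‖∑ n ∈ Finset.Icc 1 X, f n / (n : ℂ)‖ ≤ ε / 2 * SSp X + C * n₀ := by
    refine (norm_sum_le _ _).trans ((Finset.sum_le_sum h2).trans ?_)
    rw [Finset.sum_add_distrib, ← Finset.mul_sum]
    exact add_le_add le_rfl h3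
  have h5 : C * n₀ < ε / 2 * SSp X := by
    rw [div_lt_iff₀ hε] at hX
    linarith
  calc _ ≤ _ := h4
    _ < ε / 2 * SSp X + ε / 2 * SSp X := by linarith
    _ = ε * SSp X := by ring

end Pool.Agent.Work.MP_58cfe3_nt
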