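import Pool.Agent.Work.MP_58cfe3_nt.SLog
import Pool.Agent.Work.MP_58cfe3_nt.SPer
import Pool.Agent.Work.MP_58cfe3_nt.SApp
import Pool.Agent.Work.MP_58cfe3_nt.SUnt
import Pool.Agent.Work.MP_58cfe3_nt.SLim
import Pool.Agent.Work.MP_58cfe3_nt.Crit

/-!
# Module SFin (size M): slow functions

PROOF. `q, χ, t` from `Slow g`; `g' = unt g χ t` is `MulBdd`, `Near`, `Far` (module SUnt). Let `e` with `vert e` injective,
`s A = !decide (Even A.card)` (so `cube g e n = ∏_A cj (s A) (g (n + vert e A))`),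
`F n = ∏_A cj (s A) (g' (n + vert e A))`, `Y n = ∏_A cj (s A) (xs χ (n + vert e A))`. `per_approx` with `slow_core` (`ι = Finset (Fin r)`,
`v = vert e`) and `xs_approx` gives `Elog (F Y) → 0`. For large `n` (all vertices positive), by `unt_eq`,
`cube g e n = F n * Y n * R n`, `R n = ∏_A cj (s A) ((n + vert e A)^(it)) → 1` (`vert_lim`, here `r ≥ 1` is used), so
`cube g e n - F n Y n → 0` and `elog_zero_of_tendsto`, `elog_add` finish. `slow_universal`: `criterion`.
-/

set_option autoImplicit false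

namespace Pool.Agent.Work.MP_58cfe3_nt

open Filter Topology

private theorem cj_mul (b : Bool) (z w : ℂ) : cj b (z * w) = cj b z * cj b w := by
  unfold cj
  split_ifs
  · rw [star_mul']
  · rfl

private theorem sf_norm_cj (b : Bool) (z : ℂ) : ‖cj b z‖ = ‖z‖ := by
  unfold cj
  split_ifs
  · exact norm_star z
  · rfl

private theorem sf_norm_prod {ι : Type} [Fintype ι] (s : ι → Bool) (z : ι → ℂ)
    (hz : ∀ i, ‖z i‖ ≤ 1) : ‖∏ i, cj (s i) (z i)‖ ≤ 1 :=
  norm_prod_le_one _ _ fun i _ => by rw [sf_norm_cj]; exact hz i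

private theorem cube_cj (g : ℤ → ℂ) {r : ℕ} (e : Fin r → ℤ) (n : ℤ) :
    cube g e n = ∏ A : Finset (Fin r), cj (!decide (Even A.card)) (g (n + vert e A)) := by
  unfold cube cj
  refine Finset.prod_congr rfl fun A _ => ?_
  by_cases h : Even A.card
  · simp [h]
  · simp [h]

theorem slow_cubes {g : ℤ → ℂ} (hg : MulBdd g) (hs : Slow g) {r : ℕ} (hr : 1 ≤ r) :
    Cubes g r := by
  intro e he
  obtain ⟨q, hq, χ, t, hnear, hfar⟩ := hs
  have hg' := unt_mulBdd hg χ t
  have hN := unt_near (g := g) (χ := χ) (t := t) hnear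
  have hF := unt_far hg hfar
  have hY : ∀ n : ℤ, ‖∏ A : Finset (Fin r), cj (!decide (Even A.card)) (xs χ (n + vert e A))‖ ≤ 1 :=
    fun n => sf_norm_prod _ _ fun A => (norm_xs χ _).le
  have hFn : ∀ n : ℤ, ‖∏ A : Finset (Fin r), cj (!decide (Even A.card))
      (unt g χ t (n + vert e A))‖ ≤ 1 := fun n => sf_norm_prod _ _ fun A => hg'.bdd _
  have h1 : Tendsto (Elog fun n => (∏ A : Finset (Fin r), cj (!decide (Even A.card))
      (unt g χ t (n + vert e A))) * ∏ A : Finset (Fin r), cj (!decide (Even A.card))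
      (xs χ (n + vert e A))) atTop (𝓝 0) := by
    refine per_approx hFn hY (fun m hm a => ?_) (fun η hη => ?_)
    · exact slow_core hg' hN hF he (fun A => !decide (Even A.card)) hm a
    · exact xs_approx χ (vert e) (fun A => !decide (Even A.card)) hη
  have hcb : ∀ n, ‖cube g e n‖ ≤ 1 := norm_cube_le hg.bdd e
  have h2 : Tendsto (Elog fun n => cube g e n - (∏ A : Finset (Fin r), cj (!decide (Even A.card))
      (unt g χ t (n + vert e A))) * ∏ A : Finset (Fin r), cj (!decide (Even A.card))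
      (xs χ (n + vert e A))) atTop (𝓝 0) := by
    refine elog_zero_of_tendsto ((bdd_of_le hcb).sub ((bdd_of_le hFn).mul (bdd_of_le hY))) ?_
    have h3 := vert_lim hr e t
    have h4 : Tendsto (fun n : ℕ => ‖(∏ A : Finset (Fin r), cj (!decide (Even A.card))
        ((((n : ℤ) + vert e A : ℤ) : ℂ) ^ ((t : ℂ) * Complex.I))) - 1‖) atTop (𝓝 0) := by
      have h5 := (h3.sub (tendsto_const_nhds (x := (1 : ℂ)))).norm
      rwa [sub_self, norm_zero] at h5
    refine squeeze_zero_norm' ?_ h4
    obtain ⟨B, hB⟩ : ∃ B : ℕ, ∀ A, |vert e A| ≤ B := by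
      refine ⟨∑ A, (vert e A).natAbs, fun A => ?_⟩
      rw [Int.abs_eq_natAbs]
      exact_mod_cast Finset.single_le_sum (f := fun A => (vert e A).natAbs)
        (fun _ _ => Nat.zero_le _) (Finset.mem_univ A)
    filter_upwards [eventually_gt_atTop B] with n hn
    have hpos : ∀ A, 0 < (n : ℤ) + vert e A := by
      intro A
      have h5 := (abs_le.1 (hB A)).1
      omega
    have h5 : cube g e n = ((∏ A : Finset (Fin r), cj (!decide (Even A.card))
        (unt g χ t (n + vert e A))) * ∏ A : Finset (Fin r), cj (!decide (Even A.card))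
        (xs χ (n + vert e A))) * ∏ A : Finset (Fin r), cj (!decide (Even A.card))
        ((((n : ℤ) + vert e A : ℤ) : ℂ) ^ ((t : ℂ) * Complex.I)) := by
      rw [cube_cj, ← Finset.prod_mul_distrib, ← Finset.prod_mul_distrib]
      refine Finset.prod_congr rfl fun A _ => ?_
      rw [← cj_mul, ← cj_mul, ← unt_eq g χ t (hpos A)]
    rw [h5, ← mul_sub_one, norm_mul, norm_mul]
    calc _ ≤ (1 : ℝ) * ‖_‖ := by
          refine mul_le_mul_of_nonneg_right ?_ (norm_nonneg _)
          exact mul_le_one₀ (hFn n) (norm_nonneg _) (hY n)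
      _ = _ := one_mul _
  have h3 := h1.add h2
  rw [add_zero] at h3
  refine h3.congr fun X => ?_
  rw [← elog_add]
  congr 1
  funext n
  exact add_sub_cancel _ _

theorem slow_universal {g : ℤ → ℂ} (hg : MulBdd g) (hs : Slow g) {r : ℕ} (hr : 1 ≤ r) :
    Universal g r := criterion hg (slow_cubes hg hs hr)

end Pool.Agent.Work.MP_58cfe3_nt
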