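import Pool.Agent.Work.MP_58cfe3_nt.SKubA

/-!
# Module SKub (size M): the Kubilius model, choice of the parameters

PROOF. `b ≥ b₀` with `e^(-b) ≤ η/8`, `κ = Fintype.card ι`, `θ = min 1 (min (1/(4 (8 b + 22))) (η/(256 (κ + 1))))`,
`w₀ = max (2 κ) (max_{i,j} |v i - v j|)` (so that a prime `p > w₀` has `2κ ≤ p` and does not divide
`v i - v j ≠ 0`). For given `M` and large `x` take `z = ⌊x^θ⌋₊ + 2`, `D = ⌊x^(1/4)⌋₊`: `T` satisfies `TP v M z`.
`z ≤ 3 x^θ` for large `x`, `log D ≥ (log x)/8`, `D² ≤ x^(1/2)`. Terms of `kub_fin` divided by `x/M`: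
`e^(-b) ≤ η/8`; `3 D² (1+z) z^(8b+20) ≤ 6 x^(1/2) (3 x^θ)^(8b+21) ≤ 6 * 3^(8b+21) x^(3/4)`, which is
`≤ (η/8) x/M` for large `x`; `(κ/log D) 2 (log z + C) ≤ 16 κ (θ + (log 3 + C)/log x) ≤ η/8 + ..`;
`(κ/log D) z log z ≤ x^(1/2)` for large `x`, `≤ (η/8) x/M`.
-/

set_option autoImplicit false

namespace Pool.Agent.Work.MP_58cfe3_nt

open Filter Topology

private theorem kub_num {κ C η : ℝ} {b M : ℕ} (hκ : 0 ≤ κ) (hC : 0 ≤ C) (hη : 0 < η) (hM : 0 < M)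
    (hb : Real.exp (-(b : ℝ)) ≤ η / 8) {θ : ℝ} (hθ0 : 0 < θ) (hθ1 : θ ≤ 1 / (4 * (8 * b + 22)))
    (hθ2 : θ ≤ η / (256 * (κ + 1))) :
    ∀ᶠ x : ℕ in atTop, 2 ≤ ⌊(x : ℝ) ^ (1 / 4 : ℝ)⌋₊ ∧
      Real.exp (-b) * (x / M) + 3 * ((⌊(x : ℝ) ^ (1 / 4 : ℝ)⌋₊ : ℕ) : ℝ) ^ 2 *
          ((1 + ((⌊(x : ℝ) ^ θ⌋₊ + 2 : ℕ) : ℝ)) * ((⌊(x : ℝ) ^ θ⌋₊ + 2 : ℕ) : ℝ) ^ (8 * b + 20)) +
          (κ / Real.log ((⌊(x : ℝ) ^ (1 / 4 : ℝ)⌋₊ : ℕ) : ℝ)) *
            (x / M * (2 * (Real.log ((⌊(x : ℝ) ^ θ⌋₊ + 2 : ℕ) : ℝ) + C)) +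
              ((⌊(x : ℝ) ^ θ⌋₊ + 2 : ℕ) : ℝ) * Real.log ((⌊(x : ℝ) ^ θ⌋₊ + 2 : ℕ) : ℝ)) ≤
        η * (x / M) := by
  have hpow : ∀ a : ℝ, 0 < a → Tendsto (fun x : ℕ => (x : ℝ) ^ a) atTop atTop := fun a ha =>
    (tendsto_rpow_atTop ha).comp tendsto_natCast_atTop_atTop
  have hlog : Tendsto (fun x : ℕ => Real.log (x : ℝ)) atTop atTop :=
    Real.tendsto_log_atTop.comp tendsto_natCast_atTop_atTop
  set K1 : ℝ := 6 * 3 ^ (8 * b + 21) with hK1
  have hM' : (0 : ℝ) < M := by exact_mod_cast hM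
  filter_upwards [(hpow (1 / 8) (by norm_num)).eventually_ge_atTop 4,
    (hpow (1 / 4) (by norm_num)).eventually_ge_atTop (8 * M * K1 / η),
    (hpow (1 / 2) (by norm_num)).eventually_ge_atTop (576 * κ * M / η),
    hlog.eventually_ge_atTop (256 * κ * (Real.log 3 + C) / η), hlog.eventually_ge_atTop 1,
    eventually_ge_atTop 1] with x e2 e3 e4 e5 e6 e1
  set X : ℝ := (x : ℝ) with hX
  have hX1 : (1 : ℝ) ≤ X := by
    rw [hX]
    exact_mod_cast e1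
  have hX0 : (0 : ℝ) < X := by linarith
  set z : ℝ := ((⌊X ^ θ⌋₊ + 2 : ℕ) : ℝ) with hz
  set D : ℝ := ((⌊X ^ (1 / 4 : ℝ)⌋₊ : ℕ) : ℝ) with hD
  have hθX : 1 ≤ X ^ θ := Real.one_le_rpow hX1 hθ0.le
  have hz1 : z ≤ 3 * X ^ θ := by
    have h1 : ((⌊X ^ θ⌋₊ : ℕ) : ℝ) ≤ X ^ θ := Nat.floor_le (by positivity)
    rw [hz]
    push_cast
    linarith
  have hz2 : 2 ≤ z := by
    rw [hz]
    push_cast
    have : (0 : ℝ) ≤ ((⌊X ^ θ⌋₊ : ℕ) : ℝ) := Nat.cast_nonneg _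
    linarith
  have h48 : X ^ (1 / 4 : ℝ) = X ^ (1 / 8 : ℝ) * X ^ (1 / 8 : ℝ) := by
    rw [← Real.rpow_add hX0]
    norm_num
  have hD0 : X ^ (1 / 8 : ℝ) ≤ D := by
    have h1 : X ^ (1 / 4 : ℝ) < D + 1 := Nat.lt_floor_add_one _
    nlinarith
  have hD1 : D ≤ X ^ (1 / 4 : ℝ) := Nat.floor_le (by positivity)
  have hD4 : 4 ≤ D := e2.trans hD0
  have hD2 : D ^ 2 ≤ X ^ (1 / 2 : ℝ) := by
    have h1 : X ^ (1 / 2 : ℝ) = X ^ (1 / 4 : ℝ) * X ^ (1 / 4 : ℝ) := by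
      rw [← Real.rpow_add hX0]
      norm_num
    rw [h1, pow_two]
    exact mul_le_mul hD1 hD1 (by linarith) (by positivity)
  have hlogD : Real.log X / 8 ≤ Real.log D := by
    have h1 : Real.log (X ^ (1 / 8 : ℝ)) ≤ Real.log D := Real.log_le_log (by positivity) hD0
    rw [Real.log_rpow hX0] at h1
    linarith
  have hlogX : 1 ≤ Real.log X := e6
  have hlogz : Real.log z ≤ Real.log 3 + θ * Real.log X := by
    have h1 : Real.log z ≤ Real.log (3 * X ^ θ) := Real.log_le_log (by linarith) hz1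
    rw [Real.log_mul (by norm_num) (by positivity), Real.log_rpow hX0] at h1
    exact h1
  have hbnn : (0 : ℝ) ≤ b := Nat.cast_nonneg _
  have hθb : θ * (8 * b + 21) ≤ 1 / 4 := by
    have h1 : θ * (4 * (8 * b + 22)) ≤ 1 := by
      rw [le_div_iff₀ (by positivity)] at hθ1
      exact hθ1
    nlinarith
  have hθs : θ ≤ 1 / 4 := by nlinarith
  refine ⟨?_, ?_⟩
  · have h1 : (2 : ℝ) ≤ D := by linarith
    rw [hD] at h1
    exact_mod_cast h1
  -- first term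
  have t1 : Real.exp (-b) * (X / M) ≤ η / 8 * (X / M) :=
    mul_le_mul_of_nonneg_right hb (by positivity)
  -- second term
  have t2 : 3 * D ^ 2 * ((1 + z) * z ^ (8 * b + 20)) ≤ η / 8 * (X / M) := by
    have h1 : (1 + z) * z ^ (8 * b + 20) ≤ 2 * (3 * X ^ θ) ^ (8 * b + 21) := by
      have h2 : (1 + z) * z ^ (8 * b + 20) ≤ (2 * z) * z ^ (8 * b + 20) :=
        mul_le_mul_of_nonneg_right (by linarith) (by positivity)
      have h3 : (2 * z) * z ^ (8 * b + 20) = 2 * z ^ (8 * b + 21) := by ring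
      have h4 : z ^ (8 * b + 21) ≤ (3 * X ^ θ) ^ (8 * b + 21) :=
        pow_le_pow_left₀ (by linarith) hz1 _
      linarith
    have h5 : (3 * X ^ θ) ^ (8 * b + 21) ≤ 3 ^ (8 * b + 21) * X ^ (1 / 4 : ℝ) := by
      rw [mul_pow, ← Real.rpow_natCast (X ^ θ), ← Real.rpow_mul hX0.le]
      refine mul_le_mul_of_nonneg_left ?_ (by positivity)
      refine Real.rpow_le_rpow_of_exponent_le hX1 ?_
      push_cast
      exact hθb
    have h6 : 3 * D ^ 2 * ((1 + z) * z ^ (8 * b + 20)) ≤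
        3 * X ^ (1 / 2 : ℝ) * (2 * (3 ^ (8 * b + 21) * X ^ (1 / 4 : ℝ))) := by
      refine mul_le_mul (by linarith) (h1.trans (by linarith)) (by positivity) (by positivity)
    have h7 : 3 * X ^ (1 / 2 : ℝ) * (2 * (3 ^ (8 * b + 21) * X ^ (1 / 4 : ℝ))) =
        K1 * X ^ (3 / 4 : ℝ) := by
      have h8 : X ^ (3 / 4 : ℝ) = X ^ (1 / 2 : ℝ) * X ^ (1 / 4 : ℝ) := by
        rw [← Real.rpow_add hX0]
        norm_num
      rw [h8, hK1]
      ring
    have h9 : X = X ^ (3 / 4 : ℝ) * X ^ (1 / 4 : ℝ) := by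
      rw [← Real.rpow_add hX0, show (3 / 4 + 1 / 4 : ℝ) = 1 by norm_num, Real.rpow_one]
    have h10 : K1 * X ^ (3 / 4 : ℝ) ≤ η / 8 * (X / M) := by
      have h11 : K1 ≤ η / 8 * (X ^ (1 / 4 : ℝ) / M) := by
        rw [div_le_iff₀ hη] at e3
        rw [div_mul_div_comm, le_div_iff₀ (by positivity)]
        clear_value K1
        linarith
      calc K1 * X ^ (3 / 4 : ℝ) ≤ η / 8 * (X ^ (1 / 4 : ℝ) / M) * X ^ (3 / 4 : ℝ) :=
            mul_le_mul_of_nonneg_right h11 (by positivity)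
        _ = η / 8 * ((X ^ (3 / 4 : ℝ) * X ^ (1 / 4 : ℝ)) / M) := by ring
        _ = η / 8 * (X / M) := by rw [← h9]
    linarith
  -- third term
  have hfac : κ / Real.log D ≤ 8 * κ / Real.log X := by
    rw [div_le_div_iff₀ (by linarith) (by linarith)]
    have h1 := mul_le_mul_of_nonneg_left hlogD hκ
    linarith
  have hfac0 : 0 ≤ κ / Real.log D := div_nonneg hκ (by linarith)
  have hlogz0 : 0 ≤ Real.log z := Real.log_nonneg (by linarith)
  have t3 : κ / Real.log D * (X / M * (2 * (Real.log z + C))) ≤ η / 8 * (X / M) := by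
    have h1 : κ / Real.log D * (2 * (Real.log z + C)) ≤
        8 * κ / Real.log X * (2 * (Real.log 3 + θ * Real.log X + C)) :=
      mul_le_mul hfac (by linarith) (by positivity) (div_nonneg (by positivity) (by linarith))
    have h2 : 8 * κ / Real.log X * (2 * (Real.log 3 + θ * Real.log X + C)) =
        16 * κ * θ + 16 * κ * (Real.log 3 + C) / Real.log X := by
      field_simp
      ring
    have h3 : 16 * κ * θ ≤ η / 16 := by
      rw [le_div_iff₀ (by positivity)] at hθ2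
      linarith
    have h4 : 16 * κ * (Real.log 3 + C) / Real.log X ≤ η / 16 := by
      rw [div_le_iff₀ hη] at e5
      rw [div_le_iff₀ (by linarith)]
      linarith
    have h5 : κ / Real.log D * (2 * (Real.log z + C)) ≤ η / 8 := by linarith
    calc κ / Real.log D * (X / M * (2 * (Real.log z + C))) =
          κ / Real.log D * (2 * (Real.log z + C)) * (X / M) := by ring
      _ ≤ η / 8 * (X / M) := mul_le_mul_of_nonneg_right h5 (by positivity)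
  have t4 : κ / Real.log D * (z * Real.log z) ≤ η / 8 * (X / M) := by
    have h1 : κ / Real.log D ≤ 8 * κ := by
      refine hfac.trans ?_
      rw [div_le_iff₀ (by linarith)]
      nlinarith
    have h2 : Real.log z ≤ z := by
      have := Real.log_le_sub_one_of_pos (show 0 < z by linarith)
      linarith
    have h3 : z * Real.log z ≤ 9 * X ^ (1 / 2 : ℝ) := by
      have h4 : z * Real.log z ≤ z * z := mul_le_mul_of_nonneg_left h2 (by linarith)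
      have h5 : z * z ≤ (3 * X ^ θ) * (3 * X ^ θ) :=
        mul_le_mul hz1 hz1 (by linarith) (by positivity)
      have h6 : X ^ θ * X ^ θ ≤ X ^ (1 / 2 : ℝ) := by
        rw [← Real.rpow_add hX0]
        exact Real.rpow_le_rpow_of_exponent_le hX1 (by linarith)
      nlinarith
    have h7 : κ / Real.log D * (z * Real.log z) ≤ 8 * κ * (9 * X ^ (1 / 2 : ℝ)) :=
      mul_le_mul h1 h3 (mul_nonneg (by linarith) hlogz0) (by positivity)
    have h8 : X = X ^ (1 / 2 : ℝ) * X ^ (1 / 2 : ℝ) := by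
      rw [← Real.rpow_add hX0, show (1 / 2 + 1 / 2 : ℝ) = 1 by norm_num, Real.rpow_one]
    have h9 : 72 * κ ≤ η / 8 * (X ^ (1 / 2 : ℝ) / M) := by
      rw [div_le_iff₀ hη] at e4
      rw [div_mul_div_comm, le_div_iff₀ (by positivity)]
      linarith
    calc κ / Real.log D * (z * Real.log z) ≤ 8 * κ * (9 * X ^ (1 / 2 : ℝ)) := h7
      _ = 72 * κ * X ^ (1 / 2 : ℝ) := by ring
      _ ≤ η / 8 * (X ^ (1 / 2 : ℝ) / M) * X ^ (1 / 2 : ℝ) :=
          mul_le_mul_of_nonneg_right h9 (by positivity)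
      _ = η / 8 * ((X ^ (1 / 2 : ℝ) * X ^ (1 / 2 : ℝ)) / M) := by ring
      _ = η / 8 * (X / M) := by rw [← h8]
  have hXM : 0 ≤ X / M := by positivity
  have t5 : κ / Real.log D * (X / M * (2 * (Real.log z + C)) + z * Real.log z) =
      κ / Real.log D * (X / M * (2 * (Real.log z + C))) + κ / Real.log D * (z * Real.log z) := by
    ring
  rw [t5]
  have t6 : 0 ≤ η * (X / M) := mul_nonneg hη.le hXM
  linarith

theorem kub {ι : Type} [Fintype ι] {v : ι → ℤ} (hv : Function.Injective v) {η : ℝ} (hη : 0 < η) :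
    ∃ θ : ℝ, 0 < θ ∧ θ ≤ 1 ∧ ∃ w₀ : ℕ, ∀ M : ℕ, 0 < M → ∃ x₀ : ℕ, ∀ x : ℕ, x₀ ≤ x →
      ∀ T : Finset ℕ, (∀ p ∈ T, p.Prime ∧ w₀ < p ∧ (p : ℝ) ≤ (x : ℝ) ^ θ ∧ Nat.Coprime p M) →
      ∀ u : ℕ → ι → ℂ, (∀ p i, ‖u p i‖ ≤ 1) → ∀ r : ℤ,
        ‖∑ n ∈ cls x M r, FF v T u n -
          ((x : ℂ) / M) * ∏ p ∈ T, (1 - (∑ i, (1 - u p i)) / (p : ℂ))‖ ≤ η * (x / M) := by
  classical
  obtain ⟨b₀, C, hC, hkub⟩ := kub_fin v
  -- choice of `b`
  obtain ⟨b, hb0, hb⟩ : ∃ b : ℕ, b₀ ≤ b ∧ Real.exp (-(b : ℝ)) ≤ η / 8 := by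
    have h1 : Tendsto (fun b : ℕ => Real.exp (-(b : ℝ))) atTop (𝓝 0) :=
      Real.tendsto_exp_neg_atTop_nhds_zero.comp tendsto_natCast_atTop_atTop
    obtain ⟨b, hb1, hb2⟩ := ((eventually_ge_atTop b₀).and
      (h1.eventually (gt_mem_nhds (show (0 : ℝ) < η / 8 by positivity)))).exists
    exact ⟨b, hb1, hb2.le⟩
  set κ : ℝ := (Fintype.card ι : ℝ) with hκ
  have hκ0 : 0 ≤ κ := Nat.cast_nonneg _
  have hθpos : 0 < min 1 (min (1 / (4 * (8 * (b : ℝ) + 22))) (η / (256 * (κ + 1)))) := by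
    refine lt_min one_pos (lt_min ?_ ?_) <;> positivity
  refine ⟨_, hθpos, min_le_left _ _, max (2 * Fintype.card ι)
    (Finset.univ.sup fun ij : ι × ι => (v ij.1 - v ij.2).natAbs), fun M hM => ?_⟩
  have hnum := kub_num hκ0 hC hη hM hb hθpos
    ((min_le_right _ _).trans (min_le_left _ _)) ((min_le_right _ _).trans (min_le_right _ _))
  obtain ⟨x₀, hx₀⟩ := eventually_atTop.1 hnum
  refine ⟨x₀, fun x hx T hT u hu r => ?_⟩
  obtain ⟨h2D, hle⟩ := hx₀ x hx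
  set θ := min 1 (min (1 / (4 * (8 * (b : ℝ) + 22))) (η / (256 * (κ + 1)))) with hθ
  have hTP : TP v M (⌊(x : ℝ) ^ θ⌋₊ + 2) T := by
    refine ⟨fun p hp => (hT p hp).1, fun p hp => ?_, fun p hp => ?_, fun p hp => (hT p hp).2.2.2,
      fun p hp i j hij hd => ?_⟩
    · have h1 : p ≤ ⌊(x : ℝ) ^ θ⌋₊ := Nat.le_floor (hT p hp).2.2.1
      omega
    · exact ((le_max_left _ _).trans_lt (hT p hp).2.1).le
    · have h1 : (v i - v j).natAbs < p := by
        have h2 : (v i - v j).natAbs ≤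
            Finset.univ.sup fun ij : ι × ι => (v ij.1 - v ij.2).natAbs :=
          Finset.le_sup (f := fun ij : ι × ι => (v ij.1 - v ij.2).natAbs) (Finset.mem_univ (i, j))
        exact (h2.trans (le_max_right _ _)).trans_lt (hT p hp).2.1
      have h3 : v i - v j ≠ 0 := sub_ne_zero.2 fun h => hij (hv h)
      have h4 : p ∣ (v i - v j).natAbs := Int.natCast_dvd.1 hd
      have h5 := Nat.le_of_dvd (Int.natAbs_pos.2 h3) h4
      omega
  exact (hkub b hb0 (by omega) hM h2D hTP u hu r x).trans hle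

end Pool.Agent.Work.MP_58cfe3_nt
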