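import Pool.Agent.Work.MP_58cfe3_nt.SNumA

/-!
# Module SNumB (size M): patterns with a small, respectively large product

PROOF. `pd_count` (Rankin): `#{σ : pd σ ≤ D} ≤ ∑_σ D²/(pd σ)² = D² ∏_{p ∈ T} (1 + κ/p²)` (product-sum identity as in SNumA,
`(pd σ)⁻² = ∏_p (1 or p⁻²)`), and `∏ (1 + κ/p²) ≤ exp (κ ∑_{p ∈ T} 1/p²) ≤ exp (κ/(2κ - 1)) ≤ e ≤ 3` because all
`p ∈ T` are `≥ 2 κ` and `∑_{n ≥ N} 1/n² ≤ 1/(N - 1)` (`κ ≥ 1`; for `κ = 0` the product is `1`).
`pd_model` (Markov): if `pd σ > D` then `log D ≤ log (pd σ) = ∑_{p : σ p ≠ none} log p`, so the left side is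
`≤ (1/log D) ∑_{p ∈ T} log p * ∑_{σ : σ p ≠ none} ∏ lw = (1/log D) ∑_p log p * κ/p`: for fixed `p₀`,
`∑_{σ : σ p₀ ≠ none} ∏_p lw p (σ p) = κ/p₀` (product-sum identity with the factor at `p₀` replaced by
`0` at `none`).
-/

set_option autoImplicit false

namespace Pool.Agent.Work.MP_58cfe3_nt

open Filter Topology

private theorem prod_sum' {R : Type} [CommSemiring R] {ι : Type} [Fintype ι] (T : Finset ℕ)
    (F : T → Option ι → R) :
    ∑ σ : T → Option ι, ∏ p : T, F p (σ p) = ∏ p : T, ∑ o, F p o :=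
  (Fintype.prod_sum F).symm

private theorem one_le_pd {ι : Type} {T : Finset ℕ} (hT : ∀ p ∈ T, 0 < p) (σ : T → Option ι) :
    1 ≤ pd σ := by
  unfold pd
  refine Nat.one_le_iff_ne_zero.2 (Finset.prod_ne_zero_iff.2 fun p _ => ?_)
  cases σ p with
  | none => exact one_ne_zero
  | some i => exact (hT p p.2).ne'

private theorem sum_inv_sq {κ z : ℕ} (hκ : 1 ≤ κ) (T : Finset ℕ) (h1 : ∀ p ∈ T, 2 * κ ≤ p)
    (h2 : ∀ p ∈ T, p < z) : (κ : ℝ) * ∑ p ∈ T, 1 / (p : ℝ) ^ 2 ≤ 1 := by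
  have h3 := sum_Ioc_inv_sq_le_sub (α := ℝ) (k := 2 * κ - 1) (n := max z (2 * κ - 1))
    (by omega) (le_max_right _ _)
  have h4 : ∑ p ∈ T, 1 / (p : ℝ) ^ 2 ≤
      ∑ i ∈ Finset.Ioc (2 * κ - 1) (max z (2 * κ - 1)), ((i : ℝ) ^ 2)⁻¹ := by
    simp_rw [one_div]
    refine Finset.sum_le_sum_of_subset_of_nonneg (fun p hp => Finset.mem_Ioc.2 ⟨?_, ?_⟩)
      fun p _ _ => by positivity
    · have := h1 p hp
      omega
    · exact (h2 p hp).le.trans (le_max_left _ _)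
  have h5 : (0 : ℝ) ≤ ((max z (2 * κ - 1) : ℕ) : ℝ)⁻¹ := by positivity
  have hκ' : (1 : ℝ) ≤ κ := by exact_mod_cast hκ
  have e : ((2 * κ - 1 : ℕ) : ℝ) = 2 * κ - 1 := by
    rw [Nat.cast_sub (by omega)]
    push_cast
    ring
  have h6 : ∑ p ∈ T, 1 / (p : ℝ) ^ 2 ≤ (2 * κ - 1 : ℝ)⁻¹ := by
    rw [← e]
    linarith
  have h7 : (2 * κ - 1 : ℝ)⁻¹ ≤ (κ : ℝ)⁻¹ := by
    apply inv_anti₀ <;> linarith
  calc (κ : ℝ) * ∑ p ∈ T, 1 / (p : ℝ) ^ 2 ≤ κ * (κ : ℝ)⁻¹ :=
        mul_le_mul_of_nonneg_left (h6.trans h7) (by linarith)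
    _ = 1 := mul_inv_cancel₀ (by linarith)

theorem pd_count {ι : Type} [Fintype ι] {v : ι → ℤ} {M z : ℕ} {T : Finset ℕ} (hT : TP v M z T)
    (D : ℕ) :
    ((Finset.univ.filter fun σ : T → Option ι => pd σ ≤ D).card : ℝ) ≤ 3 * (D : ℝ) ^ 2 := by
  have hpos : ∀ p ∈ T, 0 < p := fun p hp => (hT.prime p hp).pos
  set κ := Fintype.card ι with hκ
  have h1 : ((Finset.univ.filter fun σ : T → Option ι => pd σ ≤ D).card : ℝ) ≤
      ∑ σ : T → Option ι, (D : ℝ) ^ 2 * ((pd σ : ℝ) ^ 2)⁻¹ := by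
    rw [Finset.card_eq_sum_ones, Nat.cast_sum]
    refine (Finset.sum_le_sum (g := fun σ : T → Option ι => (D : ℝ) ^ 2 * ((pd σ : ℝ) ^ 2)⁻¹)
      fun σ hσ => ?_).trans (Finset.sum_le_sum_of_subset_of_nonneg (Finset.filter_subset _ _)
        fun σ _ _ => by positivity)
    have h2 : (pd σ : ℝ) ≤ D := by exact_mod_cast (Finset.mem_filter.1 hσ).2
    have h3 : (1 : ℝ) ≤ pd σ := by exact_mod_cast one_le_pd hpos σ
    rw [Nat.cast_one, ← div_eq_mul_inv, one_le_div (by positivity)]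
    exact pow_le_pow_left₀ (by linarith) h2 2
  have h2 : ∑ σ : T → Option ι, (D : ℝ) ^ 2 * ((pd σ : ℝ) ^ 2)⁻¹ =
      (D : ℝ) ^ 2 * ∏ p ∈ T, (1 + κ * (1 / (p : ℝ) ^ 2)) := by
    rw [← Finset.mul_sum]
    congr 1
    have h3 : ∀ σ : T → Option ι, ((pd σ : ℝ) ^ 2)⁻¹ =
        ∏ p : T, Option.elim (σ p) (1 : ℝ) fun _ => 1 / (((p : ℕ) : ℝ) ^ 2) := by
      intro σ
      unfold pd
      rw [Nat.cast_prod, ← Finset.prod_pow, ← Finset.prod_inv_distrib]
      refine Finset.prod_congr rfl fun p _ => ?_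
      cases σ p with
      | none => simp
      | some i => simp
    simp_rw [h3]
    rw [prod_sum' T fun p o => Option.elim o (1 : ℝ) fun _ => 1 / (((p : ℕ) : ℝ) ^ 2)]
    rw [← Finset.prod_coe_sort T]
    refine Finset.prod_congr rfl fun p _ => ?_
    rw [Fintype.sum_option]
    simp only [Option.elim_none, Option.elim_some, Finset.sum_const, nsmul_eq_mul,
      Finset.card_univ, ← hκ]
  have h3 : ∏ p ∈ T, (1 + κ * (1 / (p : ℝ) ^ 2)) ≤ 3 := by
    have h4 : ∏ p ∈ T, (1 + κ * (1 / (p : ℝ) ^ 2)) ≤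
        ∏ p ∈ T, Real.exp (κ * (1 / (p : ℝ) ^ 2)) := by
      refine Finset.prod_le_prod (fun p _ => by positivity) fun p _ => ?_
      have := Real.add_one_le_exp ((κ : ℝ) * (1 / (p : ℝ) ^ 2))
      linarith
    rw [← Real.exp_sum, ← Finset.mul_sum] at h4
    have h5 : (κ : ℝ) * ∑ p ∈ T, 1 / (p : ℝ) ^ 2 ≤ 1 := by
      rcases Nat.eq_zero_or_pos κ with h6 | h6
      · rw [h6, Nat.cast_zero, zero_mul]
        exact zero_le_one
      · exact sum_inv_sq h6 T hT.big hT.lt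
    have h6 := Real.exp_le_exp.2 h5
    have h7 := Real.exp_one_lt_d9
    linarith
  rw [h2] at h1
  have h4 : (0 : ℝ) ≤ (D : ℝ) ^ 2 := by positivity
  nlinarith

theorem pd_model {ι : Type} [Fintype ι] {v : ι → ℤ} {M z : ℕ} {T : Finset ℕ} (hT : TP v M z T)
    {D : ℕ} (hD : 2 ≤ D) :
    ∑ σ ∈ Finset.univ.filter (fun σ : T → Option ι => D < pd σ),
      ∏ p : T, lw (Fintype.card ι) p (σ p) ≤
      (Fintype.card ι / Real.log D) * ∑ p ∈ T, Real.log p / p := by
  classical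
  have hpos : ∀ p ∈ T, 0 < p := fun p hp => (hT.prime p hp).pos
  have hD' : (1 : ℝ) < D := by
    have : (2 : ℝ) ≤ D := by exact_mod_cast hD
    linarith
  have hlD : 0 < Real.log D := Real.log_pos hD'
  let c : T → Option ι → ℝ := fun p o => Option.elim o (0 : ℝ) fun _ => Real.log ((p : ℕ) : ℝ)
  have hc : ∀ p o, 0 ≤ c p o := by
    intro p o
    cases o with
    | none => exact le_rfl
    | some i =>
      refine Real.log_nonneg ?_
      have := hpos p p.2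
      exact_mod_cast this
  have hlog : ∀ σ : T → Option ι, Real.log (pd σ) = ∑ p : T, c p (σ p) := by
    intro σ
    unfold pd
    rw [Nat.cast_prod, Real.log_prod]
    · refine Finset.sum_congr rfl fun p _ => ?_
      cases σ p with
      | none => simp [c]
      | some i => simp [c]
    · intro p _
      cases σ p with
      | none => simp
      | some i =>
        have := hpos p p.2
        simpa using this.ne'
  have hlw : ∀ σ : T → Option ι, 0 ≤ ∏ p : T, lw (Fintype.card ι) p (σ p) := fun σ =>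
    Finset.prod_nonneg fun p _ => lw_nonneg hT p _
  have h1 : ∑ σ ∈ Finset.univ.filter (fun σ : T → Option ι => D < pd σ),
      ∏ p : T, lw (Fintype.card ι) p (σ p) ≤
      ∑ σ : T → Option ι, (1 / Real.log D) * ((∑ p : T, c p (σ p)) *
        ∏ p : T, lw (Fintype.card ι) p (σ p)) := by
    refine (Finset.sum_le_sum (g := fun σ : T → Option ι => (1 / Real.log D) *
      ((∑ p : T, c p (σ p)) * ∏ p : T, lw (Fintype.card ι) p (σ p))) fun σ hσ => ?_).trans
        (Finset.sum_le_sum_of_subset_of_nonneg (Finset.filter_subset _ _) fun σ _ _ => ?_)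
    · have h2 : (D : ℝ) ≤ pd σ := by exact_mod_cast (Finset.mem_filter.1 hσ).2.le
      have h3 : Real.log D ≤ ∑ p : T, c p (σ p) := by
        rw [← hlog]
        exact Real.log_le_log (by linarith) h2
      have h4 : 1 ≤ (1 / Real.log D) * ∑ p : T, c p (σ p) := by
        rw [one_div_mul_eq_div, one_le_div hlD]
        exact h3
      have := mul_le_mul_of_nonneg_right h4 (hlw σ)
      rw [one_mul, mul_assoc] at this
      exact this
    · refine mul_nonneg (by positivity) (mul_nonneg (Finset.sum_nonneg fun p _ => hc p _) (hlw σ))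
  refine h1.trans (le_of_eq ?_)
  rw [← Finset.mul_sum]
  simp_rw [Finset.sum_mul]
  rw [Finset.sum_comm]
  have h2 : ∀ p₀ : T, ∑ σ : T → Option ι, c p₀ (σ p₀) * ∏ p : T, lw (Fintype.card ι) p (σ p) =
      Fintype.card ι * (Real.log ((p₀ : ℕ) : ℝ) / ((p₀ : ℕ) : ℝ)) := by
    intro p₀
    have h3 : ∀ σ : T → Option ι, c p₀ (σ p₀) * ∏ p : T, lw (Fintype.card ι) p (σ p) =
        ∏ p : T, (if p = p₀ then c p₀ (σ p) else 1) * lw (Fintype.card ι) p (σ p) := by
      intro σ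
      rw [Finset.prod_mul_distrib]
      congr 1
      rw [Finset.prod_ite_eq' Finset.univ p₀, if_pos (Finset.mem_univ p₀)]
    simp_rw [h3]
    rw [prod_sum' T fun p o => (if p = p₀ then c p₀ o else 1) * lw (Fintype.card ι) p o]
    rw [Finset.prod_eq_single p₀]
    · simp only [if_true]
      rw [Fintype.sum_option]
      show (0 : ℝ) * _ + ∑ _i : ι, Real.log ((p₀ : ℕ) : ℝ) * (1 / ((p₀ : ℕ) : ℝ)) = _
      rw [Finset.sum_const, nsmul_eq_mul, Finset.card_univ]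
      ring
    · intro p _ hp
      simp only [if_neg hp, one_mul]
      have hp' : ((p : ℕ) : ℝ) ≠ 0 := by
        have := hpos p p.2
        exact_mod_cast this.ne'
      rw [Fintype.sum_option]
      show (1 - (Fintype.card ι : ℝ) / ((p : ℕ) : ℝ)) + ∑ _i : ι, 1 / ((p : ℕ) : ℝ) = 1
      rw [Finset.sum_const, nsmul_eq_mul, Finset.card_univ]
      ring
    · exact fun h => absurd (Finset.mem_univ p₀) h
  rw [Finset.sum_congr rfl fun p₀ _ => h2 p₀, ← Finset.mul_sum]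
  rw [Finset.sum_coe_sort T fun p => Real.log (p : ℝ) / (p : ℝ)]
  ring

end Pool.Agent.Work.MP_58cfe3_nt
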