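import Pool.Agent.Work.MP_58cfe3_nt.SPat
import Pool.Agent.Work.MP_58cfe3_nt.SNumB
import Pool.Agent.Work.MP_58cfe3_nt.SBig

/-!
# Module SKubA (size M): the Kubilius model, finite form

PROOF. `b₀` of `pat_count v`, `C` of `log_sum`. Every integer `n` has exactly one pattern `σ_n : T → Option ι`
(`Match v T σ_n n`; existence: `σ p = some i` if `p ∣ n + v i`, unique `i` by `hT.inj`, else `none`), and
`FF v T u n = ∏ p : T, uv u p (σ_n p)`. So `∑_{n ∈ cls} FF n = ∑_σ N_σ U_σ`, `N_σ = mcount v M r x σ`,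
`U_σ = ∏ uv`, `‖U_σ‖ ≤ 1`, and `(x/M) ∏_T (1 - ..) = (x/M) ∑_σ L_σ U_σ`, `L_σ = ∏ lw ≥ 0`, by `uv_sum`.
The difference is `≤ ∑_{pd σ ≤ D} |N_σ - (x/M) L_σ| + ∑_{pd σ > D} N_σ + (x/M) ∑_{pd σ > D} L_σ`. First sum:
`pat_count`, `∑ L_σ = 1` (`lw_sum`), `pd_count`: `≤ e^(-b) x/M + 3 D² (1+z) z^(8b+20)`. Second sum: it is
`bcount v T M r x D` (`pd σ_n` is the product of the `p ∈ T` dividing some `n + v i`), `big_part`. Third: `pd_model`.
With `log_sum` (`T` consists of primes `< z`).
-/

set_option autoImplicit false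

namespace Pool.Agent.Work.MP_58cfe3_nt

open Filter Topology

open Classical in
private noncomputable def pt {ι : Type} (v : ι → ℤ) (T : Finset ℕ) (n : ℤ) (p : T) : Option ι :=
  if h : ∃ i, ((p : ℕ) : ℤ) ∣ n + v i then some h.choose else none

private theorem pt_some {ι : Type} [Fintype ι] {v : ι → ℤ} {M z : ℕ} {T : Finset ℕ}
    (hT : TP v M z T) (n : ℤ) (p : T) (i : ι) :
    ((p : ℕ) : ℤ) ∣ n + v i ↔ pt v T n p = some i := by
  unfold pt
  constructor
  · intro h
    have hex : ∃ i, ((p : ℕ) : ℤ) ∣ n + v i := ⟨i, h⟩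
    rw [dif_pos hex]
    congr 1
    by_contra hne
    refine hT.inj p p.2 _ _ hne ?_
    have := dvd_sub hex.choose_spec h
    have e : n + v hex.choose - (n + v i) = v hex.choose - v i := by ring
    rwa [e] at this
  · intro h
    split_ifs at h with hex
    have h2 := Option.some.inj h
    rw [← h2]
    exact hex.choose_spec

private theorem match_iff {ι : Type} [Fintype ι] {v : ι → ℤ} {M z : ℕ} {T : Finset ℕ}
    (hT : TP v M z T) (σ : T → Option ι) (n : ℤ) : Match v T σ n ↔ pt v T n = σ := by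
  unfold Match
  constructor
  · intro h
    funext p
    apply Option.ext
    intro i
    rw [← pt_some hT]
    exact h p i
  · rintro rfl p i
    exact pt_some hT n p i

private theorem fiber_sum {ι : Type} [Fintype ι] {v : ι → ℤ} {M z : ℕ} {T : Finset ℕ}
    (hT : TP v M z T) {R : Type} [CommRing R] (r : ℤ) (x : ℕ) (f : (T → Option ι) → R) :
    ∑ n ∈ cls x M r, f (pt v T n) = ∑ σ : T → Option ι, (mcount v M r x σ : R) * f σ := by
  classical
  rw [← Finset.sum_fiberwise (cls x M r) (fun n : ℕ => pt v T n) (fun n => f (pt v T n))]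
  apply Finset.sum_congr rfl
  intro σ _
  have h1 : ∑ n ∈ (cls x M r).filter (fun n : ℕ => pt v T n = σ), f (pt v T n) =
      ∑ n ∈ (cls x M r).filter (fun n : ℕ => pt v T n = σ), f σ := by
    apply Finset.sum_congr rfl
    intro n hn
    rw [(Finset.mem_filter.mp hn).2]
  rw [h1, Finset.sum_const, nsmul_eq_mul]
  congr 2
  unfold mcount
  congr 1
  ext n
  simp only [Finset.mem_filter, match_iff hT]

private theorem FF_eq {ι : Type} [Fintype ι] {v : ι → ℤ} {M z : ℕ} {T : Finset ℕ}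
    (hT : TP v M z T) (u : ℕ → ι → ℂ) (n : ℤ) :
    FF v T u n = ∏ p : T, uv u p (pt v T n p) := by
  classical
  unfold FF
  rw [← Finset.prod_coe_sort]
  apply Finset.prod_congr rfl
  intro p _
  have h1 : ∀ i, (if ((p : ℕ) : ℤ) ∣ n + v i then u p i else 1) =
      if pt v T n p = some i then u p i else 1 := by
    intro i
    simp only [pt_some hT n p i]
  rw [Finset.prod_congr rfl fun i _ => h1 i]
  cases h : pt v T n p with
  | none => simp [uv]
  | some j =>
    simp only [uv, Option.some.injEq]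
    rw [Finset.prod_ite_eq]
    simp

private theorem pd_eq {ι : Type} [Fintype ι] {v : ι → ℤ} {M z : ℕ} {T : Finset ℕ}
    (hT : TP v M z T) (n : ℤ) [DecidablePred fun p : ℕ => ∃ i, (p : ℤ) ∣ n + v i] :
    ∏ p ∈ T.filter (fun p : ℕ => ∃ i, (p : ℤ) ∣ n + v i), p = pd (pt v T n) := by
  unfold pd
  rw [Finset.prod_filter, ← Finset.prod_coe_sort]
  apply Finset.prod_congr rfl
  intro p _
  cases h : pt v T n p with
  | none =>
    rw [if_neg]
    · rfl
    · rintro ⟨i, hi⟩
      rw [pt_some hT, h] at hi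
      cases hi
  | some j =>
    rw [if_pos ⟨j, (pt_some hT n p j).mpr h⟩]
    rfl

private theorem big_sum {ι : Type} [Fintype ι] {v : ι → ℤ} {M z : ℕ} {T : Finset ℕ}
    (hT : TP v M z T) (r : ℤ) (x D : ℕ) :
    ∑ σ ∈ Finset.univ.filter (fun σ : T → Option ι => D < pd σ), (mcount v M r x σ : ℝ) =
      bcount v T M r x D := by
  classical
  have h := fiber_sum hT (R := ℝ) r x (fun σ => if D < pd σ then 1 else 0)
  rw [Finset.sum_filter]
  have e1 : ∀ σ : T → Option ι, (mcount v M r x σ : ℝ) * (if D < pd σ then 1 else 0) =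
      if D < pd σ then (mcount v M r x σ : ℝ) else 0 := by
    intro σ
    split_ifs <;> simp
  rw [Finset.sum_congr rfl fun σ _ => e1 σ] at h
  rw [← h, Finset.sum_boole]
  unfold bcount
  congr 2
  ext n
  simp only [Finset.mem_filter, pd_eq hT]

private theorem norm_U {ι : Type} [Fintype ι] {T : Finset ℕ} (u : ℕ → ι → ℂ)
    (hu : ∀ p i, ‖u p i‖ ≤ 1) (σ : T → Option ι) : ‖∏ p : T, uv u p (σ p)‖ ≤ 1 := by
  rw [norm_prod]
  apply Finset.prod_le_one
  · intro p _
    exact norm_nonneg _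
  · intro p _
    cases h : σ p with
    | none => simp [uv]
    | some j => exact hu p j

theorem kub_fin {ι : Type} [Fintype ι] (v : ι → ℤ) : ∃ b₀ : ℕ, ∃ C : ℝ, 0 ≤ C ∧
    ∀ b : ℕ, b₀ ≤ b → ∀ {z M D : ℕ} {T : Finset ℕ}, 2 ≤ z → 0 < M → 2 ≤ D → TP v M z T →
    ∀ u : ℕ → ι → ℂ, (∀ p i, ‖u p i‖ ≤ 1) → ∀ (r : ℤ) (x : ℕ),
      ‖∑ n ∈ cls x M r, FF v T u n - ((x : ℂ) / M) * ∏ p ∈ T, (1 - (∑ i, (1 - u p i)) / (p : ℂ))‖ ≤
        Real.exp (-b) * (x / M) + 3 * (D : ℝ) ^ 2 * ((1 + z) * (z : ℝ) ^ (8 * b + 20)) +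
          (Fintype.card ι / Real.log D) *
            (x / M * (2 * (Real.log z + C)) + z * Real.log z) := by
  classical
  obtain ⟨b₀, hb₀⟩ := pat_count v
  obtain ⟨C, hC0, hC⟩ := log_sum
  refine ⟨b₀, C, hC0, ?_⟩
  intro b hb z M D T hz hM hD hT u hu r x
  set L : (T → Option ι) → ℝ := fun σ => ∏ p : T, lw (Fintype.card ι) p (σ p) with hL
  set N : (T → Option ι) → ℝ := fun σ => (mcount v M r x σ : ℝ) with hN
  set E : ℝ := (1 + z) * (z : ℝ) ^ (8 * b + 20) with hE
  have hL0 : ∀ σ, 0 ≤ L σ := fun σ => Finset.prod_nonneg fun p _ => lw_nonneg hT p _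
  have hN0 : ∀ σ, 0 ≤ N σ := fun σ => Nat.cast_nonneg _
  have hxM : 0 ≤ (x : ℝ) / M := by positivity
  have hE0 : 0 ≤ E := by positivity
  have hpos : ∀ p ∈ T, 0 < p := fun p hp => (hT.prime p hp).pos
  have hLs : ∑ σ, L σ = 1 := lw_sum T hpos
  have e1 : ∑ n ∈ cls x M r, FF v T u n =
      ∑ σ : T → Option ι, (mcount v M r x σ : ℂ) * ∏ p : T, uv u p (σ p) := by
    rw [← fiber_sum hT r x (fun σ => ∏ p : T, uv u p (σ p))]
    apply Finset.sum_congr rfl
    intro n _
    exact FF_eq hT u n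
  have e2 : ∑ n ∈ cls x M r, FF v T u n -
      ((x : ℂ) / M) * ∏ p ∈ T, (1 - (∑ i, (1 - u p i)) / (p : ℂ)) =
      ∑ σ : T → Option ι, ((N σ - x / M * L σ : ℝ) : ℂ) * ∏ p : T, uv u p (σ p) := by
    rw [e1, ← uv_sum T hpos u, Finset.mul_sum, ← Finset.sum_sub_distrib]
    apply Finset.sum_congr rfl
    intro σ _
    simp only [hN, hL]
    push_cast
    ring
  rw [e2]
  have e3 : ‖∑ σ : T → Option ι, ((N σ - x / M * L σ : ℝ) : ℂ) * ∏ p : T, uv u p (σ p)‖ ≤
      ∑ σ : T → Option ι, |N σ - x / M * L σ| := by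
    refine (norm_sum_le _ _).trans (Finset.sum_le_sum fun σ _ => ?_)
    rw [norm_mul, Complex.norm_real, Real.norm_eq_abs]
    calc _ ≤ |N σ - x / M * L σ| * 1 := by
          gcongr
          exact norm_U u hu σ
      _ = _ := mul_one _
  refine e3.trans ?_
  rw [← Finset.sum_filter_add_sum_filter_not Finset.univ (fun σ : T → Option ι => pd σ ≤ D)]
  have hfirst : ∑ σ ∈ Finset.univ.filter (fun σ : T → Option ι => pd σ ≤ D),
      |N σ - x / M * L σ| ≤ Real.exp (-b) * (x / M) + 3 * (D : ℝ) ^ 2 * E := by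
    calc _ ≤ ∑ σ ∈ Finset.univ.filter (fun σ : T → Option ι => pd σ ≤ D),
          (Real.exp (-b) * (x / M * L σ) + E) :=
          Finset.sum_le_sum fun σ _ => hb₀ b hb hz hM hT σ r x
      _ = Real.exp (-b) * (x / M) * ∑ σ ∈ Finset.univ.filter
            (fun σ : T → Option ι => pd σ ≤ D), L σ +
          (Finset.univ.filter (fun σ : T → Option ι => pd σ ≤ D)).card * E := by
          rw [Finset.sum_add_distrib, Finset.sum_const, nsmul_eq_mul, Finset.mul_sum]
          congr 1
          apply Finset.sum_congr rfl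
          intro σ _
          ring
      _ ≤ Real.exp (-b) * (x / M) * 1 + 3 * (D : ℝ) ^ 2 * E := by
          have h1 : ∑ σ ∈ Finset.univ.filter (fun σ : T → Option ι => pd σ ≤ D), L σ ≤ 1 := by
            rw [← hLs]
            exact Finset.sum_le_sum_of_subset_of_nonneg (Finset.filter_subset _ _)
              fun σ _ _ => hL0 σ
          have h2 := pd_count hT D
          gcongr
      _ = _ := by rw [mul_one]
  have hsecond : ∑ σ ∈ Finset.univ.filter (fun σ : T → Option ι => ¬ pd σ ≤ D),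
      |N σ - x / M * L σ| ≤ (Fintype.card ι / Real.log D) *
            (x / M * (2 * (Real.log z + C)) + z * Real.log z) := by
    have hlD : 0 < Real.log D := Real.log_pos (by exact_mod_cast hD)
    have hS : ∑ p ∈ T, Real.log p / p ≤ Real.log z + C :=
      hC z T hz fun p hp => ⟨hT.prime p hp, hT.lt p hp⟩
    have h1 : ∑ σ ∈ Finset.univ.filter (fun σ : T → Option ι => ¬ pd σ ≤ D),
        |N σ - x / M * L σ| ≤ ∑ σ ∈ Finset.univ.filter (fun σ : T → Option ι => D < pd σ),
        (N σ + x / M * L σ) := by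
      have e : Finset.univ.filter (fun σ : T → Option ι => ¬ pd σ ≤ D) =
          Finset.univ.filter (fun σ : T → Option ι => D < pd σ) := by
        apply Finset.filter_congr
        intro σ _
        exact not_le
      rw [e]
      apply Finset.sum_le_sum
      intro σ _
      have ha := hN0 σ
      have hb : 0 ≤ x / M * L σ := mul_nonneg hxM (hL0 σ)
      rw [abs_le]
      constructor <;> linarith
    refine h1.trans ?_
    rw [Finset.sum_add_distrib, ← Finset.mul_sum]
    have h2 : ∑ σ ∈ Finset.univ.filter (fun σ : T → Option ι => D < pd σ), N σ ≤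
        (Fintype.card ι / Real.log D) *
          (x / M * (∑ p ∈ T, Real.log p / p) + z * Real.log z) := by
      have := big_sum hT r x D
      simp only [hN]
      rw [this]
      exact big_part hT hM hz hD r x
    have h3 := pd_model hT hD
    have hk : 0 ≤ (Fintype.card ι : ℝ) / Real.log D := by positivity
    calc _ ≤ (Fintype.card ι / Real.log D) *
          (x / M * (∑ p ∈ T, Real.log p / p) + z * Real.log z) +
          x / M * ((Fintype.card ι / Real.log D) * ∑ p ∈ T, Real.log p / p) := by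
          gcongr
      _ = (Fintype.card ι / Real.log D) *
            (x / M * (2 * ∑ p ∈ T, Real.log p / p) + z * Real.log z) := by ring
      _ ≤ _ := by gcongr
  linarith

end Pool.Agent.Work.MP_58cfe3_nt
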