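import Pool.Agent.Work.MP_58cfe3_nt.SOrd

/-!
# Module SLog (size S-M): from ordinary to logarithmic averages

PROOF. `log_of_ord`: `F n = ∑_{m ≤ n} f m`, `∑_{n ≤ X} f n/n = F X/X + ∑_{n < X} F n/(n (n + 1))` (induction on `X`),
`|F n| ≤ n` and `|F n| ≤ η n` for `n ≥ n₀`; so the sum is `≤ 1 + hs n₀ + η hs X`, divide by the harmonic sum.
`slow_core`: `ord_small` and `log_of_ord` with `f n = if q ∣ n - a then .. else 0` (`Finset.sum_filter`).
-/

set_option autoImplicit false

namespace Pool.Agent.Work.MP_58cfe3_nt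

open Filter Topology

theorem log_of_ord {f : ℤ → ℂ} (hb : ∀ n, ‖f n‖ ≤ 1)
    (h : Tendsto (fun x : ℕ => (∑ n ∈ Finset.Icc 1 x, f n) / (x : ℂ)) atTop (𝓝 0)) :
    Tendsto (Elog f) atTop (𝓝 0) := by
  obtain ⟨F, hF⟩ : ∃ F : ℕ → ℂ, F = fun n : ℕ => ∑ m ∈ Finset.Icc 1 n, f m := ⟨_, rfl⟩
  have hF0 : F 0 = 0 := by rw [hF]; simp
  have hFs : ∀ n, F (n + 1) = F n + f ((n + 1 : ℕ) : ℤ) := by
    intro n
    rw [hF]
    exact Finset.sum_Icc_succ_top (by omega) _
  have hFlim : Tendsto (fun n : ℕ => F n / (n : ℂ)) atTop (𝓝 0) := by rw [hF]; exact h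
  have hid : ∀ X : ℕ, ∑ n ∈ Finset.Icc 1 X, f n / (n : ℂ) =
      F X / (X : ℂ) + ∑ n ∈ Finset.range X, F n / ((n : ℂ) * ((n : ℂ) + 1)) := by
    intro X
    induction X with
    | zero => simp [hF0]
    | succ X ih =>
      rw [Finset.sum_Icc_succ_top (by omega), ih, Finset.sum_range_succ, hFs]
      have h1 : ((X : ℂ) + 1) ≠ 0 := by exact_mod_cast Nat.succ_ne_zero X
      rcases Nat.eq_zero_or_pos X with h0 | h0
      · subst h0
        simp [hF0]
      · have h2 : (X : ℂ) ≠ 0 := by exact_mod_cast h0.ne'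
        push_cast
        field_simp
        ring
  have hharm : ∀ X : ℕ, ∑ n ∈ Finset.Icc 1 X, (1 / n : ℂ) =
      ((∑ i ∈ Finset.range X, (1 : ℝ) / ((i : ℝ) + 1) : ℝ) : ℂ) := by
    intro X
    induction X with
    | zero => simp
    | succ X ih =>
      rw [Finset.sum_Icc_succ_top (by omega), ih, Finset.sum_range_succ]
      push_cast
      ring
  have hdiv := Real.tendsto_sum_range_one_div_nat_succ_atTop
  obtain ⟨H, hH⟩ : ∃ H : ℕ → ℝ, H = fun X : ℕ => ∑ i ∈ Finset.range X, (1 : ℝ) / ((i : ℝ) + 1) :=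
    ⟨_, rfl⟩
  have hHlim : Tendsto H atTop atTop := by rw [hH]; exact hdiv
  have ho : (fun n : ℕ => F n / ((n : ℂ) * ((n : ℂ) + 1))) =o[atTop]
      fun n : ℕ => (1 : ℝ) / ((n : ℝ) + 1) := by
    rw [Asymptotics.isLittleO_iff]
    intro c hc
    have h1 := (tendsto_zero_iff_norm_tendsto_zero.1 hFlim).eventually (gt_mem_nhds hc)
    filter_upwards [h1] with n hn
    rw [← div_div, norm_div]
    have h2 : ‖(n : ℂ) + 1‖ = (n : ℝ) + 1 := by
      have : (n : ℂ) + 1 = (((n : ℝ) + 1 : ℝ) : ℂ) := by push_cast; rfl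
      rw [this, Complex.norm_real, Real.norm_eq_abs, abs_of_nonneg (by positivity)]
    rw [h2, Real.norm_eq_abs, abs_of_nonneg (by positivity : (0 : ℝ) ≤ 1 / ((n : ℝ) + 1)),
      div_eq_mul_one_div]
    exact mul_le_mul_of_nonneg_right hn.le (by positivity)
  have hsumo := ho.sum_range (fun n => by positivity) hdiv
  have hlim2 : Tendsto (fun X : ℕ => (∑ n ∈ Finset.range X, F n / ((n : ℂ) * ((n : ℂ) + 1))) /
      ((H X : ℝ) : ℂ)) atTop (𝓝 0) := by
    rw [tendsto_zero_iff_norm_tendsto_zero]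
    have h1 := (Asymptotics.isLittleO_iff_tendsto' (f := fun X : ℕ =>
      ‖∑ n ∈ Finset.range X, F n / ((n : ℂ) * ((n : ℂ) + 1))‖) (g := H) (by
        filter_upwards [hHlim.eventually_gt_atTop 0] with X hX h0
        exact absurd h0 hX.ne')).1 (by
        rw [hH]
        exact hsumo.norm_left)
    refine h1.congr' ?_
    filter_upwards [hHlim.eventually_gt_atTop 0] with X hX
    rw [norm_div, Complex.norm_real, Real.norm_eq_abs, abs_of_pos hX]
  have hlim1 : Tendsto (fun X : ℕ => (F X / (X : ℂ)) / ((H X : ℝ) : ℂ)) atTop (𝓝 0) := by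
    rw [tendsto_zero_iff_norm_tendsto_zero]
    have h1 := (tendsto_zero_iff_norm_tendsto_zero.1 hFlim)
    refine squeeze_zero' (Filter.Eventually.of_forall fun X => norm_nonneg _) ?_ h1
    filter_upwards [hHlim.eventually_ge_atTop 1] with X hX
    rw [norm_div, Complex.norm_real, Real.norm_eq_abs, abs_of_nonneg (by linarith)]
    exact div_le_self (norm_nonneg _) hX
  have hfin := hlim1.add hlim2
  rw [add_zero] at hfin
  refine hfin.congr fun X => ?_
  rw [Elog, hid X, hharm X, hH, ← add_div]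

theorem slow_core {g : ℤ → ℂ} (hg : MulBdd g) (h1 : Near g) (h2 : Far g) {ι : Type} [Fintype ι]
    [Nonempty ι] {v : ι → ℤ} (hv : Function.Injective v) (s : ι → Bool) {q : ℕ} (hq : 0 < q)
    (a : ℤ) :
    Tendsto (Elog fun n => if (q : ℤ) ∣ n - a then ∏ i, cj (s i) (g (n + v i)) else 0) atTop
      (𝓝 0) := by
  refine log_of_ord (fun n => ?_) ?_
  · split_ifs
    · refine norm_prod_le_one _ _ fun i _ => ?_
      unfold cj
      split_ifs
      · rw [norm_star]
        exact hg.bdd _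
      · exact hg.bdd _
    · simp
  · refine (ord_small hg h1 h2 hv s hq a).congr fun x => ?_
    unfold cls
    rw [Finset.sum_filter]

end Pool.Agent.Work.MP_58cfe3_nt
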