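import Pool.Agent.Work.MP_58cfe3_nt.SDefs

/-!
# Module SNumA (size S-M): sums over all patterns

PROOF. `Finset.prod_univ_sum` / `Fintype.prod_sum`-type identity:
`∑ σ : T → Option ι, ∏ p : T, F p (σ p) = ∏ p : T, ∑ o : Option ι, F p o`
(`Finset.prod_univ_sum` with `Fintype.piFinset_univ`), `Fintype.sum_option`, and `∏ p : T, G p = ∏ p ∈ T, G p`
(`Finset.prod_coe_sort` / `Finset.prod_attach`). `lw_sum`: `(1 - κ/p) + κ (1/p) = 1`.
`uv_sum`: `(1 - κ/p) + ∑_i u p i/p = 1 - (∑_i (1 - u p i))/p`. `lw_nonneg`: `κ ≤ 2 κ ≤ p`.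
-/

set_option autoImplicit false

namespace Pool.Agent.Work.MP_58cfe3_nt

open Filter Topology

private theorem prod_sum' {R : Type} [CommSemiring R] {ι : Type} [Fintype ι] (T : Finset ℕ)
    (F : T → Option ι → R) :
    ∑ σ : T → Option ι, ∏ p : T, F p (σ p) = ∏ p : T, ∑ o, F p o :=
  (Fintype.prod_sum F).symm

theorem lw_nonneg {ι : Type} [Fintype ι] {v : ι → ℤ} {M z : ℕ} {T : Finset ℕ} (hT : TP v M z T)
    (p : T) (o : Option ι) : 0 ≤ lw (Fintype.card ι) p o := by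
  have hp : (0 : ℝ) < ((p : ℕ) : ℝ) := by exact_mod_cast (hT.prime p p.2).pos
  have hb : (2 * Fintype.card ι : ℝ) ≤ ((p : ℕ) : ℝ) := by exact_mod_cast hT.big p p.2
  cases o with
  | none =>
    show 0 ≤ 1 - (Fintype.card ι : ℝ) / ((p : ℕ) : ℝ)
    rw [sub_nonneg, div_le_one hp]
    have : (0 : ℝ) ≤ Fintype.card ι := Nat.cast_nonneg _
    linarith
  | some i =>
    show 0 ≤ 1 / ((p : ℕ) : ℝ)
    positivity

private theorem lw_opt {ι : Type} [Fintype ι] {p : ℕ} (hp : 0 < p) :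
    ∑ o : Option ι, lw (Fintype.card ι) p o = 1 := by
  have hp' : (p : ℝ) ≠ 0 := by
    have : (0 : ℝ) < p := by exact_mod_cast hp
    exact this.ne'
  rw [Fintype.sum_option]
  show (1 - (Fintype.card ι : ℝ) / (p : ℝ)) + ∑ _i : ι, 1 / (p : ℝ) = 1
  rw [Finset.sum_const, nsmul_eq_mul, Finset.card_univ]
  ring

theorem lw_sum {ι : Type} [Fintype ι] (T : Finset ℕ) (hT : ∀ p ∈ T, 0 < p) :
    ∑ σ : T → Option ι, ∏ p : T, lw (Fintype.card ι) p (σ p) = 1 := by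
  rw [prod_sum' T fun p o => lw (Fintype.card ι) p o]
  exact Finset.prod_eq_one fun p _ => lw_opt (hT p p.2)

theorem uv_sum {ι : Type} [Fintype ι] (T : Finset ℕ) (hT : ∀ p ∈ T, 0 < p) (u : ℕ → ι → ℂ) :
    ∑ σ : T → Option ι, (∏ p : T, (lw (Fintype.card ι) p (σ p) : ℂ)) * ∏ p : T, uv u p (σ p) =
      ∏ p ∈ T, (1 - (∑ i, (1 - u p i)) / (p : ℂ)) := by
  simp_rw [← Finset.prod_mul_distrib]
  rw [prod_sum' T fun p o => (lw (Fintype.card ι) p o : ℂ) * uv u p o]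
  rw [← Finset.prod_coe_sort T]
  refine Finset.prod_congr rfl fun p _ => ?_
  have hp' : ((p : ℕ) : ℂ) ≠ 0 := by
    have := hT p p.2
    exact_mod_cast this.ne'
  rw [Fintype.sum_option]
  show ((1 - (Fintype.card ι : ℝ) / ((p : ℕ) : ℝ) : ℝ) : ℂ) * 1 +
    ∑ i : ι, ((1 / ((p : ℕ) : ℝ) : ℝ) : ℂ) * u p i = _
  rw [Finset.sum_sub_distrib, Finset.sum_const, nsmul_eq_mul, Finset.card_univ, ← Finset.mul_sum]
  push_cast
  field_simp
  ring

end Pool.Agent.Work.MP_58cfe3_nt
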