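import Pool.Agent.Work.MP_58cfe3_nt.SCls
import Pool.Agent.Work.MP_58cfe3_nt.SExc
import Pool.Agent.Work.MP_58cfe3_nt.SLarge
import Pool.Agent.Work.MP_58cfe3_nt.SPt
import Pool.Agent.Work.MP_58cfe3_nt.SSum

/-!
# Module SOrd (size M): ordinary averages of slow functions

PROOF. `B ≥ |v i|`, `η > 0`. `class_small` gives `θ, w₀`, `exc_count` gives `w₀'`. Let `w ≥ w₀, w₀', q`, `A` from `exc_count`,
`W = primorial w ^ A`, `M = q W` (all its primes are `≤ w`). For `x ≥ x₀` (all the `x₀`): write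
`G n = ∏_i cj (s i) (g (n + v i))`, `L n = ∏_i cj (s i) (g (gcd (n + v i, W)))` (depends only on `n` mod `M`:
`gcd_congr`), `F = FF v (TT w x θ) (fun p i => cj (s i) (g p))`. Then
`‖∑_{n ∈ cls x q a} G n‖ ≤ ∑_{n ∈ cls x q a} ‖G n - L n F n‖ + ‖∑_{n ∈ cls x q a} L n F n‖`. First sum: `≤ 2 ecount`
for the not good `n` (norms `≤ 1`) plus `κ (x + B) ∑_{LL} ‖1 - g p‖/p` by `pt_bound`, `large_sum`; the last is
`≤ η x` for large `x` by `large_small`. Second: `cls x q a` is the disjoint union of the `cls x M ρ`,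
`0 ≤ ρ < M`, `q ∣ ρ - a`, so it is `≤ ∑_ρ |L ρ| ‖∑_{cls x M ρ} F‖ ≤ M η x/M`. Total `≤ 4 η x`.
-/

set_option autoImplicit false

namespace Pool.Agent.Work.MP_58cfe3_nt

open Filter Topology

private theorem norm_cj (b : Bool) (z : ℂ) : ‖cj b z‖ = ‖z‖ := by
  unfold cj
  split_ifs
  · exact norm_star z
  · rfl

private theorem norm_prod_cj {ι : Type} [Fintype ι] (s : ι → Bool) (z : ι → ℂ)
    (hz : ∀ i, ‖z i‖ ≤ 1) : ‖∏ i, cj (s i) (z i)‖ ≤ 1 :=
  norm_prod_le_one _ _ fun i _ => by rw [norm_cj]; exact hz i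

private theorem norm_FF {ι : Type} [Fintype ι] (v : ι → ℤ) (T : Finset ℕ) (u : ℕ → ι → ℂ)
    (hu : ∀ p i, ‖u p i‖ ≤ 1) (n : ℤ) : ‖FF v T u n‖ ≤ 1 := by
  unfold FF
  refine norm_prod_le_one _ _ fun p _ => norm_prod_le_one _ _ fun i _ => ?_
  split_ifs
  · exact hu p i
  · rw [norm_one]

/-- splitting into residue classes -/
private theorem cls_split {q W : ℕ} (hq : 0 < q) (hW : 0 < W) (a : ℤ) (x : ℕ) {E : ℝ}
    (L F : ℤ → ℂ) (hL : ∀ n, ‖L n‖ ≤ 1) (hper : ∀ n m : ℤ, (W : ℤ) ∣ n - m → L n = L m)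
    (hE : ∀ r : ℤ, ‖∑ n ∈ cls x (q * W) r, F n‖ ≤ E) :
    ‖∑ n ∈ cls x q a, L n * F n‖ ≤ (q * W : ℕ) * E := by
  have hM : 0 < q * W := Nat.mul_pos hq hW
  have hE0 : 0 ≤ E := (norm_nonneg _).trans (hE 0)
  have h1 : ∑ n ∈ cls x q a, L n * F n = ∑ r ∈ Finset.range (q * W),
      ∑ n ∈ (cls x q a).filter (fun n => n % (q * W) = r), L n * F n := by
    refine (Finset.sum_fiberwise_of_maps_to (fun n _ => ?_) _).symm
    exact Finset.mem_range.2 (Nat.mod_lt n hM)
  rw [h1]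
  refine (norm_sum_le _ _).trans ?_
  have h2 : ∀ r ∈ Finset.range (q * W),
      ‖∑ n ∈ (cls x q a).filter (fun n => n % (q * W) = r), L n * F n‖ ≤ E := by
    intro r hr
    have hr' := Finset.mem_range.1 hr
    have key : ∀ n : ℕ, n % (q * W) = r ↔ ((q * W : ℕ) : ℤ) ∣ (n : ℤ) - r := by
      intro n
      constructor
      · intro h
        refine ⟨(n / (q * W) : ℕ), ?_⟩
        have h3 := Nat.div_add_mod n (q * W)
        rw [h] at h3
        have h4 : (n : ℤ) = ((q * W : ℕ) : ℤ) * ((n / (q * W) : ℕ) : ℤ) + r := by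
          exact_mod_cast h3.symm
        rw [h4]
        ring
      · intro h
        have h3 : (n : ℤ) ≡ r [ZMOD ((q * W : ℕ) : ℤ)] := (Int.modEq_iff_dvd.2 h).symm
        have h4 : n ≡ r [MOD q * W] := (Int.natCast_modEq_iff).1 h3
        rw [h4, Nat.mod_eq_of_lt hr']
    by_cases hqr : (q : ℤ) ∣ (r : ℤ) - a
    · have h3 : (cls x q a).filter (fun n => n % (q * W) = r) = cls x (q * W) r := by
        ext n
        unfold cls
        rw [Finset.mem_filter, Finset.mem_filter, Finset.mem_filter, key n]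
        constructor
        · rintro ⟨⟨h4, _⟩, h5⟩
          exact ⟨h4, h5⟩
        · rintro ⟨h4, h5⟩
          refine ⟨⟨h4, ?_⟩, h5⟩
          have h6 : (q : ℤ) ∣ (n : ℤ) - r := by
            refine Dvd.dvd.trans ?_ h5
            exact_mod_cast Dvd.intro W rfl
          have h7 := dvd_add h6 hqr
          rwa [sub_add_sub_cancel] at h7
      rw [h3]
      have h4 : ∑ n ∈ cls x (q * W) r, L n * F n = L r * ∑ n ∈ cls x (q * W) r, F n := by
        rw [Finset.mul_sum]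
        refine Finset.sum_congr rfl fun n hn => ?_
        have h5 := (Finset.mem_filter.1 hn).2
        rw [hper n r]
        refine Dvd.dvd.trans ?_ h5
        exact_mod_cast Dvd.intro_left q rfl
      rw [h4, norm_mul]
      calc ‖L r‖ * ‖∑ n ∈ cls x (q * W) r, F n‖ ≤ 1 * E :=
            mul_le_mul (hL r) (hE r) (norm_nonneg _) zero_le_one
        _ = E := one_mul E
    · have h3 : (cls x q a).filter (fun n => n % (q * W) = r) = ∅ := by
        refine Finset.filter_eq_empty_iff.2 fun n hn h4 => hqr ?_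
        have h5 := (Finset.mem_filter.1 hn).2
        have h6 : (q : ℤ) ∣ (n : ℤ) - r := by
          refine Dvd.dvd.trans ?_ ((key n).1 h4)
          exact_mod_cast Dvd.intro W rfl
        have h7 := dvd_sub h5 h6
        rwa [sub_sub_sub_cancel_left] at h7
      rw [h3, Finset.sum_empty, norm_zero]
      exact hE0
  refine (Finset.sum_le_card_nsmul _ _ _ h2).trans (le_of_eq ?_)
  rw [Finset.card_range, nsmul_eq_mul]

open Classical in
/-- the approximation -/
private theorem approx {g : ℤ → ℂ} (hg : MulBdd g) {ι : Type} [Fintype ι] {v : ι → ℤ}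
    (s : ι → Bool) {B : ℕ} (hB : ∀ i, |v i| ≤ B) {w A x : ℕ} {θ : ℝ} (hθ : 0 < θ) (hθ' : θ ≤ 1)
    {q : ℕ} (a : ℤ) :
    ‖∑ n ∈ cls x q a, ((∏ i, cj (s i) (g (n + v i))) -
      (∏ i, cj (s i) (g (Int.gcd (n + v i) ((primorial w ^ A : ℕ) : ℤ)))) *
        FF v (TT w x θ) (fun p i => cj (s i) (g p)) n)‖ ≤
      Fintype.card ι * (x + B) * (∑ p ∈ LL x B θ, ‖1 - g p‖ / p) + 2 * ecount v w A x := by
  refine (norm_sum_le _ _).trans ?_
  rw [← Finset.sum_filter_add_sum_filter_not (cls x q a) (fun n : ℕ => Good v w A n)]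
  refine add_le_add ?_ ?_
  · have h1 : ∀ n ∈ (cls x q a).filter (fun n : ℕ => Good v w A n),
        ‖(∏ i, cj (s i) (g (n + v i))) -
          (∏ i, cj (s i) (g (Int.gcd (n + v i) ((primorial w ^ A : ℕ) : ℤ)))) *
          FF v (TT w x θ) (fun p i => cj (s i) (g p)) n‖ ≤
          ∑ i, ∑ p ∈ LL x B θ, if (p : ℤ) ∣ (n : ℤ) + v i then ‖1 - g p‖ else 0 := by
      intro n hn
      obtain ⟨h2, h3⟩ := Finset.mem_filter.1 hn
      exact pt_bound hg s hB hθ hθ' (Finset.mem_filter.1 h2).1 h3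
    refine (Finset.sum_le_sum h1).trans ?_
    refine large_sum hB x (fun n hn => ?_) (fun p hp => ?_) (a := fun p => ‖1 - g p‖)
      (fun p => norm_nonneg _)
    · obtain ⟨h2, h3⟩ := Finset.mem_filter.1 hn
      exact ⟨(Finset.mem_filter.1 h2).1, fun i => (h3 i).1⟩
    · exact ((Finset.mem_filter.1 hp).2.1).pos
  · have h1 : ∀ n ∈ (cls x q a).filter (fun n : ℕ => ¬ Good v w A n),
        ‖(∏ i, cj (s i) (g (n + v i))) -
          (∏ i, cj (s i) (g (Int.gcd (n + v i) ((primorial w ^ A : ℕ) : ℤ)))) *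
          FF v (TT w x θ) (fun p i => cj (s i) (g p)) n‖ ≤ 2 := by
      intro n _
      refine (norm_sub_le _ _).trans ?_
      have h2 : ‖∏ i, cj (s i) (g (n + v i))‖ ≤ 1 := norm_prod_cj s _ fun i => hg.bdd _
      have h3 : ‖(∏ i, cj (s i) (g (Int.gcd (n + v i) ((primorial w ^ A : ℕ) : ℤ)))) *
          FF v (TT w x θ) (fun p i => cj (s i) (g p)) n‖ ≤ 1 := by
        rw [norm_mul]
        exact mul_le_one₀ (norm_prod_cj s _ fun i => hg.bdd _) (norm_nonneg _)
          (norm_FF _ _ _ (fun p i => by rw [norm_cj]; exact hg.bdd _) _)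
      linarith
    refine (Finset.sum_le_card_nsmul _ _ _ h1).trans ?_
    rw [nsmul_eq_mul, mul_comm]
    refine mul_le_mul_of_nonneg_left ?_ (by norm_num)
    unfold ecount
    have h2 : (cls x q a).filter (fun n : ℕ => ¬ Good v w A n) ⊆
        (Finset.Icc 1 x).filter fun n : ℕ => ¬ Good v w A n :=
      Finset.filter_subset_filter _ (Finset.filter_subset _ _)
    exact_mod_cast Finset.card_le_card h2

theorem ord_small {g : ℤ → ℂ} (hg : MulBdd g) (h1 : Near g) (h2 : Far g) {ι : Type} [Fintype ι]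
    [Nonempty ι] {v : ι → ℤ} (hv : Function.Injective v) (s : ι → Bool) {q : ℕ} (hq : 0 < q)
    (a : ℤ) :
    Tendsto (fun x : ℕ => (∑ n ∈ cls x q a, ∏ i, cj (s i) (g (n + v i))) / (x : ℂ)) atTop
      (𝓝 0) := by
  obtain ⟨B, hB⟩ : ∃ B : ℕ, ∀ i, |v i| ≤ B := by
    refine ⟨∑ i, (v i).natAbs, fun i => ?_⟩
    rw [Int.abs_eq_natAbs]
    exact_mod_cast Finset.single_le_sum (f := fun i => (v i).natAbs) (fun _ _ => Nat.zero_le _)
      (Finset.mem_univ i)
  have hκ : (0 : ℝ) < Fintype.card ι := by exact_mod_cast Fintype.card_pos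
  rw [NormedAddCommGroup.tendsto_nhds_zero]
  intro ε hε
  obtain ⟨η, hη, hηε⟩ : ∃ η : ℝ, 0 < η ∧ 4 * η < ε := ⟨ε / 8, by positivity, by linarith⟩
  obtain ⟨θ, hθ, hθ', w₀, hw₀⟩ := class_small hv hg.bdd h2 s hη
  obtain ⟨w₁, hw₁⟩ := exc_count v hη
  obtain ⟨w, hww⟩ : ∃ w : ℕ, w = max (max w₀ w₁) q := ⟨_, rfl⟩
  have hw0 : w₀ ≤ w := by omega
  have hw1 : w₁ ≤ w := by omega
  have hwq : q ≤ w := by omega
  obtain ⟨A, hA, x₁, hx₁⟩ := hw₁ w hw1
  have hW : 0 < primorial w ^ A := pow_pos (primorial_pos w) A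
  have hprime : ∀ p : ℕ, p.Prime → p ∣ q * primorial w ^ A → p ≤ w := by
    intro p hp hd
    rcases hp.dvd_mul.1 hd with h3 | h3
    · exact (Nat.le_of_dvd hq h3).trans hwq
    · have h4 := hp.dvd_of_dvd_pow h3
      unfold primorial at h4
      rw [hp.prime.dvd_finset_prod_iff] at h4
      obtain ⟨l, hl, h5⟩ := h4
      obtain ⟨h6, h7⟩ := Finset.mem_filter.1 hl
      rw [(Nat.prime_dvd_prime_iff_eq hp h7).1 h5]
      have := Finset.mem_range.1 h6
      omega
  obtain ⟨x₀, hx₀⟩ := hw₀ w hw0 (q * primorial w ^ A) (Nat.mul_pos hq hW) hprime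
  have hlarge := large_small hg.bdd h1 hθ hθ' B
  have hδ : 0 < η / (2 * Fintype.card ι) := by positivity
  have hev := hlarge.eventually (ge_mem_nhds hδ)
  filter_upwards [hev, eventually_ge_atTop (max (max x₀ x₁) (max B 1))] with x hx hxm
  have hx0 : x₀ ≤ x := by omega
  have hx1 : x₁ ≤ x := by omega
  have hxB : B ≤ x := by omega
  have hx2 : 1 ≤ x := by omega
  have hxpos : (0 : ℝ) < x := by exact_mod_cast hx2
  have hM0 : (0 : ℝ) < (q * primorial w ^ A : ℕ) := by exact_mod_cast Nat.mul_pos hq hW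
  have e1 := approx hg s hB (w := w) (A := A) (x := x) hθ hθ' (q := q) a
  have e2 := cls_split (x := x) hq hW a
    (fun n => ∏ i, cj (s i) (g (Int.gcd (n + v i) ((primorial w ^ A : ℕ) : ℤ))))
    (fun n => FF v (TT w x θ) (fun p i => cj (s i) (g p)) n)
    (fun n => norm_prod_cj s _ fun i => hg.bdd _)
    (fun n m hnm => by
      refine Finset.prod_congr rfl fun i _ => ?_
      have h3 : ((primorial w ^ A : ℕ) : ℤ) ∣ (n + v i) - (m + v i) := by
        rw [add_sub_add_right_eq_sub]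
        exact hnm
      rw [gcd_congr h3])
    (fun r => hx₀ x hx0 r)
  have e3 : ((q * primorial w ^ A : ℕ) : ℝ) * (η * (x / (q * primorial w ^ A : ℕ))) = η * x := by
    field_simp
  rw [e3] at e2
  have e4 := hx₁ x hx1
  have e5 : (Fintype.card ι : ℝ) * (x + B) * (∑ p ∈ LL x B θ, ‖1 - g p‖ / p) ≤ η * x := by
    have h3 : (B : ℝ) ≤ x := by exact_mod_cast hxB
    calc (Fintype.card ι : ℝ) * (x + B) * (∑ p ∈ LL x B θ, ‖1 - g p‖ / p)
        ≤ (Fintype.card ι : ℝ) * (x + x) * (η / (2 * Fintype.card ι)) := by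
          refine mul_le_mul ?_ hx (Finset.sum_nonneg fun p _ => by positivity) (by positivity)
          exact mul_le_mul_of_nonneg_left (by linarith) hκ.le
      _ = η * x := by
          field_simp
          ring
  have e6 : ‖∑ n ∈ cls x q a, ∏ i, cj (s i) (g (n + v i))‖ ≤ 4 * η * x := by
    have h3 : ∑ n ∈ cls x q a, ∏ i, cj (s i) (g (n + v i)) =
        ∑ n ∈ cls x q a, ((∏ i, cj (s i) (g (n + v i))) -
          (∏ i, cj (s i) (g (Int.gcd (n + v i) ((primorial w ^ A : ℕ) : ℤ)))) *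
          FF v (TT w x θ) (fun p i => cj (s i) (g p)) n) +
        ∑ n ∈ cls x q a, (∏ i, cj (s i) (g (Int.gcd (n + v i) ((primorial w ^ A : ℕ) : ℤ)))) *
          FF v (TT w x θ) (fun p i => cj (s i) (g p)) n := by
      rw [← Finset.sum_add_distrib]
      exact Finset.sum_congr rfl fun n _ => (sub_add_cancel _ _).symm
    rw [h3]
    refine (norm_add_le _ _).trans ?_
    linarith
  rw [norm_div, Complex.norm_natCast, div_lt_iff₀ hxpos]
  calc _ ≤ 4 * η * x := e6
    _ < ε * x := mul_lt_mul_of_pos_right hηε hxpos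

end Pool.Agent.Work.MP_58cfe3_nt
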