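import Pool.Agent.Work.MP_58cfe3_nt.SAny
import Pool.Agent.Work.MP_43ce8a_nt.D.SvFL
import Pool.Agent.Work.MP_43ce8a_nt.D.SvDy

/-!
# Module SPat (size M-L): counting a divisibility pattern with the fundamental lemma of the sieve

PROOF. Let `L₁` be the constant of `Pool.Agent.Work.MP_43ce8a_nt.D.dyadic` and `b₀` that of
`Pool.Agent.Work.MP_43ce8a_nt.D.sieve_fl` for `L₀ = κ L₁`, `κ = Fintype.card ι`. Given `σ`, let
`D = {p ∈ T : σ p ≠ none}`, `P = {p ∈ T : σ p = none}` (finsets of naturals), `c p = - v (σ p)` on `D`.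
`sieve_fl` with the index type `ℕ`, `A = (cls x M r).filter (∀ p ∈ D, p ∣ n - c p)`, `E n p = ∃ i, p ∣ n + v i`,
`g p = κ/p ∈ [0, 1/2]` (`hT.big`), `X = x/(M ∏_D p)`, `ρ = z^(4b+10)`: for `d ⊆ P` with
`∏_d p ≤ z^(4b+10)`, `any_count` gives the error `κ^|d| ≤ ∏_{p ∈ d} p ≤ z^(4b+10)`.
A number `n` of the class has the pattern `σ` iff `n ∈ A` and `¬ E n p` for all `p ∈ P` (for `p ∈ D` with
`σ p = some i`: `p ∣ n + v i` implies `¬ p ∣ n + v j` for `j ≠ i` by `hT.inj`).
Main term: `X ∏_P (1 - κ/p) = x/M * ∏_{p : T} lw κ p (σ p)`. Error `(1 + z) z^(4b+10) z^(4b+10)`.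
-/

set_option autoImplicit false

namespace Pool.Agent.Work.MP_58cfe3_nt

open Filter Topology

theorem pat_count {ι : Type} [Fintype ι] (v : ι → ℤ) : ∃ b₀ : ℕ, ∀ b : ℕ, b₀ ≤ b →
    ∀ {z M : ℕ} {T : Finset ℕ}, 2 ≤ z → 0 < M → TP v M z T →
    ∀ (σ : T → Option ι) (r : ℤ) (x : ℕ),
      |(mcount v M r x σ : ℝ) - x / M * ∏ p : T, lw (Fintype.card ι) p (σ p)| ≤
        Real.exp (-b) * (x / M * ∏ p : T, lw (Fintype.card ι) p (σ p)) +
          (1 + z) * (z : ℝ) ^ (8 * b + 20) := by
  classical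
  obtain ⟨L₁, hL₁, hdy⟩ := Pool.Agent.Work.MP_43ce8a_nt.D.dyadic
  obtain ⟨b₀, hb₀⟩ := Pool.Agent.Work.MP_43ce8a_nt.D.sieve_fl ((Fintype.card ι : ℝ) * L₁)
    (by positivity)
  refine ⟨b₀, ?_⟩
  intro b hb z M T hz hM hT σ r x
  obtain ⟨s, hs⟩ : ∃ s : ℕ → Option ι, ∀ p : T, s p = σ p :=
    ⟨fun p => if h : p ∈ T then σ ⟨p, h⟩ else none, fun p => by simp⟩
  obtain ⟨c, hc⟩ : ∃ c : ℕ → ℤ, ∀ p i, s p = some i → c p = - v i :=
    ⟨fun p => (s p).elim 0 fun i => - v i, fun p i h => by simp [h]⟩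
  have hDT : T.filter (fun p => ¬ s p = none) ⊆ T := Finset.filter_subset _ _
  have hPT : T.filter (fun p => s p = none) ⊆ T := Finset.filter_subset _ _
  have hDP : ∀ d ⊆ T.filter (fun p => s p = none), Disjoint (T.filter (fun p => ¬ s p = none)) d := by
    intro d hd
    rw [Finset.disjoint_left]
    intro p hp hp'
    exact (Finset.mem_filter.1 hp).2 (Finset.mem_filter.1 (hd hp')).2
  have hz0 : (0 : ℝ) ≤ z := Nat.cast_nonneg z
  have key := hb₀ b hb z (T.filter (fun p => s p = none)) (fun p => (Fintype.card ι : ℝ) / p) hz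
    (fun p hp => ⟨hT.prime p (hPT hp), hT.lt p (hPT hp)⟩)
    (fun p hp => ⟨by positivity, by
      have h1 := hT.big p (hPT hp)
      have h2 := (hT.prime p (hPT hp)).pos
      have h3 : (0 : ℝ) < p := by exact_mod_cast h2
      have h4 : 2 * (Fintype.card ι : ℝ) ≤ p := by exact_mod_cast h1
      rw [div_le_iff₀ h3]
      linarith⟩)
    (fun y hy => by
      have h1 := hdy (T.filter (fun p => s p = none)) (fun p hp => hT.prime p (hPT hp)) y hy
      have h2 : ∑ p ∈ (T.filter (fun p => s p = none)).filter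
          (fun p : ℕ => y ≤ (p : ℝ) ∧ (p : ℝ) < y ^ 2), (Fintype.card ι : ℝ) / p =
          (Fintype.card ι : ℝ) * ∑ p ∈ (T.filter (fun p => s p = none)).filter
          (fun p : ℕ => y ≤ (p : ℝ) ∧ (p : ℝ) < y ^ 2), 1 / (p : ℝ) := by
        rw [Finset.mul_sum]
        exact Finset.sum_congr rfl fun p _ => by ring
      rw [h2]
      exact mul_le_mul_of_nonneg_left h1 (Nat.cast_nonneg _))
    ((cls x M r).filter fun n : ℕ =>
      ∀ p ∈ T.filter (fun p => ¬ s p = none), (p : ℤ) ∣ (n : ℤ) - c p)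
    (fun n p => ∃ i, (p : ℤ) ∣ (n : ℤ) + v i)
    (x / (M * ∏ p ∈ T.filter (fun p => ¬ s p = none), (p : ℝ))) ((z : ℝ) ^ (4 * b + 10))
    (by positivity) (by positivity)
    (fun d hd hdz => by
      have h1 := any_count hM hT hDT (hd.trans hPT) (hDP d hd) c r x
      rw [Finset.filter_filter]
      refine le_trans (le_of_eq ?_) (h1.trans (le_trans ?_ hdz))
      · congr!
      push_cast
      rw [← Finset.prod_const]
      refine Finset.prod_le_prod (fun p _ => Nat.cast_nonneg _) fun p hp => ?_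
      have h2 := hT.big p (hPT (hd hp))
      have h3 : Fintype.card ι ≤ p := by omega
      exact_mod_cast h3)
  have hcount : ((cls x M r).filter fun n : ℕ =>
      ∀ p ∈ T.filter (fun p => ¬ s p = none), (p : ℤ) ∣ (n : ℤ) - c p).filter
      (fun n : ℕ => ∀ p ∈ T.filter (fun p => s p = none), ¬ ∃ i, (p : ℤ) ∣ (n : ℤ) + v i) =
      (cls x M r).filter fun n : ℕ => Match v T σ n := by
    rw [Finset.filter_filter]
    refine Finset.filter_congr fun n _ => ?_
    constructor
    · rintro ⟨hd, he⟩ p i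
      rw [← hs p]
      rcases h : s p with _ | j
      · have hp : (p : ℕ) ∈ T.filter (fun p => s p = none) := Finset.mem_filter.2 ⟨p.2, h⟩
        constructor
        · intro h1
          exact absurd ⟨i, h1⟩ (he p hp)
        · intro h1
          exact absurd h1 (by simp)
      · have hp : (p : ℕ) ∈ T.filter (fun p => ¬ s p = none) :=
          Finset.mem_filter.2 ⟨p.2, by rw [h]; simp⟩
        have h1 := hd p hp
        rw [hc p j h, sub_neg_eq_add] at h1
        constructor
        · intro h2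
          by_contra h3
          have hij : i ≠ j := fun h4 => h3 (by rw [h4])
          apply hT.inj p p.2 i j hij
          have h5 := dvd_sub h2 h1
          have h6 : (n : ℤ) + v i - (n + v j) = v i - v j := by ring
          rwa [h6] at h5
        · intro h2
          have h3 : j = i := Option.some_injective _ h2
          rw [← h3]
          exact h1
    · intro hm
      constructor
      · intro p hp
        obtain ⟨hpT, hsp⟩ := Finset.mem_filter.1 hp
        obtain ⟨i, hi⟩ := Option.ne_none_iff_exists'.1 hsp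
        rw [hc p i hi, sub_neg_eq_add]
        refine (hm ⟨p, hpT⟩ i).2 ?_
        rw [← hs ⟨p, hpT⟩]
        exact hi
      · rintro p hp ⟨i, hi⟩
        obtain ⟨hpT, hsp⟩ := Finset.mem_filter.1 hp
        have h1 := (hm ⟨p, hpT⟩ i).1 hi
        rw [← hs ⟨p, hpT⟩] at h1
        have h2 : s p = some i := h1
        rw [hsp] at h2
        exact absurd h2 (by simp)
  have hmain : x / (M * ∏ p ∈ T.filter (fun p => ¬ s p = none), (p : ℝ)) *
      ∏ p ∈ T.filter (fun p => s p = none), (1 - (Fintype.card ι : ℝ) / p) =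
      x / M * ∏ p : T, lw (Fintype.card ι) p (σ p) := by
    have h1 : ∏ p : T, lw (Fintype.card ι) p (σ p) = ∏ p ∈ T, lw (Fintype.card ι) p (s p) := by
      rw [← Finset.prod_coe_sort T fun p => lw (Fintype.card ι) p (s p)]
      exact Finset.prod_congr rfl fun p _ => by rw [hs p]
    rw [h1, ← Finset.prod_filter_mul_prod_filter_not T (fun p => s p = none)]
    have h2 : ∏ p ∈ T.filter (fun p => s p = none), lw (Fintype.card ι) p (s p) =
        ∏ p ∈ T.filter (fun p => s p = none), (1 - (Fintype.card ι : ℝ) / p) :=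
      Finset.prod_congr rfl fun p hp => by
        rw [(Finset.mem_filter.1 hp).2]
        rfl
    have h3 : ∏ p ∈ T.filter (fun p => ¬ s p = none), lw (Fintype.card ι) p (s p) =
        (∏ p ∈ T.filter (fun p => ¬ s p = none), (p : ℝ))⁻¹ := by
      rw [← Finset.prod_inv_distrib]
      refine Finset.prod_congr rfl fun p hp => ?_
      obtain ⟨i, hi⟩ := Option.ne_none_iff_exists'.1 (Finset.mem_filter.1 hp).2
      rw [hi]
      exact one_div _
    rw [h2, h3, ← div_div]
    ring
  rw [hmain] at key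
  have hmc : mcount v M r x σ = (((cls x M r).filter fun n : ℕ =>
      ∀ p ∈ T.filter (fun p => ¬ s p = none), (p : ℤ) ∣ (n : ℤ) - c p).filter
      (fun n : ℕ => ∀ p ∈ T.filter (fun p => s p = none), ¬ ∃ i, (p : ℤ) ∣ (n : ℤ) + v i)).card := by
    rw [hcount]
    unfold mcount
    congr!
  refine le_trans (le_of_eq ?_) (key.trans (le_of_eq ?_))
  · rw [hmc]
    congr!
  have h4 : (z : ℝ) ^ (8 * b + 20) = (z : ℝ) ^ (4 * b + 10) * (z : ℝ) ^ (4 * b + 10) := by
    rw [← pow_add]
    congr 1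
    ring
  rw [h4]
  ring

end Pool.Agent.Work.MP_58cfe3_nt
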