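import Pool.Agent.Work.MP_58cfe3_nt.SDefs

/-!
# Module SX (size M): the function `xs χ` is nearly periodic

PROOF. `norm_xs`: products of numbers of norm `1` (`χ p` for `p ∤ q` prime is a root of unity) or `1`.
`xs_per`: let `m_q` be the largest divisor of `m` composed of primes `ℓ ∣ q` and `m = m_q k`. Then `k` is coprime to
`q` and `xs χ m = χ k` (multiplicativity of `χ`: `k = ∏_{p ∣ m, p ∤ q} p^(v_p m)`). Since `v_ℓ(m) < N ≤ v_ℓ(q^N)` for
`ℓ ∣ q`, `m_q = gcd (m, q^N)`. The same for `m'`: `m' ≡ m mod q^N` gives `ℓ^N ∤ m'` and the same gcd `d`. So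
`m = d k`, `m' = d k'`, `k - k'` is divisible by `q^N/d`, which is a multiple of `q`: for `ℓ ∣ q`,
`v_ℓ(q^N/d) = N v_ℓ(q) - v_ℓ(m) ≥ N v_ℓ(q) - (N - 1) ≥ v_ℓ(q)` (`v_ℓ(q) ≥ 1`, `v_ℓ(m) ≤ N - 1`).
Hence `χ k = χ k'`. (For `q = 1` everything is `1`.)
-/

set_option autoImplicit false

namespace Pool.Agent.Work.MP_58cfe3_nt

open Filter Topology

private noncomputable def xh {q : ℕ} (χ : DirichletCharacter ℂ q) (p : ℕ) : ℂ := if p ∣ q then 1 else χ p

private noncomputable def xn {q : ℕ} (χ : DirichletCharacter ℂ q) (a : ℕ) : ℂ :=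
  a.factorization.prod fun p k => xh χ p ^ k

private theorem xs_eq {q : ℕ} (χ : DirichletCharacter ℂ q) (n : ℤ) : xs χ n = xn χ n.toNat := rfl

private theorem xn_mul {q : ℕ} (χ : DirichletCharacter ℂ q) {a b : ℕ} (ha : a ≠ 0) (hb : b ≠ 0) :
    xn χ (a * b) = xn χ a * xn χ b := by
  rw [xn, xn, xn, Nat.factorization_mul ha hb]
  exact Finsupp.prod_add_index' (fun p => pow_zero _) (fun p k l => pow_add _ _ _)

private theorem xn_one {q : ℕ} (χ : DirichletCharacter ℂ q) : xn χ 1 = 1 := by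
  rw [xn, Nat.factorization_one]
  exact Finsupp.prod_zero_index

private theorem xn_prime {q : ℕ} (χ : DirichletCharacter ℂ q) {p : ℕ} (hp : p.Prime) :
    xn χ p = xh χ p := by
  rw [xn, hp.factorization]
  exact (Finsupp.prod_single_index (h := fun p k => xh χ p ^ k) (pow_zero _)).trans (pow_one _)

private theorem xn_cop {q : ℕ} (χ : DirichletCharacter ℂ q) (k : ℕ) (hk : k ≠ 0)
    (hc : k.Coprime q) : xn χ k = χ k := by
  induction k using Nat.recOnMul with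
  | zero => exact absurd rfl hk
  | one =>
    rw [xn_one]
    simp
  | prime p hp =>
    rw [xn_prime χ hp, xh, if_neg]
    exact (Nat.Prime.coprime_iff_not_dvd hp).1 hc
  | mul a b iha ihb =>
    have ha : a ≠ 0 := fun h => hk (by rw [h, zero_mul])
    have hb : b ≠ 0 := fun h => hk (by rw [h, mul_zero])
    rw [xn_mul χ ha hb, iha ha (Nat.Coprime.coprime_mul_right hc), ihb hb (Nat.Coprime.coprime_mul_left hc)]
    push_cast
    rw [map_mul]

private theorem xn_dvd {q : ℕ} (χ : DirichletCharacter ℂ q) {d N : ℕ} (hd : d ∣ q ^ N) : xn χ d = 1 := by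
  rw [xn, Finsupp.prod]
  refine Finset.prod_eq_one fun p hp => ?_
  rw [Nat.support_factorization] at hp
  have hpp := Nat.prime_of_mem_primeFactors hp
  have hpd := Nat.dvd_of_mem_primeFactors hp
  have hpq : p ∣ q := hpp.dvd_of_dvd_pow (hpd.trans hd)
  rw [xh, if_pos hpq, one_pow]

theorem norm_xs {q : ℕ} [NeZero q] (χ : DirichletCharacter ℂ q) (n : ℤ) : ‖xs χ n‖ = 1 := by
  rw [xs, norm_prod]
  refine Finset.prod_eq_one fun p hp => ?_
  have hpp := Nat.prime_of_mem_primeFactors hp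
  rw [norm_pow]
  have h1 : ‖(if p ∣ q then (1 : ℂ) else χ p)‖ = 1 := by
    split_ifs with h
    · exact norm_one
    · have hc : p.Coprime q := (Nat.Prime.coprime_iff_not_dvd hpp).2 h
      have h2 := DirichletCharacter.unit_norm_eq_one χ (ZMod.unitOfCoprime p hc)
      rwa [ZMod.coe_unitOfCoprime] at h2
  rw [h1, one_pow]

private theorem key {q : ℕ} [NeZero q] (χ : DirichletCharacter ℂ q) {N : ℕ} {a a' : ℕ} (ha : a ≠ 0)
    (ha' : a' ≠ 0) (h : a ≡ a' [MOD q ^ N])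
    (hN : ∀ l : ℕ, l.Prime → l ∣ q → ¬ l ^ N ∣ a) : xn χ a = xn χ a' := by
  have hq : q ≠ 0 := NeZero.ne q
  have hqN : q ^ N ≠ 0 := pow_ne_zero _ hq
  obtain ⟨k, hk⟩ := Nat.gcd_dvd_left a (q ^ N)
  have hd : Nat.gcd a (q ^ N) ∣ q ^ N := Nat.gcd_dvd_right a (q ^ N)
  have hgcd : Nat.gcd a (q ^ N) = Nat.gcd a' (q ^ N) := h.gcd_eq
  obtain ⟨k', hk'⟩ := Nat.gcd_dvd_left a' (q ^ N)
  rw [← hgcd] at hk'
  have hd0 : Nat.gcd a (q ^ N) ≠ 0 := Nat.gcd_ne_zero_left ha
  have hda : Nat.gcd a (q ^ N) ∣ a := Nat.gcd_dvd_left a (q ^ N)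
  have hgg : ∀ x, x ∣ a → x ∣ q ^ N → x ∣ Nat.gcd a (q ^ N) := fun x h1 h2 => Nat.dvd_gcd h1 h2
  generalize Nat.gcd a (q ^ N) = d at hk hk' hd hd0 hda hgg
  have hdq : d * q ∣ q ^ N := by
    refine (Nat.factorization_prime_le_iff_dvd (mul_ne_zero hd0 hq) hqN).1 fun l hl => ?_
    rw [Nat.factorization_mul hd0 hq, Nat.factorization_pow]
    simp only [Finsupp.add_apply, Finsupp.smul_apply, smul_eq_mul]
    by_cases hlq : l ∣ q
    · have h1 : d.factorization l < N := by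
        by_contra hcon
        rw [not_lt] at hcon
        exact hN l hl hlq (((pow_dvd_pow l hcon).trans (Nat.ordProj_dvd d l)).trans hda)
      have h2 : 1 ≤ q.factorization l := (hl.dvd_iff_one_le_factorization hq).1 hlq
      obtain ⟨M, rfl⟩ : ∃ M, N = M + 1 := ⟨N - 1, by omega⟩
      nlinarith
    · have h1 : d.factorization l = 0 :=
        Nat.factorization_eq_zero_of_not_dvd fun h2 => hlq (hl.dvd_of_dvd_pow (h2.trans hd))
      have h2 : q.factorization l = 0 := Nat.factorization_eq_zero_of_not_dvd hlq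
      rw [h1, h2]
      simp
  have hk0 : k ≠ 0 := fun h1 => ha (by rw [hk, h1, mul_zero])
  have hk0' : k' ≠ 0 := fun h1 => ha' (by rw [hk', h1, mul_zero])
  have hcop : k.Coprime q := by
    by_contra hcon
    obtain ⟨l, hl, h1, h2⟩ := Nat.Prime.not_coprime_iff_dvd.1 hcon
    have h3 : d * l ∣ d := hgg _ (by rw [hk]; exact Nat.mul_dvd_mul_left d h1)
      ((Nat.mul_dvd_mul_left d h2).trans hdq)
    have h4 := Nat.le_of_dvd (Nat.pos_of_ne_zero hd0) h3
    have h5 := hl.two_le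
    have h6 : 0 < d := Nat.pos_of_ne_zero hd0
    nlinarith
  have hmod : k ≡ k' [MOD q] := by
    have h1 : d * k ≡ d * k' [MOD d * q] := by
      rw [← hk, ← hk']
      exact h.of_dvd hdq
    exact Nat.ModEq.mul_left_cancel' hd0 h1
  have hcop' : k'.Coprime q := by
    have h1 := hmod.gcd_eq
    rw [Nat.Coprime] at hcop ⊢
    rw [← h1, hcop]
  rw [hk, hk', xn_mul χ hd0 hk0, xn_mul χ hd0 hk0', xn_cop χ k hk0 hcop, xn_cop χ k' hk0' hcop',
    (ZMod.natCast_eq_natCast_iff k k' q).2 hmod]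

theorem xs_per {q : ℕ} [NeZero q] (χ : DirichletCharacter ℂ q) {N : ℕ} {m m' : ℤ} (hm : 0 < m)
    (hm' : 0 < m') (h : (q : ℤ) ^ N ∣ m - m')
    (hN : ∀ l : ℕ, l.Prime → l ∣ q → ¬ (l : ℤ) ^ N ∣ m) : xs χ m = xs χ m' := by
  rw [xs_eq, xs_eq]
  obtain ⟨a, rfl⟩ := Int.eq_ofNat_of_zero_le hm.le
  obtain ⟨a', rfl⟩ := Int.eq_ofNat_of_zero_le hm'.le
  have ha : a ≠ 0 := by
    rintro rfl
    exact lt_irrefl _ hm
  have ha' : a' ≠ 0 := by
    rintro rfl
    exact lt_irrefl _ hm'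
  refine key χ (N := N) ha ha' ?_ ?_
  · refine (Nat.modEq_iff_dvd.2 ?_).symm
    push_cast
    exact h
  · intro l hl hlq hdvd
    refine hN l hl hlq ?_
    exact_mod_cast hdvd

end Pool.Agent.Work.MP_58cfe3_nt
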