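import Pool.Agent.Work.MP_58cfe3_nt.WDefs

/-!
# Module WDens: weakly pretentious functions are near `χ(n) n^(it)` at almost all scales

PROOF. `mass g χ t η X = ∑_{X^η < p ≤ X} gap/p`, `gap ≥ 0`. Exchange of the sums:
`∑_{2 ≤ X ≤ Y} mass_η(X)/(X log X) = ∑_{p ≤ Y} gap/p ∑_{p ≤ X ≤ Y, X^η < p} 1/(X log X) ≤ (2 + log (1/η)) dist2 Y`, since
`∑_{p < X < p^(1/η)} 1/(X log X) ≤ log log p^(1/η) - log log p = log (1/η)` (`1/(X log X) ≤ log log X - log log (X-1)`).
So for all `η, δ > 0` the set `{X | δ < mass_η X}` is `LLNull` (Markov). The sets `B k` (`η = δ = 1/(k+1)`) increase, and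
a diagonal choice `κ : ℕ → ℕ` (monotone, unbounded) makes `{X | X ∈ B (κ X)}` an `LLNull` set.
-/

set_option autoImplicit false

namespace Pool.Agent.Work.MP_58cfe3_nt

open Filter Topology

private theorem gap_nonneg {g : ℤ → ℂ} (hb : ∀ n, ‖g n‖ ≤ 1) {q : ℕ} (χ : DirichletCharacter ℂ q)
    (t : ℝ) (p : ℕ) : 0 ≤ gap g χ t p := by
  unfold gap
  have h1 : ‖g p * star (χ p * (p : ℂ) ^ ((t : ℂ) * Complex.I))‖ ≤ 1 := by
    rw [norm_mul, norm_star, norm_mul]
    have h2 : ‖χ p‖ ≤ 1 := DirichletCharacter.norm_le_one χ _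
    have h3 : ‖(p : ℂ) ^ ((t : ℂ) * Complex.I)‖ ≤ 1 := by
      rcases Nat.eq_zero_or_pos p with h0 | h0
      · subst h0
        by_cases ht : (t : ℂ) * Complex.I = 0
        · rw [ht]
          simp
        · rw [Nat.cast_zero, Complex.zero_cpow ht]
          simp
      · rw [Complex.norm_natCast_cpow_of_pos h0]
        simp
    exact mul_le_one₀ (hb _) (by positivity) (mul_le_one₀ h2 (norm_nonneg _) h3)
  have h2 := (Complex.re_le_norm (g p * star (χ p * (p : ℂ) ^ ((t : ℂ) * Complex.I)))).trans h1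
  linarith

private theorem llw_mono {B C : Set ℕ} (h : B ⊆ C) (Y : ℕ) : llw B Y ≤ llw C Y := by
  classical
  unfold llw
  refine Finset.sum_le_sum_of_subset_of_nonneg ?_ fun X hX _ => ?_
  · intro X hX
    rw [Finset.mem_filter] at hX ⊢
    exact ⟨hX.1, h hX.2⟩
  · have h1 := (Finset.mem_Icc.1 (Finset.mem_filter.1 hX).1).1
    have h2 : (0 : ℝ) ≤ Real.log X := Real.log_natCast_nonneg X
    positivity

private theorem llw_nonneg (B : Set ℕ) (Y : ℕ) : 0 ≤ llw B Y := by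
  classical
  unfold llw
  refine Finset.sum_nonneg fun X _ => ?_
  have h2 : (0 : ℝ) ≤ Real.log X := Real.log_natCast_nonneg X
  positivity

/-- `1/(X log X) ≤ log log X - log log (X - 1)` -/
private theorem term_le {X : ℕ} (hX : 3 ≤ X) :
    1 / ((X : ℝ) * Real.log X) ≤
      Real.log (Real.log X) - Real.log (Real.log ((X : ℝ) - 1)) := by
  have hX3 : (3 : ℝ) ≤ X := by exact_mod_cast hX
  have h1 : 0 < Real.log ((X : ℝ) - 1) := Real.log_pos (by linarith)
  have h2 : 0 < Real.log X := Real.log_pos (by linarith)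
  have h3 : 1 / (X : ℝ) ≤ Real.log X - Real.log ((X : ℝ) - 1) := by
    have h4 := Real.add_one_le_exp (-(1 / (X : ℝ)))
    have h5 : Real.log (((X : ℝ) - 1) / X) ≤ ((X : ℝ) - 1) / X - 1 :=
      Real.log_le_sub_one_of_pos (div_pos (by linarith) (by linarith))
    rw [Real.log_div (by linarith) (by linarith)] at h5
    have h6 : ((X : ℝ) - 1) / X - 1 = -(1 / (X : ℝ)) := by
      field_simp
      ring
    linarith
  have h4 : Real.log (Real.log ((X : ℝ) - 1) / Real.log X) ≤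
      Real.log ((X : ℝ) - 1) / Real.log X - 1 :=
    Real.log_le_sub_one_of_pos (div_pos h1 h2)
  rw [Real.log_div h1.ne' h2.ne'] at h4
  have h5 : 1 / ((X : ℝ) * Real.log X) ≤ 1 - Real.log ((X : ℝ) - 1) / Real.log X := by
    rw [one_sub_div h2.ne', ← div_div]
    exact div_le_div_of_nonneg_right h3 h2.le
  linarith

/-- the inner sum -/
private theorem inner_le {η : ℝ} (hη : 0 < η) (hη1 : η ≤ 1) {p : ℕ} (hp : 2 ≤ p) (Y : ℕ) :
    ∑ X ∈ (Finset.Icc 2 Y).filter (fun X : ℕ => p ≤ X ∧ (X : ℝ) ^ η < p),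
      1 / ((X : ℝ) * Real.log X) ≤ 1 + Real.log (1 / η) := by
  have hpr : (2 : ℝ) ≤ p := by exact_mod_cast hp
  have hlp : 0 < Real.log p := Real.log_pos (by linarith)
  -- induction on the upper end
  have key : ∀ N : ℕ, p ≤ N → ∑ X ∈ Finset.Icc p N, 1 / ((X : ℝ) * Real.log X) ≤
      1 + (Real.log (Real.log N) - Real.log (Real.log p)) := by
    intro N hN
    induction N, hN using Nat.le_induction with
    | base =>
      rw [Finset.Icc_self, Finset.sum_singleton, sub_self, add_zero]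
      have h1 : Real.log 2 ≤ Real.log p := Real.log_le_log (by norm_num) hpr
      have h2 := Real.log_two_gt_d9
      rw [div_le_one (by positivity)]
      nlinarith
    | succ N hN ih =>
      rw [Finset.sum_Icc_succ_top (by omega)]
      have h1 := term_le (X := N + 1) (by omega)
      push_cast at h1 ⊢
      rw [add_sub_cancel_right] at h1
      linarith
  by_cases hS : ((Finset.Icc 2 Y).filter (fun X : ℕ => p ≤ X ∧ (X : ℝ) ^ η < p)).Nonempty
  · obtain ⟨N, hN, hmax⟩ := Finset.exists_max_image _ (fun X : ℕ => X) hS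
    obtain ⟨hN1, hN2, hN3⟩ := Finset.mem_filter.1 hN
    have hsub : (Finset.Icc 2 Y).filter (fun X : ℕ => p ≤ X ∧ (X : ℝ) ^ η < p) ⊆
        Finset.Icc p N := by
      intro X hX
      exact Finset.mem_Icc.2 ⟨(Finset.mem_filter.1 hX).2.1, hmax X hX⟩
    refine (Finset.sum_le_sum_of_subset_of_nonneg hsub fun X _ _ => ?_).trans
      ((key N hN2).trans ?_)
    · have h2 : (0 : ℝ) ≤ Real.log X := Real.log_natCast_nonneg X
      positivity
    · have hNr : (2 : ℝ) ≤ N := hpr.trans (by exact_mod_cast hN2)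
      have h1 : η * Real.log N < Real.log p := by
        rw [← Real.log_rpow (by linarith)]
        exact Real.log_lt_log (by positivity) hN3
      have h2 : 0 < Real.log N := Real.log_pos (by linarith)
      have h3 : Real.log N ≤ (1 / η) * Real.log p := by
        rw [one_div, inv_mul_eq_div, le_div_iff₀ hη]
        linarith
      have h4 : Real.log (Real.log N) ≤ Real.log (1 / η) + Real.log (Real.log p) := by
        rw [← Real.log_mul (by positivity) hlp.ne']
        exact Real.log_le_log h2 h3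
      linarith
  · rw [Finset.not_nonempty_iff_eq_empty] at hS
    rw [hS, Finset.sum_empty]
    have : 0 ≤ Real.log (1 / η) := Real.log_nonneg (by rw [le_div_iff₀ hη]; linarith)
    linarith

/-- the average mass -/
private theorem sum_mass {g : ℤ → ℂ} (hb : ∀ n, ‖g n‖ ≤ 1) {q : ℕ} (χ : DirichletCharacter ℂ q)
    (t : ℝ) {η : ℝ} (hη : 0 < η) (hη1 : η ≤ 1) (Y : ℕ) :
    ∑ X ∈ Finset.Icc 2 Y, mass g χ t η X * (1 / ((X : ℝ) * Real.log X)) ≤
      (1 + Real.log (1 / η)) * dist2 g χ t Y := by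
  have h1 : ∀ X ∈ Finset.Icc 2 Y, mass g χ t η X * (1 / ((X : ℝ) * Real.log X)) =
      ∑ p ∈ (Finset.Icc 1 Y).filter Nat.Prime, (if p ≤ X ∧ (X : ℝ) ^ η < p then
        gap g χ t p / p * (1 / ((X : ℝ) * Real.log X)) else 0) := by
    intro X hX
    have hXY := (Finset.mem_Icc.1 hX).2
    rw [← Finset.sum_filter, mass, Finset.sum_mul]
    refine Finset.sum_congr ?_ fun _ _ => rfl
    ext p
    simp only [Finset.mem_filter, Finset.mem_Icc]
    constructor
    · rintro ⟨⟨h1, h2⟩, h3, h4⟩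
      exact ⟨⟨⟨h1, h2.trans hXY⟩, h3⟩, h2, h4⟩
    · rintro ⟨⟨⟨h1, _⟩, h3⟩, h2, h4⟩
      exact ⟨⟨h1, h2⟩, h3, h4⟩
  rw [Finset.sum_congr rfl h1, Finset.sum_comm, dist2, Finset.mul_sum]
  refine Finset.sum_le_sum fun p hp => ?_
  have hpp := (Finset.mem_filter.1 hp).2
  rw [← Finset.sum_filter, ← Finset.mul_sum, mul_comm]
  refine mul_le_mul_of_nonneg_right (inner_le hη hη1 hpp.two_le Y) ?_
  exact div_nonneg (gap_nonneg hb χ t p) (Nat.cast_nonneg _)

private theorem mass_nonneg {g : ℤ → ℂ} (hb : ∀ n, ‖g n‖ ≤ 1) {q : ℕ}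
    (χ : DirichletCharacter ℂ q) (t η : ℝ) (X : ℕ) : 0 ≤ mass g χ t η X :=
  Finset.sum_nonneg fun p _ => div_nonneg (gap_nonneg hb χ t p) (Nat.cast_nonneg _)

private theorem markov {g : ℤ → ℂ} (hb : ∀ n, ‖g n‖ ≤ 1) {q : ℕ} (χ : DirichletCharacter ℂ q)
    (t : ℝ) {η δ : ℝ} (hη : 0 < η) (hη1 : η ≤ 1) (hδ : 0 < δ) (Y : ℕ) :
    llw {X | δ < mass g χ t η X} Y ≤ (1 + Real.log (1 / η)) / δ * dist2 g χ t Y := by
  classical
  have h1 := sum_mass hb χ t hη hη1 Y
  have h2 : δ * llw {X | δ < mass g χ t η X} Y ≤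
      ∑ X ∈ Finset.Icc 2 Y, mass g χ t η X * (1 / ((X : ℝ) * Real.log X)) := by
    unfold llw
    rw [Finset.mul_sum]
    refine le_trans (Finset.sum_le_sum
      (g := fun X : ℕ => mass g χ t η X * (1 / ((X : ℝ) * Real.log X))) fun X hX => ?_)
      (Finset.sum_le_sum_of_subset_of_nonneg (Finset.filter_subset _ _) fun X _ _ => ?_)
    · have h3 : δ < mass g χ t η X := (Finset.mem_filter.1 hX).2
      have h4 : (0 : ℝ) ≤ Real.log X := Real.log_natCast_nonneg X
      exact mul_le_mul_of_nonneg_right h3.le (by positivity)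
    · have h4 : (0 : ℝ) ≤ Real.log X := Real.log_natCast_nonneg X
      exact mul_nonneg (mass_nonneg hb χ t η X) (by positivity)
  rw [div_mul_eq_mul_div, le_div_iff₀ hδ]
  linarith

private theorem loglog_tendsto : Tendsto (fun Y : ℕ => Real.log (Real.log Y)) atTop atTop :=
  Real.tendsto_log_atTop.comp (Real.tendsto_log_atTop.comp tendsto_natCast_atTop_atTop)

/-- the diagonal choice -/
private theorem diag {B : ℕ → Set ℕ} (hB : Monotone B) (h : ∀ k, LLNull (B k)) :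
    ∃ κ : ℕ → ℕ, Tendsto κ atTop atTop ∧ LLNull {X | X ∈ B (κ X)} := by
  have h1 : ∀ k : ℕ, ∃ N : ℕ, ∀ Y : ℕ, N ≤ Y →
      llw (B k) Y ≤ 1 / ((k : ℝ) + 1) * Real.log (Real.log Y) := by
    intro k
    have h2 : (0 : ℝ) < 1 / ((k : ℝ) + 1) := by positivity
    have h3 := ((h k).eventually (ge_mem_nhds h2)).and (loglog_tendsto.eventually_gt_atTop 0)
    obtain ⟨N, hN⟩ := Filter.eventually_atTop.1 h3
    refine ⟨N, fun Y hY => ?_⟩
    obtain ⟨h4, h5⟩ := hN Y hY
    rwa [div_le_iff₀ h5] at h4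
  choose N hN using h1
  let N' : ℕ → ℕ := fun k => k + ∑ j ∈ Finset.range (k + 1), N j
  have hN'1 : ∀ k, N k ≤ N' k := fun k =>
    (Finset.single_le_sum (f := N) (fun _ _ => Nat.zero_le _)
      (Finset.mem_range.2 (Nat.lt_succ_self k))).trans (Nat.le_add_left _ _)
  let κ : ℕ → ℕ := fun X => Nat.findGreatest (fun k => N' k ≤ X) X
  have hκm : Monotone κ := by
    intro X Y hXY
    by_cases h0 : κ X = 0
    · rw [h0]
      exact Nat.zero_le _
    · have h2 : N' (κ X) ≤ X :=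
        Nat.findGreatest_of_ne_zero (P := fun k => N' k ≤ X) (n := X) rfl h0
      exact Nat.le_findGreatest ((Nat.findGreatest_le X).trans hXY) (h2.trans hXY)
  have hκt : Tendsto κ atTop atTop := by
    rw [Filter.tendsto_atTop]
    intro k
    filter_upwards [eventually_ge_atTop (N' k)] with X hX
    refine Nat.le_findGreatest ?_ hX
    exact (Nat.le_add_right k _).trans hX
  refine ⟨κ, hκt, ?_⟩
  unfold LLNull
  have hb : Tendsto (fun Y : ℕ => 1 / ((κ Y : ℝ) + 1)) atTop (𝓝 0) :=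
    tendsto_one_div_add_atTop_nhds_zero_nat.comp hκt
  refine squeeze_zero' ?_ ?_ hb
  · filter_upwards [loglog_tendsto.eventually_gt_atTop 0] with Y hY
    exact div_nonneg (llw_nonneg _ _) hY.le
  · filter_upwards [loglog_tendsto.eventually_gt_atTop 0, hκt.eventually_ge_atTop 1] with Y hY hκ
    rw [div_le_iff₀ hY]
    have h2 : N' (κ Y) ≤ Y :=
      Nat.findGreatest_of_ne_zero (P := fun k => N' k ≤ Y) (n := Y) rfl (by omega)
    refine le_trans ?_ (hN (κ Y) Y ((hN'1 _).trans h2))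
    classical
    unfold llw
    refine Finset.sum_le_sum_of_subset_of_nonneg ?_ fun X _ _ => ?_
    · intro X hX
      obtain ⟨h3, h4⟩ := Finset.mem_filter.1 hX
      exact Finset.mem_filter.2 ⟨h3, hB (hκm (Finset.mem_Icc.1 h3).2) h4⟩
    · have h4 : (0 : ℝ) ≤ Real.log X := Real.log_natCast_nonneg X
      positivity

private theorem mass_anti {g : ℤ → ℂ} (hb : ∀ n, ‖g n‖ ≤ 1) {q : ℕ} (χ : DirichletCharacter ℂ q)
    (t : ℝ) {η η' : ℝ} (h : η ≤ η') {X : ℕ} (hX : 1 ≤ X) : mass g χ t η' X ≤ mass g χ t η X := by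
  unfold mass
  refine Finset.sum_le_sum_of_subset_of_nonneg ?_ fun p _ _ =>
    div_nonneg (gap_nonneg hb χ t p) (Nat.cast_nonneg _)
  intro p hp
  obtain ⟨h1, h2, h3⟩ := Finset.mem_filter.1 hp
  refine Finset.mem_filter.2 ⟨h1, h2, lt_of_le_of_lt ?_ h3⟩
  exact Real.rpow_le_rpow_of_exponent_le (by exact_mod_cast hX) h

theorem near_scales {g : ℤ → ℂ} (hb : ∀ n, ‖g n‖ ≤ 1) {q : ℕ} (χ : DirichletCharacter ℂ q)
    (t : ℝ) (hw : Tendsto (fun X : ℕ => dist2 g χ t X / Real.log (Real.log X)) atTop (𝓝 0)) :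
    ∃ S : Set ℕ, LLNull Sᶜ ∧ ∀ η : ℝ, 0 < η → Tendsto (mass g χ t η) (atTop ⊓ 𝓟 S) (𝓝 0) := by
  let e : ℕ → ℝ := fun k => 1 / ((k : ℝ) + 1)
  have he : ∀ k, 0 < e k := fun k => by positivity
  have he1 : ∀ k, e k ≤ 1 := fun k => by
    change 1 / ((k : ℝ) + 1) ≤ 1
    rw [div_le_one (by positivity)]
    have : (0 : ℝ) ≤ k := Nat.cast_nonneg k
    linarith
  have hea : ∀ {j k : ℕ}, j ≤ k → e k ≤ e j := fun {j k} hjk => by
    change 1 / ((k : ℝ) + 1) ≤ 1 / ((j : ℝ) + 1)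
    have : (j : ℝ) ≤ k := by exact_mod_cast hjk
    exact one_div_le_one_div_of_le (by positivity) (by linarith)
  let B : ℕ → Set ℕ := fun k => {X | 1 ≤ X ∧ e k < mass g χ t (e k) X}
  have hBm : Monotone B := by
    intro j k hjk X hX
    exact ⟨hX.1, (hea hjk).trans_lt (hX.2.trans_le (mass_anti hb χ t (hea hjk) hX.1))⟩
  have hB0 : ∀ k, LLNull (B k) := by
    intro k
    unfold LLNull
    have h1 : Tendsto (fun Y : ℕ => (1 + Real.log (1 / e k)) / e k *
        (dist2 g χ t Y / Real.log (Real.log Y))) atTop (𝓝 0) := by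
      have := hw.const_mul ((1 + Real.log (1 / e k)) / e k)
      rwa [mul_zero] at this
    refine squeeze_zero' ?_ ?_ h1
    · filter_upwards [loglog_tendsto.eventually_gt_atTop 0] with Y hY
      exact div_nonneg (llw_nonneg _ _) hY.le
    · filter_upwards [loglog_tendsto.eventually_gt_atTop 0] with Y hY
      rw [← mul_div_assoc]
      refine div_le_div_of_nonneg_right ?_ hY.le
      exact (llw_mono (fun X hX => hX.2) Y).trans (markov hb χ t (he k) (he1 k) (he k) Y)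
  obtain ⟨κ, hκ, hnull⟩ := diag hBm hB0
  refine ⟨{X | X ∉ B (κ X)}, ?_, fun η hη => ?_⟩
  · have : ({X | X ∉ B (κ X)} : Set ℕ)ᶜ = {X | X ∈ B (κ X)} := by
      ext X
      simp
    rw [this]
    exact hnull
  · have h1 : Tendsto (fun X : ℕ => e (κ X)) (atTop ⊓ 𝓟 {X | X ∉ B (κ X)}) (𝓝 0) :=
      (tendsto_one_div_add_atTop_nhds_zero_nat.comp hκ).mono_left inf_le_left
    refine squeeze_zero' (Eventually.of_forall fun X => mass_nonneg hb χ t η X) ?_ h1
    have h2 : ∀ᶠ X : ℕ in atTop, e (κ X) ≤ η :=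
      ((tendsto_one_div_add_atTop_nhds_zero_nat.comp hκ).eventually (ge_mem_nhds hη))
    have i1 : (atTop ⊓ 𝓟 {X : ℕ | X ∉ B (κ X)} : Filter ℕ) ≤ atTop := inf_le_left
    have i2 : (atTop ⊓ 𝓟 {X : ℕ | X ∉ B (κ X)} : Filter ℕ) ≤ 𝓟 {X : ℕ | X ∉ B (κ X)} :=
      inf_le_right
    filter_upwards [i1 h2, i1 (eventually_ge_atTop 1), i2 (Filter.mem_principal_self _)]
      with X hX1 hX2 hX3
    have h3 : ¬ (1 ≤ X ∧ e (κ X) < mass g χ t (e (κ X)) X) := hX3
    have h4 : mass g χ t (e (κ X)) X ≤ e (κ X) := by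
      by_contra hcon
      exact h3 ⟨hX2, not_le.1 hcon⟩
    exact (mass_anti hb χ t hX1 hX2).trans h4

end Pool.Agent.Work.MP_58cfe3_nt
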