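import Pool.Agent.Work.MP_58cfe3_nt.WFin
import Pool.Agent.Work.MP_58cfe3_nt.WDens

/-!
# Weakly pretentious functions: arbitrary companions at almost all scales
-/

set_option autoImplicit false

namespace Pool.Agent.Work.MP_58cfe3_nt

open Filter Topology

/-- a function which satisfies (H) has infinite distance from each `χ(n) n^(it)` -/
theorem far_of_nonPret {g : ℤ → ℂ} (hg : NonPret g) {q : ℕ} [NeZero q]
    (χ : DirichletCharacter ℂ q) (t : ℝ) : Tendsto (fun X : ℕ => dist2 g χ t X) atTop atTop := by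
  have h1 : Tendsto (fun X : ℕ => Real.sqrt (dist2 g χ t X)) atTop atTop := by
    refine Filter.tendsto_atTop_mono' atTop ?_ (hg q χ)
    have h2 : ∀ᶠ X : ℕ in atTop, |t| ≤ (X : ℝ) :=
      tendsto_natCast_atTop_atTop.eventually_ge_atTop _
    filter_upwards [h2] with X hX
    have h3 := ciInf_le (f := fun s : Set.Icc (-(X : ℝ)) X => Real.sqrt (dist2 g χ s X))
      ⟨0, by
        rintro _ ⟨s, rfl⟩
        exact Real.sqrt_nonneg _⟩ ⟨t, abs_le.1 hX⟩
    exact h3
  have h2 : Tendsto (fun X : ℕ => Real.sqrt (dist2 g χ t X) ^ 2) atTop atTop :=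
    (Filter.tendsto_pow_atTop (two_ne_zero)).comp h1
  refine h2.congr' ?_
  filter_upwards [h1.eventually_gt_atTop 0] with X hX
  exact Real.sq_sqrt (Real.sqrt_pos.1 hX).le

theorem weak_universal {g : ℤ → ℂ} (hg : MulBdd g) (hn : NonPret g) (hw : WeakPret g) :
    ∃ S : Set ℕ, LLNull Sᶜ ∧ ∀ r : ℕ, 1 ≤ r → UniversalAt (atTop ⊓ 𝓟 S) g r := by
  obtain ⟨q, hq, χ, t, h⟩ := hw
  obtain ⟨S, hS, hnear⟩ := near_scales hg.bdd χ t h
  exact ⟨S, hS, fun r hr => slow_universal_at hg inf_le_left χ t hnear (far_of_nonPret hn χ t) hr⟩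

end Pool.Agent.Work.MP_58cfe3_nt
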