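import Pool.Agent.Work.MP_58cfe3_nt.ElogA

/-!
# Module WPer: multiplication by an almost periodic function, along a filter of scales (copy of SPer)
-/

set_option autoImplicit false

namespace Pool.Agent.Work.MP_58cfe3_nt

open Filter Topology

private noncomputable def SSp (X : ℕ) : ℝ := ∑ n ∈ Finset.Icc 1 X, (1 / n : ℝ)

private theorem elog_eqp (f : ℤ → ℂ) (X : ℕ) :
    Elog f X = (∑ n ∈ Finset.Icc 1 X, f n / n) / (SSp X : ℂ) := by
  rw [Elog, SSp]
  push_cast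
  rfl

private theorem elog_mono {f : ℤ → ℂ} {g : ℤ → ℝ} (h : ∀ n, ‖f n‖ ≤ g n) (X : ℕ) :
    ‖Elog f X‖ ≤ ‖Elog (fun n => ((g n : ℝ) : ℂ)) X‖ := by
  have hg : ∀ n, 0 ≤ g n := fun n => (norm_nonneg _).trans (h n)
  rw [elog_eqp, elog_eqp, norm_div, norm_div]
  refine div_le_div_of_nonneg_right ?_ (norm_nonneg _)
  have h1 : (∑ n ∈ Finset.Icc 1 X, ((g n : ℝ) : ℂ) / (n : ℂ)) =
      ((∑ n ∈ Finset.Icc 1 X, g n / (n : ℝ) : ℝ) : ℂ) := by
    push_cast
    rfl
  have h2 : 0 ≤ ∑ n ∈ Finset.Icc 1 X, g n / (n : ℝ) := Finset.sum_nonneg fun n _ =>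
    div_nonneg (hg _) (Nat.cast_nonneg n)
  rw [h1, Complex.norm_real, Real.norm_eq_abs, abs_of_nonneg h2]
  refine (norm_sum_le _ _).trans (Finset.sum_le_sum fun n _ => ?_)
  rw [norm_div, Complex.norm_natCast]
  exact div_le_div_of_nonneg_right (h n) (Nat.cast_nonneg n)

private theorem elog_sum {ι : Type*} (s : Finset ι) (f : ι → ℤ → ℂ) (X : ℕ) :
    Elog (fun n => ∑ a ∈ s, f a n) X = ∑ a ∈ s, Elog (f a) X := by
  simp only [elog_eqp]
  rw [← Finset.sum_div, Finset.sum_comm]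
  congr 1
  exact Finset.sum_congr rfl fun n _ => Finset.sum_div _ _ _

theorem per_approx_at {l : Filter ℕ} {F Y : ℤ → ℂ} (hF : ∀ n, ‖F n‖ ≤ 1) (hY : ∀ n, ‖Y n‖ ≤ 1)
    (h : ∀ m : ℕ, 0 < m → ∀ a : ℤ,
      Tendsto (Elog fun n => if (m : ℤ) ∣ n - a then F n else 0) l (𝓝 0))
    (hap : ∀ η : ℝ, 0 < η → ∃ m : ℕ, 0 < m ∧ ∃ Z : ℤ → ℂ, (∀ n, ‖Z n‖ ≤ 1) ∧
      (∀ n, Z (n + m) = Z n) ∧
      ∀ᶠ X : ℕ in l, ‖Elog (fun n => ((‖Y n - Z n‖ : ℝ) : ℂ)) X‖ ≤ η) :
    Tendsto (Elog fun n => F n * Y n) l (𝓝 0) := by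
  have _ := hY
  rw [Metric.tendsto_nhds]
  intro ε hε
  obtain ⟨m, hm, Z, hZ1, hZm, hev⟩ := hap (ε / 2) (by linarith)
  have hper : Function.Periodic Z (m : ℤ) := hZm
  have hmz : (m : ℤ) ≠ 0 := by exact_mod_cast hm.ne'
  have hmz' : (0 : ℤ) < m := by exact_mod_cast hm
  have h1 : ∀ n : ℤ, F n * Z n = ∑ a ∈ Finset.range m, Z a *
      (if (m : ℤ) ∣ n - a then F n else 0) := by
    intro n
    have h2 : 0 ≤ n % m := Int.emod_nonneg _ hmz
    have h3 : n % m < m := Int.emod_lt_of_pos _ hmz'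
    have h4 : ((n % m).toNat : ℤ) = n % m := Int.toNat_of_nonneg h2
    rw [Finset.sum_eq_single (n % m).toNat]
    · rw [h4, if_pos (Int.dvd_self_sub_emod)]
      have h5 : Z n = Z (n % m) := by
        conv_lhs => rw [← Int.emod_add_mul_ediv n m, mul_comm]
        exact hper.int_mul (n / m) _
      rw [h5, mul_comm]
    · intro b hb hne
      rw [if_neg, mul_zero]
      intro h5
      apply hne
      have h6 : n % m = b := by
        have h7 : n % m = (b : ℤ) % m :=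
          (Int.emod_eq_emod_iff_emod_sub_eq_zero).2 (Int.emod_eq_zero_of_dvd h5)
        rw [h7]
        exact Int.emod_eq_of_lt (by positivity) (by exact_mod_cast Finset.mem_range.1 hb)
      rw [h6]
      simp
    · intro h5
      exfalso
      apply h5
      rw [Finset.mem_range]
      omega
  have h2 : Tendsto (Elog fun n => F n * Z n) l (𝓝 0) := by
    have h3 : Tendsto (fun X : ℕ => ∑ a ∈ Finset.range m, Z a *
        Elog (fun n => if (m : ℤ) ∣ n - a then F n else 0) X) l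
        (𝓝 (∑ a ∈ Finset.range m, Z a * 0)) :=
      tendsto_finsetSum _ fun a _ => (h m hm a).const_mul (Z a)
    simp only [mul_zero, Finset.sum_const_zero] at h3
    refine h3.congr fun X => ?_
    have h4 : (fun n => F n * Z n) = fun n => ∑ a ∈ Finset.range m, Z a *
      (if (m : ℤ) ∣ n - a then F n else 0) := funext h1
    rw [h4, elog_sum]
    exact Finset.sum_congr rfl fun a _ => (elog_smul _ _ _).symm
  rw [Metric.tendsto_nhds] at h2
  filter_upwards [hev, h2 (ε / 2) (by linarith)] with X hX1 hX2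
  rw [dist_zero_right] at hX2 ⊢
  have h3 : Elog (fun n => F n * Y n) X = Elog (fun n => F n * Z n) X +
      Elog (fun n => F n * (Y n - Z n)) X := by
    rw [← elog_add]
    congr 1
    funext n
    ring
  have h4 : ‖Elog (fun n => F n * (Y n - Z n)) X‖ ≤
      ‖Elog (fun n => ((‖Y n - Z n‖ : ℝ) : ℂ)) X‖ := by
    refine elog_mono (fun n => ?_) X
    rw [norm_mul]
    exact mul_le_of_le_one_left (norm_nonneg _) (hF n)
  rw [h3]
  calc _ ≤ _ := norm_add_le _ _
    _ < ε / 2 + ε / 2 := add_lt_add_of_lt_of_le hX2 (h4.trans hX1)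
    _ = ε := by ring

end Pool.Agent.Work.MP_58cfe3_nt
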