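import Pool.Agent.Work.MP_58cfe3_nt.SApp
import Pool.Agent.Work.MP_58cfe3_nt.SUnt
import Pool.Agent.Work.MP_58cfe3_nt.SLim
import Pool.Agent.Work.MP_58cfe3_nt.SPer
import Pool.Agent.Work.MP_58cfe3_nt.WOrd
import Pool.Agent.Work.MP_58cfe3_nt.WLog
import Pool.Agent.Work.MP_58cfe3_nt.WPer
import Pool.Agent.Work.MP_58cfe3_nt.WCrit

/-!
# Module WFin: functions which are near `χ(n) n^(it)` along a filter of scales (copy of SFin)
-/

set_option autoImplicit false

namespace Pool.Agent.Work.MP_58cfe3_nt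

open Filter Topology

private theorem cj_mul (b : Bool) (z w : ℂ) : cj b (z * w) = cj b z * cj b w := by
  unfold cj
  split_ifs
  · rw [star_mul']
  · rfl

private theorem sf_norm_cj (b : Bool) (z : ℂ) : ‖cj b z‖ = ‖z‖ := by
  unfold cj
  split_ifs
  · exact norm_star z
  · rfl

private theorem sf_norm_prod {ι : Type} [Fintype ι] (s : ι → Bool) (z : ι → ℂ)
    (hz : ∀ i, ‖z i‖ ≤ 1) : ‖∏ i, cj (s i) (z i)‖ ≤ 1 :=
  norm_prod_le_one _ _ fun i _ => by rw [sf_norm_cj]; exact hz i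

private theorem cube_cj (g : ℤ → ℂ) {r : ℕ} (e : Fin r → ℤ) (n : ℤ) :
    cube g e n = ∏ A : Finset (Fin r), cj (!decide (Even A.card)) (g (n + vert e A)) := by
  unfold cube cj
  refine Finset.prod_congr rfl fun A _ => ?_
  by_cases h : Even A.card
  · simp [h]
  · simp [h]

theorem slow_core_at {g : ℤ → ℂ} (hg : MulBdd g) {l : Filter ℕ} (hl : l ≤ atTop)
    (h1 : NearAt l g) (h2 : Far g) {ι : Type} [Fintype ι] [Nonempty ι] {v : ι → ℤ}
    (hv : Function.Injective v) (s : ι → Bool) {q : ℕ} (hq : 0 < q) (a : ℤ) :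
    Tendsto (Elog fun n => if (q : ℤ) ∣ n - a then ∏ i, cj (s i) (g (n + v i)) else 0) l
      (𝓝 0) := by
  refine log_of_ord_at (fun n => ?_) hl fun ε hε hε1 => ?_
  · split_ifs
    · refine norm_prod_le_one _ _ fun i _ => ?_
      unfold cj
      split_ifs
      · rw [norm_star]
        exact hg.bdd _
      · exact hg.bdd _
    · simp
  · refine (ord_at hg hl h1 h2 hv s hq a hε hε1).mono fun X hX x hx1 hx2 => ?_
    have h3 := hX x hx1 hx2
    unfold cls at h3
    rwa [Finset.sum_filter] at h3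

private theorem unt_prime' (g : ℤ → ℂ) {q : ℕ} [NeZero q] (χ : DirichletCharacter ℂ q) (t : ℝ)
    {p : ℕ} (hp : p.Prime) : unt g χ t (p : ℤ) =
      g p * star ((if p ∣ q then 1 else χ p) * (p : ℂ) ^ ((t : ℂ) * Complex.I)) := by
  classical
  unfold unt twist
  rw [Int.toNat_natCast, hp.primeFactors, Finset.prod_singleton, if_pos (Set.mem_univ _),
    hp.factorization_self, pow_one]

private theorem unt_gap' (g : ℤ → ℂ) {q : ℕ} [NeZero q] (χ : DirichletCharacter ℂ q) (t : ℝ)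
    {p : ℕ} (hp : p.Prime) (h : ¬ p ∣ q) : 1 - (unt g χ t p).re = gap g χ t p := by
  rw [unt_prime' g χ t hp, if_neg h, gap]

theorem unt_near_at {l : Filter ℕ} (hl : l ≤ atTop) {g : ℤ → ℂ} {q : ℕ} [NeZero q]
    {χ : DirichletCharacter ℂ q} {t : ℝ}
    (h : ∀ η : ℝ, 0 < η → Tendsto (mass g χ t η) l (𝓝 0)) : NearAt l (unt g χ t) := by
  intro η hη
  refine (h η hη).congr' ?_
  have h1 : Tendsto (fun X : ℕ => (X : ℝ) ^ η) atTop atTop :=
    (tendsto_rpow_atTop hη).comp tendsto_natCast_atTop_atTop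
  filter_upwards [hl (h1.eventually_ge_atTop (q : ℝ))] with X hX
  unfold mass
  refine Finset.sum_congr rfl fun p hp => ?_
  obtain ⟨_, hp1, hp2⟩ := Finset.mem_filter.1 hp
  have h2 : q < p := by exact_mod_cast hX.trans_lt hp2
  rw [unt_gap' g χ t hp1 (Nat.not_dvd_of_pos_of_lt (NeZero.pos q) h2)]

theorem slow_cubes_at {g : ℤ → ℂ} (hg : MulBdd g) {l : Filter ℕ} (hl : l ≤ atTop) {q : ℕ}
    [NeZero q] (χ : DirichletCharacter ℂ q) (t : ℝ)
    (hnear : ∀ η : ℝ, 0 < η → Tendsto (mass g χ t η) l (𝓝 0))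
    (hfar : Tendsto (fun X : ℕ => dist2 g χ t X) atTop atTop) {r : ℕ} (hr : 1 ≤ r) :
    CubesAt l g r := by
  intro e he
  have hg' := unt_mulBdd hg χ t
  have hN := unt_near_at hl (g := g) (χ := χ) (t := t) hnear
  have hF := unt_far hg hfar
  have hY : ∀ n : ℤ, ‖∏ A : Finset (Fin r), cj (!decide (Even A.card)) (xs χ (n + vert e A))‖ ≤ 1 :=
    fun n => sf_norm_prod _ _ fun A => (norm_xs χ _).le
  have hFn : ∀ n : ℤ, ‖∏ A : Finset (Fin r), cj (!decide (Even A.card))
      (unt g χ t (n + vert e A))‖ ≤ 1 := fun n => sf_norm_prod _ _ fun A => hg'.bdd _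
  have h1 : Tendsto (Elog fun n => (∏ A : Finset (Fin r), cj (!decide (Even A.card))
      (unt g χ t (n + vert e A))) * ∏ A : Finset (Fin r), cj (!decide (Even A.card))
      (xs χ (n + vert e A))) l (𝓝 0) := by
    refine per_approx_at hFn hY (fun m hm a => ?_) (fun η hη => ?_)
    · exact slow_core_at hg' hl hN hF he (fun A => !decide (Even A.card)) hm a
    · obtain ⟨m, hm, Z, hZ1, hZ2, hZ3⟩ := xs_approx χ (vert e) (fun A => !decide (Even A.card)) hη
      exact ⟨m, hm, Z, hZ1, hZ2, hl hZ3⟩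
  have hcb : ∀ n, ‖cube g e n‖ ≤ 1 := norm_cube_le hg.bdd e
  have h2 : Tendsto (Elog fun n => cube g e n - (∏ A : Finset (Fin r), cj (!decide (Even A.card))
      (unt g χ t (n + vert e A))) * ∏ A : Finset (Fin r), cj (!decide (Even A.card))
      (xs χ (n + vert e A))) atTop (𝓝 0) := by
    refine elog_zero_of_tendsto ((bdd_of_le hcb).sub ((bdd_of_le hFn).mul (bdd_of_le hY))) ?_
    have h3 := vert_lim hr e t
    have h4 : Tendsto (fun n : ℕ => ‖(∏ A : Finset (Fin r), cj (!decide (Even A.card))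
        ((((n : ℤ) + vert e A : ℤ) : ℂ) ^ ((t : ℂ) * Complex.I))) - 1‖) atTop (𝓝 0) := by
      have h5 := (h3.sub (tendsto_const_nhds (x := (1 : ℂ)))).norm
      rwa [sub_self, norm_zero] at h5
    refine squeeze_zero_norm' ?_ h4
    obtain ⟨B, hB⟩ : ∃ B : ℕ, ∀ A, |vert e A| ≤ B := by
      refine ⟨∑ A, (vert e A).natAbs, fun A => ?_⟩
      rw [Int.abs_eq_natAbs]
      exact_mod_cast Finset.single_le_sum (f := fun A => (vert e A).natAbs)
        (fun _ _ => Nat.zero_le _) (Finset.mem_univ A)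
    filter_upwards [eventually_gt_atTop B] with n hn
    have hpos : ∀ A, 0 < (n : ℤ) + vert e A := by
      intro A
      have h5 := (abs_le.1 (hB A)).1
      omega
    have h5 : cube g e n = ((∏ A : Finset (Fin r), cj (!decide (Even A.card))
        (unt g χ t (n + vert e A))) * ∏ A : Finset (Fin r), cj (!decide (Even A.card))
        (xs χ (n + vert e A))) * ∏ A : Finset (Fin r), cj (!decide (Even A.card))
        ((((n : ℤ) + vert e A : ℤ) : ℂ) ^ ((t : ℂ) * Complex.I)) := by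
      rw [cube_cj, ← Finset.prod_mul_distrib, ← Finset.prod_mul_distrib]
      refine Finset.prod_congr rfl fun A _ => ?_
      rw [← cj_mul, ← cj_mul, ← unt_eq g χ t (hpos A)]
    rw [h5, ← mul_sub_one, norm_mul, norm_mul]
    calc _ ≤ (1 : ℝ) * ‖_‖ := by
          refine mul_le_mul_of_nonneg_right ?_ (norm_nonneg _)
          exact mul_le_one₀ (hFn n) (norm_nonneg _) (hY n)
      _ = _ := one_mul _
  have h3 := h1.add (h2.mono_left hl)
  rw [add_zero] at h3
  refine h3.congr fun X => ?_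
  rw [← elog_add]
  congr 1
  funext n
  exact add_sub_cancel _ _

theorem slow_universal_at {g : ℤ → ℂ} (hg : MulBdd g) {l : Filter ℕ} (hl : l ≤ atTop) {q : ℕ}
    [NeZero q] (χ : DirichletCharacter ℂ q) (t : ℝ)
    (hnear : ∀ η : ℝ, 0 < η → Tendsto (mass g χ t η) l (𝓝 0))
    (hfar : Tendsto (fun X : ℕ => dist2 g χ t X) atTop atTop) {r : ℕ} (hr : 1 ≤ r) :
    UniversalAt l g r := criterion_at hl hg (slow_cubes_at hg hl χ t hnear hfar hr)

end Pool.Agent.Work.MP_58cfe3_nt
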